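import Mathlib

/-!
Definitions used in the statement on transverse tori in Engel 4-manifolds.
A torus is presented as a map on the plane that is invariant under the integer lattice.
Bundle maps into the tangent bundle of `M` are written by their coefficients in the global
frame `(W, X, [W,X], [X,[W,X]])`.
-/

open scoped Manifold ContDiff unitInterval

namespace Pool.Agent.Lib.MP_72f1d0_gt

/-- The model space of the 4-manifold. -/
abbrev V4 : Type := EuclideanSpace ℝ (Fin 4)

variable {M : Type*} [TopologicalSpace M] [ChartedSpace V4 M]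

/-- `V` is a smooth vector field on `M`. -/
def SmoothField [IsManifold (𝓡 4) 1 M] (V : Π p : M, TangentSpace (𝓡 4) p) : Prop :=
  ContMDiff (𝓡 4) (𝓡 4).tangent ∞ (fun p => (⟨p, V p⟩ : TangentBundle (𝓡 4) M))

/-- The four vectors `W, X, [W,X], [X,[W,X]]` at the point `p`. -/
noncomputable def frame (W X : Π p : M, TangentSpace (𝓡 4) p) (p : M) :
    Fin 4 → TangentSpace (𝓡 4) p :=
  ![W p, X p, VectorField.mlieBracket (𝓡 4) W X p,
    VectorField.mlieBracket (𝓡 4) X (VectorField.mlieBracket (𝓡 4) W X) p]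

/-- `W, X` are smooth and `W, X, [W,X], [X,[W,X]]` are everywhere linearly independent:
the plane field `D` spanned by `W` and `X` is an Engel structure framed by `W` and `X`. -/
def FramedEngel [IsManifold (𝓡 4) 1 M] (W X : Π p : M, TangentSpace (𝓡 4) p) : Prop :=
  SmoothField W ∧ SmoothField X ∧ ∀ p, LinearIndependent ℝ (frame W X p)

/-- The tangent vector at `p` with coefficients `a` in the frame. -/
noncomputable def vec (W X : Π p : M, TangentSpace (𝓡 4) p) (p : M) (a : Fin 4 → ℝ) :
    TangentSpace (𝓡 4) p :=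
  ∑ i, a i • frame W X p i

/-- `f` is (the lift to the plane of) a smooth embedding of the torus `ℝ² / ℤ²`: a smooth
immersion whose fibres are exactly the orbits of the lattice. -/
def TorusEmbedding (f : ℝ × ℝ → M) : Prop :=
  ContMDiff 𝓘(ℝ, ℝ × ℝ) (𝓡 4) ∞ f ∧
  (∀ q q' : ℝ × ℝ, f q = f q' ↔ ∃ m n : ℤ, q' = q + ((m : ℝ), (n : ℝ))) ∧
  ∀ q, Function.Injective (mfderiv 𝓘(ℝ, ℝ × ℝ) (𝓡 4) f q)

/-- `(f, F)` is a formal transverse embedding of the torus: `F s` is a continuous family of
fibrewise injective bundle maps `TΣ → f^* TM` (written in the frame), `F 0 = df`, and the image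
of `F 1` is complementary to `D = span (W, X)`. -/
structure FormalTransverse (W X : Π p : M, TangentSpace (𝓡 4) p) (f : ℝ × ℝ → M)
    (F : I → ℝ × ℝ → (ℝ × ℝ →L[ℝ] (Fin 4 → ℝ))) : Prop where
  emb : TorusEmbedding f
  cont : Continuous fun x : I × (ℝ × ℝ) => F x.1 x.2
  per : ∀ (s : I) (q : ℝ × ℝ) (m n : ℤ), F s (q + ((m : ℝ), (n : ℝ))) = F s q
  inj : ∀ s q, Function.Injective (F s q)
  start : ∀ q v, vec W X (f q) (F 0 q v) = mfderiv 𝓘(ℝ, ℝ × ℝ) (𝓡 4) f q v
  transverse : ∀ q, IsCompl
    (Submodule.span ℝ (Set.range fun v => vec W X (f q) (F 1 q v)))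
    (Submodule.span ℝ {W (f q), X (f q)})

end Pool.Agent.Lib.MP_72f1d0_gt
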