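import Mathlib
import Pool.Agent.Lib.MP_72f1d0_gt.Statement

/-!
Euclidean model for transverse tori in a framed Engel manifold, and the statements of the
modules of the proof.

* `G = ℂ × ℂ` is both the ambient space and the space of frame coordinates:
  `X = (1,0)`, `W = (i,0)`, `R = (0,1)`, `Z = (0,i)`.
* a pair `A : G × G` is the pair `(μ, τ)` of the images of `∂_s` and `∂_t`.
-/

open scoped ContDiff Manifold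

namespace Pool.Agent.Lib.MP_72f1d0_gt

abbrev Q : Type := ℝ × ℝ
abbrev G : Type := ℂ × ℂ
abbrev UI : Type := ↥unitInterval

/-- A lattice vector. -/
def lat (m : ℤ × ℤ) : Q := ((m.1 : ℝ), (m.2 : ℝ))

/-- Lattice periodic function. -/
def Per {Y : Type*} (g : Q → Y) : Prop := ∀ q m, g (q + lat m) = g q

/-- Lattice periodic set. -/
def PerSet (S : Set Q) : Prop := ∀ q m, q ∈ S → q + lat m ∈ S

def vX : G := (1, 0)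
def vW : G := (Complex.I, 0)
def vR : G := (0, 1)
def vZ : G := (0, Complex.I)

/-- The `R`-coordinate (the form `α`). -/
def al (v : G) : ℝ := v.2.re

/-- The transversality determinant of `(μ, τ)`; it is `1` on `(Z, R)`. -/
def dl (A : G × G) : ℝ := A.2.2.re * A.1.2.im - A.2.2.im * A.1.2.re

/-- The linear map with columns `A.1`, `A.2`, applied to `v`. -/
noncomputable def ap (A : G × G) (v : Q) : G := v.1 • A.1 + v.2 • A.2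

def Inj (A : G × G) : Prop := ∀ a b : ℝ, a • A.1 + b • A.2 = 0 → a = 0 ∧ b = 0

def Ind3 (x y z : G) : Prop :=
  ∀ a b c : ℝ, a • x + b • y + c • z = 0 → a = 0 ∧ b = 0 ∧ c = 0

def Ind4 (x y z w : G) : Prop :=
  ∀ a b c d : ℝ, a • x + b • y + c • z + d • w = 0 → a = 0 ∧ b = 0 ∧ c = 0 ∧ d = 0

/-- The straight segment from `A` to `B` consists of injective pairs. -/
def SegInj (A B : G × G) : Prop := ∀ u : ℝ, 0 ≤ u → u ≤ 1 → Inj (A + u • (B - A))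

/-- The exterior derivative of the coframe `om` in frame coordinates. -/
noncomputable def brk (e om : G → (G →L[ℝ] G)) (p A B : G) : G :=
  fderiv ℝ om p (e p A) (e p B) - fderiv ℝ om p (e p B) (e p A)

/-- A framed Engel structure on `G`, invariant under the lattice `i (ℤ²)`;
`e p` is the frame and `om p` the dual coframe. -/
structure Ctx where
  i : Q →L[ℝ] G
  i_inj : Function.Injective i
  e : G → (G →L[ℝ] G)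
  om : G → (G →L[ℝ] G)
  e_smooth : ContDiff ℝ ∞ e
  om_smooth : ContDiff ℝ ∞ om
  om_e : ∀ p v, om p (e p v) = v
  e_om : ∀ p v, e p (om p v) = v
  e_per : ∀ p m, e (p + i (lat m)) = e p
  om_per : ∀ p m, om (p + i (lat m)) = om p
  brXW : ∀ p, (brk e om p vX vW).2 = Complex.I
  brXZ : ∀ p, al (brk e om p vX vZ) = -1

noncomputable def Ctx.br (c : Ctx) (p A B : G) : G := brk c.e c.om p A B

/-- `W` spans the characteristic line field. -/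
def Ctx.Nrm (c : Ctx) : Prop := ∀ p, al (c.br p vW vZ) = 0

/-- The differential of `f` in frame coordinates, as the pair `(μ, τ)`. -/
noncomputable def dd (c : Ctx) (f : Q → G) (q : Q) : G × G :=
  (c.om (f q) (fderiv ℝ f q (1, 0)), c.om (f q) (fderiv ℝ f q (0, 1)))

/-- The differential of a map `Φ` into `G`, in frame coordinates. -/
noncomputable def AA {Y : Type*} [NormedAddCommGroup Y] [NormedSpace ℝ Y] (c : Ctx)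
    (Φ : Y → G) (x : Y) : Y →L[ℝ] G :=
  (c.om (Φ x)).comp (fderiv ℝ Φ x)

/-- Lift of an embedded torus. -/
structure IsEmb (c : Ctx) (f : Q → G) : Prop where
  smooth : ContDiff ℝ ∞ f
  equi : ∀ q m, f (q + lat m) = f q + c.i (lat m)
  inj : Function.Injective f
  imm : ∀ q, Inj (dd c f q)

/-- A smooth isotopy of embedded tori. -/
structure Iso (c : Ctx) (f F : Q → G) where
  H : ℝ → Q → G
  smooth : ContDiff ℝ ∞ fun x : ℝ × Q => H x.1 x.2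
  emb : ∀ l, IsEmb c (H l)
  h0 : H 0 = f
  h1 : H 1 = F

/-- The zone function `cos (2 π r s)`. -/
noncomputable def cc (r : ℕ) (s : ℝ) : ℝ := Real.cos (2 * Real.pi * r * s)

/-- The side function `sin (2 π r s)`. -/
noncomputable def ss (r : ℕ) (s : ℝ) : ℝ := Real.sin (2 * Real.pi * r * s)

/-! ### Analytic infrastructure -/

/-- Master lemma for maps `Φ (q, v)` with `Φ (q, 0) = f q`. -/
def MLStmt : Prop :=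
  ∀ (c : Ctx) (f : Q → G), IsEmb c f →
  ∀ (V : Type) [NormedAddCommGroup V] [NormedSpace ℝ V] [FiniteDimensional ℝ V]
    (Φ : Q × V → G), ContDiff ℝ ∞ Φ →
    (∀ q m v, Φ (q + lat m, v) = Φ (q, v) + c.i (lat m)) → (∀ q, Φ (q, 0) = f q) →
    ∀ κ : ℝ, 0 < κ → ∃ ρ : ℝ, 0 < ρ ∧
      (∀ q v, ‖v‖ ≤ ρ → ‖AA c Φ (q, v) - AA c Φ (q, 0)‖ ≤ κ) ∧
      ∀ q q' v v', ‖v‖ ≤ ρ → ‖v'‖ ≤ ρ → Φ (q, v) = Φ (q', v') →
        ‖AA c Φ (q, 0) (q' - q, v' - v)‖ ≤ κ * ‖(q' - q, v' - v)‖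

/-- The universal displacement map and its Maurer-Cartan expansions. -/
def PsiStmt : Prop :=
  ∀ c : Ctx, ∃ (Ψ : G × G → G) (C3 : G → (G →ₗ[ℝ] G →ₗ[ℝ] G →ₗ[ℝ] G)),
    ContDiff ℝ ∞ Ψ ∧ (∀ A B D, ContDiff ℝ ∞ fun p => C3 p A B D) ∧
    (∀ p w m, Ψ (p + c.i (lat m), w) = Ψ (p, w) + c.i (lat m)) ∧
    (∀ p m, C3 (p + c.i (lat m)) = C3 p) ∧ (∀ p, Ψ (p, 0) = p) ∧
    ∀ R : ℝ, ∃ C : ℝ, 0 ≤ C ∧ ∀ p : G, (∃ q, ‖p - c.i q‖ ≤ R) →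
      (∀ A B D : G, ‖C3 p A B D‖ ≤ C * ‖A‖ * ‖B‖ * ‖D‖) ∧ ∀ w : G, ‖w‖ ≤ 1 →
      (∀ x w' : G, ‖AA c Ψ (p, w) (c.e p x, w') -
          (x + c.br p w x + w' + (1 / 2 : ℝ) • c.br p w w')‖ ≤ C * ‖w‖ ^ 2 * (‖x‖ + ‖w'‖)) ∧
      ∀ w' : G, ‖AA c Ψ (p, w) (0, w') -
          (w' + (1 / 2 : ℝ) • c.br p w w' + C3 p w w w')‖ ≤ C * ‖w‖ ^ 3 * ‖w'‖

/-- One corrugation in the direction of the integral form `ℓ`. -/
def CorrStmt : Prop :=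
  ∀ (c : Ctx) (f : Q → G), IsEmb c f →
  ∀ ℓ : Q →L[ℝ] ℝ, (∀ m, ∃ k : ℤ, ℓ (lat m) = k) →
  ∀ ν : Q → ℝ, ContDiff ℝ ∞ ν → Per ν →
  ∀ n₁ n₂ : Q → G, Continuous n₁ → Continuous n₂ → Per n₁ → Per n₂ →
  (∀ q (v : Q) (x y : ℝ), |x| ≤ |ℓ v| / 2 → |y| ≤ |ℓ v| →
    ap (dd c f q) v + (x * ν q) • n₁ q + (y * ν q) • n₂ q = 0 → v = 0) →
  ∀ ε : ℝ, 0 < ε → ∃ (F : Q → G) (J : Iso c f F),
    (∀ l q, ν q = 0 → J.H l q = f q) ∧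
    ∀ l q, ∃ θ a : ℝ, 0 ≤ a ∧ a ≤ 1 ∧ (l = 1 → a = 1) ∧ ∀ v : Q,
      ‖ap (dd c (J.H l) q) v - (ap (dd c f q) v + (ℓ v * (a * ν q)) •
        ((-(Real.cos (2 * θ)) / 2) • n₁ q + Real.cos θ • n₂ q))‖ ≤ ε * ‖v‖

/-- Lifting a path of injective pairs to a path of linear automorphisms. -/
def FramesStmt : Prop :=
  ∀ K : ℝ × Q → G × G, Continuous K → (∀ s, Per fun q => K (s, q)) →
  (∀ s q, 0 ≤ s → s ≤ 1 → Inj (K (s, q))) →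
  ∃ C C' : ℝ × Q → (G →L[ℝ] G), Continuous C ∧ Continuous C' ∧
    (∀ s, Per fun q => C (s, q)) ∧ (∀ s, Per fun q => C' (s, q)) ∧
    (∀ x v, C x (C' x v) = v) ∧ (∀ x v, C' x (C x v) = v) ∧
    (∀ q v, C (1, q) v = v) ∧
    (∀ s q, 0 ≤ s → s ≤ 1 → C (s, q) (K (1, q)).1 = (K (s, q)).1 ∧
      C (s, q) (K (1, q)).2 = (K (s, q)).2) ∧
    ∀ q, (∀ s, 0 ≤ s → s ≤ 1 → K (s, q) = K (1, q)) → ∀ s v, C (s, q) v = v

/-! ### The geometric operations -/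

/-- The snake: makes `α (τ)` positive. -/
def SnakeStmt : Prop :=
  ∀ c : Ctx, c.Nrm → ∀ f : Q → G, IsEmb c f →
  ∀ j n : Q → G, ContDiff ℝ ∞ j → ContDiff ℝ ∞ n → Per j → Per n →
  ∀ O K K₂ : Set Q, IsOpen O → PerSet O → IsClosed K → PerSet K → K ⊆ O →
    IsClosed K₂ → PerSet K₂ →
  (∀ q ∈ O, Ind4 (dd c f q).1 (dd c f q).2 (j q) (n q) ∧
    Ind4 (dd c f q).1 (j q) (n q) vW ∧ 0 < al (n q)) →
  (∀ q ∈ K₂, q ∈ K ∨ 0 < al (dd c f q).2) →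
  (∀ q, SegInj (dd c f q) ((dd c f q).1, n q)) →
  ∀ ε : ℝ, 0 < ε → ∃ (F : Q → G) (J : Iso c f F) (p : ℝ × Q → G),
    Continuous p ∧ (∀ l, Per fun q => p (l, q)) ∧ (∀ q, p (0, q) = n q) ∧
    (∀ l q, q ∉ O → J.H l q = f q ∧ p (l, q) = n q) ∧
    (∀ l q, ‖(dd c (J.H l) q).1 - (dd c f q).1‖ ≤ ε ∧ ‖p (l, q) - n q‖ ≤ ε ∧
      SegInj (dd c (J.H l) q) ((dd c (J.H l) q).1, p (l, q))) ∧
    ∀ q ∈ K₂, 0 < al (dd c F q).2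

/-- The helix: an isotopy through transverse embeddings near `K` which makes `α (τ)` negative
where `ν = 1`, and crosses `α (τ) = 0` on the side prescribed by the sign `sg`. -/
def BumpStmt : Prop :=
  ∀ (c : Ctx) (f : Q → G), IsEmb c f →
  ∀ ν : Q → ℝ, ContDiff ℝ ∞ ν → Per ν → (∀ q, 0 ≤ ν q ∧ ν q ≤ 1) →
  ∀ sg : ℝ, sg = 1 ∨ sg = -1 →
  ∀ K : Set Q, IsClosed K → PerSet K → (∀ q, q ∉ K → ν q = 0) →
  (∀ q ∈ K, 0 < dl (dd c f q) ∧ 0 < al (dd c f q).2) →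
  ∃ (F : Q → G) (J : Iso c f F),
    (∀ l q, ν q = 0 → J.H l q = f q) ∧
    (∀ l, ∀ q ∈ K, 0 < dl (dd c (J.H l) q) ∧
      (al (dd c (J.H l) q).2 = 0 → 0 < sg * (dd c (J.H l) q).2.2.im)) ∧
    ∀ q, ν q = 1 → al (dd c F q).2 < 0

/-- Admissible one-dimensional profile `(σ, h, g)`. -/
structure Adm (H Ca ρ : ℝ) (σ h : ℝ → ℝ) (g : ℝ → ℂ) : Prop where
  perσ : ∀ θ, σ (θ + 1) = σ θ + 1
  perh : ∀ θ, h (θ + 1) = h θ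
  perg : ∀ θ, g (θ + 1) = g θ
  pos : ∀ θ, 0 < deriv σ θ
  small : ∀ θ, |h θ| ≤ ρ ∧ ‖g θ‖ ≤ ρ
  speed : ∀ θ, deriv σ θ / 2 ≤ ‖((deriv σ θ : ℝ) : ℂ) + deriv g θ‖
  slope : ∀ θ, |deriv h θ| ≤ Ca * (deriv σ θ + ‖deriv g θ‖)
  pairs : ∀ θ θ', θ < θ' → -((σ θ' - σ θ) / 2) ≤ (g θ').re - (g θ).re ∨
    h θ' - h θ ≤ -((H + 1) * (σ θ' - σ θ))

/-- A smooth family of admissible profiles starting at the trivial one. -/
structure AdmFam (H Ca ρ : ℝ) (σ h : ℝ → ℝ → ℝ) (g : ℝ → ℝ → ℂ) : Prop where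
  sσ : ContDiff ℝ ∞ fun x : ℝ × ℝ => σ x.1 x.2
  sh : ContDiff ℝ ∞ fun x : ℝ × ℝ => h x.1 x.2
  sg : ContDiff ℝ ∞ fun x : ℝ × ℝ => g x.1 x.2
  adm : ∀ l, Adm H Ca ρ (σ l) (h l) (g l)
  σ0 : ∀ θ, σ 0 θ = θ
  h0 : ∀ θ, h 0 θ = 0
  g0 : ∀ θ, g 0 θ = 0

/-- The signed area rate `Im (conj g * g')`. -/
noncomputable def area (g : ℝ → ℂ) (θ : ℝ) : ℝ := ((starRingEnd ℂ) (g θ) * deriv g θ).im

/-- The error term that the profile has to beat. -/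
noncomputable def err (σ h : ℝ → ℝ) (g : ℝ → ℂ) (θ : ℝ) : ℝ :=
  (|h θ| + ‖g θ‖) * (deriv σ θ + |deriv h θ| + |area g θ|) + ‖g θ‖ ^ 2 * ‖deriv g θ‖

/-- The bead profile. -/
def BeadProfileStmt : Prop :=
  ∀ (r : ℕ), 1 ≤ r → ∀ H κ₀ κ₁ b₀ : ℝ, 0 < H → 0 < κ₀ → 0 < κ₁ → 0 < b₀ →
  ∃ Ca : ℝ, 0 < Ca ∧ ∀ C ρ : ℝ, 0 < C → 0 < ρ →
  ∃ (σ h : ℝ → ℝ → ℝ) (g : ℝ → ℝ → ℂ), AdmFam H Ca ρ σ h g ∧
    ∀ θ b κ : ℝ, |b| ≤ H → |κ| ≤ κ₁ →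
      (1 / 10 ≤ cc r (σ 1 θ) → κ₀ ≤ κ) → (cc r (σ 1 θ) ≤ -(1 / 10) → κ ≤ -κ₀) →
      (|cc r (σ 1 θ)| ≤ 3 / 10 → b₀ ≤ b) →
      C * err (σ 1) (h 1) (g 1) θ < deriv (σ 1) θ * b + deriv (h 1) θ + κ * area (g 1) θ

/-- The tilt profile. -/
def TiltProfileStmt : Prop :=
  ∀ (r : ℕ), 1 ≤ r → ∀ H : ℝ, 0 < H →
  ∃ Ca : ℝ, 0 < Ca ∧ ∀ C ρ : ℝ, 0 < C → 0 < ρ →
  ∃ (σ h : ℝ → ℝ → ℝ), AdmFam H Ca ρ σ h (fun _ _ => 0) ∧
    ∀ θ b : ℝ, |b| ≤ H → cc r θ ≤ 11 / 20 →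
      C * err (σ 1) (h 1) (fun _ => 0) θ < deriv (σ 1) θ * b + deriv (h 1) θ

/-- Beads: the final step to a transverse embedding. -/
def BeadStmt : Prop :=
  ∀ (c : Ctx) (f : Q → G), IsEmb c f → ∀ r : ℕ, 1 ≤ r →
  ∀ ζ : Q → G, ContDiff ℝ ∞ ζ → Per ζ →
  (∀ q, 0 < dl (ζ q, (dd c f q).2) ∧ Ind3 (dd c f q).1 (ζ q) (dd c f q).2) →
  (∀ q, (1 / 10 ≤ cc r q.1 → 0 < al (dd c f q).2) ∧
    (cc r q.1 ≤ -(1 / 10) → al (dd c f q).2 < 0) ∧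
    (|cc r q.1| ≤ 3 / 10 → 0 < dl (dd c f q))) →
  ∃ (F : Q → G) (J : Iso c f F) (p : ℝ × Q → G),
    Continuous p ∧ (∀ l, Per fun q => p (l, q)) ∧ (∀ q, p (0, q) = ζ q) ∧
    (∀ l q, 0 < dl (p (l, q), (dd c (J.H l) q).2) ∧
      SegInj (dd c (J.H l) q) (p (l, q), (dd c (J.H l) q).2)) ∧
    ∀ q, 0 < dl (dd c F q)

/-- Tilt: makes the embedding transverse on the zone `cc ≤ 11/20`. -/
def TiltStmt : Prop :=
  ∀ (c : Ctx) (f : Q → G), IsEmb c f → ∀ r : ℕ, 1 ≤ r →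
  ∀ ζ : Q → G, ContDiff ℝ ∞ ζ → Per ζ →
  (∀ q, 0 < dl (ζ q, (dd c f q).2) ∧ Ind3 (dd c f q).1 (ζ q) (dd c f q).2) →
  (∀ q, 0 < al (dd c f q).2) →
  ∃ (F : Q → G) (J : Iso c f F) (p : ℝ × Q → G),
    Continuous p ∧ (∀ l, Per fun q => p (l, q)) ∧ (∀ q, p (0, q) = ζ q) ∧
    (∀ l q, 0 < dl (p (l, q), (dd c (J.H l) q).2) ∧ 0 < al (dd c (J.H l) q).2 ∧
      SegInj (dd c (J.H l) q) (p (l, q), (dd c (J.H l) q).2)) ∧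
    ∀ q, cc r q.1 ≤ 11 / 20 → 0 < dl (dd c F q)

/-! ### Normal form of the formal end point -/

/-- `0` for `cc ≥ -9/10` and `1` for `cc ≤ -19/20`. -/
noncomputable def yy (r : ℕ) (s : ℝ) : ℝ := Real.smoothTransition (-20 * cc r s - 18)

noncomputable def bb (r : ℕ) (η : ℝ → ℝ) (s : ℝ) : ℂ :=
  ⟨1 - 2 * yy r s, η s * (yy r s * (1 - yy r s))⟩

/-- The normal form `(y X + i b, y W + b)`. -/
noncomputable def Nb (r : ℕ) (η : ℝ → ℝ) (q : Q) : G × G :=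
  ((((yy r q.1 : ℝ) : ℂ), Complex.I * bb r η q.1),
    (Complex.I * ((yy r q.1 : ℝ) : ℂ), bb r η q.1))

/-- Change of basis of the torus acting on a pair. -/
noncomputable def act (A : Q →L[ℝ] Q) (P : G × G) : G × G := (ap P (A (1, 0)), ap P (A (0, 1)))

def NormStmt : Prop :=
  ∀ N : Q → G × G, Continuous N → Per N → (∀ q, dl (N q) ≠ 0) →
  ∃ A : Q ≃L[ℝ] Q, (∀ m, ∃ m', A (lat m) = lat m') ∧ (∀ m, ∃ m', A.symm (lat m) = lat m') ∧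
  ∃ r : ℕ, 1 ≤ r ∧ ∃ sg : ℝ, (sg = 1 ∨ sg = -1) ∧
  ∃ η : ℝ → ℝ, Continuous η ∧ (∀ s, η (s + 1) = η s) ∧
    (∀ s, 0 < ss r s → 0 < η s) ∧ (∀ s, ss r s < 0 → 0 < sg * η s) ∧
  ∃ Λ : ℝ × Q → G × G, Continuous Λ ∧ (∀ u, Per fun q => Λ (u, q)) ∧
    (∀ x, dl (Λ x) ≠ 0) ∧ (∀ q, Λ (0, q) = act (A : Q →L[ℝ] Q) (N (A q))) ∧
    ∀ q, Λ (1, q) = Nb r η q

/-! ### The theorem in the Euclidean model and on a manifold -/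

def CoreStmt (c : Ctx) : Prop :=
  ∀ f : Q → G, IsEmb c f → ∀ Γ : UI → Q → G × G,
  Continuous (fun x : UI × Q => Γ x.1 x.2) → (∀ s, Per (Γ s)) → (∀ s q, Inj (Γ s q)) →
  (∀ q, Γ 0 q = dd c f q) → (∀ q, dl (Γ 1 q) ≠ 0) →
  ∃ (H : ℝ → Q → G) (K : UI → UI → Q → G × G),
    ContDiff ℝ ∞ (fun x : ℝ × Q => H x.1 x.2) ∧ (∀ l, IsEmb c (H l)) ∧
    Continuous (fun x : UI × UI × Q => K x.1 x.2.1 x.2.2) ∧
    (∀ l s, Per (K l s)) ∧ (∀ l s q, Inj (K l s q)) ∧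
    (∀ (l : UI) q, K l 0 q = dd c (H l) q) ∧ (∀ l q, dl (K l 1 q) ≠ 0) ∧
    H 0 = f ∧ (∀ s q, K 0 s q = Γ s q) ∧ ∀ s q, K 1 s q = dd c (H 1) q

/-- Reduction to the case where `W` is characteristic. -/
def GaugeStmt : Prop := (∀ c : Ctx, c.Nrm → CoreStmt c) → ∀ c : Ctx, CoreStmt c

/-- The standard inclusion of the plane. -/
def i0 (q : Q) : G := (⟨q.1, q.2⟩, 0)

/-- Tubular neighbourhood of an embedded torus with a smooth normal frame. -/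
def TubeStmt.{u} : Prop :=
  ∀ (M : Type u) [TopologicalSpace M] [T2Space M] [ChartedSpace V4 M] [IsManifold (𝓡 4) ∞ M]
    (f : Q → M), TorusEmbedding f → ∀ n₁ n₂ : Q → V4, Per n₁ → Per n₂ →
    ContMDiff 𝓘(ℝ, Q) (𝓡 4).tangent ∞
      (fun q => (Bundle.TotalSpace.mk' V4 (f q) (n₁ q) : TangentBundle (𝓡 4) M)) →
    ContMDiff 𝓘(ℝ, Q) (𝓡 4).tangent ∞
      (fun q => (Bundle.TotalSpace.mk' V4 (f q) (n₂ q) : TangentBundle (𝓡 4) M)) →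
    (∀ (q v : Q) (a b : ℝ),
      (show V4 from mfderiv 𝓘(ℝ, Q) (𝓡 4) f q v) + a • n₁ q + b • n₂ q = 0 →
        v = 0 ∧ a = 0 ∧ b = 0) →
    ∃ Θ : G → M, ContMDiff 𝓘(ℝ, G) (𝓡 4) ∞ Θ ∧
      (∀ p, (mfderiv 𝓘(ℝ, G) (𝓡 4) Θ p).IsInvertible) ∧
      (∀ p p', Θ p = Θ p' ↔ ∃ m, p' = p + i0 (lat m)) ∧ ∀ q, Θ (i0 q) = f q

/-- The existence h-principle for transverse tori in framed Engel manifolds. -/
def MainStmt.{u} : Prop :=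
  ∀ (M : Type u) [TopologicalSpace M] [T2Space M] [ChartedSpace V4 M] [IsManifold (𝓡 4) ∞ M]
    (W X : Π p : M, TangentSpace (𝓡 4) p), FramedEngel W X →
    ∀ (f : ℝ × ℝ → M) (F : UI → ℝ × ℝ → (ℝ × ℝ →L[ℝ] (Fin 4 → ℝ))),
    FormalTransverse W X f F →
    ∃ (H : ℝ → ℝ × ℝ → M) (K : UI → UI → ℝ × ℝ → (ℝ × ℝ →L[ℝ] (Fin 4 → ℝ))),
      ContMDiff 𝓘(ℝ, ℝ × (ℝ × ℝ)) (𝓡 4) ∞ (fun x : ℝ × (ℝ × ℝ) => H x.1 x.2) ∧
      Continuous (fun x : UI × UI × (ℝ × ℝ) => K x.1 x.2.1 x.2.2) ∧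
      (∀ l : UI, FormalTransverse W X (H l) (K l)) ∧ H 0 = f ∧ K 0 = F ∧
      ∀ s q v, vec W X (H 1 q) (K 1 s q v) = mfderiv 𝓘(ℝ, ℝ × ℝ) (𝓡 4) (H 1) q v

end Pool.Agent.Lib.MP_72f1d0_gt
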