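import Mathlib
import Pool.Agent.Lib.MP_72f1d0_gt.Defs

/-! General utilities: periodic compactness, cone bounds, smoothing, brackets. -/

open scoped ContDiff Topology
open Set Filter

namespace Pool.Agent.Lib.MP_72f1d0_gt

/-! ### The lattice -/

@[simp] lemma lat_zero : lat 0 = 0 := by simp [lat]

lemma lat_add (m n : ℤ × ℤ) : lat (m + n) = lat m + lat n := by simp [lat]

lemma lat_neg (m : ℤ × ℤ) : lat (-m) = -lat m := by simp [lat]

@[simp] lemma lat_fst (m : ℤ × ℤ) : (lat m).1 = m.1 := rfl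
@[simp] lemma lat_snd (m : ℤ × ℤ) : (lat m).2 = m.2 := rfl

/-- The fundamental box. -/
def box : Set Q := Icc (0 : ℝ) 1 ×ˢ Icc (0 : ℝ) 1

lemma isCompact_box : IsCompact box := isCompact_Icc.prod isCompact_Icc

lemma exists_box (q : Q) : ∃ m, q + lat m ∈ box := by
  refine ⟨(-⌊q.1⌋, -⌊q.2⌋), ⟨?_, ?_⟩, ⟨?_, ?_⟩⟩ <;> simp [lat]
  · exact Int.floor_le _
  · linarith [Int.lt_floor_add_one q.1]
  · exact Int.floor_le _
  · linarith [Int.lt_floor_add_one q.2]

lemma Per.sub {Y : Type*} {g : Q → Y} (h : Per g) (q : Q) (m : ℤ × ℤ) : g (q - lat m) = g q := by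
  have := h q (-m); rwa [lat_neg, ← sub_eq_add_neg] at this

lemma PerSet.iff {S : Set Q} (h : PerSet S) (q : Q) (m : ℤ × ℤ) : q + lat m ∈ S ↔ q ∈ S := by
  refine ⟨fun hq => ?_, h q m⟩
  have := h _ (-m) hq
  rwa [lat_neg, add_neg_cancel_right] at this

lemma PerSet.compl {S : Set Q} (h : PerSet S) : PerSet Sᶜ := fun q m hq hq' =>
  hq ((h.iff q m).1 hq')

lemma PerSet.inter {S T : Set Q} (h : PerSet S) (h' : PerSet T) : PerSet (S ∩ T) :=
  fun q m hq => ⟨h q m hq.1, h' q m hq.2⟩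

lemma PerSet.union {S T : Set Q} (h : PerSet S) (h' : PerSet T) : PerSet (S ∪ T) :=
  fun q m hq => hq.imp (h q m) (h' q m)

lemma perSet_univ : PerSet (univ : Set Q) := fun _ _ _ => mem_univ _

lemma Per.perSet {Y : Type*} {g : Q → Y} (h : Per g) (P : Y → Prop) : PerSet {q | P (g q)} :=
  fun q m hq => by simpa [h q m] using hq

lemma per_const {Y : Type*} (y : Y) : Per fun _ : Q => y := fun _ _ => rfl

lemma Per.comp {Y Z : Type*} {g : Q → Y} (h : Per g) (k : Y → Z) : Per fun q => k (g q) :=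
  fun q m => by simp only [h q m]

lemma Per.comp₂ {Y Y' Z : Type*} {g : Q → Y} {g' : Q → Y'} (h : Per g) (h' : Per g')
    (k : Y → Y' → Z) : Per fun q => k (g q) (g' q) :=
  fun q m => by simp only [h q m, h' q m]

lemma cc_per (r : ℕ) : Per fun q : Q => cc r q.1 := fun q m => by
  have : 2 * Real.pi * r * (q.1 + m.1) = 2 * Real.pi * r * q.1 + ((r * m.1 : ℤ) : ℝ) * (2 * Real.pi) := by
    push_cast; ring
  simp only [cc, Prod.fst_add, lat_fst, this, Real.cos_add_int_mul_two_pi]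

lemma ss_per (r : ℕ) : Per fun q : Q => ss r q.1 := fun q m => by
  have : 2 * Real.pi * r * (q.1 + m.1) = 2 * Real.pi * r * q.1 + ((r * m.1 : ℤ) : ℝ) * (2 * Real.pi) := by
    push_cast; ring
  simp only [ss, Prod.fst_add, lat_fst, this, Real.sin_add_int_mul_two_pi]

lemma cc_smooth (r : ℕ) : ContDiff ℝ ∞ (cc r) := by unfold cc; fun_prop
lemma ss_smooth (r : ℕ) : ContDiff ℝ ∞ (ss r) := by unfold ss; fun_prop
lemma cc_sq_add_ss_sq (r : ℕ) (s : ℝ) : cc r s ^ 2 + ss r s ^ 2 = 1 := Real.cos_sq_add_sin_sq _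

/-! ### Periodic compactness -/

/-- A positive continuous periodic function on a closed periodic set has a positive lower
bound. -/
theorem per_pos {Y : Type*} [TopologicalSpace Y] {K : Set Y} (hK : IsCompact K)
    {S : Set (Q × Y)} (hS : IsClosed S) (hSp : ∀ q y m, (q, y) ∈ S → (q + lat m, y) ∈ S)
    (hSK : ∀ x ∈ S, x.2 ∈ K) {g : Q × Y → ℝ} (hg : Continuous g)
    (hgp : ∀ y, Per fun q => g (q, y)) (hpos : ∀ x ∈ S, 0 < g x) :
    ∃ m : ℝ, 0 < m ∧ ∀ x ∈ S, m ≤ g x := by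
  have hc : IsCompact ((box ×ˢ K) ∩ S) := (isCompact_box.prod hK).inter_right hS
  rcases ((box ×ˢ K) ∩ S).eq_empty_or_nonempty with he | hne
  · refine ⟨1, one_pos, fun x hx => ?_⟩
    obtain ⟨m, hm⟩ := exists_box x.1
    have : (x.1 + lat m, x.2) ∈ (box ×ˢ K) ∩ S := ⟨⟨hm, hSK x hx⟩, hSp _ _ _ hx⟩
    rw [he] at this; exact this.elim
  · obtain ⟨x₀, hx₀, hmin⟩ := hc.exists_isMinOn hne hg.continuousOn
    refine ⟨g x₀, hpos x₀ hx₀.2, fun x hx => ?_⟩
    obtain ⟨m, hm⟩ := exists_box x.1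
    have h1 : (x.1 + lat m, x.2) ∈ (box ×ˢ K) ∩ S := ⟨⟨hm, hSK x hx⟩, hSp _ _ _ hx⟩
    have h2 := hmin h1
    have h3 : g (x.1 + lat m, x.2) = g x := hgp x.2 x.1 m
    have h4 : g x₀ ≤ g (x.1 + lat m, x.2) := h2
    rwa [h3] at h4

theorem per_pos0 {S : Set Q} (hS : IsClosed S) (hSp : PerSet S) {g : Q → ℝ} (hg : Continuous g)
    (hgp : Per g) (hpos : ∀ q ∈ S, 0 < g q) : ∃ m : ℝ, 0 < m ∧ ∀ q ∈ S, m ≤ g q := by
  obtain ⟨m, hm, h⟩ := per_pos (Y := Unit) (K := univ) isCompact_univ (S := Prod.fst ⁻¹' S)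
    (hS.preimage continuous_fst) (fun q y m hq => hSp q m hq) (fun _ _ => mem_univ _)
    (g := fun x => g x.1) (hg.comp continuous_fst) (fun _ => hgp) (fun x hx => hpos x.1 hx)
  exact ⟨m, hm, fun q hq => h (q, ()) hq⟩

theorem per_bound {Y Z : Type*} [TopologicalSpace Y] [SeminormedAddCommGroup Z] {K : Set Y}
    (hK : IsCompact K) {g : Q × Y → Z} (hg : Continuous g) (hgp : ∀ y, Per fun q => g (q, y)) :
    ∃ C : ℝ, 0 < C ∧ ∀ q, ∀ y ∈ K, ‖g (q, y)‖ ≤ C := by
  obtain ⟨C, hC⟩ := (isCompact_box.prod hK).exists_bound_of_continuousOn hg.continuousOn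
  refine ⟨max C 1, lt_max_of_lt_right one_pos, fun q y hy => ?_⟩
  obtain ⟨m, hm⟩ := exists_box q
  have h3 : g (q + lat m, y) = g (q, y) := hgp y q m
  rw [← h3]
  exact (hC _ ⟨hm, hy⟩).trans (le_max_left _ _)

theorem per_bound0 {Z : Type*} [SeminormedAddCommGroup Z] {g : Q → Z} (hg : Continuous g)
    (hgp : Per g) : ∃ C : ℝ, 0 < C ∧ ∀ q, ‖g q‖ ≤ C := by
  obtain ⟨C, hC, h⟩ := per_bound (Y := Unit) (K := univ) isCompact_univ
    (g := fun x => g x.1) (hg.comp continuous_fst) (fun _ => hgp)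
  exact ⟨C, hC, fun q => h q () (mem_univ _)⟩

/-- Uniform continuity of periodic families. -/
theorem unif {Y Z : Type*} [PseudoMetricSpace Y] [PseudoMetricSpace Z] {K : Set Y}
    (hK : IsCompact K) {g : Q × Y → Z} (hg : Continuous g) (hgp : ∀ y, Per fun q => g (q, y))
    {κ : ℝ} (hκ : 0 < κ) : ∃ δ : ℝ, 0 < δ ∧ ∀ q q', ∀ y ∈ K, ∀ y' ∈ K, dist q q' ≤ δ →
      dist y y' ≤ δ → dist (g (q, y)) (g (q', y')) ≤ κ := by
  have hc : IsCompact ((Icc (-1 : ℝ) 2 ×ˢ Icc (-1 : ℝ) 2 : Set Q) ×ˢ K) :=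
    (isCompact_Icc.prod isCompact_Icc).prod hK
  have hu := hc.uniformContinuousOn_of_continuous hg.continuousOn
  obtain ⟨δ, hδ, h⟩ := Metric.uniformContinuousOn_iff.1 hu κ hκ
  refine ⟨min (δ / 2) 1, lt_min (half_pos hδ) one_pos, fun q q' y hy y' hy' hq hyy => ?_⟩
  obtain ⟨m, hm⟩ := exists_box q
  have e1 : g (q + lat m, y) = g (q, y) := hgp y q m
  have e2 : g (q' + lat m, y') = g (q', y') := hgp y' q' m
  rw [← e1, ← e2]
  have hd : dist (q + lat m) (q' + lat m) ≤ min (δ / 2) 1 := by rwa [dist_add_right]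
  have hd1 : dist (q + lat m) (q' + lat m) ≤ 1 := hd.trans (min_le_right _ _)
  rw [Prod.dist_eq, max_le_iff, Real.dist_eq, Real.dist_eq, abs_le, abs_le] at hd1
  obtain ⟨⟨a1, a2⟩, a3, a4⟩ := hm
  refine (h _ ⟨⟨⟨by linarith, by linarith⟩, ⟨by linarith, by linarith⟩⟩, hy⟩ _
    ⟨⟨⟨by linarith, by linarith⟩, ⟨by linarith, by linarith⟩⟩, hy'⟩ ?_).le
  rw [Prod.dist_eq, max_lt_iff]
  exact ⟨(hd.trans (min_le_left _ _)).trans_lt (half_lt_self hδ),
    (hyy.trans (min_le_left _ _)).trans_lt (half_lt_self hδ)⟩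

theorem unif0 {Z : Type*} [PseudoMetricSpace Z] {g : Q → Z} (hg : Continuous g) (hgp : Per g)
    {κ : ℝ} (hκ : 0 < κ) : ∃ δ : ℝ, 0 < δ ∧ ∀ q q', dist q q' ≤ δ → dist (g q) (g q') ≤ κ := by
  obtain ⟨δ, hδ, h⟩ := unif (Y := Unit) (K := univ) isCompact_univ
    (g := fun x => g x.1) (hg.comp continuous_fst) (fun _ => hgp) hκ
  exact ⟨δ, hδ, fun q q' hq => h q q' () (mem_univ _) () (mem_univ _) hq (by simp [hδ.le])⟩

/-- A positively homogeneous map which is injective at `0` on a closed periodic family of cones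
is uniformly bounded below there. -/
theorem cone_bound {Y V Z : Type*} [TopologicalSpace Y] [NormedAddCommGroup V] [NormedSpace ℝ V]
    [FiniteDimensional ℝ V] [NormedAddCommGroup Z] [NormedSpace ℝ Z] {K : Set Y}
    (hK : IsCompact K) {S : Set (Q × Y × V)} (hS : IsClosed S)
    (hSp : ∀ q y v m, (q, y, v) ∈ S → (q + lat m, y, v) ∈ S)
    (hSc : ∀ q y v (t : ℝ), 0 < t → (q, y, v) ∈ S → (q, y, t • v) ∈ S)
    (hSK : ∀ x ∈ S, x.2.1 ∈ K) {φ : Q × Y × V → Z} (hφ : Continuous φ)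
    (hφp : ∀ y v, Per fun q => φ (q, y, v))
    (hφc : ∀ q y v (t : ℝ), 0 < t → φ (q, y, t • v) = t • φ (q, y, v))
    (hinj : ∀ x ∈ S, φ x = 0 → x.2.2 = 0) :
    ∃ κ : ℝ, 0 < κ ∧ ∀ x ∈ S, κ * ‖x.2.2‖ ≤ ‖φ x‖ := by
  have : ProperSpace V := FiniteDimensional.proper_real V
  obtain ⟨κ, hκ, h⟩ := per_pos (Y := Y × V) (K := K ×ˢ Metric.sphere (0 : V) 1)
    (hK.prod (isCompact_sphere 0 1)) (S := S ∩ {x | ‖x.2.2‖ = 1})
    (hS.inter (isClosed_eq (by fun_prop) continuous_const))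
    (fun q y m hq => ⟨hSp q y.1 y.2 m hq.1, hq.2⟩)
    (fun x hx => ⟨hSK x hx.1, by simpa using hx.2⟩) (g := fun x => ‖φ x‖) hφ.norm
    (fun y q m => by simpa using congrArg norm (hφp y.1 y.2 q m))
    (fun x hx => norm_pos_iff.2 fun h0 => by
      have h1 := hinj x hx.1 h0
      have h2 : ‖x.2.2‖ = 1 := hx.2
      rw [h1, norm_zero] at h2; exact zero_ne_one h2)
  refine ⟨κ, hκ, fun x hx => ?_⟩
  obtain ⟨q, y, v⟩ := x
  rcases eq_or_ne v 0 with rfl | hv
  · simp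
  have hn : 0 < ‖v‖ := norm_pos_iff.2 hv
  have h1 := h (q, y, ‖v‖⁻¹ • v) ⟨hSc q y v _ (inv_pos.2 hn) hx, by
    simp [norm_smul, hn.ne']⟩
  simp only [hφc q y v _ (inv_pos.2 hn), norm_smul, norm_inv, norm_norm] at h1
  calc κ * ‖v‖ ≤ ‖v‖⁻¹ * ‖φ (q, y, v)‖ * ‖v‖ := mul_le_mul_of_nonneg_right h1 hn.le
    _ = ‖φ (q, y, v)‖ := by field_simp

theorem cone_bound0 {V Z : Type*} [NormedAddCommGroup V] [NormedSpace ℝ V]
    [FiniteDimensional ℝ V] [NormedAddCommGroup Z] [NormedSpace ℝ Z]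
    {S : Set (Q × V)} (hS : IsClosed S)
    (hSp : ∀ q v m, (q, v) ∈ S → (q + lat m, v) ∈ S)
    (hSc : ∀ q v (t : ℝ), 0 < t → (q, v) ∈ S → (q, t • v) ∈ S)
    {φ : Q × V → Z} (hφ : Continuous φ) (hφp : ∀ v, Per fun q => φ (q, v))
    (hφc : ∀ q v (t : ℝ), 0 < t → φ (q, t • v) = t • φ (q, v))
    (hinj : ∀ x ∈ S, φ x = 0 → x.2 = 0) :
    ∃ κ : ℝ, 0 < κ ∧ ∀ x ∈ S, κ * ‖x.2‖ ≤ ‖φ x‖ := by
  obtain ⟨κ, hκ, h⟩ := cone_bound (Y := Unit) (K := univ) isCompact_univ
    (S := {x : Q × Unit × V | (x.1, x.2.2) ∈ S}) (hS.preimage (by fun_prop))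
    (fun q y v m hq => hSp q v m hq) (fun q y v t ht hq => hSc q v t ht hq)
    (fun _ _ => mem_univ _) (φ := fun x => φ (x.1, x.2.2)) (by fun_prop)
    (fun _ v => hφp v) (fun q _ v t ht => hφc q v t ht) (fun x hx h0 => hinj _ hx h0)
  exact ⟨κ, hκ, fun x hx => h (x.1, (), x.2) hx⟩

/-! ### Smoothing -/

open MeasureTheory in
theorem smooth_approx {Z : Type*} [NormedAddCommGroup Z] [NormedSpace ℝ Z] [CompleteSpace Z]
    {g : Q → Z} (hg : Continuous g) (hgp : Per g) {ε : ℝ} (hε : 0 < ε) :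
    ∃ g' : Q → Z, ContDiff ℝ ∞ g' ∧ Per g' ∧ ∀ q, ‖g' q - g q‖ ≤ ε := by
  obtain ⟨δ, hδ, h⟩ := unif0 hg hgp hε
  set φ : ContDiffBump (0 : Q) := ⟨δ / 2, δ, half_pos hδ, half_lt_self hδ⟩
  have hl : LocallyIntegrable g (volume : Measure Q) := hg.locallyIntegrable
  refine ⟨convolution (φ.normed volume) g (ContinuousLinearMap.lsmul ℝ ℝ) volume,
    φ.hasCompactSupport_normed.contDiff_convolution_left _ φ.contDiff_normed hl, ?_, fun q => ?_⟩
  · intro q m
    simp only [convolution_def]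
    congr 1
    funext t
    rw [show q + lat m - t = (q - t) + lat m by abel, hgp]
  · rw [← dist_eq_norm]
    exact φ.dist_normed_convolution_le hl.aestronglyMeasurable
      fun x hx => h x q (Metric.mem_ball.1 hx).le

lemma PerSet.infDist {S : Set Q} (h : PerSet S) : Per fun q => Metric.infDist q S := by
  intro q m
  have e : S = (fun x => x + lat m) '' S := by
    ext x
    constructor
    · intro hx
      exact ⟨x - lat m, by rw [← h.iff _ m]; simpa using hx, by simp⟩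
    · rintro ⟨y, hy, rfl⟩; exact h y m hy
  have hi : Isometry fun x : Q => x + lat m := isometry_add_right _
  have := Metric.infDist_image hi (x := q) (t := S)
  rw [← e] at this
  exact this

/-- Smooth periodic Urysohn function. -/
theorem urysohn {K O : Set Q} (hK : IsClosed K) (hKp : PerSet K) (hO : IsOpen O) (hOp : PerSet O)
    (hKO : K ⊆ O) : ∃ (ν : Q → ℝ) (K' : Set Q), ContDiff ℝ ∞ ν ∧ Per ν ∧
      (∀ q, 0 ≤ ν q ∧ ν q ≤ 1) ∧ (∀ q ∈ K, ν q = 1) ∧ IsClosed K' ∧ PerSet K' ∧ K ⊆ K' ∧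
      K' ⊆ O ∧ ∀ q, q ∉ K' → ν q = 0 := by
  rcases Oᶜ.eq_empty_or_nonempty with he | hne
  · have : O = univ := by simpa using he
    exact ⟨fun _ => 1, univ, contDiff_const, per_const _, fun _ => ⟨zero_le_one, le_rfl⟩,
      fun _ _ => rfl, isClosed_univ, perSet_univ, subset_univ _, this ▸ subset_rfl,
      fun q hq => (hq (mem_univ _)).elim⟩
  have hc : Continuous fun q => Metric.infDist q Oᶜ := Metric.continuous_infDist_pt _
  have hp : Per fun q => Metric.infDist q Oᶜ := hOp.compl.infDist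
  obtain ⟨m, hm, hmK⟩ := per_pos0 hK hKp hc hp fun q hq =>
    (hO.isClosed_compl.notMem_iff_infDist_pos hne).1 (fun h => h (hKO hq))
  obtain ⟨g, hg, hgp, hgc⟩ := smooth_approx hc hp (ε := m / 10) (by positivity)
  refine ⟨fun q => Real.smoothTransition (5 * g q / m - 2),
    {q | m / 4 ≤ Metric.infDist q Oᶜ}, ?_, hgp.comp fun y => Real.smoothTransition (5 * y / m - 2),
    fun q => ⟨Real.smoothTransition.nonneg _, Real.smoothTransition.le_one _⟩, fun q hq => ?_,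
    isClosed_le continuous_const hc, hp.perSet fun y => m / 4 ≤ y, fun q hq => ?_,
    fun q hq => ?_, fun q hq => ?_⟩
  · exact Real.smoothTransition.contDiff.comp
      (((contDiff_const.mul hg).div_const _).sub contDiff_const)
  · apply Real.smoothTransition.one_of_one_le
    have h1 := hmK q hq
    have h2 := abs_le.1 (Real.norm_eq_abs _ ▸ hgc q)
    rw [le_sub_iff_add_le, le_div_iff₀ hm]; linarith
  · have h1 := hmK q hq
    show m / 4 ≤ _
    linarith
  · by_contra h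
    have : Metric.infDist q Oᶜ = 0 := Metric.infDist_zero_of_mem h
    have h1 : m / 4 ≤ Metric.infDist q Oᶜ := hq
    linarith
  · apply Real.smoothTransition.zero_of_nonpos
    have h1 : Metric.infDist q Oᶜ < m / 4 := not_le.1 hq
    have h2 := abs_le.1 (Real.norm_eq_abs _ ▸ hgc q)
    rw [sub_nonpos, div_le_iff₀ hm]; linarith

/-! ### Derivatives of periodic and equivariant maps -/

lemma fderiv_shift {Y Z : Type*} [NormedAddCommGroup Y] [NormedSpace ℝ Y] [NormedAddCommGroup Z]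
    [NormedSpace ℝ Z] {g : Y → Z} {a : Y} {b : Z} (h : ∀ x, g (x + a) = g x + b) (x : Y) :
    fderiv ℝ g (x + a) = fderiv ℝ g x := by
  rw [← fderiv_comp_add_right]
  have : (fun y => g (y + a)) = fun y => g y + b := funext h
  rw [this, fderiv_add_const]

lemma Per.fderiv {Z : Type*} [NormedAddCommGroup Z] [NormedSpace ℝ Z] {g : Q → Z} (h : Per g) :
    Per (fderiv ℝ g) := fun q m =>
  fderiv_shift (b := 0) (fun x => by rw [h x m, add_zero]) q

/-- Smooth periodic functions are Lipschitz. -/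
theorem per_lip {Z : Type*} [NormedAddCommGroup Z] [NormedSpace ℝ Z] {g : Q → Z}
    (hg : ContDiff ℝ ∞ g) (hgp : Per g) : ∃ L : ℝ, 0 < L ∧ (∀ q, ‖fderiv ℝ g q‖ ≤ L) ∧
      ∀ q q', ‖g q - g q'‖ ≤ L * ‖q - q'‖ := by
  obtain ⟨L, hL, h⟩ := per_bound0 (hg.continuous_fderiv (by simp)) hgp.fderiv
  refine ⟨L, hL, h, fun q q' => ?_⟩
  exact convex_univ.norm_image_sub_le_of_norm_fderiv_le
    (fun x _ => hg.differentiable (by simp) x) (fun x _ => h x) (mem_univ q') (mem_univ q)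

/-! ### Pairs -/

@[simp] lemma ap_one_zero (A : G × G) : ap A (1, 0) = A.1 := by simp [ap]
@[simp] lemma ap_zero_one (A : G × G) : ap A (0, 1) = A.2 := by simp [ap]

lemma inj_iff_ap {A : G × G} : Inj A ↔ ∀ v, ap A v = 0 → v = 0 :=
  ⟨fun h _ hv => Prod.ext (h _ _ hv).1 (h _ _ hv).2,
    fun h a b hab => Prod.ext_iff.1 (h (a, b) hab)⟩

lemma continuous_ap : Continuous fun x : (G × G) × Q => ap x.1 x.2 := by unfold ap; fun_prop

@[fun_prop] lemma continuous_al : Continuous al := by unfold al; fun_prop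
@[fun_prop] lemma continuous_dl : Continuous dl := by unfold dl; fun_prop

lemma al_add (v w : G) : al (v + w) = al v + al w := by simp [al]
lemma al_sub (v w : G) : al (v - w) = al v - al w := by simp [al]
lemma al_neg (v : G) : al (-v) = -al v := by simp [al]
lemma al_smul (t : ℝ) (v : G) : al (t • v) = t * al v := by simp [al]
lemma abs_al_le (v : G) : |al v| ≤ ‖v‖ := (Complex.abs_re_le_norm _).trans (norm_snd_le v)

/-- `al` as a continuous linear map. -/
noncomputable def alL : G →L[ℝ] ℝ := Complex.reCLM.comp (ContinuousLinearMap.snd ℝ ℂ ℂ)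
@[simp] lemma alL_apply (v : G) : alL v = al v := rfl
lemma al_smooth : ContDiff ℝ ∞ al := alL.contDiff

lemma dl_smooth : ContDiff ℝ ∞ dl := by
  have h1 : ContDiff ℝ ∞ Complex.re := Complex.reCLM.contDiff
  have h2 : ContDiff ℝ ∞ Complex.im := Complex.imCLM.contDiff
  unfold dl
  exact ((h1.comp contDiff_snd.snd).mul (h2.comp contDiff_fst.snd)).sub
    ((h2.comp contDiff_snd.snd).mul (h1.comp contDiff_fst.snd))

lemma coef_of_dl {A : G × G} (h : dl A ≠ 0) {a b : ℝ} (hab : (a • A.1 + b • A.2).2 = 0) :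
    a = 0 ∧ b = 0 := by
  have h1 := congrArg Complex.re hab
  have h2 := congrArg Complex.im hab
  simp at h1 h2
  unfold dl at h
  constructor
  · apply mul_right_cancel₀ h
    linear_combination A.2.2.re * h2 - A.2.2.im * h1
  · apply mul_right_cancel₀ h
    linear_combination A.1.2.im * h1 - A.1.2.re * h2

lemma inj_of_dl {A : G × G} (h : dl A ≠ 0) : Inj A := fun _ _ hab =>
  coef_of_dl h (by rw [hab]; rfl)

lemma ind4_of_dl {A : G × G} (h : dl A ≠ 0) : Ind4 A.1 A.2 vX vW := by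
  intro a b c d hab
  have h2 : (a • A.1 + b • A.2).2 = 0 := by
    have := congrArg Prod.snd hab
    simpa [vX, vW] using this
  obtain ⟨rfl, rfl⟩ := coef_of_dl h h2
  have h1 := congrArg Prod.fst hab
  simp [vX, vW] at h1
  have h3 := congrArg Complex.re h1
  have h4 := congrArg Complex.im h1
  simp at h3 h4
  exact ⟨rfl, rfl, h3, h4⟩

lemma snd_ne_zero_of_dl {A : G × G} (h : dl A ≠ 0) : A.2.2 ≠ 0 := fun h0 => h (by simp [dl, h0])

/-! ### The bracket -/

namespace Ctx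

variable (c : Ctx)

lemma br_def (p A B : G) : c.br p A B =
    fderiv ℝ c.om p (c.e p A) (c.e p B) - fderiv ℝ c.om p (c.e p B) (c.e p A) := rfl

lemma br_XW (p : G) : (c.br p vX vW).2 = Complex.I := c.brXW p
lemma br_XZ (p : G) : al (c.br p vX vZ) = -1 := c.brXZ p

lemma br_self (p A : G) : c.br p A A = 0 := by simp [br_def]
lemma br_anti (p A B : G) : c.br p A B = -c.br p B A := by simp [br_def]
lemma br_add_left (p A A' B : G) : c.br p (A + A') B = c.br p A B + c.br p A' B := by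
  simp only [br_def, map_add, add_apply]; abel
lemma br_add_right (p A B B' : G) : c.br p A (B + B') = c.br p A B + c.br p A B' := by
  simp only [br_def, map_add, add_apply]; abel
lemma br_smul_left (p : G) (t : ℝ) (A B : G) : c.br p (t • A) B = t • c.br p A B := by
  simp only [br_def, map_smul, smul_apply, smul_sub]
lemma br_smul_right (p : G) (t : ℝ) (A B : G) : c.br p A (t • B) = t • c.br p A B := by
  simp only [br_def, map_smul, smul_apply, smul_sub]
lemma br_zero_left (p B : G) : c.br p 0 B = 0 := by simp [br_def]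
lemma br_zero_right (p A : G) : c.br p A 0 = 0 := by simp [br_def]
lemma br_neg_left (p A B : G) : c.br p (-A) B = -c.br p A B := by
  rw [← neg_one_smul ℝ A, br_smul_left, neg_one_smul]
lemma br_neg_right (p A B : G) : c.br p A (-B) = -c.br p A B := by
  rw [← neg_one_smul ℝ B, br_smul_right, neg_one_smul]
lemma br_sub_left (p A A' B : G) : c.br p (A - A') B = c.br p A B - c.br p A' B := by
  rw [sub_eq_add_neg, br_add_left, br_neg_left, ← sub_eq_add_neg]
lemma br_sub_right (p A B B' : G) : c.br p A (B - B') = c.br p A B - c.br p A B' := by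
  rw [sub_eq_add_neg, br_add_right, br_neg_right, ← sub_eq_add_neg]

lemma br_per (p A B : G) (m : ℤ × ℤ) : c.br (p + c.i (lat m)) A B = c.br p A B := by
  have h : fderiv ℝ c.om (p + c.i (lat m)) = fderiv ℝ c.om p :=
    fderiv_shift (b := 0) (fun x => by rw [c.om_per, add_zero]) p
  simp only [br_def, h, c.e_per]

/-- The bracket is jointly smooth in the point and the two vectors. -/
lemma br_smooth3 : ContDiff ℝ ∞ fun x : G × G × G => c.br x.1 x.2.1 x.2.2 := by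
  have h1 : ContDiff ℝ ∞ fun x : G × G × G => fderiv ℝ c.om x.1 :=
    (c.om_smooth.fderiv_right (m := ∞) (by simp)).comp contDiff_fst
  have h2 : ContDiff ℝ ∞ fun x : G × G × G => c.e x.1 x.2.1 :=
    (c.e_smooth.comp contDiff_fst).clm_apply contDiff_snd.fst
  have h3 : ContDiff ℝ ∞ fun x : G × G × G => c.e x.1 x.2.2 :=
    (c.e_smooth.comp contDiff_fst).clm_apply contDiff_snd.snd
  exact ((h1.clm_apply h2).clm_apply h3).sub ((h1.clm_apply h3).clm_apply h2)

lemma br_contDiff {Y : Type*} [NormedAddCommGroup Y] [NormedSpace ℝ Y] {p A B : Y → G}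
    (hp : ContDiff ℝ ∞ p) (hA : ContDiff ℝ ∞ A) (hB : ContDiff ℝ ∞ B) :
    ContDiff ℝ ∞ fun y => c.br (p y) (A y) (B y) :=
  c.br_smooth3.comp (hp.prodMk (hA.prodMk hB))

lemma br_smooth (A B : G) : ContDiff ℝ ∞ fun p => c.br p A B :=
  c.br_contDiff contDiff_id contDiff_const contDiff_const

/-- The bracket of two vectors of `D`. -/
lemma br_D (p : G) (u u' : ℂ) :
    (c.br p (u, 0) (u', 0)).2 = (((starRingEnd ℂ) u * u').im : ℂ) * Complex.I := by
  have e1 : ((u, 0) : G) = u.re • vX + u.im • vW := by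
    simp [vX, vW]
  have e2 : ((u', 0) : G) = u'.re • vX + u'.im • vW := by
    simp [vX, vW]
  have h := c.br_XW p
  rw [e1, e2]
  simp only [br_add_left, br_add_right, br_smul_left, br_smul_right, br_self, smul_zero,
    zero_add, add_zero, c.br_anti p vW vX, Prod.snd_add, Prod.smul_snd, Prod.snd_neg, h]
  simp
  ring

/-- Anything continuous and periodic is bounded in a bounded neighbourhood of the plane. -/
lemma bound_near {Z : Type*} [SeminormedAddCommGroup Z] {g : G → Z} (hg : Continuous g)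
    (hgp : ∀ p m, g (p + c.i (lat m)) = g p) (R : ℝ) :
    ∃ C : ℝ, 0 < C ∧ ∀ p : G, (∃ q, ‖p - c.i q‖ ≤ R) → ‖g p‖ ≤ C := by
  obtain ⟨C, hC, h⟩ := per_bound (K := Metric.closedBall (0 : G) R) (isCompact_closedBall _ _)
    (g := fun x : Q × G => g (c.i x.1 + x.2)) (by fun_prop) (fun y q m => by
      simp only [map_add]
      rw [show c.i q + c.i (lat m) + y = c.i q + y + c.i (lat m) by abel, hgp])
  refine ⟨C, hC, fun p ⟨q, hq⟩ => ?_⟩
  have := h q (p - c.i q) (by simpa using hq)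
  simpa using this

lemma br_bound (R : ℝ) : ∃ C : ℝ, 0 < C ∧ ∀ p : G, (∃ q, ‖p - c.i q‖ ≤ R) →
    ∀ A B, ‖c.br p A B‖ ≤ C * ‖A‖ * ‖B‖ := by
  obtain ⟨C₁, h₁, H₁⟩ := c.bound_near (g := fderiv ℝ c.om)
    (c.om_smooth.continuous_fderiv (by simp))
    (fun p m => fderiv_shift (b := 0) (fun x => by rw [c.om_per, add_zero]) p) R
  obtain ⟨C₂, h₂, H₂⟩ := c.bound_near c.e_smooth.continuous c.e_per R
  refine ⟨2 * (C₁ * C₂ * C₂), by positivity, fun p hp A B => ?_⟩
  have key : ∀ A B : G, ‖fderiv ℝ c.om p (c.e p A) (c.e p B)‖ ≤ C₁ * C₂ * C₂ * ‖A‖ * ‖B‖ := by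
    intro A B
    have a1 : ‖c.e p A‖ ≤ C₂ * ‖A‖ := (c.e p).le_of_opNorm_le (H₂ p hp) A
    have a2 : ‖c.e p B‖ ≤ C₂ * ‖B‖ := (c.e p).le_of_opNorm_le (H₂ p hp) B
    have a3 : ‖fderiv ℝ c.om p (c.e p A)‖ ≤ C₁ * (C₂ * ‖A‖) :=
      ((fderiv ℝ c.om p).le_of_opNorm_le (H₁ p hp) _).trans (by gcongr)
    calc _ ≤ C₁ * (C₂ * ‖A‖) * ‖c.e p B‖ := (fderiv ℝ c.om p (c.e p A)).le_of_opNorm_le a3 _
      _ ≤ C₁ * (C₂ * ‖A‖) * (C₂ * ‖B‖) := by gcongr
      _ = _ := by ring
  rw [br_def]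
  refine (norm_sub_le _ _).trans ?_
  have := key A B
  have := key B A
  linarith

end Ctx

/-! ### Differentials in frame coordinates -/

lemma ap_dd (c : Ctx) (f : Q → G) (q v : Q) : ap (dd c f q) v = c.om (f q) (fderiv ℝ f q v) := by
  have : v = v.1 • ((1 : ℝ), (0 : ℝ)) + v.2 • ((0 : ℝ), (1 : ℝ)) := by simp
  conv_rhs => rw [this]
  simp only [ap, dd, map_add, map_smul]

lemma ap_dd_AA (c : Ctx) (f : Q → G) (q v : Q) : ap (dd c f q) v = AA c f q v := ap_dd c f q v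

lemma dd_congr (c : Ctx) {f g : Q → G} {q : Q} (h : f =ᶠ[𝓝 q] g) : dd c f q = dd c g q := by
  simp only [dd, h.fderiv_eq, h.eq_of_nhds]

lemma dd_congr_open (c : Ctx) {f g : Q → G} {U : Set Q} (hU : IsOpen U) (h : ∀ q ∈ U, f q = g q)
    {q : Q} (hq : q ∈ U) : dd c f q = dd c g q :=
  dd_congr c (eventually_of_mem (hU.mem_nhds hq) h)

lemma dd_per (c : Ctx) {f : Q → G} (hf : ∀ q m, f (q + lat m) = f q + c.i (lat m)) :
    Per (dd c f) := fun q m => by
  simp only [dd, fderiv_shift (fun x => hf x m) q, hf, c.om_per]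

lemma IsEmb.dd_per {c : Ctx} {f : Q → G} (hf : IsEmb c f) : Per (dd c f) :=
  Pool.Agent.Lib.MP_72f1d0_gt.dd_per c hf.equi

/-- Joint smoothness of the differential of a smooth family. -/
lemma dd_family {Y : Type*} [NormedAddCommGroup Y] [NormedSpace ℝ Y] (c : Ctx) {H : Y → Q → G}
    (hH : ContDiff ℝ ∞ fun x : Y × Q => H x.1 x.2) :
    ContDiff ℝ ∞ fun x : Y × Q => dd c (H x.1) x.2 := by
  have h1 : ContDiff ℝ ∞ fun x : Y × Q => fderiv ℝ (H x.1) x.2 :=
    ContDiff.fderiv (f := fun (x : Y × Q) (q : Q) => H x.1 q) (g := fun x : Y × Q => x.2)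
      (hH.comp (contDiff_fst.fst.prodMk contDiff_snd)) contDiff_snd (by simp)
  have h2 : ContDiff ℝ ∞ fun x : Y × Q => c.om (H x.1 x.2) := c.om_smooth.comp hH
  exact (h2.clm_apply (h1.clm_apply contDiff_const)).prodMk
    (h2.clm_apply (h1.clm_apply contDiff_const))

lemma dd_smooth (c : Ctx) {f : Q → G} (hf : ContDiff ℝ ∞ f) : ContDiff ℝ ∞ (dd c f) := by
  have := dd_family (Y := ℝ) c (H := fun _ => f) (hf.comp contDiff_snd)
  exact this.comp (contDiff_const (c := (0 : ℝ)).prodMk contDiff_id)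

lemma IsEmb.dd_smooth {c : Ctx} {f : Q → G} (hf : IsEmb c f) : ContDiff ℝ ∞ (dd c f) :=
  Pool.Agent.Lib.MP_72f1d0_gt.dd_smooth c hf.smooth

lemma IsEmb.near {c : Ctx} {f : Q → G} (hf : IsEmb c f) : ∃ R : ℝ, 0 < R ∧ ∀ q, ‖f q - c.i q‖ ≤ R :=
  per_bound0 (g := fun q => f q - c.i q) (hf.smooth.continuous.sub c.i.continuous)
    fun q m => by simp only [hf.equi, map_add]; abel

lemma AA_smooth {Y : Type*} [NormedAddCommGroup Y] [NormedSpace ℝ Y] (c : Ctx) {Φ : Y → G}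
    (h : ContDiff ℝ ∞ Φ) : ContDiff ℝ ∞ (AA c Φ) :=
  (c.om_smooth.comp h).clm_comp (h.fderiv_right (m := ∞) (by simp))

/-- Chain rule in frame coordinates. -/
lemma AA_comp {Y Y' : Type*} [NormedAddCommGroup Y] [NormedSpace ℝ Y] [NormedAddCommGroup Y']
    [NormedSpace ℝ Y'] (c : Ctx) {Φ : Y → G} {k : Y' → Y} {x : Y'} {k' : Y' →L[ℝ] Y}
    (hΦ : DifferentiableAt ℝ Φ (k x)) (hk : HasFDerivAt k k' x) (v : Y') :
    AA c (fun y => Φ (k y)) x v = AA c Φ (k x) (k' v) := by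
  have := (hΦ.hasFDerivAt.comp x hk).fderiv
  simp only [AA, ContinuousLinearMap.comp_apply]
  rw [show (fun y => Φ (k y)) = Φ ∘ k from rfl, this]
  rfl

/-- On the zero section the differential of `Φ` along `Q` is that of `f`. -/
lemma AA_zero {V : Type*} [NormedAddCommGroup V] [NormedSpace ℝ V] (c : Ctx) {f : Q → G}
    {Φ : Q × V → G} (hΦ : Differentiable ℝ Φ) (h0 : ∀ q, Φ (q, 0) = f q) (q v : Q) :
    AA c Φ (q, 0) (v, 0) = ap (dd c f q) v := by
  have e : f = fun y => Φ ((fun y : Q => ((y, 0) : Q × V)) y) := funext fun y => (h0 y).symm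
  rw [ap_dd_AA, e, AA_comp c (hΦ _) (hasFDerivAt_prodMk_left q (0 : V))]
  simp

end Pool.Agent.Lib.MP_72f1d0_gt
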