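import Mathlib
import Pool.Agent.Lib.MP_72f1d0_gt.Basic

/-! The formal layer: paths of formal immersions up to homotopy. -/

open scoped ContDiff Topology
open Set Filter

namespace Pool.Agent.Lib.MP_72f1d0_gt

/-- The space of periodic fields of injective pairs. -/
def II : Type := {A : C(Q, G × G) // Per A ∧ ∀ q, Inj (A q)}

noncomputable instance : TopologicalSpace II :=
  inferInstanceAs (TopologicalSpace {A : C(Q, G × G) // Per A ∧ ∀ q, Inj (A q)})

noncomputable instance : CoeFun II fun _ => Q → G × G := ⟨fun A => A.1⟩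

namespace II

lemma ext' {A B : II} (h : ∀ q, A q = B q) : A = B := Subtype.ext (ContinuousMap.ext h)

noncomputable def mk' (A : Q → G × G) (hc : Continuous A) (hp : Per A) (hi : ∀ q, Inj (A q)) : II :=
  ⟨⟨A, hc⟩, hp, hi⟩

@[simp] lemma mk'_apply (A : Q → G × G) (hc : Continuous A) (hp : Per A) (hi : ∀ q, Inj (A q))
    (q : Q) : mk' A hc hp hi q = A q := rfl

lemma cont (A : II) : Continuous A := A.1.continuous
lemma per (A : II) : Per A := A.2.1
lemma inj (A : II) (q : Q) : Inj (A q) := A.2.2 q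

lemma continuous_ev : Continuous fun x : II × Q => x.1 x.2 :=
  (continuous_eval (F := C(Q, G × G))).comp
    ((continuous_subtype_val.comp continuous_fst).prodMk continuous_snd)

lemma continuous_of {Y : Type*} [TopologicalSpace Y] {k : Y → II}
    (h : Continuous fun x : Y × Q => k x.1 x.2) : Continuous k :=
  Continuous.subtype_mk (ContinuousMap.continuous_of_continuous_uncurry (fun y => (k y).1) h) _

end II

lemma ext_cont {A B : II} (γ : Path A B) : Continuous fun x : ℝ × Q => γ.extend x.1 x.2 :=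
  II.continuous_ev.comp ((γ.continuous_extend.comp continuous_fst).prodMk continuous_snd)

lemma ext_mem {A B : II} (γ : Path A B) (s : ℝ) : ∃ t, γ.extend s = γ t := by
  have : γ.extend s ∈ range γ := by rw [← γ.extend_range]; exact mem_range_self s
  obtain ⟨t, ht⟩ := this
  exact ⟨t, ht.symm⟩

/-- A continuous periodic family of injective pairs. -/
structure IsFam (K : ℝ × Q → G × G) : Prop where
  cont : Continuous K
  per : ∀ s, Per fun q => K (s, q)
  inj : ∀ s q, 0 ≤ s → s ≤ 1 → Inj (K (s, q))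

noncomputable def mkPath {A B : II} {K : ℝ × Q → G × G} (h : IsFam K) (h0 : ∀ q, K (0, q) = A q)
    (h1 : ∀ q, K (1, q) = B q) : Path A B where
  toFun t := II.mk' (fun q => K (t, q)) (h.cont.comp (by fun_prop)) (h.per t)
    fun q => h.inj t q t.2.1 t.2.2
  continuous_toFun := II.continuous_of (h.cont.comp (f := fun x : UI × Q => ((x.1 : ℝ), x.2))
    (by fun_prop))
  source' := II.ext' h0
  target' := II.ext' h1

@[simp] lemma mkPath_apply {A B : II} {K : ℝ × Q → G × G} (h : IsFam K) (h0 : ∀ q, K (0, q) = A q)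
    (h1 : ∀ q, K (1, q) = B q) (t : UI) (q : Q) : mkPath h h0 h1 t q = K (t, q) := rfl

lemma ext_fam {A B : II} (γ : Path A B) : IsFam fun x => γ.extend x.1 x.2 :=
  ⟨ext_cont γ, fun s => (γ.extend s).per, fun s q _ _ => (γ.extend s).inj q⟩

lemma homotopic_of_map {X Y : Type*} [TopologicalSpace X] [TopologicalSpace Y] {Φ : X → Y}
    (hΦ : Continuous Φ) {a b : X} {p q : Path a b} (h : p.Homotopic q) {a' b' : Y}
    {p' q' : Path a' b'} (hp : ∀ t, p' t = Φ (p t)) (hq : ∀ t, q' t = Φ (q t)) :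
    p'.Homotopic q' := by
  have ha : a' = Φ a := by simpa using hp 0
  have hb : b' = Φ b := by simpa using hp 1
  subst ha hb
  have e1 : p' = p.map hΦ := by ext t; exact hp t
  have e2 : q' = q.map hΦ := by ext t; exact hq t
  rw [e1, e2]
  exact h.map ⟨Φ, hΦ⟩

lemma trans_pointwise {X Y : Type*} [TopologicalSpace X] [TopologicalSpace Y] {Φ : X → Y}
    {a b d : X} {p : Path a b} {q : Path b d} {a' b' d' : Y} {p' : Path a' b'} {q' : Path b' d'}
    (hp : ∀ t, p' t = Φ (p t)) (hq : ∀ t, q' t = Φ (q t)) (t : UI) :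
    (p'.trans q') t = Φ ((p.trans q) t) := by
  rw [Path.trans_apply, Path.trans_apply]
  split_ifs
  · exact hp _
  · exact hq _

/-- The boundary of a square commutes up to homotopy. -/
lemma square_top {Y : Type*} [TopologicalSpace Y] {k : ℝ × ℝ → Y} (hk : Continuous k)
    {A B C D : Y} {b : Path A B} {r : Path B D} {l : Path A C} {t : Path C D}
    (hb : ∀ u : UI, b u = k (u, 0)) (hr : ∀ u : UI, r u = k (1, u))
    (hl : ∀ u : UI, l u = k (0, u)) (ht : ∀ u : UI, t u = k (u, 1)) :
    (b.trans r).Homotopic (l.trans t) := by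
  let b₀ : Path ((0, 0) : ℝ × ℝ) (1, 0) := ⟨⟨fun u => (u, 0), by fun_prop⟩, rfl, rfl⟩
  let r₀ : Path ((1, 0) : ℝ × ℝ) (1, 1) := ⟨⟨fun u => (1, u), by fun_prop⟩, rfl, rfl⟩
  let l₀ : Path ((0, 0) : ℝ × ℝ) (0, 1) := ⟨⟨fun u => (0, u), by fun_prop⟩, rfl, rfl⟩
  let t₀ : Path ((0, 1) : ℝ × ℝ) (1, 1) := ⟨⟨fun u => (u, 1), by fun_prop⟩, rfl, rfl⟩
  exact homotopic_of_map hk (SimplyConnectedSpace.paths_homotopic (b₀.trans r₀) (l₀.trans t₀))
    (trans_pointwise hb hr) (trans_pointwise hl ht)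

/-- Clamp to the unit interval. -/
noncomputable def cl (s : ℝ) : ℝ := max 0 (min s 1)

@[fun_prop] lemma continuous_cl : Continuous cl := by unfold cl; fun_prop
lemma cl_nonneg (s : ℝ) : 0 ≤ cl s := le_max_left _ _
lemma cl_le_one (s : ℝ) : cl s ≤ 1 := max_le zero_le_one (min_le_right _ _)
lemma cl_of_mem {s : ℝ} (h0 : 0 ≤ s) (h1 : s ≤ 1) : cl s = s := by
  rw [cl, min_eq_left h1, max_eq_right h0]
@[simp] lemma cl_zero : cl 0 = 0 := cl_of_mem le_rfl zero_le_one
@[simp] lemma cl_one : cl 1 = 1 := cl_of_mem zero_le_one le_rfl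
@[simp] lemma cl_coe (t : UI) : cl t = t := cl_of_mem t.2.1 t.2.2

lemma square {K : ℝ × ℝ × Q → G × G} (hc : Continuous K) (hp : ∀ a b, Per fun q => K (a, b, q))
    (hi : ∀ a b q, 0 ≤ a → a ≤ 1 → 0 ≤ b → b ≤ 1 → Inj (K (a, b, q)))
    {A B C D : II} {b : Path A B} {r : Path B D} {l : Path A C} {t : Path C D}
    (hb : ∀ (u : UI) q, b u q = K (u, 0, q)) (hr : ∀ (u : UI) q, r u q = K (1, u, q))
    (hl : ∀ (u : UI) q, l u q = K (0, u, q)) (ht : ∀ (u : UI) q, t u q = K (u, 1, q)) :
    (b.trans r).Homotopic (l.trans t) := by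
  let k : ℝ × ℝ → II := fun x => II.mk' (fun q => K (cl x.1, cl x.2, q)) (hc.comp (by fun_prop))
    (hp _ _) fun q => hi _ _ q (cl_nonneg _) (cl_le_one _) (cl_nonneg _) (cl_le_one _)
  have hk : Continuous k := II.continuous_of
    (hc.comp (f := fun y : (ℝ × ℝ) × Q => (cl y.1.1, cl y.1.2, y.2)) (by fun_prop))
  exact square_top hk (fun u => II.ext' fun q => by simp [k, hb])
    (fun u => II.ext' fun q => by simp [k, hr]) (fun u => II.ext' fun q => by simp [k, hl])
    (fun u => II.ext' fun q => by simp [k, ht])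

/-! ### Groupoid algebra -/

noncomputable abbrev hc {A B : II} (γ : Path A B) : Path.Homotopic.Quotient A B := Path.Homotopic.Quotient.mk γ

lemma hc_eq {A B : II} {γ γ' : Path A B} : hc γ = hc γ' ↔ γ.Homotopic γ' :=
  Path.Homotopic.Quotient.eq

lemma hc_trans {A B C : II} (γ : Path A B) (γ' : Path B C) :
    hc (γ.trans γ') = (hc γ).trans (hc γ') := rfl
lemma hc_symm {A B : II} (γ : Path A B) : hc γ.symm = (hc γ).symm := rfl
lemma hc_refl (A : II) : hc (Path.refl A) = Path.Homotopic.Quotient.refl A := rfl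

open Path.Homotopic.Quotient in
lemma q_cancel₁ {A B C : II} (p : Path.Homotopic.Quotient A B) (q : Path.Homotopic.Quotient A C) :
    p.trans (p.symm.trans q) = q := by rw [← trans_assoc, trans_symm, refl_trans]

open Path.Homotopic.Quotient in
lemma q_cancel₂ {A B C : II} (p : Path.Homotopic.Quotient A B) (q : Path.Homotopic.Quotient B C) :
    p.symm.trans (p.trans q) = q := by rw [← trans_assoc, symm_trans, refl_trans]

/-! ### Pointwise properties -/

def PW {A B : II} (γ : Path A B) (P : Q → G × G → Prop) : Prop := ∀ t q, P q (γ t q)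

lemma PW.trans {A B C : II} {γ : Path A B} {γ' : Path B C} {P : Q → G × G → Prop} (h : PW γ P)
    (h' : PW γ' P) : PW (γ.trans γ') P := fun t q => by
  rw [Path.trans_apply]
  split_ifs
  · exact h _ q
  · exact h' _ q

lemma PW.symm {A B : II} {γ : Path A B} {P : Q → G × G → Prop} (h : PW γ P) : PW γ.symm P :=
  fun _ q => h _ q

lemma PW.mono {A B : II} {γ : Path A B} {P P' : Q → G × G → Prop} (h : PW γ P)
    (hP : ∀ q x, P q x → P' q x) : PW γ P' := fun t q => hP _ _ (h t q)

lemma PW.and {A B : II} {γ : Path A B} {P P' : Q → G × G → Prop} (h : PW γ P) (h' : PW γ P') :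
    PW γ fun q x => P q x ∧ P' q x := fun t q => ⟨h t q, h' t q⟩

lemma PW.source {A B : II} {γ : Path A B} {P : Q → G × G → Prop} (h : PW γ P) (q : Q) :
    P q (A q) := by simpa using h 0 q

lemma PW.target {A B : II} {γ : Path A B} {P : Q → G × G → Prop} (h : PW γ P) (q : Q) :
    P q (B q) := by simpa using h 1 q

lemma PW.extend {A B : II} {γ : Path A B} {P : Q → G × G → Prop} (h : PW γ P) (s : ℝ) (q : Q) :
    P q (γ.extend s q) := by
  obtain ⟨t, ht⟩ := ext_mem γ s
  rw [ht]; exact h t q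

lemma pw_refl {A : II} {P : Q → G × G → Prop} (h : ∀ q, P q (A q)) : PW (Path.refl A) P :=
  fun _ q => h q

/-! ### Segments -/

lemma seg_fam {A B : II} (h : ∀ q, SegInj (A q) (B q)) :
    IsFam fun x : ℝ × Q => A x.2 + x.1 • (B x.2 - A x.2) := by
  have hA := A.cont
  have hB := B.cont
  exact ⟨by fun_prop, fun s q m => by simp only [A.per q m, B.per q m],
    fun s q h0 h1 => h q s h0 h1⟩

noncomputable def seg (A B : II) (h : ∀ q, SegInj (A q) (B q)) : Path A B :=
  mkPath (seg_fam h) (fun q => by simp) (fun q => by simp)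

lemma seg_apply (A B : II) (h : ∀ q, SegInj (A q) (B q)) (t : UI) (q : Q) :
    seg A B h t q = A q + (t : ℝ) • (B q - A q) := rfl

lemma pw_seg {A B : II} {h : ∀ q, SegInj (A q) (B q)} {P : Q → G × G → Prop}
    (hP : ∀ q (u : ℝ), 0 ≤ u → u ≤ 1 → P q (A q + u • (B q - A q))) : PW (seg A B h) P :=
  fun t q => hP q t t.2.1 t.2.2

lemma seg_square {A A' B B' : II} (x : Path A A') (y : Path B B')
    (h : ∀ t q, SegInj (x t q) (y t q)) (h0 : ∀ q, SegInj (A q) (B q))
    (h1 : ∀ q, SegInj (A' q) (B' q)) :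
    (hc x).trans (hc (seg A' B' h1)) = (hc (seg A B h0)).trans (hc y) := by
  rw [← hc_trans, ← hc_trans, hc_eq]
  have hx := ext_cont x
  have hy := ext_cont y
  refine square (K := fun z : ℝ × ℝ × Q =>
    x.extend z.1 z.2.2 + z.2.1 • (y.extend z.1 z.2.2 - x.extend z.1 z.2.2)) ?_ ?_ ?_ ?_ ?_ ?_ ?_
  · have h1 : Continuous fun z : ℝ × ℝ × Q => x.extend z.1 z.2.2 :=
      hx.comp (f := fun z : ℝ × ℝ × Q => (z.1, z.2.2)) (by fun_prop)
    have h2 : Continuous fun z : ℝ × ℝ × Q => y.extend z.1 z.2.2 :=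
      hy.comp (f := fun z : ℝ × ℝ × Q => (z.1, z.2.2)) (by fun_prop)
    exact h1.add (continuous_snd.fst.smul (h2.sub h1))
  · intro a b q m
    simp only [(x.extend a).per q m, (y.extend a).per q m]
  · intro a b q a0 a1 b0 b1
    have := h ⟨a, a0, a1⟩ q b b0 b1
    rwa [← x.extend_extends' ⟨a, a0, a1⟩, ← y.extend_extends' ⟨a, a0, a1⟩] at this
  · intro u q; simp
  · intro u q; simp [seg_apply]
  · intro u q; simp [seg_apply]
  · intro u q; simp

lemma seg_self (A : II) (h : ∀ q, SegInj (A q) (A q)) : seg A A h = Path.refl A := by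
  ext1; funext t; exact II.ext' fun q => by simp [seg_apply]

/-! ### Truncation and reparametrisation -/

lemma trunc {A N : II} (γ : Path A N) {c : Q → ℝ} (hc' : Continuous c) (hp : Per c) :
    ∃ (E : II) (γ₁ : Path A E) (γ₂ : Path E N), (∀ q, E q = γ.extend (c q) q) ∧
      (∀ (t : UI) q, γ₁ t q = γ.extend (c q * t) q) ∧
      (∀ (t : UI) q, γ₂ t q = γ.extend (c q + (1 - c q) * t) q) ∧
      hc γ = (hc γ₁).trans (hc γ₂) := by
  have hγ := ext_cont γ
  have key : ∀ {Y : Type} [TopologicalSpace Y] (φ : Y → ℝ) (π : Y → Q), Continuous φ →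
      Continuous π → Continuous fun y => γ.extend (φ y) (π y) := fun φ π h1 h2 =>
    hγ.comp (f := fun y => (φ y, π y)) (h1.prodMk h2)
  let E : II := II.mk' (fun q => γ.extend (c q) q) (key _ _ hc' continuous_id)
    (fun q m => by simp only [hp q m, (γ.extend _).per q m]) fun q => (γ.extend _).inj q
  have f1 : IsFam fun x : ℝ × Q => γ.extend (c x.2 * x.1) x.2 :=
    ⟨key _ _ (by fun_prop) continuous_snd, fun s q m => by
      simp only [hp q m, (γ.extend _).per q m], fun s q _ _ => (γ.extend _).inj q⟩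
  have f2 : IsFam fun x : ℝ × Q => γ.extend (c x.2 + (1 - c x.2) * x.1) x.2 :=
    ⟨key _ _ (by fun_prop) continuous_snd, fun s q m => by
      simp only [hp q m, (γ.extend _).per q m], fun s q _ _ => (γ.extend _).inj q⟩
  refine ⟨E, mkPath f1 (fun q => by simp) (fun q => by simp [E]),
    mkPath f2 (fun q => by simp [E]) (fun q => by simp), fun q => rfl, fun t q => rfl,
    fun t q => rfl, ?_⟩
  rw [← Path.Homotopic.Quotient.trans_refl (hc γ), ← hc_refl, ← hc_trans, ← hc_trans, hc_eq]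
  refine Path.Homotopic.symm (square (K := fun z : ℝ × ℝ × Q =>
    γ.extend (z.2.1 + (1 - z.2.1) * (c z.2.2 * z.1)) z.2.2) (key _ _ (by fun_prop) (by fun_prop))
    ?_ ?_ ?_ ?_ ?_ ?_)
  · intro a b q m
    simp only [hp q m, (γ.extend _).per q m]
  · intro a b q _ _ _ _
    exact (γ.extend _).inj q
  · intro u q; simp
  · intro u q
    simp only [mkPath_apply]
    rw [show (u : ℝ) + (1 - u) * (c q * 1) = c q + (1 - c q) * u by ring]
  · intro u q; simp
  · intro u q; simp

lemma hc_reparam {A B : II} (γ γ' : Path A B) {φ : ℝ → ℝ} (hφ : Continuous φ) (h0 : φ 0 = 0)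
    (h1 : φ 1 = 1) (h : ∀ t : UI, γ' t = γ.extend (φ t)) : hc γ' = hc γ := by
  rw [← Path.Homotopic.Quotient.trans_refl (hc γ'), ← Path.Homotopic.Quotient.refl_trans (hc γ),
    ← hc_refl, ← hc_refl, ← hc_trans, ← hc_trans, hc_eq]
  refine square_top (k := fun z : ℝ × ℝ => γ.extend ((1 - z.2) * φ z.1 + z.2 * z.1))
    (γ.continuous_extend.comp (by fun_prop)) ?_ ?_ ?_ ?_
  · intro u; simp [h]
  · intro u; simp [h1]
  · intro u; simp [h0]
  · intro u; simp

/-! ### Isotopies -/

noncomputable def IsEmb.d {c : Ctx} {f : Q → G} (hf : IsEmb c f) : II :=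
  II.mk' (dd c f) hf.dd_smooth.continuous hf.dd_per hf.imm

@[simp] lemma IsEmb.d_apply {c : Ctx} {f : Q → G} (hf : IsEmb c f) (q : Q) : hf.d q = dd c f q := rfl

namespace Iso

variable {c : Ctx} {f F F' : Q → G}

lemma emb1 (J : Iso c f F) : IsEmb c F := J.h1 ▸ J.emb 1

lemma dd_cont (J : Iso c f F) : Continuous fun x : ℝ × Q => dd c (J.H x.1) x.2 :=
  (dd_family c J.smooth).continuous

lemma fam (J : Iso c f F) : IsFam fun x : ℝ × Q => dd c (J.H x.1) x.2 :=
  ⟨J.dd_cont, fun s => (J.emb s).dd_per, fun s q _ _ => (J.emb s).imm q⟩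

noncomputable def path (J : Iso c f F) (hf : IsEmb c f) (hF : IsEmb c F) : Path hf.d hF.d :=
  mkPath J.fam (fun q => by simp [J.h0]) (fun q => by simp [J.h1])

lemma path_apply (J : Iso c f F) (hf : IsEmb c f) (hF : IsEmb c F) (t : UI) (q : Q) :
    J.path hf hF t q = dd c (J.H t) q := rfl

lemma path_extend (J : Iso c f F) (hf : IsEmb c f) (hF : IsEmb c F) {s : ℝ} (h0 : 0 ≤ s)
    (h1 : s ≤ 1) (q : Q) : (J.path hf hF).extend s q = dd c (J.H s) q := by
  rw [Path.extend_apply _ ⟨h0, h1⟩]; rfl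

def refl (hf : IsEmb c f) : Iso c f f where
  H _ := f
  smooth := hf.smooth.comp contDiff_snd
  emb _ := hf
  h0 := rfl
  h1 := rfl

lemma refl_path (hf : IsEmb c f) : (refl hf).path hf hf = Path.refl _ := by
  ext1; funext t; exact II.ext' fun q => rfl

lemma trans_aux (J : Iso c f F) (J' : Iso c F F') (l : ℝ) :
    (fun q => J.H (Real.smoothTransition (2 * l)) q +
      J'.H (Real.smoothTransition (2 * l - 1)) q - F q) =
    if l ≤ 1 / 2 then J.H (Real.smoothTransition (2 * l))
      else J'.H (Real.smoothTransition (2 * l - 1)) := by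
  funext q
  split_ifs with h
  · rw [Real.smoothTransition.zero_of_nonpos (by linarith : 2 * l - 1 ≤ 0), J'.h0]; simp
  · rw [Real.smoothTransition.one_of_one_le (by linarith : 1 ≤ 2 * l), J.h1]; simp

noncomputable def trans (J : Iso c f F) (J' : Iso c F F') : Iso c f F' where
  H l q := J.H (Real.smoothTransition (2 * l)) q +
    J'.H (Real.smoothTransition (2 * l - 1)) q - F q
  smooth := by
    have h1 : ContDiff ℝ ∞ fun x : ℝ × Q => Real.smoothTransition (2 * x.1) :=
      Real.smoothTransition.contDiff.comp (by fun_prop)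
    have h2 : ContDiff ℝ ∞ fun x : ℝ × Q => Real.smoothTransition (2 * x.1 - 1) :=
      Real.smoothTransition.contDiff.comp (by fun_prop)
    exact ((J.smooth.comp (h1.prodMk contDiff_snd)).add
      (J'.smooth.comp (h2.prodMk contDiff_snd))).sub (J.emb1.smooth.comp contDiff_snd)
  emb l := by
    rw [trans_aux]
    split_ifs
    · exact J.emb _
    · exact J'.emb _
  h0 := by rw [trans_aux]; simp [J.h0]
  h1 := by rw [trans_aux]; norm_num [J'.h1]

lemma trans_H (J : Iso c f F) (J' : Iso c F F') (l : ℝ) :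
    (J.trans J').H l = if l ≤ 1 / 2 then J.H (Real.smoothTransition (2 * l))
      else J'.H (Real.smoothTransition (2 * l - 1)) := trans_aux J J' l

lemma path_trans (J : Iso c f F) (J' : Iso c F F') (hf : IsEmb c f) (hF : IsEmb c F)
    (hF' : IsEmb c F') :
    hc ((J.trans J').path hf hF') = (hc (J.path hf hF)).trans (hc (J'.path hF hF')) := by
  rw [← hc_trans]
  have hs := Real.smoothTransition.continuous
  refine hc_reparam _ _ (φ := fun l => Real.smoothTransition (2 * l) / 2 +
    Real.smoothTransition (2 * l - 1) / 2) (by fun_prop) ?_ ?_ fun t => II.ext' fun q => ?_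
  · simp [Real.smoothTransition.zero_of_nonpos]
  · norm_num [Real.smoothTransition.one_of_one_le]
  · rw [path_apply, trans_H]
    have n0 := Real.smoothTransition.nonneg
    have n1 := Real.smoothTransition.le_one
    split_ifs with h
    · rw [Real.smoothTransition.zero_of_nonpos (by linarith : 2 * (t : ℝ) - 1 ≤ 0),
        Path.extend_trans_of_le_half _ _ (by linarith [n1 (2 * t)]), path_extend]
      · congr 2; ring
      · linarith [n0 (2 * t)]
      · linarith [n1 (2 * t)]
    · rw [Real.smoothTransition.one_of_one_le (by linarith : 1 ≤ 2 * (t : ℝ)),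
        Path.extend_trans_of_half_le _ _ (by linarith [n0 (2 * t - 1)]), path_extend]
      · congr 2; ring
      · linarith [n0 (2 * t - 1)]
      · linarith [n1 (2 * t - 1)]

end Iso

/-! ### Solvable formal embeddings -/

/-- The formal embedding `(f, γ)` is homotopic to a genuine transverse embedding. -/
def Sol {c : Ctx} {f : Q → G} (hf : IsEmb c f) {N : II} (γ : Path hf.d N) : Prop :=
  ∃ (F : Q → G) (hF : IsEmb c F) (J : Iso c f F) (Λ : Path N hF.d),
    PW Λ (fun _ x => dl x ≠ 0) ∧ hc (J.path hf hF) = (hc γ).trans (hc Λ)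

section

open Path.Homotopic.Quotient

variable {c : Ctx} {f F : Q → G} {hf : IsEmb c f} {hF : IsEmb c F} {N N' : II}

lemma Sol.genuine {γ : Path hf.d N} (h : PW γ fun _ x => dl x ≠ 0) : Sol hf γ :=
  ⟨f, hf, Iso.refl hf, γ.symm, h.symm, by
    rw [Iso.refl_path, hc_refl, hc_symm, trans_symm]⟩

/-- Moving along an isotopy and appending a path of transverse pairs. -/
lemma Sol.move {γ : Path hf.d N} {γ' : Path hF.d N'} (J : Iso c f F) (Λ : Path N N')
    (hΛ : PW Λ fun _ x => dl x ≠ 0)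
    (h : (hc (J.path hf hF)).trans (hc γ') = (hc γ).trans (hc Λ)) (hs : Sol hF γ') : Sol hf γ := by
  obtain ⟨F', hF', J', Λ', h1, h2⟩ := hs
  refine ⟨F', hF', J.trans J', Λ.trans Λ', hΛ.trans h1, ?_⟩
  rw [Iso.path_trans J J' hf hF hF', h2, ← trans_assoc, h, hc_trans, trans_assoc]

lemma Sol.dl_ne {γ : Path hf.d N} (h : Sol hf γ) (q : Q) : dl (N q) ≠ 0 := by
  obtain ⟨_, _, _, _, h1, _⟩ := h
  exact h1.source q

lemma Sol.of_iso {γ : Path hf.d N} {γ' : Path hF.d N} (J : Iso c f F)
    (h : (hc (J.path hf hF)).trans (hc γ') = hc γ) (hs : Sol hF γ') : Sol hf γ :=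
  Sol.move J (Path.refl N) (pw_refl hs.dl_ne) (by rw [h, hc_refl, trans_refl]) hs

lemma Sol.tail {γ : Path hf.d N} {γ' : Path hf.d N'} (Λ : Path N N')
    (hΛ : PW Λ fun _ x => dl x ≠ 0) (h : hc γ' = (hc γ).trans (hc Λ)) (hs : Sol hf γ') :
    Sol hf γ :=
  Sol.move (Iso.refl hf) Λ hΛ (by rw [Iso.refl_path, hc_refl, refl_trans, h]) hs

lemma Sol.congr {γ γ' : Path hf.d N} (h : hc γ' = hc γ) (hs : Sol hf γ') : Sol hf γ :=
  Sol.of_iso (Iso.refl hf) (by rw [Iso.refl_path, hc_refl, refl_trans, h]) hs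

end

theorem core_of_sol {c : Ctx}
    (h : ∀ (f : Q → G) (hf : IsEmb c f) (N : II) (γ : Path hf.d N), (∀ q, dl (N q) ≠ 0) →
      Sol hf γ) : CoreStmt c := by
  intro f hf Γ hΓc hΓp hΓi hΓ0 hΓ1
  let k : UI → II := fun s => II.mk' (Γ s) (hΓc.comp (f := fun q : Q => (s, q)) (by fun_prop))
    (hΓp s) (hΓi s)
  let γ : Path hf.d (k 1) := ⟨⟨k, II.continuous_of hΓc⟩, II.ext' hΓ0, rfl⟩
  obtain ⟨F, hF, J, Λ, hΛ, hh⟩ := h f hf (k 1) γ hΓ1
  let π : Path hf.d (k 1) := (J.path hf hF).trans Λ.symm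
  have hπ : γ.Homotopic π := by
    rw [← hc_eq, hc_trans, hh, hc_symm, Path.Homotopic.Quotient.trans_assoc,
      Path.Homotopic.Quotient.trans_symm, Path.Homotopic.Quotient.trans_refl]
  obtain ⟨Θ⟩ := hπ
  have hs := Real.smoothTransition.continuous
  have n0 := Real.smoothTransition.nonneg
  have n1 := Real.smoothTransition.le_one
  let φ : ℝ → ℝ := fun l => Real.smoothTransition (2 * l - 1)
  let K : UI × UI → II := fun x => if (x.1 : ℝ) ≤ 1 / 2 then
    Θ (projIcc 0 1 zero_le_one (2 * x.1), x.2) else π.extend (φ x.1 / 2 + x.2 * (1 - φ x.1))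
  have hφ0 : ∀ l : ℝ, l ≤ 1 / 2 → φ l = 0 := fun l hl =>
    Real.smoothTransition.zero_of_nonpos (by linarith)
  have hK : Continuous K := by
    refine Continuous.if_le ?_ ?_ (by fun_prop) continuous_const fun x hx => ?_
    · exact Θ.continuous.comp ((continuous_projIcc.comp (by fun_prop)).prodMk continuous_snd)
    · exact π.continuous_extend.comp (by fun_prop)
    · rw [hφ0 _ hx.le, hx]
      norm_num
  refine ⟨fun l => J.H (φ l), fun l s => K (l, s), ?_, fun l => J.emb _, ?_,
    fun l s => (K (l, s)).per, fun l s => (K (l, s)).inj, fun l q => ?_, fun l q => ?_, ?_,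
    fun s q => ?_, fun s q => ?_⟩
  · exact J.smooth.comp ((Real.smoothTransition.contDiff.comp
      (f := fun x : ℝ × Q => 2 * x.1 - 1) (by fun_prop)).prodMk contDiff_snd)
  · exact II.continuous_ev.comp (f := fun x : UI × UI × Q => (K (x.1, x.2.1), x.2.2))
      ((hK.comp (by fun_prop)).prodMk (by fun_prop))
  · simp only [K]
    split_ifs with hl
    · rw [Θ.source, hφ0 _ hl, J.h0]; rfl
    · rw [Path.extend_trans_of_le_half _ _ (by simp; linarith [n1 (2 * l - 1)]), Iso.path_extend]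
      · congr 2; simp; ring
      · simp; linarith [n0 (2 * l - 1)]
      · simp; linarith [n1 (2 * l - 1)]
  · simp only [K]
    split_ifs with hl
    · rw [Θ.target]; exact hΓ1 q
    · rw [Path.extend_trans_of_half_le _ _ (by simp; linarith [n1 (2 * l - 1)])]
      exact hΛ.symm.extend _ q
  · simp only [hφ0 0 (by norm_num), J.h0]
  · simp [K, γ, k]
  · have : φ 1 = 1 := Real.smoothTransition.one_of_one_le (by norm_num)
    have h2 : ¬ ((1 : ℝ) ≤ 1 / 2) := by norm_num
    simp only [K, Icc.coe_one, h2, if_false, this, J.h1]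
    rw [Path.extend_trans_of_le_half _ _ (by norm_num)]
    norm_num

end Pool.Agent.Lib.MP_72f1d0_gt
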