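import Mathlib
import Pool.Agent.Lib.MP_72f1d0_gt.Formal

/-! Change of basis of the torus. -/

open scoped ContDiff Topology
open Set Filter

namespace Pool.Agent.Lib.MP_72f1d0_gt

lemma ap_act (A : Q →L[ℝ] Q) (P : G × G) (v : Q) : ap (act A P) v = ap P (A v) := by
  have : v = v.1 • ((1 : ℝ), (0 : ℝ)) + v.2 • ((0 : ℝ), (1 : ℝ)) := by simp
  conv_rhs => rw [this]
  simp only [act, ap, map_add, map_smul, Prod.fst_add, Prod.snd_add, Prod.smul_fst, Prod.smul_snd,
    smul_eq_mul, add_smul, smul_add, mul_smul]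
  abel

lemma pair_ext {P P' : G × G} (h : ∀ v, ap P v = ap P' v) : P = P' :=
  Prod.ext (by simpa using h (1, 0)) (by simpa using h (0, 1))

lemma continuous_act (A : Q →L[ℝ] Q) : Continuous (act A) := by
  unfold act ap; fun_prop

lemma dl_ne_iff {P : G × G} : dl P ≠ 0 ↔ ∀ v, (ap P v).2 = 0 → v = 0 := by
  refine ⟨fun h v hv => Prod.ext (coef_of_dl h hv).1 (coef_of_dl h hv).2, fun h h0 => ?_⟩
  unfold dl at h0
  have h1 := h (P.2.2.re, -P.1.2.re) (by
    apply Complex.ext <;> simp [ap] <;> linarith)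
  have h2 := h (P.2.2.im, -P.1.2.im) (by
    apply Complex.ext <;> simp [ap] <;> linarith)
  simp only [Prod.mk_eq_zero, neg_eq_zero] at h1 h2
  have h3 := h (1, 0) (by apply Complex.ext <;> simp [h1.2, h2.2])
  simp at h3

lemma inj_act (A : Q ≃L[ℝ] Q) {P : G × G} (h : Inj P) : Inj (act (A : Q →L[ℝ] Q) P) :=
  inj_iff_ap.2 fun v hv => by
    rw [ap_act] at hv
    simpa using inj_iff_ap.1 h _ hv

lemma dl_act_ne (A : Q ≃L[ℝ] Q) {P : G × G} (h : dl P ≠ 0) : dl (act (A : Q →L[ℝ] Q) P) ≠ 0 :=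
  dl_ne_iff.2 fun v hv => by
    rw [ap_act] at hv
    simpa using dl_ne_iff.1 h _ hv

lemma act_act_symm (A : Q ≃L[ℝ] Q) (P : G × G) :
    act (A.symm : Q →L[ℝ] Q) (act (A : Q →L[ℝ] Q) P) = P :=
  pair_ext fun v => by simp [ap_act]

/-- Lattice preserving linear automorphisms. -/
def Latt (A : Q ≃L[ℝ] Q) : Prop := ∀ m, ∃ m', A (lat m) = lat m'

noncomputable def actII (A : Q ≃L[ℝ] Q) (hA : Latt A) (P : II) : II :=
  II.mk' (fun q => act (A : Q →L[ℝ] Q) (P (A q)))
    ((continuous_act _).comp (P.cont.comp A.continuous))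
    (fun q m => by
      obtain ⟨m', hm'⟩ := hA m
      simp only [map_add, hm', P.per _ m'])
    fun q => inj_act A (P.inj _)

lemma continuous_actII (A : Q ≃L[ℝ] Q) (hA : Latt A) : Continuous (actII A hA) :=
  II.continuous_of ((continuous_act _).comp (II.continuous_ev.comp
    (f := fun x : II × Q => (x.1, A x.2)) (by fun_prop)))

/-- The context with the lattice basis changed by `A`. -/
noncomputable def Ctx.re (c : Ctx) (A : Q ≃L[ℝ] Q) (hA : Latt A) : Ctx where
  i := c.i.comp (A : Q →L[ℝ] Q)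
  i_inj := c.i_inj.comp A.injective
  e := c.e
  om := c.om
  e_smooth := c.e_smooth
  om_smooth := c.om_smooth
  om_e := c.om_e
  e_om := c.e_om
  e_per p m := by
    obtain ⟨m', hm'⟩ := hA m
    simp [hm', c.e_per]
  om_per p m := by
    obtain ⟨m', hm'⟩ := hA m
    simp [hm', c.om_per]
  brXW := c.brXW
  brXZ := c.brXZ

lemma Ctx.Nrm.re {c : Ctx} (h : c.Nrm) (A : Q ≃L[ℝ] Q) (hA : Latt A) : (c.re A hA).Nrm := h

lemma dd_comp {c c' : Ctx} (hom : c'.om = c.om) (A : Q ≃L[ℝ] Q) {f : Q → G}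
    (hf : ContDiff ℝ ∞ f) (q : Q) :
    dd c' (fun x => f (A x)) q = act (A : Q →L[ℝ] Q) (dd c f (A q)) := by
  refine pair_ext fun v => ?_
  rw [ap_act, ap_dd, ap_dd, hom]
  have := ((hf.differentiable (by simp) (A q)).hasFDerivAt.comp q A.hasFDerivAt).fderiv
  rw [show (fun x => f (A x)) = f ∘ A from rfl, this]
  rfl

lemma IsEmb.comp {c c' : Ctx} (hom : c'.om = c.om) (A : Q ≃L[ℝ] Q) (hA : Latt A)
    (hi : ∀ q, c'.i q = c.i (A q)) {f : Q → G} (hf : IsEmb c f) : IsEmb c' fun x => f (A x) where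
  smooth := hf.smooth.comp A.contDiff
  equi q m := by
    obtain ⟨m', hm'⟩ := hA m
    rw [map_add, hi, hm', hf.equi]
  inj := hf.inj.comp A.injective
  imm q := by rw [dd_comp hom A hf.smooth]; exact inj_act A (hf.imm _)

lemma IsEmb.re {c : Ctx} (A : Q ≃L[ℝ] Q) (hA : Latt A) {f : Q → G} (hf : IsEmb c f) :
    IsEmb (c.re A hA) fun x => f (A x) :=
  IsEmb.comp (c := c) (c' := c.re A hA) rfl A hA (fun _ => rfl) hf

/-- The path `γ` read in the new basis. -/
noncomputable def rePath {c : Ctx} (A : Q ≃L[ℝ] Q) (hA : Latt A) {f : Q → G} (hf : IsEmb c f)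
    {N : II} (γ : Path hf.d N) : Path (hf.re A hA).d (actII A hA N) :=
  (γ.map (continuous_actII A hA)).cast
    (II.ext' fun q => dd_comp (c := c) (c' := c.re A hA) rfl A hf.smooth q) rfl

lemma rePath_apply {c : Ctx} (A : Q ≃L[ℝ] Q) (hA : Latt A) {f : Q → G} (hf : IsEmb c f)
    {N : II} (γ : Path hf.d N) (t : UI) (q : Q) :
    rePath A hA hf γ t q = act (A : Q →L[ℝ] Q) (γ t (A q)) := rfl

theorem Sol.of_re {c : Ctx} (A : Q ≃L[ℝ] Q) (hA : Latt A) (hA' : Latt A.symm) {f : Q → G}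
    {hf : IsEmb c f} {N : II} {γ : Path hf.d N} (h : Sol (hf.re A hA) (rePath A hA hf γ)) :
    Sol hf γ := by
  obtain ⟨F, hF, J, Λ, hΛ, hh⟩ := h
  have emb : ∀ {g : Q → G}, IsEmb (c.re A hA) g → IsEmb c fun x => g (A.symm x) := fun hg =>
    IsEmb.comp (c := c.re A hA) (c' := c) rfl A.symm hA' (fun q => by simp [Ctx.re]) hg
  let J' : Iso c f fun x => F (A.symm x) :=
    { H := fun l x => J.H l (A.symm x)
      smooth := J.smooth.comp (contDiff_fst.prodMk (A.symm.contDiff.comp contDiff_snd))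
      emb := fun l => emb (J.emb l)
      h0 := by funext x; simp [J.h0]
      h1 := by funext x; simp [J.h1] }
  let Λ' : Path N (emb hF).d := (Λ.map (continuous_actII A.symm hA')).cast
    (II.ext' fun q => by simp [actII, act_act_symm])
    (II.ext' fun q => dd_comp (c := c.re A hA) (c' := c) rfl A.symm hF.smooth q)
  refine ⟨_, emb hF, J', Λ', fun t q => dl_act_ne A.symm (hΛ t _), ?_⟩
  rw [← hc_trans, hc_eq] at hh ⊢
  refine homotopic_of_map (continuous_actII A.symm hA') hh (fun t => II.ext' fun q => ?_)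
    (trans_pointwise (fun t => II.ext' fun q => ?_) fun t => rfl)
  · exact dd_comp (c := c.re A hA) (c' := c) rfl A.symm (J.emb t).smooth q
  · show γ t q = act (A.symm : Q →L[ℝ] Q) (rePath A hA hf γ t (A.symm q))
    rw [rePath_apply, act_act_symm, A.apply_symm_apply]

/-- The flip `q ↦ -q`. -/
noncomputable def flip : Q ≃L[ℝ] Q := ContinuousLinearEquiv.neg ℝ

lemma flip_apply (q : Q) : flip q = -q := rfl

lemma latt_flip : Latt flip := fun m => ⟨-m, by rw [lat_neg]; rfl⟩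
lemma latt_flip_symm : Latt flip.symm := fun m => ⟨-m, by rw [lat_neg]; rfl⟩

lemma act_flip (P : G × G) : act (flip : Q →L[ℝ] Q) P = -P := by
  ext1 <;> simp [act, ap, flip_apply]

end Pool.Agent.Lib.MP_72f1d0_gt
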