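import Mathlib
import Pool.Agent.Lib.MP_72f1d0_gt.Formal
import Pool.Agent.Lib.MP_72f1d0_gt.Reparam

/-! Statements of the two composite stages, in terms of the formal layer. -/

open scoped ContDiff

namespace Pool.Agent.Lib.MP_72f1d0_gt

/-- The pass that makes `α (τ)` positive on the region `d ≥ 0`, relative to `d ≤ 0`. -/
def PassStmt : Prop :=
  ∀ c : Ctx, c.Nrm → ∀ (f : Q → G) (hf : IsEmb c f) (N : II) (γ : Path hf.d N) (d : Q → ℝ),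
  ContDiff ℝ ∞ d → Per d → (∀ q, 0 < dl (N q)) → (∀ q, 0 ≤ d q → 0 < al (N q).2) →
  (∀ q, 0 ≤ d q → d q ≤ 10 → ∀ t, γ t q = N q) →
  ∃ (F : Q → G) (hF : IsEmb c F) (J : Iso c f F) (γ' : Path hF.d N),
    (hc (J.path hf hF)).trans (hc γ') = hc γ ∧
    PW γ' (fun q x => 0 ≤ d q → 0 < al x.2) ∧
    PW γ' (fun q x => d q ≤ 0 → ∃ t, x = γ t q)

/-- The stage that moves only `μ`, relative to the region `d < 1`. -/
def MoveStmt : Prop :=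
  ∀ (c : Ctx) (f : Q → G) (hf : IsEmb c f) (N : II) (γ : Path hf.d N) (d : Q → ℝ),
  ContDiff ℝ ∞ d → Per d → (∀ q, 0 < dl (N q)) → PW γ (fun _ x => x.2.2 ≠ 0) →
  PW γ (fun q x => d q ≤ 3 → 0 < dl x) → ∀ ε : ℝ, 0 < ε →
  ∃ (F : Q → G) (hF : IsEmb c F) (J : Iso c f F) (ζ : Q → G) (E : II)
    (hs : ∀ q, SegInj (hF.d q) (E q)) (Λ : Path E N),
    ContDiff ℝ ∞ ζ ∧ Per ζ ∧ (∀ q, E q = (ζ q, (dd c F q).2)) ∧
    (∀ q, Ind3 (dd c F q).1 (ζ q) (dd c F q).2) ∧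
    (hc (J.path hf hF)).trans ((hc (seg hF.d E hs)).trans (hc Λ)) = hc γ ∧
    PW Λ (fun q x => 0 < dl x ∧ ((∃ t, x.2 = (γ t q).2) ∨ ‖x.2 - (dd c f q).2‖ ≤ ε)) ∧
    (∀ q, ‖(dd c F q).2 - (dd c f q).2‖ ≤ ε) ∧ ∀ q, d q < 1 → dd c F q = dd c f q

/-- Every formal transverse embedding is solvable. -/
def SolStmt : Prop :=
  ∀ c : Ctx, c.Nrm → ∀ (f : Q → G) (hf : IsEmb c f) (N : II) (γ : Path hf.d N),
  (∀ q, dl (N q) ≠ 0) → Sol hf γ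

end Pool.Agent.Lib.MP_72f1d0_gt
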