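import Mathlib
import Pool.Agent.Lib.MP_72f1d0_gt.Defs2

/-! Assembly of the stages, first half: the last steps of the construction. -/

open scoped ContDiff Topology
open Set Filter

namespace Pool.Agent.Lib.MP_72f1d0_gt

namespace Assembly

open Path.Homotopic.Quotient

lemma dl_neg (A : G × G) : dl (-A) = dl A := by simp [dl]

lemma al_snd_neg (A : G × G) : al (-A).2 = -al A.2 := by simp [al]

lemma snd_ne_of_al {x : G × G} (h : al x.2 ≠ 0) : x.2.2 ≠ 0 := fun h0 => h (by simp [al, h0])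

lemma cc_neg (r : ℕ) (q : Q) : cc r (-q).1 = cc r q.1 := by
  simp [cc]

lemma cc_cont (r : ℕ) : Continuous fun q : Q => cc r q.1 :=
  (cc_smooth r).continuous.comp continuous_fst

lemma ss_cont (r : ℕ) : Continuous fun q : Q => ss r q.1 :=
  (ss_smooth r).continuous.comp continuous_fst

lemma cc_smooth' (r : ℕ) : ContDiff ℝ ∞ fun q : Q => cc r q.1 :=
  (cc_smooth r).comp contDiff_fst

lemma ss_smooth' (r : ℕ) : ContDiff ℝ ∞ fun q : Q => ss r q.1 :=
  (ss_smooth r).comp contDiff_fst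

/-- `dl` is affine along a segment that only moves the first vector. -/
lemma dl_seg (A : G × G) (p : G) (u : ℝ) :
    dl (A + u • ((p, A.2) - A)) = (1 - u) * dl A + u * dl (p, A.2) := by
  simp [dl]; ring

lemma dl_seg_pos {A : G × G} {p : G} {u : ℝ} (h0 : 0 ≤ u) (h1 : u ≤ 1) (hA : 0 < dl A)
    (hp : 0 < dl (p, A.2)) : 0 < dl (A + u • ((p, A.2) - A)) := by
  rw [dl_seg]
  rcases h0.eq_or_lt with h | h
  · subst h; simpa using hA
  · have := mul_pos h hp
    have := mul_nonneg (sub_nonneg.2 h1) hA.le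
    linarith

lemma seg_snd (A : G × G) (p : G) (u : ℝ) : (A + u • ((p, A.2) - A)).2 = A.2 := by simp

lemma al_near {v w : G} {ε : ℝ} (h : ‖v - w‖ ≤ ε) : al w - ε ≤ al v ∧ al v ≤ al w + ε := by
  have h1 := abs_al_le (v - w)
  rw [al_sub] at h1
  have := abs_le.1 (h1.trans h)
  constructor <;> linarith [this.1, this.2]

lemma al_tau_cont {c : Ctx} {f : Q → G} (hf : IsEmb c f) :
    Continuous fun q => al (dd c f q).2 :=
  continuous_al.comp hf.dd_smooth.continuous.snd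

lemma al_tau_per {c : Ctx} {f : Q → G} (hf : IsEmb c f) : Per fun q => al (dd c f q).2 :=
  hf.dd_per.comp fun x => al x.2

/-- Transport of the segment to `(p, τ)` along an isotopy. -/
lemma seg_step {c : Ctx} {F F' : Q → G} (hF : IsEmb c F) (hF' : IsEmb c F') (J : Iso c F F')
    {p : ℝ × Q → G} (hp : Continuous p) (hpp : ∀ l, Per fun q => p (l, q))
    (hdl : ∀ l q, 0 < dl (p (l, q), (dd c (J.H l) q).2))
    (hseg : ∀ l q, SegInj (dd c (J.H l) q) (p (l, q), (dd c (J.H l) q).2))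
    {E : II} (hE : ∀ q, E q = (p (0, q), (dd c F q).2)) (hs : ∀ q, SegInj (hF.d q) (E q)) :
    ∃ (E' : II) (hs' : ∀ q, SegInj (hF'.d q) (E' q)) (y : Path E E'),
      (∀ q, E' q = (p (1, q), (dd c F' q).2)) ∧
      (∀ (t : UI) q, y t q = (p (t, q), (dd c (J.H t) q).2)) ∧
      (hc (J.path hF hF')).trans (hc (seg hF'.d E' hs')) = (hc (seg hF.d E hs)).trans (hc y) := by
  have fam : IsFam fun x : ℝ × Q => (p x, (dd c (J.H x.1) x.2).2) :=
    ⟨hp.prodMk J.dd_cont.snd, fun s q m => by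
      have h1 := hpp s q m
      have h2 := (J.emb s).dd_per q m
      simp only at h1 ⊢
      rw [h1, h2], fun s q _ _ => inj_of_dl (hdl s q).ne'⟩
  let E' : II := II.mk' (fun q => (p (1, q), (dd c (J.H 1) q).2))
    (fam.cont.comp (f := fun q : Q => ((1 : ℝ), q)) (by fun_prop)) (fam.per 1)
    fun q => fam.inj 1 q zero_le_one le_rfl
  have hE' : ∀ q, E' q = (p (1, q), (dd c F' q).2) := fun q => by simp [E', J.h1]
  have hs' : ∀ q, SegInj (hF'.d q) (E' q) := fun q => by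
    have := hseg 1 q
    rw [J.h1] at this
    rw [hE']; exact this
  let y : Path E E' := mkPath fam (fun q => by simp [hE, J.h0]) fun q => rfl
  exact ⟨E', hs', y, hE', fun t q => rfl, seg_square (J.path hF hF') y (fun t q => hseg t q) hs hs'⟩

/-- Step 8: move `μ`, then put the beads. -/
lemma sol8 (hM : MoveStmt) (hD : BeadStmt) {c : Ctx} {f : Q → G} {hf : IsEmb c f} {N : II}
    {γ : Path hf.d N} {r : ℕ} (hr : 1 ≤ r) (hN : ∀ q, 0 < dl (N q))
    (h2 : PW γ fun _ x => x.2.2 ≠ 0) (h3 : PW γ fun q x => |cc r q.1| ≤ 2 / 5 → 0 < dl x)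
    (h4 : ∀ q : Q, 1 / 10 ≤ cc r q.1 → 0 < al (dd c f q).2)
    (h5 : ∀ q : Q, cc r q.1 ≤ -(1 / 10) → al (dd c f q).2 < 0) : Sol hf γ := by
  obtain ⟨m₁, hm₁, H₁⟩ := per_pos0 (S := {q : Q | 1 / 10 ≤ cc r q.1})
    (isClosed_le continuous_const (cc_cont r)) ((cc_per r).perSet fun x => 1 / 10 ≤ x)
    (al_tau_cont hf) (al_tau_per hf) h4
  obtain ⟨m₂, hm₂, H₂⟩ := per_pos0 (S := {q : Q | cc r q.1 ≤ -(1 / 10)})
    (isClosed_le (cc_cont r) continuous_const) ((cc_per r).perSet fun x => x ≤ -(1 / 10))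
    (al_tau_cont hf).neg ((al_tau_per hf).comp Neg.neg) fun q hq => neg_pos.2 (h5 q hq)
  have hm : 0 < min m₁ m₂ := lt_min hm₁ hm₂
  obtain ⟨F, hF, J, ζ, E, hs, Λ, hζ, hζp, hE, hI, hh, hΛ, hτ, hdd⟩ := hM c f hf N γ
    (fun q => 50 * cc r q.1 ^ 2 - 4) (by have := cc_smooth' r; fun_prop)
    ((cc_per r).comp fun x => 50 * x ^ 2 - 4) hN h2
    (h3.mono fun q x hx hd => hx (abs_le.2 ⟨by nlinarith, by nlinarith⟩)) (min m₁ m₂ / 2)
    (half_pos hm)
  obtain ⟨F', J', p, hp, hpp, hp0, hpl, hF'dl⟩ := hD c F hF r hr ζ hζ hζp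
    (fun q => ⟨hE q ▸ (hΛ.source q).1, hI q⟩) fun q => ⟨fun hq => by
      have := H₁ q hq
      linarith [(al_near (hτ q)).1, min_le_left m₁ m₂], fun hq => by
      have := H₂ q hq
      simp only [Pi.neg_apply] at this
      linarith [(al_near (hτ q)).2, min_le_right m₁ m₂], fun hq => by
      have hq' := abs_le.1 hq
      rw [hdd q (by nlinarith [hq'.1, hq'.2])]
      exact h3.source q (hq.trans (by norm_num))⟩
  have hF' := J'.emb1
  obtain ⟨E', hs', y, hE', hy, hsq⟩ := seg_step hF hF' J' hp hpp (fun l q => (hpl l q).1)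
    (fun l q => (hpl l q).2) (fun q => by rw [hE, hp0]) hs
  refine Sol.of_iso (hF := hF) (γ' := (seg hF.d E hs).trans Λ) J hh ?_
  refine Sol.tail (γ' := seg hF.d E hs) Λ.symm (hΛ.symm.mono fun q x hx => hx.1.ne') ?_ ?_
  · rw [hc_trans, hc_symm, trans_assoc, trans_symm, trans_refl]
  refine Sol.move J' y (fun t q => ?_) hsq (Sol.genuine (pw_seg fun q u h0 h1 => ?_))
  · rw [hy]; exact (hpl t q).1.ne'
  · rw [hE']
    have := (hpl 1 q).1
    rw [J'.h1] at this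
    exact (dl_seg_pos h0 h1 (hF'dl q) this).ne'

/-- Reading the torus backwards. -/
lemma sol_flip {c : Ctx} (hc : c.Nrm) {f : Q → G} {hf : IsEmb c f} {N : II} {γ : Path hf.d N}
    (h : ∀ c' : Ctx, c'.Nrm → ∀ (f' : Q → G) (hf' : IsEmb c' f') (N' : II) (γ' : Path hf'.d N'),
      (∀ t q, γ' t q = -γ t (-q)) → Sol hf' γ') : Sol hf γ :=
  Sol.of_re flip latt_flip latt_flip_symm (h _ (hc.re flip latt_flip) _ _ _ _ fun t q => by
    rw [rePath_apply, act_flip, flip_apply])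

lemma path_end {A B A' B' : II} {γ : Path A B} {γ' : Path A' B'}
    (h : ∀ t q, γ' t q = -γ t (-q)) (q : Q) : B' q = -B (-q) := by
  simpa using h 1 q

/-- Step 7: the second pass, on the flipped torus. -/
lemma sol7 (hP : PassStmt) (hM : MoveStmt) (hD : BeadStmt) {c : Ctx} (hc : c.Nrm) {f : Q → G}
    {hf : IsEmb c f} {N : II} {γ : Path hf.d N} {r : ℕ} (hr : 1 ≤ r) (hN : ∀ q, 0 < dl (N q))
    (hneg : ∀ q : Q, cc r q.1 ≤ -(1 / 20) → al (N q).2 < 0)
    (hconst : ∀ q : Q, -(3 / 5) ≤ cc r q.1 → cc r q.1 ≤ 9 / 20 → ∀ t, γ t q = N q)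
    (hpos : PW γ fun q x => 1 / 10 ≤ cc r q.1 → 0 < al x.2) : Sol hf γ := by
  refine sol_flip hc fun c₁ hc₁ f₁ hf₁ N₁ γ₁ e₁ => ?_
  have eN₁ := path_end e₁
  obtain ⟨F, hF, J, γ₂, hh, hA, hB⟩ := hP c₁ hc₁ f₁ hf₁ N₁ γ₁ (fun q => -50 * cc r q.1 - 20)
    (by have := cc_smooth' r; fun_prop) ((cc_per r).comp fun x => -50 * x - 20)
    (fun q => by rw [eN₁, dl_neg]; exact hN _)
    (fun q hq => by
      rw [eN₁, al_snd_neg, neg_pos]
      exact hneg _ (by rw [cc_neg]; linarith))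
    (fun q h0 h1 t => by
      rw [e₁, eN₁, hconst _ (by rw [cc_neg]; linarith) (by rw [cc_neg]; linarith)])
  refine Sol.of_iso J hh (sol_flip hc₁ fun c₃ _ f₃ hf₃ N₃ γ₃ e₃ => ?_)
  have A₃ : PW γ₃ fun q x => cc r q.1 ≤ -(2 / 5) → al x.2 < 0 := fun t q hq => by
    rw [e₃, al_snd_neg, neg_lt_zero]
    exact hA t _ (by rw [cc_neg]; linarith)
  have B₃ : PW γ₃ fun q x => -(2 / 5) ≤ cc r q.1 → ∃ t, x = γ t q := fun t q hq => by
    obtain ⟨t', ht'⟩ := hB t (-q) (by rw [cc_neg]; linarith)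
    exact ⟨t', by rw [e₃, ht', e₁, neg_neg, neg_neg]⟩
  have C₃ : PW γ₃ fun q x => -(2 / 5) ≤ cc r q.1 → cc r q.1 ≤ 9 / 20 → x = N q :=
    fun t q h0 h1 => by
      obtain ⟨t', ht'⟩ := B₃ t q h0
      rw [ht', hconst q (by linarith) h1]
  have D₃ : PW γ₃ fun q x => 1 / 10 ≤ cc r q.1 → 0 < al x.2 := fun t q hq => by
    obtain ⟨t', ht'⟩ := B₃ t q (by linarith)
    rw [ht']; exact hpos t' q hq
  refine sol8 hM hD hr (fun q => ?_) (fun t q => ?_) (fun t q hq => ?_) D₃.source fun q hq => ?_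
  · rw [path_end e₃, dl_neg, eN₁, dl_neg]; exact hN _
  · by_cases h1 : cc r q.1 ≤ -(2 / 5)
    · exact snd_ne_of_al (A₃ t q h1).ne
    by_cases h2 : cc r q.1 ≤ 9 / 20
    · rw [C₃ t q (by linarith) h2]; exact snd_ne_zero_of_dl (hN q).ne'
    · exact snd_ne_of_al (D₃ t q (by linarith)).ne'
  · have hq' := abs_le.1 hq
    rw [C₃ t q hq'.1 (by linarith)]; exact hN q
  · by_cases h1 : cc r q.1 ≤ -(2 / 5)
    · exact A₃.source q h1
    · have := C₃.source q (by linarith) (by linarith)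
      rw [IsEmb.d_apply] at this
      rw [this]; exact hneg q (by linarith)

lemma dl_mul (A : G × G) (w : ℂ) :
    dl ((A.1.1, A.1.2 * w), (A.2.1, A.2.2 * w)) = Complex.normSq w * dl A := by
  simp [dl, Complex.normSq_apply]; ring

/-- Pushing the normal component of `τ` along a nonvanishing family `b`. -/
lemma push (E : II) (hE : ∀ q, 0 < dl (E q)) {b : ℝ × Q → ℂ} (hb : Continuous b)
    (hbp : ∀ u, Per fun q => b (u, q)) (hb0 : ∀ q, b (0, q) = (E q).2.2)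
    (hne : ∀ u q, 0 ≤ u → u ≤ 1 → b (u, q) ≠ 0) :
    ∃ (E' : II) (Λ : Path E E'), PW Λ (fun _ x => 0 < dl x) ∧ (∀ q, (E' q).2.2 = b (1, q)) ∧
      ∀ (t : UI) q, b (t, q) = (E q).2.2 → Λ t q = E q := by
  have h0 : ∀ q, (E q).2.2 ≠ 0 := fun q => snd_ne_zero_of_dl (hE q).ne'
  have hEc := E.cont
  let K : ℝ × Q → G × G := fun x =>
    (((E x.2).1.1, (E x.2).1.2 * (b x / (E x.2).2.2)),
      ((E x.2).2.1, (E x.2).2.2 * (b x / (E x.2).2.2)))
  have hw : Continuous fun x : ℝ × Q => b x / (E x.2).2.2 :=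
    hb.div (by fun_prop) fun x => h0 _
  have hdl : ∀ u q, 0 ≤ u → u ≤ 1 → 0 < dl (K (u, q)) := fun u q u0 u1 => by
    simp only [K]
    rw [dl_mul]
    exact mul_pos (Complex.normSq_pos.2 (div_ne_zero (hne u q u0 u1) (h0 q))) (hE q)
  have fam : IsFam K := ⟨by simp only [K]; fun_prop, fun s q m => by
      have h1 := hbp s q m
      simp only [K] at h1 ⊢
      rw [h1, E.per q m], fun s q s0 s1 => inj_of_dl (hdl s q s0 s1).ne'⟩
  have hK : ∀ u q, b (u, q) = (E q).2.2 → K (u, q) = E q := fun u q h => by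
    simp only [K]
    rw [h, div_self (h0 q), mul_one, mul_one]
  let E' : II := II.mk' (fun q => K (1, q))
    (fam.cont.comp (f := fun q : Q => ((1 : ℝ), q)) (by fun_prop)) (fam.per 1)
    fun q => fam.inj 1 q zero_le_one le_rfl
  refine ⟨E', mkPath fam (fun q => hK 0 q (hb0 q)) fun q => rfl, fun t q => hdl t q t.2.1 t.2.2,
    fun q => ?_, fun t q h => hK t q h⟩
  show (E q).2.2 * (b (1, q) / (E q).2.2) = b (1, q)
  rw [mul_div_cancel₀ _ (h0 q)]

end Assembly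

end Pool.Agent.Lib.MP_72f1d0_gt
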