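import Mathlib
import Pool.Agent.Lib.MP_72f1d0_gt.Assembly1

/-! Assembly of the stages, second half. -/

open scoped ContDiff Topology
open Set Filter

namespace Pool.Agent.Lib.MP_72f1d0_gt

namespace Assembly

open Path.Homotopic.Quotient

lemma st0 {x : ℝ} (h : x ≤ 0) : Real.smoothTransition x = 0 :=
  Real.smoothTransition.zero_of_nonpos h

lemma st1 {x : ℝ} (h : 1 ≤ x) : Real.smoothTransition x = 1 :=
  Real.smoothTransition.one_of_one_le h

lemma pos_of_st {x : ℝ} (h : Real.smoothTransition x ≠ 0) : 0 < x :=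
  lt_of_not_ge fun hx => h (st0 hx)

lemma lt_of_st {x : ℝ} (h : Real.smoothTransition x ≠ 1) : x < 1 :=
  lt_of_not_ge fun hx => h (st1 hx)

lemma st_mul_nonneg (x y : ℝ) : 0 ≤ Real.smoothTransition x * Real.smoothTransition y :=
  mul_nonneg (Real.smoothTransition.nonneg _) (Real.smoothTransition.nonneg _)

lemma st_mul_le (x y : ℝ) :
    Real.smoothTransition x * Real.smoothTransition y ≤ Real.smoothTransition x :=
  mul_le_of_le_one_right (Real.smoothTransition.nonneg _) (Real.smoothTransition.le_one _)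

lemma ss_ne {r : ℕ} {s : ℝ} (h0 : -1 < cc r s) (h1 : cc r s < 1) : ss r s ≠ 0 := fun h => by
  have := cc_sq_add_ss_sq r s
  rw [h] at this
  nlinarith

/-- A point of the segment from `b` to `i e` does not vanish if `b` avoids the opposite ray. -/
lemma ray_ne {b : ℂ} {e w : ℝ} (hb : b ≠ 0) (w0 : 0 ≤ w) (w1 : w ≤ 1)
    (h : w ≠ 0 → e ≠ 0 ∧ (b.re = 0 → 0 < e * b.im)) :
    b + (w : ℂ) * ((e : ℂ) * Complex.I - b) ≠ 0 := by
  intro h0
  by_cases hw : w = 0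
  · apply hb; simpa [hw] using h0
  obtain ⟨he, hr⟩ := h hw
  have hre := congrArg Complex.re h0
  have him := congrArg Complex.im h0
  simp at hre him
  have hw' : 0 < w := lt_of_le_of_ne w0 (Ne.symm hw)
  have he2 : 0 < e * e := mul_self_pos.2 he
  rcases w1.eq_or_lt with h1 | h1
  · subst h1
    apply he; linarith
  · have hb0 : b.re = 0 := by
      have : (1 - w) * b.re = 0 := by linarith
      exact (mul_eq_zero.1 this).resolve_left (by linarith)
    have h3 := hr hb0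
    have h4 : e * (b.im + w * (e - b.im)) = 0 := by rw [him, mul_zero]
    nlinarith [mul_pos (sub_pos.2 h1) h3, mul_pos hw' he2]

/-- Step 6: the two pushes. -/
lemma sol6 (hP : PassStmt) (hM : MoveStmt) (hD : BeadStmt) {c : Ctx} (hc' : c.Nrm) {f : Q → G}
    {hf : IsEmb c f} {E : II} {γ : Path hf.d E} {r : ℕ} (hr : 1 ≤ r) {η : Q → ℝ}
    (hη : Continuous η) (hηp : Per η) (hη0 : ∀ q, ss r q.1 ≠ 0 → η q ≠ 0)
    (hE : ∀ q, 0 < dl (E q))
    (hconst : ∀ q : Q, -(3 / 5) ≤ cc r q.1 → cc r q.1 ≤ 9 / 20 → ∀ t, γ t q = E q)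
    (hpos : PW γ fun q x => 1 / 10 ≤ cc r q.1 → 0 < al x.2)
    (hneg : ∀ q : Q, cc r q.1 ≤ -(24 / 25) ∨ (-(31 / 50) ≤ cc r q.1 ∧ cc r q.1 ≤ -(1 / 20)) →
      al (E q).2 < 0)
    (hray : ∀ q : Q, -(49 / 50) < cc r q.1 → cc r q.1 < -(3 / 5) → al (E q).2 = 0 →
      0 < η q * (E q).2.2.im) : Sol hf γ := by
  have hC := cc_cont r
  have hEc := E.cont
  have hst := Real.smoothTransition.continuous
  set c₃ : Q → ℝ := fun q => Real.smoothTransition (-50 * cc r q.1 - 30) with hc₃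
  set c₂ : Q → ℝ := fun q => c₃ q * Real.smoothTransition (50 * cc r q.1 + 49) with hc₂
  have c₃c : Continuous c₃ := hst.comp (by fun_prop)
  have c₂c : Continuous c₂ := c₃c.mul (hst.comp (by fun_prop))
  have c₃p : Per c₃ := (cc_per r).comp fun x => Real.smoothTransition (-50 * x - 30)
  have c₂p : Per c₂ := (cc_per r).comp fun x =>
    Real.smoothTransition (-50 * x - 30) * Real.smoothTransition (50 * x + 49)
  have c₃0 : ∀ q, 0 ≤ c₃ q := fun q => Real.smoothTransition.nonneg _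
  have c₃1 : ∀ q, c₃ q ≤ 1 := fun q => Real.smoothTransition.le_one _
  have c₂0 : ∀ q, 0 ≤ c₂ q := fun q => st_mul_nonneg _ _
  have c₂3 : ∀ q, c₂ q ≤ c₃ q := fun q => st_mul_le _ _
  have c₃z : ∀ q : Q, -(3 / 5) ≤ cc r q.1 → c₃ q = 0 := fun q h => st0 (by linarith)
  have c₂z : ∀ q : Q, -(3 / 5) ≤ cc r q.1 → c₂ q = 0 := fun q h =>
    le_antisymm (c₃z q h ▸ c₂3 q) (c₂0 q)
  have c₂o : ∀ q : Q, c₂ q ≠ 1 → cc r q.1 ≤ -(24 / 25) ∨ -(31 / 50) ≤ cc r q.1 := fun q h => by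
    by_contra hn
    push Not at hn
    apply h
    simp only [hc₂, hc₃]
    rw [st1 (by linarith [hn.2]), st1 (by linarith [hn.1]), mul_one]
  obtain ⟨E₁, Λ₁, hΛ₁, hE₁, k₁⟩ := push E hE (b := fun x : ℝ × Q =>
    (E x.2).2.2 + ((x.1 * c₂ x.2 : ℝ) : ℂ) * ((η x.2 : ℂ) * Complex.I - (E x.2).2.2))
    (by fun_prop) (fun u q m => by simp only [E.per q m, c₂p q m, hηp q m]) (fun q => by simp)
    fun u q u0 u1 => ray_ne (snd_ne_zero_of_dl (hE q).ne') (mul_nonneg u0 (c₂0 q))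
      (mul_le_one₀ u1 (c₂0 q) ((c₂3 q).trans (c₃1 q))) fun hw => by
        have h2 : c₂ q ≠ 0 := right_ne_zero_of_mul hw
        have h3 := pos_of_st (left_ne_zero_of_mul h2)
        have h4 := pos_of_st (right_ne_zero_of_mul h2)
        exact ⟨hη0 q (ss_ne (by linarith) (by linarith)), hray q (by linarith) (by linarith)⟩
  have re₁ : ∀ q, (E₁ q).2.2.re = (1 - c₂ q) * al (E q).2 := fun q => by
    rw [hE₁]; simp [al]; ring
  have neg₁ : ∀ q : Q, cc r q.1 ≤ -(1 / 20) → c₂ q = 1 ∨ (E₁ q).2.2.re < 0 := fun q hq => by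
    by_cases h : c₂ q = 1
    · exact Or.inl h
    right
    rw [re₁]
    exact mul_neg_of_pos_of_neg
      (sub_pos.2 (lt_of_le_of_ne ((c₂3 q).trans (c₃1 q)) h))
      (hneg q ((c₂o q h).imp id fun h' => ⟨h', hq⟩))
  have hE₁c := E₁.cont
  obtain ⟨E₂, Λ₂, hΛ₂, hE₂, k₂⟩ := push E₁ hΛ₁.target (b := fun x : ℝ × Q =>
    (E₁ x.2).2.2 - ((x.1 * c₃ x.2 : ℝ) : ℂ))
    (by fun_prop) (fun u q m => by simp only [E₁.per q m, c₃p q m]) (fun q => by simp)
    fun u q u0 u1 h0 => by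
      have hb : (E₁ q).2.2 ≠ 0 := snd_ne_zero_of_dl (hΛ₁.target q).ne'
      by_cases hw : u * c₃ q = 0
      · apply hb; simpa [hw] using h0
      have h3 := pos_of_st (right_ne_zero_of_mul hw)
      have hw' : 0 < u * c₃ q := lt_of_le_of_ne (mul_nonneg u0 (c₃0 q)) (Ne.symm hw)
      have hre := congrArg Complex.re h0
      simp only [Complex.sub_re, Complex.ofReal_re, Complex.zero_re] at hre
      rcases neg₁ q (by linarith) with h | h
      · rw [re₁, h] at hre; linarith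
      · linarith
  have v₁ : ∀ q : Q, -(3 / 5) ≤ cc r q.1 → ∀ t, Λ₁ t q = E q := fun q hq t =>
    k₁ t q (by simp [c₂z q hq])
  have e₁ : ∀ q : Q, -(3 / 5) ≤ cc r q.1 → E₁ q = E q := fun q hq => by simpa using v₁ q hq 1
  have v₂ : ∀ q : Q, -(3 / 5) ≤ cc r q.1 → ∀ t, Λ₂ t q = E q := fun q hq t => by
    rw [k₂ t q (by simp [c₃z q hq]), e₁ q hq]
  have v : PW (Λ₁.trans Λ₂) fun q x => -(3 / 5) ≤ cc r q.1 → x = E q :=
    PW.trans (fun t q hq => v₁ q hq t) fun t q hq => v₂ q hq t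
  refine Sol.tail (γ' := γ.trans (Λ₁.trans Λ₂)) (Λ₁.trans Λ₂)
    ((hΛ₁.trans hΛ₂).mono fun q x hx => hx.ne') rfl
    (sol7 hP hM hD hc' hr hΛ₂.target (fun q hq => ?_) (fun q h0 h1 t => ?_) ?_)
  · have : al (E₂ q).2 = (E₁ q).2.2.re - c₃ q := by
      rw [al, hE₂]; simp
    rw [this]
    rcases neg₁ q hq with h | h
    · rw [re₁, h]
      linarith [c₂3 q]
    · linarith [c₃0 q]
  · rw [v.target q h0]
    exact PW.trans (P := fun q x => -(3 / 5) ≤ cc r q.1 → cc r q.1 ≤ 9 / 20 → x = E q)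
      (fun t q h0 h1 => hconst q h0 h1 t) (v.mono fun q x hx h0 _ => hx h0) t q h0 h1
  · exact hpos.trans (v.mono fun q x hx hq => by
      rw [hx (by linarith)]; exact hpos.target q hq)

lemma yy_zero {r : ℕ} {s : ℝ} (h : -(9 / 10) ≤ cc r s) : yy r s = 0 := st0 (by linarith)

lemma yy_one {r : ℕ} {s : ℝ} (h : cc r s ≤ -(19 / 20)) : yy r s = 1 := st1 (by linarith)

/-- Step 5: cutting off the end of the path. -/
lemma sol5 (hP : PassStmt) (hM : MoveStmt) (hD : BeadStmt) {c : Ctx} (hc' : c.Nrm) {f : Q → G}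
    {hf : IsEmb c f} {N : II} {γ : Path hf.d N} {r : ℕ} (hr : 1 ≤ r) {η : ℝ → ℝ}
    (hη : Continuous η) (hηp : Per fun q : Q => η q.1) (hη0 : ∀ s, ss r s ≠ 0 → η s ≠ 0)
    (hNb : ∀ q, N q = Nb r η q) (hN : ∀ q, 0 < dl (N q))
    (ha : PW γ fun q x => 1 / 10 ≤ cc r q.1 → 0 < al x.2)
    (hb : PW γ fun q x => -(9 / 10) ≤ cc r q.1 → cc r q.1 ≤ 11 / 20 → 0 < dl x)
    (hray : PW γ fun q x => -(9 / 10) ≤ cc r q.1 → cc r q.1 ≤ -(1 / 2) → al x.2 = 0 →
      0 < η q.1 * x.2.2.im)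
    (hd : ∀ q : Q, -(7 / 10) ≤ cc r q.1 → cc r q.1 ≤ -(1 / 20) → al (dd c f q).2 < 0) :
    Sol hf γ := by
  have hC := cc_cont r
  have hst := Real.smoothTransition.continuous
  set c₁ : Q → ℝ := fun q => Real.smoothTransition (-50 * cc r q.1 - 32) +
    Real.smoothTransition (20 * cc r q.1 - 9) with hc₁
  have c₁c : Continuous c₁ := (hst.comp (by fun_prop)).add (hst.comp (by fun_prop))
  have c₁p : Per c₁ := (cc_per r).comp fun x =>
    Real.smoothTransition (-50 * x - 32) + Real.smoothTransition (20 * x - 9)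
  have c₁z : ∀ q : Q, -(16 / 25) ≤ cc r q.1 → cc r q.1 ≤ 9 / 20 → c₁ q = 0 := fun q h0 h1 => by
    simp only [hc₁]
    rw [st0 (by linarith), st0 (by linarith), add_zero]
  have c₁l : ∀ q : Q, cc r q.1 ≤ -(33 / 50) → c₁ q = 1 := fun q h => by
    simp only [hc₁]
    rw [st1 (by linarith), st0 (by linarith), add_zero]
  have c₁r : ∀ q : Q, 1 / 2 ≤ cc r q.1 → c₁ q = 1 := fun q h => by
    simp only [hc₁]
    rw [st0 (by linarith), st1 (by linarith), zero_add]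
  obtain ⟨E, γ₁, γ₂, hE, h₁, h₂, hh⟩ := trunc γ c₁c c₁p
  have hΛ : PW γ₂ fun _ x => 0 < dl x := fun t q => by
    rw [h₂]
    by_cases h0 : cc r q.1 ≤ -(33 / 50)
    · simpa [c₁l q h0] using hN q
    by_cases h1 : 1 / 2 ≤ cc r q.1
    · simpa [c₁r q h1] using hN q
    · exact hb.extend _ q (by linarith) (by linarith)
  have El : ∀ q : Q, cc r q.1 ≤ -(33 / 50) → E q = Nb r η q := fun q h => by
    rw [hE, c₁l q h, ← hNb]; simp
  refine Sol.tail (γ' := γ₁) γ₂.symm (hΛ.symm.mono fun q x hx => hx.ne') ?_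
    (sol6 hP hM hD hc' hr (η := fun q => η q.1) (hη.comp continuous_fst) hηp
      (fun q => hη0 q.1) hΛ.source (fun q h0 h1 t => ?_) (fun t q => ?_) (fun q hq => ?_)
      fun q h0 h1 h => ?_)
  · rw [hh, hc_symm, trans_assoc, trans_symm, trans_refl]
  · rw [h₁, hE, c₁z q (by linarith) h1, zero_mul]
  · rw [h₁]; exact ha.extend _ q
  · rcases hq with hq | hq
    · rw [El q (by linarith)]
      simp [al, Nb, bb, yy_one (r := r) (s := q.1) (by linarith)]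
    · rw [hE, c₁z q (by linarith [hq.1]) (by linarith [hq.2])]
      simpa using hd q (by linarith [hq.1]) hq.2
  · by_cases h2 : -(9 / 10) ≤ cc r q.1
    · rw [hE] at h ⊢
      exact hray.extend _ q h2 (by linarith) h
    · rw [El q (by linarith)] at h ⊢
      have he : η q.1 ≠ 0 := hη0 _ (ss_ne (by linarith) (by linarith))
      have hy : yy r q.1 = 1 / 2 := by
        simp only [al, Nb, bb] at h; linarith
      simp only [Nb, bb, hy]
      nlinarith [mul_self_pos.2 he]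

/-- One helix. -/
lemma bump_step (hB : BumpStmt) {c : Ctx} {f : Q → G} (hf : IsEmb c f) {N : II} (γ : Path hf.d N)
    {ν : Q → ℝ} (hν : ContDiff ℝ ∞ ν) (hνp : Per ν) (hν01 : ∀ q, 0 ≤ ν q ∧ ν q ≤ 1) {sg : ℝ}
    (hsg : sg = 1 ∨ sg = -1) {K : Set Q} (hK : IsClosed K) (hKp : PerSet K)
    (hν0 : ∀ q, q ∉ K → ν q = 0) (hKf : ∀ q ∈ K, 0 < dl (dd c f q) ∧ 0 < al (dd c f q).2) :
    ∃ (F : Q → G) (hF : IsEmb c F) (γ' : Path hF.d N), (Sol hF γ' → Sol hf γ) ∧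
      PW γ' (fun q x => (∃ t, x = γ t q) ∨
        (q ∈ K ∧ 0 < dl x ∧ (al x.2 = 0 → 0 < sg * x.2.2.im))) ∧
      (∀ q, q ∉ K → dd c F q = dd c f q) ∧ ∀ q, ν q = 1 → al (dd c F q).2 < 0 := by
  obtain ⟨F, J, h1, h2, h3⟩ := hB c f hf ν hν hνp hν01 sg hsg K hK hKp hν0 hKf
  have hF := J.emb1
  have hout : ∀ l q, q ∉ K → dd c (J.H l) q = dd c f q := fun l q hq =>
    dd_congr_open c hK.isOpen_compl (fun q' hq' => h1 l q' (hν0 q' hq')) hq
  refine ⟨F, hF, (J.path hf hF).symm.trans γ, Sol.of_iso J (by rw [hc_trans, hc_symm, q_cancel₁]),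
    PW.trans (PW.symm fun t q => ?_) fun t q => Or.inl ⟨t, rfl⟩, fun q hq => ?_, h3⟩
  · rw [Iso.path_apply]
    by_cases hq : q ∈ K
    · exact Or.inr ⟨hq, h2 t q hq⟩
    · exact Or.inl ⟨0, by rw [hout t q hq]; simp⟩
  · have := hout 1 q hq
    rwa [J.h1] at this

/-- Step 4: the two helices. -/
lemma sol4 (hP : PassStmt) (hM : MoveStmt) (hB : BumpStmt) (hD : BeadStmt) {c : Ctx}
    (hc' : c.Nrm) {f : Q → G} {hf : IsEmb c f} {N : II} {γ : Path hf.d N} {r : ℕ} (hr : 1 ≤ r)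
    {sg : ℝ} (hsg : sg = 1 ∨ sg = -1) {η : ℝ → ℝ} (hη : Continuous η)
    (hηp : Per fun q : Q => η q.1) (hη1 : ∀ s, 0 < ss r s → 0 < η s)
    (hη2 : ∀ s, ss r s < 0 → 0 < sg * η s) (hNb : ∀ q, N q = Nb r η q) (hN : ∀ q, 0 < dl (N q))
    (ha : PW γ fun q x => -(9 / 10) ≤ cc r q.1 → 0 < al x.2)
    (hb : PW γ fun q x => -(9 / 10) ≤ cc r q.1 → cc r q.1 ≤ 11 / 20 → 0 < dl x) :
    Sol hf γ := by
  have hC := cc_cont r
  have hS := ss_cont r
  have hCs := cc_smooth' r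
  have hSs := ss_smooth' r
  have hst : ContDiff ℝ ∞ Real.smoothTransition := Real.smoothTransition.contDiff
  let ν : ℝ → Q → ℝ := fun a q => Real.smoothTransition (-10 * cc r q.1 + 1 / 2) *
    Real.smoothTransition (10 * cc r q.1 + 8) * Real.smoothTransition (a * ss r q.1)
  let K : ℝ → Set Q := fun a => {q | -(4 / 5) ≤ cc r q.1 ∧ cc r q.1 ≤ 1 / 20 ∧ 0 ≤ a * ss r q.1}
  have νs : ∀ a, ContDiff ℝ ∞ (ν a) := fun a =>
    ((hst.comp (by fun_prop)).mul (hst.comp (by fun_prop))).mul (hst.comp (by fun_prop))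
  have νp : ∀ a, Per (ν a) := fun a => (cc_per r).comp₂ (ss_per r) fun x y =>
    Real.smoothTransition (-10 * x + 1 / 2) * Real.smoothTransition (10 * x + 8) *
      Real.smoothTransition (a * y)
  have ν01 : ∀ a q, 0 ≤ ν a q ∧ ν a q ≤ 1 := fun a q =>
    ⟨mul_nonneg (st_mul_nonneg _ _) (Real.smoothTransition.nonneg _),
      mul_le_one₀ ((st_mul_le _ _).trans (Real.smoothTransition.le_one _))
        (Real.smoothTransition.nonneg _) (Real.smoothTransition.le_one _)⟩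
  have Kc : ∀ a, IsClosed (K a) := fun a => (isClosed_le continuous_const hC).inter
    ((isClosed_le hC continuous_const).inter
      (isClosed_le continuous_const (continuous_const.mul hS)))
  have Kp : ∀ a, PerSet (K a) := fun a =>
    ((cc_per r).comp₂ (ss_per r) Prod.mk).perSet fun x =>
      -(4 / 5) ≤ x.1 ∧ x.1 ≤ 1 / 20 ∧ 0 ≤ a * x.2
  have ν0 : ∀ a q, q ∉ K a → ν a q = 0 := fun a q hq => by
    by_contra h
    have h1 := pos_of_st (left_ne_zero_of_mul (left_ne_zero_of_mul h))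
    have h2 := pos_of_st (right_ne_zero_of_mul (left_ne_zero_of_mul h))
    have h3 := pos_of_st (right_ne_zero_of_mul h)
    exact hq ⟨by linarith, by linarith, h3.le⟩
  have ν1 : ∀ a (q : Q), -(7 / 10) ≤ cc r q.1 → cc r q.1 ≤ -(1 / 20) → 1 ≤ a * ss r q.1 →
      ν a q = 1 := fun a q h0 h1 h2 => by
    simp only [ν]
    rw [st1 (by linarith), st1 (by linarith), st1 h2]; norm_num
  have KL : ∀ q ∈ K 2, 0 < ss r q.1 := fun q hq =>
    lt_of_le_of_ne (by linarith [hq.2.2]) (ss_ne (by linarith [hq.1]) (by linarith [hq.2.1])).symm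
  have KR : ∀ q ∈ K (-2), ss r q.1 < 0 := fun q hq =>
    lt_of_le_of_ne (by linarith [hq.2.2]) (ss_ne (by linarith [hq.1]) (by linarith [hq.2.1]))
  have Kf : ∀ a, ∀ q ∈ K a, 0 < dl (dd c f q) ∧ 0 < al (dd c f q).2 := fun a q hq =>
    ⟨hb.source q (by linarith [hq.1]) (by linarith [hq.2.1]), ha.source q (by linarith [hq.1])⟩
  obtain ⟨F₁, hF₁, γ₁, s₁, p₁, o₁, n₁⟩ := bump_step hB hf γ (νs 2) (νp 2) (ν01 2) (Or.inl rfl)
    (Kc 2) (Kp 2) (ν0 2) (Kf 2)
  obtain ⟨F₂, hF₂, γ₂, s₂, p₂, o₂, n₂⟩ := bump_step hB hF₁ γ₁ (νs (-2)) (νp (-2)) (ν01 (-2)) hsg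
    (Kc (-2)) (Kp (-2)) (ν0 (-2)) fun q hq => by
      rw [o₁ q fun h => lt_asymm (KL q h) (KR q hq)]; exact Kf _ q hq
  have p : PW γ₂ fun q x => (∃ t, x = γ t q) ∨
      (cc r q.1 ≤ 1 / 20 ∧ 0 < dl x ∧ (al x.2 = 0 → 0 < η q.1 * x.2.2.im)) := fun t q => by
    rcases p₂ t q with ⟨t', ht'⟩ | ⟨hq, h1, h2⟩
    · rw [ht']
      rcases p₁ t' q with h | ⟨hq, h1, h2⟩
      · exact Or.inl h
      · exact Or.inr ⟨hq.2.1, h1, fun h => mul_pos (hη1 _ (KL q hq)) (by simpa using h2 h)⟩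
    · refine Or.inr ⟨hq.2.1, h1, fun h => ?_⟩
      have := mul_pos (hη2 _ (KR q hq)) (h2 h)
      rcases hsg with rfl | rfl <;> linarith
  refine s₁ (s₂ (sol5 hP hM hD hc' hr hη hηp (fun s hs => ?_) hNb hN (p.mono fun q x hx hq => ?_)
    (p.mono fun q x hx h0 h1 => ?_) (p.mono fun q x hx h0 h1 h => ?_) fun q h0 h1 => ?_))
  · rcases lt_or_gt_of_ne hs with h | h
    · exact right_ne_zero_of_mul (hη2 s h).ne'
    · exact (hη1 s h).ne'
  · rcases hx with ⟨t, rfl⟩ | hx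
    · exact ha t q (by linarith)
    · linarith [hx.1]
  · rcases hx with ⟨t, rfl⟩ | hx
    · exact hb t q h0 h1
    · exact hx.2.1
  · rcases hx with ⟨t, rfl⟩ | hx
    · exact absurd h (ha t q h0).ne'
    · exact hx.2.2 h
  · have := cc_sq_add_ss_sq r q.1
    by_cases hs : 0 ≤ ss r q.1
    · have h2 : 1 ≤ 2 * ss r q.1 := by nlinarith
      rw [o₂ q fun h => by linarith [KR q h]]
      exact n₁ q (ν1 2 q h0 h1 h2)
    · exact n₂ q (ν1 (-2) q h0 h1 (by nlinarith))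

/-- The base point `(y X + Z, y W + R)`. -/
noncomputable def N0 (r : ℕ) : II :=
  II.mk' (fun q => ((((yy r q.1 : ℝ) : ℂ), Complex.I), (Complex.I * ((yy r q.1 : ℝ) : ℂ), 1)))
    (by
      have : Continuous fun q : Q => yy r q.1 :=
        Real.smoothTransition.continuous.comp (by have := cc_cont r; fun_prop)
      fun_prop)
    ((cc_per r).comp fun x => ((((Real.smoothTransition (-20 * x - 18) : ℝ) : ℂ), Complex.I),
      (Complex.I * ((Real.smoothTransition (-20 * x - 18) : ℝ) : ℂ), (1 : ℂ))))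
    fun q => inj_of_dl (by simp [dl])

lemma dl_N0 (r : ℕ) (q : Q) : dl (N0 r q) = 1 := by simp [N0, dl]

lemma al_N0 (r : ℕ) (q : Q) : al (N0 r q).2 = 1 := by simp [N0, al]

lemma N0_eq {r : ℕ} (η : ℝ → ℝ) {q : Q} (h : yy r q.1 = 0) : Nb r η q = N0 r q := by
  have : bb r η q.1 = 1 := by
    apply Complex.ext <;> simp [bb, h]
  simp [N0, Nb, this]

lemma segInj_N0 (r : ℕ) (η : ℝ → ℝ) (q : Q) : SegInj (N0 r q) (Nb r η q) := by
  intro u _ _
  by_cases h : yy r q.1 = 0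
  · rw [N0_eq η h, sub_self, smul_zero, add_zero]
    exact (N0 r).inj q
  · intro a b hab
    have h1 := congrArg (fun x : G => x.1.re) hab
    have h2 := congrArg (fun x : G => x.1.im) hab
    simp [N0, Nb, h] at h1 h2
    exact ⟨h1, h2⟩

/-- Steps 1 to 3: first pass, move and tilt. -/
lemma sol3 (hP : PassStmt) (hM : MoveStmt) (hT : TiltStmt) (hB : BumpStmt) (hD : BeadStmt)
    {c : Ctx} (hc' : c.Nrm) {f : Q → G} {hf : IsEmb c f} {N : II} {γ : Path hf.d N} {r : ℕ}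
    (hr : 1 ≤ r) {sg : ℝ} (hsg : sg = 1 ∨ sg = -1) {η : ℝ → ℝ} (hη : Continuous η)
    (hηp : Per fun q : Q => η q.1) (hη1 : ∀ s, 0 < ss r s → 0 < η s)
    (hη2 : ∀ s, ss r s < 0 → 0 < sg * η s) (hNb : ∀ q, N q = Nb r η q)
    (hN : ∀ q, 0 < dl (N q)) : Sol hf γ := by
  have hQ : ∀ q, SegInj (N0 r q) (N q) := fun q => hNb q ▸ segInj_N0 r η q
  have hQv : PW (seg (N0 r) N hQ) fun q x => -(9 / 10) ≤ cc r q.1 → x = N0 r q :=
    pw_seg fun q u _ _ h => by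
      rw [hNb, N0_eq η (yy_zero h), sub_self, smul_zero, add_zero]
  have h0 : ∀ q, 0 < dl (N0 r q) := fun q => by rw [dl_N0]; exact one_pos
  obtain ⟨F₁, hF₁, J₁, γ₁, hh₁, hA, -⟩ := hP c hc' f hf (N0 r) (γ.trans (seg (N0 r) N hQ).symm)
    (fun _ => 12) contDiff_const (per_const _) h0 (fun q _ => by rw [al_N0]; exact one_pos)
    fun q _ h => by norm_num at h
  have hA' : PW γ₁ fun _ x => 0 < al x.2 := hA.mono fun q x hx => hx (by norm_num)
  refine Sol.of_iso (hF := hF₁) (γ' := γ₁.trans (seg (N0 r) N hQ)) J₁ (by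
    rw [hc_trans, ← trans_assoc, hh₁, hc_trans, hc_symm, trans_assoc, symm_trans, trans_refl]) ?_
  obtain ⟨m, hm, H⟩ := per_pos0 isClosed_univ perSet_univ (al_tau_cont hF₁) (al_tau_per hF₁)
    fun q _ => hA'.source q
  have near : ∀ q (v : G), ‖v - (dd c F₁ q).2‖ ≤ m / 2 → 0 < al v := fun q v hv => by
    linarith [(al_near hv).1, H q (mem_univ q)]
  obtain ⟨F₂, hF₂, J₂, ζ, E, hs, Λ, hζ, hζp, hE, hI, hh₂, hΛ, hτ, -⟩ := hM c F₁ hF₁ (N0 r) γ₁
    (fun _ => 4) contDiff_const (per_const _) h0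
    (hA'.mono fun q x hx => snd_ne_of_al hx.ne') (fun t q h => by norm_num at h) (m / 2)
    (half_pos hm)
  have hΛa : PW Λ fun _ x => 0 < al x.2 := hΛ.mono fun q x hx => by
    rcases hx.2 with ⟨t, ht⟩ | h
    · rw [ht]; exact hA' t q
    · exact near q _ h
  refine Sol.of_iso (hF := hF₂) (γ' := (seg hF₂.d E hs).trans (Λ.trans (seg (N0 r) N hQ))) J₂ (by
    rw [hc_trans, hc_trans, hc_trans, ← hh₂]
    simp only [trans_assoc]) ?_
  obtain ⟨F₃, J₃, p, hp, hpp, hp0, hpl, hF₃dl⟩ := hT c F₂ hF₂ r hr ζ hζ hζp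
    (fun q => ⟨hE q ▸ (hΛ.source q).1, hI q⟩) fun q => near q _ (hτ q)
  have hF₃ := J₃.emb1
  obtain ⟨E', hs', y, hE', hy, hsq⟩ := seg_step hF₂ hF₃ J₃ hp hpp (fun l q => (hpl l q).1)
    (fun l q => (hpl l q).2.2) (fun q => by rw [hE, hp0]) hs
  have hl1 : ∀ q, 0 < dl (p (1, q), (dd c F₃ q).2) ∧ 0 < al (dd c F₃ q).2 := fun q => by
    have := hpl 1 q
    rw [J₃.h1] at this
    exact ⟨this.1, this.2.1⟩
  refine Sol.of_iso (hF := hF₃)
    (γ' := (seg hF₃.d E' hs').trans (y.symm.trans (Λ.trans (seg (N0 r) N hQ)))) J₃ (by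
      rw [hc_trans, ← trans_assoc, hsq, hc_trans, hc_symm, trans_assoc, q_cancel₁, hc_trans
        (seg hF₂.d E hs)])
    (sol4 hP hM hB hD hc' hr hsg hη hηp hη1 hη2 hNb hN
      (PW.trans (pw_seg fun q u _ _ _ => ?_) (PW.trans (PW.symm fun t q _ => ?_)
        (PW.trans (hΛa.mono fun q x hx _ => hx) (hQv.mono fun q x hx h => ?_))))
      (PW.trans (pw_seg fun q u u0 u1 _ h => ?_) (PW.trans (PW.symm fun t q _ _ => ?_)
        (PW.trans (hΛ.mono fun q x hx _ _ => hx.1) (hQv.mono fun q x hx h _ => ?_)))))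
  · rw [hE', IsEmb.d_apply, seg_snd]; exact (hl1 q).2
  · rw [hy]; exact (hpl t q).2.1
  · rw [hx h, al_N0]; exact one_pos
  · rw [hE']; exact dl_seg_pos u0 u1 (hF₃dl q h) (hl1 q).1
  · rw [hy]; exact (hpl t q).1
  · rw [hx h]; exact h0 q

lemma dl_Nb (r : ℕ) (η : ℝ → ℝ) (q : Q) : 0 ≤ dl (Nb r η q) := by
  have : dl (Nb r η q) = (bb r η q.1).re ^ 2 + (bb r η q.1).im ^ 2 := by
    simp [dl, Nb]; ring
  rw [this]; positivity

end Assembly

open Assembly in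
/-- All stages together solve every formal transverse embedding. -/
theorem sol_of (hN : NormStmt) (hP : PassStmt) (hM : MoveStmt) (hT : TiltStmt) (hB : BumpStmt)
    (hD : BeadStmt) : SolStmt := by
  intro c hc' f hf N γ hdl
  obtain ⟨A, hA, hA', r, hr, sg, hsg, η, hη, hηp, hη1, hη2, Λ, hΛc, hΛp, hΛd, hΛ0, hΛ1⟩ :=
    hN N N.cont N.per hdl
  have fam : IsFam Λ := ⟨hΛc, hΛp, fun s q _ _ => inj_of_dl (hΛd _)⟩
  let N' : II := II.mk' (fun q => Λ (1, q))
    (hΛc.comp (f := fun q : Q => ((1 : ℝ), q)) (by fun_prop)) (hΛp 1) fun q => inj_of_dl (hΛd _)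
  let L : Path (actII A hA N) N' := mkPath fam hΛ0 fun q => rfl
  have hηP : Per fun q : Q => η q.1 := fun q m => by
    have h : Function.Periodic η 1 := hηp
    simpa using h.int_mul m.1 q.1
  refine Sol.of_re A hA hA' (Sol.tail (γ' := (rePath A hA hf γ).trans L) L
    (fun t q => hΛd _) rfl
    (sol3 hP hM hT hB hD (hc'.re A hA) hr hsg hη hηP hη1 hη2 hΛ1 fun q => ?_))
  have h0 : 0 ≤ dl (Λ (1, q)) := by rw [hΛ1]; exact dl_Nb r η q
  exact lt_of_le_of_ne h0 (hΛd (1, q)).symm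

end Pool.Agent.Lib.MP_72f1d0_gt
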