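import Mathlib
import Pool.Agent.Lib.MP_72f1d0_gt.Defs

/-!
Utilities for the bead and tilt operations: periodic compactness, Lipschitz bounds in the
fibre direction, and the algebra of the pair of cones.
-/

open scoped ContDiff

namespace Pool.Agent.Lib.MP_72f1d0_gt

namespace Bead

/-- The closed unit square. -/
def Sq : Set Q := Set.Icc (0 : ℝ) 1 ×ˢ Set.Icc (0 : ℝ) 1

lemma Sq_compact : IsCompact Sq := isCompact_Icc.prod isCompact_Icc

lemma Sq_convex : Convex ℝ Sq := (convex_Icc 0 1).prod (convex_Icc 0 1)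

lemma exists_Sq (q : Q) : ∃ m : ℤ × ℤ, q + lat m ∈ Sq := by
  refine ⟨(-⌊q.1⌋, -⌊q.2⌋), ?_⟩
  have h1 := Int.floor_le q.1
  have h2 := Int.lt_floor_add_one q.1
  have h3 := Int.floor_le q.2
  have h4 := Int.lt_floor_add_one q.2
  simp only [Sq, lat, Set.mem_prod, Set.mem_Icc, Prod.fst_add, Prod.snd_add, Int.cast_neg]
  refine ⟨⟨by linarith, by linarith⟩, ⟨by linarith, by linarith⟩⟩

lemma per_bound {E : Type*} [NormedAddCommGroup E] (φ : Q → E) (hc : Continuous φ)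
    (hp : Per φ) : ∃ C : ℝ, 0 < C ∧ ∀ q, ‖φ q‖ ≤ C := by
  obtain ⟨C, hC⟩ := Sq_compact.exists_bound_of_continuousOn hc.continuousOn
  refine ⟨max C 1, by positivity, fun q => ?_⟩
  obtain ⟨m, hm⟩ := exists_Sq q
  rw [← hp q m]
  exact (hC _ hm).trans (le_max_left _ _)

lemma per_pos (φ : Q → ℝ) (hc : Continuous φ) (hp : Per φ) (K : Set Q) (hK : IsClosed K)
    (hKp : PerSet K) (hpos : ∀ q ∈ K, 0 < φ q) : ∃ m : ℝ, 0 < m ∧ ∀ q ∈ K, m ≤ φ q := by
  have hcomp : IsCompact (Sq ∩ K) := Sq_compact.inter_right hK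
  by_cases hne : (Sq ∩ K).Nonempty
  · obtain ⟨q₀, hq₀, hmin⟩ := hcomp.exists_isMinOn hne hc.continuousOn
    refine ⟨φ q₀, hpos _ hq₀.2, fun q hq => ?_⟩
    obtain ⟨m, hm⟩ := exists_Sq q
    rw [← hp q m]
    exact hmin ⟨hm, hKp q m hq⟩
  · refine ⟨1, one_pos, fun q hq => ?_⟩
    obtain ⟨m, hm⟩ := exists_Sq q
    exact absurd ⟨_, hm, hKp q m hq⟩ hne

lemma per_lip {V E : Type*} [NormedAddCommGroup V] [NormedSpace ℝ V] [FiniteDimensional ℝ V]
    [NormedAddCommGroup E] [NormedSpace ℝ E] (F : Q × V → E) (hF : ContDiff ℝ 1 F)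
    (hp : ∀ q m v, F (q + lat m, v) = F (q, v)) :
    ∃ C : ℝ, 0 < C ∧ ∀ q v, ‖v‖ ≤ 1 → ‖F (q, v) - F (q, 0)‖ ≤ C * ‖v‖ := by
  have : ProperSpace V := FiniteDimensional.proper ℝ V
  have hS : IsCompact (Sq ×ˢ Metric.closedBall (0 : V) 1) :=
    Sq_compact.prod (isCompact_closedBall 0 1)
  have hcv : Convex ℝ (Sq ×ˢ Metric.closedBall (0 : V) 1) :=
    Sq_convex.prod (convex_closedBall 0 1)
  obtain ⟨C, hC⟩ := hS.exists_bound_of_continuousOn
    (hF.continuous_fderiv (by simp)).continuousOn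
  refine ⟨max C 1, by positivity, fun q v hv => ?_⟩
  obtain ⟨m, hm⟩ := exists_Sq q
  rw [← hp q m v, ← hp q m 0]
  have h1 := hcv.norm_image_sub_le_of_norm_fderiv_le (𝕜 := ℝ) (f := F) (C := C)
    (fun x _ => hF.differentiable (by simp) x) (fun x hx => hC x hx)
    (x := (q + lat m, 0)) (y := (q + lat m, v)) ⟨hm, by simp⟩ ⟨hm, by simpa using hv⟩
  have h2 : ‖((q + lat m, v) : Q × V) - (q + lat m, 0)‖ = ‖v‖ := by
    simp [Prod.norm_def]
  rw [h2] at h1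
  exact h1.trans (mul_le_mul_of_nonneg_right (le_max_left _ _) (norm_nonneg _))

/-- The differential in frame coordinates is periodic. -/
lemma AA_per {V : Type*} [NormedAddCommGroup V] [NormedSpace ℝ V] (c : Ctx) (Φ : Q × V → G)
    (hp : ∀ q m v, Φ (q + lat m, v) = Φ (q, v) + c.i (lat m)) (q : Q) (m : ℤ × ℤ) (v : V) :
    AA c Φ (q + lat m, v) = AA c Φ (q, v) := by
  have h1 : (fun x : Q × V => Φ (x + (lat m, 0))) = fun x => Φ x + c.i (lat m) := by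
    funext x
    obtain ⟨a, b⟩ := x
    simpa using hp a m b
  have h2 : fderiv ℝ Φ (q + lat m, v) = fderiv ℝ Φ (q, v) := by
    have h3 := fderiv_comp_add_right (𝕜 := ℝ) (f := Φ) (x := (q, v)) ((lat m, 0) : Q × V)
    rw [h1, fderiv_add_const] at h3
    simpa using h3.symm
  unfold AA
  rw [h2, hp, c.om_per]

lemma AA_smooth {Y : Type*} [NormedAddCommGroup Y] [NormedSpace ℝ Y] (c : Ctx) (Φ : Y → G)
    (hΦ : ContDiff ℝ ∞ Φ) : ContDiff ℝ 1 (AA c Φ) := by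
  unfold AA
  have h1 : ContDiff ℝ 1 (fun x => c.om (Φ x)) :=
    (c.om_smooth.comp hΦ).of_le (by simp)
  have h2 : ContDiff ℝ 1 (fderiv ℝ Φ) := hΦ.fderiv_right (by norm_cast)
  exact h1.clm_comp h2

lemma dd_smooth (c : Ctx) (f : Q → G) (hf : ContDiff ℝ ∞ f) : ContDiff ℝ ∞ (dd c f) := by
  unfold dd
  have h1 : ContDiff ℝ ∞ (fun x => c.om (f x)) := c.om_smooth.comp hf
  have h2 : ContDiff ℝ ∞ (fderiv ℝ f) := hf.fderiv_right (by norm_cast)
  exact (h1.clm_apply (h2.clm_apply contDiff_const)).prodMk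
    (h1.clm_apply (h2.clm_apply contDiff_const))

lemma dd_per (c : Ctx) (f : Q → G) (hf : ∀ q m, f (q + lat m) = f q + c.i (lat m)) :
    Per (dd c f) := by
  intro q m
  have h1 : (fun x : Q => f (x + lat m)) = fun x => f x + c.i (lat m) := by
    funext x
    exact hf x m
  have h2 : fderiv ℝ f (q + lat m) = fderiv ℝ f q := by
    have h3 := fderiv_comp_add_right (𝕜 := ℝ) (f := f) (x := q) (lat m)
    rw [h1, fderiv_add_const] at h3
    exact h3.symm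
  unfold dd
  rw [h2, hf, c.om_per]

/-! ### The bracket on the plane field -/

lemma br_zero (c : Ctx) (p B : G) : c.br p 0 B = 0 := by
  simp [Ctx.br, brk]

lemma br_zero' (c : Ctx) (p A : G) : c.br p A 0 = 0 := by
  simp [Ctx.br, brk]

lemma br_DD (c : Ctx) (p : G) (A B : ℂ) :
    (c.br p (A, 0) (B, 0)).2 = (((starRingEnd ℂ) A * B).im : ℝ) * Complex.I := by
  have hA : ((A, 0) : G) = A.re • vX + A.im • vW := by
    ext
    · simp [vX, vW]
    · simp [vX, vW]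
  have hB : ((B, 0) : G) = B.re • vX + B.im • vW := by
    ext
    · simp [vX, vW]
    · simp [vX, vW]
  have hXW := c.brXW p
  have key : c.br p (A, 0) (B, 0) = (A.re * B.im - A.im * B.re) • brk c.e c.om p vX vW := by
    rw [hA, hB]
    simp only [Ctx.br, brk, map_add, map_smul, add_apply,
      smul_apply]
    module
  rw [key, Prod.smul_snd, hXW]
  simp [Complex.real_smul]
  ring

/-! ### The determinant -/

lemma dl_le (A B : G) : |dl (A, B)| ≤ ‖A‖ * ‖B‖ := by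
  have h1 : dl (A, B) = ((starRingEnd ℂ) B.2 * A.2).im := by
    simp [dl]
    ring
  rw [h1]
  refine (Complex.abs_im_le_norm _).trans ?_
  rw [norm_mul, Complex.norm_conj, mul_comm]
  exact mul_le_mul (norm_snd_le A) (norm_snd_le B) (norm_nonneg _) (norm_nonneg _)

lemma dl_le' (A B : G) : |dl (A, B)| ≤ ‖A.2‖ * ‖B‖ := by
  have h := dl_le (0, A.2) B
  have h1 : dl (((0, A.2) : G), B) = dl (A, B) := by simp [dl]
  have h2 : ‖((0, A.2) : G)‖ = ‖A.2‖ := by simp [Prod.norm_def]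
  rwa [h1, h2] at h

lemma dl_cont : Continuous dl := by
  unfold dl
  fun_prop

lemma dl_smooth : ContDiff ℝ ∞ dl := by
  unfold dl
  have hre : ContDiff ℝ ∞ Complex.re := Complex.reCLM.contDiff
  have him : ContDiff ℝ ∞ Complex.im := Complex.imCLM.contDiff
  exact ((hre.comp (contDiff_snd.comp contDiff_snd)).mul
    (him.comp (contDiff_snd.comp contDiff_fst))).sub
    ((him.comp (contDiff_snd.comp contDiff_snd)).mul
    (hre.comp (contDiff_snd.comp contDiff_fst)))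

/-- The ideal map. -/
noncomputable def TT (u : ℂ) (ζ τ : G) (a : ℂ) (β γ : ℝ) : G :=
  ((a * u, 0) : G) + β • ζ + γ • τ

lemma TT_inj (u : ℂ) (ζ τ : G) (hu : u ≠ 0) (hd : dl (ζ, τ) ≠ 0) (a : ℂ) (β γ : ℝ)
    (h : TT u ζ τ a β γ = 0) : a = 0 ∧ β = 0 ∧ γ = 0 := by
  have h2 := congrArg Prod.snd h
  have h1 := congrArg Prod.fst h
  simp only [TT, Prod.snd_add, Prod.smul_snd, zero_add, Prod.snd_zero] at h2
  have hre := congrArg Complex.re h2
  have him := congrArg Complex.im h2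
  simp only [Complex.add_re, Complex.add_im, Complex.smul_re, Complex.smul_im, smul_eq_mul,
    Complex.zero_re, Complex.zero_im] at hre him
  have hβ : β * dl (ζ, τ) = 0 := by
    simp only [dl]
    linear_combination τ.2.re * him - τ.2.im * hre
  have hγ : γ * dl (ζ, τ) = 0 := by
    simp only [dl]
    linear_combination ζ.2.im * hre - ζ.2.re * him
  have hβ0 : β = 0 := (mul_eq_zero.1 hβ).resolve_right hd
  have hγ0 : γ = 0 := (mul_eq_zero.1 hγ).resolve_right hd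
  subst hβ0 hγ0
  simp only [TT, zero_smul, add_zero, Prod.fst_zero] at h1
  exact ⟨(mul_eq_zero.1 h1).resolve_right hu, rfl, rfl⟩

lemma TT_lower (u : Q → ℂ) (ζ τ : Q → G) (hu : Continuous u) (hζ : Continuous ζ)
    (hτ : Continuous τ) (pu : Per u) (pζ : Per ζ) (pτ : Per τ) (hu0 : ∀ q, u q ≠ 0)
    (hd : ∀ q, dl (ζ q, τ q) ≠ 0) :
    ∃ m : ℝ, 0 < m ∧ ∀ q a β γ, m * (‖a‖ + |β| + |γ|) ≤ ‖TT (u q) (ζ q) (τ q) a β γ‖ := by
  set N : Q × (ℂ × ℝ × ℝ) → ℝ := fun x =>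
    ‖TT (u x.1) (ζ x.1) (τ x.1) x.2.1 x.2.2.1 x.2.2.2‖ with hN
  have hNc : Continuous N := by
    simp only [hN, TT]
    fun_prop
  have hS : IsCompact (Sq ×ˢ Metric.sphere (0 : ℂ × ℝ × ℝ) 1) :=
    Sq_compact.prod (isCompact_sphere 0 1)
  have hne : (Sq ×ˢ Metric.sphere (0 : ℂ × ℝ × ℝ) 1).Nonempty :=
    ⟨((0, 0), (1, 0, 0)), ⟨by simp, by simp⟩, by simp [Prod.norm_def]⟩
  obtain ⟨x₀, hx₀, hmin⟩ := hS.exists_isMinOn hne hNc.continuousOn
  have hpos : 0 < N x₀ := by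
    refine norm_pos_iff.2 fun h => ?_
    obtain ⟨h1, h2, h3⟩ := TT_inj _ _ _ (hu0 _) (hd _) _ _ _ h
    have h4 : x₀.2 = 0 := Prod.ext h1 (Prod.ext h2 h3)
    have h5 := hx₀.2
    rw [h4] at h5
    simp at h5
  refine ⟨N x₀ / 3, by positivity, fun q a β γ => ?_⟩
  set y : ℂ × ℝ × ℝ := (a, β, γ) with hy
  have hya : ‖a‖ ≤ ‖y‖ := norm_fst_le y
  have hyb : |β| ≤ ‖y‖ := (norm_fst_le y.2).trans (norm_snd_le y)
  have hyc : |γ| ≤ ‖y‖ := (norm_snd_le y.2).trans (norm_snd_le y)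
  by_cases hy0 : ‖y‖ = 0
  · have : ‖a‖ + |β| + |γ| = 0 := by
      have := norm_nonneg a
      have := abs_nonneg β
      have := abs_nonneg γ
      linarith
    rw [this, mul_zero]
    exact norm_nonneg _
  have hypos : 0 < ‖y‖ := lt_of_le_of_ne (norm_nonneg _) (Ne.symm hy0)
  obtain ⟨m, hm⟩ := exists_Sq q
  have h1 : N x₀ ≤ N (q + lat m, (‖y‖⁻¹ : ℝ) • y) := by
    refine hmin ⟨hm, ?_⟩
    simp [norm_smul, inv_mul_cancel₀ hy0]
  have h2 : TT (u q) (ζ q) (τ q) ((‖y‖⁻¹ : ℝ) • a) (‖y‖⁻¹ * β) (‖y‖⁻¹ * γ) =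
      (‖y‖⁻¹ : ℝ) • TT (u q) (ζ q) (τ q) a β γ := by
    simp only [TT, smul_add, mul_smul, Prod.smul_mk, smul_zero, smul_mul_assoc]
  have h3 : N (q + lat m, (‖y‖⁻¹ : ℝ) • y) = ‖y‖⁻¹ * ‖TT (u q) (ζ q) (τ q) a β γ‖ := by
    simp only [hN, pu q m, pζ q m, pτ q m]
    have : TT (u q) (ζ q) (τ q) ((‖y‖⁻¹ : ℝ) • y).1 ((‖y‖⁻¹ : ℝ) • y).2.1 ((‖y‖⁻¹ : ℝ) • y).2.2 =
        (‖y‖⁻¹ : ℝ) • TT (u q) (ζ q) (τ q) a β γ := h2
    rw [this, norm_smul, norm_inv, norm_norm]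
  rw [h3] at h1
  have h4 : N x₀ * ‖y‖ ≤ ‖TT (u q) (ζ q) (τ q) a β γ‖ := by
    have := mul_le_mul_of_nonneg_right h1 hypos.le
    rwa [mul_comm (‖y‖⁻¹), mul_assoc, inv_mul_cancel₀ hy0, mul_one] at this
  nlinarith

end Bead

end Pool.Agent.Lib.MP_72f1d0_gt
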