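import Mathlib
import Pool.Agent.Lib.MP_72f1d0_gt.BeadA

/-!
Pointwise estimates for the bead and tilt operations.
-/

open scoped ContDiff

namespace Pool.Agent.Lib.MP_72f1d0_gt

namespace Bead

abbrev Y : Type := Q × (ℝ × ℂ)

lemma norm_Y_le (ds dt dh : ℝ) (dg : ℂ) (K : ℝ) (h1 : |ds| ≤ K) (h2 : |dt| ≤ K)
    (h3 : |dh| ≤ K) (h4 : ‖dg‖ ≤ K) : ‖(((ds, dt), (dh, dg)) : Y)‖ ≤ K := by
  simp only [Prod.norm_def, Real.norm_eq_abs]
  exact max_le (max_le h1 h2) (max_le h3 h4)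

lemma zero_of_lt {m κ K S : ℝ} (hS : 0 ≤ S) (hκ : κ * K < m) (h : m * S ≤ κ * (K * S)) :
    S = 0 := by
  by_contra h0
  have hpos : 0 < S := lt_of_le_of_ne hS (Ne.symm h0)
  have := mul_lt_mul_of_pos_right hκ hpos
  nlinarith

/-- Injectivity on the two displacement cones. -/
lemma inj_pt (u : ℂ) (ζ τ : G) (b c₀ m H Cc Ca κ : ℝ) (L₀ : Y →L[ℝ] G)
    (hL₀ : ∀ (ds dt dh : ℝ) (dg : ℂ), L₀ ((ds, dt), (dh, dg)) =
      TT u ζ τ (ds + dg) (ds * b + dh) (ds * c₀ + dt))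
    (hm : ∀ a β γ, m * (‖a‖ + |β| + |γ|) ≤ ‖TT u ζ τ a β γ‖)
    (hb : |b| ≤ H) (hc : |c₀| ≤ Cc) (hCa : 0 ≤ Ca) (hκ0 : 0 ≤ κ)
    (hκ : κ * (4 + 5 * Ca + 2 * Cc + 2 * H) < m)
    (ds dt dh : ℝ) (dg : ℂ) (hds : 0 ≤ ds)
    (hcone : -(ds / 2) ≤ dg.re ∨ dh ≤ -((H + 1) * ds))
    (hsmall : ‖L₀ ((ds, dt), (dh, dg))‖ ≤ κ * ‖(((ds, dt), (dh, dg)) : Y)‖) :
    ds = 0 ∧ dt = 0 := by
  rw [hL₀] at hsmall
  have h1 := hm (ds + dg) (ds * b + dh) (ds * c₀ + dt)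
  set A := ‖(ds : ℂ) + dg‖ with hA
  set B := |ds * b + dh| with hB
  set Γ := |ds * c₀ + dt| with hΓ
  have hA0 : 0 ≤ A := norm_nonneg _
  have hB0 : 0 ≤ B := abs_nonneg _
  have hΓ0 : 0 ≤ Γ := abs_nonneg _
  have hH0 : 0 ≤ H := (abs_nonneg _).trans hb
  have hC0 : 0 ≤ Cc := (abs_nonneg _).trans hc
  have hb' := abs_le.1 hb
  have hc' := abs_le.1 hc
  have hds2 : ds ≤ 2 * (A + B) := by
    rcases hcone with h | h
    · have h2 : ((ds : ℂ) + dg).re ≤ A := Complex.re_le_norm _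
      simp only [Complex.add_re, Complex.ofReal_re] at h2
      linarith
    · have h2 : -(ds * b + dh) ≤ B := neg_le_abs _
      nlinarith
  have hdg : ‖dg‖ ≤ A + ds := by
    have h2 : dg = ((ds : ℂ) + dg) - ds := by ring
    calc ‖dg‖ = ‖((ds : ℂ) + dg) - ds‖ := by rw [← h2]
      _ ≤ A + ‖(ds : ℂ)‖ := norm_sub_le _ _
      _ = A + ds := by rw [Complex.norm_real, Real.norm_eq_abs, abs_of_nonneg hds]
  have hdh : |dh| ≤ B + H * ds := by
    have h2 := abs_le.1 (le_refl B)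
    have h3 : -B ≤ ds * b + dh := neg_abs_le _
    have h4 : ds * b + dh ≤ B := le_abs_self _
    rw [abs_le]
    constructor <;> nlinarith
  have hdt : |dt| ≤ Γ + Cc * ds := by
    have h3 : -Γ ≤ ds * c₀ + dt := neg_abs_le _
    have h4 : ds * c₀ + dt ≤ Γ := le_abs_self _
    rw [abs_le]
    constructor <;> nlinarith
  have hy : ‖(((ds, dt), (dh, dg)) : Y)‖ ≤ (4 + 5 * Ca + 2 * Cc + 2 * H) * (A + B + Γ) := by
    have e1 : 0 ≤ Ca * (A + B + Γ) := by positivity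
    have e2 : 0 ≤ Cc * (A + B + Γ) := by positivity
    have e3 : 0 ≤ H * (A + B + Γ) := by positivity
    have e4 : H * ds ≤ 2 * (H * (A + B + Γ)) := by nlinarith
    have e5 : Cc * ds ≤ 2 * (Cc * (A + B + Γ)) := by nlinarith
    refine norm_Y_le _ _ _ _ _ ?_ ?_ ?_ ?_
    · rw [abs_of_nonneg hds]
      nlinarith
    · nlinarith
    · nlinarith
    · nlinarith
  have hS : A + B + Γ = 0 :=
    zero_of_lt (by positivity) hκ (h1.trans (hsmall.trans (mul_le_mul_of_nonneg_left hy hκ0)))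
  have hA1 : A = 0 := by linarith
  have hB1 : B = 0 := by linarith
  have hΓ1 : Γ = 0 := by linarith
  have hds0 : ds = 0 := by linarith
  refine ⟨hds0, ?_⟩
  rw [hΓ1, hds0] at hdt
  exact abs_nonpos_iff.1 (by simpa using hdt)

/-- Injectivity along the segment from the actual pair to the pair `(ζ, τ_l)`. -/
lemma seg_pt (u : ℂ) (ζ τ : G) (b c₀ m H Cc Ca κ : ℝ) (L₀ L : Y →L[ℝ] G)
    (hL₀ : ∀ (ds dt dh : ℝ) (dg : ℂ), L₀ ((ds, dt), (dh, dg)) =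
      TT u ζ τ (ds + dg) (ds * b + dh) (ds * c₀ + dt))
    (hm : ∀ a β γ, m * (‖a‖ + |β| + |γ|) ≤ ‖TT u ζ τ a β γ‖)
    (hb : |b| ≤ H) (hc : |c₀| ≤ Cc) (hCa : 0 ≤ Ca) (hL : ‖L - L₀‖ ≤ κ)
    (hκ : κ * (4 + 5 * Ca + 2 * Cc + 2 * H) < m)
    (s' h' : ℝ) (g' : ℂ) (hs : 0 < s') (hspeed : s' / 2 ≤ ‖(s' : ℂ) + g'‖)
    (hslope : |h'| ≤ Ca * (s' + ‖g'‖)) :
    SegInj (L ((s', 0), (h', g')), L ((0, 1), (0, 0))) (ζ, L ((0, 1), (0, 0))) := by
  intro s _ _ a t hat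
  have hκ0 : 0 ≤ κ := (norm_nonneg _).trans hL
  set a₁ := a * (1 - s) with ha₁
  set k := a * s with hk
  set y : Y := ((a₁ * s', t), (a₁ * h', (a₁ : ℂ) * g')) with hy
  have hyeq : y = a₁ • (((s', 0), (h', g')) : Y) + t • (((0, 1), (0, 0)) : Y) := by
    simp [hy]
  have h0 : L y + k • ζ = 0 := by
    rw [hyeq, map_add, map_smul, map_smul, ← hat]
    simp only [Prod.fst_add, Prod.snd_add, Prod.smul_fst, Prod.smul_snd, Prod.fst_sub,
      Prod.snd_sub, ha₁, hk]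
    module
  have h1 : L₀ y + k • ζ = TT u ζ τ ((a₁ * s' : ℝ) + (a₁ : ℂ) * g') (a₁ * s' * b + a₁ * h' + k)
      (a₁ * s' * c₀ + t) := by
    rw [hy, hL₀]
    simp only [TT]
    module
  have h2 : ‖L₀ y + k • ζ‖ ≤ κ * ‖y‖ := by
    have e : L₀ y + k • ζ = -((L - L₀) y) := by
      rw [sub_apply, ← sub_zero (L₀ y + k • ζ), ← h0]
      abel
    rw [e, norm_neg]
    exact ((L - L₀).le_opNorm y).trans (mul_le_mul_of_nonneg_right hL (norm_nonneg _))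
  rw [h1] at h2
  have h3 := hm ((a₁ * s' : ℝ) + (a₁ : ℂ) * g') (a₁ * s' * b + a₁ * h' + k) (a₁ * s' * c₀ + t)
  set A := ‖((a₁ * s' : ℝ) : ℂ) + (a₁ : ℂ) * g'‖ with hA
  set B := |a₁ * s' * b + a₁ * h' + k| with hB
  set Γ := |a₁ * s' * c₀ + t| with hΓ
  have hA0 : 0 ≤ A := norm_nonneg _
  have hB0 : 0 ≤ B := abs_nonneg _
  have hΓ0 : 0 ≤ Γ := abs_nonneg _
  have hH0 : 0 ≤ H := (abs_nonneg _).trans hb
  have hC0 : 0 ≤ Cc := (abs_nonneg _).trans hc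
  have ha0 : 0 ≤ |a₁| := abs_nonneg _
  have hAeq : A = |a₁| * ‖(s' : ℂ) + g'‖ := by
    rw [hA, ← Real.norm_eq_abs, ← Complex.norm_real, ← norm_mul]
    congr 1
    push_cast
    ring
  have hS1 : |a₁| * s' ≤ 2 * A := by
    rw [hAeq]
    nlinarith
  have hg1 : ‖g'‖ ≤ ‖(s' : ℂ) + g'‖ + s' := by
    have h2 : g' = ((s' : ℂ) + g') - s' := by ring
    calc ‖g'‖ = ‖((s' : ℂ) + g') - s'‖ := by rw [← h2]
      _ ≤ ‖(s' : ℂ) + g'‖ + ‖(s' : ℂ)‖ := norm_sub_le _ _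
      _ = _ := by rw [Complex.norm_real, Real.norm_eq_abs, abs_of_pos hs]
  have hG1 : |a₁| * ‖g'‖ ≤ 3 * A := by
    have := mul_le_mul_of_nonneg_left hg1 ha0
    rw [mul_add, ← hAeq] at this
    linarith
  have hH1 : |a₁| * |h'| ≤ 5 * (Ca * A) := by
    have e1 := mul_le_mul_of_nonneg_left hslope ha0
    have e2 : |a₁| * (Ca * (s' + ‖g'‖)) = Ca * (|a₁| * s' + |a₁| * ‖g'‖) := by ring
    have e3 : Ca * (|a₁| * s' + |a₁| * ‖g'‖) ≤ Ca * (5 * A) :=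
      mul_le_mul_of_nonneg_left (by linarith) hCa
    linarith
  have ht1 : |t| ≤ Γ + 2 * (Cc * A) := by
    have e1 : t = (a₁ * s' * c₀ + t) - a₁ * s' * c₀ := by ring
    have e2 : |a₁ * s' * c₀| ≤ 2 * (Cc * A) := by
      rw [abs_mul, abs_mul, abs_of_pos hs]
      calc |a₁| * s' * |c₀| ≤ 2 * A * Cc :=
            mul_le_mul hS1 hc (abs_nonneg _) (by positivity)
        _ = 2 * (Cc * A) := by ring
    calc |t| = |(a₁ * s' * c₀ + t) - a₁ * s' * c₀| := by rw [← e1]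
      _ ≤ Γ + |a₁ * s' * c₀| := abs_sub _ _
      _ ≤ _ := by linarith
  have hyb : ‖y‖ ≤ (4 + 5 * Ca + 2 * Cc + 2 * H) * (A + B + Γ) := by
    have e1 : Ca * A ≤ Ca * (A + B + Γ) := mul_le_mul_of_nonneg_left (by linarith) hCa
    have e2 : Cc * A ≤ Cc * (A + B + Γ) := mul_le_mul_of_nonneg_left (by linarith) hC0
    have e3 : 0 ≤ H * (A + B + Γ) := by positivity
    have e4 : 0 ≤ Ca * A := by positivity
    have e5 : 0 ≤ Cc * A := by positivity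
    refine norm_Y_le _ _ _ _ _ ?_ ?_ ?_ ?_
    · rw [abs_mul, abs_of_pos hs]
      nlinarith
    · nlinarith
    · rw [abs_mul]
      nlinarith
    · rw [norm_mul, Complex.norm_real, Real.norm_eq_abs]
      nlinarith
  have hS : A + B + Γ = 0 :=
    zero_of_lt (by positivity) hκ (h3.trans (h2.trans (mul_le_mul_of_nonneg_left hyb hκ0)))
  have hA1 : A = 0 := by linarith
  have hB1 : B = 0 := by linarith
  have hΓ1 : Γ = 0 := by linarith
  have ha1 : a₁ = 0 := by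
    have : |a₁| * s' ≤ 0 := by linarith
    have h4 : |a₁| ≤ 0 := by
      by_contra h5
      have := mul_pos (not_le.1 h5) hs
      linarith
    exact abs_nonpos_iff.1 h4
  have hk0 : k = 0 := by
    have := abs_eq_zero.1 hB1
    rw [ha1] at this
    simpa using this
  have ht0 : t = 0 := by
    have := abs_eq_zero.1 hΓ1
    rw [ha1] at this
    simpa using this
  refine ⟨?_, ht0⟩
  have : a = a₁ + k := by rw [ha₁, hk]; ring
  rw [this, ha1, hk0, add_zero]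

lemma dl_add_left (A A' B : G) : dl (A + A', B) = dl (A, B) + dl (A', B) := by
  simp [dl]
  ring

lemma dl_add_right (A B B' : G) : dl (A, B + B') = dl (A, B) + dl (A, B') := by
  simp [dl]
  ring

/-- The transversality determinant of the deformed torus. -/
lemma dl_pt (μ ζ τ : G) (U ar b n e C₁ C₂ M : ℝ) (L₀ L : Y →L[ℝ] G)
    (s' h' : ℝ) (g' : ℂ) (hs : 0 < s')
    (hb : dl (μ, τ) = b * dl (ζ, τ))
    (hL₁ : L₀ ((s', 0), (h', 0)) = s' • μ + h' • ζ) (hL₂ : L₀ ((0, 1), (0, 0)) = τ)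
    (hL : ‖L - L₀‖ ≤ C₁ * n) (hn0 : 0 ≤ n) (hn : n ≤ 2) (hC₁ : 0 ≤ C₁) (hC₂ : 0 ≤ C₂)
    (he : 0 ≤ e)
    (hfib : ‖(L ((0, 0), (0, g'))).2 - ((U * ar / 2 : ℝ) : ℂ) * Complex.I‖ ≤ C₂ * e)
    (hμ : ‖μ‖ ≤ M) (hζ : ‖ζ‖ ≤ M) (hτ : ‖τ‖ ≤ M) (hU0 : 0 ≤ U) (hU : U ≤ M) :
    dl (ζ, τ) * (s' * b + h') + U * al τ / 2 * ar -
      ((M + 2 * C₁) * (C₁ + C₂) + M * C₁) * (n * (s' + |h'| + |ar|) + e) ≤
      dl (L ((s', 0), (h', g')), L ((0, 1), (0, 0))) := by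
  have hM0 : 0 ≤ M := (norm_nonneg _).trans hμ
  set I : G := s' • μ + h' • ζ + (0, ((U * ar / 2 : ℝ) : ℂ) * Complex.I) with hI
  set μl := L ((s', 0), (h', g')) with hμl
  set τl := L ((0, 1), (0, 0)) with hτl
  have hτ1 : ‖τl - τ‖ ≤ C₁ * n := by
    have e1 : τl - τ = (L - L₀) ((0, 1), (0, 0)) := by
      rw [sub_apply, hL₂]
    have e2 : ‖(((0, 1), (0, 0)) : Y)‖ ≤ 1 := norm_Y_le _ _ _ _ _ (by simp) (by simp) (by simp)
      (by simp)
    rw [e1]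
    refine ((L - L₀).le_opNorm _).trans ?_
    calc _ ≤ C₁ * n * 1 := mul_le_mul hL e2 (norm_nonneg _) (by positivity)
      _ = _ := mul_one _
  have hτ2 : ‖τl‖ ≤ M + 2 * C₁ := by
    have e1 : τl = τ + (τl - τ) := by abel
    have e2 : C₁ * n ≤ C₁ * 2 := mul_le_mul_of_nonneg_left hn hC₁
    calc ‖τl‖ = ‖τ + (τl - τ)‖ := by rw [← e1]
      _ ≤ ‖τ‖ + ‖τl - τ‖ := norm_add_le _ _
      _ ≤ _ := by linarith
  have hμ1 : ‖(μl - I).2‖ ≤ C₁ * n * (s' + |h'|) + C₂ * e := by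
    have e0 : (((s', 0), (h', g')) : Y) = ((s', 0), (h', 0)) + ((0, 0), (0, g')) := by simp
    have e1 : (μl - I).2 = ((L - L₀) ((s', 0), (h', 0))).2 +
        ((L ((0, 0), (0, g'))).2 - ((U * ar / 2 : ℝ) : ℂ) * Complex.I) := by
      rw [hμl, e0, map_add, sub_apply, hL₁, hI]
      simp only [Prod.snd_add, Prod.snd_sub]
      ring
    have e2 : ‖(((s', 0), (h', 0)) : Y)‖ ≤ s' + |h'| := by
      have := abs_nonneg h'
      refine norm_Y_le _ _ _ _ _ ?_ ?_ ?_ ?_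
      · rw [abs_of_pos hs]
        linarith
      · simp only [abs_zero]
        linarith
      · linarith
      · simp only [norm_zero]
        linarith
    have e3 : ‖((L - L₀) ((s', 0), (h', 0))).2‖ ≤ C₁ * n * (s' + |h'|) :=
      (norm_snd_le _).trans (((L - L₀).le_opNorm _).trans
        (mul_le_mul hL e2 (norm_nonneg _) (by positivity)))
    rw [e1]
    exact (norm_add_le _ _).trans (add_le_add e3 hfib)
  have hI1 : ‖I‖ ≤ M * (s' + |h'| + |ar|) := by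
    have e1 : ‖s' • μ‖ ≤ s' * M := by
      rw [norm_smul, Real.norm_eq_abs, abs_of_pos hs]
      exact mul_le_mul_of_nonneg_left hμ hs.le
    have e2 : ‖h' • ζ‖ ≤ |h'| * M := by
      rw [norm_smul, Real.norm_eq_abs]
      exact mul_le_mul_of_nonneg_left hζ (abs_nonneg _)
    have e3 : ‖((0, ((U * ar / 2 : ℝ) : ℂ) * Complex.I) : G)‖ ≤ M * |ar| := by
      have : ‖((0, ((U * ar / 2 : ℝ) : ℂ) * Complex.I) : G)‖ = U * |ar| / 2 := by
        rw [Prod.norm_def]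
        simp only [norm_zero, norm_mul, Complex.norm_I, mul_one, Complex.norm_real,
          Real.norm_eq_abs]
        rw [max_eq_right (abs_nonneg _), abs_div, abs_mul, abs_of_nonneg hU0]
        norm_num
      rw [this]
      have := abs_nonneg ar
      nlinarith
    calc ‖I‖ ≤ ‖s' • μ‖ + ‖h' • ζ‖ + ‖((0, ((U * ar / 2 : ℝ) : ℂ) * Complex.I) : G)‖ :=
          norm_add₃_le
      _ ≤ _ := by nlinarith
  have hdI : dl (I, τ) = dl (ζ, τ) * (s' * b + h') + U * al τ / 2 * ar := by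
    have e1 : dl (I, τ) = s' * dl (μ, τ) + h' * dl (ζ, τ) + U * al τ / 2 * ar := by
      simp [hI, dl, al]
      ring
    rw [e1, hb]
    ring
  have hsplit : dl (μl, τl) = dl (μl - I, τl) + dl (I, τl - τ) + dl (I, τ) := by
    rw [add_assoc, ← dl_add_right, sub_add_cancel, ← dl_add_left, sub_add_cancel]
  have b1 := (abs_le.1 ((dl_le' (μl - I) τl).trans
    (mul_le_mul hμ1 hτ2 (norm_nonneg _) (by positivity)))).1
  have b2 := (abs_le.1 ((dl_le I (τl - τ)).trans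
    (mul_le_mul hI1 hτ1 (norm_nonneg _) (by positivity)))).1
  rw [hsplit, hdI]
  have har := abs_nonneg ar
  have hh := abs_nonneg h'
  set w := n * (s' + |h'| + |ar|) with hw
  have hw0 : 0 ≤ w := by positivity
  have hw1 : n * (s' + |h'|) ≤ w := mul_le_mul_of_nonneg_left (by linarith) hn0
  have f1 : (C₁ * n * (s' + |h'|) + C₂ * e) * (M + 2 * C₁) ≤
      (M + 2 * C₁) * (C₁ + C₂) * (w + e) := by
    have g1 : C₁ * n * (s' + |h'|) + C₂ * e ≤ (C₁ + C₂) * (w + e) := by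
      have := mul_le_mul_of_nonneg_left hw1 hC₁
      have := mul_nonneg hC₁ he
      have := mul_nonneg hC₂ hw0
      nlinarith
    calc _ ≤ (C₁ + C₂) * (w + e) * (M + 2 * C₁) :=
          mul_le_mul_of_nonneg_right g1 (by positivity)
      _ = _ := by ring
  have f2 : M * (s' + |h'| + |ar|) * (C₁ * n) ≤ M * C₁ * (w + e) := by
    have : M * (s' + |h'| + |ar|) * (C₁ * n) = M * C₁ * w := by rw [hw]; ring
    rw [this]
    exact mul_le_mul_of_nonneg_left (by linarith) (by positivity)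
  nlinarith

end Bead

end Pool.Agent.Lib.MP_72f1d0_gt
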