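import Mathlib
import Pool.Agent.Lib.MP_72f1d0_gt.BeadB

/-!
The displacement map used by the bead and tilt operations and its differential.
-/

open scoped ContDiff

namespace Pool.Agent.Lib.MP_72f1d0_gt

namespace Bead

lemma decomp (μ ζ τ : Q → G) (hμ : ContDiff ℝ ∞ μ) (hζ : ContDiff ℝ ∞ ζ) (hτ : ContDiff ℝ ∞ τ)
    (pμ : Per μ) (pζ : Per ζ) (pτ : Per τ)
    (h1 : ∀ q, 0 < dl (ζ q, τ q) ∧ Ind3 (μ q) (ζ q) (τ q)) :
    ∃ (b c₀ : Q → ℝ) (u : Q → ℂ), Continuous b ∧ Continuous c₀ ∧ ContDiff ℝ ∞ u ∧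
      Per b ∧ Per c₀ ∧ Per u ∧ (∀ q, u q ≠ 0) ∧
      ∀ q, μ q = TT (u q) (ζ q) (τ q) 1 (b q) (c₀ q) := by
  have hD : ContDiff ℝ ∞ fun q => dl (ζ q, τ q) := dl_smooth.comp (hζ.prodMk hτ)
  have hb : ContDiff ℝ ∞ fun q => dl (μ q, τ q) / dl (ζ q, τ q) :=
    (dl_smooth.comp (hμ.prodMk hτ)).div hD fun q => (h1 q).1.ne'
  have hc : ContDiff ℝ ∞ fun q => dl (ζ q, μ q) / dl (ζ q, τ q) :=
    (dl_smooth.comp (hζ.prodMk hμ)).div hD fun q => (h1 q).1.ne'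
  have key : ∀ q, μ q = TT ((μ q).1 - (dl (μ q, τ q) / dl (ζ q, τ q)) • (ζ q).1 -
      (dl (ζ q, μ q) / dl (ζ q, τ q)) • (τ q).1) (ζ q) (τ q) 1
      (dl (μ q, τ q) / dl (ζ q, τ q)) (dl (ζ q, μ q) / dl (ζ q, τ q)) := by
    intro q
    have hD0 := (h1 q).1.ne'
    refine Prod.ext ?_ ?_
    · simp only [TT, Prod.fst_add, Prod.smul_fst, one_mul]
      abel
    · simp only [TT, Prod.snd_add, Prod.smul_snd, zero_add]
      refine Complex.ext ?_ ?_
      · simp only [Complex.add_re, Complex.smul_re, smul_eq_mul]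
        field_simp
        simp only [dl]
        ring
      · simp only [Complex.add_im, Complex.smul_im, smul_eq_mul]
        field_simp
        simp only [dl]
        ring
  refine ⟨fun q => dl (μ q, τ q) / dl (ζ q, τ q), fun q => dl (ζ q, μ q) / dl (ζ q, τ q),
    fun q => (μ q).1 - (dl (μ q, τ q) / dl (ζ q, τ q)) • (ζ q).1 -
      (dl (ζ q, μ q) / dl (ζ q, τ q)) • (τ q).1, hb.continuous, hc.continuous,
    (hμ.fst.sub (hb.smul hζ.fst)).sub (hc.smul hτ.fst), ?_, ?_, ?_, ?_, key⟩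
  · intro q m
    simp only [pμ q m, pζ q m, pτ q m]
  · intro q m
    simp only [pμ q m, pζ q m, pτ q m]
  · intro q m
    simp only [pμ q m, pζ q m, pτ q m]
  · intro q hq
    have h2 := key q
    simp only at hq
    rw [hq] at h2
    have h3 := (h1 q).2 1 (-(dl (μ q, τ q) / dl (ζ q, τ q))) (-(dl (ζ q, μ q) / dl (ζ q, τ q)))
      (by
        have h4 : ((1 * (0 : ℂ), (0 : ℂ)) : G) = 0 := by simp
        rw [TT, h4, zero_add] at h2
        rw [one_smul, neg_smul, neg_smul]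
        nth_rewrite 1 [h2]
        abel)
    exact one_ne_zero h3.1

/-- The base point and the fibre displacement. -/
noncomputable def Lam (f E : Q → G) (u : Q → ℂ) (x : Y) : G × G :=
  (f x.1 + x.2.1 • E x.1, (x.2.2 * u x.1, 0))

lemma Lam_smooth (f E : Q → G) (u : Q → ℂ) (hf : ContDiff ℝ ∞ f) (hE : ContDiff ℝ ∞ E)
    (hu : ContDiff ℝ ∞ u) : ContDiff ℝ ∞ (Lam f E u) := by
  unfold Lam
  exact ((hf.comp contDiff_fst).add ((contDiff_fst.comp contDiff_snd).smul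
    (hE.comp contDiff_fst))).prodMk
    (((contDiff_snd.comp contDiff_snd).mul (hu.comp contDiff_fst)).prodMk contDiff_const)

lemma Lam_fderiv (f E : Q → G) (u : Q → ℂ) (hf : ContDiff ℝ ∞ f) (hE : ContDiff ℝ ∞ E)
    (hu : ContDiff ℝ ∞ u) (q dq : Q) (h dh : ℝ) (g dg : ℂ) :
    fderiv ℝ (Lam f E u) (q, (h, g)) (dq, (dh, dg)) =
      (fderiv ℝ f q dq + (h • fderiv ℝ E q dq + dh • E q),
        (g * fderiv ℝ u q dq + dg * u q, 0)) := by
  have h1 : HasFDerivAt (fun x : Y => x.1) (ContinuousLinearMap.fst ℝ Q (ℝ × ℂ)) (q, (h, g)) :=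
    hasFDerivAt_fst
  have h2 : HasFDerivAt (fun x : Y => x.2) (ContinuousLinearMap.snd ℝ Q (ℝ × ℂ)) (q, (h, g)) :=
    hasFDerivAt_snd
  have hf' := ((hf.differentiable (by simp) q).hasFDerivAt).comp (q, (h, g)) h1
  have hE' := ((hE.differentiable (by simp) q).hasFDerivAt).comp (q, (h, g)) h1
  have hu' := ((hu.differentiable (by simp) q).hasFDerivAt).comp (q, (h, g)) h1
  have h3 := (hf'.add (h2.fst.smul hE')).prodMk
    ((h2.snd.mul hu').prodMk (hasFDerivAt_const (0 : ℂ) ((q, (h, g)) : Y)))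
  have h4 : fderiv ℝ (Lam f E u) (q, (h, g)) = _ := h3.fderiv
  rw [h4]
  simp [mul_comm]

/-- The graph of the profile. -/
def Gr (σ h : ℝ → ℝ) (g : ℝ → ℂ) (q : Q) : Y := ((σ q.1, q.2), (h q.1, g q.1))

lemma Gr_hasFDeriv (σ h : ℝ → ℝ) (g : ℝ → ℂ) (hσ : Differentiable ℝ σ) (hh : Differentiable ℝ h)
    (hg : Differentiable ℝ g) (q : Q) :
    ∃ D : Q →L[ℝ] Y, HasFDerivAt (Gr σ h g) D q ∧
      D (1, 0) = ((deriv σ q.1, 0), (deriv h q.1, deriv g q.1)) ∧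
      D (0, 1) = ((0, 1), (0, 0)) := by
  have h1 : HasFDerivAt (fun x : Q => x.1) (ContinuousLinearMap.fst ℝ ℝ ℝ) q := hasFDerivAt_fst
  have h2 : HasFDerivAt (fun x : Q => x.2) (ContinuousLinearMap.snd ℝ ℝ ℝ) q := hasFDerivAt_snd
  have hσ' := ((hσ q.1).hasDerivAt.hasFDerivAt).comp q h1
  have hh' := ((hh q.1).hasDerivAt.hasFDerivAt).comp q h1
  have hg' := ((hg q.1).hasDerivAt.hasFDerivAt).comp q h1
  refine ⟨_, (hσ'.prodMk h2).prodMk (hh'.prodMk hg'), ?_, ?_⟩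
  · simp
  · simp

lemma dd_Gr (c : Ctx) (Φ : Y → G) (hΦ : ContDiff ℝ ∞ Φ) (σ h : ℝ → ℝ) (g : ℝ → ℂ)
    (hσ : Differentiable ℝ σ) (hh : Differentiable ℝ h) (hg : Differentiable ℝ g) (q : Q) :
    dd c (fun q => Φ (Gr σ h g q)) q =
      (AA c Φ (Gr σ h g q) ((deriv σ q.1, 0), (deriv h q.1, deriv g q.1)),
        AA c Φ (Gr σ h g q) ((0, 1), (0, 0))) := by
  obtain ⟨D, hD, h1, h2⟩ := Gr_hasFDeriv σ h g hσ hh hg q
  have h3 := ((hΦ.differentiable (by simp) (Gr σ h g q)).hasFDerivAt).comp q hD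
  have h4 : fderiv ℝ (fun q => Φ (Gr σ h g q)) q = _ := h3.fderiv
  simp only [dd, AA, h4, ContinuousLinearMap.comp_apply, h1, h2]

lemma per_int {α : Type*} (g : ℝ → α) (hg : ∀ θ, g (θ + 1) = g θ) (θ : ℝ) (n : ℤ) :
    g (θ + n) = g θ := by
  have : Function.Periodic g 1 := hg
  simpa using this.int_mul n θ

lemma per_int' (σ : ℝ → ℝ) (hσ : ∀ θ, σ (θ + 1) = σ θ + 1) (θ : ℝ) (n : ℤ) :
    σ (θ + n) = σ θ + n := by
  have h := per_int (fun x => σ x - x) (fun x => by rw [hσ]; ring) θ n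
  linarith

lemma Gr_per (σ h : ℝ → ℝ) (g : ℝ → ℂ) (hσ : ∀ θ, σ (θ + 1) = σ θ + 1)
    (hh : ∀ θ, h (θ + 1) = h θ) (hg : ∀ θ, g (θ + 1) = g θ) (q : Q) (m : ℤ × ℤ) :
    Gr σ h g (q + lat m) = ((σ q.1, q.2) + lat m, (h q.1, g q.1)) := by
  simp only [Gr, lat, Prod.fst_add, Prod.snd_add, per_int' σ hσ, per_int h hh, per_int g hg,
    Prod.mk_add_mk]

/-- The displacement map with the properties that the operations use. -/
lemma exists_Phi (hP : PsiStmt) (c : Ctx) (f : Q → G) (hf : IsEmb c f) (ζ : Q → G)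
    (hζ : ContDiff ℝ ∞ ζ) (pζ : Per ζ) (u : Q → ℂ) (hu : ContDiff ℝ ∞ u) (pu : Per u) :
    ∃ Φ : Y → G, ContDiff ℝ ∞ Φ ∧ (∀ q m v, Φ (q + lat m, v) = Φ (q, v) + c.i (lat m)) ∧
      (∀ q, Φ (q, 0) = f q) ∧
      (∀ q (ds dt dh : ℝ) (dg : ℂ), AA c Φ (q, 0) ((ds, dt), (dh, dg)) =
        ds • (dd c f q).1 + dt • (dd c f q).2 + dh • ζ q + (dg * u q, 0)) ∧
      ∃ C₂ ρ : ℝ, 0 ≤ C₂ ∧ 0 < ρ ∧ ∀ q (h : ℝ) (g g' : ℂ), |h| ≤ ρ → ‖g‖ ≤ ρ →
        ‖(AA c Φ (q, (h, g)) ((0, 0), (0, g'))).2 -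
          ((‖u q‖ ^ 2 * ((starRingEnd ℂ) g * g').im / 2 : ℝ) : ℂ) * Complex.I‖ ≤
          C₂ * (‖g‖ ^ 2 * ‖g'‖) := by
  obtain ⟨Ψ, C3, hΨ, -, hΨp, -, hΨ0, hMC⟩ := hP c
  set E : Q → G := fun q => c.e (f q) (ζ q) with hE
  have hEs : ContDiff ℝ ∞ E := (c.e_smooth.comp hf.smooth).clm_apply hζ
  have hEp : Per E := by
    intro q m
    simp only [hE, hf.equi, c.e_per, pζ q m]
  have hΛ := Lam_smooth f E u hf.smooth hEs hu
  have hAA : ∀ (x y : Y), AA c (fun x => Ψ (Lam f E u x)) x y =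
      AA c Ψ (Lam f E u x) (fderiv ℝ (Lam f E u) x y) := by
    intro x y
    have h3 := ((hΨ.differentiable (by simp) (Lam f E u x)).hasFDerivAt).comp x
      (hΛ.differentiable (by simp) x).hasFDerivAt
    have h4 : fderiv ℝ (fun x => Ψ (Lam f E u x)) x = _ := h3.fderiv
    simp only [AA, h4, ContinuousLinearMap.comp_apply]
  obtain ⟨B₁, hB₁, hB₁'⟩ := per_bound (fun q => f q - c.i q)
    (hf.smooth.continuous.sub c.i.continuous) (by
      intro q m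
      simp only [hf.equi, map_add]
      abel)
  obtain ⟨B₂, hB₂, hB₂'⟩ := per_bound E hEs.continuous hEp
  obtain ⟨U, hU, hU'⟩ := per_bound u hu.continuous pu
  obtain ⟨C, hC0, hC⟩ := hMC (B₁ + B₂)
  have hnear : ∀ q (h : ℝ), |h| ≤ 1 → ∃ q', ‖f q + h • E q - c.i q'‖ ≤ B₁ + B₂ := by
    intro q h hh
    refine ⟨q, ?_⟩
    have e1 : f q + h • E q - c.i q = (f q - c.i q) + h • E q := by abel
    have e2 : ‖h • E q‖ ≤ B₂ := by
      rw [norm_smul, Real.norm_eq_abs]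
      calc |h| * ‖E q‖ ≤ 1 * B₂ := mul_le_mul hh (hB₂' q) (norm_nonneg _) zero_le_one
        _ = B₂ := one_mul _
    rw [e1]
    exact (norm_add_le _ _).trans (add_le_add (hB₁' q) e2)
  refine ⟨fun x => Ψ (Lam f E u x), hΨ.comp hΛ, ?_, ?_, ?_, C * U ^ 3, min 1 U⁻¹,
    by positivity, by positivity, ?_⟩
  · intro q m v
    simp only [Lam, hf.equi, hEp q m, pu q m]
    rw [← hΨp]
    congr 2
    abel
  · intro q
    simp only [Lam, Prod.fst_zero, Prod.snd_zero, zero_smul, add_zero, zero_mul]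
    exact hΨ0 _
  · intro q ds dt dh dg
    have e0 : ((q, 0) : Y) = (q, (0, 0)) := rfl
    rw [hAA, e0, Lam_fderiv f E u hf.smooth hEs hu]
    have e1 : Lam f E u (q, (0, 0)) = (f q, 0) := by
      simp [Lam]
    have e2 : fderiv ℝ f q (ds, dt) + ((0 : ℝ) • fderiv ℝ E q (ds, dt) + dh • E q) =
        c.e (f q) (ds • (dd c f q).1 + dt • (dd c f q).2 + dh • ζ q) := by
      have e3 : ((ds, dt) : Q) = ds • ((1, 0) : Q) + dt • ((0, 1) : Q) := by simp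
      rw [zero_smul, zero_add, e3]
      simp only [dd, map_add, map_smul, c.e_om, hE]
    rw [e1, e2]
    obtain ⟨-, h2⟩ := hC (f q) (by simpa using hnear q 0 (by simp))
    have h3 := (h2 0 (by simp)).1 (ds • (dd c f q).1 + dt • (dd c f q).2 + dh • ζ q)
      ((0 * fderiv ℝ u q (ds, dt) + dg * u q, 0) : G)
    rw [br_zero, br_zero, norm_zero] at h3
    have h4 := norm_le_zero_iff.1 (h3.trans (by simp))
    rw [sub_eq_zero] at h4
    rw [h4]
    simp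
  · intro q h g g' hh hg
    have hh1 : |h| ≤ 1 := hh.trans (min_le_left _ _)
    have hg1 : ‖g‖ ≤ U⁻¹ := hg.trans (min_le_right _ _)
    have e0 : (((0, 0), (0, g')) : Y) = ((0 : Q), ((0 : ℝ), g')) := rfl
    rw [hAA, e0, Lam_fderiv f E u hf.smooth hEs hu]
    have e1 : Lam f E u (q, (h, g)) = (f q + h • E q, (g * u q, 0)) := rfl
    rw [e1]
    obtain ⟨-, h2⟩ := hC (f q + h • E q) (hnear q h hh1)
    have n1 : ‖((g * u q, 0) : G)‖ ≤ ‖g‖ * U := by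
      simp only [Prod.norm_def, norm_zero, norm_mul]
      exact max_le (mul_le_mul_of_nonneg_left (hU' q) (norm_nonneg _)) (by positivity)
    have n2 : ‖((g' * u q, 0) : G)‖ ≤ ‖g'‖ * U := by
      simp only [Prod.norm_def, norm_zero, norm_mul]
      exact max_le (mul_le_mul_of_nonneg_left (hU' q) (norm_nonneg _)) (by positivity)
    have n3 : ‖((g * u q, 0) : G)‖ ≤ 1 := by
      refine n1.trans ?_
      calc ‖g‖ * U ≤ U⁻¹ * U := mul_le_mul_of_nonneg_right hg1 hU.le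
        _ = 1 := inv_mul_cancel₀ hU.ne'
    have h3 := (h2 _ n3).1 0 ((g' * u q, 0) : G)
    rw [br_zero', map_zero] at h3
    simp only [map_zero, smul_zero, zero_smul, add_zero, mul_zero, zero_add]
    have h4 := (norm_snd_le _).trans h3
    simp only [Prod.snd_sub, Prod.snd_add, Prod.smul_snd, br_DD, zero_add,
      norm_zero] at h4
    have e2 : ((‖u q‖ ^ 2 * ((starRingEnd ℂ) g * g').im / 2 : ℝ) : ℂ) * Complex.I =
        (1 / 2 : ℝ) • (((((starRingEnd ℂ) (g * u q) * (g' * u q)).im : ℝ) : ℂ) * Complex.I) := by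
      have e3 : ((starRingEnd ℂ) (g * u q) * (g' * u q)).im =
          ‖u q‖ ^ 2 * ((starRingEnd ℂ) g * g').im := by
        rw [Complex.sq_norm, Complex.normSq_apply]
        simp
        ring
      rw [e3, Complex.real_smul]
      push_cast
      ring
    rw [e2]
    refine h4.trans ?_
    calc C * ‖((g * u q, 0) : G)‖ ^ 2 * ‖((g' * u q, 0) : G)‖
        ≤ C * (‖g‖ * U) ^ 2 * (‖g'‖ * U) := by gcongr
      _ = C * U ^ 3 * (‖g‖ ^ 2 * ‖g'‖) := by ring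

end Bead

end Pool.Agent.Lib.MP_72f1d0_gt
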