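import Mathlib
import Pool.Agent.Lib.MP_72f1d0_gt.BeadC

/-!
The bead and tilt operations.
-/

open scoped ContDiff

namespace Pool.Agent.Lib.MP_72f1d0_gt

namespace Bead

lemma err_nonneg (σ h : ℝ → ℝ) (g : ℝ → ℂ) (θ : ℝ) (hσ : 0 < deriv σ θ) : 0 ≤ err σ h g θ := by
  unfold err
  positivity

/-- The common analytic statement. -/
lemma common (hM : MLStmt) (hP : PsiStmt) (c : Ctx) (f : Q → G) (hf : IsEmb c f) (ζ : Q → G)
    (hζ : ContDiff ℝ ∞ ζ) (pζ : Per ζ)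
    (h1 : ∀ q, 0 < dl (ζ q, (dd c f q).2) ∧ Ind3 (dd c f q).1 (ζ q) (dd c f q).2) :
    ∃ b s : Q → ℝ, Continuous b ∧ Continuous s ∧ Per b ∧ Per s ∧ (∀ q, 0 < s q) ∧
      (∀ q, dl (dd c f q) = b q * dl (ζ q, (dd c f q).2)) ∧
      ∀ H Ca ε : ℝ, (∀ q, |b q| ≤ H) → 0 < Ca → 0 < ε → ∃ C ρ : ℝ, 0 < C ∧ 0 < ρ ∧
        ∀ (σ h : ℝ → ℝ → ℝ) (g : ℝ → ℝ → ℂ), AdmFam H Ca ρ σ h g →
        ∃ (F : Q → G) (J : Iso c f F) (p : ℝ × Q → G),
          Continuous p ∧ (∀ l, Per fun q => p (l, q)) ∧ (∀ q, p (0, q) = ζ q) ∧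
          (∀ l q, 0 < dl (p (l, q), (dd c (J.H l) q).2) ∧
            ‖(dd c (J.H l) q).2 - (dd c f (σ l q.1, q.2)).2‖ ≤ ε ∧
            SegInj (dd c (J.H l) q) (p (l, q), (dd c (J.H l) q).2)) ∧
          ∀ q, C * err (σ 1) (h 1) (g 1) q.1 < deriv (σ 1) q.1 * b (σ 1 q.1, q.2) +
            deriv (h 1) q.1 + s (σ 1 q.1, q.2) * al (dd c f (σ 1 q.1, q.2)).2 * area (g 1) q.1 →
            0 < dl (dd c F q) := by
  have hdd := dd_smooth c f hf.smooth
  have pdd := dd_per c f hf.equi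
  set μ : Q → G := fun q => (dd c f q).1 with hμ
  set τ : Q → G := fun q => (dd c f q).2 with hτ
  have hμs : ContDiff ℝ ∞ μ := hdd.fst
  have hτs : ContDiff ℝ ∞ τ := hdd.snd
  have pμ : Per μ := fun q m => by simp only [hμ, pdd q m]
  have pτ : Per τ := fun q m => by simp only [hτ, pdd q m]
  obtain ⟨b, c₀, u, hb, hc₀, hu, pb, pc₀, pu, hu0, hdec⟩ :=
    decomp μ ζ τ hμs hζ hτs pμ pζ pτ h1
  have hDc : Continuous fun q => dl (ζ q, τ q) :=
    dl_cont.comp (hζ.continuous.prodMk hτs.continuous)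
  have pD : Per fun q => dl (ζ q, τ q) := fun q m => by simp only [pζ q m, pτ q m]
  have hD0 : ∀ q, 0 < dl (ζ q, τ q) := fun q => (h1 q).1
  have hbD : ∀ q, dl (μ q, τ q) = b q * dl (ζ q, τ q) := by
    intro q
    nth_rewrite 1 [hdec q]
    simp [TT, dl]
    ring
  refine ⟨b, fun q => ‖u q‖ ^ 2 / (2 * dl (ζ q, τ q)), hb,
    (hu.continuous.norm.pow 2).div (continuous_const.mul hDc)
      (fun q => (mul_pos two_pos (hD0 q)).ne'), pb, fun q m => by
        simp only [pu q m, pζ q m, pτ q m], fun q => by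
        have := hD0 q
        have := norm_pos_iff.2 (hu0 q)
        positivity, hbD, ?_⟩
  intro H Ca ε hH hCa hε
  obtain ⟨Φ, hΦ, pΦ, hΦ0, hL₀, C₂, ρ₂, hC₂, hρ₂, hfib⟩ :=
    exists_Phi hP c f hf ζ hζ pζ u hu pu
  have hL₀' : ∀ q (ds dt dh : ℝ) (dg : ℂ), AA c Φ (q, 0) ((ds, dt), (dh, dg)) =
      TT (u q) (ζ q) (τ q) (ds + dg) (ds * b q + dh) (ds * c₀ q + dt) := by
    intro q ds dt dh dg
    rw [hL₀]
    change ds • μ q + dt • τ q + dh • ζ q + (dg * u q, 0) = _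
    rw [hdec q]
    refine Prod.ext ?_ ?_
    · simp only [TT, Prod.fst_add, Prod.smul_fst, Complex.real_smul]
      push_cast
      ring
    · simp only [TT, Prod.snd_add, Prod.smul_snd, Complex.real_smul]
      push_cast
      ring
  obtain ⟨m, hm0, hm⟩ := TT_lower u ζ τ hu.continuous hζ.continuous hτs.continuous pu pζ pτ hu0
    fun q => (hD0 q).ne'
  obtain ⟨Cc, hCc0, hCc⟩ := per_bound c₀ hc₀ pc₀
  obtain ⟨C₁, hC₁, hlip⟩ := per_lip (AA c Φ) (AA_smooth c Φ hΦ) (AA_per c Φ pΦ)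
  obtain ⟨M₁, hM₁, hM₁'⟩ := per_bound μ hμs.continuous pμ
  obtain ⟨M₂, hM₂, hM₂'⟩ := per_bound ζ hζ.continuous pζ
  obtain ⟨M₃, hM₃, hM₃'⟩ := per_bound τ hτs.continuous pτ
  obtain ⟨M₄, hM₄, hM₄'⟩ := per_bound u hu.continuous pu
  obtain ⟨mD, hmD, hmD'⟩ := per_pos _ hDc pD Set.univ isClosed_univ (fun _ _ _ => trivial)
    fun q _ => hD0 q
  have hH0 : 0 ≤ H := (abs_nonneg _).trans (hH 0)
  set K := 4 + 5 * Ca + 2 * Cc + 2 * H with hK
  have hK0 : 0 < K := by positivity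
  set κ := min (min (m / (2 * K)) ε) (mD / (2 * M₂)) with hκ
  have hκ0 : 0 < κ := by positivity
  have hκ1 : κ * K < m := by
    have e1 : κ ≤ m / (2 * K) := (min_le_left _ _).trans (min_le_left _ _)
    calc κ * K ≤ m / (2 * K) * K := mul_le_mul_of_nonneg_right e1 hK0.le
      _ = m / 2 := by field_simp
      _ < m := by linarith
  have hκ2 : κ ≤ ε := (min_le_left _ _).trans (min_le_right _ _)
  have hκ3 : M₂ * κ < mD := by
    have e1 : κ ≤ mD / (2 * M₂) := min_le_right _ _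
    calc M₂ * κ ≤ M₂ * (mD / (2 * M₂)) := mul_le_mul_of_nonneg_left e1 hM₂.le
      _ = mD / 2 := by field_simp
      _ < mD := by linarith
  obtain ⟨ρ₁, hρ₁, hML1, hML2⟩ := hM c f hf (ℝ × ℂ) Φ hΦ pΦ hΦ0 κ hκ0
  set M := M₁ + M₂ + M₃ + M₄ ^ 2 with hMdef
  set C := (M + 2 * C₁) * (C₁ + C₂) + M * C₁ with hC
  have hC0 : 0 < C := by positivity
  refine ⟨C / mD, min 1 (min ρ₁ ρ₂), by positivity, by positivity, ?_⟩
  intro σ h g hA
  have dσ : ∀ l, ContDiff ℝ ∞ (σ l) := fun l =>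
    hA.sσ.comp (contDiff_const.prodMk contDiff_id)
  have dh : ∀ l, ContDiff ℝ ∞ (h l) := fun l =>
    hA.sh.comp (contDiff_const.prodMk contDiff_id)
  have dg : ∀ l, ContDiff ℝ ∞ (g l) := fun l =>
    hA.sg.comp (contDiff_const.prodMk contDiff_id)
  have hv : ∀ l θ, ‖((h l θ, g l θ) : ℝ × ℂ)‖ ≤ min 1 (min ρ₁ ρ₂) := by
    intro l θ
    rw [Prod.norm_def]
    exact max_le ((hA.adm l).small θ).1 ((hA.adm l).small θ).2
  have hv1 : ∀ l θ, ‖((h l θ, g l θ) : ℝ × ℂ)‖ ≤ ρ₁ := fun l θ =>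
    (hv l θ).trans ((min_le_right _ _).trans (min_le_left _ _))
  have hddH : ∀ l q, dd c (fun q => Φ (Gr (σ l) (h l) (g l) q)) q =
      (AA c Φ (Gr (σ l) (h l) (g l) q)
        ((deriv (σ l) q.1, 0), (deriv (h l) q.1, deriv (g l) q.1)),
        AA c Φ (Gr (σ l) (h l) (g l) q) ((0, 1), (0, 0))) := fun l q =>
    dd_Gr c Φ hΦ _ _ _ ((dσ l).differentiable (by simp)) ((dh l).differentiable (by simp))
      ((dg l).differentiable (by simp)) q
  have hseg : ∀ l q, SegInj (dd c (fun q => Φ (Gr (σ l) (h l) (g l) q)) q)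
      (ζ (σ l q.1, q.2), (dd c (fun q => Φ (Gr (σ l) (h l) (g l) q)) q).2) := by
    intro l q
    rw [hddH]
    exact seg_pt _ _ _ _ _ m H Cc Ca κ _ _ (hL₀' (σ l q.1, q.2)) (hm _) (hH _) (hCc _) hCa.le
      (hML1 _ _ (hv1 l q.1)) hκ1 _ _ _ ((hA.adm l).pos _) ((hA.adm l).speed _)
      ((hA.adm l).slope _)
  have hτ0 : ∀ q, AA c Φ (q, 0) ((0, 1), (0, 0)) = τ q := by
    intro q
    rw [hL₀]
    simp [hτ]
  have hτl : ∀ l q, ‖(dd c (fun q => Φ (Gr (σ l) (h l) (g l) q)) q).2 - τ (σ l q.1, q.2)‖ ≤ κ := by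
    intro l q
    rw [hddH, ← hτ0, ← sub_apply]
    have e2 : ‖(((0, 1), (0, 0)) : Y)‖ ≤ 1 := norm_Y_le _ _ _ _ _ (by simp) (by simp) (by simp)
      (by simp)
    refine (ContinuousLinearMap.le_opNorm _ _).trans ?_
    calc _ ≤ κ * 1 := mul_le_mul (hML1 _ _ (hv1 l q.1)) e2 (norm_nonneg _) hκ0.le
      _ = κ := mul_one _
  have hsm : ContDiff ℝ ∞ fun x : ℝ × Q => Φ (Gr (σ x.1) (h x.1) (g x.1) x.2) := by
    have e1 : ContDiff ℝ ∞ fun x : ℝ × Q => ((x.1, x.2.1) : ℝ × ℝ) :=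
      contDiff_fst.prodMk contDiff_snd.fst
    exact hΦ.comp (((hA.sσ.comp e1).prodMk contDiff_snd.snd).prodMk
      ((hA.sh.comp e1).prodMk (hA.sg.comp e1)))
  have hinj : ∀ l, Function.Injective fun q => Φ (Gr (σ l) (h l) (g l) q) := by
    intro l
    have hmono : StrictMono (σ l) := strictMono_of_deriv_pos (hA.adm l).pos
    have key : ∀ q q' : Q, q.1 ≤ q'.1 → Φ (Gr (σ l) (h l) (g l) q) =
        Φ (Gr (σ l) (h l) (g l) q') → q = q' := by
      intro q q' hle heq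
      have e1 := hML2 _ _ _ _ (hv1 l q.1) (hv1 l q'.1) heq
      have e2 := inj_pt _ _ _ _ _ m H Cc Ca κ _ (hL₀' (σ l q.1, q.2)) (hm _) (hH _) (hCc _)
        hCa.le hκ0.le hκ1 (σ l q'.1 - σ l q.1) (q'.2 - q.2) (h l q'.1 - h l q.1)
        (g l q'.1 - g l q.1) (sub_nonneg.2 (hmono.monotone hle)) (by
          rcases hle.eq_or_lt with h0 | h0
          · left
            rw [h0]
            simp
          · simpa using (hA.adm l).pairs _ _ h0) e1
      exact Prod.ext (hmono.injective (sub_eq_zero.1 e2.1).symm) (sub_eq_zero.1 e2.2).symm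
    intro q q' heq
    rcases le_total q.1 q'.1 with h0 | h0
    · exact key q q' h0 heq
    · exact (key q' q h0 heq.symm).symm
  have hemb : ∀ l, IsEmb c fun q => Φ (Gr (σ l) (h l) (g l) q) := by
    intro l
    refine ⟨hsm.comp (contDiff_const.prodMk contDiff_id), ?_, hinj l, ?_⟩
    · intro q n
      rw [Gr_per _ _ _ (hA.adm l).perσ (hA.adm l).perh (hA.adm l).perg, pΦ]
      rfl
    · intro q
      simpa using hseg l q 0 le_rfl zero_le_one
  refine ⟨fun q => Φ (Gr (σ 1) (h 1) (g 1) q),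
    ⟨fun l q => Φ (Gr (σ l) (h l) (g l) q), hsm, hemb, ?_, rfl⟩,
    fun x => ζ (σ x.1 x.2.1, x.2.2), ?_, ?_, ?_, ?_, ?_⟩
  · funext q
    simp only [Gr, hA.σ0, hA.h0, hA.g0]
    exact hΦ0 q
  · have e1 : Continuous fun x : ℝ × Q => ((x.1, x.2.1) : ℝ × ℝ) := by fun_prop
    exact hζ.continuous.comp ((hA.sσ.continuous.comp e1).prodMk continuous_snd.snd)
  · intro l q n
    have e1 : ((σ l (q + lat n).1, (q + lat n).2) : Q) = (σ l q.1, q.2) + lat n := by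
      simp only [lat, Prod.fst_add, Prod.snd_add, per_int' _ (hA.adm l).perσ, Prod.mk_add_mk]
    simp only [e1, pζ _ n]
  · intro q
    simp only [hA.σ0]
  · intro l q
    refine ⟨?_, (hτl l q).trans hκ2, hseg l q⟩
    set τl := (dd c (fun q => Φ (Gr (σ l) (h l) (g l) q)) q).2 with hτl'
    have e1 : τl = τ (σ l q.1, q.2) + (τl - τ (σ l q.1, q.2)) := by abel
    have e2 := (abs_le.1 ((dl_le (ζ (σ l q.1, q.2)) (τl - τ (σ l q.1, q.2))).trans
      (mul_le_mul (hM₂' _) (hτl l q) (norm_nonneg _) hM₂.le))).1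
    have e3 := hmD' (σ l q.1, q.2) trivial
    change 0 < dl (ζ (σ l q.1, q.2), τl)
    rw [e1, dl_add_right]
    linarith
  · intro q hq
    rw [hddH]
    set q' : Q := (σ 1 q.1, q.2) with hq'
    have hs := (hA.adm 1).pos q.1
    have hsm1 := (hA.adm 1).small q.1
    have hle1 : min 1 (min ρ₁ ρ₂) ≤ 1 := min_le_left _ _
    have hle2 : min 1 (min ρ₁ ρ₂) ≤ ρ₂ := (min_le_right _ _).trans (min_le_right _ _)
    have hn : ‖((h 1 q.1, g 1 q.1) : ℝ × ℂ)‖ ≤ |h 1 q.1| + ‖g 1 q.1‖ := by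
      rw [Prod.norm_def]
      exact max_le (le_add_of_nonneg_right (norm_nonneg _))
        (le_add_of_nonneg_left (abs_nonneg _))
    have hM4 : 0 ≤ M₄ ^ 2 := by positivity
    have est := dl_pt (μ q') (ζ q') (τ q') (‖u q'‖ ^ 2) (area (g 1) q.1) (b q')
      (|h 1 q.1| + ‖g 1 q.1‖) (‖g 1 q.1‖ ^ 2 * ‖deriv (g 1) q.1‖) C₁ C₂ M
      (AA c Φ (q', 0)) (AA c Φ (Gr (σ 1) (h 1) (g 1) q)) (deriv (σ 1) q.1) (deriv (h 1) q.1)
      (deriv (g 1) q.1) hs (hbD q') (by rw [hL₀]; simp [hμ]) (hτ0 q')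
      ((hlip q' _ ((hv 1 q.1).trans hle1)).trans (mul_le_mul_of_nonneg_left hn hC₁.le))
      (by positivity) (by linarith [hsm1.1, hsm1.2]) hC₁.le hC₂ (by positivity)
      (hfib q' _ _ _ (hsm1.1.trans hle2) (hsm1.2.trans hle2))
      (by linarith [hM₁' q']) (by linarith [hM₂' q']) (by linarith [hM₃' q'])
      (by positivity) (by
        have := pow_le_pow_left₀ (norm_nonneg _) (hM₄' q') 2
        linarith)
    refine lt_of_lt_of_le ?_ est
    have herr := err_nonneg (σ 1) (h 1) (g 1) q.1 hs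
    have hD := hD0 q'
    have e1 := mul_lt_mul_of_pos_left hq hD
    have e2 : dl (ζ q', τ q') * (deriv (σ 1) q.1 * b q' + deriv (h 1) q.1 +
        ‖u q'‖ ^ 2 / (2 * dl (ζ q', τ q')) * al (τ q') * area (g 1) q.1) =
        dl (ζ q', τ q') * (deriv (σ 1) q.1 * b q' + deriv (h 1) q.1) +
          ‖u q'‖ ^ 2 * al (τ q') / 2 * area (g 1) q.1 := by
      field_simp
    have e3 : C * err (σ 1) (h 1) (g 1) q.1 ≤
        dl (ζ q', τ q') * (C / mD * err (σ 1) (h 1) (g 1) q.1) := by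
      calc C * err (σ 1) (h 1) (g 1) q.1 = mD * (C / mD * err (σ 1) (h 1) (g 1) q.1) := by
            field_simp
        _ ≤ _ := mul_le_mul_of_nonneg_right (hmD' q' trivial) (by positivity)
    have e4 := (e3.trans_lt e1).trans_eq e2
    unfold err at e4
    linarith

lemma cc_per (r : ℕ) : Per fun q : Q => cc r q.1 := by
  intro q m
  simp only [cc, lat, Prod.fst_add]
  have e : 2 * Real.pi * r * (q.1 + m.1) = 2 * Real.pi * r * q.1 + ((r * m.1 : ℤ) : ℝ) *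
      (2 * Real.pi) := by
    push_cast
    ring
  rw [e, Real.cos_add_int_mul_two_pi]

lemma cc_cont (r : ℕ) : Continuous fun q : Q => cc r q.1 := by
  unfold cc
  fun_prop

lemma al_cont : Continuous al := by
  unfold al
  fun_prop

end Bead

open Bead in
theorem bead (hM : MLStmt) (hP : PsiStmt) (hB : BeadProfileStmt) : BeadStmt := by
  intro c f hf r hr ζ hζ pζ h1 h2
  obtain ⟨b, s, hb, hs, pb, ps, hs0, hbD, hmain⟩ := common hM hP c f hf ζ hζ pζ h1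
  have hdd := (dd_smooth c f hf.smooth).continuous
  have pdd := dd_per c f hf.equi
  set κ : Q → ℝ := fun q => s q * al (dd c f q).2 with hκ
  have hκc : Continuous κ := hs.mul (al_cont.comp hdd.snd)
  have pκ : Per κ := fun q m => by simp only [hκ, ps q m, pdd q m]
  obtain ⟨H, hH0, hH⟩ := per_bound b hb pb
  obtain ⟨κ₁, hκ₁0, hκ₁⟩ := per_bound κ hκc pκ
  obtain ⟨m₁, hm₁0, hm₁⟩ := per_pos κ hκc pκ {q | 1 / 10 ≤ cc r q.1}
    (isClosed_le continuous_const (cc_cont r))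
    (fun q m hq => by
      have := cc_per r q m
      simp only [Set.mem_ofPred_eq] at this hq ⊢
      rwa [this])
    fun q hq => mul_pos (hs0 q) ((h2 q).1 hq)
  obtain ⟨m₂, hm₂0, hm₂⟩ := per_pos (fun q => -κ q) hκc.neg (fun q m => by simp only [pκ q m])
    {q | cc r q.1 ≤ -(1 / 10)} (isClosed_le (cc_cont r) continuous_const)
    (fun q m hq => by
      have := cc_per r q m
      simp only [Set.mem_ofPred_eq] at this hq ⊢
      rwa [this])
    fun q hq => neg_pos.2 (mul_neg_of_pos_of_neg (hs0 q) ((h2 q).2.1 hq))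
  obtain ⟨b₀, hb₀0, hb₀⟩ := per_pos b hb pb {q | |cc r q.1| ≤ 3 / 10}
    (isClosed_le (cc_cont r).abs continuous_const)
    (fun q m hq => by
      have := cc_per r q m
      simp only [Set.mem_ofPred_eq] at this hq ⊢
      rwa [this])
    fun q hq => by
      have e1 := (h2 q).2.2 hq
      rw [hbD] at e1
      exact (mul_pos_iff_of_pos_right (h1 q).1).1 e1
  obtain ⟨Ca, hCa, hprof⟩ := hB r hr H (min m₁ m₂) κ₁ b₀ hH0 (lt_min hm₁0 hm₂0) hκ₁0 hb₀0
  obtain ⟨C, ρ, hC, hρ, hiso⟩ := hmain H Ca 1 hH hCa one_pos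
  obtain ⟨σ, h, g, hA, hfin⟩ := hprof C ρ hC hρ
  obtain ⟨F, J, p, hp1, hp2, hp3, hp4, hp5⟩ := hiso σ h g hA
  refine ⟨F, J, p, hp1, hp2, hp3, fun l q => ⟨(hp4 l q).1, (hp4 l q).2.2⟩, fun q => hp5 q ?_⟩
  refine hfin q.1 (b (σ 1 q.1, q.2)) (κ (σ 1 q.1, q.2)) (hH _) (hκ₁ _) (fun hq => ?_)
    (fun hq => ?_) fun hq => hb₀ (σ 1 q.1, q.2) hq
  · exact (min_le_left _ _).trans (hm₁ (σ 1 q.1, q.2) hq)
  · have := hm₂ (σ 1 q.1, q.2) hq
    have := min_le_right m₁ m₂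
    linarith

open Bead in
theorem tilt (hM : MLStmt) (hP : PsiStmt) (hB : TiltProfileStmt) : TiltStmt := by
  intro c f hf r hr ζ hζ pζ h1 h2
  obtain ⟨b, s, hb, -, pb, -, -, -, hmain⟩ := common hM hP c f hf ζ hζ pζ h1
  have hdd := (dd_smooth c f hf.smooth).continuous
  have pdd := dd_per c f hf.equi
  obtain ⟨H, hH0, hH⟩ := per_bound b hb pb
  obtain ⟨m, hm0, hm⟩ := per_pos (fun q => al (dd c f q).2) (al_cont.comp hdd.snd)
    (fun q m => by simp only [pdd q m]) Set.univ isClosed_univ (fun _ _ _ => trivial)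
    fun q _ => h2 q
  obtain ⟨Ca, hCa, hprof⟩ := hB r hr H hH0
  obtain ⟨C, ρ, hC, hρ, hiso⟩ := hmain H Ca (m / 2) hH hCa (by positivity)
  obtain ⟨σ, h, hA, hfin⟩ := hprof C ρ hC hρ
  obtain ⟨F, J, p, hp1, hp2, hp3, hp4, hp5⟩ := hiso σ h (fun _ _ => 0) hA
  refine ⟨F, J, p, hp1, hp2, hp3, fun l q => ⟨(hp4 l q).1, ?_, (hp4 l q).2.2⟩,
    fun q hq => hp5 q ?_⟩
  · have e1 := (hp4 l q).2.1
    have e2 := hm (σ l q.1, q.2) trivial
    have e3 := (abs_le.1 ((Complex.abs_re_le_norm _).trans ((norm_snd_le _).trans e1))).1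
    simp only [Prod.snd_sub, Complex.sub_re] at e3
    simp only [al] at e2 ⊢
    linarith
  · have e1 := hfin q.1 (b (σ 1 q.1, q.2)) (hH _) hq
    simpa [area] using e1

end Pool.Agent.Lib.MP_72f1d0_gt
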