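import Mathlib
import Pool.Agent.Lib.MP_72f1d0_gt.Defs

/-!
Smooth staircases interpolating a sequence indexed by the integers, and small calculus lemmas.
-/

open scoped ContDiff Topology

namespace Pool.Agent.Lib.MP_72f1d0_gt
namespace BeadP

/-- The smooth step. -/
noncomputable abbrev st : ℝ → ℝ := Real.smoothTransition

theorem st_smooth : ContDiff ℝ ∞ st := Real.smoothTransition.contDiff

theorem st_hasDeriv (y : ℝ) : HasDerivAt st (deriv st y) y :=
  ((st_smooth.differentiable (by simp)) y).hasDerivAt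

theorem st_d_nonneg (y : ℝ) : 0 ≤ deriv st y := Real.smoothTransition.monotone.deriv_nonneg

theorem st_zero {y : ℝ} (h : y ≤ 0) : st y = 0 := Real.smoothTransition.zero_of_nonpos h

theorem st_one {y : ℝ} (h : 1 ≤ y) : st y = 1 := Real.smoothTransition.one_of_one_le h

theorem st_nonneg (y : ℝ) : 0 ≤ st y := Real.smoothTransition.nonneg y

theorem st_le_one (y : ℝ) : st y ≤ 1 := Real.smoothTransition.le_one y

theorem st_d_left {y : ℝ} (h : y ≤ 0) : deriv st y = 0 := by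
  apply IsLocalMin.deriv_eq_zero
  refine Filter.Eventually.of_forall fun z => ?_
  show st y ≤ st z
  rw [st_zero h]; exact st_nonneg z

theorem st_d_right {y : ℝ} (h : 1 ≤ y) : deriv st y = 0 := by
  apply IsLocalMax.deriv_eq_zero
  refine Filter.Eventually.of_forall fun z => ?_
  show st z ≤ st y
  rw [st_one h]; exact st_le_one z

theorem st_d_bdd : ∃ L : ℝ, 0 ≤ L ∧ ∀ y, deriv st y ≤ L := by
  have hc : Continuous (deriv st) := st_smooth.continuous_deriv (by simp)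
  obtain ⟨x, -, hx⟩ := (isCompact_Icc (a := (0 : ℝ)) (b := 1)).exists_isMaxOn
    ⟨0, by simp⟩ hc.continuousOn
  refine ⟨deriv st x, st_d_nonneg x, fun y => ?_⟩
  by_cases h0 : y ≤ 0
  · rw [st_d_left h0]; exact st_d_nonneg x
  by_cases h1 : 1 ≤ y
  · rw [st_d_right h1]; exact st_d_nonneg x
  exact hx ⟨by linarith, by linarith⟩

/-- Periodised step. -/
noncomputable def sf (p w x : ℝ) : ℝ := st ((Int.fract x - p) / w)

/-- Periodised bump, the derivative of the step. -/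
noncomputable def bf (p w x : ℝ) : ℝ := deriv st ((Int.fract x - p) / w) / w

/-- The staircase interpolating `N`. -/
noncomputable def stair (N : ℤ → ℝ) (p w x : ℝ) : ℝ :=
  N ⌊x⌋ + (N (⌊x⌋ + 1) - N ⌊x⌋) * sf p w x

theorem sf_nonneg (p w x : ℝ) : 0 ≤ sf p w x := st_nonneg _

theorem sf_le_one (p w x : ℝ) : sf p w x ≤ 1 := st_le_one _

theorem bf_nonneg (p : ℝ) {w : ℝ} (hw : 0 < w) (x : ℝ) : 0 ≤ bf p w x :=
  div_nonneg (st_d_nonneg _) hw.le

theorem sf_left {p w x : ℝ} (hw : 0 < w) (h : Int.fract x ≤ p) : sf p w x = 0 ∧ bf p w x = 0 := by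
  have : (Int.fract x - p) / w ≤ 0 := div_nonpos_of_nonpos_of_nonneg (by linarith) hw.le
  exact ⟨st_zero this, by rw [bf, st_d_left this, zero_div]⟩

theorem sf_right {p w x : ℝ} (hw : 0 < w) (h : p + w ≤ Int.fract x) :
    sf p w x = 1 ∧ bf p w x = 0 := by
  have : 1 ≤ (Int.fract x - p) / w := by rw [le_div_iff₀ hw]; linarith
  exact ⟨st_one this, by rw [bf, st_d_right this, zero_div]⟩

theorem stair_ev (N : ℤ → ℝ) {p w : ℝ} (hp : 0 ≤ p) (hw : 0 < w) (hpw : p + w < 1) (x : ℝ) :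
    stair N p w =ᶠ[𝓝 x]
      fun y => N ⌊x⌋ + (N (⌊x⌋ + 1) - N ⌊x⌋) * st ((y - ⌊x⌋ - p) / w) := by
  have h1 : (⌊x⌋ : ℝ) + (p + w) - 1 < x := by linarith [Int.floor_le x]
  have h2 : x < (⌊x⌋ : ℝ) + 1 := Int.lt_floor_add_one x
  filter_upwards [Ioo_mem_nhds h1 h2] with y hy
  obtain ⟨hy1, hy2⟩ := hy
  by_cases h : (⌊x⌋ : ℝ) ≤ y
  · have hf : ⌊y⌋ = ⌊x⌋ := Int.floor_eq_iff.2 ⟨h, hy2⟩
    simp only [stair, sf, Int.fract, hf]
  · push Not at h
    have hf : ⌊y⌋ = ⌊x⌋ - 1 := Int.floor_eq_iff.2 ⟨by push_cast; linarith, by push_cast; linarith⟩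
    have hs : sf p w y = 1 :=
      (sf_right hw (by rw [Int.fract, hf]; push_cast; linarith)).1
    have hz : st ((y - ⌊x⌋ - p) / w) = 0 :=
      st_zero (div_nonpos_of_nonpos_of_nonneg (by linarith) hw.le)
    simp only [stair, hs, hz, hf, sub_add_cancel]
    ring

theorem stair_smooth (N : ℤ → ℝ) {p w : ℝ} (hp : 0 ≤ p) (hw : 0 < w) (hpw : p + w < 1) :
    ContDiff ℝ ∞ (stair N p w) := by
  rw [contDiff_iff_contDiffAt]
  intro x
  refine ContDiffAt.congr_of_eventuallyEq ?_ (stair_ev N hp hw hpw x)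
  apply ContDiff.contDiffAt
  exact contDiff_const.add (contDiff_const.mul (st_smooth.comp (by fun_prop)))

theorem stair_hasDeriv (N : ℤ → ℝ) {p w : ℝ} (hp : 0 ≤ p) (hw : 0 < w) (hpw : p + w < 1)
    (x : ℝ) : HasDerivAt (stair N p w) ((N (⌊x⌋ + 1) - N ⌊x⌋) * bf p w x) x := by
  refine HasDerivAt.congr_of_eventuallyEq ?_ (stair_ev N hp hw hpw x)
  have h1 : HasDerivAt (fun y : ℝ => (y - ⌊x⌋ - p) / w) (1 / w) x :=
    (((hasDerivAt_id x).sub_const _).sub_const _).div_const w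
  have h2 := ((st_hasDeriv ((x - ⌊x⌋ - p) / w)).comp x h1).const_mul (N (⌊x⌋ + 1) - N ⌊x⌋)
  have h3 := h2.const_add (N ⌊x⌋)
  refine h3.congr_deriv ?_
  simp only [bf, Int.fract]
  ring

theorem exists_prim (T : ℤ → ℤ) (j0 : ℤ) :
    ∃ N : ℤ → ℤ, N j0 = 0 ∧ ∀ j, N (j + 1) = N j + T j := by
  have : ∃ N : ℤ → ℤ, ∀ j, N (j + 1) = N j + T j := by
    refine ⟨fun j => match j with
      | Int.ofNat n => ∑ i ∈ Finset.range n, T i
      | Int.negSucc n => -∑ i ∈ Finset.range (n + 1), T (Int.negSucc i), fun j => ?_⟩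
    rcases j with n | n
    · show ∑ i ∈ Finset.range (n + 1), T i = ∑ i ∈ Finset.range n, T i + T n
      rw [Finset.sum_range_succ]
    · rcases n with _ | n
      · show ∑ i ∈ Finset.range 0, T i =
          -∑ i ∈ Finset.range (0 + 1), T (Int.negSucc i) + T (Int.negSucc 0)
        simp
      · show -∑ i ∈ Finset.range (n + 1), T (Int.negSucc i) =
          -∑ i ∈ Finset.range (n + 1 + 1), T (Int.negSucc i) + T (Int.negSucc (n + 1))
        rw [Finset.sum_range_succ _ (n + 1)]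
        ring
  obtain ⟨N, hN⟩ := this
  exact ⟨fun j => N j - N j0, sub_self _, fun j => by simp only [hN]; ring⟩

theorem const_of_step (D : ℤ → ℤ) (h : ∀ j, D (j + 1) = D j) (j : ℤ) : D j = D 0 := by
  induction j using Int.induction_on with
  | zero => rfl
  | succ i ih => rw [h, ih]
  | pred i ih => rw [← ih, ← h (-(i : ℤ) - 1)]; congr 1; ring

theorem monoOn {f f' : ℝ → ℝ} (hd : ∀ t, HasDerivAt f (f' t) t) {p q : ℝ}
    (h : ∀ t ∈ Set.Icc p q, 0 ≤ f' t) : MonotoneOn f (Set.Icc p q) :=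
  monotoneOn_of_deriv_nonneg (convex_Icc p q)
    (fun t _ => (hd t).continuousAt.continuousWithinAt)
    (fun t _ => (hd t).differentiableAt.differentiableWithinAt)
    fun t ht => by rw [(hd t).deriv]; exact h t (interior_subset ht)

theorem antiOn {f f' : ℝ → ℝ} (hd : ∀ t, HasDerivAt f (f' t) t) {p q : ℝ}
    (h : ∀ t ∈ Set.Icc p q, f' t ≤ 0) : AntitoneOn f (Set.Icc p q) :=
  antitoneOn_of_deriv_nonpos (convex_Icc p q)
    (fun t _ => (hd t).continuousAt.continuousWithinAt)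
    (fun t _ => (hd t).differentiableAt.differentiableWithinAt)
    fun t ht => by rw [(hd t).deriv]; exact h t (interior_subset ht)

theorem mono_of {f f' : ℝ → ℝ} (hd : ∀ t, HasDerivAt f (f' t) t) (h : ∀ t, 0 ≤ f' t) :
    Monotone f :=
  monotone_of_deriv_nonneg (fun t => (hd t).differentiableAt)
    fun t => by rw [(hd t).deriv]; exact h t

/-- The criterion for the pair condition. -/
theorem pairs_of {R Rt D : ℝ → ℝ} (hm : Monotone Rt)
    (hl : ∀ θ, ∃ p q, p ≤ θ ∧ θ ≤ q ∧ Rt p ≤ R θ ∧ R θ ≤ Rt q ∧ AntitoneOn D (Set.Icc p q))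
    {θ θ' : ℝ} (h : θ < θ') : R θ ≤ R θ' ∨ D θ' ≤ D θ := by
  obtain ⟨p, q, h1, h2, -, h4, h5⟩ := hl θ
  obtain ⟨p', q', h1', h2', h3', -, h5'⟩ := hl θ'
  by_cases hq : q ≤ p'
  · exact Or.inl (h4.trans ((hm hq).trans h3'))
  · push Not at hq
    right
    have a1 : D (min q θ') ≤ D θ :=
      h5 ⟨h1, h2⟩ ⟨le_min (h1.trans h2) (h1.trans h.le), min_le_left _ _⟩ (le_min h2 h.le)
    have a2 : D θ' ≤ D (min q θ') :=
      h5' ⟨le_min hq.le h1', (min_le_right _ _).trans h2'⟩ ⟨h1', h2'⟩ (min_le_right _ _)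
    exact a2.trans a1

theorem per_fract {f : ℝ → ℝ} (h : ∀ θ, f (θ + 1) = f θ) (θ : ℝ) : f (Int.fract θ) = f θ := by
  have hp : Function.Periodic f 1 := h
  have := hp.sub_int_mul_eq (x := θ) ⌊θ⌋
  rwa [mul_one] at this

end BeadP
end Pool.Agent.Lib.MP_72f1d0_gt
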