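import Mathlib
import Pool.Agent.Lib.MP_72f1d0_gt.BeadProfileStair

/-!
The building blocks of the bead profile: saw functions, coil phase, zone cutoffs.
-/

open scoped ContDiff Topology

namespace Pool.Agent.Lib.MP_72f1d0_gt
namespace BeadP

/-- The zone function. -/
noncomputable def Cz (s : ℝ) : ℝ := Real.cos (2 * Real.pi * s)

theorem Cz_lip (s t : ℝ) : |Cz s - Cz t| ≤ 7 * |s - t| := by
  have h := Real.abs_cos_sub_cos_le (2 * Real.pi * s) (2 * Real.pi * t)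
  have h2 : |2 * Real.pi * s - 2 * Real.pi * t| = 2 * Real.pi * |s - t| := by
    rw [← mul_sub, abs_mul, abs_of_pos (by positivity)]
  have h3 := Real.pi_lt_d2
  have h4 := abs_nonneg (s - t)
  unfold Cz
  nlinarith

theorem Cz_add_one (s : ℝ) : Cz (s + 1) = Cz s := by
  unfold Cz
  rw [mul_add, mul_one, Real.cos_add_two_pi]

theorem Cz_half (s : ℝ) : Cz (s + 1 / 2) = -Cz s := by
  unfold Cz
  rw [show 2 * Real.pi * (s + 1 / 2) = 2 * Real.pi * s + Real.pi by ring, Real.cos_add_pi]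

theorem Cz_quarter : Cz (1 / 4) = 0 := by
  unfold Cz
  rw [show 2 * Real.pi * (1 / 4) = Real.pi / 2 by ring, Real.cos_pi_div_two]

theorem Cz_smooth : ContDiff ℝ ∞ Cz := by
  unfold Cz
  fun_prop

theorem Cz_hasDeriv (s : ℝ) :
    HasDerivAt Cz (-Real.sin (2 * Real.pi * s) * (2 * Real.pi)) s := by
  have h := (Real.hasDerivAt_cos (2 * Real.pi * s)).comp s
    ((hasDerivAt_id s).const_mul (2 * Real.pi))
  refine HasDerivAt.congr_deriv h ?_
  ring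

/-- The building blocks with their properties. -/
structure Base (M L : ℝ) where
  α : ℝ → ℝ
  a : ℝ → ℝ
  k : ℝ → ℝ
  φ : ℝ → ℝ
  Ph : ℝ → ℝ
  T : ℝ → ℝ
  B : ℝ → ℝ
  β : ℝ → ℝ
  V : ℝ → ℝ
  E : ℝ → ℝ
  V1 : ℝ → ℝ
  E1 : ℝ → ℝ
  sα : ContDiff ℝ ∞ α
  sk : ContDiff ℝ ∞ k
  sPh : ContDiff ℝ ∞ Ph
  sB : ContDiff ℝ ∞ B
  sV : ContDiff ℝ ∞ V
  sE : ContDiff ℝ ∞ E
  pα : ∀ θ, α (θ + 1) = α θ
  pk : ∀ θ, k (θ + 1) = k θ
  pPh : ∀ θ, Ph (θ + 1) = Ph θ
  pB : ∀ θ, B (θ + 1) = B θ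
  pV : ∀ θ, V (θ + 1) = V θ
  pE : ∀ θ, E (θ + 1) = E θ
  dα : ∀ θ, HasDerivAt α (a θ - 1) θ
  dk : ∀ θ, HasDerivAt k (|T θ| * (a θ - φ θ)) θ
  dPh : ∀ θ, HasDerivAt Ph (M * T θ * φ θ) θ
  dB : ∀ θ, HasDerivAt B (β θ - 1) θ
  dV : ∀ θ, HasDerivAt V (V1 θ * a θ) θ
  dE : ∀ θ, HasDerivAt E (E1 θ * a θ) θ
  a0 : ∀ θ, 0 ≤ a θ
  φ0 : ∀ θ, 0 ≤ φ θ
  β0 : ∀ θ, 0 ≤ β θ
  bα : ∀ θ, M * |α θ| ≤ 1
  bk : ∀ θ, M * |k θ| ≤ 1
  bB : ∀ θ, |B θ| ≤ 2
  V0 : ∀ θ, 0 ≤ V θ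
  Vle : ∀ θ, V θ ≤ 1
  EV : ∀ θ, |E θ| = V θ
  bV1 : ∀ θ, |V1 θ| ≤ L
  bE1 : ∀ θ, |E1 θ| ≤ L
  EV1 : ∀ θ, E θ * V1 θ = V θ * E1 θ
  Tc : ∀ θ, T θ = 1 ∨ T θ = 0 ∨ T θ = -1
  zone : ∀ θ s, M * |s - θ| ≤ 1 → (T θ = 0 → |Cz s| ≤ 3 / 10) ∧ (0 < E θ → 1 / 10 ≤ Cz s) ∧
    (E θ < 0 → Cz s ≤ -(1 / 10))
  Tne : ∀ θ, T θ ≠ 0 → V θ = 1 ∧ V1 θ = 0 ∧ E θ = T θ ∧ E1 θ = 0 ∧ β θ = 0
  coil : ∀ θ, (T θ * φ θ = 0 ∧ ∃ z : ℤ, Ph θ = z) ∨
    ∃ p q, p ≤ θ ∧ θ ≤ q ∧ M * |α θ| ≤ 1 / 10 ∧ M * α p = 1 / 4 ∧ M * α q = -(1 / 4) ∧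
      ∀ t ∈ Set.Icc p q, T t ≠ 0 ∧ a t = 0
  bulk : ∀ θ, (T θ = 0 ∧ Ph θ = 0) ∨
    ∃ p q, p ≤ θ ∧ θ ≤ q ∧ T p = 0 ∧ T q = 0 ∧ |B θ| ≤ B p ∧ B q = -B p ∧
      ∀ t ∈ Set.Icc p q, β t = 0

/-- The sign of the coil in cell `j`. -/
noncomputable def Tz (M : ℝ) (j : ℤ) : ℤ :=
  if 1 / 4 ≤ Cz (j / M) then 1 else if Cz (j / M) ≤ -(1 / 4) then -1 else 0

theorem Tz_cases (M : ℝ) (j : ℤ) :
    (Tz M j = 1 ∧ 1 / 4 ≤ Cz (j / M)) ∨ (Tz M j = 0 ∧ |Cz (j / M)| < 1 / 4) ∨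
      (Tz M j = -1 ∧ Cz (j / M) ≤ -(1 / 4)) := by
  unfold Tz
  split_ifs with h1 h2
  · exact Or.inl ⟨rfl, h1⟩
  · exact Or.inr (Or.inr ⟨rfl, h2⟩)
  · exact Or.inr (Or.inl ⟨rfl, abs_lt.2 ⟨by linarith, by linarith⟩⟩)

theorem Tz_half {m : ℕ} (hm : 0 < m) (j : ℤ) :
    Tz (2 * m) (j + m) = -Tz (2 * m) j := by
  have hm' : (0 : ℝ) < m := by exact_mod_cast hm
  have h : Cz (((j + m : ℤ) : ℝ) / (2 * m)) = -Cz (j / (2 * m)) := by
    rw [← Cz_half]
    congr 1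
    push_cast
    field_simp
  unfold Tz
  rw [h]
  split_ifs <;> first | rfl | (exfalso; linarith)

section blocks

variable (M : ℝ)

noncomputable def αf (θ : ℝ) : ℝ :=
  ((stair Int.cast (1 / 20) (1 / 5) (M * θ) + stair Int.cast (3 / 4) (1 / 5) (M * θ)) / 2 -
    M * θ) / M

noncomputable def af (θ : ℝ) : ℝ :=
  (bf (1 / 20) (1 / 5) (M * θ) + bf (3 / 4) (1 / 5) (M * θ)) / 2

noncomputable def φf (θ : ℝ) : ℝ := bf (2 / 5) (1 / 5) (M * θ)

noncomputable def kf (P : ℤ → ℝ) (θ : ℝ) : ℝ :=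
  ((stair P (1 / 20) (1 / 5) (M * θ) + stair P (3 / 4) (1 / 5) (M * θ)) / 2 -
    stair P (2 / 5) (1 / 5) (M * θ)) / M

noncomputable def Phf (N : ℤ → ℝ) (θ : ℝ) : ℝ := stair N (2 / 5) (1 / 5) (M * θ)

noncomputable def Tf (θ : ℝ) : ℝ := Tz M ⌊M * θ⌋

noncomputable def Bf (θ : ℝ) : ℝ := stair Int.cast (6 / 25) (1 / 50) θ - θ - 1 / 4

noncomputable def βf (θ : ℝ) : ℝ := bf (6 / 25) (1 / 50) θ

noncomputable def cs (θ : ℝ) : ℝ := Cz (θ + αf M θ)

noncomputable def sn (θ : ℝ) : ℝ := -Real.sin (2 * Real.pi * (θ + αf M θ)) * (2 * Real.pi)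

noncomputable def Ep (θ : ℝ) : ℝ := st (20 * cs M θ - 3)

noncomputable def Em (θ : ℝ) : ℝ := st (-20 * cs M θ - 3)

noncomputable def Ep1 (θ : ℝ) : ℝ := deriv st (20 * cs M θ - 3) * (20 * sn M θ)

noncomputable def Em1 (θ : ℝ) : ℝ := deriv st (-20 * cs M θ - 3) * (-20 * sn M θ)

end blocks

theorem stairM_smooth (M : ℝ) (N : ℤ → ℝ) {p w : ℝ} (hp : 0 ≤ p) (hw : 0 < w) (hpw : p + w < 1) :
    ContDiff ℝ ∞ fun θ => stair N p w (M * θ) :=
  (stair_smooth N hp hw hpw).comp (contDiff_const.mul contDiff_id)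

theorem stairM_hasDeriv (M : ℝ) (N : ℤ → ℝ) {p w : ℝ} (hp : 0 ≤ p) (hw : 0 < w)
    (hpw : p + w < 1) (θ : ℝ) : HasDerivAt (fun θ => stair N p w (M * θ))
      ((N (⌊M * θ⌋ + 1) - N ⌊M * θ⌋) * bf p w (M * θ) * M) θ := by
  have h := (stair_hasDeriv N hp hw hpw (M * θ)).comp θ ((hasDerivAt_id θ).const_mul M)
  refine HasDerivAt.congr_deriv h ?_
  ring

theorem αf_eq {M : ℝ} (hM : M ≠ 0) (θ : ℝ) : M * αf M θ =
    (sf (1 / 20) (1 / 5) (M * θ) + sf (3 / 4) (1 / 5) (M * θ)) / 2 - Int.fract (M * θ) := by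
  unfold αf stair
  rw [mul_div_cancel₀ _ hM, Int.fract]
  push_cast
  ring

theorem αf_smooth (M : ℝ) : ContDiff ℝ ∞ (αf M) :=
  ((((stairM_smooth M _ (by norm_num) (by norm_num) (by norm_num)).add
    (stairM_smooth M _ (by norm_num) (by norm_num) (by norm_num))).div_const 2).sub
    (contDiff_const.mul contDiff_id)).div_const M

theorem αf_hasDeriv {M : ℝ} (hM : M ≠ 0) (θ : ℝ) : HasDerivAt (αf M) (af M θ - 1) θ := by
  have h := ((((stairM_hasDeriv M Int.cast (p := 1 / 20) (w := 1 / 5) (by norm_num) (by norm_num)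
    (by norm_num) θ).add (stairM_hasDeriv M Int.cast (p := 3 / 4) (w := 1 / 5) (by norm_num)
    (by norm_num) (by norm_num) θ)).div_const 2).sub
    ((hasDerivAt_id θ).const_mul M)).div_const M
  refine HasDerivAt.congr_deriv h ?_
  unfold af
  push_cast
  field_simp
  ring

theorem αf_bound {M : ℝ} (hM : 0 < M) (θ : ℝ) : M * |αf M θ| ≤ 1 := by
  rw [← abs_of_pos hM, ← abs_mul, abs_of_pos hM, αf_eq hM.ne', abs_le]
  have := sf_nonneg (1 / 20) (1 / 5) (M * θ)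
  have := sf_le_one (1 / 20) (1 / 5) (M * θ)
  have := sf_nonneg (3 / 4) (1 / 5) (M * θ)
  have := sf_le_one (3 / 4) (1 / 5) (M * θ)
  have := Int.fract_nonneg (M * θ)
  have := Int.fract_lt_one (M * θ)
  constructor <;> linarith

theorem kf_eq {M : ℝ} (hM : M ≠ 0) (P : ℤ → ℝ) (θ : ℝ) : M * kf M P θ =
    (P (⌊M * θ⌋ + 1) - P ⌊M * θ⌋) *
      ((sf (1 / 20) (1 / 5) (M * θ) + sf (3 / 4) (1 / 5) (M * θ)) / 2 -
        sf (2 / 5) (1 / 5) (M * θ)) := by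
  unfold kf stair
  rw [mul_div_cancel₀ _ hM]
  ring

theorem cs_hasDeriv {M : ℝ} (hM : M ≠ 0) (θ : ℝ) : HasDerivAt (cs M) (sn M θ * af M θ) θ := by
  have h := (Cz_hasDeriv (θ + αf M θ)).comp θ ((hasDerivAt_id θ).add (αf_hasDeriv hM θ))
  refine HasDerivAt.congr_deriv h ?_
  unfold sn
  ring

theorem cs_smooth (M : ℝ) : ContDiff ℝ ∞ (cs M) := Cz_smooth.comp (contDiff_id.add (αf_smooth M))

theorem sn_bound (M θ : ℝ) : |sn M θ| ≤ 7 := by
  unfold sn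
  rw [abs_mul, abs_neg, abs_of_pos (by positivity : (0 : ℝ) < 2 * Real.pi)]
  have h1 := Real.abs_sin_le_one (2 * Real.pi * (θ + αf M θ))
  have h2 := Real.pi_lt_d2
  have h3 := Real.pi_pos
  nlinarith

theorem Ep_hasDeriv {M : ℝ} (hM : M ≠ 0) (θ : ℝ) : HasDerivAt (Ep M) (Ep1 M θ * af M θ) θ := by
  have h := (st_hasDeriv (20 * cs M θ - 3)).comp θ
    (((cs_hasDeriv hM θ).const_mul 20).sub_const 3)
  refine HasDerivAt.congr_deriv h ?_
  unfold Ep1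
  ring

theorem Em_hasDeriv {M : ℝ} (hM : M ≠ 0) (θ : ℝ) : HasDerivAt (Em M) (Em1 M θ * af M θ) θ := by
  have h := (st_hasDeriv (-20 * cs M θ - 3)).comp θ
    (((cs_hasDeriv hM θ).const_mul (-20)).sub_const 3)
  refine HasDerivAt.congr_deriv h ?_
  unfold Em1
  ring

theorem Ep_zero {M θ : ℝ} (h : cs M θ ≤ 3 / 20) : Ep M θ = 0 ∧ Ep1 M θ = 0 :=
  ⟨st_zero (by linarith), by rw [Ep1, st_d_left (by linarith), zero_mul]⟩

theorem Em_zero {M θ : ℝ} (h : -(3 / 20) ≤ cs M θ) : Em M θ = 0 ∧ Em1 M θ = 0 :=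
  ⟨st_zero (by linarith), by rw [Em1, st_d_left (by linarith), zero_mul]⟩

theorem Ep_one {M θ : ℝ} (h : 1 / 5 ≤ cs M θ) : Ep M θ = 1 ∧ Ep1 M θ = 0 :=
  ⟨st_one (by linarith), by rw [Ep1, st_d_right (by linarith), zero_mul]⟩

theorem Em_one {M θ : ℝ} (h : cs M θ ≤ -(1 / 5)) : Em M θ = 1 ∧ Em1 M θ = 0 :=
  ⟨st_one (by linarith), by rw [Em1, st_d_right (by linarith), zero_mul]⟩

theorem E_dich (M θ : ℝ) : (Ep M θ = 0 ∧ Ep1 M θ = 0) ∨ (Em M θ = 0 ∧ Em1 M θ = 0) := by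
  rcases le_total (cs M θ) 0 with h | h
  · exact Or.inl (Ep_zero (by linarith))
  · exact Or.inr (Em_zero (by linarith))

theorem E1_bound {L0 : ℝ} (hL : ∀ y, deriv st y ≤ L0) (M θ : ℝ) :
    |Ep1 M θ| ≤ 140 * L0 ∧ |Em1 M θ| ≤ 140 * L0 := by
  have h1 := sn_bound M θ
  have h0 := abs_nonneg (sn M θ)
  constructor
  · unfold Ep1
    rw [abs_mul, abs_mul, abs_of_nonneg (st_d_nonneg _), abs_of_pos (by norm_num : (0 : ℝ) < 20)]
    have := hL (20 * cs M θ - 3)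
    have := st_d_nonneg (20 * cs M θ - 3)
    nlinarith
  · unfold Em1
    rw [abs_mul, abs_mul, abs_of_nonneg (st_d_nonneg _), abs_neg,
      abs_of_pos (by norm_num : (0 : ℝ) < 20)]
    have := hL (-20 * cs M θ - 3)
    have := st_d_nonneg (-20 * cs M θ - 3)
    nlinarith

theorem near {M : ℝ} (hM : 700 ≤ M) {θ s : ℝ} (h : M * |s - θ| ≤ 1) :
    |Cz s - Cz θ| ≤ 1 / 100 := by
  have h1 := Cz_lip s θ
  have h2 := abs_nonneg (s - θ)
  nlinarith

theorem near_cs {M : ℝ} (hM : 700 ≤ M) (θ : ℝ) : |cs M θ - Cz θ| ≤ 1 / 100 :=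
  near hM (by rw [add_sub_cancel_left]; exact αf_bound (by linarith) θ)

theorem near_floor {M : ℝ} (hM : 700 ≤ M) (θ : ℝ) :
    |Cz ((⌊M * θ⌋ : ℝ) / M) - Cz θ| ≤ 1 / 100 := by
  have hM0 : 0 < M := by linarith
  apply near hM
  rw [← abs_of_pos hM0, ← abs_mul, abs_of_pos hM0, mul_sub, mul_div_cancel₀ _ hM0.ne', abs_le]
  have := Int.floor_le (M * θ)
  have := Int.lt_floor_add_one (M * θ)
  constructor <;> linarith

theorem Tf_zero {M : ℝ} (hM : 700 ≤ M) {θ : ℝ} (h1 : 6 / 25 ≤ Int.fract θ)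
    (h2 : Int.fract θ ≤ 13 / 50) : Tf M θ = 0 := by
  have a1 := near_floor hM θ
  have a2 : Cz (Int.fract θ) = Cz θ := per_fract Cz_add_one θ
  have a3 := Cz_lip (Int.fract θ) (1 / 4)
  have a4 : |Int.fract θ - 1 / 4| ≤ 1 / 100 := abs_le.2 ⟨by linarith, by linarith⟩
  rw [a2, Cz_quarter, sub_zero] at a3
  have a5 := abs_le.1 a1
  have a6 := abs_le.1 (a3.trans (by linarith : 7 * |Int.fract θ - 1 / 4| ≤ 7 / 100))
  unfold Tf
  rcases Tz_cases M ⌊M * θ⌋ with h | h | h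
  · exfalso; linarith [h.2]
  · rw [h.1]; simp
  · exfalso; linarith [h.2]

theorem B_out (k : ℤ) {t : ℝ} (h1 : (k : ℝ) + 13 / 50 ≤ t) (h2 : t ≤ k + 31 / 25) :
    Bf t = k + 3 / 4 - t ∧ βf t = 0 := by
  unfold Bf βf stair
  by_cases h : t < k + 1
  · have hf : ⌊t⌋ = k := Int.floor_eq_iff.2 ⟨by linarith, h⟩
    have hs := sf_right (p := 6 / 25) (w := 1 / 50) (x := t) (by norm_num)
      (by rw [Int.fract, hf]; linarith)
    rw [hs.1, hs.2, hf]
    exact ⟨by push_cast; ring, rfl⟩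
  · push Not at h
    have hf : ⌊t⌋ = k + 1 := Int.floor_eq_iff.2 ⟨by push_cast; linarith, by push_cast; linarith⟩
    have hs := sf_left (p := 6 / 25) (w := 1 / 50) (x := t) (by norm_num)
      (by rw [Int.fract, hf]; push_cast; linarith)
    rw [hs.1, hs.2, hf]
    exact ⟨by push_cast; ring, rfl⟩

theorem cell_mid {M : ℝ} (hM : 0 < M) (j : ℤ) {t : ℝ} (h1 : (j : ℝ) + 1 / 4 ≤ M * t)
    (h2 : M * t ≤ j + 3 / 4) :
    ⌊M * t⌋ = j ∧ af M t = 0 ∧ M * αf M t = j + 1 / 2 - M * t := by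
  have hf : ⌊M * t⌋ = j := Int.floor_eq_iff.2 ⟨by linarith, by linarith⟩
  have s1 := sf_right (p := 1 / 20) (w := 1 / 5) (x := M * t) (by norm_num)
    (by rw [Int.fract, hf]; linarith)
  have s2 := sf_left (p := 3 / 4) (w := 1 / 5) (x := M * t) (by norm_num)
    (by rw [Int.fract, hf]; linarith)
  refine ⟨hf, by rw [af, s1.2, s2.2]; norm_num, ?_⟩
  rw [αf_eq hM.ne', s1.1, s2.1, Int.fract, hf]
  ring

theorem exists_base_nat {L0 : ℝ} (hL : ∀ y, deriv st y ≤ L0) (m : ℕ) (hm : 350 ≤ m) :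
    Nonempty (Base (2 * m) (280 * L0)) := by
  set M : ℝ := 2 * m with hMdef
  have hm' : (350 : ℝ) ≤ m := by exact_mod_cast hm
  have hM : 700 ≤ M := by rw [hMdef]; linarith
  have hM0 : 0 < M := by linarith
  obtain ⟨N, hN0, hN⟩ := exists_prim (Tz M) ⌊M * (1 / 4)⌋
  obtain ⟨P, -, hP⟩ := exists_prim (fun j => |Tz M j|) 0
  have hT2 : ∀ j, Tz M (j + m) = -Tz M j := Tz_half (by omega)
  have hTM : ∀ j, Tz M (j + 2 * m) = Tz M j := fun j => by
    rw [show j + 2 * m = (j + m) + m by ring, hT2, hT2, neg_neg]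
  have hNm : ∀ j, N (j + m) + N j = N (0 + m) + N 0 :=
    const_of_step (fun j => N (j + m) + N j) fun j => by
      show N (j + 1 + m) + N (j + 1) = N (j + m) + N j
      rw [show j + 1 + m = (j + m) + 1 by ring, hN, hN, hT2]; ring
  have hNM : ∀ j, N (j + 2 * m) = N j := fun j => by
    have h1 := hNm j
    have h2 := hNm (j + m)
    rw [show j + m + m = j + 2 * m by ring] at h2
    linarith
  have hfl : ∀ θ : ℝ, ⌊M * (θ + 1)⌋ = ⌊M * θ⌋ + 2 * m := fun θ => by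
    rw [show M * (θ + 1) = M * θ + ((2 * m : ℤ) : ℝ) by rw [hMdef]; push_cast; ring,
      Int.floor_add_intCast]
  have hfr : ∀ θ : ℝ, Int.fract (M * (θ + 1)) = Int.fract (M * θ) := fun θ => by
    rw [show M * (θ + 1) = M * θ + ((2 * m : ℤ) : ℝ) by rw [hMdef]; push_cast; ring,
      Int.fract_add_intCast]
  have hsf : ∀ p w θ : ℝ, sf p w (M * (θ + 1)) = sf p w (M * θ) := fun p w θ => by
    unfold sf; rw [hfr]
  have hNd : ∀ j, ((N (j + 1) : ℤ) : ℝ) - (N j : ℝ) = (Tz M j : ℝ) := fun j => by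
    rw [hN]; push_cast; ring
  have hPd : ∀ j, ((P (j + 1) : ℤ) : ℝ) - (P j : ℝ) = |(Tz M j : ℝ)| := fun j => by
    rw [hP]; push_cast; ring
  have pα : ∀ θ, αf M (θ + 1) = αf M θ := fun θ => by
    apply mul_left_cancel₀ hM0.ne'
    rw [αf_eq hM0.ne', αf_eq hM0.ne', hsf, hsf, hfr]
  have pcs : ∀ θ, cs M (θ + 1) = cs M θ := fun θ => by
    unfold cs
    rw [pα, show θ + 1 + αf M θ = θ + αf M θ + 1 by ring, Cz_add_one]
  have pT : ∀ θ, Tf M (θ + 1) = Tf M θ := fun θ => by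
    unfold Tf; rw [hfl, hTM]
  have hPhe : ∀ θ, Phf M (fun j => (N j : ℝ)) θ =
      N ⌊M * θ⌋ + Tf M θ * sf (2 / 5) (1 / 5) (M * θ) := fun θ => by
    unfold Phf stair Tf
    rw [hNd]
  have pPh : ∀ θ, Phf M (fun j => (N j : ℝ)) (θ + 1) = Phf M (fun j => (N j : ℝ)) θ := fun θ => by
    rw [hPhe, hPhe, hfl, hNM, pT, hsf]
  have dPh : ∀ θ, HasDerivAt (Phf M fun j => (N j : ℝ)) (M * Tf M θ * φf M θ) θ := fun θ => by
    refine HasDerivAt.congr_deriv (stairM_hasDeriv M (fun j => (N j : ℝ)) (p := 2 / 5)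
      (w := 1 / 5) (by norm_num) (by norm_num) (by norm_num) θ) ?_
    rw [hNd]; unfold Tf φf; ring
  have Tc : ∀ θ, (Tf M θ = 1 ∧ 1 / 5 ≤ cs M θ) ∨ (Tf M θ = 0 ∧ |Cz θ| ≤ 13 / 50) ∨
      (Tf M θ = -1 ∧ cs M θ ≤ -(1 / 5)) := fun θ => by
    have a1 := abs_le.1 (near_floor hM θ)
    have a2 := abs_le.1 (near_cs hM θ)
    unfold Tf
    rcases Tz_cases M ⌊M * θ⌋ with h | h | h
    · exact Or.inl ⟨by rw [h.1]; simp, by linarith [h.2]⟩
    · have a3 := abs_lt.1 h.2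
      exact Or.inr (Or.inl ⟨by rw [h.1]; simp, abs_le.2 ⟨by linarith, by linarith⟩⟩)
    · exact Or.inr (Or.inr ⟨by rw [h.1]; simp, by linarith [h.2]⟩)
  have hβT : ∀ θ, Tf M θ ≠ 0 → βf θ = 0 := fun θ h => by
    by_cases h1 : Int.fract θ ≤ 6 / 25
    · exact (sf_left (by norm_num) h1).2
    by_cases h2 : 13 / 50 ≤ Int.fract θ
    · exact (sf_right (by norm_num) (by linarith)).2
    exact absurd (Tf_zero hM (by linarith) (by linarith)) h
  refine ⟨{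
    α := αf M, a := af M, k := kf M fun j => (P j : ℝ), φ := φf M,
    Ph := Phf M fun j => (N j : ℝ), T := Tf M, B := Bf, β := βf,
    V := fun θ => Ep M θ + Em M θ, E := fun θ => Ep M θ - Em M θ,
    V1 := fun θ => Ep1 M θ + Em1 M θ, E1 := fun θ => Ep1 M θ - Em1 M θ,
    sα := αf_smooth M, sk := ?_, sPh := ?_, sB := ?_, sV := ?_, sE := ?_,
    pα := pα, pk := ?_, pPh := pPh, pB := ?_, pV := ?_, pE := ?_,
    dα := αf_hasDeriv hM0.ne', dk := ?_, dPh := dPh, dB := ?_, dV := ?_, dE := ?_,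
    a0 := ?_, φ0 := ?_, β0 := ?_, bα := αf_bound hM0, bk := ?_, bB := ?_,
    V0 := ?_, Vle := ?_, EV := ?_, bV1 := ?_, bE1 := ?_, EV1 := ?_, Tc := ?_, zone := ?_,
    Tne := ?_, coil := ?_, bulk := ?_ }⟩
  · exact ((((stairM_smooth M _ (by norm_num) (by norm_num) (by norm_num)).add
      (stairM_smooth M _ (by norm_num) (by norm_num) (by norm_num))).div_const 2).sub
      (stairM_smooth M _ (by norm_num) (by norm_num) (by norm_num))).div_const M
  · exact stairM_smooth M _ (by norm_num) (by norm_num) (by norm_num)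
  · exact ((stair_smooth _ (by norm_num) (by norm_num) (by norm_num)).sub contDiff_id).sub
      contDiff_const
  · exact (st_smooth.comp ((contDiff_const.mul (cs_smooth M)).sub contDiff_const)).add
      (st_smooth.comp ((contDiff_const.mul (cs_smooth M)).sub contDiff_const))
  · exact (st_smooth.comp ((contDiff_const.mul (cs_smooth M)).sub contDiff_const)).sub
      (st_smooth.comp ((contDiff_const.mul (cs_smooth M)).sub contDiff_const))
  · intro θ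
    apply mul_left_cancel₀ hM0.ne'
    rw [kf_eq hM0.ne', kf_eq hM0.ne', hsf, hsf, hsf, hPd, hPd, hfl, hTM]
  · intro θ
    unfold Bf stair sf
    rw [Int.floor_add_one, Int.fract_add_one]
    push_cast
    ring
  · intro θ
    simp only [Ep, Em, pcs]
  · intro θ
    simp only [Ep, Em, pcs]
  · intro θ
    have h := ((((stairM_hasDeriv M (fun j => (P j : ℝ)) (p := 1 / 20) (w := 1 / 5) (by norm_num)
      (by norm_num) (by norm_num) θ).add (stairM_hasDeriv M (fun j => (P j : ℝ)) (p := 3 / 4)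
      (w := 1 / 5) (by norm_num) (by norm_num) (by norm_num) θ)).div_const 2).sub
      (stairM_hasDeriv M (fun j => (P j : ℝ)) (p := 2 / 5) (w := 1 / 5) (by norm_num)
      (by norm_num) (by norm_num) θ)).div_const M
    refine HasDerivAt.congr_deriv h ?_
    rw [hPd]
    unfold af φf Tf
    field_simp
  · intro θ
    have h := ((stair_hasDeriv Int.cast (p := 6 / 25) (w := 1 / 50) (by norm_num) (by norm_num)
      (by norm_num) θ).sub (hasDerivAt_id θ)).sub_const (1 / 4)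
    refine HasDerivAt.congr_deriv h ?_
    unfold βf
    push_cast
    ring
  · intro θ
    refine HasDerivAt.congr_deriv ((Ep_hasDeriv hM0.ne' θ).add (Em_hasDeriv hM0.ne' θ)) ?_
    ring
  · intro θ
    refine HasDerivAt.congr_deriv ((Ep_hasDeriv hM0.ne' θ).sub (Em_hasDeriv hM0.ne' θ)) ?_
    ring
  · intro θ
    exact div_nonneg (add_nonneg (bf_nonneg _ (by norm_num) _) (bf_nonneg _ (by norm_num) _))
      (by norm_num)
  · exact fun θ => bf_nonneg _ (by norm_num) _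
  · exact fun θ => bf_nonneg _ (by norm_num) _
  · intro θ
    rw [← abs_of_pos hM0, ← abs_mul, abs_of_pos hM0, kf_eq hM0.ne', hPd, abs_mul, abs_abs]
    have := sf_nonneg (1 / 20) (1 / 5) (M * θ)
    have := sf_le_one (1 / 20) (1 / 5) (M * θ)
    have := sf_nonneg (3 / 4) (1 / 5) (M * θ)
    have := sf_le_one (3 / 4) (1 / 5) (M * θ)
    have := sf_nonneg (2 / 5) (1 / 5) (M * θ)
    have := sf_le_one (2 / 5) (1 / 5) (M * θ)
    have h1 : |(Tz M ⌊M * θ⌋ : ℝ)| ≤ 1 := by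
      rcases Tz_cases M ⌊M * θ⌋ with h | h | h <;> rw [h.1] <;> simp
    exact mul_le_one₀ h1 (abs_nonneg _) (abs_le.2 ⟨by linarith, by linarith⟩)
  · intro θ
    unfold Bf stair
    have := sf_nonneg (6 / 25) (1 / 50) θ
    have := sf_le_one (6 / 25) (1 / 50) θ
    have := Int.floor_le θ
    have := Int.lt_floor_add_one θ
    push_cast
    exact abs_le.2 ⟨by linarith, by linarith⟩
  · exact fun θ => add_nonneg (st_nonneg _) (st_nonneg _)
  · intro θ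
    have h1 : Ep M θ ≤ 1 := st_le_one _
    have h2 : Em M θ ≤ 1 := st_le_one _
    rcases E_dich M θ with h | h <;> simp only [h.1] <;> linarith
  · intro θ
    have h1 : 0 ≤ Ep M θ := st_nonneg _
    have h2 : 0 ≤ Em M θ := st_nonneg _
    rcases E_dich M θ with h | h <;> simp only [h.1]
    · rw [zero_sub, abs_neg, abs_of_nonneg h2, zero_add]
    · rw [sub_zero, abs_of_nonneg h1, add_zero]
  · intro θ
    have h := E1_bound hL M θ
    exact (abs_add_le _ _).trans (by linarith [h.1, h.2])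
  · intro θ
    have h := E1_bound hL M θ
    exact (abs_sub _ _).trans (by linarith [h.1, h.2])
  · intro θ
    rcases E_dich M θ with h | h <;> simp only [h.1, h.2] <;> ring
  · intro θ
    rcases Tc θ with h | h | h
    · exact Or.inl h.1
    · exact Or.inr (Or.inl h.1)
    · exact Or.inr (Or.inr h.1)
  · intro θ s hs
    have a1 := abs_le.1 (near hM hs)
    have a2 := abs_le.1 (near_cs hM θ)
    have h1 : 0 ≤ Ep M θ := st_nonneg _
    have h2 : 0 ≤ Em M θ := st_nonneg _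
    refine ⟨fun h0 => ?_, fun hE => ?_, fun hE => ?_⟩
    · rcases Tc θ with h | h | h
      · rw [h.1] at h0; norm_num at h0
      · have a3 := abs_le.1 h.2
        exact abs_le.2 ⟨by linarith, by linarith⟩
      · rw [h.1] at h0; norm_num at h0
    · by_contra hc
      have := (Ep_zero (M := M) (θ := θ) (by linarith)).1
      linarith
    · by_contra hc
      have := (Em_zero (M := M) (θ := θ) (by linarith)).1
      linarith
  · intro θ h0
    rcases Tc θ with h | h | h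
    · have e1 := Ep_one h.2
      have e2 := Em_zero (M := M) (θ := θ) (by linarith [h.2])
      simp only [e1.1, e1.2, e2.1, e2.2, h.1, hβT θ h0]
      norm_num
    · exact absurd h.1 h0
    · have e1 := Em_one h.2
      have e2 := Ep_zero (M := M) (θ := θ) (by linarith [h.2])
      simp only [e1.1, e1.2, e2.1, e2.2, h.1, hβT θ h0]
      norm_num
  · intro θ
    by_cases h0 : Tf M θ = 0
    · exact Or.inl ⟨by rw [h0, zero_mul], N ⌊M * θ⌋, by rw [hPhe, h0]; ring⟩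
    by_cases h1 : Int.fract (M * θ) ≤ 2 / 5
    · have hs := sf_left (w := 1 / 5) (by norm_num) h1
      exact Or.inl ⟨by rw [φf, hs.2, mul_zero], N ⌊M * θ⌋, by rw [hPhe, hs.1]; ring⟩
    by_cases h2 : 2 / 5 + 1 / 5 ≤ Int.fract (M * θ)
    · have hs := sf_right (by norm_num) h2
      refine Or.inl ⟨by rw [φf, hs.2, mul_zero], N (⌊M * θ⌋ + 1), ?_⟩
      rw [hPhe, hs.1, hN, Tf]; push_cast; ring
    right
    push Not at h1 h2
    rw [Int.fract] at h1 h2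
    set j := ⌊M * θ⌋ with hj
    have ep : M * ((j + 1 / 4) / M) = j + 1 / 4 := mul_div_cancel₀ _ hM0.ne'
    have eq : M * ((j + 3 / 4) / M) = j + 3 / 4 := mul_div_cancel₀ _ hM0.ne'
    refine ⟨(j + 1 / 4) / M, (j + 3 / 4) / M, by rw [div_le_iff₀ hM0]; linarith,
      by rw [le_div_iff₀ hM0]; linarith, ?_, ?_, ?_, fun t ht => ?_⟩
    · rw [← abs_of_pos hM0, ← abs_mul, abs_of_pos hM0,
        (cell_mid hM0 j (t := θ) (by linarith) (by linarith)).2.2]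
      exact abs_le.2 ⟨by linarith, by linarith⟩
    · rw [(cell_mid hM0 j (by rw [ep]) (by rw [ep]; linarith)).2.2, ep]; ring
    · rw [(cell_mid hM0 j (by rw [eq]; linarith) (by rw [eq])).2.2, eq]; ring
    · have b1 := (div_le_iff₀ hM0).1 ht.1
      have b2 := (le_div_iff₀ hM0).1 ht.2
      have c := cell_mid hM0 j (t := t) (by linarith) (by linarith)
      exact ⟨by unfold Tf at h0 ⊢; rw [c.1]; exact h0, c.2.1⟩
  · intro θ
    by_cases hB : 6 / 25 ≤ Int.fract θ ∧ Int.fract θ ≤ 13 / 50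
    · refine Or.inl ⟨Tf_zero hM hB.1 hB.2, ?_⟩
      have hz : ∀ t ∈ Set.Icc (6 / 25 : ℝ) (13 / 50), M * Tf M t * φf M t = 0 := fun t ht => by
        have hfr : Int.fract t = t := Int.fract_eq_self.2 ⟨by linarith [ht.1], by linarith [ht.2]⟩
        rw [Tf_zero hM (by rw [hfr]; exact ht.1) (by rw [hfr]; exact ht.2)]; ring
      have m1 := monoOn dPh fun t ht => (hz t ht).ge
      have m2 := antiOn dPh fun t ht => (hz t ht).le
      have q4 : (1 / 4 : ℝ) ∈ Set.Icc (6 / 25 : ℝ) (13 / 50) := ⟨by norm_num, by norm_num⟩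
      have hq : Phf M (fun j => (N j : ℝ)) (1 / 4) = 0 := by
        have hfr : Int.fract (1 / 4 : ℝ) = 1 / 4 := Int.fract_eq_self.2 ⟨by norm_num, by norm_num⟩
        rw [hPhe, hN0, Tf_zero hM (by rw [hfr]; norm_num) (by rw [hfr]; norm_num)]
        simp
      rw [← per_fract pPh θ, ← hq]
      rcases le_total (Int.fract θ) (1 / 4) with h | h
      · exact le_antisymm (m1 hB q4 h) (m2 hB q4 h)
      · exact le_antisymm (m2 q4 hB h) (m1 q4 hB h)
    · right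
      obtain ⟨k, hk1, hk2⟩ : ∃ k : ℤ, (k : ℝ) + 13 / 50 ≤ θ ∧ θ ≤ k + 31 / 25 := by
        have f0 := Int.fract_nonneg θ
        have f1 := Int.fract_lt_one θ
        rw [not_and_or, not_le, not_le] at hB
        rw [Int.fract] at hB f0 f1
        rcases hB with h | h
        · exact ⟨⌊θ⌋ - 1, by push_cast; linarith, by push_cast; linarith⟩
        · exact ⟨⌊θ⌋, by linarith, by linarith⟩
      have f1 : Int.fract ((k : ℝ) + 13 / 50) = 13 / 50 := by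
        rw [Int.fract_intCast_add]; exact Int.fract_eq_self.2 ⟨by norm_num, by norm_num⟩
      have f2 : Int.fract ((k : ℝ) + 31 / 25) = 6 / 25 := by
        rw [show (k : ℝ) + 31 / 25 = ((k + 1 : ℤ) : ℝ) + 6 / 25 by push_cast; ring,
          Int.fract_intCast_add]
        exact Int.fract_eq_self.2 ⟨by norm_num, by norm_num⟩
      refine ⟨k + 13 / 50, k + 31 / 25, hk1, hk2, Tf_zero hM (by rw [f1]; norm_num) (by rw [f1]),
        Tf_zero hM (by rw [f2]) (by rw [f2]; norm_num), ?_, ?_, fun t ht => (B_out k ht.1 ht.2).2⟩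
      · rw [(B_out k hk1 hk2).1, (B_out k le_rfl (by linarith)).1]
        exact abs_le.2 ⟨by linarith, by linarith⟩
      · rw [(B_out k (by linarith) le_rfl).1, (B_out k le_rfl (by linarith)).1]
        ring

theorem exists_base : ∃ L : ℝ, 0 ≤ L ∧ ∀ M0 : ℝ, ∃ M : ℝ, M0 ≤ M ∧ Nonempty (Base M L) := by
  obtain ⟨L0, h0, hL⟩ := st_d_bdd
  refine ⟨280 * L0, by positivity, fun M0 => ?_⟩
  obtain ⟨m, hm⟩ := exists_nat_ge (max M0 350)
  have h1 : (350 : ℝ) ≤ m := (le_max_right _ _).trans hm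
  have h2 : M0 ≤ m := (le_max_left _ _).trans hm
  exact ⟨2 * m, by linarith, exists_base_nat hL m (by exact_mod_cast h1)⟩

end BeadP
end Pool.Agent.Lib.MP_72f1d0_gt
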