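import Mathlib
import Pool.Agent.Lib.MP_72f1d0_gt.BeadProfileBase

/-!
The six-amplitude family of profiles built from the blocks, and its admissibility.
-/

open scoped ContDiff Topology
open Complex (I)

namespace Pool.Agent.Lib.MP_72f1d0_gt
namespace BeadP

/-- The numerical parameters. -/
structure Num where
  H : ℝ
  ρ : ℝ
  e : ℝ
  om : ℝ

/-- The amplitudes. -/
structure Amp where
  s : ℝ
  c0 : ℝ
  c1 : ℝ
  w : ℝ
  c2 : ℝ
  c3 : ℝ

structure Small (M L ρ0 : ℝ) (n : Num) : Prop where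
  M1 : 1 ≤ M
  H0 : 0 < n.H
  ρp : 0 < n.ρ
  ep : 0 < n.e
  hL : L ≤ M
  hμ : n.ρ * M ≤ 1 / 160
  he : n.e ≤ n.ρ * M
  hom : 1 ≤ n.om * (n.ρ * M)
  omint : ∀ z : ℤ, Real.cos (n.om * z) = 1 ∧ Real.sin (n.om * z) = 0
  sh : 2 * (n.H + 2) / M + 2 * (n.H + 1) * n.e ≤ ρ0
  sg : 75 * (n.ρ * M) ≤ ρ0

structure Amp.Ok (A : Amp) : Prop where
  s0 : 0 ≤ A.s
  c00 : 0 ≤ A.c0
  c10 : 0 ≤ A.c1
  w0 : 0 ≤ A.w
  c20 : 0 ≤ A.c2
  c30 : 0 ≤ A.c3
  c01 : A.c0 ≤ 1
  c23 : A.c2 + A.c3 ≤ 1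
  c0s : A.c0 ≤ A.s + A.c2
  sc3 : A.s ≤ A.c3
  c13 : A.c1 ≤ A.c3
  c2w : A.c2 ≤ A.c0 * A.w

section defs

variable {M L : ℝ} (D : Base M L) (n : Num) (A : Amp) (θ : ℝ)

noncomputable def σf : ℝ := θ + (1 - n.e) * (A.c2 * D.α θ + A.c3 * D.B θ)
noncomputable def σd : ℝ := 1 + (1 - n.e) * (A.c2 * (D.a θ - 1) + A.c3 * (D.β θ - 1))
noncomputable def h0f : ℝ := (n.H + 2) * D.k θ + n.e * (n.H + 1) * (D.V θ * D.V θ * D.α θ)
noncomputable def h0d : ℝ := (n.H + 2) * (|D.T θ| * (D.a θ - D.φ θ)) + n.e * (n.H + 1) *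
  (2 * D.V θ * (D.V1 θ * D.α θ) * D.a θ + D.V θ * D.V θ * (D.a θ - 1))
noncomputable def hf : ℝ := A.c2 * h0f D n θ + A.c3 * ((n.H + 1) * n.e * D.B θ)
noncomputable def hd : ℝ := A.c2 * h0d D n θ + A.c3 * ((n.H + 1) * n.e * (D.β θ - 1))
noncomputable def l0f : ℝ := -10 * (n.ρ * M) * (D.V θ * D.α θ)
noncomputable def l0d : ℝ := -10 * (n.ρ * M) * (D.V1 θ * D.α θ * D.a θ + D.V θ * (D.a θ - 1))
noncomputable def xf : ℝ := A.c0 * l0f D n θ + A.c1 * (-2 * n.e * D.B θ)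
noncomputable def xd : ℝ := A.c0 * l0d D n θ + A.c1 * (-2 * n.e * (D.β θ - 1))
noncomputable def yf : ℝ := A.c0 * (n.ρ * D.E θ)
noncomputable def yd : ℝ := A.c0 * (n.ρ * (D.E1 θ * D.a θ))
noncomputable def lf : ℝ := A.s * (20 * (n.ρ * M) * (D.α θ - D.B θ))
noncomputable def ld : ℝ := A.s * (20 * (n.ρ * M) * (D.a θ - D.β θ))
noncomputable def pf : ℝ := A.w * (n.om * D.Ph θ)
noncomputable def pd : ℝ := A.w * (n.om * (M * D.T θ * D.φ θ))
noncomputable def gf : ℂ := (lf D n A θ : ℂ) +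
  ((xf D n A θ : ℂ) - I * (yf D n A θ : ℂ)) * Complex.exp (I * (pf D n A θ : ℂ))
noncomputable def gd : ℂ := (ld D n A θ : ℂ) +
  ((xd D n A θ : ℂ) - I * (yd D n A θ : ℂ) +
    I * (pd D n A θ : ℂ) * ((xf D n A θ : ℂ) - I * (yf D n A θ : ℂ))) *
      Complex.exp (I * (pf D n A θ : ℂ))
noncomputable def Rr : ℝ := (gf D n A θ).re + σf D n A θ / 2
noncomputable def Rt : ℝ := lf D n A θ + xf D n A θ + σf D n A θ / 2
noncomputable def Dd : ℝ := hf D n A θ + (n.H + 1) * σf D n A θ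

/-- The coil phase is trivial at `θ` to first order. -/
def Flat : Prop := Real.cos (pf D n A θ) = 1 ∧ Real.sin (pf D n A θ) = 0 ∧ pd D n A θ = 0

theorem σf_d : HasDerivAt (σf D n A) (σd D n A θ) θ :=
  (hasDerivAt_id θ).add ((((D.dα θ).const_mul _).add ((D.dB θ).const_mul _)).const_mul _)

theorem h0f_d : HasDerivAt (h0f D n) (h0d D n θ) θ := by
  have h := ((D.dk θ).const_mul (n.H + 2)).add
    ((((D.dV θ).mul (D.dV θ)).mul (D.dα θ)).const_mul (n.e * (n.H + 1)))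
  refine HasDerivAt.congr_deriv h ?_
  simp only [h0d, Pi.mul_apply]
  ring

theorem hf_d : HasDerivAt (hf D n A) (hd D n A θ) θ :=
  ((h0f_d D n θ).const_mul _).add (((D.dB θ).const_mul _).const_mul _)

theorem l0f_d : HasDerivAt (l0f D n) (l0d D n θ) θ := by
  have h := ((D.dV θ).mul (D.dα θ)).const_mul (-10 * (n.ρ * M))
  refine HasDerivAt.congr_deriv h ?_
  simp only [l0d]
  ring

theorem xf_d : HasDerivAt (xf D n A) (xd D n A θ) θ :=
  ((l0f_d D n θ).const_mul _).add (((D.dB θ).const_mul _).const_mul _)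

theorem yf_d : HasDerivAt (yf D n A) (yd D n A θ) θ := ((D.dE θ).const_mul _).const_mul _

theorem lf_d : HasDerivAt (lf D n A) (ld D n A θ) θ := by
  have h := (((D.dα θ).sub (D.dB θ)).const_mul (20 * (n.ρ * M))).const_mul A.s
  refine HasDerivAt.congr_deriv h ?_
  simp only [ld]
  ring

theorem pf_d : HasDerivAt (pf D n A) (pd D n A θ) θ := ((D.dPh θ).const_mul _).const_mul _

theorem gf_d : HasDerivAt (gf D n A) (gd D n A θ) θ := by
  have h := (lf_d D n A θ).ofReal_comp.add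
    (((xf_d D n A θ).ofReal_comp.sub ((yf_d D n A θ).ofReal_comp.const_mul I)).mul
      ((pf_d D n A θ).ofReal_comp.const_mul I).cexp)
  refine HasDerivAt.congr_deriv h ?_
  simp only [gd, Pi.sub_apply]
  ring

theorem gf_re : (gf D n A θ).re = lf D n A θ +
    (xf D n A θ * Real.cos (pf D n A θ) + yf D n A θ * Real.sin (pf D n A θ)) := by
  rw [gf, mul_comm I (pf D n A θ : ℂ)]
  simp [Complex.exp_ofReal_mul_I_re, Complex.exp_ofReal_mul_I_im]

theorem gd_re_flat (h : Flat D n A θ) : (gd D n A θ).re = ld D n A θ + xd D n A θ := by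
  rw [gd, mul_comm I (pf D n A θ : ℂ), h.2.2]
  simp [Complex.exp_ofReal_mul_I_re, Complex.exp_ofReal_mul_I_im, h.1, h.2.1]

theorem norm_expI (t : ℝ) : ‖Complex.exp (I * (t : ℂ))‖ = 1 := by
  rw [mul_comm, Complex.norm_exp_ofReal_mul_I]

theorem gd_norm_lower (h : ld D n A θ = 0) :
    xd D n A θ + pd D n A θ * yf D n A θ ≤ ‖gd D n A θ‖ := by
  rw [gd, h, Complex.ofReal_zero, zero_add, norm_mul, norm_expI, mul_one]
  refine le_trans (le_of_eq ?_) (Complex.re_le_norm _)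
  simp

theorem gf_norm : ‖gf D n A θ‖ ≤ |lf D n A θ| + (|xf D n A θ| + |yf D n A θ|) := by
  rw [gf]
  refine (norm_add_le _ _).trans (add_le_add (by simp) ?_)
  rw [norm_mul, norm_expI, mul_one]
  refine (norm_sub_le _ _).trans (le_of_eq ?_)
  simp

theorem Rr_flat (h : Flat D n A θ) : Rr D n A θ = Rt D n A θ := by
  rw [Rr, Rt, gf_re, h.1, h.2.1]; ring

end defs

section general

variable {M L ρ0 : ℝ} {D : Base M L} {n : Num} {A : Amp}

theorem Small.e16 (S : Small M L ρ0 n) : n.e ≤ 1 / 160 := S.he.trans S.hμ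

theorem Small.μp (S : Small M L ρ0 n) : 0 < n.ρ * M := S.ep.trans_le S.he

theorem Small.ρμ (S : Small M L ρ0 n) : n.ρ ≤ n.ρ * M :=
  le_mul_of_one_le_right S.ρp.le S.M1

theorem α_le (S : Small M L ρ0 n) (θ : ℝ) : |D.α θ| ≤ 1 := by
  have h1 := D.bα θ
  have h2 := abs_nonneg (D.α θ)
  have h3 := S.M1
  nlinarith

theorem V1α_le (S : Small M L ρ0 n) (θ : ℝ) : |D.V1 θ * D.α θ| ≤ 1 := by
  rw [abs_mul]
  have h1 := D.bα θ
  have h2 := abs_nonneg (D.α θ)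
  have h3 := (D.bV1 θ).trans S.hL
  nlinarith

theorem σd_eq (θ : ℝ) : σd D n A θ = A.c2 * (n.e + (1 - n.e) * D.a θ) +
    A.c3 * (n.e + (1 - n.e) * D.β θ) + (1 - A.c2 - A.c3) := by
  unfold σd; ring

theorem σd_lower (S : Small M L ρ0 n) (hA : A.Ok) (θ : ℝ) :
    n.e + (A.c2 * D.a θ + A.c3 * D.β θ) / 2 ≤ σd D n A θ := by
  rw [σd_eq]
  have h1 := mul_nonneg hA.c20 (D.a0 θ)
  have h2 := mul_nonneg hA.c30 (D.β0 θ)
  have h3 := S.e16
  have h4 := hA.c23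
  have h5 := mul_nonneg (show 0 ≤ 1 / 2 - n.e by linarith) h1
  have h6 := mul_nonneg (show 0 ≤ 1 / 2 - n.e by linarith) h2
  have h7 := mul_nonneg (show 0 ≤ 1 - n.e by linarith) (show 0 ≤ 1 - A.c2 - A.c3 by linarith)
  nlinarith

theorem σd_pos (S : Small M L ρ0 n) (hA : A.Ok) (θ : ℝ) : 0 < σd D n A θ := by
  have h := σd_lower (D := D) S hA θ
  have h1 := mul_nonneg hA.c20 (D.a0 θ)
  have h2 := mul_nonneg hA.c30 (D.β0 θ)
  have := S.ep
  linarith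

theorem l0d_lower (S : Small M L ρ0 n) (θ : ℝ) :
    -20 * (n.ρ * M) * D.a θ ≤ l0d D n θ := by
  unfold l0d
  have h1 := (abs_le.1 (V1α_le (D := D) S θ)).2
  have h2 := D.a0 θ
  have h3 := D.V0 θ
  have h4 := D.Vle θ
  have h5 := S.μp
  have h6 : D.V1 θ * D.α θ * D.a θ + D.V θ * (D.a θ - 1) ≤ 2 * D.a θ := by nlinarith
  nlinarith

theorem Rt_d_nonneg (S : Small M L ρ0 n) (hA : A.Ok) (θ : ℝ) :
    0 ≤ ld D n A θ + xd D n A θ + σd D n A θ / 2 := by
  have h1 := σd_lower (D := D) S hA θ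
  have h2 := mul_le_mul_of_nonneg_left (l0d_lower (D := D) S θ) hA.c00
  have ha := D.a0 θ
  have hb := D.β0 θ
  have hμ := S.hμ
  have hμp := S.μp
  have he := S.e16
  have hep := S.ep
  have h3 : (n.ρ * M) * D.a θ * A.c0 ≤ (n.ρ * M) * D.a θ * (A.s + A.c2) :=
    mul_le_mul_of_nonneg_left hA.c0s (by positivity)
  have h4 : (n.ρ * M) * (A.c2 * D.a θ) ≤ 1 / 160 * (A.c2 * D.a θ) :=
    mul_le_mul_of_nonneg_right hμ (mul_nonneg hA.c20 ha)
  have h5 : (n.ρ * M) * (A.s * D.β θ) ≤ 1 / 160 * (A.c3 * D.β θ) :=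
    mul_le_mul hμ (mul_le_mul_of_nonneg_right hA.sc3 hb) (mul_nonneg hA.s0 hb) (by norm_num)
  have h6 : n.e * (A.c1 * D.β θ) ≤ 1 / 160 * (A.c3 * D.β θ) :=
    mul_le_mul he (mul_le_mul_of_nonneg_right hA.c13 hb) (mul_nonneg hA.c10 hb) (by norm_num)
  have h7 := mul_nonneg hA.c10 hep.le
  have h8 := mul_nonneg hA.c20 ha
  have h9 := mul_nonneg hA.c30 hb
  unfold ld xd
  nlinarith

theorem Rt_mono (S : Small M L ρ0 n) (hA : A.Ok) : Monotone (Rt D n A) :=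
  mono_of (fun t => ((lf_d D n A t).add (xf_d D n A t)).add ((σf_d D n A t).div_const 2))
    (Rt_d_nonneg S hA)

theorem W_mono (S : Small M L ρ0 n) (hA : A.Ok) :
    Monotone fun θ => lf D n A θ + σf D n A θ / 2 := by
  refine mono_of (fun t => (lf_d D n A t).add ((σf_d D n A t).div_const 2)) fun θ => ?_
  have h1 := σd_lower (D := D) S hA θ
  have ha := D.a0 θ
  have hb := D.β0 θ
  have hμ := S.hμ
  have hμp := S.μp
  have hep := S.ep
  have h5 : (n.ρ * M) * (A.s * D.β θ) ≤ 1 / 160 * (A.c3 * D.β θ) :=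
    mul_le_mul hμ (mul_le_mul_of_nonneg_right hA.sc3 hb) (mul_nonneg hA.s0 hb) (by norm_num)
  have h8 := mul_nonneg hA.c20 ha
  have h9 := mul_nonneg hA.c30 hb
  have h10 := mul_nonneg hμp.le (mul_nonneg hA.s0 ha)
  unfold ld
  nlinarith

theorem coil_norm (θ : ℝ) (hT : D.T θ ≠ 0) (ha : D.a θ = 0) :
    10 * (n.ρ * M) * A.c0 + 2 * n.e * A.c1 + A.c0 * A.w * (n.om * (n.ρ * M)) * D.φ θ ≤
      ‖gd D n A θ‖ := by
  obtain ⟨h1, h2, h3, h4, h5⟩ := D.Tne θ hT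
  refine le_trans (le_of_eq ?_) (gd_norm_lower D n A θ (by rw [ld, ha, h5]; ring))
  have hTT : D.T θ * D.T θ = 1 := by
    rcases D.Tc θ with h | h | h
    · rw [h]; ring
    · exact absurd h hT
    · rw [h]; ring
  rw [xd, l0d, pd, yf, h1, h2, h3, h5, ha]
  linear_combination (-(A.c0 * A.w * (n.om * (n.ρ * M)) * D.φ θ)) * hTT

theorem absT_le (θ : ℝ) : |D.T θ| ≤ 1 := by
  rcases D.Tc θ with h | h | h <;> rw [h] <;> simp

theorem h0d_bound (S : Small M L ρ0 n) (θ : ℝ) : |h0d D n θ| ≤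
    (n.H + 2) * (|D.T θ| * (D.a θ + D.φ θ)) + n.e * (n.H + 1) *
      (3 * D.a θ + D.V θ * D.V θ) := by
  have ha := D.a0 θ
  have hφ := D.φ0 θ
  have hV := D.V0 θ
  have hV1 := D.Vle θ
  have hH := S.H0
  have hep := S.ep
  have h1 := V1α_le (D := D) S θ
  unfold h0d
  refine (abs_add_le _ _).trans (add_le_add ?_ ?_)
  · rw [abs_mul, abs_mul, abs_abs, abs_of_pos (by linarith : 0 < n.H + 2)]
    gcongr
    exact abs_le.2 ⟨by linarith, by linarith⟩
  · rw [abs_mul, abs_of_pos (by positivity : 0 < n.e * (n.H + 1))]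
    gcongr
    have h2 : |2 * D.V θ * (D.V1 θ * D.α θ) * D.a θ| ≤ 2 * D.a θ := by
      rw [abs_mul, abs_mul, abs_of_nonneg ha, abs_of_nonneg (by linarith : 0 ≤ 2 * D.V θ)]
      have := abs_nonneg (D.V1 θ * D.α θ)
      gcongr
      nlinarith
    have h3 : |D.V θ * D.V θ * (D.a θ - 1)| ≤ D.a θ + D.V θ * D.V θ := by
      have h4 : D.V θ * D.V θ ≤ 1 := by nlinarith
      have h5 := mul_nonneg hV hV
      have h6 := mul_nonneg h5 ha
      have h7 := mul_le_mul_of_nonneg_right h4 ha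
      exact abs_le.2 ⟨by nlinarith, by nlinarith⟩
    exact (abs_add_le _ _).trans (by linarith)

theorem slope_ok (S : Small M L ρ0 n) (hA : A.Ok) (θ : ℝ) :
    |hd D n A θ| ≤ 4 * (n.H + 2) * (σd D n A θ + ‖gd D n A θ‖) := by
  have ha := D.a0 θ
  have hb := D.β0 θ
  have hφ := D.φ0 θ
  have hV := D.V0 θ
  have hV1 := D.Vle θ
  have hH := S.H0
  have hep := S.ep
  have he := S.e16
  have hT := absT_le (D := D) θ
  have hT0 := abs_nonneg (D.T θ)
  have hg := norm_nonneg (gd D n A θ)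
  have key : A.c2 * (|D.T θ| * D.φ θ) ≤ ‖gd D n A θ‖ := by
    rcases D.coil θ with h | ⟨p, q, h1, h2, -, -, -, h⟩
    · have : |D.T θ| * D.φ θ = 0 := by rw [← abs_of_nonneg hφ, ← abs_mul, h.1, abs_zero]
      rw [this, mul_zero]; exact hg
    · obtain ⟨t1, t2⟩ := h θ ⟨h1, h2⟩
      refine le_trans ?_ (coil_norm (A := A) (n := n) θ t1 t2)
      have b1 := mul_nonneg S.μp.le hA.c00
      have b2 := mul_nonneg hep.le hA.c10
      have b3 : A.c2 * (|D.T θ| * D.φ θ) ≤ A.c0 * A.w * (n.om * (n.ρ * M)) * D.φ θ := by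
        rw [mul_assoc (A.c0 * A.w)]
        exact mul_le_mul hA.c2w (mul_le_mul_of_nonneg_right (hT.trans S.hom) hφ)
          (mul_nonneg hT0 hφ) (mul_nonneg hA.c00 hA.w0)
      linarith
  have b0 : |h0d D n θ| ≤ (n.H + 2) * (4 * (n.e + (1 - n.e) * D.a θ) + |D.T θ| * D.φ θ) := by
    refine (h0d_bound S θ).trans ?_
    have c1 : D.V θ * D.V θ ≤ 1 := by nlinarith
    have c2 : |D.T θ| * D.a θ ≤ D.a θ := by nlinarith
    have c3 : n.e * (3 * D.a θ + D.V θ * D.V θ) ≤ D.a θ + n.e := by nlinarith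
    have c4 : 0 ≤ n.e * (3 * D.a θ + D.V θ * D.V θ) := by positivity
    have c5 : n.e * D.a θ ≤ D.a θ / 2 := by nlinarith
    have c6 : |D.T θ| * (D.a θ + D.φ θ) + n.e * (3 * D.a θ + D.V θ * D.V θ) ≤
      4 * (n.e + (1 - n.e) * D.a θ) + |D.T θ| * D.φ θ := by nlinarith
    nlinarith
  have b1 : |(n.H + 1) * n.e * (D.β θ - 1)| ≤ (n.H + 2) * (4 * (n.e + (1 - n.e) * D.β θ)) := by
    rw [mul_assoc, abs_mul, abs_of_pos (by linarith : 0 < n.H + 1)]
    have c1 : n.e * D.β θ ≤ D.β θ / 2 := by nlinarith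
    have c2 := mul_nonneg hep.le hb
    exact mul_le_mul (by linarith) (abs_le.2 ⟨by nlinarith, by nlinarith⟩) (abs_nonneg _)
      (by linarith)
  have b2 := mul_le_mul_of_nonneg_left b0 hA.c20
  have b3 := mul_le_mul_of_nonneg_left b1 hA.c30
  have b4 : |hd D n A θ| ≤ A.c2 * |h0d D n θ| + A.c3 * |(n.H + 1) * n.e * (D.β θ - 1)| := by
    unfold hd
    refine (abs_add_le _ _).trans (le_of_eq ?_)
    rw [abs_mul, abs_mul A.c3, abs_of_nonneg hA.c20, abs_of_nonneg hA.c30]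
  have b5 := mul_le_mul_of_nonneg_left key (by linarith : 0 ≤ n.H + 2)
  have b6 := mul_nonneg (by linarith : 0 ≤ n.H + 2) hg
  have b7 := mul_nonneg (by linarith : 0 ≤ n.H + 2)
    (show 0 ≤ 1 - A.c2 - A.c3 by linarith [hA.c23])
  rw [σd_eq]
  nlinarith

theorem h0f_bound (S : Small M L ρ0 n) (θ : ℝ) : |h0f D n θ| ≤ 2 * (n.H + 2) / M := by
  have hM : 0 < M := by linarith [S.M1]
  have hH := S.H0
  have hep := S.ep
  have he := S.e16
  have hV := D.V0 θ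
  have hV1 := D.Vle θ
  rw [le_div_iff₀ hM]
  have h1 : |h0f D n θ| ≤ (n.H + 2) * |D.k θ| + n.e * (n.H + 1) * (D.V θ * D.V θ * |D.α θ|) := by
    unfold h0f
    refine (abs_add_le _ _).trans (le_of_eq ?_)
    rw [abs_mul, abs_mul (n.e * (n.H + 1)), abs_mul (D.V θ * D.V θ),
      abs_of_pos (by linarith : 0 < n.H + 2), abs_of_pos (by positivity : 0 < n.e * (n.H + 1)),
      abs_of_nonneg (mul_nonneg hV hV)]
  have h2 := mul_le_mul_of_nonneg_left (D.bk θ) (by linarith : 0 ≤ n.H + 2)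
  have h3 : D.V θ * D.V θ * (M * |D.α θ|) ≤ 1 :=
    mul_le_one₀ (by nlinarith) (by positivity) (D.bα θ)
  have h4 := mul_le_mul_of_nonneg_left h3 (by positivity : 0 ≤ n.e * (n.H + 1))
  have h5 := mul_le_mul_of_nonneg_right h1 hM.le
  nlinarith

theorem l0f_bound (S : Small M L ρ0 n) (θ : ℝ) :
    |l0f D n θ| = 10 * n.ρ * D.V θ * (M * |D.α θ|) := by
  unfold l0f
  rw [abs_mul, abs_mul, abs_mul (D.V θ), abs_of_pos S.μp, abs_of_nonneg (D.V0 θ)]
  norm_num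
  ring

theorem small_ok (S : Small M L ρ0 n) (hA : A.Ok) (θ : ℝ) :
    |hf D n A θ| ≤ ρ0 ∧ ‖gf D n A θ‖ ≤ ρ0 := by
  have hH := S.H0
  have hep := S.ep
  have hc2 : A.c2 ≤ 1 := by linarith [hA.c23, hA.c30]
  have hc3 : A.c3 ≤ 1 := by linarith [hA.c23, hA.c20]
  have hB := D.bB θ
  have hμ := S.μp
  constructor
  · refine le_trans ?_ S.sh
    unfold hf
    refine (abs_add_le _ _).trans (add_le_add ?_ ?_)
    · rw [abs_mul, abs_of_nonneg hA.c20]
      exact (mul_le_of_le_one_left (abs_nonneg _) hc2).trans (h0f_bound S θ)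
    · rw [abs_mul, abs_of_nonneg hA.c30]
      refine (mul_le_of_le_one_left (abs_nonneg _) hc3).trans ?_
      rw [abs_mul, abs_of_pos (by positivity : 0 < (n.H + 1) * n.e)]
      have := mul_le_mul_of_nonneg_left hB (by positivity : 0 ≤ (n.H + 1) * n.e)
      linarith
  · refine le_trans (gf_norm D n A θ) (le_trans ?_ S.sg)
    have a1 : |lf D n A θ| ≤ 60 * (n.ρ * M) := by
      unfold lf
      rw [abs_mul, abs_of_nonneg hA.s0]
      refine (mul_le_of_le_one_left (abs_nonneg _) (hA.sc3.trans hc3)).trans ?_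
      rw [abs_mul, abs_of_pos (by positivity : 0 < 20 * (n.ρ * M))]
      have : |D.α θ - D.B θ| ≤ 3 := (abs_sub _ _).trans (by linarith [α_le (D := D) S θ])
      nlinarith
    have a2 : |xf D n A θ| ≤ 10 * n.ρ + 4 * n.e := by
      unfold xf
      refine (abs_add_le _ _).trans (add_le_add ?_ ?_)
      · rw [abs_mul, abs_of_nonneg hA.c00]
        refine (mul_le_of_le_one_left (abs_nonneg _) hA.c01).trans ?_
        rw [l0f_bound S, mul_assoc (10 * n.ρ)]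
        have := S.ρp
        exact mul_le_of_le_one_right (by positivity)
          (mul_le_one₀ (D.Vle θ) (mul_nonneg (by linarith [S.M1]) (abs_nonneg _)) (D.bα θ))
      · rw [abs_mul, abs_of_nonneg hA.c10]
        refine (mul_le_of_le_one_left (abs_nonneg _) (hA.c13.trans hc3)).trans ?_
        rw [abs_mul, abs_mul, abs_of_pos hep]
        norm_num
        nlinarith
    have a3 : |yf D n A θ| ≤ n.ρ := by
      unfold yf
      rw [abs_mul, abs_of_nonneg hA.c00]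
      refine (mul_le_of_le_one_left (abs_nonneg _) hA.c01).trans ?_
      rw [abs_mul, abs_of_pos S.ρp, D.EV]
      exact mul_le_of_le_one_right S.ρp.le (D.Vle θ)
    linarith [S.ρμ, S.he]

/-- Local trapping of `Rr` between two values of `Rt`. -/
def Loc (D : Base M L) (n : Num) (A : Amp) (θ : ℝ) : Prop :=
  ∃ p q, p ≤ θ ∧ θ ≤ q ∧ Rt D n A p ≤ Rr D n A θ ∧ Rr D n A θ ≤ Rt D n A q ∧
    AntitoneOn (Dd D n A) (Set.Icc p q)

theorem loc_flat {θ : ℝ} (h : Flat D n A θ) : Loc D n A θ :=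
  ⟨θ, θ, le_rfl, le_rfl, (Rr_flat D n A θ h).ge, (Rr_flat D n A θ h).le, by
    intro a ha b hb _
    rw [le_antisymm ha.2 ha.1, le_antisymm hb.2 hb.1]⟩

theorem adm_of (S : Small M L ρ0 n) (hA : A.Ok)
    (hs : ∀ θ, Flat D n A θ ∨ 3 / 2 * σd D n A θ ≤ ‖gd D n A θ‖) (hl : ∀ θ, Loc D n A θ) :
    Adm n.H (4 * (n.H + 2)) ρ0 (σf D n A) (hf D n A) (gf D n A) where
  perσ θ := by simp only [σf, D.pα, D.pB]; ring
  perh θ := by simp only [hf, h0f, D.pα, D.pB, D.pk, D.pV]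
  perg θ := by simp only [gf, lf, xf, yf, pf, l0f, D.pα, D.pB, D.pV, D.pE, D.pPh]
  pos θ := by rw [(σf_d D n A θ).deriv]; exact σd_pos S hA θ
  small θ := small_ok S hA θ
  speed θ := by
    rw [(σf_d D n A θ).deriv, (gf_d D n A θ).deriv]
    rcases hs θ with h | h
    · refine le_trans ?_ (Complex.re_le_norm _)
      rw [Complex.add_re, Complex.ofReal_re, gd_re_flat D n A θ h]
      linarith [Rt_d_nonneg (D := D) S hA θ]
    · have h1 := norm_sub_norm_le (gd D n A θ) (-(σd D n A θ : ℂ))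
      rw [norm_neg, Complex.norm_real, Real.norm_eq_abs, abs_of_pos (σd_pos S hA θ),
        sub_neg_eq_add, add_comm] at h1
      linarith
  slope θ := by
    rw [(σf_d D n A θ).deriv, (gf_d D n A θ).deriv, (hf_d D n A θ).deriv]
    exact slope_ok S hA θ
  pairs θ θ' h := by
    rcases pairs_of (Rt_mono S hA) hl h with h | h
    · left; unfold Rr at h; linarith
    · right; unfold Dd at h; linarith

theorem Dd_d (θ : ℝ) : HasDerivAt (Dd D n A) (hd D n A θ + (n.H + 1) * σd D n A θ) θ :=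
  (hf_d D n A θ).add ((σf_d D n A θ).const_mul _)

theorem flat_of_off (S : Small M L ρ0 n) (hw : A.w = 1) {θ : ℝ} (h1 : D.T θ * D.φ θ = 0)
    (h2 : ∃ z : ℤ, D.Ph θ = z) : Flat D n A θ := by
  obtain ⟨z, hz⟩ := h2
  refine ⟨?_, ?_, ?_⟩
  · rw [pf, hw, hz, one_mul]; exact (S.omint z).1
  · rw [pf, hw, hz, one_mul]; exact (S.omint z).2
  · rw [pd, mul_assoc M, h1]; ring

theorem flat_of_bulk {θ : ℝ} (h1 : D.T θ = 0) (h2 : D.Ph θ = 0) : Flat D n A θ := by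
  refine ⟨?_, ?_, ?_⟩
  · rw [pf, h2]; simp
  · rw [pf, h2]; simp
  · rw [pd, h1]; ring

theorem flat_of_w (hw : A.w = 0) (θ : ℝ) : Flat D n A θ := by
  refine ⟨?_, ?_, ?_⟩
  · rw [pf, hw]; simp
  · rw [pf, hw]; simp
  · rw [pd, hw]; ring

theorem speed12 (S : Small M L ρ0 n) (hA : A.Ok) (hw : A.w = 1) (h23 : A.c2 + A.c3 = 1)
    (h01 : A.c0 + A.c1 = 1) (θ : ℝ) : Flat D n A θ ∨ 3 / 2 * σd D n A θ ≤ ‖gd D n A θ‖ := by
  rcases D.coil θ with h | ⟨p, q, h1, h2, -, -, -, h⟩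
  · exact Or.inl (flat_of_off S hw h.1 h.2)
  · right
    obtain ⟨t1, t2⟩ := h θ ⟨h1, h2⟩
    refine le_trans ?_ (coil_norm (A := A) (n := n) θ t1 t2)
    have b1 : σd D n A θ = n.e := by
      rw [σd_eq, t2, (D.Tne θ t1).2.2.2.2]
      linear_combination (n.e - 1) * h23
    have b2 : 0 ≤ A.c0 * A.w * (n.om * (n.ρ * M)) * D.φ θ :=
      mul_nonneg (mul_nonneg (mul_nonneg hA.c00 hA.w0) (by linarith [S.hom])) (D.φ0 θ)
    have b3 := mul_le_mul_of_nonneg_right S.he hA.c00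
    have b4 := mul_nonneg S.μp.le hA.c00
    have b5 : n.e * A.c0 + n.e * A.c1 = n.e := by rw [← mul_add, h01, mul_one]
    have := S.ep
    rw [b1]
    linarith

theorem trig_bound (x y t : ℝ) : |x * Real.cos t + y * Real.sin t| ≤ |x| + |y| := by
  refine (abs_add_le _ _).trans (add_le_add ?_ ?_)
  · rw [abs_mul]; exact mul_le_of_le_one_right (abs_nonneg _) (Real.abs_cos_le_one t)
  · rw [abs_mul]; exact mul_le_of_le_one_right (abs_nonneg _) (Real.abs_sin_le_one t)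

theorem loc1 (S : Small M L ρ0 n) (hA : A.Ok) (hw : A.w = 1) (h0 : A.c0 = 1) (h1 : A.c1 = 0)
    (θ : ℝ) : Flat D n A θ ∨ ∃ p q, p ≤ θ ∧ θ ≤ q ∧ Rt D n A p ≤ Rr D n A θ ∧
      Rr D n A θ ≤ Rt D n A q ∧ ∀ t ∈ Set.Icc p q, D.T t ≠ 0 ∧ D.a t = 0 := by
  rcases D.coil θ with h | ⟨p, q, hp, hq, a1, a2, a3, h⟩
  · exact Or.inl (flat_of_off S hw h.1 h.2)
  · right
    have hρ := S.ρp
    have hx : ∀ t, xf D n A t = -10 * n.ρ * D.V t * (M * D.α t) := fun t => by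
      rw [xf, l0f, h0, h1]; ring
    have Vp := (D.Tne p (h p ⟨le_rfl, hp.trans hq⟩).1).1
    have Vq := (D.Tne q (h q ⟨hp.trans hq, le_rfl⟩).1).1
    have Vθ := (D.Tne θ (h θ ⟨hp, hq⟩).1).1
    have bx : |xf D n A θ| ≤ n.ρ := by
      have : xf D n A θ = l0f D n θ := by rw [xf, h0, h1]; ring
      rw [this, l0f_bound S, Vθ]
      nlinarith
    have by' : |yf D n A θ| = n.ρ := by
      rw [yf, h0, one_mul, abs_mul, D.EV, Vθ, abs_of_pos hρ, mul_one]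
    have bt := abs_le.1 (trig_bound (xf D n A θ) (yf D n A θ) (pf D n A θ))
    have w1 := W_mono (D := D) S hA hp
    have w2 := W_mono (D := D) S hA hq
    simp only at w1 w2
    refine ⟨p, q, hp, hq, ?_, ?_, h⟩
    · rw [Rt, Rr, gf_re, hx p, Vp, a2]
      linarith
    · rw [Rt, Rr, gf_re, hx q, Vq, a3]
      linarith

theorem adm1 (S : Small M L ρ0 n) {u : ℝ} (u0 : 0 ≤ u) (u1 : u ≤ 1) :
    Adm n.H (4 * (n.H + 2)) ρ0 (σf D n ⟨u, 1, 0, 1, 1 - u, u⟩) (hf D n ⟨u, 1, 0, 1, 1 - u, u⟩)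
      (gf D n ⟨u, 1, 0, 1, 1 - u, u⟩) := by
  have hA : Amp.Ok ⟨u, 1, 0, 1, 1 - u, u⟩ := by
    constructor <;> simp only <;> linarith
  refine adm_of S hA (speed12 S hA rfl (by simp) (by simp)) fun θ => ?_
  rcases loc1 (D := D) S hA rfl rfl rfl θ with h | ⟨p, q, h1, h2, h3, h4, h⟩
  · exact loc_flat h
  · refine ⟨p, q, h1, h2, h3, h4, antiOn Dd_d fun t ht => ?_⟩
    obtain ⟨t1, t2⟩ := h t ht
    obtain ⟨b1, b2, -, -, b3⟩ := D.Tne t t1
    have := mul_nonneg (mul_nonneg (by linarith : 0 ≤ 1 - u) (by linarith [S.H0] : 0 ≤ n.H + 2))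
      (mul_nonneg (abs_nonneg (D.T t)) (D.φ0 t))
    rw [hd, h0d, σd, b1, b2, b3, t2]
    nlinarith

theorem adm23 (S : Small M L ρ0 n) {c w : ℝ} (c0 : 0 ≤ c) (c1 : c ≤ 1) (w0 : 0 ≤ w)
    (hw : w = 1 ∨ c = 0) :
    Adm n.H (4 * (n.H + 2)) ρ0 (σf D n ⟨c, c, 1 - c, w, 0, 1⟩) (hf D n ⟨c, c, 1 - c, w, 0, 1⟩)
      (gf D n ⟨c, c, 1 - c, w, 0, 1⟩) := by
  have hA : Amp.Ok ⟨c, c, 1 - c, w, 0, 1⟩ := by
    have := mul_nonneg c0 w0
    constructor <;> simp only <;> linarith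
  have hA1 : Amp.Ok ⟨1, 1, 0, 1, 0, 1⟩ := by
    constructor <;> simp only <;> linarith
  have hA0 : Amp.Ok ⟨0, 0, 0, 0, 0, 1⟩ := by
    constructor <;> simp only <;> linarith
  have hep := S.ep
  refine adm_of S hA (fun θ => ?_) fun θ => ?_
  · rcases hw with hw | hw
    · exact speed12 S hA hw (by simp) (by simp) θ
    · rcases D.bulk θ with h | ⟨p, q, h1, h2, -, -, -, -, h⟩
      · exact Or.inl (flat_of_bulk h.1 h.2)
      · right
        have hb := h θ ⟨h1, h2⟩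
        refine le_trans ?_ (gd_norm_lower D n _ θ (by rw [ld, hw]; ring))
        rw [σd, xd, yf, hb, hw]
        linarith
  · rcases D.bulk θ with h | ⟨p, q, h1, h2, Tp, Tq, B1, B2, h⟩
    · exact loc_flat (flat_of_bulk h.1 h.2)
    have key : Rt D n ⟨1, 1, 0, 1, 0, 1⟩ p ≤ Rr D n ⟨1, 1, 0, 1, 0, 1⟩ θ ∧
        Rr D n ⟨1, 1, 0, 1, 0, 1⟩ θ ≤ Rt D n ⟨1, 1, 0, 1, 0, 1⟩ q := by
      have m := Rt_mono (D := D) S hA1
      rcases loc1 (D := D) S hA1 rfl rfl rfl θ with g | ⟨p1, q1, g1, g2, g3, g4, g⟩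
      · rw [Rr_flat D n _ θ g]; exact ⟨m h1, m h2⟩
      · have e1 : p ≤ p1 := by
          by_contra hc
          exact (g p ⟨by linarith, by linarith⟩).1 Tp
        have e2 : q1 ≤ q := by
          by_contra hc
          exact (g q ⟨by linarith, by linarith⟩).1 Tq
        exact ⟨(m e1).trans g3, g4.trans (m e2)⟩
    have eR : Rr D n ⟨c, c, 1 - c, w, 0, 1⟩ θ = c * Rr D n ⟨1, 1, 0, 1, 0, 1⟩ θ +
        (1 - c) * (-2 * n.e * D.B θ * Real.cos (w * (n.om * D.Ph θ)) +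
          σf D n ⟨0, 0, 0, 0, 0, 1⟩ θ / 2) := by
      rcases hw with hw | hw
      · simp only [Rr, gf_re, lf, xf, yf, pf, σf, hw]; ring
      · simp only [Rr, gf_re, lf, xf, yf, pf, σf, hw]; ring
    have eT : ∀ t, Rt D n ⟨c, c, 1 - c, w, 0, 1⟩ t = c * Rt D n ⟨1, 1, 0, 1, 0, 1⟩ t +
        (1 - c) * (-2 * n.e * D.B t + σf D n ⟨0, 0, 0, 0, 0, 1⟩ t / 2) := fun t => by
      simp only [Rt, lf, xf, σf]; ring
    have mσ : Monotone (σf D n ⟨0, 0, 0, 0, 0, 1⟩) :=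
      mono_of (σf_d D n _) fun t => (σd_pos S hA0 t).le
    have m1 := mσ h1
    have m2 := mσ h2
    have bc : |D.B θ * Real.cos (w * (n.om * D.Ph θ))| ≤ D.B p := by
      rw [abs_mul]
      exact (mul_le_of_le_one_right (abs_nonneg _) (Real.abs_cos_le_one _)).trans B1
    have bc1 := mul_le_mul_of_nonneg_left (abs_le.1 bc).1 hep.le
    have bc2 := mul_le_mul_of_nonneg_left (abs_le.1 bc).2 hep.le
    refine ⟨p, q, h1, h2, ?_, ?_, antiOn Dd_d fun t ht => ?_⟩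
    · rw [eR, eT]
      exact add_le_add (mul_le_mul_of_nonneg_left key.1 c0)
        (mul_le_mul_of_nonneg_left (by linarith) (by linarith))
    · rw [eR, eT, B2]
      exact add_le_add (mul_le_mul_of_nonneg_left key.2 c0)
        (mul_le_mul_of_nonneg_left (by linarith) (by linarith))
    · rw [hd, σd, h t ht]
      linarith

theorem adm4 (S : Small M L ρ0 n) {c : ℝ} (c0 : 0 ≤ c) (c1 : c ≤ 1) :
    Adm n.H (4 * (n.H + 2)) ρ0 (σf D n ⟨0, 0, c, 0, 0, c⟩) (hf D n ⟨0, 0, c, 0, 0, c⟩)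
      (gf D n ⟨0, 0, c, 0, 0, c⟩) := by
  have hA : Amp.Ok ⟨0, 0, c, 0, 0, c⟩ := by
    constructor <;> simp only <;> linarith
  exact adm_of S hA (fun θ => Or.inl (flat_of_w rfl θ)) fun θ => loc_flat (flat_of_w rfl θ)

end general

end BeadP
end Pool.Agent.Lib.MP_72f1d0_gt
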