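import Mathlib
import Pool.Agent.Lib.MP_72f1d0_gt.BeadProfileAdm

/-!
The final inequality for the bead profile.
-/

open scoped ContDiff Topology
open Complex (I)

namespace Pool.Agent.Lib.MP_72f1d0_gt
namespace BeadP

/-- The amplitudes of the final profile. -/
def A0 : Amp := ⟨0, 1, 0, 1, 1, 0⟩

/-- The smallness conditions used in the final inequality. -/
structure Tiny (M : ℝ) (n : Num) (C ε κ0 κ1 b0 : ℝ) : Prop where
  Cp : 0 < C
  κp : 0 < κ0
  bp : 0 < b0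
  hε : C * (2 * (n.H + 2) / M + 11 * n.ρ) ≤ ε
  ε1 : ε * (n.H + 3) ≤ 1 / 4
  ε2 : 100 * ε ≤ κ0
  ε3 : 8 * ε ≤ b0
  k1 : 10 * κ1 * (n.ρ * (n.ρ * M)) ≤ 1 / 4
  k2 : 10 * κ1 * (n.ρ * (n.ρ * M)) ≤ b0 / 16
  t1 : n.e * (n.H + 1) ≤ 1 / 16
  t2 : n.e * (n.H + 1) ≤ b0 / 32
  t3 : n.e * (n.H + 1) ≤ κ0 * (n.ρ * (n.ρ * M))
  om : 4 * (n.H + 2) ≤ κ0 * (n.om * (n.ρ * (n.ρ * M)))

variable {M L ρ0 : ℝ} {D : Base M L} {n : Num}

theorem area_A0 (θ : ℝ) : area (gf D n A0) θ =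
    (xf D n A0 θ ^ 2 + yf D n A0 θ ^ 2) * pd D n A0 θ +
      10 * (n.ρ * (n.ρ * M)) * (D.E θ * D.V θ * (1 - D.a θ)) := by
  have h1 : area (gf D n A0) θ = (xf D n A0 θ ^ 2 + yf D n A0 θ ^ 2) * pd D n A0 θ +
      (yf D n A0 θ * xd D n A0 θ - xf D n A0 θ * yd D n A0 θ) := by
    have hl : lf D n A0 θ = 0 := by simp [lf, A0]
    have hl' : ld D n A0 θ = 0 := by simp [ld, A0]
    rw [area, (gf_d D n A0 θ).deriv, gf, gd, hl, hl', mul_comm I (pf D n A0 θ : ℂ)]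
    simp [Complex.exp_ofReal_mul_I_re, Complex.exp_ofReal_mul_I_im]
    linear_combination ((xf D n A0 θ ^ 2 + yf D n A0 θ ^ 2) * pd D n A0 θ +
      (yf D n A0 θ * xd D n A0 θ - xf D n A0 θ * yd D n A0 θ)) *
      Real.sin_sq_add_cos_sq (pf D n A0 θ)
  rw [h1]
  simp only [xf, yf, xd, yd, l0f, l0d, A0]
  linear_combination (-10 * (n.ρ * (n.ρ * M)) * D.α θ * D.a θ) * D.EV1 θ

theorem normsq_A0 (θ : ℝ) : ‖gf D n A0 θ‖ ^ 2 = xf D n A0 θ ^ 2 + yf D n A0 θ ^ 2 := by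
  have hl : lf D n A0 θ = 0 := by simp [lf, A0]
  rw [gf, hl, Complex.ofReal_zero, zero_add, norm_mul, norm_expI, mul_one, Complex.sq_norm,
    Complex.normSq_apply]
  simp
  ring

theorem norm_A0 (S : Small M L ρ0 n) (θ : ℝ) : ‖gf D n A0 θ‖ ≤ 11 * n.ρ * D.V θ := by
  have hl : lf D n A0 θ = 0 := by simp [lf, A0]
  have h1 := gf_norm D n A0 θ
  have h2 : xf D n A0 θ = l0f D n θ := by simp [xf, A0]
  have h3 : |yf D n A0 θ| = n.ρ * D.V θ := by
    simp only [yf, A0, one_mul, abs_mul, D.EV, abs_of_pos S.ρp]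
  rw [hl, h2, h3, l0f_bound S, abs_zero] at h1
  have h4 := mul_le_of_le_one_right (mul_nonneg (by linarith [S.ρp] : 0 ≤ 10 * n.ρ) (D.V0 θ))
    (D.bα θ)
  linarith

theorem gd_norm_A0 (S : Small M L ρ0 n) (θ : ℝ) : ‖gd D n A0 θ‖ ≤
    n.ρ * M * (21 * D.a θ + 10 * D.V θ) + |pd D n A0 θ| * ‖gf D n A0 θ‖ := by
  have hl : lf D n A0 θ = 0 := by simp [lf, A0]
  have hl' : ld D n A0 θ = 0 := by simp [ld, A0]
  have ha := D.a0 θ
  have hV := D.V0 θ
  have hV1 := D.Vle θ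
  have hμ := S.μp
  rw [gd, gf, hl, hl', Complex.ofReal_zero, zero_add, zero_add, norm_mul, norm_mul, norm_expI,
    mul_one, mul_one]
  refine (norm_add_le _ _).trans (add_le_add ((norm_sub_le _ _).trans ?_) (le_of_eq (by simp)))
  have h1 : |xd D n A0 θ| ≤ n.ρ * M * (20 * D.a θ + 10 * D.V θ) := by
    have : xd D n A0 θ = l0d D n θ := by simp [xd, A0]
    rw [this, l0d, abs_mul, abs_mul, abs_of_pos hμ]
    have h2 := abs_le.1 (V1α_le (D := D) S θ)
    have h3 : |D.V1 θ * D.α θ * D.a θ + D.V θ * (D.a θ - 1)| ≤ 2 * D.a θ + D.V θ :=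
      abs_le.2 ⟨by nlinarith, by nlinarith⟩
    norm_num
    nlinarith
  have h2 : |yd D n A0 θ| ≤ n.ρ * M * D.a θ := by
    simp only [yd, A0, one_mul, abs_mul, abs_of_pos S.ρp, abs_of_nonneg ha]
    rw [mul_assoc]
    exact mul_le_mul_of_nonneg_left
      (mul_le_mul_of_nonneg_right ((D.bE1 θ).trans S.hL) ha) S.ρp.le
  simp only [Complex.norm_real, Real.norm_eq_abs, norm_mul, Complex.norm_I, one_mul]
  linarith

theorem h0d_lower (S : Small M L ρ0 n) (θ : ℝ) :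
    (n.H + 2) * (|D.T θ| * (D.a θ - D.φ θ)) - n.e * (n.H + 1) * (2 * D.a θ + D.V θ * D.V θ) ≤
      h0d D n θ := by
  have ha := D.a0 θ
  have hV := D.V0 θ
  have hV1 := D.Vle θ
  have h2 := abs_le.1 (V1α_le (D := D) S θ)
  have h3 : 0 ≤ n.e * (n.H + 1) := mul_nonneg S.ep.le (by linarith [S.H0])
  have h4 : -1 ≤ D.V θ * (D.V1 θ * D.α θ) := by nlinarith
  have h5 := mul_le_mul_of_nonneg_right h4 ha
  have h6 := mul_nonneg (mul_nonneg hV hV) ha
  have h7 : -(2 * D.a θ + D.V θ * D.V θ) ≤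
    2 * D.V θ * (D.V1 θ * D.α θ) * D.a θ + D.V θ * D.V θ * (D.a θ - 1) := by nlinarith
  have h8 := mul_le_mul_of_nonneg_left h7 h3
  unfold h0d
  linarith

theorem err_bound (S : Small M L ρ0 n) {C ε κ0 κ1 b0 : ℝ} (Y : Tiny M n C ε κ0 κ1 b0) (θ : ℝ) :
    C * err (σf D n A0) (hf D n A0) (gf D n A0) θ ≤
      ε * (σd D n A0 θ + |h0d D n θ| + 2 * (‖gf D n A0 θ‖ ^ 2 * |pd D n A0 θ|) +
        120 * (n.ρ * (n.ρ * M) * (D.V θ * D.V θ)) + 241 * (n.ρ * (n.ρ * M) * D.a θ)) := by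
  have hA : A0.Ok := by constructor <;> simp [A0]
  have ha := D.a0 θ
  have hV := D.V0 θ
  have hV1 := D.Vle θ
  have hμ := S.μp
  have hρ := S.ρp
  have hC := Y.Cp
  have hM : 0 < M := by linarith [S.M1]
  have hH := S.H0
  have e1 : hf D n A0 θ = h0f D n θ := by simp [hf, A0]
  have e2 : hd D n A0 θ = h0d D n θ := by simp [hd, A0]
  have g1 := norm_A0 (D := D) S θ
  have g0 := norm_nonneg (gf D n A0 θ)
  have g2 : ‖gf D n A0 θ‖ ≤ 11 * n.ρ :=
    g1.trans (mul_le_of_le_one_right (by positivity) hV1)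
  have g3 := gd_norm_A0 (D := D) S θ
  have s0 := σd_pos (D := D) S hA θ
  have p0 := abs_nonneg (pd D n A0 θ)
  have d0 := abs_nonneg (h0d D n θ)
  set G := ‖gf D n A0 θ‖ with hG
  set P := |pd D n A0 θ| with hP
  set m := n.ρ * (n.ρ * M) with hm
  have hm0 : 0 < m := by positivity
  have ar : |area (gf D n A0) θ| ≤ G ^ 2 * P + 10 * (m * (D.V θ * D.V θ)) + 10 * (m * D.a θ) := by
    rw [area_A0, ← normsq_A0, add_assoc]
    refine (abs_add_le _ _).trans (add_le_add (le_of_eq ?_) ?_)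
    · rw [abs_mul, abs_of_nonneg (sq_nonneg _)]
    · rw [abs_mul, abs_mul (D.E θ * D.V θ), abs_mul (D.E θ), D.EV, abs_of_nonneg hV,
        abs_of_pos (by positivity : 0 < 10 * m)]
      have c1 : |1 - D.a θ| ≤ 1 + D.a θ := abs_le.2 ⟨by linarith, by linarith⟩
      have c2 : D.V θ * D.V θ ≤ 1 := by nlinarith
      have c3 := mul_le_mul_of_nonneg_left c1 (mul_nonneg hV hV)
      have c4 := mul_le_mul_of_nonneg_right c2 ha
      have c5 : D.V θ * D.V θ * |1 - D.a θ| ≤ D.V θ * D.V θ + D.a θ := by linarith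
      have c6 := mul_le_mul_of_nonneg_left c5 (by positivity : 0 ≤ 10 * m)
      linarith
  have hη : 0 ≤ 2 * (n.H + 2) / M := by positivity
  have hε := Y.hε
  have c1 : C * (|h0f D n θ| + G) ≤ ε :=
    le_trans (mul_le_mul_of_nonneg_left (add_le_add (h0f_bound S θ) g2) hC.le) hε
  have c2 : C * (11 * n.ρ) ≤ ε := le_trans (mul_le_mul_of_nonneg_left (by linarith) hC.le) hε
  have hε0 : 0 ≤ ε := le_trans (by positivity) c2
  have c3 : C * G ≤ ε := le_trans (mul_le_mul_of_nonneg_left g2 hC.le) c2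
  have t1 : C * ((|h0f D n θ| + G) * (σd D n A0 θ + |h0d D n θ| + |area (gf D n A0) θ|)) ≤
      ε * (σd D n A0 θ + |h0d D n θ| +
        (G ^ 2 * P + 10 * (m * (D.V θ * D.V θ)) + 10 * (m * D.a θ))) := by
    rw [← mul_assoc]
    exact mul_le_mul c1 (by linarith) (by positivity) hε0
  have t2 : C * (G ^ 2 * ‖gd D n A0 θ‖) ≤
      ε * (G ^ 2 * P + 110 * (m * (D.V θ * D.V θ)) + 231 * (m * D.a θ)) := by
    have u1 : C * (G ^ 2 * ‖gd D n A0 θ‖) ≤
        C * (G ^ 2 * (n.ρ * M * (21 * D.a θ + 10 * D.V θ) + P * G)) := by gcongr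
    have u2 : C * G * (G ^ 2 * P) ≤ ε * (G ^ 2 * P) :=
      mul_le_mul_of_nonneg_right c3 (by positivity)
    have u3 : G * (n.ρ * M * (21 * D.a θ + 10 * D.V θ)) ≤
        110 * (m * (D.V θ * D.V θ)) + 231 * (m * D.a θ) := by
      have v1 : G * (n.ρ * M * (21 * D.a θ + 10 * D.V θ)) ≤
        11 * n.ρ * D.V θ * (n.ρ * M * (21 * D.a θ + 10 * D.V θ)) := by gcongr
      have v2 : m * D.a θ * D.V θ ≤ m * D.a θ := mul_le_of_le_one_right (by positivity) hV1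
      rw [hm] at v2 ⊢
      nlinarith
    have u4 : C * G * (G * (n.ρ * M * (21 * D.a θ + 10 * D.V θ))) ≤
        ε * (110 * (m * (D.V θ * D.V θ)) + 231 * (m * D.a θ)) :=
      mul_le_mul c3 u3 (by positivity) hε0
    nlinarith
  rw [err, (σf_d D n A0 θ).deriv, (hf_d D n A0 θ).deriv, (gf_d D n A0 θ).deriv, e1, e2]
  linarith

theorem final_ineq (S : Small M L ρ0 n) {C ε κ0 κ1 b0 : ℝ} (Y : Tiny M n C ε κ0 κ1 b0)
    (θ b κ : ℝ) (hb : |b| ≤ n.H) (hκ : |κ| ≤ κ1)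
    (z1 : 1 / 10 ≤ Cz (σf D n A0 θ) → κ0 ≤ κ) (z2 : Cz (σf D n A0 θ) ≤ -(1 / 10) → κ ≤ -κ0)
    (z3 : |Cz (σf D n A0 θ)| ≤ 3 / 10 → b0 ≤ b) :
    C * err (σf D n A0) (hf D n A0) (gf D n A0) θ <
      deriv (σf D n A0) θ * b + deriv (hf D n A0) θ + κ * area (gf D n A0) θ := by
  have hA : A0.Ok := by constructor <;> simp [A0]
  have ha := D.a0 θ
  have hφ := D.φ0 θ
  have hV := D.V0 θ
  have hV1 := D.Vle θ
  have hμ := S.μp
  have hρ := S.ρp
  have hM : 0 < M := by linarith [S.M1]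
  have hH := S.H0
  have hep := S.ep
  have he := S.e16
  have hκ0 := Y.κp
  have hb0 := Y.bp
  have hom : 0 < n.om := by
    by_contra hc
    have := mul_nonpos_of_nonpos_of_nonneg (not_lt.1 hc) hμ.le
    linarith [S.hom]
  have e2 : hd D n A0 θ = h0d D n θ := by simp [hd, A0]
  have zz := D.zone θ (σf D n A0 θ) (by
    have : σf D n A0 θ - θ = (1 - n.e) * D.α θ := by simp [σf, A0]
    rw [this, abs_mul, abs_of_nonneg (by linarith : 0 ≤ 1 - n.e), mul_left_comm]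
    exact mul_le_one₀ (by linarith) (by positivity) (D.bα θ))
  have kE : κ0 * D.V θ ≤ κ * D.E θ := by
    rw [← D.EV]
    rcases lt_trichotomy (D.E θ) 0 with h | h | h
    · have := z2 (zz.2.2 h)
      rw [abs_of_neg h]; nlinarith
    · rw [h]; simp
    · have := z1 (zz.2.1 h)
      rw [abs_of_pos h]; nlinarith
  have kE2 : κ * D.E θ * D.V θ ≤ κ1 := by
    refine (le_abs_self _).trans ?_
    rw [abs_mul, abs_mul, D.EV, abs_of_nonneg hV, mul_assoc]
    exact (mul_le_of_le_one_right (abs_nonneg _) (by nlinarith)).trans hκ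
  have E := err_bound (D := D) S Y θ
  have d1 := h0d_bound (D := D) S θ
  have d2 := h0d_lower (D := D) S θ
  have s1 : σd D n A0 θ = n.e + (1 - n.e) * D.a θ := by rw [σd_eq]; simp [A0]
  rw [(σf_d D n A0 θ).deriv, (hf_d D n A0 θ).deriv, e2, area_A0, ← normsq_A0]
  refine E.trans_lt ?_
  have g0 := sq_nonneg ‖gf D n A0 θ‖
  have gsq := normsq_A0 (D := D) (n := n) θ
  set Z := ‖gf D n A0 θ‖ ^ 2 with hZ
  set m := n.ρ * (n.ρ * M) with hm
  set t := n.e * (n.H + 1) with ht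
  have hm0 : 0 < m := by positivity
  have ht0 : 0 < t := by positivity
  have m1 : 241 * m ≤ 1 / 100 := by
    have := mul_le_mul (S.ρμ.trans S.hμ) S.hμ hμ.le (by norm_num)
    linarith
  have hε0 : 0 ≤ ε := le_trans (by have := Y.Cp; positivity) Y.hε
  have ε12 : ε ≤ 1 / 12 := by
    have := Y.ε1
    have := mul_nonneg hε0 hH.le
    linarith
  have a1 : κ0 * (m * (D.V θ * D.V θ)) - κ1 * (m * D.a θ) ≤
      κ * (m * (D.E θ * D.V θ * (1 - D.a θ))) := by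
    have c1 := mul_le_mul_of_nonneg_right kE (mul_nonneg hm0.le hV)
    have c2 := mul_le_mul_of_nonneg_right kE2 (mul_nonneg hm0.le ha)
    linarith
  have q1 : ε * (t * D.a θ) ≤ 1 / 12 * (t * D.a θ) :=
    mul_le_mul_of_nonneg_right ε12 (by positivity)
  have q2 : ε * (241 * m * D.a θ) ≤ ε * (1 / 100 * D.a θ) := by gcongr
  have q3 : 100 * ε * (m * (D.V θ * D.V θ)) ≤ κ0 * (m * (D.V θ * D.V θ)) :=
    mul_le_mul_of_nonneg_right Y.ε2 (by positivity)
  have q4 : ε * (t * (D.V θ * D.V θ)) ≤ 1 / 12 * (t * (D.V θ * D.V θ)) :=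
    mul_le_mul_of_nonneg_right ε12 (by positivity)
  have q5 : t * (D.V θ * D.V θ) ≤ κ0 * m * (D.V θ * D.V θ) :=
    mul_le_mul_of_nonneg_right Y.t3 (by positivity)
  have q6 := mul_le_mul_of_nonneg_left d1 hε0
  have q7 : 0 ≤ κ0 * (m * (D.V θ * D.V θ)) := by positivity
  by_cases hT : D.T θ = 0
  · have p0 : pd D n A0 θ = 0 := by simp [pd, hT]
    have b1 := z3 (zz.1 hT)
    have s2 : n.e + D.a θ / 2 ≤ σd D n A0 θ := by
      have := σd_lower (D := D) S hA θ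
      simpa [A0] using this
    have s3 : 0 < σd D n A0 θ := σd_pos S hA θ
    have r1 := mul_le_mul_of_nonneg_left b1 s3.le
    have r2 := mul_le_mul_of_nonneg_right Y.ε3 s3.le
    have r3 := mul_le_mul_of_nonneg_left s2 hb0.le
    have r4 := mul_le_mul_of_nonneg_right Y.t2 ha
    have r5 := mul_le_mul_of_nonneg_right Y.k2 ha
    have r6 := mul_le_mul_of_nonneg_right Y.ε3 ha
    have r7 := mul_pos hb0 hep
    have r8 := mul_nonneg hb0.le ha
    rw [hT, abs_zero, zero_mul, mul_zero, zero_add] at q6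
    rw [hT, abs_zero, zero_mul, mul_zero, zero_sub] at d2
    rw [p0, abs_zero]
    linarith
  · obtain ⟨v1, -, v2, -, -⟩ := D.Tne θ hT
    have aT : |D.T θ| = 1 := by rw [← v2, D.EV, v1]
    have p1 : |pd D n A0 θ| = n.om * (M * D.φ θ) := by
      simp only [pd, A0, one_mul, abs_mul, aT, abs_of_pos hom, abs_of_pos hM, abs_of_nonneg hφ,
        mul_one]
    have p2 : κ0 * |pd D n A0 θ| ≤ κ * pd D n A0 θ := by
      rw [p1]
      rw [v1, v2, mul_one] at kE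
      have := mul_le_mul_of_nonneg_right kE (by positivity : 0 ≤ n.om * (M * D.φ θ))
      simp only [pd, A0, one_mul]
      linarith
    have p3 := mul_le_mul_of_nonneg_left p2 g0
    have y1 : n.ρ ^ 2 ≤ Z := by
      have : yf D n A0 θ ^ 2 = n.ρ ^ 2 := by
        rw [← sq_abs]
        simp only [yf, A0, one_mul, abs_mul, D.EV, v1, mul_one, sq_abs]
      rw [gsq, this]
      linarith [sq_nonneg (xf D n A0 θ)]
    have p4 : 4 * (n.H + 2) * D.φ θ ≤ κ0 * (Z * |pd D n A0 θ|) := by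
      have c1 := mul_le_mul_of_nonneg_right Y.om hφ
      have c2 : κ0 * (n.ρ ^ 2 * |pd D n A0 θ|) ≤ κ0 * (Z * |pd D n A0 θ|) := by gcongr
      rw [p1] at c2 ⊢
      refine c1.trans (le_trans (le_of_eq ?_) c2)
      ring
    have p5 : 100 * ε * (Z * |pd D n A0 θ|) ≤ κ0 * (Z * |pd D n A0 θ|) :=
      mul_le_mul_of_nonneg_right Y.ε2 (by positivity)
    have p6 : 0 ≤ (n.H + 2) * D.φ θ := by positivity
    have p7 : ε * ((n.H + 2) * D.φ θ) ≤ 1 / 12 * ((n.H + 2) * D.φ θ) :=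
      mul_le_mul_of_nonneg_right ε12 p6
    have s2 : σd D n A0 θ ≤ n.e + D.a θ := by
      rw [s1]; nlinarith
    have s3 : 0 < σd D n A0 θ := σd_pos S hA θ
    have r1 := mul_le_mul_of_nonneg_left (abs_le.1 hb).1 s3.le
    have r2 := mul_le_mul_of_nonneg_left s2 hH.le
    have r3 := mul_le_mul_of_nonneg_left s2 hε0
    have r4 := mul_le_mul_of_nonneg_right Y.t1 ha
    have r5 := mul_le_mul_of_nonneg_right Y.k1 ha
    have r6 := mul_le_mul_of_nonneg_right Y.ε1 ha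
    have r7 := mul_le_mul_of_nonneg_right ε12 ha
    have r8 := mul_le_mul_of_nonneg_right ε12 hep.le
    have r9 : n.e + n.H * n.e = t := by rw [ht]; ring
    have r10 := mul_nonneg hH.le hep.le
    have r11 := mul_pos hκ0 hm0
    have r12 := Y.t3
    rw [aT, v1] at q6 d2
    rw [v1] at a1 q3 q4 q5 ⊢
    linarith

end BeadP
end Pool.Agent.Lib.MP_72f1d0_gt
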