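import Mathlib
import Pool.Agent.Lib.MP_72f1d0_gt.BeadProfileFinal

/-!
The bead profile: choice of the parameters, the smooth family, and rescaling to `r` zones.
-/

open scoped ContDiff Topology
open Complex (I)

namespace Pool.Agent.Lib.MP_72f1d0_gt
namespace BeadP

/-- The path of amplitudes. -/
noncomputable def Al (l : ℝ) : Amp :=
  ⟨(1 - st (3 - 4 * l)) * st (4 - 4 * l), 1 - st (3 - 4 * l),
    st (3 - 4 * l) * (1 - st (1 - 4 * l)), 1 - st (2 - 4 * l), 1 - st (4 - 4 * l),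
    st (4 - 4 * l) * (1 - st (1 - 4 * l))⟩

theorem Al_zero : Al 0 = ⟨0, 0, 0, 0, 0, 0⟩ := by
  unfold Al
  rw [st_one (y := 3 - 4 * 0) (by norm_num), st_one (y := 4 - 4 * 0) (by norm_num),
    st_one (y := 1 - 4 * 0) (by norm_num), st_one (y := 2 - 4 * 0) (by norm_num)]
  norm_num

theorem Al_one : Al 1 = A0 := by
  unfold Al A0
  rw [st_zero (y := 3 - 4 * 1) (by norm_num), st_zero (y := 4 - 4 * 1) (by norm_num),
    st_zero (y := 1 - 4 * 1) (by norm_num), st_zero (y := 2 - 4 * 1) (by norm_num)]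
  norm_num

variable {M L ρ0 : ℝ} {D : Base M L} {n : Num}

theorem adm_Al (S : Small M L ρ0 n) (l : ℝ) :
    Adm n.H (4 * (n.H + 2)) ρ0 (σf D n (Al l)) (hf D n (Al l)) (gf D n (Al l)) := by
  by_cases h1 : 3 / 4 ≤ l
  · have : Al l = ⟨st (4 - 4 * l), 1, 0, 1, 1 - st (4 - 4 * l), st (4 - 4 * l)⟩ := by
      unfold Al
      rw [st_zero (y := 3 - 4 * l) (by linarith), st_zero (y := 1 - 4 * l) (by linarith),
        st_zero (y := 2 - 4 * l) (by linarith)]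
      norm_num
    rw [this]
    exact adm1 S (st_nonneg _) (st_le_one _)
  by_cases h2 : 1 / 2 ≤ l
  · have : Al l = ⟨1 - st (3 - 4 * l), 1 - st (3 - 4 * l), 1 - (1 - st (3 - 4 * l)), 1, 0, 1⟩ := by
      unfold Al
      rw [st_one (y := 4 - 4 * l) (by linarith), st_zero (y := 1 - 4 * l) (by linarith),
        st_zero (y := 2 - 4 * l) (by linarith)]
      norm_num
    rw [this]
    exact adm23 S (by linarith [st_le_one (3 - 4 * l)]) (by linarith [st_nonneg (3 - 4 * l)])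
      zero_le_one (Or.inl rfl)
  by_cases h3 : 1 / 4 ≤ l
  · have : Al l = ⟨0, 0, 1 - 0, 1 - st (2 - 4 * l), 0, 1⟩ := by
      unfold Al
      rw [st_one (y := 4 - 4 * l) (by linarith), st_zero (y := 1 - 4 * l) (by linarith),
        st_one (y := 3 - 4 * l) (by linarith)]
      norm_num
    rw [this]
    exact adm23 S le_rfl zero_le_one (by linarith [st_le_one (2 - 4 * l)]) (Or.inr rfl)
  · have : Al l = ⟨0, 0, 1 - st (1 - 4 * l), 0, 0, 1 - st (1 - 4 * l)⟩ := by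
      unfold Al
      rw [st_one (y := 4 - 4 * l) (by linarith), st_one (y := 2 - 4 * l) (by linarith),
        st_one (y := 3 - 4 * l) (by linarith)]
      norm_num
    rw [this]
    exact adm4 S (by linarith [st_le_one (1 - 4 * l)]) (by linarith [st_nonneg (1 - 4 * l)])

theorem ofReal_smooth {f : ℝ × ℝ → ℝ} (h : ContDiff ℝ ∞ f) : ContDiff ℝ ∞ fun x => (f x : ℂ) :=
  Complex.ofRealCLM.contDiff.comp h

theorem admFam (S : Small M L ρ0 n) : AdmFam n.H (4 * (n.H + 2)) ρ0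
    (fun l => σf D n (Al l)) (fun l => hf D n (Al l)) (fun l => gf D n (Al l)) := by
  have s0 := st_smooth
  have s1 := D.sα
  have s2 := D.sk
  have s3 := D.sPh
  have s4 := D.sB
  have s5 := D.sV
  have s6 := D.sE
  refine ⟨?_, ?_, ?_, adm_Al S, fun θ => ?_, fun θ => ?_, fun θ => ?_⟩
  · simp only [σf, Al]
    fun_prop
  · simp only [hf, h0f, Al]
    fun_prop
  · have a1 : ContDiff ℝ ∞ fun x : ℝ × ℝ => lf D n (Al x.1) x.2 := by
      simp only [lf, Al]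
      fun_prop
    have a2 : ContDiff ℝ ∞ fun x : ℝ × ℝ => xf D n (Al x.1) x.2 := by
      simp only [xf, l0f, Al]
      fun_prop
    have a3 : ContDiff ℝ ∞ fun x : ℝ × ℝ => yf D n (Al x.1) x.2 := by
      simp only [yf, Al]
      fun_prop
    have a4 : ContDiff ℝ ∞ fun x : ℝ × ℝ => pf D n (Al x.1) x.2 := by
      simp only [pf, Al]
      fun_prop
    exact (ofReal_smooth a1).add (((ofReal_smooth a2).sub
      (contDiff_const.mul (ofReal_smooth a3))).mul (contDiff_const.mul (ofReal_smooth a4)).cexp)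
  · simp [Al_zero, σf]
  · simp [Al_zero, hf]
  · simp [Al_zero, gf, lf, xf, yf]

theorem ev_small (a : ℝ) {b : ℝ} (hb : 0 < b) : ∀ᶠ x in 𝓝[>] (0 : ℝ), a * x ≤ b := by
  have h : Filter.Tendsto (fun x : ℝ => a * x) (𝓝 0) (𝓝 0) := by
    have := (continuous_const_mul a).tendsto (0 : ℝ)
    rwa [mul_zero] at this
  exact (h.eventually (ge_mem_nhds hb)).filter_mono nhdsWithin_le_nhds

theorem exists_params {L : ℝ} (hB : ∀ M0 : ℝ, ∃ M : ℝ, M0 ≤ M ∧ Nonempty (Base M L))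
    {H κ0 κ1 b0 C ρ0 : ℝ} (hH : 0 < H) (hκ0 : 0 < κ0) (hb0 : 0 < b0) (hC : 0 < C)
    (hρ0 : 0 < ρ0) : ∃ (M ε : ℝ) (n : Num), n.H = H ∧ Nonempty (Base M L) ∧ Small M L ρ0 n ∧
      Tiny M n C ε κ0 κ1 b0 := by
  obtain ⟨ε, ⟨⟨e1, e2⟩, e3⟩, e0⟩ := ((((ev_small (H + 3) (by norm_num : (0 : ℝ) < 1 / 4)).and
    (ev_small 100 hκ0)).and (ev_small 8 hb0)).and self_mem_nhdsWithin).exists
  have e0 : 0 < ε := e0
  obtain ⟨M, hM, hD⟩ := hB (max (max 1 L) (max (4 * C * (H + 2) / ε) (4 * (H + 2) / ρ0)))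
  simp only [max_le_iff] at hM
  obtain ⟨⟨M1, M2⟩, M3, M4⟩ := hM
  have M0 : 0 < M := by linarith
  obtain ⟨ρ, ⟨⟨⟨⟨r1, r2⟩, r3⟩, r4⟩, r5⟩, r0⟩ :=
    ((((((ev_small M (by norm_num : (0 : ℝ) < 1 / 160)).and (ev_small (75 * M) hρ0)).and
      (ev_small (22 * C) e0)).and (ev_small (10 * |κ1|) (by norm_num : (0 : ℝ) < 1 / 4))).and
      (ev_small (10 * |κ1|) (by positivity : 0 < b0 / 16))).and self_mem_nhdsWithin).exists
  have r0 : 0 < ρ := r0
  obtain ⟨N, hN⟩ := exists_nat_ge (max (1 / (ρ * M)) (4 * (H + 2) / (κ0 * (ρ * (ρ * M)))))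
  simp only [max_le_iff] at hN
  obtain ⟨N1, N2⟩ := hN
  have N3 : (N : ℝ) ≤ 2 * Real.pi * N :=
    le_mul_of_one_le_left (Nat.cast_nonneg N) (by linarith [Real.pi_gt_three])
  obtain ⟨e, ⟨⟨⟨⟨f1, f2⟩, f3⟩, f4⟩, f5⟩, f0⟩ :=
    ((((((ev_small 1 (by positivity : 0 < ρ * M)).and (ev_small (4 * (H + 1)) hρ0)).and
      (ev_small (H + 1) (by norm_num : (0 : ℝ) < 1 / 16))).and
      (ev_small (H + 1) (by positivity : 0 < b0 / 32))).and
      (ev_small (H + 1) (by positivity : 0 < κ0 * (ρ * (ρ * M))))).and self_mem_nhdsWithin).exists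
  have f0 : 0 < e := f0
  have kk : 10 * κ1 * (ρ * (ρ * M)) ≤ 10 * |κ1| * ρ := by
    have h1 : ρ * (ρ * M) ≤ ρ := mul_le_of_le_one_right r0.le (by linarith)
    exact mul_le_mul (by linarith [le_abs_self κ1]) h1 (by positivity) (by positivity)
  refine ⟨M, ε, ⟨H, ρ, e, 2 * Real.pi * N⟩, rfl, hD,
    ⟨M1, hH, r0, f0, M2, by linarith, by linarith, ?_, fun z => ?_, ?_, by linarith⟩,
    ⟨hC, hκ0, hb0, ?_, by linarith, e2, e3, by linarith, by linarith, by linarith, by linarith,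
      by linarith, ?_⟩⟩
  · exact (div_le_iff₀ (by positivity)).1 (N1.trans N3)
  · have : 2 * Real.pi * N * z = ((N * z : ℤ) : ℝ) * (2 * Real.pi) := by push_cast; ring
    simp only [this]
    refine ⟨Real.cos_int_mul_two_pi _, ?_⟩
    rw [show ((N * z : ℤ) : ℝ) * (2 * Real.pi) = ((N * z * 2 : ℤ) : ℝ) * Real.pi by
      push_cast; ring]
    exact Real.sin_int_mul_pi _
  · have h1 := (div_le_iff₀ hρ0).1 M4
    have h2 : 2 * (H + 2) / M ≤ ρ0 / 2 := by rw [div_le_iff₀ M0]; linarith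
    simp only
    linarith
  · have h1 := (div_le_iff₀ e0).1 M3
    have h2 : C * (2 * (H + 2) / M) ≤ ε / 2 := by
      rw [← mul_div_assoc, div_le_iff₀ M0]; linarith
    simp only
    linarith
  · have h1 := (div_le_iff₀ (by positivity)).1 (N2.trans N3)
    simp only
    linarith

theorem bead_one {H κ0 κ1 b0 C ρ0 : ℝ} (hH : 0 < H) (hκ0 : 0 < κ0) (hb0 : 0 < b0) (hC : 0 < C)
    (hρ0 : 0 < ρ0) : ∃ (σ h : ℝ → ℝ → ℝ) (g : ℝ → ℝ → ℂ), AdmFam H (4 * (H + 2)) ρ0 σ h g ∧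
    ∀ θ b κ : ℝ, |b| ≤ H → |κ| ≤ κ1 →
      (1 / 10 ≤ Cz (σ 1 θ) → κ0 ≤ κ) → (Cz (σ 1 θ) ≤ -(1 / 10) → κ ≤ -κ0) →
      (|Cz (σ 1 θ)| ≤ 3 / 10 → b0 ≤ b) →
      C * err (σ 1) (h 1) (g 1) θ < deriv (σ 1) θ * b + deriv (h 1) θ + κ * area (g 1) θ := by
  obtain ⟨L, -, hB⟩ := exists_base
  obtain ⟨M, ε, n, rfl, ⟨D⟩, S, Y⟩ := exists_params (κ1 := κ1) hB hH hκ0 hb0 hC hρ0
  refine ⟨_, _, _, admFam (D := D) S, ?_⟩
  simp only [Al_one]
  exact final_ineq S Y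

section scale

variable {E : Type*} [NormedAddCommGroup E] [NormedSpace ℝ E]

/-- Rescaling of a profile. -/
noncomputable def sc (r : ℝ) (f : ℝ → E) (θ : ℝ) : E := r⁻¹ • f (r * θ)

theorem sc_deriv {r : ℝ} (hr : r ≠ 0) {f : ℝ → E} (hf : Differentiable ℝ f) (θ : ℝ) :
    deriv (sc r f) θ = deriv f (r * θ) := by
  have h := ((hf (r * θ)).hasDerivAt.scomp θ ((hasDerivAt_id θ).const_mul r)).const_smul r⁻¹
  have h2 : HasDerivAt (sc r f) (deriv f (r * θ)) θ := by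
    refine HasDerivAt.congr_deriv h ?_
    rw [mul_one, smul_smul, inv_mul_cancel₀ hr, one_smul]
  exact h2.deriv

theorem sc_norm {r : ℝ} (hr : 1 ≤ r) (f : ℝ → E) (θ : ℝ) : ‖sc r f θ‖ ≤ ‖f (r * θ)‖ := by
  rw [sc, norm_smul, Real.norm_eq_abs, abs_of_pos (by positivity)]
  exact mul_le_of_le_one_left (norm_nonneg _) (inv_le_one_of_one_le₀ hr)

theorem per_nat {f : ℝ → E} {c : E} (h : ∀ θ, f (θ + 1) = f θ + c) (r : ℕ) (θ : ℝ) :
    f (θ + r) = f θ + (r : ℝ) • c := by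
  induction r with
  | zero => simp
  | succ k ih => rw [Nat.cast_succ, ← add_assoc, h, ih, add_smul, one_smul, add_assoc]

theorem slice_diff {f : ℝ → ℝ → E} (h : ContDiff ℝ ∞ fun x : ℝ × ℝ => f x.1 x.2) (l : ℝ) :
    Differentiable ℝ (f l) :=
  (h.comp (contDiff_const.prodMk contDiff_id)).differentiable (by simp)

theorem sc_smooth (r : ℝ) {f : ℝ → ℝ → E} (h : ContDiff ℝ ∞ fun x : ℝ × ℝ => f x.1 x.2) :
    ContDiff ℝ ∞ fun x : ℝ × ℝ => sc r (f x.1) x.2 :=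
  (h.comp (contDiff_fst.prodMk (contDiff_const.mul contDiff_snd))).const_smul r⁻¹

end scale

theorem sc_area {r : ℝ} (hr : r ≠ 0) {g : ℝ → ℂ} (hg : Differentiable ℝ g) (θ : ℝ) :
    area (sc r g) θ = r⁻¹ * area g (r * θ) := by
  rw [area, area, sc_deriv hr hg, sc]
  simp
  ring

theorem adm_sc {H Ca ρ : ℝ} {σ h : ℝ → ℝ} {g : ℝ → ℂ} (A : Adm H Ca ρ σ h g)
    (d1 : Differentiable ℝ σ) (d2 : Differentiable ℝ h) (d3 : Differentiable ℝ g)
    {r : ℕ} (hr : 1 ≤ r) : Adm H Ca ρ (sc r σ) (sc r h) (sc r g) := by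
  have r1 : (1 : ℝ) ≤ r := by exact_mod_cast hr
  have r0 : (0 : ℝ) < r := by linarith
  refine ⟨fun θ => ?_, fun θ => ?_, fun θ => ?_, fun θ => ?_, fun θ => ?_, fun θ => ?_,
    fun θ => ?_, fun θ θ' hθ => ?_⟩
  · rw [sc, sc, mul_add, mul_one, per_nat A.perσ]
    simp only [smul_eq_mul]
    field_simp
  · rw [sc, sc, mul_add, mul_one, per_nat (f := h) (c := 0) (by simpa using A.perh)]
    simp
  · rw [sc, sc, mul_add, mul_one, per_nat (f := g) (c := 0) (by simpa using A.perg)]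
    simp
  · rw [sc_deriv r0.ne' d1]; exact A.pos _
  · exact ⟨(sc_norm r1 h θ).trans (A.small _).1, (sc_norm r1 g θ).trans (A.small _).2⟩
  · rw [sc_deriv r0.ne' d1, sc_deriv r0.ne' d3]; exact A.speed _
  · rw [sc_deriv r0.ne' d1, sc_deriv r0.ne' d2, sc_deriv r0.ne' d3]; exact A.slope _
  · have hi : 0 ≤ (r : ℝ)⁻¹ := by positivity
    rcases A.pairs (r * θ) (r * θ') (mul_lt_mul_of_pos_left hθ r0) with p | p
    · left
      have := mul_le_mul_of_nonneg_left p hi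
      simp only [sc, smul_eq_mul, Complex.smul_re]
      linarith
    · right
      have := mul_le_mul_of_nonneg_left p hi
      simp only [sc, smul_eq_mul]
      linarith

end BeadP

open BeadP in
theorem beadProfile : BeadProfileStmt := by
  intro r hr H κ0 κ1 b0 hH hκ0 hκ1 hb0
  have r1 : (1 : ℝ) ≤ r := by exact_mod_cast hr
  have r0 : (0 : ℝ) < r := by linarith
  refine ⟨4 * (H + 2), by positivity, fun C ρ hC hρ => ?_⟩
  obtain ⟨σ, h, g, F, hF⟩ := bead_one (κ0 := (r : ℝ)⁻¹ * κ0) (κ1 := κ1) hH (by positivity) hb0 hC hρ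
  have d1 := slice_diff F.sσ
  have d2 := slice_diff F.sh
  have d3 := slice_diff F.sg
  refine ⟨fun l => sc r (σ l), fun l => sc r (h l), fun l => sc r (g l),
    ⟨sc_smooth r F.sσ, sc_smooth r F.sh, sc_smooth r F.sg,
      fun l => adm_sc (F.adm l) (d1 l) (d2 l) (d3 l) hr, fun θ => ?_, fun θ => ?_, fun θ => ?_⟩,
    fun θ b κ hb hκ z1 z2 z3 => ?_⟩
  · rw [sc, F.σ0, smul_eq_mul, inv_mul_cancel_left₀ r0.ne']
  · rw [sc, F.h0, smul_zero]
  · rw [sc, F.g0, smul_zero]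
  have hi : 0 ≤ (r : ℝ)⁻¹ := by positivity
  have hi1 : (r : ℝ)⁻¹ ≤ 1 := inv_le_one_of_one_le₀ r1
  have hc : cc r (sc r (σ 1) θ) = Cz (σ 1 (r * θ)) := by
    rw [cc, Cz, sc, smul_eq_mul, mul_assoc, mul_inv_cancel_left₀ r0.ne']
  simp only [hc] at z1 z2 z3
  have key := hF (r * θ) b ((r : ℝ)⁻¹ * κ) hb
    (by rw [abs_mul, abs_of_nonneg hi]
        exact (mul_le_of_le_one_left (abs_nonneg _) hi1).trans hκ)
    (fun x => mul_le_mul_of_nonneg_left (z1 x) hi)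
    (fun x => by have := mul_le_mul_of_nonneg_left (z2 x) hi; linarith) z3
  have e1 : err (sc r (σ 1)) (sc r (h 1)) (sc r (g 1)) θ ≤ err (σ 1) (h 1) (g 1) (r * θ) := by
    rw [err, err, sc_deriv r0.ne' (d1 1), sc_deriv r0.ne' (d2 1), sc_deriv r0.ne' (d3 1),
      sc_area r0.ne' (d3 1), abs_mul, abs_of_nonneg hi]
    have a1 : |sc r (h 1) θ| ≤ |h 1 (r * θ)| := sc_norm r1 (h 1) θ
    have a2 := sc_norm r1 (g 1) θ
    have a3 := mul_le_of_le_one_left (abs_nonneg (area (g 1) (r * θ))) hi1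
    have a4 := ((F.adm 1).pos (r * θ)).le
    gcongr
  rw [sc_deriv r0.ne' (d1 1), sc_deriv r0.ne' (d2 1), sc_area r0.ne' (d3 1)]
  have := mul_le_mul_of_nonneg_left e1 hC.le
  linarith

end Pool.Agent.Lib.MP_72f1d0_gt
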