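import Pool.Agent.Lib.MP_72f1d0_gt.BumpAlg

/-!
The helix.
-/

open scoped ContDiff

namespace Pool.Agent.Lib.MP_72f1d0_gt

namespace Bump

noncomputable section

/-! Periodic functions. -/

lemma exists_red (q : Q) :
    ∃ m : ℤ × ℤ, q + lat m ∈ Set.Icc ((0, 0) : Q) (1, 1) := by
  refine ⟨(-⌊q.1⌋, -⌊q.2⌋), ?_⟩
  have h1 := Int.floor_le q.1
  have h2 := Int.floor_le q.2
  have h3 := Int.lt_floor_add_one q.1
  have h4 := Int.lt_floor_add_one q.2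
  simp only [lat, Set.mem_Icc, Prod.le_def, Prod.fst_add, Prod.snd_add, Int.cast_neg]
  refine ⟨⟨?_, ?_⟩, ?_, ?_⟩ <;> linarith

lemma per_bdd {E : Type*} [NormedAddCommGroup E] {g : Q → E} (hc : Continuous g) (hp : Per g) :
    ∃ B : ℝ, 1 ≤ B ∧ ∀ q, ‖g q‖ ≤ B := by
  obtain ⟨B, hB⟩ := (isCompact_Icc (a := ((0, 0) : Q)) (b := (1, 1))).exists_bound_of_continuousOn
    hc.continuousOn
  refine ⟨max B 1, le_max_right _ _, fun q => ?_⟩
  obtain ⟨m, hm⟩ := exists_red q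
  rw [← hp q m]
  exact (hB _ hm).trans (le_max_left _ _)

lemma per_pos {g : Q → ℝ} (hc : Continuous g) (hp : Per g) {K : Set Q} (hK : IsClosed K)
    (hpK : PerSet K) (hpos : ∀ q ∈ K, 0 < g q) : ∃ δ : ℝ, 0 < δ ∧ ∀ q ∈ K, δ ≤ g q := by
  obtain ⟨δ, h1, h2⟩ := ((isCompact_Icc (a := ((0, 0) : Q)) (b := (1, 1))).inter_left
    hK).exists_forall_le' hc.continuousOn (a := 0) fun q hq => hpos q hq.1
  refine ⟨δ, h1, fun q hq => ?_⟩
  obtain ⟨m, hm⟩ := exists_red q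
  rw [← hp q m]
  exact h2 _ ⟨hpK q m hq, hm⟩

lemma fderiv_shift {E F : Type*} [NormedAddCommGroup E] [NormedSpace ℝ E] [NormedAddCommGroup F]
    [NormedSpace ℝ F] {g : E → F} {a : E} {k : F} (h : ∀ x, g (x + a) = g x + k) (x : E) :
    fderiv ℝ g (x + a) = fderiv ℝ g x := by
  rw [← fderiv_comp_add_right]
  simp only [h]
  exact fderiv_add_const k

lemma dd_cont {c : Ctx} {f : Q → G} (hf : IsEmb c f) : Continuous (dd c f) := by
  have h1 : Continuous fun q => c.om (f q) := c.om_smooth.continuous.comp hf.smooth.continuous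
  have h2 : Continuous (fderiv ℝ f) := hf.smooth.continuous_fderiv (by simp)
  unfold dd
  fun_prop

lemma dl_cont : Continuous dl := by unfold dl; fun_prop

lemma al_cont : Continuous al := by unfold al; fun_prop

lemma dd_per {c : Ctx} {f : Q → G} (hf : IsEmb c f) : Per (dd c f) := by
  intro q m
  unfold dd
  rw [fderiv_shift (fun x => hf.equi x m), hf.equi, c.om_per]

lemma ap_dd (c : Ctx) (f : Q → G) (q v : Q) :
    ap (dd c f q) v = c.om (f q) (fderiv ℝ f q v) := by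
  have hv : v = v.1 • ((1, 0) : Q) + v.2 • ((0, 1) : Q) := by ext <;> simp
  conv_rhs => rw [hv]
  simp only [ap, dd, map_add, map_smul]

/-- The bracket as a bilinear map. -/
def brL (c : Ctx) (p : G) : G →ₗ[ℝ] G →ₗ[ℝ] G :=
  LinearMap.mk₂ ℝ (c.br p)
    (fun A B D => by simp only [Ctx.br, brk, map_add, ContinuousLinearMap.add_apply]; abel)
    (fun r A B => by
      simp only [Ctx.br, brk, map_smul, ContinuousLinearMap.smul_apply, smul_sub])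
    (fun A B D => by simp only [Ctx.br, brk, map_add, ContinuousLinearMap.add_apply]; abel)
    (fun r A B => by
      simp only [Ctx.br, brk, map_smul, ContinuousLinearMap.smul_apply, smul_sub])

lemma brL_apply (c : Ctx) (p A B : G) : brL c p A B = c.br p A B := rfl

lemma lin_bdd {E : Type*} [NormedAddCommGroup E] [NormedSpace ℝ E] (L : G →ₗ[ℝ] E) {B : ℝ}
    (h1 : ‖L vX‖ ≤ B) (h2 : ‖L vW‖ ≤ B) (h3 : ‖L vR‖ ≤ B) (h4 : ‖L vZ‖ ≤ B) (A : G) :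
    ‖L A‖ ≤ 4 * B * ‖A‖ := by
  have hA : A = A.1.re • vX + A.1.im • vW + A.2.re • vR + A.2.im • vZ := by
    ext <;> simp [vX, vW, vR, vZ]
  have a1 : |A.1.re| ≤ ‖A‖ := (Complex.abs_re_le_norm _).trans (norm_fst_le A)
  have a2 : |A.1.im| ≤ ‖A‖ := (Complex.abs_im_le_norm _).trans (norm_fst_le A)
  have a3 : |A.2.re| ≤ ‖A‖ := (Complex.abs_re_le_norm _).trans (norm_snd_le A)
  have a4 : |A.2.im| ≤ ‖A‖ := (Complex.abs_im_le_norm _).trans (norm_snd_le A)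
  have key : ∀ (r : ℝ) (V : G), |r| ≤ ‖A‖ → ‖L V‖ ≤ B → ‖r • L V‖ ≤ ‖A‖ * B := by
    intro r V hr hV
    rw [norm_smul, Real.norm_eq_abs]
    gcongr
  have e : L A = A.1.re • L vX + A.1.im • L vW + A.2.re • L vR + A.2.im • L vZ := by
    conv_lhs => rw [hA]
    simp only [map_add, map_smul]
  rw [e]
  refine (norm_add_le _ _).trans ?_
  refine (add_le_add norm_add₃_le le_rfl).trans ?_
  linarith [key _ _ a1 h1, key _ _ a2 h2, key _ _ a3 h3, key _ _ a4 h4]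

lemma br_bdd {c : Ctx} {f : Q → G} (hf : IsEmb c f) :
    ∃ C : ℝ, ∀ q A B, ‖c.br (f q) A B‖ ≤ C * ‖A‖ * ‖B‖ := by
  have h0 : ∀ A B : G, ∃ C : ℝ, ∀ q, ‖c.br (f q) A B‖ ≤ C := by
    intro A B
    have h1 : Continuous fun q => fderiv ℝ c.om (f q) :=
      (c.om_smooth.continuous_fderiv (by simp)).comp hf.smooth.continuous
    have h2 : Continuous fun q => c.e (f q) := c.e_smooth.continuous.comp hf.smooth.continuous
    have h3 : ∀ A B : G, Continuous fun q => fderiv ℝ c.om (f q) (c.e (f q) A) (c.e (f q) B) :=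
      fun A B => (h1.clm_apply (h2.clm_apply continuous_const)).clm_apply
        (h2.clm_apply continuous_const)
    obtain ⟨C, -, hC⟩ := per_bdd (g := fun q => c.br (f q) A B) ((h3 A B).sub (h3 B A))
      fun q m => by
        simp only [hf.equi, Ctx.br, brk, c.e_per]
        rw [fderiv_shift (k := 0) (fun x => by rw [c.om_per, add_zero])]
    exact ⟨C, hC⟩
  have h1 : ∀ A : G, ∃ C : ℝ, ∀ q B, ‖c.br (f q) A B‖ ≤ C * ‖B‖ := by
    intro A
    obtain ⟨C1, k1⟩ := h0 A vX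
    obtain ⟨C2, k2⟩ := h0 A vW
    obtain ⟨C3, k3⟩ := h0 A vR
    obtain ⟨C4, k4⟩ := h0 A vZ
    refine ⟨4 * max (max C1 C2) (max C3 C4), fun q B => lin_bdd (brL c (f q) A) ?_ ?_ ?_ ?_ B⟩
    · exact (k1 q).trans (by simp)
    · exact (k2 q).trans (by simp)
    · exact (k3 q).trans (by simp)
    · exact (k4 q).trans (by simp)
  obtain ⟨C1, k1⟩ := h1 vX
  obtain ⟨C2, k2⟩ := h1 vW
  obtain ⟨C3, k3⟩ := h1 vR
  obtain ⟨C4, k4⟩ := h1 vZ
  refine ⟨4 * max (max C1 C2) (max C3 C4), fun q A B => ?_⟩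
  have h := lin_bdd ((brL c (f q)).flip B) (B := max (max C1 C2) (max C3 C4) * ‖B‖)
    ((k1 q B).trans (by gcongr; simp)) ((k2 q B).trans (by gcongr; simp))
    ((k3 q B).trans (by gcongr; simp)) ((k4 q B).trans (by gcongr; simp)) A
  refine le_trans h (le_of_eq (by ring))

lemma hda_of_eq {F : Type*} [NormedAddCommGroup F] [NormedSpace ℝ F] {f g : ℝ → F} {f' g' : F}
    {x : ℝ} (h : HasDerivAt f f' x) (h1 : ∀ s, g s = f s) (h2 : g' = f') :
    HasDerivAt g g' x := by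
  obtain rfl : g = f := funext h1
  exact h2 ▸ h

/-! The displacement. -/

def Th (f : Q → G) (t : Q → Tri) (sg : ℝ) (x : Q × (ℂ × ℝ)) : G × G :=
  (f x.1, wt (t x.1) sg x.2.1 x.2.2)

lemma al_smooth {X : Type*} [NormedAddCommGroup X] [NormedSpace ℝ X] {g : X → G}
    (hg : ContDiff ℝ ∞ g) : ContDiff ℝ ∞ fun x => al (g x) :=
  Complex.reCLM.contDiff.comp hg.snd

lemma Pc_smooth {X : Type*} [NormedAddCommGroup X] [NormedSpace ℝ X] {t : X → Tri}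
    (ht : ∀ A B D, ContDiff ℝ ∞ fun x => t x A B D) {w : X → ℂ} (hw : ContDiff ℝ ∞ w) :
    ContDiff ℝ ∞ fun x => Pc (t x) (w x) := by
  have h : ∀ A B D, ContDiff ℝ ∞ fun x => al (t x A B D) := fun A B D => al_smooth (ht A B D)
  have hx : ContDiff ℝ ∞ fun x => (w x).re := Complex.reCLM.contDiff.comp hw
  have hy : ContDiff ℝ ∞ fun x => (w x).im := Complex.imCLM.contDiff.comp hw
  have hA : ContDiff ℝ ∞ fun x => cA (t x) := h _ _ _
  have hB : ContDiff ℝ ∞ fun x => cB (t x) := ((h _ _ _).neg.add (h _ _ _)).add (h _ _ _)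
  have hC : ContDiff ℝ ∞ fun x => cC (t x) := ((h _ _ _).neg.sub (h _ _ _)).add (h _ _ _)
  have hD : ContDiff ℝ ∞ fun x => cD (t x) := (h _ _ _).neg
  unfold Pc
  fun_prop

lemma ofReal_smooth {X : Type*} [NormedAddCommGroup X] [NormedSpace ℝ X] {g : X → ℝ}
    (hg : ContDiff ℝ ∞ g) : ContDiff ℝ ∞ fun x => (g x : ℂ) :=
  Complex.ofRealCLM.contDiff.comp hg

lemma Th_smooth {f : Q → G} (hf : ContDiff ℝ ∞ f) {t : Q → Tri}
    (ht : ∀ A B D, ContDiff ℝ ∞ fun q => t q A B D) (sg : ℝ) : ContDiff ℝ ∞ (Th f t sg) := by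
  have hw : ContDiff ℝ ∞ fun x : Q × (ℂ × ℝ) => x.2.1 := by fun_prop
  have h1 : ContDiff ℝ ∞ fun x : Q × (ℂ × ℝ) => Pc (t x.1) x.2.1 :=
    Pc_smooth (fun A B D => (ht A B D).comp contDiff_fst) hw
  have hy : ContDiff ℝ ∞ fun x : Q × (ℂ × ℝ) => x.2.1.im := Complex.imCLM.contDiff.comp hw
  have h2 : ContDiff ℝ ∞ fun x : Q × (ℂ × ℝ) => sg / 4 * x.2.2 * x.2.1.im := by fun_prop
  exact (hf.comp contDiff_fst).prodMk
    (hw.prodMk ((ofReal_smooth h1).add (contDiff_const.mul (ofReal_smooth h2))))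

lemma fderiv_eq_of_line {E F : Type*} [NormedAddCommGroup E] [NormedSpace ℝ E]
    [NormedAddCommGroup F] [NormedSpace ℝ F] {g : E → F} {x d : E} {y : F}
    (hg : DifferentiableAt ℝ g x) (h : HasDerivAt (fun s : ℝ => g (x + s • d)) y 0) :
    fderiv ℝ g x d = y := by
  have h1 : HasDerivAt (fun s : ℝ => x + s • d) d 0 := by
    simpa using ((hasDerivAt_id (0 : ℝ)).smul_const d).const_add x
  have h2 : HasFDerivAt g (fderiv ℝ g x) (x + (0 : ℝ) • d) := by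
    simpa using hg.hasFDerivAt
  exact (h2.comp_hasDerivAt 0 h1).unique h

lemma line_der {E F : Type*} [NormedAddCommGroup E] [NormedSpace ℝ E]
    [NormedAddCommGroup F] [NormedSpace ℝ F] {g : E → F} {x : E} (d : E)
    (hg : DifferentiableAt ℝ g x) :
    HasDerivAt (fun s : ℝ => g (x + s • d)) (fderiv ℝ g x d) 0 := by
  have h1 : HasDerivAt (fun s : ℝ => x + s • d) d 0 := by
    simpa using ((hasDerivAt_id (0 : ℝ)).smul_const d).const_add x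
  have h2 : HasFDerivAt g (fderiv ℝ g x) (x + (0 : ℝ) • d) := by
    simpa using hg.hasFDerivAt
  exact h2.comp_hasDerivAt 0 h1

lemma Pc_smul (t : Tri) (s : ℝ) (w : ℂ) : Pc t (s • w) = s ^ 3 * Pc t w := by
  simp only [Pc, Complex.smul_re, Complex.smul_im, smul_eq_mul]
  ring

lemma Th_der0 {f : Q → G} (hf : ContDiff ℝ ∞ f) {t : Q → Tri}
    (ht : ∀ A B D, ContDiff ℝ ∞ fun q => t q A B D) (sg : ℝ) (q v : Q) (dw : ℂ) (da : ℝ) :
    fderiv ℝ (Th f t sg) (q, 0) (v, (dw, da)) = (fderiv ℝ f q v, (dw, 0)) := by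
  apply fderiv_eq_of_line ((Th_smooth hf ht sg).differentiable (by simp) _)
  have h1 := line_der v (hf.differentiable (by simp) q)
  have h2 : HasDerivAt (fun s : ℝ => s • dw) dw 0 := by
    simpa using (hasDerivAt_id (0 : ℝ)).smul_const dw
  have hP : ContDiff ℝ ∞ fun s : ℝ => Pc (t (q + s • v)) dw :=
    Pc_smooth (fun A B D => (ht A B D).comp (by fun_prop)) contDiff_const
  have hγ : ContDiff ℝ ∞ fun s : ℝ => ((s ^ 2 * Pc (t (q + s • v)) dw : ℝ) : ℂ) +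
      Complex.I * ((s * (sg / 4 * da * dw.im) : ℝ) : ℂ) :=
    (ofReal_smooth (by fun_prop)).add (contDiff_const.mul (ofReal_smooth (by fun_prop)))
  have h3 := (hasDerivAt_id (0 : ℝ)).smul (hγ.differentiable (by simp) 0).hasDerivAt
  have h4 := h1.prodMk (h2.prodMk h3)
  refine hda_of_eq h4 (fun s => ?_) ?_
  · simp only [Th, wt, Prod.mk_add_mk, Prod.smul_mk, zero_add,
      Pc_smul, Complex.smul_im, smul_eq_mul, id, Pi.smul_apply']
    congr 2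
    rw [Complex.real_smul]
    push_cast
    ring
  · simp

lemma Th_derθ {f : Q → G} (hf : ContDiff ℝ ∞ f) {t : Q → Tri}
    (ht : ∀ A B D, ContDiff ℝ ∞ fun q => t q A B D) (sg : ℝ) (q : Q) (w : ℂ) (a : ℝ) :
    fderiv ℝ (Th f t sg) (q, (w, a)) (0, (Complex.I * w, 0)) = (0, wt' (t q) sg w a) := by
  apply fderiv_eq_of_line ((Th_smooth hf ht sg).differentiable (by simp) _)
  have h2 : HasDerivAt (fun s : ℝ => w + s • (Complex.I * w)) (Complex.I * w) 0 := by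
    simpa using ((hasDerivAt_id (0 : ℝ)).smul_const (Complex.I * w)).const_add w
  have hx : HasDerivAt (fun s : ℝ => w.re - s * w.im) (-w.im) 0 := by
    simpa using ((hasDerivAt_id (0 : ℝ)).mul_const w.im).const_sub w.re
  have hy : HasDerivAt (fun s : ℝ => w.im + s * w.re) w.re 0 := by
    simpa using ((hasDerivAt_id (0 : ℝ)).mul_const w.re).const_add w.im
  have hP : HasDerivAt (fun s : ℝ => Pc (t q) (w + s • (Complex.I * w))) (-Tc (t q) w) 0 := by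
    have h := ((((hx.fun_pow 3).const_mul ((2 * cD (t q) + cB (t q)) / 3)).fun_sub
      (((hx.fun_pow 2).const_mul (cA (t q))).fun_mul hy)).fun_add
      ((hx.const_mul (cD (t q))).fun_mul (hy.fun_pow 2))).fun_sub
      ((hy.fun_pow 3).const_mul ((cC (t q) + 2 * cA (t q)) / 3))
    refine hda_of_eq h (fun s => ?_) ?_
    · simp [Pc, sub_eq_add_neg]
    · rw [Tc_eq]
      simp
      ring
  have hz := hy.const_mul (sg / 4 * a)
  have h4 := (hasDerivAt_const (0 : ℝ) (f q)).prodMk (h2.prodMk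
    (hP.ofReal_comp.fun_add (hz.ofReal_comp.const_mul Complex.I)))
  refine hda_of_eq h4 (fun s => ?_) rfl
  simp [Th, wt]

lemma AA_comp {X Y : Type*} [NormedAddCommGroup X] [NormedSpace ℝ X] [NormedAddCommGroup Y]
    [NormedSpace ℝ Y] (c : Ctx) {Ψ : Y → G} {T : X → Y} (hΨ : ContDiff ℝ ∞ Ψ)
    (hT : ContDiff ℝ ∞ T) (x d : X) :
    AA c (fun y => Ψ (T y)) x d = AA c Ψ (T x) (fderiv ℝ T x d) := by
  unfold AA
  rw [fderiv_fun_comp x (hΨ.differentiable (by simp) _) (hT.differentiable (by simp) _)]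
  rfl

/-! The helix. -/

def hel (a : Q → ℝ) (ℓ : Q →L[ℝ] ℝ) (q : Q) : Q × (ℂ × ℝ) :=
  (q, ((a q : ℂ) * Complex.exp (ℓ q * Complex.I), a q))

lemma hel_smooth {X : Type*} [NormedAddCommGroup X] [NormedSpace ℝ X] {a : X → Q → ℝ}
    {q : X → Q} (ha : ContDiff ℝ ∞ fun x => a x (q x)) (hq : ContDiff ℝ ∞ q) (ℓ : Q →L[ℝ] ℝ) :
    ContDiff ℝ ∞ fun x => hel (a x) ℓ (q x) :=
  hq.prodMk (((ofReal_smooth ha).mul
    ((ofReal_smooth (ℓ.contDiff.comp hq)).mul contDiff_const).cexp).prodMk ha)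

lemma hel_der {a : Q → ℝ} (ha : ContDiff ℝ ∞ a) (ℓ : Q →L[ℝ] ℝ) (q v : Q) :
    fderiv ℝ (hel a ℓ) q v =
      (v, ((fderiv ℝ a q v : ℂ) * Complex.exp (ℓ q * Complex.I), fderiv ℝ a q v)) +
        ℓ v • (0, (Complex.I * (hel a ℓ q).2.1, 0)) := by
  apply fderiv_eq_of_line
    ((hel_smooth (a := fun _ => a) ha contDiff_id ℓ).differentiable (by simp) _)
  have h1 : HasDerivAt (fun s : ℝ => q + s • v) v 0 := by
    simpa using ((hasDerivAt_id (0 : ℝ)).smul_const v).const_add q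
  have h2 := line_der v (ha.differentiable (by simp) q)
  have h3 : HasDerivAt (fun s : ℝ => ℓ (q + s • v)) (ℓ v) 0 := by
    simpa using line_der v (ℓ.differentiableAt (x := q))
  have h4 := h1.prodMk ((h2.ofReal_comp.fun_mul
    (h3.ofReal_comp.mul_const Complex.I).cexp).prodMk h2)
  refine hda_of_eq h4 (fun s => rfl) ?_
  simp [hel]
  ring

lemma norm_hel (a : Q → ℝ) (ℓ : Q →L[ℝ] ℝ) (q : Q) (h : 0 ≤ a q) : ‖(hel a ℓ q).2.1‖ = a q := by
  simp [hel, Complex.norm_exp_ofReal_mul_I, abs_of_nonneg h]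

/-- The displacement map of the helix. -/
lemma exists_Phi (hP : PsiStmt) {c : Ctx} {f : Q → G} (hf : IsEmb c f) {sg : ℝ}
    (hsg : sg = 1 ∨ sg = -1) :
    ∃ Φ : Q × (ℂ × ℝ) → G, ContDiff ℝ ∞ Φ ∧
      (∀ q m v, Φ (q + lat m, v) = Φ (q, v) + c.i (lat m)) ∧ (∀ q, Φ (q, 0) = f q) ∧
      (∀ q v dw da, AA c Φ (q, 0) (v, (dw, da)) = ap (dd c f q) v + (dw, 0)) ∧
      ∃ a1 : ℝ, 0 < a1 ∧ ∀ q w a, ‖w‖ = a → a ≤ a1 →
        |(AA c Φ (q, (w, a)) (0, (Complex.I * w, 0))).2.re + sg * a ^ 3 / 8| ≤ a ^ 3 / 16 ∧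
        a ^ 2 / 8 ≤ (AA c Φ (q, (w, a)) (0, (Complex.I * w, 0))).2.im ∧
        (AA c Φ (q, (w, a)) (0, (Complex.I * w, 0))).2.im ≤ a ^ 2 := by
  obtain ⟨Ψ, C3, sΨ, sC3, pΨ, pC3, Ψ0, hR⟩ := hP c
  obtain ⟨R, -, hRb⟩ := per_bdd (g := fun q => f q - c.i q)
    (hf.smooth.continuous.sub c.i.continuous) fun q m => by
      simp only [hf.equi, map_add]; abel
  obtain ⟨C0, C00, hC0⟩ := hR R
  obtain ⟨Cb, hCb⟩ := br_bdd hf
  have ht : ∀ A B D, ContDiff ℝ ∞ fun q => C3 (f q) A B D := fun A B D =>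
    (sC3 A B D).comp hf.smooth
  have sT := Th_smooth hf.smooth ht sg
  have T0 : ∀ q, Th f (fun q => C3 (f q)) sg (q, 0) = (f q, 0) := fun q => by
    simp [Th, wt, Pc]
  refine ⟨fun x => Ψ (Th f (fun q => C3 (f q)) sg x), sΨ.comp sT, fun q m v => ?_,
    fun q => by simp only [T0, Ψ0], fun q v dw da => ?_, ?_⟩
  · simp only [Th, hf.equi, pC3, pΨ]
  · rw [AA_comp c sΨ sT, Th_der0 hf.smooth ht, T0, ap_dd]
    have h := ((hC0 (f q) ⟨q, hRb q⟩).2 0 (by simp)).1 (c.om (f q) (fderiv ℝ f q v)) (dw, 0)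
    rw [c.e_om, ← brL_apply, ← brL_apply] at h
    simpa [sub_eq_zero] using h
  · obtain ⟨C, hC⟩ : ∃ C : ℝ, C = max 1 (max C0 Cb) := ⟨_, rfl⟩
    have C1 : 1 ≤ C := by rw [hC]; simp
    have C2 : C0 ≤ C := by rw [hC]; simp
    have C4 : Cb ≤ C := by rw [hC]; simp
    refine ⟨1 / (1000 * C ^ 2), by positivity, fun q w a ha h1 => ?_⟩
    have hs : 1000 * C ^ 2 * a ≤ 1 := by
      rw [le_div_iff₀ (by positivity)] at h1; linarith
    have htb : ∀ A B D : G, ‖C3 (f q) A B D‖ ≤ C * ‖A‖ * ‖B‖ * ‖D‖ := fun A B D =>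
      ((hC0 (f q) ⟨q, hRb q⟩).1 A B D).trans (by gcongr)
    have hbb : ∀ A B : G, ‖brL c (f q) A B‖ ≤ C * ‖A‖ * ‖B‖ := fun A B =>
      (hCb q A B).trans (by gcongr)
    have a0 : 0 ≤ a := ha ▸ norm_nonneg w
    have nw : ‖wt (C3 (f q)) sg w a‖ ≤ 1 := by
      refine (norm_wt_le C1 htb hsg ha hs).trans ?_
      nlinarith [mul_nonneg (sub_nonneg.mpr C1) a0]
    rw [AA_comp c sΨ sT, Th_derθ hf.smooth ht]
    refine fast C1 hbb htb (fun A B => ?_) (c.brXW _) (c.brXZ _) hsg ha hs ?_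
    · simp only [brL_apply, Ctx.br, brk, neg_sub]
    · exact (((hC0 (f q) ⟨q, hRb q⟩).2 _ nw).2 _).trans (by gcongr)

lemma step {c : Ctx} {f : Q → G} {Φ : Q × (ℂ × ℝ) → G} (sΦ : ContDiff ℝ ∞ Φ)
    (L0 : ∀ q v dw da, AA c Φ (q, 0) (v, (dw, da)) = ap (dd c f q) v + (dw, 0)) {κ : ℝ}
    {a : Q → ℝ} (sa : ContDiff ℝ ∞ a) (ℓ : Q →L[ℝ] ℝ) (q : Q) (da : ‖fderiv ℝ a q‖ ≤ 1)
    (hκ : ‖AA c Φ (hel a ℓ q) - AA c Φ (q, 0)‖ ≤ κ) (v : Q) (hv : ‖v‖ = 1) :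
    ∃ S : ℂ, ‖S - (ap (dd c f q) v).2‖ ≤ κ ∧ (AA c (fun q => Φ (hel a ℓ q)) q v).2 =
      S + ℓ v • (AA c Φ (hel a ℓ q) (0, (Complex.I * (hel a ℓ q).2.1, 0))).2 := by
  rw [AA_comp c sΦ (hel_smooth (a := fun _ => a) sa contDiff_id ℓ), hel_der sa, map_add, map_smul]
  refine ⟨_, ?_, rfl⟩
  have h1 : ‖fderiv ℝ a q v‖ ≤ 1 := by
    have := (fderiv ℝ a q).le_of_opNorm_le da v
    rwa [hv, mul_one] at this
  generalize fderiv ℝ a q v = r at h1
  have h2 : ‖((v, ((r : ℂ) * Complex.exp (ℓ q * Complex.I), r)) : Q × (ℂ × ℝ))‖ ≤ 1 := by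
    refine norm_prod_le_iff.mpr ⟨hv.le, norm_prod_le_iff.mpr ⟨?_, h1⟩⟩
    rw [norm_mul, Complex.norm_exp_ofReal_mul_I, mul_one, Complex.norm_real]
    exact h1
  have h3 := (AA c Φ (hel a ℓ q) - AA c Φ (q, 0)).le_of_opNorm_le hκ
    (v, ((r : ℂ) * Complex.exp (ℓ q * Complex.I), r))
  have κ0 : 0 ≤ κ := (norm_nonneg _).trans hκ
  have h4 := (norm_snd_le _).trans (h3.trans (mul_le_of_le_one_right κ0 h2))
  rw [ContinuousLinearMap.sub_apply, L0] at h4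
  simpa using h4

lemma norm_ap_le {A : G × G} {B : ℝ} (nA : ‖A‖ ≤ B) (v : Q) : ‖ap A v‖ ≤ 2 * B * ‖v‖ := by
  have h1 : ‖v.1 • A.1‖ ≤ ‖v‖ * B := by
    rw [norm_smul]
    exact mul_le_mul (norm_fst_le v) ((norm_fst_le A).trans nA) (norm_nonneg _) (norm_nonneg _)
  have h2 : ‖v.2 • A.2‖ ≤ ‖v‖ * B := by
    rw [norm_smul]
    exact mul_le_mul (norm_snd_le v) ((norm_snd_le A).trans nA) (norm_nonneg _) (norm_nonneg _)
  refine (norm_add_le _ _).trans ?_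
  linarith

lemma inj_aux {A : G × G} {δ B κ : ℝ} (hd : δ ≤ dl A) (hδ : 0 < δ) (nA : ‖A‖ ≤ B) (B1 : 1 ≤ B)
    (hκ : (δ + 4 * B ^ 2) * κ < δ) {v : Q} {dw : ℂ} {da : ℝ} (h1 : |da| ≤ ‖dw‖)
    (h : ‖ap A v + (dw, 0)‖ ≤ κ * ‖((v, (dw, da)) : Q × (ℂ × ℝ))‖) : v = 0 := by
  obtain ⟨n, hn⟩ : ∃ n : ℝ, n = ‖((v, (dw, da)) : Q × (ℂ × ℝ))‖ := ⟨_, rfl⟩
  have n0 : 0 ≤ n := hn ▸ norm_nonneg _
  have n1 : n ≤ max ‖v‖ ‖dw‖ := by
    rw [hn]
    exact norm_prod_le_iff.mpr ⟨le_max_left _ _, norm_prod_le_iff.mpr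
      ⟨le_max_right _ _, h1.trans (le_max_right _ _)⟩⟩
  have n2 : ‖v‖ ≤ n := hn ▸ norm_fst_le ((v, (dw, da)) : Q × (ℂ × ℝ))
  rw [← hn] at h
  have k0 : 0 ≤ κ * n := (norm_nonneg _).trans h
  have k1 : ‖(ap A v).2‖ ≤ κ * n := by simpa using (norm_snd_le _).trans h
  have k2 : δ * ‖v‖ ≤ 2 * B * (κ * n) :=
    (norm_le_of_dl hd hδ nA v).trans (by gcongr)
  have k3 : ‖dw‖ ≤ κ * n + 2 * B * ‖v‖ := by
    have e : dw = (ap A v + (dw, 0)).1 - (ap A v).1 := by simp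
    rw [e]
    refine (norm_sub_le _ _).trans (add_le_add ((norm_fst_le _).trans h) ?_)
    exact (norm_fst_le _).trans (norm_ap_le nA v)
  have k4 : δ * n ≤ (δ + 4 * B ^ 2) * (κ * n) := by
    rcases le_total ‖v‖ ‖dw‖ with h5 | h5
    · rw [max_eq_right h5] at n1
      have := mul_le_mul_of_nonneg_left (n1.trans k3) hδ.le
      have := mul_le_mul_of_nonneg_left k2 (by linarith : 0 ≤ 2 * B)
      nlinarith
    · rw [max_eq_left h5] at n1
      have := mul_le_mul_of_nonneg_left n1 hδ.le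
      have : 2 * B ≤ δ + 4 * B ^ 2 := by nlinarith
      have := mul_le_mul_of_nonneg_right this k0
      linarith
  have k5 : n = 0 := by
    by_contra h5
    have := mul_lt_mul_of_pos_right hκ (lt_of_le_of_ne n0 (Ne.symm h5))
    nlinarith
  exact norm_le_zero_iff.mp (k5 ▸ n2)

lemma hel_shift {a : Q → ℝ} (pa : Per a) {ℓ : Q →L[ℝ] ℝ}
    (hℓ : ∀ m, ∃ k : ℤ, ℓ (lat m) = k * (2 * Real.pi)) (q : Q) (m : ℤ × ℤ) :
    hel a ℓ (q + lat m) = (q + lat m, (hel a ℓ q).2) := by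
  obtain ⟨k, hk⟩ := hℓ m
  have h : Complex.exp (ℓ (q + lat m) * Complex.I) = Complex.exp (ℓ q * Complex.I) := by
    rw [map_add, hk, Complex.exp_eq_exp_iff_exists_int]
    exact ⟨k, by push_cast; ring⟩
  simp only [hel, pa q m, h]

end

end Bump

open Bump in
theorem bump (hM : MLStmt) (hP : PsiStmt) : BumpStmt := by
  intro c f hf ν sν pν bν sg hsg K hK pK hKν hpos
  obtain ⟨Φ, sΦ, pΦ, Φ0, L0, a1, a1pos, hfast⟩ := exists_Phi hP hf hsg
  have cdd := dd_cont hf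
  have pdd := dd_per hf
  obtain ⟨δ1, δ1pos, hδ1⟩ := per_pos (g := fun q => dl (dd c f q)) (dl_cont.comp cdd)
    (fun q m => by simp only [pdd q m]) hK pK fun q hq => (hpos q hq).1
  obtain ⟨δ2, δ2pos, hδ2⟩ := per_pos (g := fun q => al (dd c f q).2) (al_cont.comp cdd.snd)
    (fun q m => by simp only [pdd q m]) hK pK fun q hq => (hpos q hq).2
  obtain ⟨B, B1, hB⟩ := per_bdd cdd pdd
  obtain ⟨L, L1, hL⟩ := per_bdd (g := fderiv ℝ ν) (sν.continuous_fderiv (by simp)) fun q m =>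
    fderiv_shift (k := 0) (fun x => by rw [pν, add_zero]) q
  obtain ⟨δ, δpos, δ1', δ2', δ3⟩ : ∃ δ : ℝ, 0 < δ ∧ δ ≤ δ1 ∧ δ ≤ δ2 ∧ δ ≤ 1 :=
    ⟨min δ1 (min δ2 1), by positivity, by simp, by simp, by simp⟩
  obtain ⟨κ, κpos, hκ⟩ : ∃ κ : ℝ, 0 < κ ∧ 10 * B ^ 2 * κ = δ :=
    ⟨δ / (10 * B ^ 2), by positivity, by field_simp⟩
  have B2 : B ≤ B ^ 2 := by nlinarith
  have κ1 : 10 * κ ≤ δ := by nlinarith
  obtain ⟨ρ, ρpos, hρ1, hρ2⟩ := hM c f hf (ℂ × ℝ) Φ sΦ pΦ Φ0 κ κpos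
  obtain ⟨a0, a0pos, a0ρ, a0a1, a0L, a0B, a01⟩ : ∃ a0 : ℝ, 0 < a0 ∧ a0 ≤ ρ ∧ a0 ≤ a1 ∧
      a0 ≤ 1 / L ∧ a0 ≤ δ / (8 * (B + 1)) ∧ a0 ≤ 1 :=
    ⟨min (min ρ a1) (min (1 / L) (min (δ / (8 * (B + 1))) 1)), by positivity, by simp, by simp,
      by simp, by simp, by simp⟩
  rw [le_div_iff₀ (by positivity)] at a0L a0B
  obtain ⟨M0, hM0⟩ := exists_nat_ge (64 * (B + 1) / δ)
  rw [div_le_iff₀ δpos] at hM0
  obtain ⟨N, hN⟩ := exists_nat_gt (16 * (B + 1) / (2 * Real.pi * a0 ^ 3))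
  rw [div_lt_iff₀ (by positivity)] at hN
  obtain ⟨ℓ, ℓ1, ℓ2⟩ : ∃ ℓ : Q →L[ℝ] ℝ, ℓ (1, 0) = M0 * (N * (2 * Real.pi)) ∧
      ℓ (0, 1) = sg * (N * (2 * Real.pi)) :=
    ⟨(M0 * (N * (2 * Real.pi)) : ℝ) • ContinuousLinearMap.fst ℝ ℝ ℝ +
      (sg * (N * (2 * Real.pi)) : ℝ) • ContinuousLinearMap.snd ℝ ℝ ℝ, by simp, by simp⟩
  have hℓ : ∀ m, ∃ k : ℤ, ℓ (lat m) = k * (2 * Real.pi) := by
    intro m
    have hv : lat m = (m.1 : ℝ) • ((1, 0) : Q) + (m.2 : ℝ) • ((0, 1) : Q) := by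
      ext <;> simp [lat]
    rw [hv, map_add, map_smul, map_smul, ℓ1, ℓ2]
    rcases hsg with rfl | rfl
    · exact ⟨m.1 * M0 * N + m.2 * N, by simp only [smul_eq_mul]; push_cast; ring⟩
    · exact ⟨m.1 * M0 * N - m.2 * N, by simp only [smul_eq_mul]; push_cast; ring⟩
  obtain ⟨a, ha⟩ : ∃ a : ℝ → Q → ℝ, ∀ l, a l = fun q => a0 * Real.smoothTransition l * ν q :=
    ⟨_, fun _ => rfl⟩
  have sa : ∀ l, ContDiff ℝ ∞ (a l) := fun l => by rw [ha]; exact contDiff_const.mul sν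
  have u0 : ∀ l, 0 ≤ a0 * Real.smoothTransition l := fun l =>
    mul_nonneg a0pos.le (Real.smoothTransition.nonneg l)
  have u1 : ∀ l, a0 * Real.smoothTransition l ≤ a0 := fun l =>
    mul_le_of_le_one_right a0pos.le (Real.smoothTransition.le_one l)
  have a_nonneg : ∀ l q, 0 ≤ a l q := fun l q => by rw [ha]; exact mul_nonneg (u0 l) (bν q).1
  have a_le : ∀ l q, a l q ≤ a0 := fun l q => by
    rw [ha]; exact (mul_le_of_le_one_right (u0 l) (bν q).2).trans (u1 l)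
  have a_per : ∀ l, Per (a l) := fun l q m => by rw [ha]; simp only [pν q m]
  have a_der : ∀ l q, ‖fderiv ℝ (a l) q‖ ≤ 1 := fun l q => by
    rw [ha, fderiv_const_mul (sν.differentiable (by simp) q), norm_smul,
      Real.norm_of_nonneg (u0 l)]
    exact (mul_le_mul (u1 l) (hL q) (norm_nonneg _) a0pos.le).trans a0L
  have nhel : ∀ l q, ‖(hel (a l) ℓ q).2‖ ≤ ρ := fun l q =>
    norm_prod_le_iff.mpr ⟨by rw [norm_hel _ _ _ (a_nonneg l q)]; linarith [a_le l q], by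
      change ‖a l q‖ ≤ ρ
      rw [Real.norm_of_nonneg (a_nonneg l q)]; linarith [a_le l q]⟩
  have zero : ∀ l q, a l q = 0 → Φ (hel (a l) ℓ q) = f q := fun l q h => by
    rw [← Φ0]; simp only [hel, h, Complex.ofReal_zero, zero_mul]; rfl
  have zero' : ∀ l q, ν q = 0 → Φ (hel (a l) ℓ q) = f q := fun l q h =>
    zero l q (by rw [ha]; simp [h])
  have main : ∀ l, ∀ q ∈ K, ∃ μ τ g : ℂ,
      (dd c (fun q => Φ (hel (a l) ℓ q)) q).1.2 = μ + (M0 * (N * (2 * Real.pi)) : ℝ) • g ∧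
      (dd c (fun q => Φ (hel (a l) ℓ q)) q).2.2 = τ + (sg * (N * (2 * Real.pi)) : ℝ) • g ∧
      0 < τ.re * μ.im - τ.im * μ.re ∧ δ / 2 ≤ τ.re ∧ ‖μ‖ ≤ B + 1 ∧ ‖τ‖ ≤ B + 1 ∧
      |g.re + sg * a l q ^ 3 / 8| ≤ a l q ^ 3 / 16 ∧ a l q ^ 2 / 8 ≤ g.im ∧
      g.im ≤ a l q ^ 2 := by
    intro l q hq
    have hk := hρ1 q _ (nhel l q)
    obtain ⟨μ, m1, m2⟩ := step sΦ L0 (sa l) ℓ q (a_der l q) hk (1, 0) (by simp)
    obtain ⟨τ, t1, t2⟩ := step sΦ L0 (sa l) ℓ q (a_der l q) hk (0, 1) (by simp)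
    rw [ℓ1] at m2
    rw [ℓ2] at t2
    have e1 : ap (dd c f q) (1, 0) = (dd c f q).1 := by simp [ap]
    have e2 : ap (dd c f q) (0, 1) = (dd c f q).2 := by simp [ap]
    rw [e1] at m1
    rw [e2] at t1
    have n1 : ‖(dd c f q).1.2‖ ≤ B := (norm_snd_le _).trans ((norm_fst_le _).trans (hB q))
    have n2 : ‖(dd c f q).2.2‖ ≤ B := (norm_snd_le _).trans ((norm_snd_le _).trans (hB q))
    refine ⟨μ, τ, _, m2, t2, dl_pert (δ1'.trans (hδ1 q hq)) n1 n2 m1 t1 (by linarith)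
      (by nlinarith), ?_, ?_, ?_, hfast q _ _ (norm_hel _ _ _ (a_nonneg l q))
      ((a_le l q).trans a0a1)⟩
    · have h1 := (Complex.abs_re_le_norm _).trans t1
      have h2 : δ ≤ (dd c f q).2.2.re := δ2'.trans (hδ2 q hq)
      rw [Complex.sub_re, abs_le] at h1
      linarith [h1.1]
    · linarith [norm_le_insert' μ (dd c f q).1.2]
    · linarith [norm_le_insert' τ (dd c f q).2.2]
  have N0 : (0 : ℝ) ≤ N * (2 * Real.pi) := by positivity
  have trans : ∀ l, ∀ q ∈ K, 0 < dl (dd c (fun q => Φ (hel (a l) ℓ q)) q) ∧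
      (al (dd c (fun q => Φ (hel (a l) ℓ q)) q).2 = 0 →
        0 < sg * (dd c (fun q => Φ (hel (a l) ℓ q)) q).2.2.im) := by
    intro l q hq
    obtain ⟨μ, τ, g, e1, e2, k1, k2, k3, k4, k5, k6, k7⟩ := main l q hq
    unfold dl al
    rw [e1, e2]
    have a3 : 0 ≤ a l q ^ 3 := pow_nonneg (a_nonneg l q) 3
    refine alg hsg k1 (half_pos δpos) k2 k3 k4 (a_nonneg l q) ((a_le l q).trans a01) ?_ ?_ k6 k7
      N0 (by linarith)
    · have := mul_le_mul_of_nonneg_left (a_le l q) (by linarith : 0 ≤ B + 1)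
      linarith
    · rw [abs_le] at k5 ⊢
      rcases hsg with rfl | rfl <;> constructor <;> linarith [k5.1, k5.2]
  have inj1 : ∀ l, ∀ q ∈ K, ∀ q', Φ (hel (a l) ℓ q) = Φ (hel (a l) ℓ q') → q' = q := by
    intro l q hq q' h
    have h1 := hρ2 q q' _ _ (nhel l q) (nhel l q') h
    have e : (hel (a l) ℓ q').2 - (hel (a l) ℓ q).2 =
        ((hel (a l) ℓ q').2.1 - (hel (a l) ℓ q).2.1, a l q' - a l q) := rfl
    rw [e, L0] at h1
    refine sub_eq_zero.mp (inj_aux (δ1'.trans (hδ1 q hq)) δpos (hB q) B1 ?_ ?_ h1)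
    · nlinarith
    · rw [← norm_hel _ ℓ _ (a_nonneg l q), ← norm_hel _ ℓ _ (a_nonneg l q')]
      exact abs_norm_sub_norm_le _ _
  have emb : ∀ l, IsEmb c fun q => Φ (hel (a l) ℓ q) := by
    intro l
    refine ⟨sΦ.comp (hel_smooth (a := fun _ => a l) (sa l) contDiff_id ℓ), fun q m => ?_,
      fun q q' h => ?_, fun q => ?_⟩
    · rw [hel_shift (a_per l) hℓ, pΦ]; rfl
    · by_cases hq : q ∈ K
      · exact (inj1 l q hq q' h).symm
      by_cases hq' : q' ∈ K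
      · exact inj1 l q' hq' q h.symm
      simp only [zero' l q (hKν q hq), zero' l q' (hKν q' hq')] at h
      exact hf.inj h
    · by_cases hq : q ∈ K
      · exact inj_of_dl (trans l q hq).1.ne'
      have h : (fun q => Φ (hel (a l) ℓ q)) =ᶠ[nhds q] f := by
        filter_upwards [hK.isOpen_compl.mem_nhds hq] with x hx using zero' l x (hKν x hx)
      have e : dd c (fun q => Φ (hel (a l) ℓ q)) q = dd c f q := by
        simp only [dd, h.fderiv_eq, zero' l q (hKν q hq)]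
      rw [e]
      exact hf.imm q
  refine ⟨fun q => Φ (hel (a 1) ℓ q), ⟨fun l q => Φ (hel (a l) ℓ q), ?_, emb, ?_, rfl⟩,
    zero', trans, fun q hq => ?_⟩
  · refine sΦ.comp (hel_smooth (a := fun x : ℝ × Q => a x.1) ?_ contDiff_snd ℓ)
    simp only [ha]
    exact (contDiff_const.mul (Real.smoothTransition.contDiff.comp contDiff_fst)).mul
      (sν.comp contDiff_snd)
  · funext q
    exact zero 0 q (by rw [ha]; simp)
  · have hqK : q ∈ K := by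
      by_contra h
      have := hKν q h
      linarith
    obtain ⟨μ, τ, g, -, e2, -, -, -, k4, k5, -, -⟩ := main 1 q hqK
    have ea : a 1 q = a0 := by rw [ha]; simp [hq]
    rw [ea, abs_le] at k5
    unfold al
    rw [e2, Complex.add_re, Complex.smul_re, smul_eq_mul]
    have h1 : τ.re ≤ B + 1 := (Complex.re_le_norm τ).trans k4
    have h2 : sg * g.re ≤ -(a0 ^ 3 / 16) := by
      rcases hsg with rfl | rfl <;> linarith [k5.1, k5.2]
    have h3 := mul_le_mul_of_nonneg_left h2 N0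
    nlinarith

end Pool.Agent.Lib.MP_72f1d0_gt
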