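import Pool.Agent.Lib.MP_72f1d0_gt.Defs

/-!
Algebraic estimates for the helix.
-/

namespace Pool.Agent.Lib.MP_72f1d0_gt

namespace Bump

noncomputable section

abbrev Tri : Type := G →ₗ[ℝ] G →ₗ[ℝ] G →ₗ[ℝ] G

def cA (t : Tri) : ℝ := al (t vX vX vW)
def cB (t : Tri) : ℝ := -al (t vX vX vX) + al (t vX vW vW) + al (t vW vX vW)
def cC (t : Tri) : ℝ := -al (t vX vW vX) - al (t vW vX vX) + al (t vW vW vW)
def cD (t : Tri) : ℝ := -al (t vW vW vX)

/-- The cubic form whose angular derivative cancels the cubic term. -/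
def Pc (t : Tri) (w : ℂ) : ℝ :=
  (2 * cD t + cB t) / 3 * w.re ^ 3 - cA t * w.re ^ 2 * w.im + cD t * w.re * w.im ^ 2 -
    (cC t + 2 * cA t) / 3 * w.im ^ 3

def Tc (t : Tri) (w : ℂ) : ℝ := al (t (w, 0) (w, 0) (Complex.I * w, 0))

lemma dec (w : ℂ) : ((w, 0) : G) = w.re • vX + w.im • vW := by
  ext <;> simp [vX, vW]

lemma decI (w : ℂ) : ((Complex.I * w, 0) : G) = (-w.im) • vX + w.re • vW := by
  rw [dec]; simp

lemma al_add (v w : G) : al (v + w) = al v + al w := by simp [al]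
lemma al_smul (r : ℝ) (v : G) : al (r • v) = r * al v := by simp [al]

lemma Tc_eq (t : Tri) (w : ℂ) : Tc t w =
    cA t * w.re ^ 3 + cB t * w.re ^ 2 * w.im + cC t * w.re * w.im ^ 2 + cD t * w.im ^ 3 := by
  unfold Tc cA cB cC cD
  rw [decI, dec w]
  simp only [map_add, map_smul, LinearMap.add_apply, LinearMap.smul_apply, al_add, al_smul]
  ring

lemma abs_al_le (v : G) : |al v| ≤ ‖v‖ := (Complex.abs_re_le_norm _).trans (norm_snd_le v)

lemma abs_im_le (v : G) : |v.2.im| ≤ ‖v‖ := (Complex.abs_im_le_norm _).trans (norm_snd_le v)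

lemma norm_vX : ‖vX‖ = 1 := by simp [vX]
lemma norm_vW : ‖vW‖ = 1 := by simp [vW]
lemma norm_vZ : ‖vZ‖ = 1 := by simp [vZ]

lemma Pc_le {t : Tri} {C : ℝ} (ht : ∀ A B D : G, ‖t A B D‖ ≤ C * ‖A‖ * ‖B‖ * ‖D‖) (w : ℂ) :
    |Pc t w| ≤ 6 * C * ‖w‖ ^ 3 := by
  have h : ∀ A B D : G, ‖A‖ = 1 → ‖B‖ = 1 → ‖D‖ = 1 → |al (t A B D)| ≤ C := by
    intro A B D hA hB hD
    have := (abs_al_le _).trans (ht A B D)
    rwa [hA, hB, hD, mul_one, mul_one, mul_one] at this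
  have h1 := abs_le.mp (h vX vX vX norm_vX norm_vX norm_vX)
  have h2 := abs_le.mp (h vX vX vW norm_vX norm_vX norm_vW)
  have h3 := abs_le.mp (h vX vW vX norm_vX norm_vW norm_vX)
  have h4 := abs_le.mp (h vX vW vW norm_vX norm_vW norm_vW)
  have h5 := abs_le.mp (h vW vX vX norm_vW norm_vX norm_vX)
  have h6 := abs_le.mp (h vW vX vW norm_vW norm_vX norm_vW)
  have h7 := abs_le.mp (h vW vW vX norm_vW norm_vW norm_vX)
  have h8 := abs_le.mp (h vW vW vW norm_vW norm_vW norm_vW)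
  have hC : 0 ≤ C := by linarith [h1.1, h1.2]
  have p0 : |(2 * cD t + cB t) / 3| ≤ 2 * C := by
    unfold cD cB; rw [abs_le]; constructor <;> linarith
  have p1 : |cA t| ≤ C := by unfold cA; rw [abs_le]; exact h2
  have p2 : |cD t| ≤ C := by unfold cD; rw [abs_le]; constructor <;> linarith
  have p3 : |(cC t + 2 * cA t) / 3| ≤ 2 * C := by
    unfold cC cA; rw [abs_le]; constructor <;> linarith
  have hx := Complex.abs_re_le_norm w
  have ho := Complex.abs_im_le_norm w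
  have q0 : |(2 * cD t + cB t) / 3 * w.re ^ 3| ≤ 2 * C * ‖w‖ ^ 3 := by
    rw [abs_mul, abs_pow]; gcongr
  have q1 : |cA t * w.re ^ 2 * w.im| ≤ C * ‖w‖ ^ 2 * ‖w‖ := by
    rw [abs_mul, abs_mul, abs_pow]; gcongr
  have q2 : |cD t * w.re * w.im ^ 2| ≤ C * ‖w‖ * ‖w‖ ^ 2 := by
    rw [abs_mul, abs_mul, abs_pow]; gcongr
  have q3 : |(cC t + 2 * cA t) / 3 * w.im ^ 3| ≤ 2 * C * ‖w‖ ^ 3 := by
    rw [abs_mul, abs_pow]; gcongr
  unfold Pc
  rw [abs_le] at q0 q1 q2 q3 ⊢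
  constructor <;> nlinarith [q0.1, q0.2, q1.1, q1.2, q2.1, q2.2, q3.1, q3.2]

/-- The displacement and its angular derivative. -/
def wt (t : Tri) (sg : ℝ) (w : ℂ) (a : ℝ) : G :=
  (w, (Pc t w : ℂ) + Complex.I * ((sg / 4 * a * w.im : ℝ) : ℂ))

def wt' (t : Tri) (sg : ℝ) (w : ℂ) (a : ℝ) : G :=
  (Complex.I * w, ((-Tc t w : ℝ) : ℂ) + Complex.I * ((sg / 4 * a * w.re : ℝ) : ℂ))

lemma norm_mk_le {y z a : ℝ} (h : |y| + |z| ≤ a) : ‖(y : ℂ) + Complex.I * (z : ℂ)‖ ≤ a := by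
  refine (norm_add_le _ _).trans ?_
  rw [norm_mul, Complex.norm_I, one_mul, Complex.norm_real, Complex.norm_real]
  exact h

lemma abs_sg {sg : ℝ} (hsg : sg = 1 ∨ sg = -1) : |sg| = 1 := by
  rcases hsg with rfl | rfl <;> simp

lemma abs_z_le {sg a x : ℝ} (hsg : sg = 1 ∨ sg = -1) (ha : 0 ≤ a) (hx : |x| ≤ a) :
    |sg / 4 * a * x| ≤ a ^ 2 / 4 := by
  rw [abs_mul, abs_mul, abs_div, abs_sg hsg, abs_of_nonneg ha]
  have : |(4 : ℝ)| = 4 := by norm_num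
  rw [this]
  nlinarith

lemma norm_wt_le {t : Tri} {C sg a : ℝ} {w : ℂ} (hC : 1 ≤ C)
    (ht : ∀ A B D : G, ‖t A B D‖ ≤ C * ‖A‖ * ‖B‖ * ‖D‖) (hsg : sg = 1 ∨ sg = -1)
    (ha : ‖w‖ = a) (hs : 1000 * C ^ 2 * a ≤ 1) : ‖wt t sg w a‖ ≤ a := by
  have a0 : 0 ≤ a := ha ▸ norm_nonneg w
  have hCa : C * a ≤ 1 / 1000 := by nlinarith [mul_nonneg (sub_nonneg.mpr hC) a0]
  have a1 : a ≤ 1 / 1000 := by nlinarith [mul_nonneg (sub_nonneg.mpr hC) a0]
  have hy := Pc_le ht w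
  rw [ha] at hy
  have hz := abs_z_le hsg a0 (ha ▸ Complex.abs_im_le_norm w)
  refine norm_prod_le_iff.mpr ⟨ha.le, norm_mk_le ?_⟩
  have : C * a ^ 3 ≤ a / 1000 := by nlinarith [mul_nonneg a0 a0]
  nlinarith

lemma wt_eq (t : Tri) (sg a : ℝ) (w : ℂ) :
    wt t sg w a = (w, 0) + (sg / 4 * a * w.im) • vZ + Pc t w • vR := by
  unfold wt
  ext <;> simp [vZ, vR]
  ring

lemma wt'_eq (t : Tri) (sg a : ℝ) (w : ℂ) :
    wt' t sg w a = (Complex.I * w, 0) + (sg / 4 * a * w.re) • vZ + (-Tc t w) • vR := by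
  unfold wt'
  ext <;> simp [vZ, vR]
  ring

lemma br_main {b : G →ₗ[ℝ] G →ₗ[ℝ] G} (anti : ∀ A B, b A B = -b B A) {sg a : ℝ} {w : ℂ}
    (ha : ‖w‖ = a) :
    b ((w, 0) + (sg / 4 * a * w.im) • vZ) ((Complex.I * w, 0) + (sg / 4 * a * w.re) • vZ) =
      (a ^ 2) • b vX vW + (sg / 4 * a ^ 3) • b vX vZ := by
  have hxo : w.re ^ 2 + w.im ^ 2 = a ^ 2 := by
    rw [← ha, Complex.sq_norm, Complex.normSq_apply]; ring
  have self : ∀ V : G, b V V = 0 := fun V => by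
    have h := anti V V
    have h2 : (2 : ℝ) • b V V = 0 := by rw [two_smul]; nth_rewrite 1 [h]; simp
    simpa using h2
  have h3 : sg / 4 * a ^ 3 = sg / 4 * a * (w.re ^ 2 + w.im ^ 2) := by rw [hxo]; ring
  rw [decI, dec w, h3, ← hxo]
  simp only [map_add, map_smul, LinearMap.add_apply, LinearMap.smul_apply, self,
    anti vW vX, anti vZ vX, anti vZ vW]
  module

lemma br_dec (b : G →ₗ[ℝ] G →ₗ[ℝ] G) (A A' Y Y' : G) :
    b (A + Y) (A' + Y') = b A A' + (b Y (A' + Y') + b A Y') := by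
  simp only [map_add, LinearMap.add_apply]
  abel

lemma tri_dec (t : Tri) (A A' β β' : G) : t (A + β) (A + β) (A' + β') =
    t A A A' + (t β (A + β) (A' + β') + t A β (A' + β') + t A A β') := by
  simp only [map_add, LinearMap.add_apply]
  abel

lemma norm_smul_vR (r : ℝ) : ‖r • vR‖ = |r| := by simp [vR, norm_smul]
lemma norm_smul_vZ (r : ℝ) : ‖r • vZ‖ = |r| := by simp [vZ, norm_smul]

lemma Tc_le {t : Tri} {C : ℝ} (ht : ∀ A B D : G, ‖t A B D‖ ≤ C * ‖A‖ * ‖B‖ * ‖D‖) (w : ℂ) :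
    ‖t (w, 0) (w, 0) (Complex.I * w, 0)‖ ≤ C * ‖w‖ ^ 3 := by
  refine (ht _ _ _).trans (le_of_eq ?_)
  simp
  ring

lemma small_facts {C a : ℝ} (hC : 1 ≤ C) (a0 : 0 ≤ a) (hs : 1000 * C ^ 2 * a ≤ 1) :
    C * a ^ 3 ≤ a ^ 2 / 1000 ∧ a ^ 2 ≤ a / 1000 ∧ C * a ^ 4 ≤ C ^ 2 * a ^ 4 ∧
      C ^ 2 * a ^ 4 ≤ a ^ 3 / 1000 ∧ a ^ 3 ≤ a ^ 2 / 1000 := by
  have C0 : 0 ≤ C := by linarith
  have hCa : C * a ≤ 1 / 1000 := by nlinarith [mul_nonneg (sub_nonneg.mpr hC) a0]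
  have a1 : a ≤ 1 / 1000 := by nlinarith [mul_nonneg (sub_nonneg.mpr hC) a0]
  have a2 : 0 ≤ a ^ 2 := by positivity
  have a3 : 0 ≤ a ^ 3 := by positivity
  have a4 : 0 ≤ a ^ 4 := by positivity
  refine ⟨by nlinarith, by nlinarith, ?_, ?_, by nlinarith⟩
  · nlinarith [mul_nonneg (mul_nonneg C0 (sub_nonneg.mpr hC)) a4]
  · nlinarith [mul_le_mul_of_nonneg_right hs a3]

/-- Expansion of the fast part up to order three. -/
lemma fast_exp {b : G →ₗ[ℝ] G →ₗ[ℝ] G} {t : Tri} {C sg a : ℝ} {w : ℂ} {g : G} (hC : 1 ≤ C)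
    (hb : ∀ A B : G, ‖b A B‖ ≤ C * ‖A‖ * ‖B‖)
    (ht : ∀ A B D : G, ‖t A B D‖ ≤ C * ‖A‖ * ‖B‖ * ‖D‖) (anti : ∀ A B, b A B = -b B A)
    (hsg : sg = 1 ∨ sg = -1) (ha : ‖w‖ = a) (hs : 1000 * C ^ 2 * a ≤ 1)
    (hg : ‖g - (wt' t sg w a + (1 / 2 : ℝ) • b (wt t sg w a) (wt' t sg w a) +
      t (wt t sg w a) (wt t sg w a) (wt' t sg w a))‖ ≤
        C * ‖wt t sg w a‖ ^ 3 * ‖wt' t sg w a‖) :
    ∃ s : G, ‖s‖ ≤ a ^ 3 / 50 ∧ g = wt' t sg w a + (a ^ 2 / 2) • b vX vW +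
      (sg / 8 * a ^ 3) • b vX vZ + t (w, 0) (w, 0) (Complex.I * w, 0) + s := by
  have a0 : 0 ≤ a := ha ▸ norm_nonneg w
  have C0 : 0 ≤ C := by linarith
  obtain ⟨f1, f2, f3, f4, f5⟩ := small_facts hC a0 hs
  have nwt : ‖wt t sg w a‖ ≤ a := norm_wt_le hC ht hsg ha hs
  have ny : |Pc t w| ≤ 6 * C * a ^ 3 := ha ▸ Pc_le ht w
  have ny' : |-Tc t w| ≤ C * a ^ 3 := by
    rw [abs_neg]; exact (abs_al_le _).trans (ha ▸ Tc_le ht w)
  have nz := abs_z_le hsg a0 (ha ▸ Complex.abs_im_le_norm w)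
  have nz' := abs_z_le hsg a0 (ha ▸ Complex.abs_re_le_norm w)
  have eb := br_main anti (sg := sg) ha
  have e1 := wt_eq t sg a w
  have e2 := wt'_eq t sg a w
  have nA : ‖((w, 0) : G)‖ = a := by rw [← ha]; simp
  have nA' : ‖((Complex.I * w, 0) : G)‖ = a := by rw [← ha]; simp
  generalize wt t sg w a = u at e1 nwt hg
  generalize wt' t sg w a = u' at e2 hg ⊢
  generalize ((w, 0) : G) = A at e1 eb nA ⊢
  generalize ((Complex.I * w, 0) : G) = A' at e2 eb nA' ⊢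
  generalize Pc t w = y at e1 ny
  generalize -Tc t w = y' at e2 ny'
  generalize sg / 4 * a * w.im = z at e1 eb nz
  generalize sg / 4 * a * w.re = z' at e2 eb nz'
  have a2 : 0 ≤ a ^ 2 := by positivity
  have nβ : ‖z • vZ + y • vR‖ ≤ a ^ 2 := by
    refine (norm_add_le _ _).trans ?_
    rw [norm_smul_vR, norm_smul_vZ]; linarith
  have nβ' : ‖z' • vZ + y' • vR‖ ≤ a ^ 2 := by
    refine (norm_add_le _ _).trans ?_
    rw [norm_smul_vR, norm_smul_vZ]; linarith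
  have nAZ : ‖A + z • vZ‖ ≤ 2 * a := by
    refine (norm_add_le _ _).trans ?_
    rw [nA, norm_smul_vZ]; linarith
  have nwt' : ‖u'‖ ≤ 2 * a := by
    rw [e2, add_assoc]
    refine (norm_add_le _ _).trans ?_
    rw [nA']; linarith
  have eb' : b u u' = (a ^ 2) • b vX vW + (sg / 4 * a ^ 3) • b vX vZ +
      (b (y • vR) u' + b (A + z • vZ) (y' • vR)) := by
    rw [← eb, e1, e2, br_dec]
  have et : t u u u' = t A A A' + (t (z • vZ + y • vR) u u' + t A (z • vZ + y • vR) u' +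
      t A A (z' • vZ + y' • vR)) := by
    rw [e1, e2, add_assoc, add_assoc, tri_dec]
  have r1 : ‖b (y • vR) u' + b (A + z • vZ) (y' • vR)‖ ≤ 14 * (C ^ 2 * a ^ 4) := by
    refine (norm_add_le _ _).trans ?_
    have h1 : ‖b (y • vR) u'‖ ≤ C * (6 * C * a ^ 3) * (2 * a) := by
      refine (hb _ _).trans ?_
      rw [norm_smul_vR]; gcongr
    have h2 : ‖b (A + z • vZ) (y' • vR)‖ ≤ C * (2 * a) * (C * a ^ 3) := by
      refine (hb _ _).trans ?_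
      rw [norm_smul_vR]; gcongr
    linarith
  have r2 : ‖t (z • vZ + y • vR) u u' + t A (z • vZ + y • vR) u' +
      t A A (z' • vZ + y' • vR)‖ ≤ 5 * (C * a ^ 4) := by
    refine norm_add₃_le.trans ?_
    have h1 : ‖t (z • vZ + y • vR) u u'‖ ≤ C * a ^ 2 * a * (2 * a) := by
      refine (ht _ _ _).trans ?_
      gcongr
    have h2 : ‖t A (z • vZ + y • vR) u'‖ ≤ C * a * a ^ 2 * (2 * a) := by
      refine (ht _ _ _).trans ?_
      rw [nA]; gcongr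
    have h3 : ‖t A A (z' • vZ + y' • vR)‖ ≤ C * a * a * a ^ 2 := by
      refine (ht _ _ _).trans ?_
      rw [nA]; gcongr
    linarith
  have r3 : C * ‖u‖ ^ 3 * ‖u'‖ ≤ C * a ^ 3 * (2 * a) := by gcongr
  generalize b (y • vR) u' + b (A + z • vZ) (y' • vR) = s1 at eb' r1
  generalize t (z • vZ + y • vR) u u' + t A (z • vZ + y • vR) u' +
      t A A (z' • vZ + y' • vR) = s2 at et r2
  refine ⟨(1 / 2 : ℝ) • s1 + s2 + (g - (u' + (1 / 2 : ℝ) • b u u' + t u u u')), ?_, ?_⟩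
  · refine norm_add₃_le.trans ?_
    have h1 : ‖(1 / 2 : ℝ) • s1‖ = 1 / 2 * ‖s1‖ := by rw [norm_smul]; norm_num
    have a3 : 0 ≤ a ^ 3 := by positivity
    rw [h1]
    linarith
  · rw [eb', et]
    module

/-- The fast part of the derivative of the helix. -/
lemma fast {b : G →ₗ[ℝ] G →ₗ[ℝ] G} {t : Tri} {C sg a : ℝ} {w : ℂ} {g : G} (hC : 1 ≤ C)
    (hb : ∀ A B : G, ‖b A B‖ ≤ C * ‖A‖ * ‖B‖)
    (ht : ∀ A B D : G, ‖t A B D‖ ≤ C * ‖A‖ * ‖B‖ * ‖D‖) (anti : ∀ A B, b A B = -b B A)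
    (hXW : (b vX vW).2 = Complex.I) (hXZ : al (b vX vZ) = -1) (hsg : sg = 1 ∨ sg = -1)
    (ha : ‖w‖ = a) (hs : 1000 * C ^ 2 * a ≤ 1)
    (hg : ‖g - (wt' t sg w a + (1 / 2 : ℝ) • b (wt t sg w a) (wt' t sg w a) +
      t (wt t sg w a) (wt t sg w a) (wt' t sg w a))‖ ≤
        C * ‖wt t sg w a‖ ^ 3 * ‖wt' t sg w a‖) :
    |g.2.re + sg * a ^ 3 / 8| ≤ a ^ 3 / 16 ∧ a ^ 2 / 8 ≤ g.2.im ∧ g.2.im ≤ a ^ 2 := by
  obtain ⟨s, ns, eg⟩ := fast_exp hC hb ht anti hsg ha hs hg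
  have a0 : 0 ≤ a := ha ▸ norm_nonneg w
  have C0 : 0 ≤ C := by linarith
  obtain ⟨f1, f2, f3, f4, f5⟩ := small_facts hC a0 hs
  have nz' := abs_z_le hsg a0 (ha ▸ Complex.abs_re_le_norm w)
  have nT : |(t (w, 0) (w, 0) (Complex.I * w, 0)).2.im| ≤ C * a ^ 3 :=
    (abs_im_le _).trans (ha ▸ Tc_le ht w)
  have nXZ : |(b vX vZ).2.im| ≤ C := by
    refine (abs_im_le _).trans ((hb _ _).trans ?_)
    rw [norm_vX, norm_vZ, mul_one, mul_one]
  have u're : (wt' t sg w a).2.re = -(t (w, 0) (w, 0) (Complex.I * w, 0)).2.re := by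
    simp [wt', Tc, al]
  have u'im : (wt' t sg w a).2.im = sg / 4 * a * w.re := by simp [wt']
  have gre : g.2.re = -(sg * a ^ 3 / 8) + al s := by
    unfold al at hXZ ⊢
    rw [eg]
    simp only [Prod.snd_add, Prod.smul_snd, Complex.add_re, Complex.smul_re, smul_eq_mul, hXW,
      hXZ, u're, Complex.I_re]
    ring
  have gim : g.2.im = sg / 4 * a * w.re + a ^ 2 / 2 + (sg * a ^ 3 / 8 * (b vX vZ).2.im +
      (t (w, 0) (w, 0) (Complex.I * w, 0)).2.im + s.2.im) := by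
    rw [eg]
    simp only [Prod.snd_add, Prod.smul_snd, Complex.add_im, Complex.smul_im, smul_eq_mul, hXW,
      u'im, Complex.I_im]
    ring
  have a30 : 0 ≤ a ^ 3 := by positivity
  have a20 : 0 ≤ a ^ 2 := by positivity
  have k1 := abs_le.mp ((abs_al_le s).trans ns)
  have l1 := abs_le.mp ((abs_im_le s).trans ns)
  have l4 : |sg * a ^ 3 / 8 * (b vX vZ).2.im| ≤ C * a ^ 3 := by
    rw [abs_mul, abs_div, abs_mul, abs_sg hsg, abs_of_nonneg a30]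
    have h8 : |(8 : ℝ)| = 8 := by norm_num
    rw [h8]
    nlinarith [mul_le_mul_of_nonneg_left nXZ a30, mul_nonneg C0 a30]
  rw [abs_le] at l4 nT nz'
  refine ⟨?_, ?_, ?_⟩
  · rw [gre, abs_le]
    constructor <;> linarith [k1.1, k1.2]
  · rw [gim]
    linarith [l1.1, l4.1, nT.1, nz'.1]
  · rw [gim]
    linarith [l1.2, l4.2, nT.2, nz'.2]

/-- Transversality is kept, and the crossing happens on the right side. -/
lemma alg {δ B a N M0 sg : ℝ} {μ τ g : ℂ} (hsg : sg = 1 ∨ sg = -1)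
    (hd : 0 < τ.re * μ.im - τ.im * μ.re) (hδ : 0 < δ) (hτ : δ ≤ τ.re) (nμ : ‖μ‖ ≤ B)
    (nτ : ‖τ‖ ≤ B) (a0 : 0 ≤ a) (a1 : a ≤ 1) (haB : 4 * B * a ≤ δ) (hre : |g.re| ≤ a ^ 3 / 4)
    (him1 : a ^ 2 / 8 ≤ g.im) (him2 : g.im ≤ a ^ 2) (hN : 0 ≤ N) (hM : 32 * B ≤ M0 * δ) :
    0 < (τ + (sg * N) • g).re * (μ + (M0 * N) • g).im -
      (τ + (sg * N) • g).im * (μ + (M0 * N) • g).re ∧
    ((τ + (sg * N) • g).re = 0 → 0 < sg * (τ + (sg * N) • g).im) := by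
  have B0 : 0 ≤ B := (norm_nonneg _).trans nμ
  have m1 : |μ.re| ≤ B := (Complex.abs_re_le_norm μ).trans nμ
  have m2 : |μ.im| ≤ B := (Complex.abs_im_le_norm μ).trans nμ
  have t2 : |τ.im| ≤ B := (Complex.abs_im_le_norm τ).trans nτ
  have a2 : 0 ≤ a ^ 2 := by positivity
  have a3 : a ^ 3 ≤ a ^ 2 := by nlinarith
  have gi0 : 0 ≤ g.im := by linarith
  have M00 : 0 ≤ M0 := by
    by_contra h
    have := mul_neg_of_neg_of_pos (not_le.mp h) hδ
    linarith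
  simp only [Complex.add_re, Complex.add_im, Complex.smul_re, Complex.smul_im, smul_eq_mul]
  constructor
  · have h1 : |τ.im * g.re| ≤ B * (a ^ 3 / 4) := by rw [abs_mul]; gcongr
    have h2 : δ * (a ^ 2 / 8) ≤ τ.re * g.im := by gcongr; linarith
    have h3 : B * (a ^ 3 / 4) ≤ δ * a ^ 2 / 16 := by nlinarith [mul_le_mul_of_nonneg_right haB a2]
    have h4 : δ * a ^ 2 / 16 ≤ τ.re * g.im - τ.im * g.re := by
      linarith [(abs_le.mp h1).2]
    have h5 : |g.re * μ.im| ≤ a ^ 3 / 4 * B := by rw [abs_mul]; gcongr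
    have h6 : |g.im * μ.re| ≤ a ^ 2 * B := by rw [abs_mul, abs_of_nonneg gi0]; gcongr
    have h7 : |sg * (g.re * μ.im - g.im * μ.re)| ≤ 2 * B * a ^ 2 := by
      rw [abs_mul, abs_sg hsg, one_mul]
      refine (abs_sub _ _).trans ?_
      nlinarith [mul_le_mul_of_nonneg_right a3 B0, mul_nonneg a2 B0]
    have h8 : 2 * B * a ^ 2 ≤ M0 * (τ.re * g.im - τ.im * g.re) := by
      nlinarith [mul_le_mul_of_nonneg_left h4 M00, mul_le_mul_of_nonneg_right hM a2]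
    have h9 : 0 ≤ N * (M0 * (τ.re * g.im - τ.im * g.re) + sg * (g.re * μ.im - g.im * μ.re)) :=
      mul_nonneg hN (by linarith [(abs_le.mp h7).1])
    nlinarith
  · intro h
    have h1 : δ ≤ N * (a ^ 3 / 4) := by
      have h2 : |sg * N * g.re| ≤ N * (a ^ 3 / 4) := by
        rw [abs_mul, abs_mul, abs_sg hsg, one_mul, abs_of_nonneg hN]; gcongr
      linarith [(abs_le.mp h2).1]
    have h3 : |sg * τ.im| ≤ B := by rw [abs_mul, abs_sg hsg, one_mul]; exact t2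
    have h4 : sg * sg = 1 := by rcases hsg with rfl | rfl <;> norm_num
    have h5 : sg * (τ.im + sg * N * g.im) = sg * τ.im + N * g.im := by
      linear_combination (N * g.im) * h4
    rw [h5]
    have h6 : N * (a ^ 2 / 8) ≤ N * g.im := by gcongr
    have apos : 0 < a := by
      rcases a0.eq_or_lt with rfl | h
      · norm_num at h1; linarith
      · exact h
    have h7 : B < N * (a ^ 2 / 8) := by
      by_contra hh
      have hh' := mul_le_mul_of_nonneg_right (not_lt.mp hh) a0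
      nlinarith
    linarith [(abs_le.mp h3).1]

/-- The determinant is stable under small perturbations. -/
lemma dl_pert {δ B κ : ℝ} {μ τ μ' τ' : ℂ} (hd : δ ≤ τ.re * μ.im - τ.im * μ.re)
    (nμ : ‖μ‖ ≤ B) (nτ : ‖τ‖ ≤ B) (h1 : ‖μ' - μ‖ ≤ κ) (h2 : ‖τ' - τ‖ ≤ κ) (hκ : κ ≤ 1)
    (hs : κ * (4 * B + 2) < δ) : 0 < τ'.re * μ'.im - τ'.im * μ'.re := by
  have B0 : 0 ≤ B := (norm_nonneg _).trans nμ
  have κ0 : 0 ≤ κ := (norm_nonneg _).trans h1
  obtain ⟨x, rfl⟩ : ∃ x, μ' = μ + x := ⟨μ' - μ, by ring⟩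
  obtain ⟨y, rfl⟩ : ∃ y, τ' = τ + y := ⟨τ' - τ, by ring⟩
  rw [add_sub_cancel_left] at h1 h2
  have m1 : |μ.re| ≤ B := (Complex.abs_re_le_norm μ).trans nμ
  have m2 : |μ.im| ≤ B := (Complex.abs_im_le_norm μ).trans nμ
  have t1 : |τ.re| ≤ B := (Complex.abs_re_le_norm τ).trans nτ
  have t2 : |τ.im| ≤ B := (Complex.abs_im_le_norm τ).trans nτ
  have x1 : |x.re| ≤ κ := (Complex.abs_re_le_norm x).trans h1
  have x2 : |x.im| ≤ κ := (Complex.abs_im_le_norm x).trans h1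
  have y1 : |y.re| ≤ κ := (Complex.abs_re_le_norm y).trans h2
  have y2 : |y.im| ≤ κ := (Complex.abs_im_le_norm y).trans h2
  have k1 : |τ.re * x.im| ≤ B * κ := by rw [abs_mul]; gcongr
  have k2 : |y.re * μ.im| ≤ κ * B := by rw [abs_mul]; gcongr
  have k3 : |y.re * x.im| ≤ κ * 1 := by rw [abs_mul]; gcongr; linarith
  have k4 : |τ.im * x.re| ≤ B * κ := by rw [abs_mul]; gcongr
  have k5 : |y.im * μ.re| ≤ κ * B := by rw [abs_mul]; gcongr
  have k6 : |y.im * x.re| ≤ κ * 1 := by rw [abs_mul]; gcongr; linarith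
  simp only [Complex.add_re, Complex.add_im]
  rw [abs_le] at k1 k2 k3 k4 k5 k6
  nlinarith [k1.1, k2.1, k3.1, k4.2, k5.2, k6.2]

lemma inj_of_dl {A : G × G} (h : dl A ≠ 0) : Inj A := by
  intro a b hab
  have h1 := congrArg (fun v : G => v.2.re) hab
  have h2 := congrArg (fun v : G => v.2.im) hab
  simp only [Prod.snd_add, Prod.smul_snd, Complex.add_re, Complex.add_im, Complex.smul_re,
    Complex.smul_im, smul_eq_mul, Prod.snd_zero, Complex.zero_re, Complex.zero_im] at h1 h2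
  unfold dl at h
  constructor
  · apply mul_left_cancel₀ h
    linear_combination A.2.2.re * h2 - A.2.2.im * h1
  · apply mul_left_cancel₀ h
    linear_combination A.1.2.im * h1 - A.1.2.re * h2

/-- Quantitative injectivity of a transverse pair. -/
lemma norm_le_of_dl {A : G × G} {δ B : ℝ} (hd : δ ≤ dl A) (hδ : 0 < δ) (nA : ‖A‖ ≤ B) (v : Q) :
    δ * ‖v‖ ≤ 2 * B * ‖(ap A v).2‖ := by
  have n1 : ‖A.1.2‖ ≤ B := (norm_snd_le _).trans ((norm_fst_le A).trans nA)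
  have n2 : ‖A.2.2‖ ≤ B := (norm_snd_le _).trans ((norm_snd_le A).trans nA)
  have B0 : 0 ≤ B := (norm_nonneg _).trans nA
  have m1 : |A.1.2.re| ≤ B := (Complex.abs_re_le_norm _).trans n1
  have m2 : |A.1.2.im| ≤ B := (Complex.abs_im_le_norm _).trans n1
  have t1 : |A.2.2.re| ≤ B := (Complex.abs_re_le_norm _).trans n2
  have t2 : |A.2.2.im| ≤ B := (Complex.abs_im_le_norm _).trans n2
  have z1 := Complex.abs_re_le_norm (ap A v).2
  have z2 := Complex.abs_im_le_norm (ap A v).2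
  have e1 : dl A * v.1 = A.2.2.re * (ap A v).2.im - A.2.2.im * (ap A v).2.re := by
    simp only [dl, ap, Prod.snd_add, Prod.smul_snd, Complex.add_re, Complex.add_im,
      Complex.smul_re, Complex.smul_im, smul_eq_mul]
    ring
  have e2 : dl A * v.2 = A.1.2.im * (ap A v).2.re - A.1.2.re * (ap A v).2.im := by
    simp only [dl, ap, Prod.snd_add, Prod.smul_snd, Complex.add_re, Complex.add_im,
      Complex.smul_re, Complex.smul_im, smul_eq_mul]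
    ring
  have key : ∀ s p q x y : ℝ, dl A * s = p * x - q * y → |p| ≤ B → |q| ≤ B →
      |x| ≤ ‖(ap A v).2‖ → |y| ≤ ‖(ap A v).2‖ → δ * |s| ≤ 2 * B * ‖(ap A v).2‖ := by
    intro s p q x y e hp hq hx hy
    have h1 : |p * x| ≤ B * ‖(ap A v).2‖ := by rw [abs_mul]; gcongr
    have h2 : |q * y| ≤ B * ‖(ap A v).2‖ := by rw [abs_mul]; gcongr
    have h3 : |dl A * s| ≤ 2 * B * ‖(ap A v).2‖ := by
      rw [e]; refine (abs_sub _ _).trans ?_; linarith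
    rw [abs_mul, abs_of_pos (hδ.trans_le hd)] at h3
    nlinarith [abs_nonneg s]
  rw [Prod.norm_def, Real.norm_eq_abs, Real.norm_eq_abs]
  rcases le_total |v.1| |v.2| with h | h
  · rw [max_eq_right h]; exact key _ _ _ _ _ e2 m2 m1 z1 z2
  · rw [max_eq_left h]; exact key _ _ _ _ _ e1 t1 t2 z2 z1

end

end Bump

end Pool.Agent.Lib.MP_72f1d0_gt
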