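import Mathlib
import Pool.Agent.Lib.MP_72f1d0_gt.Formal

/-! The relative formal layer: fields of injective pairs fixed outside a closed periodic set. -/

open scoped ContDiff Topology
open Set Filter

namespace Pool.Agent.Lib.MP_72f1d0_gt

/-- A closed periodic set `K` and the values prescribed outside of it. -/
structure Rel where
  K : Set Q
  A0 : Q → G × G
  closed : IsClosed K
  per : PerSet K

namespace R

/-- The space of periodic fields of injective pairs equal to `A0` outside `K`. -/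
def II (X : Rel) : Type :=
  {A : C(Q, G × G) // Per A ∧ (∀ q, Inj (A q)) ∧ ∀ q, q ∉ X.K → A q = X.A0 q}

variable {X : Rel}

noncomputable instance : TopologicalSpace (II X) :=
  inferInstanceAs (TopologicalSpace
    {A : C(Q, G × G) // Per A ∧ (∀ q, Inj (A q)) ∧ ∀ q, q ∉ X.K → A q = X.A0 q})

noncomputable instance : CoeFun (II X) fun _ => Q → G × G := ⟨fun A => A.1⟩

namespace II

lemma ext' {A B : II X} (h : ∀ q, A q = B q) : A = B := Subtype.ext (ContinuousMap.ext h)

noncomputable def mk' (A : Q → G × G) (hc : Continuous A) (hp : Per A) (hi : ∀ q, Inj (A q))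
    (hr : ∀ q, q ∉ X.K → A q = X.A0 q) : II X :=
  ⟨⟨A, hc⟩, hp, hi, hr⟩

@[simp] lemma mk'_apply (A : Q → G × G) (hc : Continuous A) (hp : Per A) (hi : ∀ q, Inj (A q))
    (hr : ∀ q, q ∉ X.K → A q = X.A0 q) (q : Q) : mk' A hc hp hi hr q = A q := rfl

lemma cont (A : II X) : Continuous A := A.1.continuous
lemma per (A : II X) : Per A := A.2.1
lemma inj (A : II X) (q : Q) : Inj (A q) := A.2.2.1 q
lemma rel (A : II X) {q : Q} (hq : q ∉ X.K) : A q = X.A0 q := A.2.2.2 q hq

lemma continuous_ev : Continuous fun x : II X × Q => x.1 x.2 :=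
  (continuous_eval (F := C(Q, G × G))).comp
    ((continuous_subtype_val.comp continuous_fst).prodMk continuous_snd)

lemma continuous_of {Y : Type*} [TopologicalSpace Y] {k : Y → II X}
    (h : Continuous fun x : Y × Q => k x.1 x.2) : Continuous k :=
  Continuous.subtype_mk (ContinuousMap.continuous_of_continuous_uncurry (fun y => (k y).1) h) _

end II

lemma ext_cont {A B : II X} (γ : Path A B) : Continuous fun x : ℝ × Q => γ.extend x.1 x.2 :=
  II.continuous_ev.comp ((γ.continuous_extend.comp continuous_fst).prodMk continuous_snd)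

lemma ext_mem {A B : II X} (γ : Path A B) (s : ℝ) : ∃ t, γ.extend s = γ t := by
  have : γ.extend s ∈ range γ := by rw [← γ.extend_range]; exact mem_range_self s
  obtain ⟨t, ht⟩ := this
  exact ⟨t, ht.symm⟩

/-- A continuous periodic family of injective pairs, constant outside `K`. -/
structure IsFam (X : Rel) (K : ℝ × Q → G × G) : Prop where
  cont : Continuous K
  per : ∀ s, Per fun q => K (s, q)
  inj : ∀ s q, 0 ≤ s → s ≤ 1 → Inj (K (s, q))
  rel : ∀ s q, 0 ≤ s → s ≤ 1 → q ∉ X.K → K (s, q) = X.A0 q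

noncomputable def mkPath {A B : II X} {K : ℝ × Q → G × G} (h : IsFam X K)
    (h0 : ∀ q, K (0, q) = A q) (h1 : ∀ q, K (1, q) = B q) : Path A B where
  toFun t := II.mk' (fun q => K (t, q)) (h.cont.comp (by fun_prop)) (h.per t)
    (fun q => h.inj t q t.2.1 t.2.2) fun q => h.rel t q t.2.1 t.2.2
  continuous_toFun := II.continuous_of (h.cont.comp (f := fun x : UI × Q => ((x.1 : ℝ), x.2))
    (by fun_prop))
  source' := II.ext' h0
  target' := II.ext' h1

@[simp] lemma mkPath_apply {A B : II X} {K : ℝ × Q → G × G} (h : IsFam X K)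
    (h0 : ∀ q, K (0, q) = A q) (h1 : ∀ q, K (1, q) = B q) (t : UI) (q : Q) :
    mkPath h h0 h1 t q = K (t, q) := rfl

lemma ext_fam {A B : II X} (γ : Path A B) : IsFam X fun x => γ.extend x.1 x.2 :=
  ⟨ext_cont γ, fun s => (γ.extend s).per, fun s q _ _ => (γ.extend s).inj q,
    fun s _ _ _ hq => (γ.extend s).rel hq⟩

lemma square {K : ℝ × ℝ × Q → G × G} (hc : Continuous K) (hp : ∀ a b, Per fun q => K (a, b, q))
    (hi : ∀ a b q, 0 ≤ a → a ≤ 1 → 0 ≤ b → b ≤ 1 → Inj (K (a, b, q)))
    (hr' : ∀ a b q, 0 ≤ a → a ≤ 1 → 0 ≤ b → b ≤ 1 → q ∉ X.K → K (a, b, q) = X.A0 q)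
    {A B C D : II X} {b : Path A B} {r : Path B D} {l : Path A C} {t : Path C D}
    (hb : ∀ (u : UI) q, b u q = K (u, 0, q)) (hr : ∀ (u : UI) q, r u q = K (1, u, q))
    (hl : ∀ (u : UI) q, l u q = K (0, u, q)) (ht : ∀ (u : UI) q, t u q = K (u, 1, q)) :
    (b.trans r).Homotopic (l.trans t) := by
  let k : ℝ × ℝ → II X := fun x => II.mk' (fun q => K (cl x.1, cl x.2, q)) (hc.comp (by fun_prop))
    (hp _ _) (fun q => hi _ _ q (cl_nonneg _) (cl_le_one _) (cl_nonneg _) (cl_le_one _))
    fun q => hr' _ _ q (cl_nonneg _) (cl_le_one _) (cl_nonneg _) (cl_le_one _)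
  have hk : Continuous k := II.continuous_of
    (hc.comp (f := fun y : (ℝ × ℝ) × Q => (cl y.1.1, cl y.1.2, y.2)) (by fun_prop))
  exact square_top hk (fun u => II.ext' fun q => by simp [k, hb])
    (fun u => II.ext' fun q => by simp [k, hr]) (fun u => II.ext' fun q => by simp [k, hl])
    (fun u => II.ext' fun q => by simp [k, ht])

/-! ### Groupoid algebra -/

noncomputable abbrev hc {A B : II X} (γ : Path A B) : Path.Homotopic.Quotient A B := Path.Homotopic.Quotient.mk γ

lemma hc_eq {A B : II X} {γ γ' : Path A B} : hc γ = hc γ' ↔ γ.Homotopic γ' :=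
  Path.Homotopic.Quotient.eq

lemma hc_trans {A B C : II X} (γ : Path A B) (γ' : Path B C) :
    hc (γ.trans γ') = (hc γ).trans (hc γ') := rfl
lemma hc_symm {A B : II X} (γ : Path A B) : hc γ.symm = (hc γ).symm := rfl
lemma hc_refl (A : II X) : hc (Path.refl A) = Path.Homotopic.Quotient.refl A := rfl

open Path.Homotopic.Quotient in
lemma q_cancel₁ {A B C : II X} (p : Path.Homotopic.Quotient A B) (q : Path.Homotopic.Quotient A C) :
    p.trans (p.symm.trans q) = q := by rw [← trans_assoc, trans_symm, refl_trans]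

open Path.Homotopic.Quotient in
lemma q_cancel₂ {A B C : II X} (p : Path.Homotopic.Quotient A B) (q : Path.Homotopic.Quotient B C) :
    p.symm.trans (p.trans q) = q := by rw [← trans_assoc, symm_trans, refl_trans]

/-! ### Pointwise properties -/

def PW {A B : II X} (γ : Path A B) (P : Q → G × G → Prop) : Prop := ∀ t q, P q (γ t q)

lemma PW.trans {A B C : II X} {γ : Path A B} {γ' : Path B C} {P : Q → G × G → Prop} (h : PW γ P)
    (h' : PW γ' P) : PW (γ.trans γ') P := fun t q => by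
  rw [Path.trans_apply]
  split_ifs
  · exact h _ q
  · exact h' _ q

lemma PW.symm {A B : II X} {γ : Path A B} {P : Q → G × G → Prop} (h : PW γ P) : PW γ.symm P :=
  fun _ q => h _ q

lemma PW.mono {A B : II X} {γ : Path A B} {P P' : Q → G × G → Prop} (h : PW γ P)
    (hP : ∀ q x, P q x → P' q x) : PW γ P' := fun t q => hP _ _ (h t q)

lemma PW.and {A B : II X} {γ : Path A B} {P P' : Q → G × G → Prop} (h : PW γ P) (h' : PW γ P') :
    PW γ fun q x => P q x ∧ P' q x := fun t q => ⟨h t q, h' t q⟩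

lemma PW.source {A B : II X} {γ : Path A B} {P : Q → G × G → Prop} (h : PW γ P) (q : Q) :
    P q (A q) := by simpa using h 0 q

lemma PW.target {A B : II X} {γ : Path A B} {P : Q → G × G → Prop} (h : PW γ P) (q : Q) :
    P q (B q) := by simpa using h 1 q

lemma PW.extend {A B : II X} {γ : Path A B} {P : Q → G × G → Prop} (h : PW γ P) (s : ℝ) (q : Q) :
    P q (γ.extend s q) := by
  obtain ⟨t, ht⟩ := ext_mem γ s
  rw [ht]; exact h t q

lemma pw_refl {A : II X} {P : Q → G × G → Prop} (h : ∀ q, P q (A q)) : PW (Path.refl A) P :=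
  fun _ q => h q

/-! ### Segments -/

lemma seg_fam {A B : II X} (h : ∀ q, SegInj (A q) (B q)) :
    IsFam X fun x : ℝ × Q => A x.2 + x.1 • (B x.2 - A x.2) := by
  have hA := A.cont
  have hB := B.cont
  exact ⟨by fun_prop, fun s q m => by simp only [A.per q m, B.per q m],
    fun s q h0 h1 => h q s h0 h1, fun s q _ _ hq => by simp [A.rel hq, B.rel hq]⟩

noncomputable def seg (A B : II X) (h : ∀ q, SegInj (A q) (B q)) : Path A B :=
  mkPath (seg_fam h) (fun q => by simp) (fun q => by simp)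

lemma seg_apply (A B : II X) (h : ∀ q, SegInj (A q) (B q)) (t : UI) (q : Q) :
    seg A B h t q = A q + (t : ℝ) • (B q - A q) := rfl

lemma pw_seg {A B : II X} {h : ∀ q, SegInj (A q) (B q)} {P : Q → G × G → Prop}
    (hP : ∀ q (u : ℝ), 0 ≤ u → u ≤ 1 → P q (A q + u • (B q - A q))) : PW (seg A B h) P :=
  fun t q => hP q t t.2.1 t.2.2

lemma seg_square {A A' B B' : II X} (x : Path A A') (y : Path B B')
    (h : ∀ t q, SegInj (x t q) (y t q)) (h0 : ∀ q, SegInj (A q) (B q))
    (h1 : ∀ q, SegInj (A' q) (B' q)) :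
    (hc x).trans (hc (seg A' B' h1)) = (hc (seg A B h0)).trans (hc y) := by
  rw [← hc_trans, ← hc_trans, hc_eq]
  have hx := ext_cont x
  have hy := ext_cont y
  refine square (K := fun z : ℝ × ℝ × Q =>
    x.extend z.1 z.2.2 + z.2.1 • (y.extend z.1 z.2.2 - x.extend z.1 z.2.2)) ?_ ?_ ?_ ?_ ?_ ?_ ?_ ?_
  · have h1 : Continuous fun z : ℝ × ℝ × Q => x.extend z.1 z.2.2 :=
      hx.comp (f := fun z : ℝ × ℝ × Q => (z.1, z.2.2)) (by fun_prop)
    have h2 : Continuous fun z : ℝ × ℝ × Q => y.extend z.1 z.2.2 :=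
      hy.comp (f := fun z : ℝ × ℝ × Q => (z.1, z.2.2)) (by fun_prop)
    exact h1.add (continuous_snd.fst.smul (h2.sub h1))
  · intro a b q m
    simp only [(x.extend a).per q m, (y.extend a).per q m]
  · intro a b q a0 a1 b0 b1
    have := h ⟨a, a0, a1⟩ q b b0 b1
    rwa [← x.extend_extends' ⟨a, a0, a1⟩, ← y.extend_extends' ⟨a, a0, a1⟩] at this
  · intro a b q _ _ _ _ hq
    simp [(x.extend a).rel hq, (y.extend a).rel hq]
  · intro u q; simp
  · intro u q; simp [seg_apply]
  · intro u q; simp [seg_apply]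
  · intro u q; simp

lemma seg_self (A : II X) (h : ∀ q, SegInj (A q) (A q)) : seg A A h = Path.refl A := by
  ext1; funext t; exact II.ext' fun q => by simp [seg_apply]

/-! ### Truncation and reparametrisation -/

lemma trunc {A N : II X} (γ : Path A N) {c : Q → ℝ} (hc' : Continuous c) (hp : Per c) :
    ∃ (E : II X) (γ₁ : Path A E) (γ₂ : Path E N), (∀ q, E q = γ.extend (c q) q) ∧
      (∀ (t : UI) q, γ₁ t q = γ.extend (c q * t) q) ∧
      (∀ (t : UI) q, γ₂ t q = γ.extend (c q + (1 - c q) * t) q) ∧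
      hc γ = (hc γ₁).trans (hc γ₂) := by
  have hγ := ext_cont γ
  have key : ∀ {Y : Type} [TopologicalSpace Y] (φ : Y → ℝ) (π : Y → Q), Continuous φ →
      Continuous π → Continuous fun y => γ.extend (φ y) (π y) := fun φ π h1 h2 =>
    hγ.comp (f := fun y => (φ y, π y)) (h1.prodMk h2)
  let E : II X := II.mk' (fun q => γ.extend (c q) q) (key _ _ hc' continuous_id)
    (fun q m => by simp only [hp q m, (γ.extend _).per q m]) (fun q => (γ.extend _).inj q)
    fun q hq => (γ.extend _).rel hq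
  have f1 : IsFam X fun x : ℝ × Q => γ.extend (c x.2 * x.1) x.2 :=
    ⟨key _ _ (by fun_prop) continuous_snd, fun s q m => by
      simp only [hp q m, (γ.extend _).per q m], fun s q _ _ => (γ.extend _).inj q,
      fun s q _ _ hq => (γ.extend _).rel hq⟩
  have f2 : IsFam X fun x : ℝ × Q => γ.extend (c x.2 + (1 - c x.2) * x.1) x.2 :=
    ⟨key _ _ (by fun_prop) continuous_snd, fun s q m => by
      simp only [hp q m, (γ.extend _).per q m], fun s q _ _ => (γ.extend _).inj q,
      fun s q _ _ hq => (γ.extend _).rel hq⟩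
  refine ⟨E, mkPath f1 (fun q => by simp) (fun q => by simp [E]),
    mkPath f2 (fun q => by simp [E]) (fun q => by simp), fun q => rfl, fun t q => rfl,
    fun t q => rfl, ?_⟩
  rw [← Path.Homotopic.Quotient.trans_refl (hc γ), ← hc_refl, ← hc_trans, ← hc_trans, hc_eq]
  refine Path.Homotopic.symm (square (K := fun z : ℝ × ℝ × Q =>
    γ.extend (z.2.1 + (1 - z.2.1) * (c z.2.2 * z.1)) z.2.2) (key _ _ (by fun_prop) (by fun_prop))
    ?_ ?_ ?_ ?_ ?_ ?_ ?_)
  · intro a b q m
    simp only [hp q m, (γ.extend _).per q m]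
  · intro a b q _ _ _ _
    exact (γ.extend _).inj q
  · intro a b q _ _ _ _ hq
    exact (γ.extend _).rel hq
  · intro u q; simp
  · intro u q
    simp only [mkPath_apply]
    rw [show (u : ℝ) + (1 - u) * (c q * 1) = c q + (1 - c q) * u by ring]
  · intro u q; simp
  · intro u q; simp

lemma hc_reparam {A B : II X} (γ γ' : Path A B) {φ : ℝ → ℝ} (hφ : Continuous φ) (h0 : φ 0 = 0)
    (h1 : φ 1 = 1) (h : ∀ t : UI, γ' t = γ.extend (φ t)) : hc γ' = hc γ := by
  rw [← Path.Homotopic.Quotient.trans_refl (hc γ'), ← Path.Homotopic.Quotient.refl_trans (hc γ),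
    ← hc_refl, ← hc_refl, ← hc_trans, ← hc_trans, hc_eq]
  refine square_top (k := fun z : ℝ × ℝ => γ.extend ((1 - z.2) * φ z.1 + z.2 * z.1))
    (γ.continuous_extend.comp (by fun_prop)) ?_ ?_ ?_ ?_
  · intro u; simp [h]
  · intro u; simp [h1]
  · intro u; simp [h0]
  · intro u; simp

/-! ### Isotopies -/

/-- An embedding whose differential is `A0` outside `K`. -/
structure Emb (c : Ctx) (X : Rel) (f : Q → G) : Prop extends IsEmb c f where
  rel : ∀ q, q ∉ X.K → dd c f q = X.A0 q

noncomputable def Emb.d {c : Ctx} {f : Q → G} (hf : Emb c X f) : II X :=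
  II.mk' (dd c f) hf.dd_smooth.continuous hf.dd_per hf.imm hf.rel

@[simp] lemma Emb.d_apply {c : Ctx} {f : Q → G} (hf : Emb c X f) (q : Q) : hf.d q = dd c f q := rfl

/-- An isotopy fixed outside `K` that moves points by at most `ε`. -/
structure IsoR (c : Ctx) (X : Rel) (f F : Q → G) (ε : ℝ) extends Iso c f F where
  out : ∀ l q, q ∉ X.K → H l q = f q
  near : ∀ l q, ‖H l q - f q‖ ≤ ε

namespace IsoR

variable {c : Ctx} {f F F' : Q → G} {ε ε' : ℝ}

lemma dd_out (J : IsoR c X f F ε) (l : ℝ) {q : Q} (hq : q ∉ X.K) : dd c (J.H l) q = dd c f q :=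
  dd_congr_open c X.closed.isOpen_compl (fun q hq => J.out l q hq) hq

lemma embR (J : IsoR c X f F ε) (hf : Emb c X f) (l : ℝ) : Emb c X (J.H l) :=
  ⟨J.emb l, fun q hq => (J.dd_out l hq).trans (hf.rel q hq)⟩

lemma emb1R (J : IsoR c X f F ε) (hf : Emb c X f) : Emb c X F := J.h1 ▸ J.embR hf 1

lemma fam (J : IsoR c X f F ε) (hf : Emb c X f) :
    IsFam X fun x : ℝ × Q => dd c (J.H x.1) x.2 :=
  ⟨J.toIso.dd_cont, fun s => (J.emb s).dd_per, fun s q _ _ => (J.emb s).imm q,
    fun s q _ _ hq => (J.embR hf s).rel q hq⟩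

noncomputable def path (J : IsoR c X f F ε) (hf : Emb c X f) (hF : Emb c X F) : Path hf.d hF.d :=
  mkPath (J.fam hf) (fun q => by simp [J.h0]) (fun q => by simp [J.h1])

lemma path_apply (J : IsoR c X f F ε) (hf : Emb c X f) (hF : Emb c X F) (t : UI) (q : Q) :
    J.path hf hF t q = dd c (J.H t) q := rfl

lemma path_extend (J : IsoR c X f F ε) (hf : Emb c X f) (hF : Emb c X F) {s : ℝ} (h0 : 0 ≤ s)
    (h1 : s ≤ 1) (q : Q) : (J.path hf hF).extend s q = dd c (J.H s) q := by
  rw [Path.extend_apply _ ⟨h0, h1⟩]; rfl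

def refl (hf : Emb c X f) : IsoR c X f f 0 where
  toIso := Iso.refl hf.toIsEmb
  out _ _ _ := rfl
  near _ _ := by simp [Iso.refl]

lemma refl_path (hf : Emb c X f) : (refl hf).path hf hf = Path.refl _ := by
  ext1; funext t; exact II.ext' fun q => rfl

def mono (J : IsoR c X f F ε) (h : ε ≤ ε') : IsoR c X f F ε' where
  toIso := J.toIso
  out := J.out
  near l q := (J.near l q).trans h

lemma mono_path (J : IsoR c X f F ε) (h : ε ≤ ε') (hf : Emb c X f) (hF : Emb c X F) :
    (J.mono h).path hf hF = J.path hf hF := rfl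

lemma nonneg (J : IsoR c X f F ε) : 0 ≤ ε := (norm_nonneg _).trans (J.near 0 0)

noncomputable def trans (J : IsoR c X f F ε) (J' : IsoR c X F F' ε') : IsoR c X f F' (ε + ε') where
  toIso := J.toIso.trans J'.toIso
  out l q hq := by
    rw [Iso.trans_H]
    split_ifs
    · exact J.out _ q hq
    · rw [J'.out _ q hq, ← J.out 1 q hq, J.h1]
  near l q := by
    rw [Iso.trans_H]
    split_ifs
    · linarith [J.near (Real.smoothTransition (2 * l)) q, J'.nonneg]
    · have h1 := J.near 1 q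
      rw [J.h1] at h1
      exact (norm_sub_le_norm_sub_add_norm_sub _ (F q) _).trans
        (by linarith [J'.near (Real.smoothTransition (2 * l - 1)) q])

lemma trans_H (J : IsoR c X f F ε) (J' : IsoR c X F F' ε') (l : ℝ) :
    (J.trans J').H l = if l ≤ 1 / 2 then J.H (Real.smoothTransition (2 * l))
      else J'.H (Real.smoothTransition (2 * l - 1)) := Iso.trans_aux J.toIso J'.toIso l

lemma path_trans (J : IsoR c X f F ε) (J' : IsoR c X F F' ε') (hf : Emb c X f)
    (hF : Emb c X F) (hF' : Emb c X F') :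
    hc ((J.trans J').path hf hF') = (hc (J.path hf hF)).trans (hc (J'.path hF hF')) := by
  rw [← hc_trans]
  have hs := Real.smoothTransition.continuous
  refine hc_reparam _ _ (φ := fun l => Real.smoothTransition (2 * l) / 2 +
    Real.smoothTransition (2 * l - 1) / 2) (by fun_prop) ?_ ?_ fun t => II.ext' fun q => ?_
  · simp [Real.smoothTransition.zero_of_nonpos]
  · norm_num [Real.smoothTransition.one_of_one_le]
  · rw [path_apply, trans_H]
    have n0 := Real.smoothTransition.nonneg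
    have n1 := Real.smoothTransition.le_one
    split_ifs with h
    · rw [Real.smoothTransition.zero_of_nonpos (by linarith : 2 * (t : ℝ) - 1 ≤ 0),
        Path.extend_trans_of_le_half _ _ (by linarith [n1 (2 * t)]), path_extend]
      · congr 2; ring
      · linarith [n0 (2 * t)]
      · linarith [n1 (2 * t)]
    · rw [Real.smoothTransition.one_of_one_le (by linarith : 1 ≤ 2 * (t : ℝ)),
        Path.extend_trans_of_half_le _ _ (by linarith [n0 (2 * t - 1)]), path_extend]
      · congr 2; ring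
      · linarith [n0 (2 * t - 1)]
      · linarith [n1 (2 * t - 1)]

end IsoR

/-! ### Local improvement -/

/-- After an isotopy supported in `K` and `ε`-small, the formal path satisfies `P`. -/
def Loc {c : Ctx} {f : Q → G} (hf : Emb c X f) {E : II X} (γ : Path hf.d E)
    (P : Q → G × G → Prop) (ε : ℝ) : Prop :=
  ∃ (F : Q → G) (hF : Emb c X F) (J : IsoR c X f F ε) (γ' : Path hF.d E),
    (hc (J.path hf hF)).trans (hc γ') = hc γ ∧ PW γ' P

section

open Path.Homotopic.Quotient

variable {c : Ctx} {f F : Q → G} {hf : Emb c X f} {hF : Emb c X F} {E E' : II X}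
  {P P' : Q → G × G → Prop} {ε ε' : ℝ}

lemma Loc.of_pw {γ : Path hf.d E} (h : PW γ P) : Loc hf γ P 0 :=
  ⟨f, hf, IsoR.refl hf, γ, by rw [IsoR.refl_path, hc_refl, refl_trans], h⟩

lemma Loc.mono {γ : Path hf.d E} (h : Loc hf γ P ε) (hP : ∀ q x, P q x → P' q x) (hε : ε ≤ ε') :
    Loc hf γ P' ε' := by
  obtain ⟨F, hF, J, γ', h1, h2⟩ := h
  exact ⟨F, hF, J.mono hε, γ', h1, h2.mono hP⟩

lemma Loc.of_iso {γ : Path hf.d E} {γ' : Path hF.d E} (J : IsoR c X f F ε)
    (h : (hc (J.path hf hF)).trans (hc γ') = hc γ) (hs : Loc hF γ' P ε') :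
    Loc hf γ P (ε + ε') := by
  obtain ⟨F', hF', J', γ'', h1, h2⟩ := hs
  exact ⟨F', hF', J.trans J', γ'', by rw [IsoR.path_trans J J' hf hF hF', trans_assoc, h1, h], h2⟩

lemma Loc.bind {γ : Path hf.d E} (h : Loc hf γ P ε)
    (h' : ∀ (F : Q → G) (hF : Emb c X F) (γ' : Path hF.d E), PW γ' P → Loc hF γ' P' ε') :
    Loc hf γ P' (ε + ε') := by
  obtain ⟨F, hF, J, γ', h1, h2⟩ := h
  exact Loc.of_iso J h1 (h' F hF γ' h2)

lemma Loc.congr {γ γ' : Path hf.d E} (h : hc γ' = hc γ) (hs : Loc hf γ' P ε) : Loc hf γ P ε := by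
  obtain ⟨F, hF, J, γ'', h1, h2⟩ := hs
  exact ⟨F, hF, J, γ'', h1.trans h, h2⟩

/-- Working with a temporary end point. -/
lemma Loc.append {γ : Path hf.d E} {γ' : Path hf.d E'} (Λ : Path E' E)
    (h : (hc γ').trans (hc Λ) = hc γ) (hΛ : PW Λ P) (hs : Loc hf γ' P ε) : Loc hf γ P ε := by
  obtain ⟨F, hF, J, γ'', h1, h2⟩ := hs
  exact ⟨F, hF, J, γ''.trans Λ, by rw [hc_trans, ← trans_assoc, h1, h], h2.trans hΛ⟩

end

/-- The concrete homotopy behind `Loc`. -/
theorem Loc.sol {c : Ctx} {f : Q → G} {hf : Emb c X f} {E : II X} {γ : Path hf.d E}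
    {P : Q → G × G → Prop} {ε : ℝ} (h : Loc hf γ P ε) :
    ∃ (F : Q → G) (J : IsoR c X f F ε) (K : ℝ × ℝ × Q → G × G), Continuous K ∧
      (∀ l s, Per fun q => K (l, s, q)) ∧ (∀ x, Inj (K x)) ∧
      (∀ l s q, q ∉ X.K → K (l, s, q) = X.A0 q) ∧
      (∀ l q, K (l, 0, q) = dd c (J.H l) q) ∧ (∀ l q, K (l, 1, q) = E q) ∧
      (∀ s q, K (0, s, q) = γ.extend s q) ∧ ∀ s q, P q (K (1, s, q)) := by
  obtain ⟨F, hF, J, γ', hh, hP⟩ := h
  let π : Path hf.d E := (J.path hf hF).trans γ'
  have hπ : γ.Homotopic π := by rw [← hc_eq, hc_trans, hh]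
  obtain ⟨Θ⟩ := hπ
  have hs := Real.smoothTransition.continuous
  have n0 := Real.smoothTransition.nonneg
  have n1 := Real.smoothTransition.le_one
  let φ : ℝ → ℝ := fun l => Real.smoothTransition (2 * l - 1)
  let K : ℝ × ℝ → II X := fun x => if x.1 ≤ 1 / 2 then
    Θ (projIcc 0 1 zero_le_one (2 * x.1), projIcc 0 1 zero_le_one x.2)
    else π.extend (φ x.1 / 2 + cl x.2 * (1 - φ x.1 / 2))
  have hφ0 : ∀ l : ℝ, l ≤ 1 / 2 → φ l = 0 := fun l hl =>
    Real.smoothTransition.zero_of_nonpos (by linarith)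
  have hcl : ∀ s : ℝ, cl s = (projIcc 0 1 zero_le_one s : ℝ) := fun s => by
    rw [coe_projIcc, cl, min_comm]
  have hK : Continuous K := by
    refine Continuous.if_le ?_ ?_ (by fun_prop) continuous_const fun x hx => ?_
    · exact Θ.continuous.comp ((continuous_projIcc.comp (by fun_prop)).prodMk
        (continuous_projIcc.comp continuous_snd))
    · exact π.continuous_extend.comp (by fun_prop)
    · rw [hφ0 _ hx.le, hx, hcl]
      norm_num
  have h1 : φ 1 = 1 := Real.smoothTransition.one_of_one_le (by norm_num)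
  let J' : IsoR c X f F ε :=
    { H := fun l => J.H (φ l)
      smooth := J.smooth.comp ((Real.smoothTransition.contDiff.comp
        (f := fun x : ℝ × Q => 2 * x.1 - 1) (by fun_prop)).prodMk contDiff_snd)
      emb := fun l => J.emb _
      h0 := by simp only [hφ0 0 (by norm_num), J.h0]
      h1 := by simp only [h1, J.h1]
      out := fun l => J.out _
      near := fun l => J.near _ }
  refine ⟨F, J', fun x => K (x.1, x.2.1) x.2.2, ?_, fun l s => (K (l, s)).per,
    fun x => (K _).inj _, fun l s q hq => (K _).rel hq, fun l q => ?_, fun l q => ?_,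
    fun s q => ?_, fun s q => ?_⟩
  · exact II.continuous_ev.comp (f := fun x : ℝ × ℝ × Q => (K (x.1, x.2.1), x.2.2))
      ((hK.comp (by fun_prop)).prodMk (by fun_prop))
  · simp only [K, J']
    split_ifs with hl
    · rw [projIcc_left, show (⟨0, left_mem_Icc.2 zero_le_one⟩ : UI) = 0 from rfl, Θ.source,
        hφ0 _ hl, J.h0]; rfl
    · rw [Path.extend_trans_of_le_half _ _ (by simp; linarith [n1 (2 * l - 1)]), IsoR.path_extend]
      · congr 2; simp; ring
      · simp; linarith [n0 (2 * l - 1)]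
      · simp; linarith [n1 (2 * l - 1)]
  · simp only [K]
    split_ifs with hl
    · rw [projIcc_right, show (⟨1, right_mem_Icc.2 zero_le_one⟩ : UI) = 1 from rfl, Θ.target]
    · simp
  · simp only [K]
    norm_num
    rfl
  · have h2 : ¬ ((1 : ℝ) ≤ 1 / 2) := by norm_num
    simp only [K, h2, if_false, h1]
    rw [Path.extend_trans_of_half_le _ _ (by linarith [cl_nonneg s])]
    exact hP.extend _ q

end R
end Pool.Agent.Lib.MP_72f1d0_gt
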