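import Mathlib
import Pool.Agent.Lib.MP_72f1d0_gt.RFormal
import Pool.Agent.Lib.MP_72f1d0_gt.Run

/-! Statements of the modules of the relative and equivariant version of the proof. -/

open scoped ContDiff Manifold Topology

namespace Pool.Agent.Lib.MP_72f1d0_gt

/-! ### Analytic operations with control of the displacement -/

def Corr2Stmt : Prop :=
  ∀ (c : Ctx) (f : Q → G), IsEmb c f →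
  ∀ ℓ : Q →L[ℝ] ℝ, (∀ m, ∃ k : ℤ, ℓ (lat m) = k) →
  ∀ ν : Q → ℝ, ContDiff ℝ ∞ ν → Per ν →
  ∀ n₁ n₂ : Q → G, Continuous n₁ → Continuous n₂ → Per n₁ → Per n₂ →
  (∀ q (v : Q) (x y : ℝ), |x| ≤ |ℓ v| / 2 → |y| ≤ |ℓ v| →
    ap (dd c f q) v + (x * ν q) • n₁ q + (y * ν q) • n₂ q = 0 → v = 0) →
  ∀ ε : ℝ, 0 < ε → ∃ (F : Q → G) (J : Iso c f F),
    (∀ l q, ν q = 0 → J.H l q = f q) ∧ (∀ l q, ‖J.H l q - f q‖ ≤ ε) ∧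
    ∀ l q, ∃ θ a : ℝ, 0 ≤ a ∧ a ≤ 1 ∧ (l = 1 → a = 1) ∧ ∀ v : Q,
      ‖ap (dd c (J.H l) q) v - (ap (dd c f q) v + (ℓ v * (a * ν q)) •
        ((-(Real.cos (2 * θ)) / 2) • n₁ q + Real.cos θ • n₂ q))‖ ≤ ε * ‖v‖

def Snake2Stmt : Prop :=
  ∀ c : Ctx, c.Nrm → ∀ f : Q → G, IsEmb c f →
  ∀ j n : Q → G, ContDiff ℝ ∞ j → ContDiff ℝ ∞ n → Per j → Per n →
  ∀ O K K₂ : Set Q, IsOpen O → PerSet O → IsClosed K → PerSet K → K ⊆ O →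
    IsClosed K₂ → PerSet K₂ →
  (∀ q ∈ O, Ind4 (dd c f q).1 (dd c f q).2 (j q) (n q) ∧
    Ind4 (dd c f q).1 (j q) (n q) vW ∧ 0 < al (n q)) →
  (∀ q ∈ K₂, q ∈ K ∨ 0 < al (dd c f q).2) →
  (∀ q, SegInj (dd c f q) ((dd c f q).1, n q)) →
  ∀ ε : ℝ, 0 < ε → ∃ (F : Q → G) (J : Iso c f F) (p : ℝ × Q → G),
    Continuous p ∧ (∀ l, Per fun q => p (l, q)) ∧ (∀ q, p (0, q) = n q) ∧
    (∀ l q, q ∉ O → J.H l q = f q ∧ p (l, q) = n q) ∧ (∀ l q, ‖J.H l q - f q‖ ≤ ε) ∧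
    (∀ l q, ‖(dd c (J.H l) q).1 - (dd c f q).1‖ ≤ ε ∧ ‖p (l, q) - n q‖ ≤ ε ∧
      SegInj (dd c (J.H l) q) ((dd c (J.H l) q).1, p (l, q))) ∧
    ∀ q ∈ K₂, 0 < al (dd c F q).2

/-- The helix with a general phase `φ`. -/
def GBStmt : Prop :=
  ∀ (c : Ctx) (f : Q → G), IsEmb c f →
  ∀ ν : Q → ℝ, ContDiff ℝ ∞ ν → Per ν → (∀ q, 0 ≤ ν q ∧ ν q ≤ 1) →
  ∀ sg : ℝ, sg = 1 ∨ sg = -1 →
  ∀ K : Set Q, IsClosed K → PerSet K → (∀ q, q ∉ K → ν q = 0) →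
  ∀ φ : Q → ℝ, ContDiff ℝ ∞ φ → (∀ m, ∃ k : ℤ, ∀ q, φ (q + lat m) = φ q + k) →
  (∀ q ∈ K, 0 < dl (dd c f q) ∧
    0 < fderiv ℝ φ q (1, 0) * al (dd c f q).2 - fderiv ℝ φ q (0, 1) * al (dd c f q).1) →
  ∀ ε B : ℝ, 0 < ε → ∃ (F : Q → G) (J : Iso c f F),
    (∀ l q, ν q = 0 → J.H l q = f q) ∧ (∀ l q, ‖J.H l q - f q‖ ≤ ε) ∧
    ∀ l, ∀ q ∈ K, 0 < dl (dd c (J.H l) q) ∧ ∃ x : ℝ, sg * x ≤ 0 ∧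
      |al (dd c (J.H l) q).1 - al (dd c f q).1 - fderiv ℝ φ q (1, 0) * x| ≤ ε ∧
      |al (dd c (J.H l) q).2 - al (dd c f q).2 - fderiv ℝ φ q (0, 1) * x| ≤ ε ∧
      (l = 1 → ν q = 1 → B ≤ |x|)

/-- Small graphs in the direction `ζ`. -/
def LTStmt : Prop :=
  ∀ (c : Ctx) (f : Q → G), IsEmb c f → ∀ ζ : Q → G, ContDiff ℝ ∞ ζ → Per ζ →
  (∀ q, Ind3 (dd c f q).1 (ζ q) (dd c f q).2) → ∀ Cb κ : ℝ, 0 < κ → ∃ ρ : ℝ, 0 < ρ ∧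
  ∀ h : Q → ℝ, ContDiff ℝ ∞ h → Per h → (∀ q, |h q| ≤ ρ) →
  (∀ q, |fderiv ℝ h q (1, 0)| ≤ Cb ∧ |fderiv ℝ h q (0, 1)| ≤ Cb) →
  ∃ (F : Q → G) (J : Iso c f F),
    (∀ l q, h q = 0 → J.H l q = f q) ∧ (∀ l q, ‖J.H l q - f q‖ ≤ κ) ∧
    ∀ l q, ∃ a : ℝ, 0 ≤ a ∧ a ≤ 1 ∧ (l = 1 → a = 1) ∧
      ‖dd c (J.H l) q - ((dd c f q).1 + (a * fderiv ℝ h q (1, 0)) • ζ q,
        (dd c f q).2 + (a * fderiv ℝ h q (0, 1)) • ζ q)‖ ≤ κ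

/-- The normalised coordinate across the strip `0 ≤ s ≤ 1 / r`. -/
noncomputable def xr (r : ℕ) (s : ℝ) : ℝ := r * Int.fract s

def RelProfileStmt (η : ℝ) : Prop :=
  ∀ (r : ℕ), 1 ≤ r → ∀ H κ₀ κ₁ b₀ : ℝ, 0 < H → 0 < κ₀ → 0 < κ₁ → 0 < b₀ →
  ∃ Ca : ℝ, 0 < Ca ∧ ∀ C ρ : ℝ, 0 < C → 0 < ρ →
  ∃ (h : ℝ → ℝ → ℝ) (g : ℝ → ℝ → ℂ), AdmFam H Ca ρ (fun _ θ => θ) h g ∧
    (∀ l θ, xr r θ ≤ η ∨ 1 - η ≤ xr r θ → h l θ = 0 ∧ g l θ = 0) ∧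
    ∀ θ b κ : ℝ, xr r θ ≤ 1 → |b| ≤ H → |κ| ≤ κ₁ →
      (51 / 100 ≤ xr r θ → xr r θ ≤ 99 / 100 → κ₀ ≤ κ) →
      (1 / 100 ≤ xr r θ → xr r θ ≤ 49 / 100 → κ ≤ -κ₀) →
      (xr r θ ≤ 1 / 20 ∨ (45 / 100 ≤ xr r θ ∧ xr r θ ≤ 55 / 100) ∨ 19 / 20 ≤ xr r θ → b₀ ≤ b) →
      C * err (fun θ => θ) (h 1) (g 1) θ < b + deriv (h 1) θ + κ * area (g 1) θ

def RelBeadStmt (η : ℝ) : Prop :=
  ∀ (c : Ctx) (f : Q → G), IsEmb c f → ∀ r : ℕ, 1 ≤ r →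
  ∀ ζ : Q → G, ContDiff ℝ ∞ ζ → Per ζ → (∀ q, Ind3 (dd c f q).1 (ζ q) (dd c f q).2) →
  (∀ q : Q, η / 2 ≤ xr r q.1 → xr r q.1 ≤ 1 - η / 2 → 0 < dl (ζ q, (dd c f q).2) ∧
    (51 / 100 ≤ xr r q.1 → xr r q.1 ≤ 99 / 100 → 0 < al (dd c f q).2) ∧
    (1 / 100 ≤ xr r q.1 → xr r q.1 ≤ 49 / 100 → al (dd c f q).2 < 0) ∧
    (xr r q.1 ≤ 1 / 20 ∨ (45 / 100 ≤ xr r q.1 ∧ xr r q.1 ≤ 55 / 100) ∨ 19 / 20 ≤ xr r q.1 →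
      0 < dl (dd c f q))) →
  ∀ ε : ℝ, 0 < ε → ∃ (F : Q → G) (J : Iso c f F),
    (∀ l (q : Q), xr r q.1 ≤ η ∨ 1 - η ≤ xr r q.1 → J.H l q = f q) ∧
    (∀ l q, ‖J.H l q - f q‖ ≤ ε) ∧
    (∀ l q, SegInj (dd c (J.H l) q) (ζ q, (dd c (J.H l) q).2)) ∧
    ∀ q : Q, η / 2 ≤ xr r q.1 → xr r q.1 ≤ 1 - η / 2 →
      (∀ l, 0 < dl (ζ q, (dd c (J.H l) q).2)) ∧ 0 < dl (dd c F q)

/-- The direction of the line field `ker α`, as a complex number. -/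
def aa (A : G × G) : ℂ := ⟨al A.2, -al A.1⟩

/-- Straightening of the foliation near a circle inside a transverse band. -/
def R0Stmt : Prop :=
  ∀ (c : Ctx) (f : Q → G), IsEmb c f → ∀ s₀ δ₀ : ℝ, 0 < δ₀ → δ₀ < s₀ → s₀ + δ₀ < 1 →
  (∀ q : Q, |Int.fract q.1 - s₀| ≤ δ₀ → 0 < dl (dd c f q)) →
  ∀ Λ : Q → ℂ, Continuous Λ → (∀ q, Λ (q + (0, 1)) = Λ q) →
  (∀ q : Q, |q.1 - s₀| ≤ δ₀ → Complex.exp (Λ q) = aa (dd c f q)) →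
  ∀ θ ε : ℝ, 0 < ε → ∃ (F : Q → G) (J : Iso c f F) (δ₁ : ℝ) (Λ' : Q → ℂ), 0 < δ₁ ∧
    (∀ l (q : Q), δ₀ ≤ |Int.fract q.1 - s₀| → J.H l q = f q) ∧ (∀ l q, ‖J.H l q - f q‖ ≤ ε) ∧
    (∀ l (q : Q), |Int.fract q.1 - s₀| ≤ δ₀ → 0 < dl (dd c (J.H l) q)) ∧
    Continuous Λ' ∧ (∀ q, Λ' (q + (0, 1)) = Λ' q) ∧
    (∀ q : Q, |q.1 - s₀| ≤ δ₀ → Complex.exp (Λ' q) = aa (dd c F q)) ∧
    (∀ q : Q, δ₀ ≤ |q.1 - s₀| → Λ' q = Λ q) ∧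
    ∀ q : Q, |q.1 - s₀| ≤ δ₁ → |(Λ' q).im - θ| < Real.pi / 2

/-! ### Local stages in the relative formal layer -/

/-- `E` has a normal frame which is `(X, W)` on `Z`. -/
def HasNF (E : Q → G × G) (Z : Set Q) : Prop :=
  ∃ x w : Q → G, Continuous x ∧ Continuous w ∧ Per x ∧ Per w ∧
    (∀ q, Ind4 (E q).1 (E q).2 (x q) (w q)) ∧ ∀ q ∈ Z, x q = vX ∧ w q = vW

/-- `ν` vanishes near `q`. -/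
def Away (ν : Q → ℝ) (q : Q) : Prop := ∀ᶠ q' in 𝓝 q, ν q' = 0

/-- Makes the second vector transverse to `D`. -/
def TauMoveStmt : Prop :=
  ∀ (c : Ctx) (X : Rel) (f : Q → G) (hf : R.Emb c X f) (E : R.II X) (γ : Path hf.d E)
    (Z : Set Q) (ν : Q → ℝ), ContDiff ℝ ∞ ν → Per ν → (∀ q, 0 ≤ ν q ∧ ν q ≤ 1) →
  (∀ q, q ∉ X.K → ν q = 0) → (∀ q, ν q = 1 ∨ ∀ t, γ t q = E q) → HasNF E Z →
  ∀ ε : ℝ, 0 < ε →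
  R.Loc hf γ (fun q x => (q ∈ Z → x.2.2 ≠ 0) ∧ (Away ν q → x = E q)) ε

/-- Moves only the first vector. -/
def Move2Stmt : Prop :=
  ∀ (c : Ctx) (X : Rel) (f : Q → G) (hf : R.Emb c X f) (E : R.II X) (γ : Path hf.d E)
    (ν c₁ c₂ k : Q → ℝ) (Y Zb Z₂ : Set Q), ContDiff ℝ ∞ ν → Per ν → (∀ q, 0 ≤ ν q ∧ ν q ≤ 1) →
  Continuous c₁ → Per c₁ → (∀ q, 0 ≤ c₁ q ∧ c₁ q ≤ 1) →
  Continuous c₂ → Per c₂ → (∀ q, 0 ≤ c₂ q ∧ c₂ q ≤ 1) →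
  Continuous k → Per k → (∀ q, 0 ≤ k q ∧ k q ≤ 1) →
  IsClosed Y → (∀ q, q ∉ Y → c₁ q = 0) → R.PW γ (fun q x => q ∈ Y → x.2.2 ≠ 0) →
  (∀ q, ν q = 1 ∨ c₁ q = 0) → (∀ q, q ∉ X.K → ν q = 0 ∧ k q = 0) → (∀ q, k q = 1 ∨ Away ν q) →
  HasNF E Zb → (∀ q ∈ Zb, 0 < dl (E q) ∧ (c₁ q = 1 ∨ ∀ t, 0 < dl (γ t q))) →
  IsClosed Z₂ → PerSet Z₂ → Z₂ ⊆ Zb → (∀ q ∈ Z₂, c₂ q = 0) → (∀ q, q ∉ Zb → c₂ q = 1) →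
  ∀ ε : ℝ, 0 < ε →
  ∃ (F : Q → G) (hF : R.Emb c X F) (J : R.IsoR c X f F ε) (ζ : Q → G) (E' : R.II X)
    (hs : ∀ q, SegInj (hF.d q) (E' q)) (Λ : Path E' E),
    ContDiff ℝ ∞ ζ ∧ Per ζ ∧
    (∀ q, E' q = ((dd c F q).1 + k q • (ζ q - (dd c F q).1), (dd c F q).2)) ∧
    (∀ q, Ind3 (dd c F q).1 (ζ q) (dd c F q).2) ∧ (∀ q ∈ Z₂, 0 < dl (ζ q, (dd c F q).2)) ∧
    (R.hc (J.path hf hF)).trans ((R.hc (R.seg hF.d E' hs)).trans (R.hc Λ)) = R.hc γ ∧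
    R.PW Λ (fun q x => (q ∈ Z₂ → 0 < dl x) ∧ (k q = 0 → ∃ t, x = γ t q)) ∧
    (∀ q, ‖(dd c F q).2 - (dd c f q).2‖ ≤ ε) ∧ ∀ q, Away ν q → dd c F q = dd c f q

/-- Makes `α (τ)` positive on `d ≥ 0`. -/
def Pass2Stmt : Prop :=
  ∀ c : Ctx, c.Nrm → ∀ (X : Rel) (f : Q → G) (hf : R.Emb c X f) (E : R.II X) (γ : Path hf.d E)
    (d : Q → ℝ), ContDiff ℝ ∞ d → Per d → (∀ q, q ∉ X.K → d q ≤ 0) → HasNF E {q | 0 ≤ d q} →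
  (∀ q, 0 ≤ d q → 0 < al (E q).2) → (∀ q, d q ≤ 10 → ∀ t, γ t q = E q) → ∀ ε : ℝ, 0 < ε →
  R.Loc hf γ (fun q x => (0 ≤ d q → 0 < al x.2) ∧ (d q ≤ 0 → x = E q)) ε

/-- Transversality near arcs of the circles `r s ∈ ℤ`. -/
def OStmt : Prop :=
  ∀ (c : Ctx) (X : Rel) (f : Q → G) (hf : R.Emb c X f) (E : R.II X) (γ : Path hf.d E)
    (r : ℕ) (d w : Q → ℝ), 1 ≤ r → ContDiff ℝ ∞ d → Per d → ContDiff ℝ ∞ w → Per w →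
  (∀ q, q ∉ X.K → d q ≤ 0 ∨ w q ≤ -1) → (∀ q, d q ≤ 9 ∨ w q ≤ 0 → ∀ t, γ t q = E q) →
  HasNF E {q | 0 ≤ d q ∧ 1 ≤ w q} → (∀ q, 0 ≤ d q → 1 ≤ w q → 0 < dl (E q)) →
  ∀ ε : ℝ, 0 < ε → ∃ δ : ℝ, 0 < δ ∧
  R.Loc hf γ (fun q x => (|ss r q.1| ≤ δ → 0 < cc r q.1 → 0 ≤ d q → 5 ≤ w q → 0 < dl x) ∧
    (d q ≤ 2 → x = E q)) ε

/-- The relative theorem on a strip. -/
def RStmt (η : ℝ) : Prop :=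
  ∀ c : Ctx, c.Nrm → ∀ (X : Rel) (f : Q → G) (hf : R.Emb c X f) (E : R.II X) (γ : Path hf.d E)
    (r : ℕ), 1 ≤ r → (∀ q : Q, η / 16 ≤ xr r q.1 → xr r q.1 ≤ 1 - η / 16 → q ∈ X.K) →
  (∀ q : Q, xr r q.1 ≤ 8 / 10 ∨ 85 / 100 ≤ xr r q.1 → ∀ t, γ t q = E q) →
  HasNF E {q | η / 16 ≤ xr r q.1 ∧ xr r q.1 ≤ 1 - η / 16} →
  (∀ q : Q, η / 16 ≤ xr r q.1 → xr r q.1 ≤ 1 - η / 16 → 0 < dl (E q)) →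
  (∀ q : Q, 1 / 100 ≤ xr r q.1 → xr r q.1 ≤ 49 / 100 → al (E q).2 < 0) →
  ∀ Λ : Q → ℂ, Continuous Λ → (∀ q, Λ (q + (0, 1)) = Λ q) →
  (∀ q : Q, 51 / 100 ≤ r * q.1 → r * q.1 ≤ 99 / 100 → Complex.exp (Λ q) = aa (E q) ∧
    (r * q.1 ≤ 8 / 10 ∨ 85 / 100 ≤ r * q.1 → |(Λ q).im| < Real.pi / 2)) →
  ∀ ε : ℝ, 0 < ε →
  R.Loc hf γ (fun q x => η / 16 ≤ xr r q.1 → xr r q.1 ≤ 1 - η / 16 → 0 < dl x) ε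

/-! ### Symmetries -/

/-- The map `x + i y ↦ a x + i b y`. -/
noncomputable def sg2 (a b : ℝ) : ℂ →L[ℝ] ℂ :=
  Complex.reCLM.smulRight (a : ℂ) + Complex.imCLM.smulRight (b * Complex.I)

@[simp] lemma sg2_re (a b : ℝ) (z : ℂ) : (sg2 a b z).re = a * z.re := by simp [sg2, mul_comm]
@[simp] lemma sg2_im (a b : ℝ) (z : ℂ) : (sg2 a b z).im = b * z.im := by simp [sg2, mul_comm]

/-- The action on frame coordinates when `W ↦ w W` and `X ↦ x X`. -/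
noncomputable def EE (w x : ℝ) : G →L[ℝ] G := (sg2 x w).prodMap (sg2 w (w * x))

/-- The linear part of a deck transformation of the tube. -/
noncomputable def LL (k x w : ℝ) : G →L[ℝ] G := (sg2 k 1).prodMap (sg2 x w)

def aff (k : ℝ) (v q : Q) : Q := (k * q.1 + v.1, q.2 + v.2)

noncomputable def rho (k w x : ℝ) (A : G × G) : G × G := (k • EE w x A.1, EE w x A.2)

/-- A symmetry of the model whose square is a lattice translation. -/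
structure Sym (c : Ctx) where
  k : ℝ
  w : ℝ
  x : ℝ
  v : Q
  L : G →L[ℝ] G
  b : G
  hk : k = 1 ∨ k = -1
  hw : w = 1 ∨ w = -1
  kx : k * x = 1
  invol : ∀ p, L (L p) = p
  iso : ∀ p, ‖L p‖ = ‖p‖
  compat : ∀ p a, c.e (L p + b) (EE w x a) = L (c.e p a)
  sq : ∃ m, ∀ q, aff k v (aff k v q) = q + lat m

def Sym.a {c : Ctx} (σ : Sym c) (q : Q) : Q := aff σ.k σ.v q
noncomputable def Sym.B {c : Ctx} (σ : Sym c) (p : G) : G := σ.L p + σ.b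
noncomputable def Sym.ρ {c : Ctx} (σ : Sym c) (A : G × G) : G × G := rho σ.k σ.w σ.x A

/-- An equivariant formal transverse embedding. -/
@[ext] structure St (c : Ctx) (𝒮 : Set (Sym c)) where
  f : Q → G
  γ : ℝ × Q → G × G
  emb : IsEmb c f
  fam : IsFam γ
  g0 : ∀ q, γ (0, q) = dd c f q
  g1 : ∀ q, 0 < dl (γ (1, q))
  ef : ∀ σ ∈ 𝒮, ∀ q, f (σ.a q) = σ.B (f q)
  eg : ∀ σ ∈ 𝒮, ∀ s q, γ (s, σ.a q) = σ.ρ (γ (s, q))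

section

variable {c : Ctx} {𝒮 : Set (Sym c)}

def Reach (x y : St c 𝒮) : Prop :=
  ∃ z : ℝ → St c 𝒮, (ContDiff ℝ ∞ fun p : ℝ × Q => (z p.1).f p.2) ∧
    (Continuous fun p : ℝ × ℝ × Q => (z p.1).γ p.2) ∧ z 0 = x ∧ z 1 = y

/-- The formal path is constant at `q`. -/
def Good (x : St c 𝒮) (q : Q) : Prop := ∀ s, 0 ≤ s → s ≤ 1 → x.γ (s, q) = dd c x.f q

/-- The formal path is transverse at `q`. -/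
def Tr (x : St c 𝒮) (q : Q) : Prop := ∀ s, 0 ≤ s → s ≤ 1 → 0 < dl (x.γ (s, q))

/-- No rotation of the formal line field along the second direction. -/
def ZR (x : St c 𝒮) : Prop :=
  ∃ Λ : Q → ℂ, Continuous Λ ∧ (∀ q, Λ (q + (0, 1)) = Λ q) ∧
    ∀ q, Complex.exp (Λ q) = aa (x.γ (1, q))

/-- `q` is in the orbit of `q'`. -/
def Orb (𝒮 : Set (Sym c)) (q' q : Q) : Prop :=
  ∀ P : Q → Prop, (∀ σ ∈ 𝒮, ∀ y, P y → P (σ.a y)) → (∀ y m, P y → P (y + lat m)) → P q' → P q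

/-- A local deformation supported in `K`. -/
structure LS (c : Ctx) (f : Q → G) (K : Set Q) (ε : ℝ) where
  H : ℝ → Q → G
  Kf : ℝ × ℝ × Q → G × G
  u : Q → ℝ
  smooth : ContDiff ℝ ∞ fun x : ℝ × Q => H x.1 x.2
  emb : ∀ l, IsEmb c (H l)
  h0 : H 0 = f
  near : ∀ l q, ‖H l q - f q‖ ≤ ε
  cont : Continuous Kf
  per : ∀ l s, Per fun q => Kf (l, s, q)
  inj : ∀ x, Inj (Kf x)
  k0 : ∀ l q, Kf (l, 0, q) = dd c (H l) q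
  ucont : Continuous u
  uper : Per u
  out : ∀ l s q, q ∉ K → H l q = f q ∧ Kf (l, s, q) = dd c f q ∧ u q = 0

/-- Small deformations supported in `K` can be made equivariant. -/
def SymOK (𝒮 : Set (Sym c)) (K : Set Q) : Prop :=
  IsClosed K ∧ PerSet K ∧ ∀ f : Q → G, IsEmb c f → (∀ σ ∈ 𝒮, ∀ q, f (σ.a q) = σ.B (f q)) →
  ∃ ε : ℝ, 0 < ε ∧ ∀ D : LS c f K ε, ∃ D' : LS c f Set.univ ε,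
    (∀ σ ∈ 𝒮, ∀ l s q, D'.H l (σ.a q) = σ.B (D'.H l q) ∧
      D'.Kf (l, s, σ.a q) = σ.ρ (D'.Kf (l, s, q)) ∧ D'.u (σ.a q) = D'.u q) ∧
    (∀ q ∈ K, ∀ l s, D'.H l q = D.H l q ∧ D'.Kf (l, s, q) = D.Kf (l, s, q) ∧ D'.u q = D.u q) ∧
    ∀ q, (∃ q' ∈ K, Orb 𝒮 q' q) ∨
      ∀ l s, D'.H l q = f q ∧ D'.Kf (l, s, q) = dd c f q ∧ D'.u q = 0

noncomputable def St.rel (x : St c 𝒮) {K : Set Q} (h : SymOK 𝒮 K) : Rel := ⟨K, dd c x.f, h.1, h.2.1⟩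

lemma St.embR (x : St c 𝒮) {K : Set Q} (h : SymOK 𝒮 K) : R.Emb c (x.rel h) x.f :=
  ⟨x.emb, fun _ _ => rfl⟩

end

def SymStmt : Prop :=
  ∀ (c : Ctx) (K : Set Q), IsClosed K → PerSet K → ∀ S : Sym c, (∀ q ∈ K, S.a q ∉ K) →
    SymOK {S} K ∧ ∀ T : Sym c, S.k = 1 → S.v = (1 / 2, 0) → T.v = (0, 1 / 2) →
      (∀ p, T.L (S.L p) = S.L (T.L p)) → (∀ q ∈ K, T.a q ∉ K ∧ S.a (T.a q) ∉ K) →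
      SymOK {S, T} K

structure GlobalStmt : Prop where
  trans : ∀ (c : Ctx) (𝒮 : Set (Sym c)) (x y z : St c 𝒮), Reach x y → Reach y z → Reach x z
  zr : ∀ (c : Ctx) (𝒮 : Set (Sym c)) (x y : St c 𝒮), Reach x y → ZR x → ZR y
  trunc : ∀ (c : Ctx) (𝒮 : Set (Sym c)) (x : St c 𝒮) (u : Q → ℝ), Continuous u → Per u →
    (∀ q, 0 ≤ u q ∧ u q ≤ 1) → (∀ σ ∈ 𝒮, ∀ q, u (σ.a q) = u q) → (∀ q, u q ≠ 0 → Tr x q) →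
    ∃ y, Reach x y ∧ ∀ q, u q = 1 ∨ Good x q → Good y q
  stretch : ∀ (c : Ctx) (𝒮 : Set (Sym c)) (x : St c 𝒮) (ψ : ℝ → ℝ), ContDiff ℝ ∞ ψ →
    (∀ s, 0 < deriv ψ s) → (∀ s, ψ (s + 1) = ψ s + 1) →
    (∀ σ ∈ 𝒮, ∀ s, ψ (σ.k * s + σ.v.1) = σ.k * ψ s + σ.v.1) →
    ∃ y, Reach x y ∧ (∀ q : Q, Good x (ψ q.1, q.2) → Good y q) ∧
      ∀ q : Q, y.γ (1, q) =
        (deriv ψ q.1 • (x.γ (1, (ψ q.1, q.2))).1, (x.γ (1, (ψ q.1, q.2))).2)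
  setup : ∀ (c : Ctx) (𝒮 : Set (Sym c)) (x : St c 𝒮) (K : Set Q) (h : SymOK 𝒮 K) (u : Q → ℝ),
    Continuous u → Per u → (∀ q, 0 ≤ u q ∧ u q ≤ 1) → (∀ q, q ∉ K → u q = 0) →
    ∃ (E : R.II (x.rel h)) (γ : Path (x.embR h).d E),
      (∀ (t : UI) q, γ t q = x.γ (u q * t, q)) ∧ HasNF E {q | u q = 1 ∨ Good x q} ∧
      ∃ ε : ℝ, 0 < ε ∧ ∀ P : Q → G × G → Prop, R.Loc (x.embR h) γ P ε →
        ∃ y, Reach x y ∧ (∀ q ∈ K, ∀ s, 0 ≤ s → s ≤ 1 → P q (y.γ (s, q)) ∨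
            ∃ s', u q ≤ s' ∧ s' ≤ 1 ∧ y.γ (s, q) = x.γ (s', q)) ∧
          ∀ q, (∃ q' ∈ K, Orb 𝒮 q' q) ∨ (Good x q → Good y q)
  iso : ∀ (c : Ctx) (𝒮 : Set (Sym c)) (x : St c 𝒮) (K : Set Q), SymOK 𝒮 K →
    (∀ q ∈ K, Good x q) → ∃ ε : ℝ, 0 < ε ∧ ∀ (F : Q → G) (J : Iso c x.f F),
      (∀ l q, q ∉ K → J.H l q = x.f q) → (∀ l q, ‖J.H l q - x.f q‖ ≤ ε) →
      (∀ l, ∀ q ∈ K, 0 < dl (dd c (J.H l) q)) →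
      ∃ y, Reach x y ∧ (∀ q, Good x q → Good y q) ∧ (∀ q ∈ K, y.γ (1, q) = dd c F q) ∧
        ∀ q, (∃ q' ∈ K, Orb 𝒮 q' q) ∨ y.γ (1, q) = x.γ (1, q)
  orb : ∀ (c : Ctx) (𝒮 : Set (Sym c)) (x : St c 𝒮) (q' q : Q), Orb 𝒮 q' q →
    (Good x q' → Good x q) ∧ (Tr x q' → Tr x q)

/-- The strip `0 ≤ s ≤ 1 / r` is a fundamental domain for the symmetries. -/
structure StripData {c : Ctx} (𝒮 : Set (Sym c)) (r : ℕ) : Prop where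
  ok : ∀ a b : ℝ, 0 < a → r * b < 1 →
    SymOK 𝒮 {q : Q | a ≤ Int.fract q.1 ∧ Int.fract q.1 ≤ b}
  free : ∀ (a b : ℝ) (q' q : Q), 0 < a → r * b < 1 → a ≤ Int.fract q'.1 → Int.fract q'.1 ≤ b →
    Orb 𝒮 q' q → 0 ≤ q.1 → r * q.1 ≤ 1 → a ≤ q.1 ∧ q.1 ≤ b
  cover : ∀ q : Q, ∃ q' : Q, 0 ≤ q'.1 ∧ r * q'.1 ≤ 1 ∧ Orb 𝒮 q' q
  psi : ∀ (p : ℝ → ℝ) (a e : ℝ), ContDiff ℝ ∞ p → 0 < a → 0 < e → (∀ y, 0 ≤ deriv p y) →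
    (∀ y, y ≤ a → p y = 0) → (∀ y, 1 - a ≤ y → p y = 1 - e) →
    ∃ ψ : ℝ → ℝ, ContDiff ℝ ∞ ψ ∧ (∀ s, 0 < deriv ψ s) ∧ (∀ s, ψ (s + 1) = ψ s + 1) ∧
      (∀ σ ∈ 𝒮, ∀ s, ψ (σ.k * s + σ.v.1) = σ.k * ψ s + σ.v.1) ∧
      ∀ s : ℝ, 0 ≤ s → r * s ≤ 1 → r * ψ s = e * (r * s) + p (r * s)

def CommonStmt : Prop :=
  ∀ c : Ctx, c.Nrm → ∀ (𝒮 : Set (Sym c)) (r : ℕ), 2 ≤ r → StripData 𝒮 r → ∀ x : St c 𝒮, ZR x →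
  ∀ δ : ℝ, 0 < δ → (∀ q : Q, |r * q.1| ≤ δ ∨ |r * q.1 - 1| ≤ δ → Good x q) →
  ∃ y, Reach x y ∧ ∀ q, Good y q

def TorusCoreStmt : Prop :=
  ∀ c : Ctx, c.Nrm → ∀ S : Sym c, S.k = 1 → S.v = (1 / 2, 0) → ∀ x : St c {S}, ZR x →
  ∃ y, Reach x y ∧ ∀ q, Good y q

def KleinCoreStmt : Prop :=
  ∀ c : Ctx, c.Nrm → ∀ S T : Sym c, S.k = 1 → S.v = (1 / 2, 0) → T.k = -1 → T.v = (0, 1 / 2) →
  (∀ p, T.L (S.L p) = S.L (T.L p)) → ∀ x : St c {S, T}, ∃ y, Reach x y ∧ ∀ q, Good y q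

/-- The theorem in the Euclidean model with the two generators of the deck group. -/
def GCoreStmt : Prop :=
  ∀ κ wS xS wT xT : ℝ, κ = 1 ∨ κ = -1 → wS = 1 ∨ wS = -1 → xS = 1 ∨ xS = -1 →
  wT = 1 ∨ wT = -1 → xT = 1 ∨ xT = -1 → ∀ c : Ctx, (∀ q, c.i q = i0 q) → c.Nrm →
  (∀ p a, c.e (LL 1 xS wS p + i0 (1 / 2, 0)) (EE wS xS a) = LL 1 xS wS (c.e p a)) →
  (∀ p a, c.e (LL κ xT wT p + i0 (0, 1 / 2)) (EE wT xT a) = LL κ xT wT (c.e p a)) →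
  ∀ Γ : UI → Q → G × G,
  Continuous (fun x : UI × Q => Γ x.1 x.2) → (∀ s, Per (Γ s)) → (∀ s q, Inj (Γ s q)) →
  (∀ q, Γ 0 q = dd c i0 q) → (∀ q, dl (Γ 1 q) ≠ 0) →
  (∀ s q, Γ s (aff 1 (1 / 2, 0) q) = rho 1 wS xS (Γ s q)) →
  (∀ s q, Γ s (aff κ (0, 1 / 2) q) = rho κ wT xT (Γ s q)) →
  ∃ (H : ℝ → Q → G) (K : UI → UI → Q → G × G),
    ContDiff ℝ ∞ (fun x : ℝ × Q => H x.1 x.2) ∧ (∀ l, IsEmb c (H l)) ∧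
    Continuous (fun x : UI × UI × Q => K x.1 x.2.1 x.2.2) ∧ (∀ l s q, Inj (K l s q)) ∧
    (∀ (l : UI) q, K l 0 q = dd c (H l) q) ∧ (∀ l q, dl (K l 1 q) ≠ 0) ∧
    H 0 = i0 ∧ (∀ s q, K 0 s q = Γ s q) ∧ (∀ s q, K 1 s q = dd c (H 1) q) ∧
    (∀ l q, H l (aff 1 (1 / 2, 0) q) = LL 1 xS wS (H l q) + i0 (1 / 2, 0) ∧
      H l (aff κ (0, 1 / 2) q) = LL κ xT wT (H l q) + i0 (0, 1 / 2)) ∧
    ∀ l s q, K l s (aff 1 (1 / 2, 0) q) = rho 1 wS xS (K l s q) ∧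
      K l s (aff κ (0, 1 / 2) q) = rho κ wT xT (K l s q)

end Pool.Agent.Lib.MP_72f1d0_gt
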