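import Mathlib
import Pool.Agent.Lib.MP_72f1d0_gt.Defs3

/-! The common part of the torus and Klein bottle cases: from good collars to a good state. -/

open scoped ContDiff Topology
open Set

namespace Pool.Agent.Lib.MP_72f1d0_gt

namespace Common

variable {c : Ctx} {𝒮 : Set (Sym c)}

lemma good_lat {x : St c 𝒮} {q : Q} (m : ℤ × ℤ) (h : Good x q) : Good x (q + lat m) :=
  fun s h0 h1 => by
    have e1 := x.fam.per s q m
    simp only at e1
    rw [e1, x.emb.dd_per q m]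
    exact h s h0 h1

lemma fract_lat (q : Q) : ((Int.fract q.1, q.2) : Q) + lat (⌊q.1⌋, 0) = q := by
  ext <;> simp [lat]

lemma good_fract {x : St c 𝒮} {q : Q} (h : Good x (Int.fract q.1, q.2)) : Good x q := by
  rw [← fract_lat q]; exact good_lat _ h

lemma gam_fract (x : St c 𝒮) (s : ℝ) (q : Q) : x.γ (s, q) = x.γ (s, (Int.fract q.1, q.2)) := by
  have e1 := x.fam.per s (Int.fract q.1, q.2) (⌊q.1⌋, 0)
  simp only [fract_lat] at e1
  exact e1

lemma good_one {x : St c 𝒮} {q : Q} (h : Good x q) : dd c x.f q = x.γ (1, q) :=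
  (h 1 zero_le_one le_rfl).symm

lemma good_eq {x : St c 𝒮} {q : Q} (h : Good x q) {s : ℝ} (h0 : 0 ≤ s) (h1 : s ≤ 1) :
    x.γ (s, q) = x.γ (1, q) := (h s h0 h1).trans (good_one h)

lemma good_tr {x : St c 𝒮} {q : Q} (h : Good x q) : Tr x q := fun s h0 h1 => by
  rw [good_eq h h0 h1]; exact x.g1 q

lemma fract_strip {r : ℕ} (hr : 2 ≤ r) {s : ℝ} (h0 : 0 ≤ s) (h1 : r * s ≤ 1) :
    Int.fract s = s := by
  have hr' : (2 : ℝ) ≤ r := by exact_mod_cast hr
  exact Int.fract_eq_self.2 ⟨h0, by nlinarith⟩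

/-- A logarithm of the formal direction over the strip. -/
def LogOn (r : ℕ) (x : St c 𝒮) (Λ : Q → ℂ) : Prop :=
  Continuous Λ ∧ (∀ q, Λ (q + (0, 1)) = Λ q) ∧
    ∀ q : Q, 0 ≤ q.1 → r * q.1 ≤ 1 → Complex.exp (Λ q) = aa (x.γ (1, q))

lemma abs_scale {r y s d : ℝ} (hr : 0 < r) : |s - y / r| ≤ d / r ↔ |r * s - y| ≤ d := by
  rw [le_div_iff₀ hr, show r * s - y = (s - y / r) * r by field_simp, abs_mul, abs_of_pos hr]

/-- Straightening near one circle. -/
lemma circle (hG : GlobalStmt) (h0 : R0Stmt) {r : ℕ} (hr : 2 ≤ r) (hS : StripData 𝒮 r)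
    (x : St c 𝒮) {Λ : Q → ℂ} (hΛ : LogOn r x Λ) {y₀ d : ℝ} (hd : 0 < d) (hy0 : d < y₀)
    (hy1 : y₀ + d < 1) (hgood : ∀ q : Q, |r * q.1 - y₀| ≤ d → Good x q) (θ : ℝ) :
    ∃ (x' : St c 𝒮) (Λ' : Q → ℂ) (d₁ : ℝ), 0 < d₁ ∧ Reach x x' ∧ (∀ q, Good x q → Good x' q) ∧
      LogOn r x' Λ' ∧ (∀ q : Q, d ≤ |r * q.1 - y₀| → Λ' q = Λ q) ∧
      ∀ q : Q, |r * q.1 - y₀| ≤ d₁ → |(Λ' q).im - θ| < Real.pi / 2 := by
  have hr' : (2 : ℝ) ≤ r := by exact_mod_cast hr
  have hr0 : (0 : ℝ) < r := by linarith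
  have ha : 0 < (y₀ - d) / r := div_pos (by linarith) hr0
  have hb : r * ((y₀ + d) / r) < 1 := by rw [mul_div_cancel₀ _ hr0.ne']; exact hy1
  have hK := hS.ok _ _ ha hb
  have hmem : ∀ s : ℝ, ((y₀ - d) / r ≤ s ∧ s ≤ (y₀ + d) / r) ↔ |s - y₀ / r| ≤ d / r := fun s => by
    rw [abs_le, sub_div, add_div]
    constructor <;> rintro ⟨h1, h2⟩ <;> constructor <;> linarith
  have hgK : ∀ q : Q, |Int.fract q.1 - y₀ / r| ≤ d / r → Good x q := fun q hq =>
    good_fract (hgood _ ((abs_scale hr0).1 hq))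
  obtain ⟨ε, hε, hiso⟩ := hG.iso c 𝒮 x _ hK fun q hq => hgK q ((hmem _).1 hq)
  have hstrip : ∀ s : ℝ, |r * s - y₀| ≤ d → 0 ≤ s ∧ r * s ≤ 1 := fun s hs => by
    rw [abs_le] at hs
    refine ⟨?_, by linarith [hs.2]⟩
    by_contra hneg
    have : r * s < 0 := mul_neg_of_pos_of_neg hr0 (not_le.1 hneg)
    linarith [hs.1]
  obtain ⟨F, J, δ₁, Λ', hδ₁, hout, hnear, hdl, hc', hp', he', hoff, him⟩ :=
    h0 c x.f x.emb (y₀ / r) (d / r) (div_pos hd hr0) (div_lt_div_of_pos_right hy0 hr0)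
      (by rw [← add_div, div_lt_one hr0]; linarith)
      (fun q hq => by rw [good_one (hgK q hq)]; exact x.g1 q) Λ hΛ.1 hΛ.2.1
      (fun q hq => by
        have hq' := (abs_scale hr0).1 hq
        rw [good_one (hgood q hq')]
        exact hΛ.2.2 q (hstrip _ hq').1 (hstrip _ hq').2) θ ε hε
  obtain ⟨y, hxy, hgy, hyK, hyo⟩ := hiso F J
    (fun l q hq => hout l q (le_of_lt (not_le.1 fun h => hq ((hmem _).2 h)))) hnear
    (fun l q hq => hdl l q ((hmem _).1 hq))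
  refine ⟨y, Λ', r * δ₁, mul_pos hr0 hδ₁, hxy, hgy, ⟨hc', hp', fun q q0 q1 => ?_⟩,
    fun q hq => hoff q ?_, fun q hq => him q ?_⟩
  · have hf := fract_strip hr q0 q1
    by_cases hq : |q.1 - y₀ / r| ≤ d / r
    · rw [he' q hq, hyK q (by simpa only [mem_ofPred_eq, hf] using (hmem _).2 hq)]
    · rw [hoff q (le_of_lt (not_le.1 hq)), hΛ.2.2 q q0 q1]
      rcases hyo q with ⟨q', hq', ho⟩ | h
      · exact absurd ((hmem _).1 (hS.free _ _ q' q ha hb hq'.1 hq'.2 ho q0 q1)) hq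
      · rw [h]
  · by_contra h
    have h' : |q.1 - y₀ / r| < d / r := not_le.1 h
    rw [lt_div_iff₀ hr0, ← abs_of_pos hr0, ← abs_mul, abs_of_pos hr0,
      show (q.1 - y₀ / r) * r = r * q.1 - y₀ by field_simp] at h'
    linarith
  · have := (abs_scale (y := y₀) (s := q.1) hr0).2 hq
    rwa [mul_div_cancel_left₀ _ hr0.ne'] at this

/-- Straightening near three circles. -/
lemma three (hG : GlobalStmt) (h0 : R0Stmt) {r : ℕ} (hr : 2 ≤ r) (hS : StripData 𝒮 r)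
    (x : St c 𝒮) (hz : ZR x) {δ : ℝ} (hδ : 0 < δ) (hδ1 : δ ≤ 1 / 10)
    (hgood : ∀ q : Q, |r * q.1| ≤ δ ∨ |r * q.1 - 1| ≤ δ → Good x q) :
    ∃ (y : St c 𝒮) (Λ : Q → ℂ) (e : ℝ), 0 < e ∧ e ≤ δ / 8 ∧ Reach x y ∧
      (∀ q : Q, |r * q.1| ≤ δ ∨ |r * q.1 - 1| ≤ δ → Good y q) ∧ LogOn r y Λ ∧
      (∀ q : Q, |r * q.1 - δ / 4| ≤ e → |(Λ q).im - Real.pi| < Real.pi / 2) ∧
      ∀ q : Q, |r * q.1 - 3 * δ / 4| ≤ e ∨ |r * q.1 - (1 - δ / 2)| ≤ e →
        |(Λ q).im| < Real.pi / 2 := by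
  obtain ⟨Λ₀, hc0, hp0, he0⟩ := hz
  have hd : 0 < δ / 8 := by positivity
  obtain ⟨x₁, Λ₁, d₁, hd₁, hr₁, hg₁, hl₁, -, hi₁⟩ := circle hG h0 hr hS x
    (Λ := Λ₀) ⟨hc0, hp0, fun q _ _ => he0 q⟩ (y₀ := δ / 4) hd (by linarith) (by linarith)
    (fun q hq => hgood q (Or.inl (by rw [abs_le] at hq ⊢; constructor <;> linarith [hq.1, hq.2])))
    Real.pi
  obtain ⟨x₂, Λ₂, d₂, hd₂, hr₂, hg₂, hl₂, ho₂, hi₂⟩ := circle hG h0 hr hS x₁ hl₁
    (y₀ := 3 * δ / 4) hd (by linarith) (by linarith)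
    (fun q hq => hg₁ q (hgood q (Or.inl (by
      rw [abs_le] at hq ⊢; constructor <;> linarith [hq.1, hq.2])))) 0
  obtain ⟨x₃, Λ₃, d₃, hd₃, hr₃, hg₃, hl₃, ho₃, hi₃⟩ := circle hG h0 hr hS x₂ hl₂
    (y₀ := 1 - δ / 2) hd (by linarith) (by linarith)
    (fun q hq => hg₂ q (hg₁ q (hgood q (Or.inr (by
      rw [abs_le] at hq ⊢; constructor <;> linarith [hq.1, hq.2]))))) 0
  set e := min (min d₁ d₂) (min d₃ (δ / 8)) with he
  have e1 : e ≤ d₁ := (min_le_left _ _).trans (min_le_left _ _)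
  have e2 : e ≤ d₂ := (min_le_left _ _).trans (min_le_right _ _)
  have e3 : e ≤ d₃ := (min_le_right _ _).trans (min_le_left _ _)
  have e4 : e ≤ δ / 8 := (min_le_right _ _).trans (min_le_right _ _)
  refine ⟨x₃, Λ₃, e, lt_min (lt_min hd₁ hd₂) (lt_min hd₃ hd), e4,
    hG.trans _ _ _ _ _ (hG.trans _ _ _ _ _ hr₁ hr₂) hr₃,
    fun q hq => hg₃ q (hg₂ q (hg₁ q (hgood q hq))), hl₃, fun q hq => ?_, fun q hq => ?_⟩
  · have hq' := abs_le.1 hq
    rw [ho₃ q (le_abs.2 (Or.inr (by linarith [hq'.1, hq'.2]))),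
      ho₂ q (le_abs.2 (Or.inr (by linarith [hq'.1, hq'.2])))]
    exact hi₁ q (hq.trans e1)
  · rcases hq with hq | hq
    · have hq' := abs_le.1 hq
      rw [ho₃ q (le_abs.2 (Or.inr (by linarith [hq'.1, hq'.2])))]
      simpa using hi₂ q (hq.trans e2)
    · simpa using hi₃ q (hq.trans e3)

/-- The staircase used to stretch the collars. -/
noncomputable def stair (δ e y : ℝ) : ℝ :=
  δ / 4 * Real.smoothTransition ((y - 2 / 1000) / (8 / 1000)) +
    δ / 2 * Real.smoothTransition ((y - 49 / 100) / (2 / 100)) +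
    (1 - 5 * δ / 4) * Real.smoothTransition ((y - 8 / 10) / (5 / 100)) +
    (δ / 2 - e) * Real.smoothTransition ((y - 99 / 100) / (8 / 1000))

lemma stair_smooth (δ e : ℝ) : ContDiff ℝ ∞ (stair δ e) := by
  have h : ∀ a b : ℝ, ContDiff ℝ ∞ fun y : ℝ => Real.smoothTransition ((y - a) / b) :=
    fun a b => Real.smoothTransition.contDiff.comp ((contDiff_id.sub contDiff_const).div_const b)
  unfold stair
  exact (((contDiff_const.mul (h _ _)).add (contDiff_const.mul (h _ _))).add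
    (contDiff_const.mul (h _ _))).add (contDiff_const.mul (h _ _))

lemma stair_mono {δ e : ℝ} (hδ : 0 < δ) (hδ1 : δ ≤ 1 / 10) (he : e ≤ δ / 8) :
    Monotone (stair δ e) := by
  have h : ∀ a b k : ℝ, 0 < b → 0 ≤ k →
      Monotone fun y : ℝ => k * Real.smoothTransition ((y - a) / b) := fun a b k hb hk y y' hy =>
    mul_le_mul_of_nonneg_left (Real.smoothTransition.monotone
      (div_le_div_of_nonneg_right (by linarith) hb.le)) hk
  unfold stair
  exact (((h _ _ _ (by norm_num) (by linarith)).add (h _ _ _ (by norm_num) (by linarith))).add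
    (h _ _ _ (by norm_num) (by linarith))).add (h _ _ _ (by norm_num) (by linarith))

lemma st0 {y a b : ℝ} (hb : 0 < b) (h : y ≤ a) : Real.smoothTransition ((y - a) / b) = 0 :=
  Real.smoothTransition.zero_of_nonpos (div_nonpos_of_nonpos_of_nonneg (by linarith) hb.le)

lemma st1 {y a b : ℝ} (hb : 0 < b) (h : a + b ≤ y) : Real.smoothTransition ((y - a) / b) = 1 :=
  Real.smoothTransition.one_of_one_le (by rw [le_div_iff₀ hb]; linarith)

lemma stair_0 (δ e : ℝ) {y : ℝ} (h : y ≤ 2 / 1000) : stair δ e y = 0 := by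
  unfold stair
  rw [st0 (by norm_num) h, st0 (by norm_num) (by linarith), st0 (by norm_num) (by linarith),
    st0 (by norm_num) (by linarith)]
  ring

lemma stair_1 (δ e : ℝ) {y : ℝ} (h : 1 / 100 ≤ y) (h' : y ≤ 49 / 100) : stair δ e y = δ / 4 := by
  unfold stair
  rw [st1 (by norm_num) (by linarith), st0 (by norm_num) h', st0 (by norm_num) (by linarith),
    st0 (by norm_num) (by linarith)]
  ring

lemma stair_2 (δ e : ℝ) {y : ℝ} (h : 51 / 100 ≤ y) (h' : y ≤ 8 / 10) :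
    stair δ e y = 3 * δ / 4 := by
  unfold stair
  rw [st1 (by norm_num) (by linarith), st1 (by norm_num) (by linarith), st0 (by norm_num) h',
    st0 (by norm_num) (by linarith)]
  ring

lemma stair_3 (δ e : ℝ) {y : ℝ} (h : 85 / 100 ≤ y) (h' : y ≤ 99 / 100) :
    stair δ e y = 1 - δ / 2 := by
  unfold stair
  rw [st1 (by norm_num) (by linarith), st1 (by norm_num) (by linarith),
    st1 (by norm_num) (by linarith), st0 (by norm_num) h']
  ring

lemma stair_4 (δ e : ℝ) {y : ℝ} (h : 1 - 2 / 1000 ≤ y) : stair δ e y = 1 - e := by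
  unfold stair
  rw [st1 (by norm_num) (by linarith), st1 (by norm_num) (by linarith),
    st1 (by norm_num) (by linarith), st1 (by norm_num) (by linarith)]
  ring

lemma abs_lt_half {t : ℝ} (h : |t| < Real.pi) (hc : 0 < Real.cos t) : |t| < Real.pi / 2 := by
  by_contra hn
  have := Real.cos_nonpos_of_pi_div_two_le_of_le (not_lt.1 hn) (by linarith [Real.pi_pos])
  rw [Real.cos_abs] at this
  linarith

/-- The logarithm after a stretching of the imaginary part. -/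
lemma log_stretch {Λ : Q → ℂ} {k : Q → ℝ} (hΛ : Continuous Λ) (hk : Continuous k)
    (hk0 : ∀ q, 0 < k q) : ∃ L : Q → ℂ, Continuous L ∧
      (∀ q q', Λ q = Λ q' → k q = k q' → L q = L q') ∧
      (∀ q, Complex.exp (L q) = ⟨(Complex.exp (Λ q)).re, k q * (Complex.exp (Λ q)).im⟩) ∧
      ∀ q, |(Λ q).im| < Real.pi / 2 → |(L q).im| < Real.pi / 2 := by
  let w : Q → ℂ := fun q => Complex.exp (Λ q)
  let w' : Q → ℂ := fun q => ((w q).re : ℂ) + (k q * (w q).im : ℝ) * Complex.I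
  have hw : Continuous w := Complex.continuous_exp.comp hΛ
  have hw' : Continuous w' := by simp only [w']; fun_prop
  have hw0 : ∀ q, w q ≠ 0 := fun q => Complex.exp_ne_zero _
  have hre : ∀ q, 0 < (w' q / w q).re := fun q => by
    have hn : 0 < Complex.normSq (w q) := Complex.normSq_pos.2 (hw0 q)
    have h1 : (w' q).re = (w q).re := by simp [w']
    have h2 : (w' q).im = k q * (w q).im := by simp [w']
    rw [Complex.div_re, h1, h2, ← add_div]
    refine div_pos ?_ hn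
    rw [Complex.normSq_apply] at hn
    have := hk0 q
    by_cases h : (w q).im = 0
    · rw [h] at hn ⊢; linarith
    · have h3 : 0 < (w q).im * (w q).im := mul_self_pos.2 h
      nlinarith [mul_self_nonneg (w q).re, mul_pos this h3]
  have hexp : ∀ q, Complex.exp (Λ q + Complex.log (w' q / w q)) = w' q := fun q => by
    have hne : w' q / w q ≠ 0 := fun h => by simpa [h] using hre q
    rw [Complex.exp_add, Complex.exp_log hne]
    exact mul_div_cancel₀ _ (hw0 q)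
  refine ⟨fun q => Λ q + Complex.log (w' q / w q), hΛ.add ?_, fun q q' h1 h2 => ?_,
    fun q => ?_, fun q hq => ?_⟩
  · exact (hw'.div hw hw0).clog fun q => Or.inl (hre q)
  · simp only [w', w, h1, h2]
  · rw [hexp]
    apply Complex.ext <;> simp [w', w]
  · refine abs_lt_half ?_ ?_
    · have h1 : |(w' q / w q).arg| < Real.pi / 2 :=
        Complex.abs_arg_lt_pi_div_two_iff.2 (Or.inl (hre q))
      simp only [Complex.add_im, Complex.log_im]
      linarith [abs_add_le (Λ q).im (w' q / w q).arg]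
    · have h1 := congrArg Complex.re (hexp q)
      have h2 : (w' q).re = (w q).re := by simp [w']
      rw [h2, Complex.exp_re] at h1
      simp only [w] at h1
      rw [Complex.exp_re] at h1
      have h3 : 0 < Real.cos (Λ q).im := Real.cos_pos_of_mem_Ioo (abs_lt.1 hq)
      have h4 := mul_pos (Real.exp_pos (Λ q).re) h3
      rw [← h1] at h4
      exact pos_of_mul_pos_left' (Real.exp_pos _) h4
where
  pos_of_mul_pos_left' {a b : ℝ} (ha : 0 < a) (h : 0 < a * b) : 0 < b :=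
    (pos_iff_pos_of_mul_pos h).1 ha

/-- The collars in standard position. -/
lemma stretch (hG : GlobalStmt) (h0 : R0Stmt) {r : ℕ} (hr : 2 ≤ r) (hS : StripData 𝒮 r)
    (x : St c 𝒮) (hz : ZR x) {δ : ℝ} (hδ : 0 < δ) (hδ1 : δ ≤ 1 / 10)
    (hgood : ∀ q : Q, |r * q.1| ≤ δ ∨ |r * q.1 - 1| ≤ δ → Good x q) :
    ∃ (y : St c 𝒮) (Λ : Q → ℂ), Reach x y ∧
      (∀ q : Q, 0 ≤ q.1 → r * q.1 ≤ 1 → r * q.1 ≤ 8 / 10 ∨ 85 / 100 ≤ r * q.1 → Good y q) ∧
      LogOn r y Λ ∧
      (∀ q : Q, 1 / 100 ≤ r * q.1 → r * q.1 ≤ 49 / 100 → al (y.γ (1, q)).2 < 0) ∧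
      ∀ q : Q, 51 / 100 ≤ r * q.1 → r * q.1 ≤ 99 / 100 →
        r * q.1 ≤ 8 / 10 ∨ 85 / 100 ≤ r * q.1 → |(Λ q).im| < Real.pi / 2 := by
  have hr' : (2 : ℝ) ≤ r := by exact_mod_cast hr
  have hr0 : (0 : ℝ) < r := by linarith
  have hpos : ∀ s : ℝ, 0 ≤ r * s → 0 ≤ s := fun s hs => nonneg_of_mul_nonneg_right' hr0 hs
  obtain ⟨x₁, Λ₁, e, he0, he1, hr₁, hg₁, hl₁, hi₁, hi₂⟩ := three hG h0 hr hS x hz hδ hδ1 hgood
  have hm := stair_mono hδ hδ1 he1
  obtain ⟨ψ, hψs, hψd, hψp, hψe, hψv⟩ := hS.psi (stair δ e) (2 / 1000) e (stair_smooth δ e)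
    (by norm_num) he0 (fun y => hm.deriv_nonneg) (fun y hy => stair_0 δ e hy)
    fun y hy => stair_4 δ e hy
  obtain ⟨y, hr₂, hg₂, hγ⟩ := hG.stretch c 𝒮 x₁ ψ hψs hψd hψp hψe
  have hlow : ∀ t, 0 ≤ stair δ e t := fun t => by
    rw [← stair_0 δ e (min_le_right t (2 / 1000))]; exact hm (min_le_left _ _)
  have hup : ∀ t, stair δ e t ≤ 1 - e := fun t => by
    rw [← stair_4 δ e (le_max_right t (1 - 2 / 1000))]; exact hm (le_max_left _ _)
  have hin : ∀ s : ℝ, 0 ≤ s → r * s ≤ 1 → 0 ≤ ψ s ∧ r * ψ s ≤ 1 := fun s s0 s1 => by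
    have h1 : 0 ≤ r * s := mul_nonneg hr0.le s0
    refine ⟨hpos _ ?_, ?_⟩ <;> rw [hψv s s0 s1]
    · exact add_nonneg (mul_nonneg he0.le h1) (hlow _)
    · nlinarith [hup (r * s)]
  have hψc : Continuous ψ := hψs.continuous
  have hdc : Continuous (deriv ψ) := hψs.continuous_deriv (by simp)
  obtain ⟨L, hLc, hLp, hLe, hLi⟩ := log_stretch (Λ := fun q : Q => Λ₁ (ψ q.1, q.2))
    (k := fun q : Q => deriv ψ q.1) (hl₁.1.comp (by fun_prop)) (hdc.comp continuous_fst)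
    fun q => hψd q.1
  refine ⟨y, L, hG.trans _ _ _ _ _ hr₁ hr₂, fun q q0 q1 hq => hg₂ q (hg₁ _ ?_),
    ⟨hLc, fun q => hLp _ _ ?_ (by simp), fun q q0 q1 => ?_⟩, fun q q0 q1 => ?_,
    fun q q0 q1 hq => hLi q (hi₂ _ ?_)⟩
  · have h1 : 0 ≤ r * q.1 := mul_nonneg hr0.le q0
    have h2 := hin _ q0 q1
    have h3 : 0 ≤ r * ψ q.1 := mul_nonneg hr0.le h2.1
    have h4 := hψv _ q0 q1
    simp only
    rcases hq with hq | hq
    · left
      have h5 : stair δ e (r * q.1) ≤ 3 * δ / 4 := by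
        rw [← stair_2 δ e (y := 8 / 10) (by norm_num) le_rfl]; exact hm hq
      rw [abs_of_nonneg h3, h4]
      nlinarith
    · right
      have h5 : 1 - δ / 2 ≤ stair δ e (r * q.1) := by
        rw [← stair_3 δ e (y := 85 / 100) le_rfl (by norm_num)]; exact hm hq
      rw [abs_le]
      constructor
      · rw [h4]; nlinarith
      · linarith [h2.2]
  · have := hl₁.2.1 (ψ q.1, q.2)
    simpa using this
  · have h2 := hin _ q0 q1
    rw [hLe, hγ, hl₁.2.2 (ψ q.1, q.2) h2.1 h2.2]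
    simp [aa, al_smul]
  · have q0' : 0 ≤ q.1 := hpos _ (by linarith)
    have q1' : r * q.1 ≤ 1 := by linarith
    have h2 := hin _ q0' q1'
    have h3 := congrArg Complex.re (hl₁.2.2 (ψ q.1, q.2) h2.1 h2.2)
    have h4 := hi₁ (ψ q.1, q.2) (by
      simp only
      rw [hψv _ q0' q1', stair_1 δ e q0 q1, abs_le]
      constructor <;> nlinarith)
    rw [hγ]
    simp only [aa] at h3
    simp only
    rw [← h3, Complex.exp_re]
    refine mul_neg_of_pos_of_neg (Real.exp_pos _) ?_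
    rw [abs_lt] at h4
    exact Real.cos_neg_of_pi_div_two_lt_of_lt (by linarith [h4.1]) (by linarith [h4.2])
  · have q0' : 0 ≤ q.1 := hpos _ (by linarith)
    have q1' : r * q.1 ≤ 1 := by linarith
    simp only
    rw [hψv _ q0' q1']
    rcases hq with hq | hq
    · left
      rw [stair_2 δ e q0 hq, abs_le]
      constructor <;> nlinarith
    · right
      rw [stair_3 δ e hq q1, abs_le]
      constructor <;> nlinarith
where
  nonneg_of_mul_nonneg_right' {a b : ℝ} (ha : 0 < a) (h : 0 ≤ a * b) : 0 ≤ b :=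
    le_of_mul_le_mul_left (by simpa using h) ha

/-- The cutoff which is `1` on `[8/10, 85/100]` and `0` off `(7/10, 95/100)`. -/
noncomputable def cut (y : ℝ) : ℝ := cl (10 * y - 7) * cl (19 / 2 - 10 * y)

lemma cl_zero' {s : ℝ} (h : s ≤ 0) : cl s = 0 := max_eq_left ((min_le_left _ _).trans h)
lemma cl_one' {s : ℝ} (h : 1 ≤ s) : cl s = 1 := by rw [cl, min_eq_right h]; simp

lemma cut_zero {y : ℝ} (h : y ≤ 7 / 10 ∨ 95 / 100 ≤ y) : cut y = 0 := by
  unfold cut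
  rcases h with h | h
  · rw [cl_zero' (s := 10 * y - 7) (by linarith), zero_mul]
  · rw [cl_zero' (s := 19 / 2 - 10 * y) (by linarith), mul_zero]

lemma cut_one {y : ℝ} (h : 8 / 10 ≤ y) (h' : y ≤ 85 / 100) : cut y = 1 := by
  unfold cut
  rw [cl_one' (by linarith), cl_one' (by linarith), one_mul]

lemma cut_mem (y : ℝ) : 0 ≤ cut y ∧ cut y ≤ 1 :=
  ⟨mul_nonneg (cl_nonneg _) (cl_nonneg _),
    mul_le_one₀ (cl_le_one _) (cl_nonneg _) (cl_le_one _)⟩

lemma cut_cont {r : ℕ} (hr : 2 ≤ r) : Continuous fun q : Q => cut (xr r q.1) := by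
  have hr' : (2 : ℝ) ≤ r := by exact_mod_cast hr
  have h : Continuous fun t : ℝ => cut (r * t) := by unfold cut; fun_prop
  have h2 := h.continuousOn.comp_fract'' (by
    rw [cut_zero (Or.inl (by norm_num)), cut_zero (Or.inr (by linarith))])
  exact h2.comp continuous_fst

lemma xr_per (r : ℕ) : Per fun q : Q => xr r q.1 := fun q m => by simp [xr, lat]

end Common

open Common in
theorem common (hG : GlobalStmt) (h0 : R0Stmt) {η : ℝ} (e0 : 0 < η) (e1 : η ≤ 1 / 200)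
    (hR : RStmt η) : CommonStmt := by
  intro c hN 𝒮 r hr hS x hz δ hδ hgood
  have hr' : (2 : ℝ) ≤ r := by exact_mod_cast hr
  have hr0 : (0 : ℝ) < r := by linarith
  obtain ⟨y, Λ, hxy, hgy, hl, hneg, him⟩ := stretch hG h0 hr hS x hz (δ := min δ (1 / 10))
    (lt_min hδ (by norm_num)) (min_le_right _ _) fun q hq => hgood q
      (hq.imp (fun h => h.trans (min_le_left _ _)) fun h => h.trans (min_le_left _ _))
  have ha : 0 < η / 16 / r := by positivity
  have hb : r * ((1 - η / 16) / r) < 1 := by rw [mul_div_cancel₀ _ hr0.ne']; linarith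
  have hK := hS.ok _ _ ha hb
  have hmem : ∀ q : Q, (η / 16 / r ≤ Int.fract q.1 ∧ Int.fract q.1 ≤ (1 - η / 16) / r) ↔
      (η / 16 ≤ xr r q.1 ∧ xr r q.1 ≤ 1 - η / 16) := fun q => by
    rw [div_le_iff₀ hr0, le_div_iff₀ hr0, xr, mul_comm]
  have hgx : ∀ q : Q, xr r q.1 ≤ 1 → xr r q.1 ≤ 8 / 10 ∨ 85 / 100 ≤ xr r q.1 → Good y q :=
    fun q q1 hq => good_fract (hgy _ (Int.fract_nonneg _) q1 hq)
  have hu : ∀ q : Q, xr r q.1 ≤ 1 → cut (xr r q.1) = 1 ∨ Good y q := fun q q1 => by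
    by_cases hq : xr r q.1 ≤ 8 / 10 ∨ 85 / 100 ≤ xr r q.1
    · exact Or.inr (hgx q q1 hq)
    · rw [not_or, not_le, not_le] at hq
      exact Or.inl (cut_one hq.1.le hq.2.le)
  have hone : ∀ q : Q, xr r q.1 ≤ 1 → ∀ s, cut (xr r q.1) ≤ s → s ≤ 1 →
      y.γ (s, q) = y.γ (1, q) := fun q q1 s s0 s1 => by
    rcases hu q q1 with h | h
    · rw [le_antisymm s1 (h ▸ s0)]
    · exact good_eq h ((cut_mem _).1.trans s0) s1
  obtain ⟨E, γ, hγ, hNF, ε, hε, hloc⟩ := hG.setup c 𝒮 y _ hK (fun q => cut (xr r q.1))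
    (cut_cont hr) ((xr_per r).comp cut) (fun q => cut_mem _) (fun q hq => by
      have hq' := mt (hmem q).2 hq
      rw [not_and_or, not_le, not_le] at hq'
      exact cut_zero (hq'.imp (fun h => by linarith) fun h => by linarith))
  have hE : ∀ q, E q = y.γ (cut (xr r q.1), q) := fun q => by
    have := hγ 1 q
    rw [γ.target] at this
    simpa using this
  have hE1 : ∀ q : Q, xr r q.1 ≤ 1 → E q = y.γ (1, q) := fun q q1 =>
    (hE q).trans (hone q q1 _ le_rfl (cut_mem _).2)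
  obtain ⟨z, hyz, hzK, hzo⟩ := hloc _ (hR c hN (y.rel hK) y.f (y.embR hK) E γ r (by omega)
    (fun q q0 q1 => (hmem q).2 ⟨q0, q1⟩)
    (fun q hq t => by
      rw [hγ, hE]
      by_cases q1 : xr r q.1 ≤ 1
      · have hg := hgx q q1 hq
        have h1 := cut_mem (xr r q.1)
        rw [good_eq hg (mul_nonneg h1.1 t.2.1) (mul_le_one₀ h1.2 t.2.1 t.2.2),
          good_eq hg h1.1 h1.2]
      · rw [cut_zero (Or.inr (by linarith [not_le.1 q1])), zero_mul])
    (by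
      obtain ⟨a, b, h1, h2, h3, h4, h5, h6⟩ := hNF
      exact ⟨a, b, h1, h2, h3, h4, h5, fun q hq => h6 q (hu q (by linarith [hq.2]))⟩)
    (fun q _ q1 => by rw [hE1 q (by linarith)]; exact y.g1 q)
    (fun q q0 q1 => by
      rw [hE1 q (by linarith), gam_fract]
      exact hneg _ q0 q1)
    Λ hl.1 hl.2.1
    (fun q q0 q1 => by
      have s0 : 0 ≤ q.1 := by
        by_contra hneg'
        have : r * q.1 < 0 := mul_neg_of_pos_of_neg hr0 (not_le.1 hneg')
        linarith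
      have s1 : r * q.1 ≤ 1 := by linarith
      refine ⟨?_, him q q0 q1⟩
      rw [hE1 q (by rw [xr, fract_strip hr s0 s1]; exact s1)]
      exact hl.2.2 q s0 s1)
    ε hε)
  have hTK : ∀ q : Q, η / 16 / r ≤ Int.fract q.1 ∧ Int.fract q.1 ≤ (1 - η / 16) / r → Tr z q :=
    fun q hq s s0 s1 => by
      have hq' := (hmem q).1 hq
      rcases hzK q hq s s0 s1 with h | ⟨s', h1, h2, h3⟩
      · exact h hq'.1 hq'.2
      · rw [h3, hone q (by linarith [hq'.2]) s' h1 h2]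
        exact y.g1 q
  have hT : ∀ q, Tr z q := fun q => by
    rcases hzo q with ⟨q', hq', ho⟩ | h
    · exact (hG.orb c 𝒮 z q' q ho).2 (hTK q' hq')
    · obtain ⟨q', q0, q1, ho⟩ := hS.cover q
      by_cases hq' : η / 16 / r ≤ Int.fract q'.1 ∧ Int.fract q'.1 ≤ (1 - η / 16) / r
      · exact (hG.orb c 𝒮 z q' q ho).2 (hTK q' hq')
      · refine good_tr (h ((hG.orb c 𝒮 y q' q ho).1 (hgy q' q0 q1 ?_)))
        have h1 := mt (hmem q').2 hq'
        rw [not_and_or, not_le, not_le, xr, fract_strip hr q0 q1] at h1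
        exact h1.imp (fun h => by linarith) fun h => by linarith
  obtain ⟨w, hzw, hw⟩ := hG.trunc c 𝒮 z (fun _ => 1) continuous_const (per_const _)
    (fun _ => ⟨zero_le_one, le_rfl⟩) (fun _ _ _ => rfl) fun q _ => hT q
  exact ⟨w, hG.trans _ _ _ _ _ (hG.trans _ _ _ _ _ hxy hyz) hzw, fun q => hw q (Or.inl rfl)⟩

end Pool.Agent.Lib.MP_72f1d0_gt
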