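import Pool.Agent.Lib.MP_72f1d0_gt.ML

/-!
One corrugation of an embedded torus.
-/

open scoped ContDiff
open Metric Set

namespace Pool.Agent.Lib.MP_72f1d0_gt

namespace MLC

open MeasureTheory in
open scoped Convolution in
lemma smooth_approx {n : Q → G} (hn : Continuous n) (hp : Per n) {ε : ℝ} (hε : 0 < ε) :
    ∃ n' : Q → G, ContDiff ℝ ∞ n' ∧ Per n' ∧ ∀ q, ‖n' q - n q‖ ≤ ε := by
  obtain ⟨δ, hδ, -, h⟩ := unif (V := ℝ) (g := fun x : Q × ℝ => n x.1) (hn.comp continuous_fst)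
    (fun q m _ => hp q m) hε
  let φ : ContDiffBump (0 : Q) := ⟨δ / 2, δ, half_pos hδ, half_lt_self hδ⟩
  refine ⟨φ.normed volume ⋆[ContinuousLinearMap.lsmul ℝ ℝ, volume] n,
    φ.hasCompactSupport_normed.contDiff_convolution_left _ φ.contDiff_normed
      hn.locallyIntegrable, fun q m => ?_, fun q => ?_⟩
  · simp only [convolution_def]
    congr 1
    funext t
    rw [show q + lat m - t = (q - t) + lat m by abel, hp]
  · rw [← dist_eq_norm]
    refine φ.dist_normed_convolution_le hn.aestronglyMeasurable fun x hx => ?_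
    rw [dist_eq_norm]
    exact h q x 0 0 (by simp) (by simp) (by simpa [dist_eq_norm] using (mem_ball.1 hx).le)
      (by simpa using hδ.le)

lemma ap_dd (c : Ctx) (F : Q → G) (q v : Q) : ap (dd c F q) v = c.om (F q) (fderiv ℝ F q v) := by
  have e : v = v.1 • ((1, 0) : Q) + v.2 • ((0, 1) : Q) := by ext <;> simp
  conv_rhs => rw [e]
  simp only [ap, dd, map_add, map_smul]

lemma fderiv_per' {F : Q → G} {a : Q} {b : G} (h : ∀ q, F (q + a) = F q + b) (q : Q) :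
    fderiv ℝ F (q + a) = fderiv ℝ F q := by
  have e : (fun x : Q => F (x + a)) = fun x => F x + b := funext h
  have h1 := fderiv_comp_add_right (𝕜 := ℝ) (f := F) (x := q) a
  rw [e, fderiv_add_const] at h1
  exact h1.symm

lemma cone {ℓ : Q →L[ℝ] ℝ} {T : Q → (Q →L[ℝ] G)} {N₁ N₂ : Q → G} (hT : Continuous T)
    (h₁ : Continuous N₁) (h₂ : Continuous N₂) (pT : Per T) (p₁ : Per N₁) (p₂ : Per N₂)
    (h : ∀ q (v : Q) (x y : ℝ), |x| ≤ |ℓ v| / 2 → |y| ≤ |ℓ v| →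
      T q v + x • N₁ q + y • N₂ q = 0 → v = 0) :
    ∃ m : ℝ, 0 < m ∧ ∀ q (v : Q) (x y : ℝ), |x| ≤ |ℓ v| / 2 → |y| ≤ |ℓ v| →
      m * ‖v‖ ≤ ‖T q v + x • N₁ q + y • N₂ q‖ := by
  have hS : IsCompact ((closedBall (0 : Q) 1 ×ˢ sphere (0 : Q) 1 ×ˢ closedBall (0 : Q) ‖ℓ‖) ∩
      ({z : Q × Q × Q | |z.2.2.1| ≤ |ℓ z.2.1| / 2} ∩ {z : Q × Q × Q | |z.2.2.2| ≤ |ℓ z.2.1|})) :=
    ((isCompact_closedBall _ _).prod ((isCompact_sphere _ _).prod
      (isCompact_closedBall _ _))).inter_right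
      ((isClosed_le (by fun_prop) (by fun_prop)).inter (isClosed_le (by fun_prop) (by fun_prop)))
  obtain ⟨m, hm, hm'⟩ := hS.exists_forall_le'
    (f := fun z : Q × Q × Q => ‖T z.1 z.2.1 + z.2.2.1 • N₁ z.1 + z.2.2.2 • N₂ z.1‖)
    (a := 0) (by fun_prop) fun z hz => by
      rw [norm_pos_iff]
      intro h0
      have h1 := h _ _ _ _ hz.2.1 hz.2.2 h0
      have h2 : ‖z.2.1‖ = 1 := mem_sphere_zero_iff_norm.1 hz.1.2.1
      rw [h1, norm_zero] at h2
      exact zero_ne_one h2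
  refine ⟨m, hm, fun q v x y hx hy => ?_⟩
  by_cases hv : v = 0
  · rw [hv, norm_zero, mul_zero]; exact norm_nonneg _
  have hv0 : 0 < ‖v‖ := norm_pos_iff.2 hv
  obtain ⟨q₀, k, h0, rfl⟩ := exists_red q
  rw [pT, p₁, p₂]
  have hl : |ℓ (‖v‖⁻¹ • v)| = ‖v‖⁻¹ * |ℓ v| := by
    rw [map_smul, smul_eq_mul, abs_mul, abs_of_pos (inv_pos.2 hv0)]
  have hn : ‖‖v‖⁻¹ • v‖ = 1 := by
    rw [norm_smul, norm_inv, norm_norm, inv_mul_cancel₀ hv0.ne']
  have hl' : |ℓ (‖v‖⁻¹ • v)| ≤ ‖ℓ‖ := by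
    have := ℓ.le_opNorm (‖v‖⁻¹ • v)
    rwa [hn, mul_one, Real.norm_eq_abs] at this
  have hx' : |‖v‖⁻¹ * x| ≤ |ℓ (‖v‖⁻¹ • v)| / 2 := by
    rw [hl, abs_mul, abs_of_pos (inv_pos.2 hv0), mul_div_assoc]
    gcongr
  have hy' : |‖v‖⁻¹ * y| ≤ |ℓ (‖v‖⁻¹ • v)| := by
    rw [hl, abs_mul, abs_of_pos (inv_pos.2 hv0)]
    gcongr
  have := hm' (q₀, ‖v‖⁻¹ • v, (‖v‖⁻¹ * x, ‖v‖⁻¹ * y))
    ⟨⟨mem_closedBall_zero_iff.2 h0, mem_sphere_zero_iff_norm.2 hn, by
      rw [mem_closedBall_zero_iff, Prod.norm_def, max_le_iff]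
      simp only [Real.norm_eq_abs]
      exact ⟨by linarith [abs_nonneg (ℓ (‖v‖⁻¹ • v))], by linarith⟩⟩, hx', hy'⟩
  simp only [map_smul, mul_smul, ← smul_add] at this
  rw [norm_smul, norm_inv, norm_norm, ← div_eq_inv_mul, le_div_iff₀ hv0] at this
  exact this

/-- The corrugation profile. -/
noncomputable def ww (ℓ : Q →L[ℝ] ℝ) (N : ℕ) (a : ℝ) (q : Q) : ℝ × ℝ :=
  (-(a * Real.sin (2 * (2 * Real.pi * N * ℓ q)) / (8 * Real.pi * N)),
    a * Real.sin (2 * Real.pi * N * ℓ q) / (2 * Real.pi * N))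

lemma ww_der (ℓ : Q →L[ℝ] ℝ) {N : ℕ} (hN : 0 < N) (a : ℝ) (q : Q) :
    HasFDerivAt (ww ℓ N a)
      (((-(a * Real.cos (2 * (2 * Real.pi * N * ℓ q)) / 2)) • ℓ).prod
        ((a * Real.cos (2 * Real.pi * N * ℓ q)) • ℓ)) q := by
  have hN' : (N : ℝ) ≠ 0 := by exact_mod_cast hN.ne'
  have hpi := Real.pi_ne_zero
  have h1 : HasDerivAt (fun s : ℝ => -(a * Real.sin (2 * (2 * Real.pi * N * s)) /
      (8 * Real.pi * N))) (-(a * Real.cos (2 * (2 * Real.pi * N * ℓ q)) / 2)) (ℓ q) := by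
    have := ((((((hasDerivAt_id (ℓ q)).const_mul (2 * Real.pi * N)).const_mul 2).sin).const_mul
      a).div_const (8 * Real.pi * N)).neg
    refine this.congr_deriv ?_
    simp only [id]
    field_simp
    ring
  have h2 : HasDerivAt (fun s : ℝ => a * Real.sin (2 * Real.pi * N * s) /
      (2 * Real.pi * N)) (a * Real.cos (2 * Real.pi * N * ℓ q)) (ℓ q) := by
    have := (((((hasDerivAt_id (ℓ q)).const_mul (2 * Real.pi * N)).sin).const_mul
      a).div_const (2 * Real.pi * N))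
    refine this.congr_deriv ?_
    simp only [id]
    field_simp
  exact (h1.comp_hasFDerivAt q ℓ.hasFDerivAt).prodMk (h2.comp_hasFDerivAt q ℓ.hasFDerivAt)

lemma ww_norm (ℓ : Q →L[ℝ] ℝ) {N : ℕ} (hN : 0 < N) {a : ℝ} (h0 : 0 ≤ a) (h1 : a ≤ 1) (q : Q) :
    ‖ww ℓ N a q‖ ≤ 1 / N := by
  have hN' : (0 : ℝ) < N := by exact_mod_cast hN
  have hpi := Real.pi_gt_three
  have h : ∀ s k : ℝ, 1 ≤ k → |a * Real.sin s / (k * Real.pi * N)| ≤ 1 / N := fun s k hk => by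
    have hk' : 1 ≤ k * Real.pi := by nlinarith
    rw [abs_div, abs_mul, abs_of_nonneg h0, abs_of_pos (by positivity : 0 < k * Real.pi * N)]
    have := Real.abs_sin_le_one s
    have h2 : a * |Real.sin s| ≤ 1 := by nlinarith [abs_nonneg (Real.sin s)]
    exact div_le_div₀ zero_le_one h2 hN' (by nlinarith)
  rw [ww, Prod.norm_def, max_le_iff]
  simp only [Real.norm_eq_abs, abs_neg]
  exact ⟨h _ _ (by norm_num), h _ _ (by norm_num)⟩

lemma ww_sub (ℓ : Q →L[ℝ] ℝ) {N : ℕ} (hN : 0 < N) {a : ℝ} (h0 : 0 ≤ a) (h1 : a ≤ 1) (q q' : Q) :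
    |(ww ℓ N a q' - ww ℓ N a q).1| ≤ |ℓ (q' - q)| / 2 ∧
      |(ww ℓ N a q' - ww ℓ N a q).2| ≤ |ℓ (q' - q)| := by
  have hN' : (0 : ℝ) < N := by exact_mod_cast hN
  have hpi := Real.pi_pos
  have h : ∀ k : ℝ, 0 < k → |a * (Real.sin (k * ℓ q') - Real.sin (k * ℓ q)) / k| ≤ |ℓ (q' - q)| :=
    fun k hk => by
      have := Real.abs_sin_sub_sin_le (k * ℓ q') (k * ℓ q)
      rw [← mul_sub, abs_mul, abs_of_pos hk, ← map_sub] at this
      rw [abs_div, abs_mul, abs_of_nonneg h0, abs_of_pos hk, div_le_iff₀ hk]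
      nlinarith [abs_nonneg (Real.sin (k * ℓ q') - Real.sin (k * ℓ q))]
  constructor
  · have := h (2 * (2 * Real.pi * N)) (by positivity)
    have e : (ww ℓ N a q' - ww ℓ N a q).1 = -(a * (Real.sin (2 * (2 * Real.pi * N) * ℓ q') -
        Real.sin (2 * (2 * Real.pi * N) * ℓ q)) / (2 * (2 * Real.pi * N))) / 2 := by
      simp only [ww, Prod.fst_sub, mul_assoc]
      field_simp
      ring
    rw [e, abs_div, abs_neg, abs_two]
    linarith
  · have := h (2 * Real.pi * N) (by positivity)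
    have e : (ww ℓ N a q' - ww ℓ N a q).2 = a * (Real.sin (2 * Real.pi * N * ℓ q') -
        Real.sin (2 * Real.pi * N * ℓ q)) / (2 * Real.pi * N) := by
      simp only [ww, Prod.snd_sub]
      ring
    rwa [e]

lemma ww_per {ℓ : Q →L[ℝ] ℝ} (hℓ : ∀ m, ∃ k : ℤ, ℓ (lat m) = k) (N : ℕ) (a : ℝ) :
    Per (ww ℓ N a) := by
  intro q m
  obtain ⟨k, hk⟩ := hℓ m
  have e1 : 2 * Real.pi * N * ℓ (q + lat m) =
      2 * Real.pi * N * ℓ q + ((N * k : ℤ) : ℝ) * (2 * Real.pi) := by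
    rw [map_add, hk]; push_cast; ring
  have e2 : 2 * (2 * Real.pi * N * ℓ (q + lat m)) =
      2 * (2 * Real.pi * N * ℓ q) + ((2 * N * k : ℤ) : ℝ) * (2 * Real.pi) := by
    rw [map_add, hk]; push_cast; ring
  rw [ww, e2, e1, Real.sin_add_int_mul_two_pi, Real.sin_add_int_mul_two_pi, ww]

lemma ww_smooth (ℓ : Q →L[ℝ] ℝ) (N : ℕ) :
    ContDiff ℝ ∞ fun x : ℝ × Q => ww ℓ N (Real.smoothTransition x.1) x.2 := by
  have h1 : ContDiff ℝ ∞ fun x : ℝ × Q => Real.smoothTransition x.1 :=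
    Real.smoothTransition.contDiff.comp contDiff_fst
  have h2 : ContDiff ℝ ∞ fun x : ℝ × Q => ℓ x.2 := ℓ.contDiff.comp contDiff_snd
  unfold ww
  exact ((h1.mul (contDiff_const.mul (contDiff_const.mul h2)).sin).div_const _).neg.prodMk
    ((h1.mul (contDiff_const.mul h2).sin).div_const _)

end MLC

open MLC in
theorem corr : CorrStmt := by
  intro c f hf ℓ hℓ ν hν pν n₁ n₂ hn₁ hn₂ p₁ p₂ hcone ε hε
  have hfd : Differentiable ℝ f := hf.smooth.differentiable (by simp)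
  obtain ⟨m, hm, hm'⟩ := cone (ℓ := ℓ) (T := fun q => (c.om (f q)).comp (fderiv ℝ f q))
    (N₁ := fun q => ν q • n₁ q) (N₂ := fun q => ν q • n₂ q)
    ((c.om_smooth.continuous.comp hf.smooth.continuous).clm_comp
      (hf.smooth.continuous_fderiv (by simp)))
    (hν.continuous.smul hn₁) (hν.continuous.smul hn₂)
    (fun q k => by simp only [hf.equi, c.om_per, fderiv_per' (fun q => hf.equi q k)])
    (fun q k => by simp only [pν q k, p₁ q k]) (fun q k => by simp only [pν q k, p₂ q k])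
    fun q v x y hx hy h => hcone q v x y hx hy (by
      rw [ap_dd, mul_smul, mul_smul]; exact h)
  simp only [ContinuousLinearMap.comp_apply, ← ap_dd] at hm'
  obtain ⟨B, hB0, hB⟩ := bdd hν.continuous pν
  set η : ℝ := min ε (m / 4) with hη
  have hη0 : 0 < η := by positivity
  have hηε : η ≤ ε := min_le_left _ _
  have hηm : η ≤ m / 4 := min_le_right _ _
  set L : ℝ := ‖ℓ‖ + 1 with hL
  have hL0 : 0 < L := by positivity
  have hLv : ∀ v, |ℓ v| ≤ L * ‖v‖ := fun v => by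
    have := ℓ.le_opNorm v
    rw [Real.norm_eq_abs] at this
    nlinarith [norm_nonneg v]
  have hLv' : ∀ v : Q, ‖v‖ ≤ L * ‖v‖ := fun v => by nlinarith [norm_nonneg v, norm_nonneg ℓ]
  obtain ⟨k₁, s₁, q₁, a₁⟩ := smooth_approx hn₁ p₁ (show 0 < η / (4 * L * B) by positivity)
  obtain ⟨k₂, s₂, q₂, a₂⟩ := smooth_approx hn₂ p₂ (show 0 < η / (4 * L * B) by positivity)
  set N₁ : Q → G := fun q => c.e (f q) (ν q • k₁ q) with hN₁
  set N₂ : Q → G := fun q => c.e (f q) (ν q • k₂ q) with hN₂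
  have sN₁ : ContDiff ℝ ∞ N₁ := (c.e_smooth.comp hf.smooth).clm_apply (hν.smul s₁)
  have sN₂ : ContDiff ℝ ∞ N₂ := (c.e_smooth.comp hf.smooth).clm_apply (hν.smul s₂)
  set Φ : Q × (ℝ × ℝ) → G := fun z => f z.1 + z.2.1 • N₁ z.1 + z.2.2 • N₂ z.1 with hΦ
  have sΦ : ContDiff ℝ ∞ Φ :=
    ((hf.smooth.comp contDiff_fst).add (contDiff_snd.fst.smul (sN₁.comp contDiff_fst))).add
      (contDiff_snd.snd.smul (sN₂.comp contDiff_fst))
  have pΦ : ∀ q k v, Φ (q + lat k, v) = Φ (q, v) + c.i (lat k) := fun q k v => by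
    simp only [hΦ, hN₁, hN₂, hf.equi, c.e_per, pν q k, q₁ q k, q₂ q k]
    abel
  have Φ0 : ∀ q, Φ (q, 0) = f q := fun q => by simp [hΦ]
  have hA0 : ∀ q v (w : ℝ × ℝ), AA c Φ (q, 0) (v, w) =
      ap (dd c f q) v + w.1 • ν q • k₁ q + w.2 • ν q • k₂ q := fun q v w => by
    have hfst : HasFDerivAt (fun z : Q × (ℝ × ℝ) => z.1) (ContinuousLinearMap.fst ℝ Q (ℝ × ℝ))
        (q, 0) := hasFDerivAt_fst
    have hsnd : HasFDerivAt (fun z : Q × (ℝ × ℝ) => z.2) (ContinuousLinearMap.snd ℝ Q (ℝ × ℝ))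
        (q, 0) := hasFDerivAt_snd
    have d0 := HasFDerivAt.comp (q, (0 : ℝ × ℝ)) (hfd q).hasFDerivAt hfst
    have d1 := HasFDerivAt.comp (q, (0 : ℝ × ℝ))
      (sN₁.differentiable (by simp) q).hasFDerivAt hfst
    have d2 := HasFDerivAt.comp (q, (0 : ℝ × ℝ))
      (sN₂.differentiable (by simp) q).hasFDerivAt hfst
    have d : HasFDerivAt Φ _ (q, 0) := (d0.add (hsnd.fst.smul d1)).add (hsnd.snd.smul d2)
    rw [AA, ContinuousLinearMap.comp_apply, d.fderiv, Φ0, ap_dd]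
    simp [hN₁, hN₂, c.om_e]
  have hA1 : ∀ q v (w : ℝ × ℝ), |w.1| ≤ |ℓ v| / 2 → |w.2| ≤ |ℓ v| →
      ‖AA c Φ (q, 0) (v, w) - (ap (dd c f q) v + w.1 • ν q • n₁ q + w.2 • ν q • n₂ q)‖ ≤
        η / 2 * ‖v‖ := fun q v w h1 h2 => by
    have e : AA c Φ (q, 0) (v, w) - (ap (dd c f q) v + w.1 • ν q • n₁ q + w.2 • ν q • n₂ q) =
        w.1 • ν q • (k₁ q - n₁ q) + w.2 • ν q • (k₂ q - n₂ q) := by
      rw [hA0]
      simp only [smul_sub]
      abel
    have b : ∀ (x : ℝ) (g : G), |x| ≤ |ℓ v| → ‖g‖ ≤ η / (4 * L * B) →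
        ‖x • ν q • g‖ ≤ η / 4 * ‖v‖ := fun x g hx hg => by
      rw [norm_smul, norm_smul, Real.norm_eq_abs]
      calc _ ≤ L * ‖v‖ * (B * (η / (4 * L * B))) := by
            gcongr
            exacts [hx.trans (hLv v), hB q]
        _ = _ := by field_simp
    rw [e]
    linarith [norm_add_le (w.1 • ν q • (k₁ q - n₁ q)) (w.2 • ν q • (k₂ q - n₂ q)),
      b w.1 _ (by linarith [abs_nonneg (ℓ v)]) (a₁ q), b w.2 _ h2 (a₂ q)]
  have hvw : ∀ (v : Q) (w : ℝ × ℝ), |w.1| ≤ |ℓ v| / 2 → |w.2| ≤ |ℓ v| → ‖(v, w)‖ ≤ L * ‖v‖ :=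
    fun v w h1 h2 => by
      rw [Prod.norm_def, Prod.norm_def w, max_le_iff, max_le_iff]
      simp only [Real.norm_eq_abs]
      exact ⟨hLv' v, by linarith [abs_nonneg (ℓ v), hLv v], h2.trans (hLv v)⟩
  obtain ⟨ρ, hρ, ml1, ml2⟩ := ml c f hf (ℝ × ℝ) Φ sΦ pΦ Φ0 (η / (2 * L)) (by positivity)
  obtain ⟨N, hN⟩ := exists_nat_gt (1 / ρ)
  have hN0 : (0 : ℝ) < N := lt_trans (by positivity) hN
  have hN1 : 0 < N := by exact_mod_cast hN0
  have hNρ : 1 / (N : ℝ) ≤ ρ := by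
    rw [div_lt_iff₀ hρ] at hN
    rw [div_le_iff₀ hN0]
    linarith
  have st0 := Real.smoothTransition.nonneg
  have st1 := Real.smoothTransition.le_one
  set H : ℝ → Q → G := fun l q => Φ (q, ww ℓ N (Real.smoothTransition l) q) with hH
  have sH : ContDiff ℝ ∞ fun x : ℝ × Q => H x.1 x.2 :=
    sΦ.comp (contDiff_snd.prodMk (ww_smooth ℓ N))
  have hwρ : ∀ l q, ‖ww ℓ N (Real.smoothTransition l) q‖ ≤ ρ := fun l q =>
    (ww_norm ℓ hN1 (st0 l) (st1 l) q).trans hNρ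
  have key : ∀ l q v, ∃ w : ℝ × ℝ, |w.1| ≤ |ℓ v| / 2 ∧ |w.2| ≤ |ℓ v| ∧
      w = (-(Real.smoothTransition l * Real.cos (2 * (2 * Real.pi * N * ℓ q)) / 2) * ℓ v,
        Real.smoothTransition l * Real.cos (2 * Real.pi * N * ℓ q) * ℓ v) ∧
      ‖ap (dd c (H l) q) v - (ap (dd c f q) v + w.1 • ν q • n₁ q + w.2 • ν q • n₂ q)‖ ≤
        η * ‖v‖ := fun l q v => by
    have hc : ∀ s : ℝ, |Real.smoothTransition l * Real.cos s| ≤ 1 := fun s => by
      rw [abs_mul, abs_of_nonneg (st0 l)]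
      nlinarith [Real.abs_cos_le_one s, abs_nonneg (Real.cos s), st0 l, st1 l]
    set w : ℝ × ℝ :=
      (-(Real.smoothTransition l * Real.cos (2 * (2 * Real.pi * N * ℓ q)) / 2) * ℓ v,
        Real.smoothTransition l * Real.cos (2 * Real.pi * N * ℓ q) * ℓ v) with hw
    have w1 : |w.1| ≤ |ℓ v| / 2 := by
      simp only [hw]
      rw [abs_mul, abs_neg, abs_div, abs_two]
      nlinarith [hc (2 * (2 * Real.pi * N * ℓ q)), abs_nonneg (ℓ v)]
    have w2 : |w.2| ≤ |ℓ v| := by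
      simp only [hw]
      rw [abs_mul]
      nlinarith [hc (2 * Real.pi * N * ℓ q), abs_nonneg (ℓ v)]
    refine ⟨w, w1, w2, rfl, ?_⟩
    have d : HasFDerivAt (H l) _ q :=
      HasFDerivAt.comp q (sΦ.differentiable (by simp) _).hasFDerivAt
        ((hasFDerivAt_id q).prodMk (ww_der ℓ hN1 (Real.smoothTransition l) q))
    have e : ap (dd c (H l) q) v = AA c Φ (q, ww ℓ N (Real.smoothTransition l) q) (v, w) := by
      rw [ap_dd, d.fderiv]
      rfl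
    have b1 : ‖AA c Φ (q, ww ℓ N (Real.smoothTransition l) q) (v, w) - AA c Φ (q, 0) (v, w)‖ ≤
        η / 2 * ‖v‖ := by
      rw [← sub_apply]
      calc _ ≤ _ := ContinuousLinearMap.le_opNorm _ _
        _ ≤ η / (2 * L) * (L * ‖v‖) := by
            gcongr
            exacts [ml1 q _ (hwρ l q), hvw v w w1 w2]
        _ = _ := by field_simp
    have b2 := hA1 q v w w1 w2
    rw [e]
    have := norm_add_le
      (AA c Φ (q, ww ℓ N (Real.smoothTransition l) q) (v, w) - AA c Φ (q, 0) (v, w))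
      (AA c Φ (q, 0) (v, w) - (ap (dd c f q) v + w.1 • ν q • n₁ q + w.2 • ν q • n₂ q))
    rw [sub_add_sub_cancel] at this
    linarith
  have emb : ∀ l, IsEmb c (H l) := fun l => by
    refine ⟨sH.comp (contDiff_const.prodMk contDiff_id), fun q k => ?_, fun q q' h => ?_,
      fun q a b h => ?_⟩
    · simp only [hH, ww_per hℓ N _ q k, pΦ]
    · obtain ⟨w1, w2⟩ := ww_sub ℓ hN1 (st0 l) (st1 l) q q'
      have b1 := ml2 q q' _ _ (hwρ l q) (hwρ l q') h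
      have b2 := hA1 q _ _ w1 w2
      have b3 := hm' q _ _ _ w1 w2
      have b4 := hvw _ _ w1 w2
      generalize ww ℓ N (Real.smoothTransition l) q' - ww ℓ N (Real.smoothTransition l) q = w at *
      have b5 : η / (2 * L) * ‖(q' - q, w)‖ ≤ η / 2 * ‖q' - q‖ := by
        calc _ ≤ η / (2 * L) * (L * ‖q' - q‖) := by gcongr
          _ = _ := by field_simp
      have b6 := norm_sub_le (AA c Φ (q, 0) (q' - q, w)) (AA c Φ (q, 0) (q' - q, w) -
        (ap (dd c f q) (q' - q) + w.1 • ν q • n₁ q + w.2 • ν q • n₂ q))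
      rw [sub_sub_cancel] at b6
      have b7 : ‖q' - q‖ ≤ 0 := by nlinarith [norm_nonneg (q' - q)]
      exact (sub_eq_zero.1 (norm_le_zero_iff.1 b7)).symm
    · obtain ⟨w, w1, w2, -, b1⟩ := key l q (a, b)
      have b2 := hm' q _ _ _ w1 w2
      have e : ap (dd c (H l) q) (a, b) = 0 := h
      rw [e, zero_sub, norm_neg] at b1
      have b7 : ‖((a, b) : Q)‖ ≤ 0 := by nlinarith [norm_nonneg ((a, b) : Q)]
      simpa using norm_le_zero_iff.1 b7
  refine ⟨H 1, ⟨H, sH, emb, funext fun q => ?_, rfl⟩, fun l q h => ?_, fun l q => ?_⟩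
  · have : ww ℓ N (Real.smoothTransition 0) q = 0 := by simp [ww]
    simp only [hH, this, Φ0]
  · simp [hH, hΦ, hN₁, hN₂, h]
  · refine ⟨2 * Real.pi * N * ℓ q, Real.smoothTransition l, st0 l, st1 l,
      fun h => by rw [h, Real.smoothTransition.one], fun v => ?_⟩
    obtain ⟨w, -, -, hw, b1⟩ := key l q v
    have e : ap (dd c f q) v + (ℓ v * (Real.smoothTransition l * ν q)) •
        ((-(Real.cos (2 * (2 * Real.pi * N * ℓ q))) / 2) • n₁ q +
          Real.cos (2 * Real.pi * N * ℓ q) • n₂ q) =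
        ap (dd c f q) v + w.1 • ν q • n₁ q + w.2 • ν q • n₂ q := by
      rw [hw]
      simp only [smul_add, smul_smul, add_assoc]
      congr 3 <;> ring
    show ‖ap (dd c (H l) q) v - _‖ ≤ _
    rw [e]
    exact b1.trans (by gcongr)

end Pool.Agent.Lib.MP_72f1d0_gt
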