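import Pool.Agent.Lib.MP_72f1d0_gt.Corr
import Pool.Agent.Lib.MP_72f1d0_gt.Defs3

/-! One corrugation, with control of the displacement. -/

open scoped ContDiff
open Metric Set

namespace Pool.Agent.Lib.MP_72f1d0_gt

open MLC in
theorem corr2 : Corr2Stmt := by
  intro c f hf ℓ hℓ ν hν pν n₁ n₂ hn₁ hn₂ p₁ p₂ hcone ε hε
  have hfd : Differentiable ℝ f := hf.smooth.differentiable (by simp)
  obtain ⟨m, hm, hm'⟩ := cone (ℓ := ℓ) (T := fun q => (c.om (f q)).comp (fderiv ℝ f q))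
    (N₁ := fun q => ν q • n₁ q) (N₂ := fun q => ν q • n₂ q)
    ((c.om_smooth.continuous.comp hf.smooth.continuous).clm_comp
      (hf.smooth.continuous_fderiv (by simp)))
    (hν.continuous.smul hn₁) (hν.continuous.smul hn₂)
    (fun q k => by simp only [hf.equi, c.om_per, fderiv_per' (fun q => hf.equi q k)])
    (fun q k => by simp only [pν q k, p₁ q k]) (fun q k => by simp only [pν q k, p₂ q k])
    fun q v x y hx hy h => hcone q v x y hx hy (by
      rw [ap_dd, mul_smul, mul_smul]; exact h)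
  simp only [ContinuousLinearMap.comp_apply, ← ap_dd] at hm'
  obtain ⟨B, hB0, hB⟩ := bdd hν.continuous pν
  set η : ℝ := min ε (m / 4) with hη
  have hη0 : 0 < η := by positivity
  have hηε : η ≤ ε := min_le_left _ _
  have hηm : η ≤ m / 4 := min_le_right _ _
  set L : ℝ := ‖ℓ‖ + 1 with hL
  have hL0 : 0 < L := by positivity
  have hLv : ∀ v, |ℓ v| ≤ L * ‖v‖ := fun v => by
    have := ℓ.le_opNorm v
    rw [Real.norm_eq_abs] at this
    nlinarith [norm_nonneg v]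
  have hLv' : ∀ v : Q, ‖v‖ ≤ L * ‖v‖ := fun v => by nlinarith [norm_nonneg v, norm_nonneg ℓ]
  obtain ⟨k₁, s₁, q₁, a₁⟩ := smooth_approx hn₁ p₁ (show 0 < η / (4 * L * B) by positivity)
  obtain ⟨k₂, s₂, q₂, a₂⟩ := smooth_approx hn₂ p₂ (show 0 < η / (4 * L * B) by positivity)
  set N₁ : Q → G := fun q => c.e (f q) (ν q • k₁ q) with hN₁
  set N₂ : Q → G := fun q => c.e (f q) (ν q • k₂ q) with hN₂
  have sN₁ : ContDiff ℝ ∞ N₁ := (c.e_smooth.comp hf.smooth).clm_apply (hν.smul s₁)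
  have sN₂ : ContDiff ℝ ∞ N₂ := (c.e_smooth.comp hf.smooth).clm_apply (hν.smul s₂)
  set Φ : Q × (ℝ × ℝ) → G := fun z => f z.1 + z.2.1 • N₁ z.1 + z.2.2 • N₂ z.1 with hΦ
  have sΦ : ContDiff ℝ ∞ Φ :=
    ((hf.smooth.comp contDiff_fst).add (contDiff_snd.fst.smul (sN₁.comp contDiff_fst))).add
      (contDiff_snd.snd.smul (sN₂.comp contDiff_fst))
  have pΦ : ∀ q k v, Φ (q + lat k, v) = Φ (q, v) + c.i (lat k) := fun q k v => by
    simp only [hΦ, hN₁, hN₂, hf.equi, c.e_per, pν q k, q₁ q k, q₂ q k]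
    abel
  have Φ0 : ∀ q, Φ (q, 0) = f q := fun q => by simp [hΦ]
  have hA0 : ∀ q v (w : ℝ × ℝ), AA c Φ (q, 0) (v, w) =
      ap (dd c f q) v + w.1 • ν q • k₁ q + w.2 • ν q • k₂ q := fun q v w => by
    have hfst : HasFDerivAt (fun z : Q × (ℝ × ℝ) => z.1) (ContinuousLinearMap.fst ℝ Q (ℝ × ℝ))
        (q, 0) := hasFDerivAt_fst
    have hsnd : HasFDerivAt (fun z : Q × (ℝ × ℝ) => z.2) (ContinuousLinearMap.snd ℝ Q (ℝ × ℝ))
        (q, 0) := hasFDerivAt_snd
    have d0 := HasFDerivAt.comp (q, (0 : ℝ × ℝ)) (hfd q).hasFDerivAt hfst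
    have d1 := HasFDerivAt.comp (q, (0 : ℝ × ℝ))
      (sN₁.differentiable (by simp) q).hasFDerivAt hfst
    have d2 := HasFDerivAt.comp (q, (0 : ℝ × ℝ))
      (sN₂.differentiable (by simp) q).hasFDerivAt hfst
    have d : HasFDerivAt Φ _ (q, 0) := (d0.add (hsnd.fst.smul d1)).add (hsnd.snd.smul d2)
    rw [AA, ContinuousLinearMap.comp_apply, d.fderiv, Φ0, ap_dd]
    simp [hN₁, hN₂, c.om_e]
  have hA1 : ∀ q v (w : ℝ × ℝ), |w.1| ≤ |ℓ v| / 2 → |w.2| ≤ |ℓ v| →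
      ‖AA c Φ (q, 0) (v, w) - (ap (dd c f q) v + w.1 • ν q • n₁ q + w.2 • ν q • n₂ q)‖ ≤
        η / 2 * ‖v‖ := fun q v w h1 h2 => by
    have e : AA c Φ (q, 0) (v, w) - (ap (dd c f q) v + w.1 • ν q • n₁ q + w.2 • ν q • n₂ q) =
        w.1 • ν q • (k₁ q - n₁ q) + w.2 • ν q • (k₂ q - n₂ q) := by
      rw [hA0]
      simp only [smul_sub]
      abel
    have b : ∀ (x : ℝ) (g : G), |x| ≤ |ℓ v| → ‖g‖ ≤ η / (4 * L * B) →
        ‖x • ν q • g‖ ≤ η / 4 * ‖v‖ := fun x g hx hg => by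
      rw [norm_smul, norm_smul, Real.norm_eq_abs]
      calc _ ≤ L * ‖v‖ * (B * (η / (4 * L * B))) := by
            gcongr
            exacts [hx.trans (hLv v), hB q]
        _ = _ := by field_simp
    rw [e]
    linarith [norm_add_le (w.1 • ν q • (k₁ q - n₁ q)) (w.2 • ν q • (k₂ q - n₂ q)),
      b w.1 _ (by linarith [abs_nonneg (ℓ v)]) (a₁ q), b w.2 _ h2 (a₂ q)]
  have hvw : ∀ (v : Q) (w : ℝ × ℝ), |w.1| ≤ |ℓ v| / 2 → |w.2| ≤ |ℓ v| → ‖(v, w)‖ ≤ L * ‖v‖ :=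
    fun v w h1 h2 => by
      rw [Prod.norm_def, Prod.norm_def w, max_le_iff, max_le_iff]
      simp only [Real.norm_eq_abs]
      exact ⟨hLv' v, by linarith [abs_nonneg (ℓ v), hLv v], h2.trans (hLv v)⟩
  obtain ⟨ρ, hρ, ml1, ml2⟩ := ml c f hf (ℝ × ℝ) Φ sΦ pΦ Φ0 (η / (2 * L)) (by positivity)
  obtain ⟨B₁, hB₁0, hB₁⟩ := bdd sN₁.continuous (fun q k => by
    simp only [hN₁, hf.equi, c.e_per, pν q k, q₁ q k])
  obtain ⟨B₂, hB₂0, hB₂⟩ := bdd sN₂.continuous (fun q k => by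
    simp only [hN₂, hf.equi, c.e_per, pν q k, q₂ q k])
  obtain ⟨N, hN⟩ := exists_nat_gt (max (1 / ρ) ((B₁ + B₂) / ε))
  have hN' : (B₁ + B₂) / ε < N := (le_max_right _ _).trans_lt hN
  replace hN : 1 / ρ < N := (le_max_left _ _).trans_lt hN
  have hN0 : (0 : ℝ) < N := lt_trans (by positivity) hN
  have hN1 : 0 < N := by exact_mod_cast hN0
  have hNρ : 1 / (N : ℝ) ≤ ρ := by
    rw [div_lt_iff₀ hρ] at hN
    rw [div_le_iff₀ hN0]
    linarith
  have st0 := Real.smoothTransition.nonneg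
  have st1 := Real.smoothTransition.le_one
  set H : ℝ → Q → G := fun l q => Φ (q, ww ℓ N (Real.smoothTransition l) q) with hH
  have sH : ContDiff ℝ ∞ fun x : ℝ × Q => H x.1 x.2 :=
    sΦ.comp (contDiff_snd.prodMk (ww_smooth ℓ N))
  have hwρ : ∀ l q, ‖ww ℓ N (Real.smoothTransition l) q‖ ≤ ρ := fun l q =>
    (ww_norm ℓ hN1 (st0 l) (st1 l) q).trans hNρ
  have key : ∀ l q v, ∃ w : ℝ × ℝ, |w.1| ≤ |ℓ v| / 2 ∧ |w.2| ≤ |ℓ v| ∧
      w = (-(Real.smoothTransition l * Real.cos (2 * (2 * Real.pi * N * ℓ q)) / 2) * ℓ v,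
        Real.smoothTransition l * Real.cos (2 * Real.pi * N * ℓ q) * ℓ v) ∧
      ‖ap (dd c (H l) q) v - (ap (dd c f q) v + w.1 • ν q • n₁ q + w.2 • ν q • n₂ q)‖ ≤
        η * ‖v‖ := fun l q v => by
    have hc : ∀ s : ℝ, |Real.smoothTransition l * Real.cos s| ≤ 1 := fun s => by
      rw [abs_mul, abs_of_nonneg (st0 l)]
      nlinarith [Real.abs_cos_le_one s, abs_nonneg (Real.cos s), st0 l, st1 l]
    set w : ℝ × ℝ :=
      (-(Real.smoothTransition l * Real.cos (2 * (2 * Real.pi * N * ℓ q)) / 2) * ℓ v,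
        Real.smoothTransition l * Real.cos (2 * Real.pi * N * ℓ q) * ℓ v) with hw
    have w1 : |w.1| ≤ |ℓ v| / 2 := by
      simp only [hw]
      rw [abs_mul, abs_neg, abs_div, abs_two]
      nlinarith [hc (2 * (2 * Real.pi * N * ℓ q)), abs_nonneg (ℓ v)]
    have w2 : |w.2| ≤ |ℓ v| := by
      simp only [hw]
      rw [abs_mul]
      nlinarith [hc (2 * Real.pi * N * ℓ q), abs_nonneg (ℓ v)]
    refine ⟨w, w1, w2, rfl, ?_⟩
    have d : HasFDerivAt (H l) _ q :=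
      HasFDerivAt.comp q (sΦ.differentiable (by simp) _).hasFDerivAt
        ((hasFDerivAt_id q).prodMk (ww_der ℓ hN1 (Real.smoothTransition l) q))
    have e : ap (dd c (H l) q) v = AA c Φ (q, ww ℓ N (Real.smoothTransition l) q) (v, w) := by
      rw [ap_dd, d.fderiv]
      rfl
    have b1 : ‖AA c Φ (q, ww ℓ N (Real.smoothTransition l) q) (v, w) - AA c Φ (q, 0) (v, w)‖ ≤
        η / 2 * ‖v‖ := by
      rw [← sub_apply]
      calc _ ≤ _ := ContinuousLinearMap.le_opNorm _ _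
        _ ≤ η / (2 * L) * (L * ‖v‖) := by
            gcongr
            exacts [ml1 q _ (hwρ l q), hvw v w w1 w2]
        _ = _ := by field_simp
    have b2 := hA1 q v w w1 w2
    rw [e]
    have := norm_add_le
      (AA c Φ (q, ww ℓ N (Real.smoothTransition l) q) (v, w) - AA c Φ (q, 0) (v, w))
      (AA c Φ (q, 0) (v, w) - (ap (dd c f q) v + w.1 • ν q • n₁ q + w.2 • ν q • n₂ q))
    rw [sub_add_sub_cancel] at this
    linarith
  have emb : ∀ l, IsEmb c (H l) := fun l => by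
    refine ⟨sH.comp (contDiff_const.prodMk contDiff_id), fun q k => ?_, fun q q' h => ?_,
      fun q a b h => ?_⟩
    · simp only [hH, ww_per hℓ N _ q k, pΦ]
    · obtain ⟨w1, w2⟩ := ww_sub ℓ hN1 (st0 l) (st1 l) q q'
      have b1 := ml2 q q' _ _ (hwρ l q) (hwρ l q') h
      have b2 := hA1 q _ _ w1 w2
      have b3 := hm' q _ _ _ w1 w2
      have b4 := hvw _ _ w1 w2
      generalize ww ℓ N (Real.smoothTransition l) q' - ww ℓ N (Real.smoothTransition l) q = w at *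
      have b5 : η / (2 * L) * ‖(q' - q, w)‖ ≤ η / 2 * ‖q' - q‖ := by
        calc _ ≤ η / (2 * L) * (L * ‖q' - q‖) := by gcongr
          _ = _ := by field_simp
      have b6 := norm_sub_le (AA c Φ (q, 0) (q' - q, w)) (AA c Φ (q, 0) (q' - q, w) -
        (ap (dd c f q) (q' - q) + w.1 • ν q • n₁ q + w.2 • ν q • n₂ q))
      rw [sub_sub_cancel] at b6
      have b7 : ‖q' - q‖ ≤ 0 := by nlinarith [norm_nonneg (q' - q)]
      exact (sub_eq_zero.1 (norm_le_zero_iff.1 b7)).symm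
    · obtain ⟨w, w1, w2, -, b1⟩ := key l q (a, b)
      have b2 := hm' q _ _ _ w1 w2
      have e : ap (dd c (H l) q) (a, b) = 0 := h
      rw [e, zero_sub, norm_neg] at b1
      have b7 : ‖((a, b) : Q)‖ ≤ 0 := by nlinarith [norm_nonneg ((a, b) : Q)]
      simpa using norm_le_zero_iff.1 b7
  refine ⟨H 1, ⟨H, sH, emb, funext fun q => ?_, rfl⟩, fun l q h => ?_, fun l q => ?_,
    fun l q => ?_⟩
  · have : ww ℓ N (Real.smoothTransition 0) q = 0 := by simp [ww]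
    simp only [hH, this, Φ0]
  · simp [hH, hΦ, hN₁, hN₂, h]
  · have hw := ww_norm ℓ hN1 (st0 l) (st1 l) q
    show ‖Φ (q, ww ℓ N (Real.smoothTransition l) q) - f q‖ ≤ ε
    generalize ww ℓ N (Real.smoothTransition l) q = w at hw
    have e : Φ (q, w) - f q = w.1 • N₁ q + w.2 • N₂ q := by simp only [hΦ]; abel
    have b1 : ‖w.1 • N₁ q‖ ≤ 1 / N * B₁ := by
      rw [norm_smul]
      exact mul_le_mul ((norm_fst_le w).trans hw) (hB₁ q) (norm_nonneg _) (by positivity)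
    have b2 : ‖w.2 • N₂ q‖ ≤ 1 / N * B₂ := by
      rw [norm_smul]
      exact mul_le_mul ((norm_snd_le w).trans hw) (hB₂ q) (norm_nonneg _) (by positivity)
    have b3 : 1 / N * B₁ + 1 / N * B₂ ≤ ε := by
      rw [div_lt_iff₀ hε] at hN'
      rw [← mul_add, one_div_mul_eq_div, div_le_iff₀ hN0]
      linarith
    rw [e]
    linarith [norm_add_le (w.1 • N₁ q) (w.2 • N₂ q)]
  · refine ⟨2 * Real.pi * N * ℓ q, Real.smoothTransition l, st0 l, st1 l,
      fun h => by rw [h, Real.smoothTransition.one], fun v => ?_⟩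
    obtain ⟨w, -, -, hw, b1⟩ := key l q v
    have e : ap (dd c f q) v + (ℓ v * (Real.smoothTransition l * ν q)) •
        ((-(Real.cos (2 * (2 * Real.pi * N * ℓ q))) / 2) • n₁ q +
          Real.cos (2 * Real.pi * N * ℓ q) • n₂ q) =
        ap (dd c f q) v + w.1 • ν q • n₁ q + w.2 • ν q • n₂ q := by
      rw [hw]
      simp only [smul_add, smul_smul, add_assoc]
      congr 3 <;> ring
    show ‖ap (dd c (H l) q) v - _‖ ≤ _
    rw [e]
    exact b1.trans (by gcongr)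

end Pool.Agent.Lib.MP_72f1d0_gt
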