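import Pool.Agent.Lib.MP_72f1d0_gt.Stmt

/-!
Definitions for the statement on closed surfaces transverse to an arbitrary Engel structure.
The surface is the quotient of the plane by the group of the maps
`(s, t) ↦ (κ ^ n * s + m, t + n)`: the torus for `κ = 1`, the Klein bottle for `κ = -1`.
Tangent vectors of `M` are elements of the model space `E`, as in Mathlib.
-/

open scoped Manifold ContDiff unitInterval

namespace Pool.Agent.Lib.MP_72f1d0_gt.Stmt

/-- The deck transformations of the plane. -/
noncomputable def deck (κ : ℝ) (m n : ℤ) (q : Plane) : Plane := (κ ^ n * q.1 + m, q.2 + n)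

variable (E : Type*) [NormedAddCommGroup E] [NormedSpace ℝ E]
  {M : Type*} [TopologicalSpace M] [ChartedSpace E M]

/-- Fields of linear subspaces of the tangent spaces. -/
abbrev Distr (M : Type*) [TopologicalSpace M] [ChartedSpace E M] : Type _ :=
  Π p : M, Submodule ℝ (TangentSpace 𝓘(ℝ, E) p)

/-- `f` is the lift to the plane of a smooth embedding of the surface: a smooth immersion
whose fibres are exactly the orbits of the deck group. -/
def SurfEmbedding (κ : ℝ) (f : Plane → M) : Prop :=
  ContMDiff 𝓘(ℝ, Plane) 𝓘(ℝ, E) ∞ f ∧ (∀ q q', f q = f q' ↔ ∃ m n, q' = deck κ m n q) ∧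
  ∀ q, Function.Injective (diff E f q)

variable {E}

/-- The Lie bracket of vector fields. -/
noncomputable def lie (V W : VField E M) : VField E M := VectorField.mlieBracket 𝓘(ℝ, E) V W

/-- `V` is smooth on `U`. -/
def SmoothOn [IsManifold 𝓘(ℝ, E) 1 M] (U : Set M) (V : VField E M) : Prop :=
  ContMDiffOn 𝓘(ℝ, E) 𝓘(ℝ, E).tangent ∞ (fun p => (⟨p, V p⟩ : TangentBundle 𝓘(ℝ, E) M)) U

/-- At `q`, the plane `D` has the basis `A, B`, the space `[D,D]` spanned by `A, B, [A,B]` has
rank three, and its brackets span the tangent space. -/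
def EngelAt (D : Distr E M) (A B : VField E M) (q : M) : Prop :=
  D q = Submodule.span ℝ {A q, B q} ∧ LinearIndependent ℝ ![A q, B q, lie A B q] ∧
  Submodule.span ℝ {A q, B q, lie A B q, lie A (lie A B) q, lie B (lie A B) q} = ⊤

/-- `D` is an Engel structure: a plane field with smooth local frames satisfying `EngelAt`. -/
def IsEngel [IsManifold 𝓘(ℝ, E) 1 M] (D : Distr E M) : Prop :=
  ∀ p, ∃ (U : Set M) (A B : VField E M), IsOpen U ∧ p ∈ U ∧ SmoothOn U A ∧ SmoothOn U B ∧
    ∀ q ∈ U, EngelAt D A B q

/-- The vector `A q v`, tangent to `M` at `f q`, as a point of the tangent bundle. -/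
def toTM (f : Plane → M) (A : Plane → Plane →L[ℝ] E) (q v : Plane) : TangentBundle 𝓘(ℝ, E) M :=
  ⟨f q, A q v⟩

/-- The image of `A`, a subspace of the tangent space at `p`, is complementary to `D p`. -/
def TransverseTo (D : Distr E M) (p : M) (A : Plane →L[ℝ] E) : Prop :=
  IsCompl (Submodule.span ℝ (Set.range fun v => (A v : TangentSpace 𝓘(ℝ, E) p))) (D p)

/-- `(f, F)` is a formal transverse embedding: `F s` is a continuous family of fibrewise
injective bundle maps `TΣ → f^* TM` (lifted to the plane, hence invariant under the deck group),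
`F 0 = df`, and the image of `F 1` is complementary to `D`. -/
def Formal [IsManifold 𝓘(ℝ, E) 1 M] (κ : ℝ) (D : Distr E M) (f : Plane → M)
    (F : I → Plane → Plane →L[ℝ] E) : Prop :=
  SurfEmbedding E κ f ∧
  (Continuous fun x : I × Plane × Plane => toTM f (F x.1) x.2.1 x.2.2) ∧
  (∀ s q m n (v : Plane), F s (deck κ m n q) (κ ^ n * v.1, v.2) = F s q v) ∧
  (∀ s q, Function.Injective (F s q)) ∧ (∀ q v, F 0 q v = diff E f q v) ∧
  ∀ q, TransverseTo D (f q) (F 1 q)

end Pool.Agent.Lib.MP_72f1d0_gt.Stmt
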