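import Mathlib
import Pool.Agent.Lib.MP_72f1d0_gt.Defs3
import Pool.Agent.Lib.MP_72f1d0_gt.Stmt2

/-! Statements of the manifold layer of the equivariant version. -/

open scoped ContDiff Manifold Topology

namespace Pool.Agent.Lib.MP_72f1d0_gt

/-! ### The manifold side -/

/-- Frames along a path of injective pairs, naturally under sign changes. -/
def Frames2Stmt : Prop :=
  ∀ K : ℝ × Q → G × G, Continuous K → (∀ s, Per fun q => K (s, q)) →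
  (∀ s q, 0 ≤ s → s ≤ 1 → Inj (K (s, q))) →
  ∃ C : ℝ × Q → (G →L[ℝ] G), Continuous C ∧ (∀ s, Per fun q => C (s, q)) ∧
    (∀ x v, C x v = 0 → v = 0) ∧ (∀ q v, C (1, q) v = v) ∧
    (∀ s q, 0 ≤ s → s ≤ 1 → C (s, q) (K (1, q)).1 = (K (s, q)).1 ∧
      C (s, q) (K (1, q)).2 = (K (s, q)).2) ∧
    ∀ (k w x : ℝ) (q q' : Q), k = 1 ∨ k = -1 → w = 1 ∨ w = -1 → x = 1 ∨ x = -1 →
      (∀ s, K (s, q') = rho k w x (K (s, q))) → ∀ s v, C (s, q') (EE w x v) = EE w x (C (s, q) v)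

section

variable {M : Type*} [TopologicalSpace M] [ChartedSpace V4 M] [IsManifold (𝓡 4) ∞ M]

/-- `(W, X)` is an Engel frame of `D` on `V` with `W` characteristic, equal up to signs to the
reference fields `W₀, X₀`. -/
def LocFr (D : Stmt.Distr V4 M) (W₀ X₀ : Stmt.VField V4 M) (V : Set M)
    (W X : Stmt.VField V4 M) : Prop :=
  IsOpen V ∧ SmoothField W ∧ SmoothField X ∧ ∀ q ∈ V, (W q = W₀ q ∨ W q = -W₀ q) ∧
    (X q = X₀ q ∨ X q = -X₀ q) ∧ D q = Submodule.span ℝ {W q, X q} ∧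
    LinearIndependent ℝ (frame W X q) ∧
    Stmt.lie W (Stmt.lie W X) q ∈ Submodule.span ℝ {W q, X q, Stmt.lie W X q}

/-- `fr` is locally one of the frames, read along `φ`. -/
def IsLift {Y : Type} [TopologicalSpace Y] (D : Stmt.Distr V4 M) (W₀ X₀ : Stmt.VField V4 M)
    (φ : Y → M) (fr : Y → Fin 4 → V4) : Prop :=
  ∀ y, ∃ V W X, LocFr D W₀ X₀ V W X ∧ φ y ∈ V ∧
    ∀ᶠ y' in 𝓝 y, ∀ j, fr y' j = frame W X (φ y') j

end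

def AtlasStmt.{u} : Prop :=
  ∀ (M : Type u) [TopologicalSpace M] [T2Space M] [ChartedSpace V4 M] [IsManifold (𝓡 4) ∞ M]
    (D : Stmt.Distr V4 M), Stmt.IsEngel D → ∀ C : Set M, IsCompact C →
    ∃ (O : Set M) (W₀ X₀ : Stmt.VField V4 M), IsOpen O ∧ C ⊆ O ∧
      ∀ p ∈ O, ∃ V W X, LocFr D W₀ X₀ V W X ∧ p ∈ V

def LiftStmt.{u} : Prop :=
  ∀ (M : Type u) [TopologicalSpace M] [T2Space M] [ChartedSpace V4 M] [IsManifold (𝓡 4) ∞ M]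
    (D : Stmt.Distr V4 M) (W₀ X₀ : Stmt.VField V4 M)
    (Y : Type) [NormedAddCommGroup Y] [NormedSpace ℝ Y] (φ : Y → M), Continuous φ →
    (∀ y, ∃ V W X, LocFr D W₀ X₀ V W X ∧ φ y ∈ V) →
    (∃ fr, IsLift D W₀ X₀ φ fr) ∧ ∀ fr fr', IsLift D W₀ X₀ φ fr → IsLift D W₀ X₀ φ fr' →
      ∃ w x : ℝ, (w = 1 ∨ w = -1) ∧ (x = 1 ∨ x = -1) ∧ ∀ y, fr' y 0 = w • fr y 0 ∧
        fr' y 1 = x • fr y 1 ∧ fr' y 2 = (w * x) • fr y 2 ∧ fr' y 3 = w • fr y 3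

/-- Continuity in the tangent bundle and continuity of frame coefficients. -/
def CoordStmt.{u} : Prop :=
  ∀ (M : Type u) [TopologicalSpace M] [ChartedSpace V4 M] [IsManifold (𝓡 4) ∞ M]
    (D : Stmt.Distr V4 M) (W₀ X₀ : Stmt.VField V4 M) (Y : Type) [TopologicalSpace Y]
    (φ : Y → M) (fr : Y → Fin 4 → V4), Continuous φ → IsLift D W₀ X₀ φ fr →
    ∀ (Y' : Type) [TopologicalSpace Y'] (π : Y' → Y) (a : Y' → Fin 4 → ℝ), Continuous π →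
    (Continuous a ↔ Continuous fun y =>
      (Bundle.TotalSpace.mk' V4 (φ (π y)) (∑ j, a y j • fr (π y) j) : TangentBundle (𝓡 4) M))

/-- Equivariant tubular neighbourhood. -/
def Tube2Stmt.{u} : Prop :=
  ∀ (M : Type u) [TopologicalSpace M] [T2Space M] [ChartedSpace V4 M] [IsManifold (𝓡 4) ∞ M]
    (κ wS xS wT xT : ℝ), κ = 1 ∨ κ = -1 → wS = 1 ∨ wS = -1 → xS = 1 ∨ xS = -1 →
    wT = 1 ∨ wT = -1 → xT = 1 ∨ xT = -1 → ∀ f : Q → M, ContMDiff 𝓘(ℝ, Q) (𝓡 4) ∞ f →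
    (∀ q q', f q = f q' ↔ ∃ m n : ℤ, q' = aff (κ ^ n) (m / 2, n / 2) q) →
    ∀ n₁ n₂ : Q → V4,
    ContMDiff 𝓘(ℝ, Q) (𝓡 4).tangent ∞
      (fun q => (Bundle.TotalSpace.mk' V4 (f q) (n₁ q) : TangentBundle (𝓡 4) M)) →
    ContMDiff 𝓘(ℝ, Q) (𝓡 4).tangent ∞
      (fun q => (Bundle.TotalSpace.mk' V4 (f q) (n₂ q) : TangentBundle (𝓡 4) M)) →
    (∀ q, n₁ (aff 1 (1 / 2, 0) q) = xS • n₁ q ∧ n₂ (aff 1 (1 / 2, 0) q) = wS • n₂ q ∧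
      n₁ (aff κ (0, 1 / 2) q) = xT • n₁ q ∧ n₂ (aff κ (0, 1 / 2) q) = wT • n₂ q) →
    (∀ (q v : Q) (a b : ℝ),
      (show V4 from mfderiv 𝓘(ℝ, Q) (𝓡 4) f q v) + a • n₁ q + b • n₂ q = 0 →
        v = 0 ∧ a = 0 ∧ b = 0) →
    ∀ O : Set M, IsOpen O → (∀ q, f q ∈ O) →
    ∃ Θ : G → M, ContMDiff 𝓘(ℝ, G) (𝓡 4) ∞ Θ ∧
      (∀ p, (mfderiv 𝓘(ℝ, G) (𝓡 4) Θ p).IsInvertible) ∧
      (∀ p p', Θ p = Θ p' ↔ ∃ m n : ℤ,
        p' = LL (κ ^ n) (xS ^ m * xT ^ n) (wS ^ m * wT ^ n) p + i0 (m / 2, n / 2)) ∧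
      (∀ q, Θ (i0 q) = f q) ∧ ∀ p, Θ p ∈ O

open Stmt in
def Main2Stmt.{u} : Prop :=
  ∀ (M : Type u) [TopologicalSpace M] [T2Space M] [ChartedSpace V4 M] [IsManifold (𝓡 4) ∞ M]
    (κ : ℝ), κ = 1 ∨ κ = -1 → ∀ D : Distr V4 M, IsEngel D →
    ∀ (f : Plane → M) (F : UI → Plane → Plane →L[ℝ] V4), Formal κ D f F →
    ∃ (H : ℝ → Plane → M) (K : UI → UI → Plane → Plane →L[ℝ] V4),
      SmoothFamily V4 H ∧
      (Continuous fun x : UI × UI × Plane × Plane =>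
        toTM (H x.1) (K x.1 x.2.1) x.2.2.1 x.2.2.2) ∧
      (∀ l : UI, Formal κ D (H l) (K l)) ∧ H 0 = f ∧ K 0 = F ∧
      ∀ s q v, K 1 s q v = diff V4 (H 1) q v

end Pool.Agent.Lib.MP_72f1d0_gt
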