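import Pool.Agent.Lib.MP_72f1d0_gt.Defs

/-!
Normal form of the formal end point: every continuous periodic family of transverse pairs is,
after a lattice change of basis, homotopic through transverse pairs to a normal form `Nb r η`.
-/

namespace Pool.Agent.Lib.MP_72f1d0_gt

namespace Norm

/-- Homotopy through periodic families with `dl ≠ 0`. -/
def Hom (P P' : Q → G × G) : Prop :=
  ∃ Λ : ℝ × Q → G × G, Continuous Λ ∧ (∀ u, Per fun q => Λ (u, q)) ∧
    (∀ x, dl (Λ x) ≠ 0) ∧ (∀ q, Λ (0, q) = P q) ∧ ∀ q, Λ (1, q) = P' q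

theorem hom_of {P P' : Q → G × G} (Λ : ℝ × Q → G × G) (hc : Continuous Λ)
    (hp : ∀ u, Per fun q => Λ (u, q)) (hd : ∀ u q, 0 ≤ u → u ≤ 1 → dl (Λ (u, q)) ≠ 0)
    (h0 : ∀ q, Λ (0, q) = P q) (h1 : ∀ q, Λ (1, q) = P' q) : Hom P P' := by
  refine ⟨fun x => Λ (max 0 (min 1 x.1), x.2), hc.comp (by fun_prop),
    fun u => hp (max 0 (min 1 u)), ?_, ?_, ?_⟩
  · intro x
    exact hd _ _ (le_max_left _ _) (max_le zero_le_one (min_le_left _ _))
  · intro q
    simpa using h0 q
  · intro q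
    simpa using h1 q

theorem Hom.symm {P P' : Q → G × G} (h : Hom P P') : Hom P' P := by
  obtain ⟨Λ, hc, hp, hd, h0, h1⟩ := h
  refine ⟨fun x => Λ (1 - x.1, x.2), hc.comp (by fun_prop), fun u => hp (1 - u),
    fun x => hd _, ?_, ?_⟩
  · intro q
    simpa using h1 q
  · intro q
    simpa using h0 q

theorem Hom.trans {P P' P'' : Q → G × G} (h : Hom P P') (h' : Hom P' P'') : Hom P P'' := by
  obtain ⟨Λ, hc, hp, hd, h0, h1⟩ := h
  obtain ⟨Λ', hc', hp', hd', h0', h1'⟩ := h'
  refine ⟨fun x => Λ (min (2 * x.1) 1, x.2) + Λ' (max (2 * x.1 - 1) 0, x.2) - Λ (1, x.2),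
    ?_, ?_, ?_, ?_, ?_⟩
  · exact ((hc.comp (by fun_prop)).add (hc'.comp (by fun_prop))).sub (hc.comp (by fun_prop))
  · intro u q m
    have a1 := hp (min (2 * u) 1) q m
    have a2 := hp' (max (2 * u - 1) 0) q m
    have a3 := hp 1 q m
    simp only at a1 a2 a3 ⊢
    rw [a1, a2, a3]
  · intro x
    rcases le_total (2 * x.1) 1 with h | h
    · have e2 : max (2 * x.1 - 1) 0 = 0 := max_eq_right (by linarith)
      simp only [e2, h0', h1, add_sub_cancel_right]
      exact hd _
    · have e1 : min (2 * x.1) 1 = 1 := min_eq_right h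
      simp only [e1, add_sub_cancel_left]
      exact hd' _
  · intro q
    have e1 : min (2 * (0 : ℝ)) 1 = 0 := by norm_num
    have e2 : max (2 * (0 : ℝ) - 1) 0 = 0 := by norm_num
    simp only [e1, e2, h0, h0', h1, add_sub_cancel_right]
  · intro q
    have e1 : min (2 * (1 : ℝ)) 1 = 1 := by norm_num
    have e2 : max (2 * (1 : ℝ) - 1) 0 = 1 := by norm_num
    simp only [e1, e2, h1', add_sub_cancel_left]

/-- The conformal pair with second components `(i b, b)`. -/
noncomputable def Cf (b : ℂ) : G × G := ((0, Complex.I * b), (0, b))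

theorem dl_Cf (b : ℂ) : dl (Cf b) = Complex.normSq b := by
  simp [dl, Cf, Complex.normSq_apply]

theorem snd_ne_of_dl {P : G × G} (h : dl P ≠ 0) : P.2.2 ≠ 0 := by
  intro h0
  apply h
  simp [dl, h0]

theorem continuous_Cf : Continuous Cf := by
  unfold Cf
  fun_prop

theorem hom_Cf {P : Q → G × G} (hc : Continuous P) (hp : Per P) (hd : ∀ q, 0 < dl (P q)) :
    Hom P fun q => Cf (P q).2.2 := by
  refine hom_of (fun x => (1 - x.1) • P x.2 + x.1 • Cf (P x.2).2.2) ?_ ?_ ?_ ?_ ?_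
  · have h1 : Continuous fun x : ℝ × Q => P x.2 := hc.comp continuous_snd
    have h2 : Continuous fun x : ℝ × Q => Cf (P x.2).2.2 :=
      continuous_Cf.comp (continuous_snd.comp (continuous_snd.comp h1))
    exact ((continuous_const.sub continuous_fst).smul h1).add (continuous_fst.smul h2)
  · intro u q m
    simp only [hp q m]
  · intro u q hu0 hu1
    have e : dl ((1 - u) • P q + u • Cf (P q).2.2) =
        (1 - u) * dl (P q) + u * Complex.normSq (P q).2.2 := by
      simp [dl, Cf, Complex.normSq_apply]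
      ring
    have h1 := hd q
    have h2 : 0 < Complex.normSq (P q).2.2 := Complex.normSq_pos.2 (snd_ne_of_dl h1.ne')
    have h3 : 0 < (1 - u) * dl (P q) + u * Complex.normSq (P q).2.2 := by
      rcases hu0.eq_or_lt with h | h
      · subst h
        simpa using h1
      · have := mul_nonneg (sub_nonneg.2 hu1) h1.le
        have := mul_pos h h2
        linarith
    simp only
    rw [e]
    exact h3.ne'
  · intro q
    simp
  · intro q
    simp

theorem hom_conf {b b' : Q → ℂ} (β : ℝ × Q → ℂ) (hc : Continuous β)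
    (hp : ∀ u, Per fun q => β (u, q)) (hd : ∀ u q, 0 ≤ u → u ≤ 1 → β (u, q) ≠ 0)
    (h0 : ∀ q, β (0, q) = b q) (h1 : ∀ q, β (1, q) = b' q) :
    Hom (fun q => Cf (b q)) fun q => Cf (b' q) := by
  refine hom_of (fun x => Cf (β x)) (continuous_Cf.comp hc) ?_ ?_ ?_ ?_
  · intro u q m
    have := hp u q m
    simp only at this ⊢
    rw [this]
  · intro u q hu0 hu1
    rw [dl_Cf]
    exact (Complex.normSq_pos.2 (hd u q hu0 hu1)).ne'
  · intro q
    simp only [h0]
  · intro q
    simp only [h1]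

/-! ### Change of basis -/

/-- The determinant of a linear map of the plane. -/
def det (A : Q →L[ℝ] Q) : ℝ := (A (1, 0)).1 * (A (0, 1)).2 - (A (0, 1)).1 * (A (1, 0)).2

theorem dl_act (A : Q →L[ℝ] Q) (P : G × G) : dl (act A P) = det A * dl P := by
  simp [dl, act, ap, det]
  ring

theorem continuous_act (A : Q →L[ℝ] Q) : Continuous (act A) := by
  unfold act ap
  fun_prop

theorem ap_act (A : Q →L[ℝ] Q) (P : G × G) (v : Q) : ap (act A P) v = ap P (A v) := by
  have hv : A v = v.1 • A (1, 0) + v.2 • A (0, 1) := by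
    rw [← map_smul, ← map_smul, ← map_add]
    congr 1
    ext <;> simp
  rw [hv]
  simp only [ap, act, Prod.fst_add, Prod.snd_add, Prod.smul_fst, Prod.smul_snd, smul_eq_mul]
  module

theorem act_act (A B : Q →L[ℝ] Q) (P : G × G) : act B (act A P) = act (A.comp B) P := by
  simp only [act.eq_1 B, ap_act]
  rfl

theorem per_comp {Y : Type*} {g : Q → Y} (hg : Per g) (A : Q →L[ℝ] Q)
    (hA : ∀ m, ∃ m', A (lat m) = lat m') : Per fun q => g (A q) := by
  intro q m
  obtain ⟨m', hm⟩ := hA m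
  simp only [map_add, hm]
  exact hg _ _

theorem Hom.act {P P' : Q → G × G} (h : Hom P P') (A : Q →L[ℝ] Q)
    (hA : ∀ m, ∃ m', A (lat m) = lat m') (hdet : det A ≠ 0) :
    Hom (fun q => act A (P (A q))) fun q => act A (P' (A q)) := by
  obtain ⟨Λ, hc, hp, hd, h0, h1⟩ := h
  refine ⟨fun x => MP_72f1d0_gt.act A (Λ (x.1, A x.2)),
    (continuous_act A).comp (hc.comp (by fun_prop)), ?_, ?_, ?_, ?_⟩
  · intro u q m
    have := per_comp (hp u) A hA q m
    simp only at this ⊢
    rw [this]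
  · intro x
    rw [dl_act]
    exact mul_ne_zero hdet (hd _)
  · intro q
    simp only [h0]
  · intro q
    simp only [h1]

/-- The linear map with matrix `((a, b), (c, d))`. -/
noncomputable def mat (a b c d : ℝ) : Q →L[ℝ] Q :=
  (a • ContinuousLinearMap.fst ℝ ℝ ℝ + b • ContinuousLinearMap.snd ℝ ℝ ℝ).prod
    (c • ContinuousLinearMap.fst ℝ ℝ ℝ + d • ContinuousLinearMap.snd ℝ ℝ ℝ)

theorem mat_apply (a b c d : ℝ) (v : Q) :
    mat a b c d v = (a * v.1 + b * v.2, c * v.1 + d * v.2) := by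
  simp [mat]

theorem mat_lat (a b c d : ℤ) (m : ℤ × ℤ) :
    mat a b c d (lat m) = lat (a * m.1 + b * m.2, c * m.1 + d * m.2) := by
  simp [mat_apply, lat]

/-- An element of `SL₂` as a linear equivalence. -/
noncomputable def sl (a b c d : ℝ) (h : a * d - b * c = 1) : Q ≃L[ℝ] Q :=
  ContinuousLinearEquiv.equivOfInverse (mat a b c d) (mat d (-b) (-c) a)
    (fun v => by
      simp only [mat_apply]
      ext
      · simp only
        linear_combination v.1 * h
      · simp only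
        linear_combination v.2 * h)
    (fun v => by
      simp only [mat_apply]
      ext
      · simp only
        linear_combination v.1 * h
      · simp only
        linear_combination v.2 * h)

theorem bezout (k₁ k₂ : ℤ) : ∃ (k : ℕ) (x y a b : ℤ), x * a + y * b = 1 ∧
    k₁ * x + k₂ * y = k ∧ k₂ * a = k₁ * b := by
  rcases Nat.eq_zero_or_pos (Int.gcd k₁ k₂) with h | h
  · rw [Int.gcd_eq_zero_iff] at h
    exact ⟨0, 1, 0, 1, 0, by simp, by simp [h.1], by simp [h.2]⟩
  · obtain ⟨a, b, hab, ha, hb⟩ := Int.exists_gcd_one h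
    obtain ⟨x, y, hxy⟩ := Int.isCoprime_iff_gcd_eq_one.2 hab
    refine ⟨Int.gcd k₁ k₂, x, y, a, b, hxy, ?_, ?_⟩
    · generalize ((Int.gcd k₁ k₂ : ℕ) : ℤ) = g at ha hb
      rw [ha, hb]
      linear_combination g * hxy
    · generalize ((Int.gcd k₁ k₂ : ℕ) : ℤ) = g at ha hb
      rw [ha, hb]
      ring

/-! ### Logarithms and winding numbers -/

theorem exists_log {b : Q → ℂ} (hc : Continuous b) (hp : Per b) (hb : ∀ q, b q ≠ 0) :
    ∃ (L : Q → ℂ) (k₁ k₂ : ℤ), Continuous L ∧ (∀ q, Complex.exp (L q) = b q) ∧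
      ∀ q m, L (q + lat m) = L q + ((k₁ * m.1 + k₂ * m.2 : ℤ) : ℂ) * (2 * Real.pi * Complex.I) := by
  let f : C(Q, {z : ℂ // z ≠ 0}) := ⟨fun q => ⟨b q, hb q⟩, hc.subtype_mk _⟩
  obtain ⟨F, ⟨-, hF⟩, -⟩ := Complex.isCoveringMap_exp.existsUnique_continuousMap_lifts f 0
    (Complex.log (b 0)) (Subtype.ext (Complex.exp_log (hb 0)))
  have hexp : ∀ q, Complex.exp (F q) = b q := fun q => congrArg Subtype.val (congrFun hF q)
  have hone : ∀ q m, Complex.exp (F (q + lat m) - F q) = 1 := by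
    intro q m
    rw [Complex.exp_sub, hexp, hexp, hp, div_self (hb q)]
  have hconst : ∀ m q, F (q + lat m) - F q = F (0 + lat m) - F 0 := by
    intro m q
    refine Complex.isCoveringMap_exp.const_of_comp (g := fun q => F (q + lat m) - F q)
      (by fun_prop) (fun a a' => Subtype.ext ?_) q 0
    simp only [hone]
  have hadd : ∀ m m' : ℤ × ℤ, lat (m + m') = lat m + lat m' := by
    intro m m'
    simp [lat]
  let c : ℤ × ℤ →+ ℂ := AddMonoidHom.mk' (fun m => F (0 + lat m) - F 0) (by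
    intro m m'
    have := hconst m' (0 + lat m)
    rw [hadd, ← add_assoc]
    linear_combination this)
  have hc' : ∀ m, c m = F (0 + lat m) - F 0 := fun m => rfl
  obtain ⟨k₁, hk₁⟩ := Complex.exp_eq_one_iff.1 (hone 0 (1, 0))
  obtain ⟨k₂, hk₂⟩ := Complex.exp_eq_one_iff.1 (hone 0 (0, 1))
  refine ⟨F, k₁, k₂, F.continuous, hexp, fun q m => ?_⟩
  have hm : m = m.1 • ((1, 0) : ℤ × ℤ) + m.2 • ((0, 1) : ℤ × ℤ) := by
    ext <;> simp
  have h1 : c m = m.1 • c (1, 0) + m.2 • c (0, 1) := by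
    rw [← map_zsmul, ← map_zsmul, ← map_add, ← hm]
  rw [hc', hc', hc', hk₁, hk₂, ← hconst m q] at h1
  simp only [zsmul_eq_mul] at h1
  push_cast
  linear_combination h1

/-! ### The normal forms -/

theorem cc_add (r : ℕ) (s : ℝ) (m : ℤ) : cc r (s + m) = cc r s := by
  unfold cc
  have : 2 * Real.pi * r * (s + m) = 2 * Real.pi * r * s + ((r * m : ℤ) : ℝ) * (2 * Real.pi) := by
    push_cast
    ring
  rw [this, Real.cos_add_int_mul_two_pi]

theorem ss_add (r : ℕ) (s : ℝ) (m : ℤ) : ss r (s + m) = ss r s := by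
  unfold ss
  have : 2 * Real.pi * r * (s + m) = 2 * Real.pi * r * s + ((r * m : ℤ) : ℝ) * (2 * Real.pi) := by
    push_cast
    ring
  rw [this, Real.sin_add_int_mul_two_pi]

theorem yy_add (r : ℕ) (s : ℝ) (m : ℤ) : yy r (s + m) = yy r s := by
  unfold yy
  rw [cc_add]

theorem continuous_cc (r : ℕ) : Continuous (cc r) := by
  unfold cc
  fun_prop

theorem continuous_ss (r : ℕ) : Continuous (ss r) := by
  unfold ss
  fun_prop

theorem continuous_yy (r : ℕ) : Continuous (yy r) := by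
  have := continuous_cc r
  exact Real.smoothTransition.continuous.comp (by fun_prop)

theorem continuous_mk {X : Type*} [TopologicalSpace X] {f g : X → ℝ} (hf : Continuous f)
    (hg : Continuous g) : Continuous fun x => (⟨f x, g x⟩ : ℂ) := by
  have : (fun x => (⟨f x, g x⟩ : ℂ)) = fun x => (f x : ℂ) + (g x : ℂ) * Complex.I := by
    funext x
    exact Complex.mk_eq_add_mul_I _ _
  rw [this]
  fun_prop

theorem bb_ne (r : ℕ) (η : ℝ → ℝ) (s : ℝ) (h : η s = 0 → yy r s = 0 ∨ yy r s = 1) :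
    bb r η s ≠ 0 := by
  intro h0
  have h1 : 1 - 2 * yy r s = 0 := congrArg Complex.re h0
  have h2 : η s * (yy r s * (1 - yy r s)) = 0 := congrArg Complex.im h0
  have h3 : yy r s = 1 / 2 := by linarith
  rw [h3] at h2 h
  have h4 : η s = 0 := by linarith
  rcases h h4 with h | h <;> norm_num at h

theorem hom_Nb (r : ℕ) {η : ℝ → ℝ} (hc : Continuous η) (hp : ∀ s (m : ℤ), η (s + m) = η s)
    (hb : ∀ s, bb r η s ≠ 0) : Hom (fun q => Cf (bb r η q.1)) (Nb r η) := by
  have hy := continuous_yy r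
  have hbc : Continuous (bb r η) := continuous_mk (by fun_prop) (by fun_prop)
  refine (hom_Cf (P := Nb r η) ?_ ?_ ?_).symm
  · unfold Nb
    fun_prop
  · intro q m
    simp only [Nb, bb, lat, Prod.fst_add, yy_add, hp]
  · intro q
    have : dl (Nb r η q) = Complex.normSq (bb r η q.1) := by
      simp [dl, Nb, Complex.normSq_apply]
    rw [this]
    exact Complex.normSq_pos.2 (hb _)

theorem yy_of_ss (r : ℕ) (s : ℝ) (h : ss r s = 0) :
    (cc r s = 1 ∧ yy r s = 0) ∨ (cc r s = -1 ∧ yy r s = 1) := by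
  have h1 : ss r s ^ 2 + cc r s ^ 2 = 1 := Real.sin_sq_add_cos_sq _
  rw [h] at h1
  have h2 : (cc r s - 1) * (cc r s + 1) = 0 := by linear_combination h1
  rcases mul_eq_zero.1 h2 with h3 | h3
  · have h4 : cc r s = 1 := by linarith
    refine Or.inl ⟨h4, ?_⟩
    unfold yy
    rw [h4]
    exact Real.smoothTransition.zero_of_nonpos (by norm_num)
  · have h4 : cc r s = -1 := by linarith
    refine Or.inr ⟨h4, ?_⟩
    unfold yy
    rw [h4]
    exact Real.smoothTransition.one_of_one_le (by norm_num)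

theorem exp_eq (k : ℕ) (s : ℝ) :
    Complex.exp ((k * s : ℝ) * (2 * Real.pi * Complex.I)) = ⟨cc k s, ss k s⟩ := by
  have : ((k * s : ℝ) : ℂ) * (2 * Real.pi * Complex.I) =
      ((2 * Real.pi * k * s : ℝ) : ℂ) * Complex.I := by
    push_cast
    ring
  rw [this]
  apply Complex.ext
  · exact Complex.exp_ofReal_mul_I_re _
  · exact Complex.exp_ofReal_mul_I_im _

theorem normal (k : ℕ) : ∃ r : ℕ, 1 ≤ r ∧ ∃ sg : ℝ, (sg = 1 ∨ sg = -1) ∧
    ∃ η : ℝ → ℝ, Continuous η ∧ (∀ s, η (s + 1) = η s) ∧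
      (∀ s, 0 < ss r s → 0 < η s) ∧ (∀ s, ss r s < 0 → 0 < sg * η s) ∧
      Hom (fun q => Cf ⟨cc k q.1, ss k q.1⟩) (Nb r η) := by
  rcases Nat.eq_zero_or_pos k with rfl | hk
  · refine ⟨1, le_rfl, 1, Or.inl rfl, fun _ => 1, continuous_const, fun _ => rfl,
      fun _ _ => one_pos, fun _ _ => by norm_num, ?_⟩
    refine Hom.trans ?_ (hom_Nb 1 continuous_const (fun _ _ => rfl)
      fun s => bb_ne _ _ _ fun h => absurd h one_ne_zero)
    have hy := continuous_yy 1
    refine hom_conf (fun x => ⟨1 - 2 * (x.1 * yy 1 x.2.1), x.1 * yy 1 x.2.1 *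
      (1 - x.1 * yy 1 x.2.1)⟩) (continuous_mk (by fun_prop) (by fun_prop)) ?_ ?_ ?_ ?_
    · intro u q m
      simp only [lat, Prod.fst_add, yy_add]
    · intro u q _ _ h0
      have h1 : 1 - 2 * (u * yy 1 q.1) = 0 := congrArg Complex.re h0
      have h2 : u * yy 1 q.1 * (1 - u * yy 1 q.1) = 0 := congrArg Complex.im h0
      have h3 : u * yy 1 q.1 = 1 / 2 := by linarith
      rw [h3] at h2
      norm_num at h2
    · intro q
      simp [cc, ss]
    · intro q
      simp [bb]
  · refine ⟨k, hk, -1, Or.inr rfl, ss k, continuous_ss k, fun s => ?_,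
      fun _ h => h, fun _ h => by linarith, ?_⟩
    · simpa using ss_add k s 1
    refine Hom.trans ?_ (hom_Nb k (continuous_ss k) (ss_add k)
      fun s => bb_ne _ _ _ fun h => (yy_of_ss k s h).imp And.right And.right)
    have hy := continuous_yy k
    have hc := continuous_cc k
    have hs := continuous_ss k
    refine hom_conf (fun x => ⟨(1 - x.1) * cc k x.2.1 + x.1 * (1 - 2 * yy k x.2.1),
      ss k x.2.1 * ((1 - x.1) + x.1 * (yy k x.2.1 * (1 - yy k x.2.1)))⟩)
      (continuous_mk (by fun_prop) (by fun_prop)) ?_ ?_ ?_ ?_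
    · intro u q m
      simp only [lat, Prod.fst_add, yy_add, cc_add, ss_add]
    · intro u q hu0 hu1 h0
      have h1 : (1 - u) * cc k q.1 + u * (1 - 2 * yy k q.1) = 0 := congrArg Complex.re h0
      have h2 : ss k q.1 * ((1 - u) + u * (yy k q.1 * (1 - yy k q.1))) = 0 :=
        congrArg Complex.im h0
      rcases mul_eq_zero.1 h2 with h3 | h3
      · rcases yy_of_ss k _ h3 with ⟨h4, h5⟩ | ⟨h4, h5⟩
        · rw [h4, h5] at h1
          linarith
        · rw [h4, h5] at h1
          linarith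
      · have y0 : 0 ≤ yy k q.1 := Real.smoothTransition.nonneg _
        have y1 : yy k q.1 ≤ 1 := Real.smoothTransition.le_one _
        have h4 : 0 ≤ u * (yy k q.1 * (1 - yy k q.1)) :=
          mul_nonneg hu0 (mul_nonneg y0 (sub_nonneg.2 y1))
        have h5 : u = 1 := by linarith
        subst h5
        have h6 : yy k q.1 = 1 / 2 := by linarith
        rw [h6] at h3
        norm_num at h3
    · intro q
      simp
    · intro q
      simp [bb]

/-- The conclusion of the normal form statement. -/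
def Concl (N : Q → G × G) : Prop :=
  ∃ A : Q ≃L[ℝ] Q, (∀ m, ∃ m', A (lat m) = lat m') ∧ (∀ m, ∃ m', A.symm (lat m) = lat m') ∧
  ∃ r : ℕ, 1 ≤ r ∧ ∃ sg : ℝ, (sg = 1 ∨ sg = -1) ∧
  ∃ η : ℝ → ℝ, Continuous η ∧ (∀ s, η (s + 1) = η s) ∧
    (∀ s, 0 < ss r s → 0 < η s) ∧ (∀ s, ss r s < 0 → 0 < sg * η s) ∧
    Hom (fun q => act (A : Q →L[ℝ] Q) (N (A q))) (Nb r η)

theorem concl_pos {N : Q → G × G} (hc : Continuous N) (hp : Per N) (hd : ∀ q, 0 < dl (N q)) :
    Concl N := by
  have hbc : Continuous fun q => (N q).2.2 := by fun_prop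
  have hbp : Per fun q => (N q).2.2 := fun q m => by simp only [hp q m]
  have hb : ∀ q, (N q).2.2 ≠ 0 := fun q => snd_ne_of_dl (hd q).ne'
  obtain ⟨L, k₁, k₂, hL, hexp, hper⟩ := exists_log hbc hbp hb
  obtain ⟨k, x, y, a, b, hdet, hk, hk'⟩ := bezout k₁ k₂
  have hdet' : (x : ℝ) * a - ((-b : ℤ) : ℝ) * y = 1 := by
    have : ((x * a + y * b : ℤ) : ℝ) = 1 := by rw [hdet]; simp
    push_cast at this ⊢
    linarith
  set M : Q →L[ℝ] Q := mat x ((-b : ℤ) : ℝ) y a with hM
  have hMlat : ∀ m, ∃ m', M (lat m) = lat m' := fun m => ⟨_, mat_lat _ _ _ _ m⟩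
  have hMdet : det M = 1 := by
    simp only [det, hM, mat_apply]
    linear_combination hdet'
  obtain ⟨r, hr, sg, hsg, η, hη, hηp, h1, h2, hH⟩ := normal k
  refine ⟨sl x ((-b : ℤ) : ℝ) y a hdet', hMlat, fun m => ?_, r, hr, sg, hsg, η, hη, hηp, h1, h2, ?_⟩
  · have := mat_lat a b (-y) x m
    refine ⟨_, Eq.trans ?_ this⟩
    change mat a (-((-b : ℤ) : ℝ)) (-(y : ℝ)) x (lat m) = _
    simp
  change Hom (fun q => act M (N (M q))) (Nb r η)
  have s1 := (hom_Cf hc hp hd).act M hMlat (by rw [hMdet]; exact one_ne_zero)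
  have hpos : ∀ q, 0 < dl (act M (Cf (N (M q)).2.2)) := by
    intro q
    rw [dl_act, hMdet, one_mul, dl_Cf]
    exact Complex.normSq_pos.2 (hb _)
  have s2 := hom_Cf (P := fun q => act M (Cf (N (M q)).2.2))
    ((continuous_act M).comp (continuous_Cf.comp (hbc.comp M.continuous)))
    (per_comp (g := fun q => act M (Cf (N q).2.2)) (fun q m => by simp only [hp q m]) M hMlat) hpos
  refine s1.trans (s2.trans (Hom.trans ?_ hH))
  set w : ℂ := (a : ℂ) - (b : ℂ) * Complex.I with hw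
  have hsnd : ∀ z : ℂ, (act M (Cf z)).2.2 = w * z := by
    intro z
    simp [act, ap, Cf, hM, mat_apply, hw]
    ring
  have hw0 : w ≠ 0 := by
    intro h
    have := snd_ne_of_dl (hpos 0).ne'
    rw [hsnd, h, zero_mul] at this
    exact this rfl
  refine hom_conf (fun z => Complex.exp ((1 - (z.1 : ℂ)) * (Complex.log w + L (M z.2)) +
    (z.1 : ℂ) * (((k * z.2.1 : ℝ) : ℂ) * (2 * Real.pi * Complex.I)))) (by fun_prop) ?_ ?_ ?_ ?_
  · intro u q m
    have e : k₁ * (x * m.1 + -b * m.2) + k₂ * (y * m.1 + a * m.2) = k * m.1 := by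
      linear_combination m.1 * hk + m.2 * hk'
    simp only [map_add, hM, mat_lat, hper, e]
    rw [Complex.exp_eq_exp_iff_exists_int]
    refine ⟨k * m.1, ?_⟩
    simp only [lat, Prod.fst_add]
    push_cast
    ring
  · intro u q _ _
    exact Complex.exp_ne_zero _
  · intro q
    simp only [Complex.ofReal_zero, sub_zero, one_mul, zero_mul, add_zero]
    rw [Complex.exp_add, Complex.exp_log hw0, hexp, hsnd]
  · intro q
    simp only [Complex.ofReal_one, sub_self, one_mul, zero_mul, zero_add]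
    exact exp_eq k q.1

theorem continuous_dl : Continuous dl := by
  unfold dl
  fun_prop

theorem concl {N : Q → G × G} (hc : Continuous N) (hp : Per N) (hd : ∀ q, dl (N q) ≠ 0) :
    Concl N := by
  have hsign : (∀ q, 0 < dl (N q)) ∨ ∀ q, dl (N q) < 0 := by
    by_contra h
    push Not at h
    obtain ⟨⟨q, hq⟩, q', hq'⟩ := h
    obtain ⟨z, hz⟩ := intermediate_value_univ q q' (continuous_dl.comp hc)
      (show (0 : ℝ) ∈ Set.Icc _ _ from ⟨hq, hq'⟩)
    exact hd z hz
  rcases hsign with h | h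
  · exact concl_pos hc hp h
  · let S : Q ≃L[ℝ] Q := ContinuousLinearEquiv.prodComm ℝ ℝ ℝ
    have hS : ∀ m, ∃ m', (S : Q →L[ℝ] Q) (lat m) = lat m' := fun m => ⟨(m.2, m.1), rfl⟩
    have hS' : ∀ m, ∃ m', S.symm (lat m) = lat m' := fun m => ⟨(m.2, m.1), rfl⟩
    have hdet : det (S : Q →L[ℝ] Q) = -1 := by
      simp [det, S]
    obtain ⟨A, hA, hA', r, hr, sg, hsg, η, hη, hηp, h1, h2, hH⟩ :=
      concl_pos (N := fun q => act (S : Q →L[ℝ] Q) (N ((S : Q →L[ℝ] Q) q)))
        ((continuous_act _).comp (hc.comp (S : Q →L[ℝ] Q).continuous))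
        (per_comp (g := fun q => act (S : Q →L[ℝ] Q) (N q)) (fun q m => by simp only [hp q m]) _ hS)
        (fun q => by
          rw [dl_act, hdet]
          linarith [h ((S : Q →L[ℝ] Q) q)])
    refine ⟨A.trans S, fun m => ?_, fun m => ?_, r, hr, sg, hsg, η, hη, hηp, h1, h2, ?_⟩
    · obtain ⟨m', hm⟩ := hA m
      obtain ⟨m'', hm'⟩ := hS m'
      refine ⟨m'', ?_⟩
      rw [ContinuousLinearEquiv.trans_apply, hm]
      exact hm'
    · obtain ⟨m', hm⟩ := hS' m
      obtain ⟨m'', hm'⟩ := hA' m'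
      refine ⟨m'', ?_⟩
      rw [ContinuousLinearEquiv.symm_trans_apply, hm]
      exact hm'
    · simp only [act_act] at hH
      exact hH

end Norm

theorem norm_form : NormStmt := fun _ hc hp hd => Norm.concl hc hp hd

end Pool.Agent.Lib.MP_72f1d0_gt
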