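import Pool.Agent.Lib.MP_72f1d0_gt.Defs

/-!
The master lemma for maps `Φ (q, v)` with `Φ (q, 0) = f q`.
-/

open scoped ContDiff
open Metric Set

namespace Pool.Agent.Lib.MP_72f1d0_gt

namespace MLC

lemma exists_red (q : Q) : ∃ (q₀ : Q) (m : ℤ × ℤ), ‖q₀‖ ≤ 1 ∧ q = q₀ + lat m := by
  refine ⟨(Int.fract q.1, Int.fract q.2), (⌊q.1⌋, ⌊q.2⌋), ?_, ?_⟩
  · rw [Prod.norm_def, max_le_iff]
    have h : ∀ x : ℝ, ‖Int.fract x‖ ≤ 1 := fun x => by
      rw [Real.norm_of_nonneg (Int.fract_nonneg x)]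
      exact (Int.fract_lt_one x).le
    exact ⟨h _, h _⟩
  · ext <;> simp [lat]

lemma bdd {Y : Type*} [SeminormedAddCommGroup Y] {g : Q → Y} (hg : Continuous g) (hp : Per g) :
    ∃ B : ℝ, 0 < B ∧ ∀ q, ‖g q‖ ≤ B := by
  obtain ⟨B, hB⟩ := (isCompact_closedBall (0 : Q) 1).exists_bound_of_continuousOn hg.continuousOn
  refine ⟨|B| + 1, by positivity, fun q => ?_⟩
  obtain ⟨q₀, m, h, rfl⟩ := exists_red q
  rw [hp]
  linarith [hB q₀ (mem_closedBall_zero_iff.2 h), le_abs_self B]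

lemma unif {V Y : Type*} [NormedAddCommGroup V] [ProperSpace V] [SeminormedAddCommGroup Y]
    {g : Q × V → Y} (hg : Continuous g) (hp : ∀ q m v, g (q + lat m, v) = g (q, v))
    {ε : ℝ} (hε : 0 < ε) : ∃ δ : ℝ, 0 < δ ∧ δ ≤ 1 ∧ ∀ q q' v v', ‖v‖ ≤ 1 → ‖v'‖ ≤ 1 →
      ‖q' - q‖ ≤ δ → ‖v' - v‖ ≤ δ → ‖g (q', v') - g (q, v)‖ ≤ ε := by
  have hK : IsCompact (closedBall (0 : Q) 2 ×ˢ closedBall (0 : V) 1) :=
    (isCompact_closedBall _ _).prod (isCompact_closedBall _ _)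
  obtain ⟨δ, hδ, h⟩ := Metric.uniformContinuousOn_iff_le.1
    (hK.uniformContinuousOn_of_continuous hg.continuousOn) ε hε
  refine ⟨min δ 1, by positivity, min_le_right _ _, fun q q' v v' hv hv' hq hvv => ?_⟩
  obtain ⟨q₀, m, h0, rfl⟩ := exists_red q
  rw [le_min_iff] at hq hvv
  have e : q' = (q' - lat m) + lat m := by abel
  have e2 : q' - lat m - q₀ = q' - (q₀ + lat m) := by abel
  have h1 : ‖q' - lat m‖ ≤ 2 := by
    have := norm_add_le (q' - lat m - q₀) q₀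
    rw [sub_add_cancel, e2] at this
    linarith [hq.2]
  rw [e, hp, hp, ← dist_eq_norm]
  refine h _ ⟨mem_closedBall_zero_iff.2 h1, mem_closedBall_zero_iff.2 hv'⟩ _
    ⟨mem_closedBall_zero_iff.2 (by linarith), mem_closedBall_zero_iff.2 hv⟩ ?_
  rw [Prod.dist_eq, max_le_iff, dist_eq_norm, dist_eq_norm]
  exact ⟨e2 ▸ hq.1, hvv.1⟩

lemma far {c : Ctx} {f : Q → G} (hf : IsEmb c f) {r : ℝ} (hr : 0 < r) :
    ∃ d : ℝ, 0 < d ∧ ∀ q q', ‖f q' - f q‖ < d → ‖q' - q‖ ≤ r := by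
  have hc := hf.smooth.continuous
  obtain ⟨B, hB0, hB⟩ := bdd (g := fun q => f q - c.i q) (hc.sub c.i.continuous) fun q m => by
    simp only [hf.equi, map_add]; abel
  obtain ⟨K, hK0, hK⟩ := (c.i : Q →ₗ[ℝ] G).exists_antilipschitzWith
    (LinearMap.ker_eq_bot.2 c.i_inj)
  have hK' : ∀ x : Q, ‖x‖ ≤ K * ‖c.i x‖ := fun x => by
    simpa using hK.le_mul_dist x 0
  set R : ℝ := K * (2 * B + 1) with hR
  have hS : IsCompact ((closedBall (0 : Q) 1 ×ˢ closedBall (0 : Q) R) ∩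
      {x : Q × Q | r ≤ ‖x.2‖}) :=
    ((isCompact_closedBall _ _).prod (isCompact_closedBall _ _)).inter_right
      (isClosed_le continuous_const (by fun_prop))
  obtain ⟨d, hd, hd'⟩ := hS.exists_forall_le' (f := fun x : Q × Q => ‖f (x.1 + x.2) - f x.1‖)
    (a := 0) (by fun_prop) fun x hx => by
      rw [norm_pos_iff, sub_ne_zero]
      intro h
      have h1 : x.2 = 0 := by simpa using hf.inj h
      have h2 : r ≤ ‖x.2‖ := hx.2
      rw [h1, norm_zero] at h2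
      linarith
  refine ⟨min d 1, by positivity, fun q q' h => ?_⟩
  rw [lt_min_iff] at h
  by_contra hcon
  push Not at hcon
  have h1 : ‖q' - q‖ ≤ R := by
    have e : c.i (q' - q) = (f q' - f q) - (f q' - c.i q') + (f q - c.i q) := by
      rw [map_sub]; abel
    have h2 : ‖c.i (q' - q)‖ ≤ 2 * B + 1 := by
      rw [e]
      linarith [norm_add_le ((f q' - f q) - (f q' - c.i q')) (f q - c.i q),
        norm_sub_le (f q' - f q) (f q' - c.i q'), hB q, hB q', h.2]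
    exact (hK' _).trans (mul_le_mul_of_nonneg_left h2 K.2)
  obtain ⟨q₀, m, h0, rfl⟩ := exists_red q
  have h3 := hd' (q₀, q' - (q₀ + lat m))
    ⟨⟨mem_closedBall_zero_iff.2 h0, mem_closedBall_zero_iff.2 h1⟩, hcon.le⟩
  have e : q' = (q₀ + (q' - (q₀ + lat m))) + lat m := by abel
  have h4 := h.1
  rw [e, hf.equi, hf.equi, add_sub_add_right_eq_sub] at h4
  exact absurd h3 (not_le.2 h4)

lemma fderiv_per {V : Type*} [NormedAddCommGroup V] [NormedSpace ℝ V] {Φ : Q × V → G}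
    {a : Q} {b : G} (h : ∀ q v, Φ (q + a, v) = Φ (q, v) + b) (q : Q) (v : V) :
    fderiv ℝ Φ (q + a, v) = fderiv ℝ Φ (q, v) := by
  have e : (fun x : Q × V => Φ (x + (a, 0))) = fun x => Φ x + b := by
    funext x
    rw [← h]
    congr 1
    ext <;> simp
  have h1 := fderiv_comp_add_right (𝕜 := ℝ) (f := Φ) (x := (q, v)) ((a, 0) : Q × V)
  rw [e, fderiv_add_const] at h1
  rw [h1]
  congr 1
  ext <;> simp

end MLC

open MLC in
theorem ml : MLStmt := by
  intro c f hf V _ _ _ Φ hΦ hper h0 κ hκ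
  have : ProperSpace V := FiniteDimensional.proper_real V
  have hDc : Continuous (fderiv ℝ Φ) := hΦ.continuous_fderiv (by simp)
  have hDp : ∀ q m v, fderiv ℝ Φ (q + lat m, v) = fderiv ℝ Φ (q, v) := fun q m v =>
    fderiv_per (fun q v => hper q m v) q v
  have hAc : Continuous (AA c Φ) :=
    (c.om_smooth.continuous.comp hΦ.continuous).clm_comp hDc
  have hAp : ∀ q m v, AA c Φ (q + lat m, v) = AA c Φ (q, v) := fun q m v => by
    simp only [AA, hDp, hper, c.om_per]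
  obtain ⟨B, hB0, hB⟩ := bdd (g := fun q => c.om (f q))
    (c.om_smooth.continuous.comp hf.smooth.continuous) fun q m => by
      simp only [hf.equi, c.om_per]
  obtain ⟨δ₁, hδ₁, hδ₁', h1⟩ := unif hAc hAp hκ
  obtain ⟨δ₂, hδ₂, -, h2⟩ := unif hDc hDp (show 0 < κ / B by positivity)
  obtain ⟨d, hd, h3⟩ := far hf hδ₂
  obtain ⟨δ₃, hδ₃, -, h4⟩ := unif (g := fun x : Q × V => Φ x - c.i x.1)
    (hΦ.continuous.sub (c.i.continuous.comp continuous_fst))
    (fun q m v => by simp only [hper, map_add]; abel) (show 0 < d / 3 by positivity)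
  refine ⟨min δ₁ (min δ₂ δ₃), by positivity, fun q v hv => ?_, fun q q' v v' hv hv' h => ?_⟩
  · rw [le_min_iff] at hv
    exact h1 q q 0 v (by simp) (hv.1.trans hδ₁') (by simpa using hδ₁.le) (by simpa using hv.1)
  · simp only [le_min_iff] at hv hv'
    have h5 : ∀ q v, ‖v‖ ≤ δ₁ → ‖v‖ ≤ δ₃ → ‖Φ (q, v) - f q‖ ≤ d / 3 := fun q v a b => by
      have := h4 q q 0 v (by simp) (a.trans hδ₁') (by simpa using hδ₃.le) (by simpa using b)
      simpa only [h0, sub_sub_sub_cancel_right] using this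
    have h6 : ‖q' - q‖ ≤ δ₂ := by
      apply h3
      have e : f q' - f q = (Φ (q, v) - f q) - (Φ (q', v') - f q') := by rw [h]; abel
      rw [e]
      linarith [norm_sub_le (Φ (q, v) - f q) (Φ (q', v') - f q'), h5 q v hv.1 hv.2.2,
        h5 q' v' hv'.1 hv'.2.2]
    have h7 := ((convex_closedBall q δ₂).prod
      (convex_closedBall (0 : V) (min δ₁ δ₂))).norm_image_sub_le_of_norm_fderiv_le'
      (𝕜 := ℝ) (f := Φ) (φ := fderiv ℝ Φ (q, 0)) (C := κ / B) (x := (q, v)) (y := (q', v'))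
      (fun x _ => hΦ.differentiable (by simp) x)
      (fun x hx => by
        have a1 : ‖x.1 - q‖ ≤ δ₂ := by simpa [dist_eq_norm] using hx.1
        have a2 : ‖x.2‖ ≤ min δ₁ δ₂ := mem_closedBall_zero_iff.1 hx.2
        rw [le_min_iff] at a2
        exact h2 q x.1 0 x.2 (by simp) (a2.1.trans hδ₁') a1 (by simpa using a2.2))
      ⟨mem_closedBall_self hδ₂.le, mem_closedBall_zero_iff.2 (le_min hv.1 hv.2.1)⟩
      ⟨by simpa [dist_eq_norm] using h6, mem_closedBall_zero_iff.2 (le_min hv'.1 hv'.2.1)⟩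
    rw [h, sub_self, zero_sub, norm_neg, Prod.mk_sub_mk] at h7
    simp only [AA, ContinuousLinearMap.comp_apply, h0]
    calc _ ≤ ‖c.om (f q)‖ * ‖fderiv ℝ Φ (q, 0) (q' - q, v' - v)‖ := (c.om (f q)).le_opNorm _
      _ ≤ B * (κ / B * ‖(q' - q, v' - v)‖) := by gcongr; exact hB q
      _ = _ := by field_simp

end Pool.Agent.Lib.MP_72f1d0_gt
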