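import Pool.Agent.Lib.MP_72f1d0_gt.Defs

/-!
Lifting a path of injective pairs to a path of linear automorphisms of `G`.
-/

namespace Pool.Agent.Lib.MP_72f1d0_gt

namespace Frames

/-- The Euclidean inner product with a fixed vector. -/
noncomputable def ip (a : G) : G →L[ℝ] ℝ :=
  a.1.re • (Complex.reCLM.comp (ContinuousLinearMap.fst ℝ ℂ ℂ)) +
  a.1.im • (Complex.imCLM.comp (ContinuousLinearMap.fst ℝ ℂ ℂ)) +
  a.2.re • (Complex.reCLM.comp (ContinuousLinearMap.snd ℝ ℂ ℂ)) +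
  a.2.im • (Complex.imCLM.comp (ContinuousLinearMap.snd ℝ ℂ ℂ))

theorem ip_apply (a b : G) :
    ip a b = a.1.re * b.1.re + a.1.im * b.1.im + a.2.re * b.2.re + a.2.im * b.2.im := by
  simp [ip]

theorem eq_zero_of_ip {a : G} (h : ip a a = 0) : a = 0 := by
  rw [ip_apply] at h
  have h1 : a.1.re = 0 := by nlinarith [sq_nonneg a.1.re, sq_nonneg a.1.im, sq_nonneg a.2.re, sq_nonneg a.2.im]
  have h2 : a.1.im = 0 := by nlinarith [sq_nonneg a.1.re, sq_nonneg a.1.im, sq_nonneg a.2.re, sq_nonneg a.2.im]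
  have h3 : a.2.re = 0 := by nlinarith [sq_nonneg a.1.re, sq_nonneg a.1.im, sq_nonneg a.2.re, sq_nonneg a.2.im]
  have h4 : a.2.im = 0 := by nlinarith [sq_nonneg a.1.re, sq_nonneg a.1.im, sq_nonneg a.2.re, sq_nonneg a.2.im]
  exact Prod.ext (Complex.ext h1 h2) (Complex.ext h3 h4)

/-- The Gram determinant. -/
noncomputable def gram (A : G × G) : ℝ := ip A.1 A.1 * ip A.2 A.2 - ip A.1 A.2 ^ 2

theorem gram_ne {A : G × G} (h : Inj A) : gram A ≠ 0 := by
  intro h0
  have hv : ip A.2 A.2 • A.1 + (-ip A.1 A.2) • A.2 = 0 := by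
    apply eq_zero_of_ip
    have : ip (ip A.2 A.2 • A.1 + (-ip A.1 A.2) • A.2) (ip A.2 A.2 • A.1 + (-ip A.1 A.2) • A.2)
        = ip A.2 A.2 * gram A := by
      simp only [gram, ip_apply, Prod.fst_add, Prod.snd_add, Prod.smul_fst, Prod.smul_snd,
        Complex.add_re, Complex.add_im, Complex.smul_re, Complex.smul_im, smul_eq_mul]
      ring
    rw [this, h0, mul_zero]
  have hb : A.2 = 0 := eq_zero_of_ip (h _ _ hv).1
  have := (h 0 1 (by simp [hb])).2
  exact one_ne_zero this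

/-- First dual functional. -/
noncomputable def f1 (A : G × G) : G →L[ℝ] ℝ :=
  (gram A)⁻¹ • (ip A.2 A.2 • ip A.1 - ip A.1 A.2 • ip A.2)

/-- Second dual functional. -/
noncomputable def f2 (A : G × G) : G →L[ℝ] ℝ :=
  (gram A)⁻¹ • (ip A.1 A.1 • ip A.2 - ip A.1 A.2 • ip A.1)

theorem ip_comm (a b : G) : ip a b = ip b a := by
  simp only [ip_apply]; ring

theorem f1_apply (A : G × G) (v : G) :
    f1 A v = (gram A)⁻¹ * (ip A.2 A.2 * ip A.1 v - ip A.1 A.2 * ip A.2 v) := by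
  simp [f1]

theorem f2_apply (A : G × G) (v : G) :
    f2 A v = (gram A)⁻¹ * (ip A.1 A.1 * ip A.2 v - ip A.1 A.2 * ip A.1 v) := by
  simp [f2]

theorem f11 {A : G × G} (h : Inj A) : f1 A A.1 = 1 := by
  rw [f1_apply, ip_comm A.2 A.1]
  have := gram_ne h
  field_simp
  simp only [gram]; ring

theorem f12 (A : G × G) : f1 A A.2 = 0 := by
  rw [f1_apply]; ring

theorem f21 (A : G × G) : f2 A A.1 = 0 := by
  rw [f2_apply, ip_comm A.2 A.1]; ring

theorem f22 {A : G × G} (h : Inj A) : f2 A A.2 = 1 := by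
  rw [f2_apply]
  have := gram_ne h
  field_simp
  simp only [gram]

/-- The linear map moving the pair `A` to the pair `B`. -/
noncomputable def T (A B : G × G) : G →L[ℝ] G :=
  1 + (f1 A).smulRight (B.1 - A.1) + (f2 A).smulRight (B.2 - A.2)

theorem T_apply (A B : G × G) (v : G) :
    T A B v = v + f1 A v • (B.1 - A.1) + f2 A v • (B.2 - A.2) := by
  simp [T]

theorem T_self (A : G × G) : T A A = 1 := by
  simp [T]

theorem T_fst {A : G × G} (h : Inj A) (B : G × G) : T A B A.1 = B.1 := by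
  rw [T_apply, f11 h, f21]; simp

theorem T_snd {A : G × G} (h : Inj A) (B : G × G) : T A B A.2 = B.2 := by
  rw [T_apply, f12, f22 h]; simp

theorem cont_ip {X : Type*} [TopologicalSpace X] {a b : X → G} (ha : Continuous a)
    (hb : Continuous b) : Continuous fun x => ip (a x) (b x) := by
  simp only [ip_apply]
  fun_prop

theorem cont_T {X : Type*} [TopologicalSpace X] {A B : X → G × G} (hA : Continuous A)
    (hB : Continuous B) (hi : ∀ x, Inj (A x)) : Continuous fun x => T (A x) (B x) := by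
  rw [continuous_clm_apply]
  intro v
  have h11 : Continuous fun x => ip (A x).1 (A x).1 := cont_ip hA.fst hA.fst
  have h12 : Continuous fun x => ip (A x).1 (A x).2 := cont_ip hA.fst hA.snd
  have h22 : Continuous fun x => ip (A x).2 (A x).2 := cont_ip hA.snd hA.snd
  have h1v : Continuous fun x => ip (A x).1 v := cont_ip hA.fst continuous_const
  have h2v : Continuous fun x => ip (A x).2 v := cont_ip hA.snd continuous_const
  have hg : Continuous fun x => (gram (A x))⁻¹ := by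
    refine Continuous.inv₀ ?_ fun x => gram_ne (hi x)
    exact (h11.mul h22).sub (h12.pow 2)
  simp only [T_apply, f1_apply, f2_apply]
  refine (continuous_const.add ?_).add ?_
  · exact (hg.mul ((h22.mul h1v).sub (h12.mul h2v))).smul (hB.fst.sub hA.fst)
  · exact (hg.mul ((h11.mul h2v).sub (h12.mul h1v))).smul (hB.snd.sub hA.snd)

/-- Clamping to an interval. -/
noncomputable def cl (a b s : ℝ) : ℝ := max a (min s b)

theorem cl_mem {a b : ℝ} (h : a ≤ b) (s : ℝ) : a ≤ cl a b s ∧ cl a b s ≤ b :=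
  ⟨le_max_left _ _, max_le h (min_le_right _ _)⟩

theorem cl_of_mem {a b s : ℝ} (h1 : a ≤ s) (h2 : s ≤ b) : cl a b s = s := by
  rw [cl, min_eq_left h2, max_eq_right h1]

theorem cl_of_ge {a b s : ℝ} (h : a ≤ b) (h2 : b ≤ s) : cl a b s = b := by
  rw [cl, min_eq_right h2, max_eq_right h]

theorem cont_cl (a b : ℝ) : Continuous (cl a b) := by
  unfold cl; fun_prop

/-- Reduction to the fundamental domain. -/
theorem exists_fund (q : Q) :
    ∃ (q' : Q) (m : ℤ × ℤ), q' ∈ Set.Icc (0 : ℝ) 1 ×ˢ Set.Icc (0 : ℝ) 1 ∧ q = q' + lat m := by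
  refine ⟨(Int.fract q.1, Int.fract q.2), (⌊q.1⌋, ⌊q.2⌋),
    ⟨⟨Int.fract_nonneg _, (Int.fract_lt_one _).le⟩, ⟨Int.fract_nonneg _, (Int.fract_lt_one _).le⟩⟩,
    ?_⟩
  ext <;> simp [lat]

theorem exists_step (K : ℝ × Q → G × G) (hK : Continuous K) (hp : ∀ s, Per fun q => K (s, q))
    (hi : ∀ s q, 0 ≤ s → s ≤ 1 → Inj (K (s, q))) :
    ∃ δ : ℝ, 0 < δ ∧ ∀ s s' q, 0 ≤ s → s ≤ 1 → 0 ≤ s' → s' ≤ 1 → |s' - s| < δ →
      IsUnit (T (K (s, q)) (K (s', q))) := by
  let F : (ℝ × ℝ) × Q → (G →L[ℝ] G) := fun x => T (K (cl 0 1 x.1.1, x.2)) (K (x.1.2, x.2))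
  have hF : Continuous F := by
    refine cont_T (hK.comp ?_) (hK.comp ?_) fun x =>
      hi _ _ (cl_mem zero_le_one _).1 (cl_mem zero_le_one _).2
    · exact ((cont_cl 0 1).comp (by fun_prop)).prodMk (by fun_prop)
    · fun_prop
  have hc : IsCompact ((Set.Icc (0 : ℝ) 1 ×ˢ Set.Icc (0 : ℝ) 1) ×ˢ
      (Set.Icc (0 : ℝ) 1 ×ˢ Set.Icc (0 : ℝ) 1)) :=
    (isCompact_Icc.prod isCompact_Icc).prod (isCompact_Icc.prod isCompact_Icc)
  obtain ⟨δ, hδ, h⟩ := Metric.uniformContinuousOn_iff.1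
    (hc.uniformContinuousOn_of_continuous hF.continuousOn) 1 one_pos
  refine ⟨δ, hδ, fun s s' q h0 h1 h0' h1' hs => ?_⟩
  obtain ⟨q', m, hq', rfl⟩ := exists_fund q
  have e1 : K (s, q' + lat m) = K (s, q') := hp s q' m
  have e2 : K (s', q' + lat m) = K (s', q') := hp s' q' m
  rw [e1, e2]
  have := h ((s, s'), q') ⟨⟨⟨h0, h1⟩, ⟨h0', h1'⟩⟩, hq'⟩ ((s, s), q') ⟨⟨⟨h0, h1⟩, ⟨h0, h1⟩⟩, hq'⟩
    (by simpa [Prod.dist_eq, Real.dist_eq, hδ] using hs)
  simp only [F, cl_of_mem h0 h1, T_self] at this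
  rw [dist_comm, dist_eq_norm] at this
  have hu := (Units.oneSub _ this).isUnit
  simpa using hu

/-- The lifting property on the interval `[a, 1]`. -/
def Lift (K : ℝ × Q → G × G) (a : ℝ) : Prop :=
  ∃ C : ℝ × Q → (G →L[ℝ] G), Continuous C ∧ (∀ s, Per fun q => C (s, q)) ∧
    (∀ x, IsUnit (C x)) ∧ (∀ q, C (1, q) = 1) ∧
    (∀ s q, a ≤ s → s ≤ 1 → C (s, q) (K (1, q)).1 = (K (s, q)).1 ∧
      C (s, q) (K (1, q)).2 = (K (s, q)).2) ∧
    ∀ q, (∀ s, 0 ≤ s → s ≤ 1 → K (s, q) = K (1, q)) → ∀ s, C (s, q) = 1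

theorem lift_one (K : ℝ × Q → G × G) : Lift K 1 := by
  refine ⟨fun _ => 1, continuous_const, fun _ _ _ => rfl, fun _ => isUnit_one, fun _ => rfl, ?_,
    fun _ _ _ => rfl⟩
  intro s q h1 h2
  obtain rfl : s = 1 := le_antisymm h2 h1
  simp

theorem lift_step (K : ℝ × Q → G × G) (hK : Continuous K) (hp : ∀ s, Per fun q => K (s, q))
    (hi : ∀ s q, 0 ≤ s → s ≤ 1 → Inj (K (s, q))) {δ : ℝ}
    (hδ : ∀ s s' q, 0 ≤ s → s ≤ 1 → 0 ≤ s' → s' ≤ 1 → |s' - s| < δ →
      IsUnit (T (K (s, q)) (K (s', q))))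
    {a b : ℝ} (ha : 0 ≤ a) (hab : a ≤ b) (hb : b ≤ 1) (hd : b - a < δ) (h : Lift K b) :
    Lift K a := by
  obtain ⟨C, hC, hCp, hCu, hC1, hCK, hCs⟩ := h
  have hb0 : 0 ≤ b := ha.trans hab
  refine ⟨fun x => T (K (b, x.2)) (K (cl a b x.1, x.2)) * C (max x.1 b, x.2), ?_, ?_, ?_, ?_, ?_,
    ?_⟩
  · refine Continuous.mul (cont_T (hK.comp ?_) (hK.comp ?_) fun x => hi _ _ hb0 hb) (hC.comp ?_)
    · fun_prop
    · exact ((cont_cl a b).comp (by fun_prop)).prodMk (by fun_prop)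
    · fun_prop
  · intro s q m
    have e1 : K (b, q + lat m) = K (b, q) := hp b q m
    have e2 : K (cl a b s, q + lat m) = K (cl a b s, q) := hp _ q m
    have e3 : C (max s b, q + lat m) = C (max s b, q) := hCp _ q m
    simp only [e1, e2, e3]
  · intro x
    have hc := cl_mem hab x.1
    refine (hδ _ _ _ hb0 hb (ha.trans hc.1) (hc.2.trans hb) ?_).mul (hCu _)
    rw [abs_sub_comm, abs_of_nonneg (by linarith [hc.2])]
    linarith [hc.1]
  · intro q
    simp only [cl_of_ge hab hb, T_self, max_eq_left hb, hC1, mul_one]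
  · intro s q h1 h2
    rcases le_total s b with hs | hs
    · have := hCK b q le_rfl hb
      simp only [cl_of_mem h1 hs, max_eq_right hs, mul_apply_eq_comp, this.1, this.2]
      exact ⟨T_fst (hi _ _ hb0 hb) _, T_snd (hi _ _ hb0 hb) _⟩
    · simp only [cl_of_ge hab hs, max_eq_left hs, T_self, one_mul]
      exact hCK s q hs h2
  · intro q hq s
    have hc := cl_mem hab s
    simp only [hq b hb0 hb, hq _ (ha.trans hc.1) (hc.2.trans hb), T_self, hCs q hq, mul_one]

theorem lift_zero (K : ℝ × Q → G × G) (hK : Continuous K) (hp : ∀ s, Per fun q => K (s, q))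
    (hi : ∀ s q, 0 ≤ s → s ≤ 1 → Inj (K (s, q))) : Lift K 0 := by
  obtain ⟨δ, hδ, h⟩ := exists_step K hK hp hi
  have key : ∀ n : ℕ, Lift K (max 0 (1 - n * (δ / 2))) := by
    intro n
    induction n with
    | zero => simpa using lift_one K
    | succ n ih =>
      refine lift_step K hK hp hi h (le_max_left _ _) ?_ ?_ ?_ ih
      · apply max_le_max le_rfl
        push_cast
        nlinarith
      · apply max_le zero_le_one
        have : (0 : ℝ) ≤ n * (δ / 2) := by positivity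
        linarith
      · push_cast
        have h1 := le_max_left (0 : ℝ) (1 - (n + 1) * (δ / 2))
        have h2 := le_max_right (0 : ℝ) (1 - (n + 1) * (δ / 2))
        have : max 0 (1 - n * (δ / 2)) ≤ max 0 (1 - (n + 1) * (δ / 2)) + δ / 2 :=
          max_le (by linarith) (by linarith)
        linarith
  obtain ⟨n, hn⟩ := exists_nat_ge (1 / (δ / 2))
  have h1 : 1 - n * (δ / 2) ≤ 0 := by
    rw [div_le_iff₀ (by positivity)] at hn
    linarith
  simpa [max_eq_left h1] using key n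

end Frames

theorem frames : FramesStmt := by
  intro K hK hp hi
  obtain ⟨C, hC, hCp, hCu, hC1, hCK, hCs⟩ := Frames.lift_zero K hK hp hi
  refine ⟨C, fun x => Ring.inverse (C x), hC, ?_, hCp, ?_, ?_, ?_, ?_, hCK, ?_⟩
  · rw [continuous_iff_continuousAt]
    intro x
    obtain ⟨u, hu⟩ := hCu x
    have := NormedRing.inverse_continuousAt u
    rw [hu] at this
    exact ContinuousAt.comp (f := C) this hC.continuousAt
  · intro s q m
    have e3 : C (s, q + lat m) = C (s, q) := hCp _ q m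
    simp only [e3]
  · intro x v
    rw [← mul_apply_eq_comp, Ring.mul_inverse_cancel _ (hCu x)]
    rfl
  · intro x v
    rw [← mul_apply_eq_comp, Ring.inverse_mul_cancel _ (hCu x)]
    rfl
  · intro q v
    rw [hC1]; rfl
  · intro q hq s v
    rw [hCs q hq]; rfl

end Pool.Agent.Lib.MP_72f1d0_gt
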