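import Mathlib
import Pool.Agent.Lib.MP_72f1d0_gt.Defs3

/-! Equivariant formal transverse embeddings: concatenation, winding, reparametrisations. -/

open scoped ContDiff Topology
open Set

namespace Pool.Agent.Lib.MP_72f1d0_gt
namespace Global

variable {c : Ctx} {𝒮 : Set (Sym c)}

lemma dl_rho (σ : Sym c) (A : G × G) : dl (σ.ρ A) = dl A := by
  have h1 : σ.w * σ.w = 1 := by rcases σ.hw with h | h <;> simp [h]
  have h2 := σ.kx
  simp only [Sym.ρ, rho, dl, EE, ContinuousLinearMap.coe_prodMap', Prod.map_snd, Prod.smul_snd,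
    Complex.smul_re, Complex.smul_im, sg2_re, sg2_im, smul_eq_mul]
  linear_combination (σ.k * σ.x * (A.2.2.re * A.1.2.im - A.2.2.im * A.1.2.re)) * h1 +
    (A.2.2.re * A.1.2.im - A.2.2.im * A.1.2.re) * h2

lemma rho_add_sub (σ : Sym c) (A B D : G × G) :
    σ.ρ (A + (B - D)) = σ.ρ A + (σ.ρ B - σ.ρ D) := by
  simp only [Sym.ρ, rho, Prod.fst_add, Prod.snd_add, Prod.fst_sub, Prod.snd_sub, map_add, map_sub,
    smul_add, smul_sub, Prod.mk_add_mk, Prod.mk_sub_mk]

lemma rho_smul (σ : Sym c) (t : ℝ) (A : G × G) :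
    σ.ρ (t • A.1, A.2) = (t • (σ.ρ A).1, (σ.ρ A).2) := by
  simp only [Sym.ρ, rho, map_smul, smul_comm σ.k t]

/-! ### Orbits -/

lemma good_sym (x : St c 𝒮) {σ : Sym c} (hσ : σ ∈ 𝒮) {q : Q} (h : Good x q) : Good x (σ.a q) :=
  fun s h0 h1 => by rw [x.eg σ hσ, h s h0 h1, ← x.g0, ← x.g0, x.eg σ hσ]

lemma good_lat (x : St c 𝒮) {q : Q} (m : ℤ × ℤ) (h : Good x q) : Good x (q + lat m) :=
  fun s h0 h1 => by
    have := x.fam.per s q m
    simp only at this
    rw [this, h s h0 h1, x.emb.dd_per q m]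

lemma tr_sym (x : St c 𝒮) {σ : Sym c} (hσ : σ ∈ 𝒮) {q : Q} (h : Tr x q) : Tr x (σ.a q) :=
  fun s h0 h1 => by rw [x.eg σ hσ, dl_rho]; exact h s h0 h1

lemma tr_lat (x : St c 𝒮) {q : Q} (m : ℤ × ℤ) (h : Tr x q) : Tr x (q + lat m) :=
  fun s h0 h1 => by
    have := x.fam.per s q m
    simp only at this
    rw [this]; exact h s h0 h1

theorem orb (x : St c 𝒮) (q' q : Q) (h : Orb 𝒮 q' q) :
    (Good x q' → Good x q) ∧ (Tr x q' → Tr x q) :=
  ⟨h (Good x) (fun _ hσ _ hy => good_sym x hσ hy) fun _ m hy => good_lat x m hy,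
    h (Tr x) (fun _ hσ _ hy => tr_sym x hσ hy) fun _ m hy => tr_lat x m hy⟩

/-! ### Concatenation -/

theorem trans (x y z : St c 𝒮) (h : Reach x y) (h' : Reach y z) : Reach x z := by
  obtain ⟨z₁, s₁, c₁, a₁, b₁⟩ := h
  obtain ⟨z₂, s₂, c₂, a₂, b₂⟩ := h'
  let w : ℝ → St c 𝒮 := fun l => if l ≤ 1 / 2 then z₁ (Real.smoothTransition (2 * l))
    else z₂ (Real.smoothTransition (2 * l - 1))
  have key : ∀ {Y : Type} [AddCommGroup Y] (π : St c 𝒮 → Y) (l : ℝ), π (w l) =
      π (z₁ (Real.smoothTransition (2 * l))) + π (z₂ (Real.smoothTransition (2 * l - 1))) - π y := by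
    intro Y _ π l
    simp only [w]
    split_ifs with hl
    · rw [Real.smoothTransition.zero_of_nonpos (by linarith : 2 * l - 1 ≤ 0), a₂]; simp
    · rw [Real.smoothTransition.one_of_one_le (by linarith : 1 ≤ 2 * l), b₁]; simp
  have h1 : ContDiff ℝ ∞ fun l : ℝ => Real.smoothTransition (2 * l) :=
    Real.smoothTransition.contDiff.comp (by fun_prop)
  have h2 : ContDiff ℝ ∞ fun l : ℝ => Real.smoothTransition (2 * l - 1) :=
    Real.smoothTransition.contDiff.comp (by fun_prop)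
  refine ⟨w, ?_, ?_, ?_, ?_⟩
  · have e : (fun p : ℝ × Q => (w p.1).f p.2) = fun p =>
        (z₁ (Real.smoothTransition (2 * p.1))).f p.2 +
          (z₂ (Real.smoothTransition (2 * p.1 - 1))).f p.2 - y.f p.2 :=
      funext fun p => key (fun v => v.f p.2) p.1
    rw [e]
    exact ((s₁.comp ((h1.comp contDiff_fst).prodMk contDiff_snd)).add
      (s₂.comp ((h2.comp contDiff_fst).prodMk contDiff_snd))).sub (y.emb.smooth.comp contDiff_snd)
  · have e : (fun p : ℝ × ℝ × Q => (w p.1).γ p.2) = fun p =>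
        (z₁ (Real.smoothTransition (2 * p.1))).γ p.2 +
          (z₂ (Real.smoothTransition (2 * p.1 - 1))).γ p.2 - y.γ p.2 :=
      funext fun p => key (fun v => v.γ p.2) p.1
    rw [e]
    exact ((c₁.comp ((h1.continuous.comp continuous_fst).prodMk continuous_snd)).add
      (c₂.comp ((h2.continuous.comp continuous_fst).prodMk continuous_snd))).sub
      (y.fam.cont.comp continuous_snd)
  · simp [w, a₁]
  · have : ¬ ((1 : ℝ) ≤ 1 / 2) := by norm_num
    simp only [w, this, if_false]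
    rw [Real.smoothTransition.one_of_one_le (by norm_num), b₂]

/-! ### Winding -/

lemma aa_ne {A : G × G} (h : 0 < dl A) : aa A ≠ 0 := fun h0 => by
  have h1 : A.2.2.re = 0 := congrArg Complex.re h0
  have h2 : -A.1.2.re = 0 := congrArg Complex.im h0
  rw [neg_eq_zero] at h2
  simp [dl, h1, h2] at h

lemma continuous_aa : Continuous aa := by
  have e : aa = fun A => ((al A.2 : ℝ) : ℂ) + ((-al A.1 : ℝ) : ℂ) * Complex.I :=
    funext fun A => Complex.ext (by simp [aa]) (by simp [aa])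
  rw [e]
  fun_prop

theorem zr (x y : St c 𝒮) (h : Reach x y) (hx : ZR x) : ZR y := by
  obtain ⟨z, -, hc, rfl, rfl⟩ := h
  obtain ⟨Λ, hΛ, hp, he⟩ := hx
  let b : ℝ × Q → ℂ := fun p => aa ((z p.1).γ (1, p.2))
  have hb : ∀ p, b p ≠ 0 := fun p => aa_ne ((z p.1).g1 p.2)
  have hbc : Continuous b := continuous_aa.comp
    (hc.comp (f := fun p : ℝ × Q => (p.1, ((1 : ℝ), p.2))) (by fun_prop))
  have hbp : ∀ l q, b (l, q + (0, 1)) = b (l, q) := fun l q => by
    have := (z l).fam.per 1 q (0, 1)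
    simp only [lat, Int.cast_zero, Int.cast_one] at this
    simp only [b, this]
  let f : C(ℝ × Q, {z : ℂ // z ≠ 0}) := ⟨fun p => ⟨b p, hb p⟩, hbc.subtype_mk _⟩
  obtain ⟨F, ⟨hF0, hF⟩, -⟩ := Complex.isCoveringMap_exp.existsUnique_continuousMap_lifts f (0, 0)
    (Λ 0) (Subtype.ext (he 0))
  have hexp : ∀ p, Complex.exp (F p) = b p := fun p => congrArg Subtype.val (congrFun hF p)
  have hFc := F.continuous
  have h0 : ∀ q, F (0, q) = Λ q := fun q => by
    have h1 : ∀ q, Complex.exp (F (0, q) - Λ q) = 1 := fun q => by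
      rw [Complex.exp_sub, hexp, he, div_self (hb (0, q))]
    have := Complex.isCoveringMap_exp.const_of_comp (g := fun q => F (0, q) - Λ q)
      (by fun_prop) (fun a a' => Subtype.ext (by simp only [h1])) q 0
    simp only [hF0, sub_self] at this
    exact sub_eq_zero.1 this
  refine ⟨fun q => F (1, q), by fun_prop, fun q => ?_, fun q => hexp (1, q)⟩
  have h1 : ∀ p : ℝ × Q, Complex.exp (F (p.1, p.2 + (0, 1)) - F p) = 1 := fun p => by
    rw [Complex.exp_sub, hexp, hexp, hbp, div_self (hb p)]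
  have := Complex.isCoveringMap_exp.const_of_comp
    (g := fun p : ℝ × Q => F (p.1, p.2 + (0, 1)) - F p)
    (by fun_prop) (fun a a' => Subtype.ext (by simp only [h1])) (1, q) (0, 0)
  simp only [h0, hp, sub_self] at this
  exact sub_eq_zero.1 this

/-! ### Reparametrisation of the formal path -/

/-- Admissible reparametrisations of the formal parameter. -/
structure Rp (𝒮 : Set (Sym c)) (φ : ℝ × Q → ℝ) : Prop where
  cont : Continuous φ
  per : ∀ s, Per fun q => φ (s, q)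
  eqv : ∀ σ ∈ 𝒮, ∀ s q, φ (s, σ.a q) = φ (s, q)
  mem : ∀ s q, 0 ≤ s → s ≤ 1 → 0 ≤ φ (s, q) ∧ φ (s, q) ≤ 1
  zero : ∀ q, φ (0, q) = 0

/-- The state with the formal path reparametrised. -/
noncomputable def rep (x : St c 𝒮) {φ : ℝ × Q → ℝ} (h : Rp 𝒮 φ)
    (h1 : ∀ q, 0 < dl (x.γ (φ (1, q), q))) : St c 𝒮 where
  f := x.f
  γ p := x.γ (φ p, p.2)
  emb := x.emb
  fam := ⟨x.fam.cont.comp (h.cont.prodMk continuous_snd), fun s q m => by
      have e1 := h.per s q m
      have e2 := x.fam.per (φ (s, q)) q m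
      simp only at e1 e2 ⊢
      rw [e1, e2],
    fun s q h0 h1 => x.fam.inj _ q (h.mem s q h0 h1).1 (h.mem s q h0 h1).2⟩
  g0 q := by simp only [h.zero, x.g0]
  g1 := h1
  ef := x.ef
  eg σ hσ s q := by simp only [h.eqv σ hσ, x.eg σ hσ]

lemma Rp.mix {φ : ℝ × Q → ℝ} (h : Rp 𝒮 φ) (l : ℝ) :
    Rp 𝒮 fun p => (1 - cl l) * p.1 + cl l * φ p where
  cont := by have := h.cont; fun_prop
  per s q m := by
    have e1 := h.per s q m
    simp only at e1 ⊢
    rw [e1]
  eqv σ hσ s q := by simp only [h.eqv σ hσ]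
  mem s q h0 h1 := by
    obtain ⟨a, b⟩ := h.mem s q h0 h1
    have := cl_nonneg l
    have := cl_le_one l
    constructor <;> nlinarith
  zero q := by simp [h.zero]

lemma reach_rep (x y : St c 𝒮) {φ : ℝ × Q → ℝ} (h : Rp 𝒮 φ)
    (h1 : ∀ l q, 0 ≤ l → l ≤ 1 → 0 < dl (x.γ ((1 - l) * 1 + l * φ (1, q), q)))
    (hf : y.f = x.f) (hγ : ∀ p, y.γ p = x.γ (φ p, p.2)) : Reach x y := by
  refine ⟨fun l => rep x (h.mix l) fun q => h1 _ q (cl_nonneg l) (cl_le_one l),
    x.emb.smooth.comp contDiff_snd, ?_, St.ext rfl ?_, St.ext hf.symm ?_⟩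
  · have := h.cont
    exact x.fam.cont.comp (f := fun p : ℝ × ℝ × Q =>
      ((1 - cl p.1) * p.2.1 + cl p.1 * φ p.2, p.2.2)) (by fun_prop)
  · funext p; simp [rep]
  · funext p; simp [rep, hγ]

theorem trunc (x : St c 𝒮) (u : Q → ℝ) (hc : Continuous u) (hp : Per u)
    (hm : ∀ q, 0 ≤ u q ∧ u q ≤ 1) (he : ∀ σ ∈ 𝒮, ∀ q, u (σ.a q) = u q)
    (ht : ∀ q, u q ≠ 0 → Tr x q) : ∃ y, Reach x y ∧ ∀ q, u q = 1 ∨ Good x q → Good y q := by
  have h : Rp 𝒮 fun p => p.1 * (1 - u p.2) :=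
    ⟨by fun_prop, fun s q m => by simp only [hp q m], fun σ hσ s q => by simp only [he σ hσ],
      fun s q h0 h1 => by obtain ⟨a, b⟩ := hm q; constructor <;> nlinarith, fun q => by simp⟩
  have h1 : ∀ l q, 0 ≤ l → l ≤ 1 → 0 < dl (x.γ ((1 - l) * 1 + l * (1 * (1 - u q)), q)) := by
    intro l q l0 l1
    by_cases hq : u q = 0
    · rw [hq, show (1 - l) * 1 + l * (1 * (1 - 0)) = 1 by ring]; exact x.g1 q
    · obtain ⟨a, b⟩ := hm q
      exact ht q hq _ (by nlinarith) (by nlinarith)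
  refine ⟨rep x h fun q => by simpa using h1 1 q zero_le_one le_rfl,
    reach_rep x _ h h1 rfl fun _ => rfl, fun q hq s s0 s1 => ?_⟩
  rcases hq with hq | hq
  · simp [rep, hq, x.g0]
  · exact hq _ (h.mem s q s0 s1).1 (h.mem s q s0 s1).2

/-! ### Reparametrisation of the first coordinate of the torus -/

/-- Admissible reparametrisations of the first coordinate. -/
structure Sp (𝒮 : Set (Sym c)) (ψ : ℝ → ℝ) : Prop where
  smooth : ContDiff ℝ ∞ ψ
  pos : ∀ s, 0 < deriv ψ s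
  per : ∀ s, ψ (s + 1) = ψ s + 1
  eqv : ∀ σ ∈ 𝒮, ∀ s, ψ (σ.k * s + σ.v.1) = σ.k * ψ s + σ.v.1

namespace Sp

variable {ψ : ℝ → ℝ}

lemma hasD (h : Sp 𝒮 ψ) (s : ℝ) : HasDerivAt ψ (deriv ψ s) s :=
  (h.smooth.differentiable (by simp) s).hasDerivAt

lemma perZ (h : Sp 𝒮 ψ) (s : ℝ) (m : ℤ) : ψ (s + m) = ψ s + m := by
  have hp : Function.Periodic (fun s => ψ s - s) 1 := fun s => by simp only [h.per]; ring
  have := hp.int_mul m s
  simp only [mul_one] at this
  linarith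

lemma deriv_perZ (h : Sp 𝒮 ψ) (s : ℝ) (m : ℤ) : deriv ψ (s + m) = deriv ψ s := by
  have h1 : HasDerivAt (fun t => ψ (t + m)) (deriv ψ (s + m)) s :=
    (h.hasD (s + m)).comp_add_const s m
  have h2 : HasDerivAt (fun t => ψ (t + m)) (deriv ψ s) s := by
    simp only [h.perZ]; exact (h.hasD s).add_const _
  exact h1.unique h2

lemma deriv_eqv (h : Sp 𝒮 ψ) {σ : Sym c} (hσ : σ ∈ 𝒮) (s : ℝ) :
    deriv ψ (σ.k * s + σ.v.1) = deriv ψ s := by
  have h0 : HasDerivAt (fun t => σ.k * t + σ.v.1) σ.k s := by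
    simpa using ((hasDerivAt_id s).const_mul σ.k).add_const σ.v.1
  have h1 : HasDerivAt (fun t => ψ (σ.k * t + σ.v.1)) (deriv ψ (σ.k * s + σ.v.1) * σ.k) s :=
    (h.hasD _).comp s h0
  have h2 : HasDerivAt (fun t => ψ (σ.k * t + σ.v.1)) (σ.k * deriv ψ s) s := by
    simp only [h.eqv σ hσ]; exact ((h.hasD s).const_mul σ.k).add_const _
  have hk : σ.k ≠ 0 := by rcases σ.hk with e | e <;> simp [e]
  have := h1.unique h2
  rw [mul_comm] at this
  exact mul_left_cancel₀ hk this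

lemma dd_eq (h : Sp 𝒮 ψ) {f : Q → G} (hf : ContDiff ℝ ∞ f) (q : Q) :
    dd c (fun q : Q => f (ψ q.1, q.2)) q =
      (deriv ψ q.1 • (dd c f (ψ q.1, q.2)).1, (dd c f (ψ q.1, q.2)).2) := by
  have hk : HasFDerivAt (fun q : Q => ((ψ q.1, q.2) : Q))
      (((ContinuousLinearMap.fst ℝ ℝ ℝ).smulRight (deriv ψ q.1)).prod
        (ContinuousLinearMap.snd ℝ ℝ ℝ)) q :=
    ((h.hasD q.1).hasFDerivAt.comp q hasFDerivAt_fst).prodMk hasFDerivAt_snd
  have key : ∀ v, ap (dd c (fun q : Q => f (ψ q.1, q.2)) q) v =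
      ap (dd c f (ψ q.1, q.2)) (v.1 * deriv ψ q.1, v.2) := fun v => by
    rw [ap_dd_AA, ap_dd_AA, AA_comp c (hf.differentiable (by simp) _) hk]
    rfl
  refine Prod.ext ?_ ?_
  · simpa [ap] using key (1, 0)
  · simpa [ap] using key (0, 1)

lemma mix (h : Sp 𝒮 ψ) {a : ℝ} (a0 : 0 ≤ a) (a1 : a ≤ 1) :
    Sp 𝒮 (fun s => (1 - a) * s + a * ψ s) ∧
      ∀ s, deriv (fun s => (1 - a) * s + a * ψ s) s = (1 - a) + a * deriv ψ s := by
  have hd : ∀ s, deriv (fun s => (1 - a) * s + a * ψ s) s = (1 - a) + a * deriv ψ s := fun s => by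
    have := (((hasDerivAt_id s).const_mul (1 - a)).fun_add ((h.hasD s).const_mul a)).deriv
    simpa using this
  have := h.smooth
  refine ⟨⟨by fun_prop, fun s => ?_, fun s => by simp only [h.per]; ring,
    fun σ hσ s => by simp only [h.eqv σ hσ]; ring⟩, hd⟩
  rw [hd]
  have := h.pos s
  rcases a0.eq_or_lt with rfl | a0
  · simp
  · nlinarith [mul_pos a0 this]

end Sp

lemma inj_smul {A : G × G} (h : Inj A) {t : ℝ} (ht : 0 < t) : Inj (t • A.1, A.2) := fun a b hab => by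
  simp only [smul_smul] at hab
  obtain ⟨h1, h2⟩ := h _ _ hab
  exact ⟨(mul_eq_zero.1 h1).resolve_right ht.ne', h2⟩

lemma dl_smul (A : G × G) (t : ℝ) : dl (t • A.1, A.2) = t * dl A := by
  simp only [dl, Prod.smul_snd, Complex.smul_re, Complex.smul_im, smul_eq_mul]; ring

/-- The state with the first coordinate of the torus reparametrised. -/
noncomputable def str (x : St c 𝒮) {ψ : ℝ → ℝ} (h : Sp 𝒮 ψ) : St c 𝒮 where
  f q := x.f (ψ q.1, q.2)
  γ p := (deriv ψ p.2.1 • (x.γ (p.1, (ψ p.2.1, p.2.2))).1, (x.γ (p.1, (ψ p.2.1, p.2.2))).2)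
  emb :=
    { smooth := x.emb.smooth.comp ((h.smooth.comp contDiff_fst).prodMk contDiff_snd)
      equi := fun q m => by
        rw [← x.emb.equi]
        simp only [Prod.fst_add, Prod.snd_add, lat_fst, lat_snd, h.perZ]
        rfl
      inj := fun q q' e => by
        have := x.emb.inj e
        simp only [Prod.mk.injEq] at this
        exact Prod.ext ((strictMono_of_deriv_pos h.pos).injective this.1) this.2
      imm := fun q => by rw [h.dd_eq x.emb.smooth]; exact inj_smul (x.emb.imm _) (h.pos _) }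
  fam := by
    have h1 := h.smooth.continuous
    have h2 : Continuous (deriv ψ) := h.smooth.continuous_deriv (by simp)
    have h3 := x.fam.cont
    refine ⟨by fun_prop, fun s q m => ?_, fun s q s0 s1 => inj_smul (x.fam.inj s _ s0 s1) (h.pos _)⟩
    have := x.fam.per s (ψ q.1, q.2) m
    simp only [lat, Prod.mk_add_mk] at this
    simp only [Prod.fst_add, Prod.snd_add, lat_fst, lat_snd, h.perZ, h.deriv_perZ, this]
  g0 q := by rw [h.dd_eq x.emb.smooth]; simp only [x.g0]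
  g1 q := by rw [dl_smul]; exact mul_pos (h.pos _) (x.g1 _)
  ef σ hσ q := by
    rw [← x.ef σ hσ]
    simp only [Sym.a, aff, h.eqv σ hσ]
  eg σ hσ s q := by
    have := x.eg σ hσ s (ψ q.1, q.2)
    simp only [Sym.a, aff] at this
    rw [rho_smul, ← this]
    simp only [Sym.a, aff, h.eqv σ hσ, h.deriv_eqv hσ]

theorem stretch (x : St c 𝒮) (ψ : ℝ → ℝ) (h : Sp 𝒮 ψ) :
    ∃ y, Reach x y ∧ (∀ q : Q, Good x (ψ q.1, q.2) → Good y q) ∧
      ∀ q : Q, y.γ (1, q) =
        (deriv ψ q.1 • (x.γ (1, (ψ q.1, q.2))).1, (x.γ (1, (ψ q.1, q.2))).2) := by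
  have n0 := Real.smoothTransition.nonneg
  have n1 := Real.smoothTransition.le_one
  have hs : ContDiff ℝ ∞ Real.smoothTransition := Real.smoothTransition.contDiff
  have h0 := h.smooth
  refine ⟨str x h, ⟨fun l => str x (h.mix (n0 l) (n1 l)).1, ?_, ?_, St.ext ?_ ?_, St.ext ?_ ?_⟩,
    fun q hq s s0 s1 => ?_, fun q => rfl⟩
  · exact x.emb.smooth.comp (f := fun p : ℝ × Q => ((1 - Real.smoothTransition p.1) * p.2.1 +
      Real.smoothTransition p.1 * ψ p.2.1, p.2.2)) (by fun_prop)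
  · have h1 := h.smooth.continuous
    have h2 : Continuous (deriv ψ) := h.smooth.continuous_deriv (by simp)
    have h3 := x.fam.cont
    have h4 := hs.continuous
    simp only [str, (h.mix (n0 _) (n1 _)).2]
    fun_prop
  · funext q; simp [str]
  · funext p; simp [str]
  · funext q; simp [str]
  · funext p; simp [str]
  · simp only [str, h.dd_eq x.emb.smooth, hq s s0 s1]

end Global
end Pool.Agent.Lib.MP_72f1d0_gt
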