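import Mathlib
import Pool.Agent.Lib.MP_72f1d0_gt.GlobalA

/-! Equivariant formal transverse embeddings: local stages and the global statement. -/

open scoped ContDiff Topology
open Set

namespace Pool.Agent.Lib.MP_72f1d0_gt
namespace Global

variable {c : Ctx} {𝒮 : Set (Sym c)}

lemma cl_of_nonpos {s : ℝ} (h : s ≤ 0) : cl s = 0 := by
  rw [cl, min_eq_left (by linarith), max_eq_left h]

lemma cl_of_one_le {s : ℝ} (h : 1 ≤ s) : cl s = 1 := by
  rw [cl, min_eq_right h, max_eq_right zero_le_one]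

lemma cl_proj (s : ℝ) : cl s = (projIcc 0 1 zero_le_one s : ℝ) := by
  rw [coe_projIcc, cl, min_comm]

lemma mix_mem {u t : ℝ} (_u0 : 0 ≤ u) (u1 : u ≤ 1) (t0 : 0 ≤ t) (t1 : t ≤ 1) :
    u ≤ u + (1 - u) * t ∧ u + (1 - u) * t ≤ 1 := by
  constructor <;> nlinarith

lemma hasNF (hF : FramesStmt) (x : St c 𝒮) {u : Q → ℝ} (hc : Continuous u) (hp : Per u)
    (hm : ∀ q, 0 ≤ u q ∧ u q ≤ 1) :
    HasNF (fun q => x.γ (u q, q)) {q | u q = 1 ∨ Good x q} := by
  have hγ := x.fam.cont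
  obtain ⟨C, C', hC, -, hCp, -, -, hCC, -, hK, hI⟩ :=
    hF (fun p => x.γ (u p.2 + (1 - u p.2) * p.1, p.2)) (by fun_prop)
      (fun s q m => by
        have e := x.fam.per (u q + (1 - u q) * s) q m
        simp only at e ⊢
        rw [hp q m, e])
      fun s q s0 s1 => x.fam.inj _ q ((hm q).1.trans (mix_mem (hm q).1 (hm q).2 s0 s1).1)
        (mix_mem (hm q).1 (hm q).2 s0 s1).2
  refine ⟨fun q => C (0, q) vX, fun q => C (0, q) vW, by fun_prop, by fun_prop,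
    fun q m => ?_, fun q m => ?_, fun q a b d e h => ?_, fun q hq => ?_⟩
  · have := hCp 0 q m
    simp only at this ⊢
    rw [this]
  · have := hCp 0 q m
    simp only at this ⊢
    rw [this]
  · obtain ⟨h1, h2⟩ := hK 0 q le_rfl zero_le_one
    simp only [mul_one, mul_zero, add_zero, add_sub_cancel] at h1 h2 h
    rw [← h1, ← h2, ← map_smul, ← map_smul, ← map_smul, ← map_smul, ← map_add, ← map_add,
      ← map_add] at h
    refine ind4_of_dl (x.g1 q).ne' a b d e ?_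
    rw [← hCC (0, q) (_ + _), h, map_zero]
  · have : ∀ s v, C (s, q) v = v := hI q fun s s0 s1 => by
      rcases hq with hq | hq
      · simp [hq]
      · have e := mix_mem (hm q).1 (hm q).2 s0 s1
        simp only [mul_one, add_sub_cancel]
        rw [hq _ ((hm q).1.trans e.1) e.2, hq 1 zero_le_one le_rfl]
    exact ⟨this _ _, this _ _⟩

/-- The state built from an equivariant local deformation whose end is on the formal path. -/
lemma reach_ls (x : St c 𝒮) {ε : ℝ} (D : LS c x.f univ ε)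
    (e1 : ∀ σ ∈ 𝒮, ∀ l s q, D.H l (σ.a q) = σ.B (D.H l q) ∧
      D.Kf (l, s, σ.a q) = σ.ρ (D.Kf (l, s, q)) ∧ D.u (σ.a q) = D.u q)
    (hm : ∀ q, 0 ≤ D.u q ∧ D.u q ≤ 1) (h1 : ∀ l q, D.Kf (l, 1, q) = x.γ (D.u q, q))
    (h0 : ∀ s q, D.Kf (0, s, q) = x.γ (D.u q * cl s, q)) :
    ∃ y, Reach x y ∧ y.f = D.H 1 ∧ ∀ s q, y.γ (s, q) = if s ≤ 1 / 2 then D.Kf (1, 2 * s, q)
      else x.γ (D.u q + (1 - D.u q) * cl (2 * s - 1), q) := by
  have hγ := x.fam.cont
  have hK := D.cont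
  have hu := D.ucont
  let Γ : ℝ × ℝ × Q → G × G := fun p => if p.2.1 ≤ 1 / 2 then D.Kf (p.1, 2 * p.2.1, p.2.2)
    else x.γ (D.u p.2.2 + (1 - D.u p.2.2) * cl (2 * p.2.1 - 1), p.2.2)
  have hΓ : Continuous Γ := by
    refine Continuous.if_le (by fun_prop) (by fun_prop) (by fun_prop) continuous_const
      fun p hp => ?_
    rw [hp]
    norm_num [h1]
  have hh : ¬ ((1 : ℝ) ≤ 1 / 2) := by norm_num
  let z : ℝ → St c 𝒮 := fun l =>
    { f := D.H l
      γ := fun p => Γ (l, p)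
      emb := D.emb l
      fam := ⟨hΓ.comp (by fun_prop), fun s q m => by
          have a1 := D.per l (2 * s) q m
          have a2 := x.fam.per (D.u q + (1 - D.u q) * cl (2 * s - 1)) q m
          simp only at a1 a2
          simp only [Γ, D.uper q m, a1, a2],
        fun s q _ _ => by
          simp only [Γ]
          split_ifs
          · exact D.inj _
          · have e := mix_mem (hm q).1 (hm q).2 (cl_nonneg (2 * s - 1)) (cl_le_one _)
            exact x.fam.inj _ q ((hm q).1.trans e.1) e.2⟩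
      g0 := fun q => by simp [Γ, D.k0]
      g1 := fun q => by
        simp only [Γ, hh, if_false]
        norm_num
        exact x.g1 q
      ef := fun σ hσ q => (e1 σ hσ l 0 q).1
      eg := fun σ hσ s q => by
        simp only [Γ]
        split_ifs
        · exact (e1 σ hσ l _ q).2.1
        · rw [(e1 σ hσ l 0 q).2.2, x.eg σ hσ] }
  have hφ : Rp 𝒮 fun p => D.u p.2 * cl (2 * p.1) + (1 - D.u p.2) * cl (2 * p.1 - 1) :=
    ⟨by fun_prop, fun s q m => by simp only [D.uper q m],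
      fun σ hσ s q => by simp only [(e1 σ hσ 0 0 q).2.2], fun s q _ _ => by
        obtain ⟨a, b⟩ := hm q
        have := cl_nonneg (2 * s)
        have := cl_le_one (2 * s)
        have := cl_nonneg (2 * s - 1)
        have := cl_le_one (2 * s - 1)
        constructor <;> nlinarith,
      fun q => by simp [cl_of_nonpos]⟩
  refine ⟨z 1, trans x (z 0) (z 1) (reach_rep x (z 0) hφ (fun l q _ _ => ?_) D.h0 fun p => ?_)
    ⟨z, D.smooth, hΓ, rfl, rfl⟩, rfl, fun s q => rfl⟩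
  · have e : (1 - l) * 1 + l * (D.u q * cl (2 * 1) + (1 - D.u q) * cl (2 * 1 - 1)) = 1 := by
      rw [cl_of_one_le (by norm_num), cl_of_one_le (by norm_num)]; ring
    rw [e]
    exact x.g1 q
  · simp only [z, Γ]
    split_ifs with hp
    · rw [h0, cl_of_nonpos (by linarith : 2 * p.1 - 1 ≤ 0), mul_zero, add_zero]
    · rw [cl_of_one_le (by linarith : 1 ≤ 2 * p.1), mul_one]

theorem setup (hF : FramesStmt) (x : St c 𝒮) (K : Set Q) (h : SymOK 𝒮 K) (u : Q → ℝ)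
    (hc : Continuous u) (hp : Per u) (hm : ∀ q, 0 ≤ u q ∧ u q ≤ 1) (hK : ∀ q, q ∉ K → u q = 0) :
    ∃ (E : R.II (x.rel h)) (γ : Path (x.embR h).d E),
      (∀ (t : UI) q, γ t q = x.γ (u q * t, q)) ∧ HasNF E {q | u q = 1 ∨ Good x q} ∧
      ∃ ε : ℝ, 0 < ε ∧ ∀ P : Q → G × G → Prop, R.Loc (x.embR h) γ P ε →
        ∃ y, Reach x y ∧ (∀ q ∈ K, ∀ s, 0 ≤ s → s ≤ 1 → P q (y.γ (s, q)) ∨
            ∃ s', u q ≤ s' ∧ s' ≤ 1 ∧ y.γ (s, q) = x.γ (s', q)) ∧
          ∀ q, (∃ q' ∈ K, Orb 𝒮 q' q) ∨ (Good x q → Good y q) := by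
  have hγ := x.fam.cont
  have fam : R.IsFam (x.rel h) fun p : ℝ × Q => x.γ (u p.2 * p.1, p.2) :=
    ⟨by fun_prop, fun s q m => by
        have e := x.fam.per (u q * s) q m
        simp only at e ⊢
        rw [hp q m, e],
      fun s q s0 s1 => x.fam.inj _ q (mul_nonneg (hm q).1 s0) (by nlinarith [hm q]),
      fun s q _ _ hq => by simp only [hK q hq, zero_mul, x.g0]; rfl⟩
  let E : R.II (x.rel h) := R.II.mk' (fun q => x.γ (u q, q)) (by fun_prop)
    (fun q m => by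
      have e := x.fam.per (u q) q m
      simp only at e ⊢
      rw [hp q m, e])
    (fun q => x.fam.inj _ q (hm q).1 (hm q).2) fun q hq => by simp only [hK q hq, x.g0]; rfl
  let γ : Path (x.embR h).d E := R.mkPath fam (fun q => by simp [x.g0]) fun q => by simp [E]
  obtain ⟨ε, hε, hs⟩ := h.2.2 x.f x.emb x.ef
  refine ⟨E, γ, fun t q => rfl, hasNF hF x hc hp hm, ε, hε, fun P hP => ?_⟩
  obtain ⟨F, J, Kf, k1, k2, k3, k4, k5, k6, k7, k8⟩ := hP.sol
  let D : LS c x.f K ε :=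
    { H := J.H, Kf := Kf, u := u, smooth := J.smooth, emb := J.emb, h0 := J.h0, near := J.near
      cont := k1, per := k2, inj := k3, k0 := k5, ucont := hc, uper := hp
      out := fun l s q hq => ⟨J.out l q hq, k4 l s q hq, hK q hq⟩ }
  obtain ⟨D', e1, e2, e3⟩ := hs D
  have A : ∀ q, (0 ≤ D'.u q ∧ D'.u q ≤ 1) ∧ (∀ l, D'.Kf (l, 1, q) = x.γ (D'.u q, q)) ∧
      ∀ s, D'.Kf (0, s, q) = x.γ (D'.u q * cl s, q) := by
    intro q
    rcases e3 q with ⟨q', hq', ho⟩ | hq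
    · refine ho (fun q => (0 ≤ D'.u q ∧ D'.u q ≤ 1) ∧ (∀ l, D'.Kf (l, 1, q) = x.γ (D'.u q, q)) ∧
        ∀ s, D'.Kf (0, s, q) = x.γ (D'.u q * cl s, q)) ?_ ?_ ?_
      · rintro σ hσ y ⟨a1, a2, a3⟩
        rw [(e1 σ hσ 0 0 y).2.2]
        exact ⟨a1, fun l => by rw [(e1 σ hσ l 1 y).2.1, a2, x.eg σ hσ],
          fun s => by rw [(e1 σ hσ 0 s y).2.1, a3, x.eg σ hσ]⟩
      · rintro y m ⟨a1, a2, a3⟩
        rw [D'.uper y m]
        exact ⟨a1, fun l => (D'.per l 1 y m).trans ((a2 l).trans (x.fam.per _ y m).symm),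
          fun s => (D'.per 0 s y m).trans ((a3 s).trans (x.fam.per _ y m).symm)⟩
      · rw [(e2 q' hq' 0 0).2.2]
        refine ⟨hm q', fun l => (e2 q' hq' l 1).2.1.trans (k6 l q'),
          fun s => (e2 q' hq' 0 s).2.1.trans ((k7 s q').trans ?_)⟩
        rw [cl_proj]
        rfl
    · rw [(hq 0 0).2.2]
      exact ⟨⟨le_rfl, zero_le_one⟩, fun l => by rw [(hq l 1).2.1, x.g0],
        fun s => by rw [(hq 0 s).2.1, zero_mul, x.g0]⟩
  obtain ⟨y, hy, yf, yγ⟩ := reach_ls x D' e1 (fun q => (A q).1) (fun l q => (A q).2.1 l)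
    fun s q => (A q).2.2 s
  refine ⟨y, hy, fun q hq s _ _ => ?_, fun q => (e3 q).imp id fun hq hg s _ _ => ?_⟩
  · rw [yγ]
    split_ifs
    · exact Or.inl ((e2 q hq 1 (2 * s)).2.1 ▸ k8 (2 * s) q)
    · rw [(e2 q hq 0 0).2.2]
      have e := mix_mem (hm q).1 (hm q).2 (cl_nonneg (2 * s - 1)) (cl_le_one _)
      exact Or.inr ⟨_, e.1, e.2, rfl⟩
  · rw [yγ, yf, ← D'.k0, (hq 1 0).2.1]
    split_ifs
    · exact (hq 1 _).2.1
    · have e := mix_mem (A q).1.1 (A q).1.2 (cl_nonneg (2 * s - 1)) (cl_le_one _)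
      exact hg _ ((A q).1.1.trans e.1) e.2

theorem iso (x : St c 𝒮) (K : Set Q) (h : SymOK 𝒮 K) (hg : ∀ q ∈ K, Good x q) :
    ∃ ε : ℝ, 0 < ε ∧ ∀ (F : Q → G) (J : Iso c x.f F),
      (∀ l q, q ∉ K → J.H l q = x.f q) → (∀ l q, ‖J.H l q - x.f q‖ ≤ ε) →
      (∀ l, ∀ q ∈ K, 0 < dl (dd c (J.H l) q)) →
      ∃ y, Reach x y ∧ (∀ q, Good x q → Good y q) ∧ (∀ q ∈ K, y.γ (1, q) = dd c F q) ∧
        ∀ q, (∃ q' ∈ K, Orb 𝒮 q' q) ∨ y.γ (1, q) = x.γ (1, q) := by
  obtain ⟨ε, hε, hs⟩ := h.2.2 x.f x.emb x.ef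
  refine ⟨ε, hε, fun F J ho hn hd => ?_⟩
  let D : LS c x.f K ε :=
    { H := J.H, Kf := fun p => dd c (J.H p.1) p.2.2, u := fun _ => 0, smooth := J.smooth
      emb := J.emb, h0 := J.h0, near := hn
      cont := J.dd_cont.comp (f := fun p : ℝ × ℝ × Q => (p.1, p.2.2)) (by fun_prop)
      per := fun l _ => (J.emb l).dd_per, inj := fun p => (J.emb p.1).imm _
      k0 := fun _ _ => rfl, ucont := continuous_const, uper := per_const _
      out := fun l s q hq => ⟨ho l q hq,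
        dd_congr_open c h.1.isOpen_compl (fun q hq => ho l q hq) hq, rfl⟩ }
  obtain ⟨D', e1, e2, e3⟩ := hs D
  have B : ∀ q, (∃ q' ∈ K, Orb 𝒮 q' q) → Good x q ∧ ∀ l, 0 < dl (D'.Kf (l, 0, q)) := by
    rintro q ⟨q', hq', hq⟩
    refine hq (fun q => Good x q ∧ ∀ l, 0 < dl (D'.Kf (l, 0, q))) ?_ ?_ ?_
    · rintro σ hσ y ⟨a1, a2⟩
      exact ⟨good_sym x hσ a1, fun l => by rw [(e1 σ hσ l 0 y).2.1, dl_rho]; exact a2 l⟩
    · rintro y m ⟨a1, a2⟩
      exact ⟨good_lat x m a1, fun l => (congrArg dl (D'.per l 0 y m)).symm ▸ a2 l⟩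
    · exact ⟨hg q' hq', fun l => by rw [(e2 q' hq' l 0).2.1]; exact hd l q' hq'⟩
  let Γ : ℝ × ℝ × Q → G × G := fun p => x.γ p.2 + (D'.Kf (p.1, 0, p.2.2) - x.γ (0, p.2.2))
  have hΓ : Continuous Γ := by
    have hγ := x.fam.cont
    have hK := D'.cont
    fun_prop
  have on : ∀ l s q, Good x q → 0 ≤ s → s ≤ 1 → Γ (l, s, q) = D'.Kf (l, 0, q) :=
    fun l s q hq s0 s1 => by simp only [Γ, hq s s0 s1, x.g0, add_sub_cancel]
  have off : ∀ l s q, D'.Kf (l, 0, q) = dd c x.f q → Γ (l, s, q) = x.γ (s, q) :=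
    fun l s q hq => by simp only [Γ, hq, x.g0, sub_self, add_zero]
  let z : ℝ → St c 𝒮 := fun l =>
    { f := D'.H l
      γ := fun p => Γ (l, p)
      emb := D'.emb l
      fam := ⟨hΓ.comp (by fun_prop), fun s q m => by
          have a1 := D'.per l 0 q m
          have a2 := x.fam.per s q m
          have a3 := x.fam.per 0 q m
          simp only at a1 a2 a3
          simp only [Γ, a1, a2, a3],
        fun s q s0 s1 => by
          rcases e3 q with hq | hq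
          · rw [on l s q (B q hq).1 s0 s1]; exact D'.inj _
          · rw [off l s q (hq l 0).2.1]; exact x.fam.inj s q s0 s1⟩
      g0 := fun q => by simp only [Γ, add_sub_cancel, D'.k0]
      g1 := fun q => by
        rcases e3 q with hq | hq
        · rw [on l 1 q (B q hq).1 zero_le_one le_rfl]; exact (B q hq).2 l
        · rw [off l 1 q (hq l 0).2.1]; exact x.g1 q
      ef := fun σ hσ q => (e1 σ hσ l 0 q).1
      eg := fun σ hσ s q => by
        simp only [Γ, rho_add_sub, x.eg σ hσ, (e1 σ hσ l 0 q).2.1] }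
  refine ⟨z 1, ⟨z, D'.smooth, hΓ, St.ext D'.h0 ?_, rfl⟩, fun q hq s s0 s1 => ?_, fun q hq => ?_,
    fun q => (e3 q).imp id fun hq => off 1 1 q (hq 1 0).2.1⟩
  · funext p
    exact off 0 p.1 p.2 (by rw [D'.k0, D'.h0])
  · exact (on 1 s q hq s0 s1).trans (D'.k0 1 q)
  · refine (on 1 1 q (hg q hq) zero_le_one le_rfl).trans ((e2 q hq 1 0).2.1.trans ?_)
    simp only [D, J.h1]

end Global

theorem global (hF : FramesStmt) : GlobalStmt where
  trans _ _ := Global.trans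
  zr _ _ := Global.zr
  trunc _ _ := Global.trunc
  stretch _ _ x ψ h1 h2 h3 h4 := Global.stretch x ψ ⟨h1, h2, h3, h4⟩
  setup _ _ := Global.setup hF
  iso _ _ := Global.iso
  orb _ _ := Global.orb

end Pool.Agent.Lib.MP_72f1d0_gt
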