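import Pool.Agent.Lib.MP_72f1d0_gt.ML

/-! Uniform smallness of the displacement. -/

namespace Pool.Agent.Lib.MP_72f1d0_gt

theorem disp_small {V : Type*} [NormedAddCommGroup V] [ProperSpace V] {c : Ctx} {f : Q → G}
    {Φ : Q × V → G} (hΦ : Continuous Φ)
    (hp : ∀ q m v, Φ (q + lat m, v) = Φ (q, v) + c.i (lat m)) (h0 : ∀ q, Φ (q, 0) = f q)
    {ε : ℝ} (hε : 0 < ε) : ∃ ρ : ℝ, 0 < ρ ∧ ∀ q v, ‖v‖ ≤ ρ → ‖Φ (q, v) - f q‖ ≤ ε := by
  obtain ⟨δ, hδ, h1, h⟩ := MLC.unif (V := V) (g := fun x : Q × V => Φ x - Φ (x.1, 0))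
    (hΦ.sub (hΦ.comp (continuous_fst.prodMk continuous_const)))
    (fun q m v => by simp only [hp, add_sub_add_right_eq_sub]) hε
  refine ⟨δ, hδ, fun q v hv => ?_⟩
  simpa [h0] using h q q 0 v (by simp) (hv.trans h1) (by simpa using hδ.le) (by simpa using hv)

end Pool.Agent.Lib.MP_72f1d0_gt
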