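import Mathlib
import Pool.Agent.Lib.MP_72f1d0_gt.Near
import Pool.Agent.Lib.MP_72f1d0_gt.Defs3

/-! Small graphs in a given normal direction. -/

open scoped ContDiff Topology
open Set

namespace Pool.Agent.Lib.MP_72f1d0_gt

theorem lt (hM : MLStmt) : LTStmt := by
  intro c f hf ζ sζ pζ hind Cb κ hκ
  have hfd : Differentiable ℝ f := hf.smooth.differentiable (by simp)
  set N : Q → G := fun q => c.e (f q) (ζ q) with hN
  have sN : ContDiff ℝ ∞ N := (c.e_smooth.comp hf.smooth).clm_apply sζ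
  set Φ : Q × ℝ → G := fun z => f z.1 + z.2 • N z.1 with hΦ
  have sΦ : ContDiff ℝ ∞ Φ :=
    (hf.smooth.comp contDiff_fst).add (contDiff_snd.smul (sN.comp contDiff_fst))
  have pΦ : ∀ q k v, Φ (q + lat k, v) = Φ (q, v) + c.i (lat k) := fun q k v => by
    simp only [hΦ, hN, hf.equi, c.e_per, pζ q k]
    abel
  have Φ0 : ∀ q, Φ (q, 0) = f q := fun q => by simp [hΦ]
  have hA0 : ∀ q v (y : ℝ), AA c Φ (q, 0) (v, y) = ap (dd c f q) v + y • ζ q := fun q v y => by
    have hfst : HasFDerivAt (fun z : Q × ℝ => z.1) (ContinuousLinearMap.fst ℝ Q ℝ) (q, 0) :=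
      hasFDerivAt_fst
    have hsnd : HasFDerivAt (fun z : Q × ℝ => z.2) (ContinuousLinearMap.snd ℝ Q ℝ) (q, 0) :=
      hasFDerivAt_snd
    have d0 := HasFDerivAt.comp (q, (0 : ℝ)) (hfd q).hasFDerivAt hfst
    have d1 := HasFDerivAt.comp (q, (0 : ℝ)) (sN.differentiable (by simp) q).hasFDerivAt hfst
    have d : HasFDerivAt Φ _ (q, 0) := d0.add (hsnd.smul d1)
    rw [AA, ContinuousLinearMap.comp_apply, d.fderiv, Φ0, ap_dd]
    simp [hN, c.om_e]
  have hdd := hf.dd_smooth.continuous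
  have cζ := sζ.continuous
  obtain ⟨m, hm, hm'⟩ := cone_bound0 (V := Q × ℝ) (S := univ) isClosed_univ
    (fun _ _ _ _ => mem_univ _) (fun _ _ _ _ _ => mem_univ _)
    (φ := fun x : Q × Q × ℝ => ap (dd c f x.1) x.2.1 + x.2.2 • ζ x.1)
    ((continuous_ap.comp (f := fun x : Q × Q × ℝ => (dd c f x.1, x.2.1)) (by fun_prop)).add
      (by fun_prop))
    (fun v q k => by simp only [hf.dd_per q k, pζ q k])
    (fun q v t _ => by simp only [ap, Prod.smul_fst, Prod.smul_snd, smul_eq_mul]; module)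
    fun ⟨q, v⟩ _ h => by
      obtain ⟨h1, h2, h3⟩ := hind q v.1.1 v.2 v.1.2 (by rw [← h]; simp only [ap]; abel)
      exact Prod.ext (Prod.ext h1 h3) h2
  set L : ℝ := |Cb| + 1 with hL
  have hL0 : 0 < L := by positivity
  obtain ⟨ρ, hρ, ml1, ml2⟩ := hM c f hf ℝ Φ sΦ pΦ Φ0 (min (m / 2) (κ / L)) (by positivity)
  obtain ⟨ρ', hρ', hn⟩ := disp_small sΦ.continuous pΦ Φ0 hκ
  refine ⟨min ρ ρ', lt_min hρ hρ', fun h sh ph hh hd => ?_⟩
  have st0 := Real.smoothTransition.nonneg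
  have st1 := Real.smoothTransition.le_one
  set H : ℝ → Q → G := fun l q => Φ (q, Real.smoothTransition l * h q) with hH
  have sH : ContDiff ℝ ∞ fun x : ℝ × Q => H x.1 x.2 :=
    sΦ.comp (contDiff_snd.prodMk ((Real.smoothTransition.contDiff.comp contDiff_fst).mul
      (sh.comp contDiff_snd)))
  have hw : ∀ l q, ‖Real.smoothTransition l * h q‖ ≤ min ρ ρ' := fun l q => by
    rw [Real.norm_eq_abs, abs_mul, abs_of_nonneg (st0 l)]
    nlinarith [hh q, abs_nonneg (h q), st0 l, st1 l]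
  have hw1 := fun l q => (hw l q).trans (min_le_left _ _)
  have e : ∀ l q v, ap (dd c (H l) q) v = AA c Φ (q, Real.smoothTransition l * h q)
      (v, Real.smoothTransition l * fderiv ℝ h q v) := fun l q v => by
    rw [ap_dd_AA, AA_comp c (k := fun q => (q, Real.smoothTransition l * h q))
      (sΦ.differentiable (by simp) _) ((hasFDerivAt_id q).prodMk
        ((sh.differentiable (by simp) q).hasFDerivAt.const_mul _))]
    rfl
  have key : ∀ l q (z : Q × ℝ), ‖AA c Φ (q, Real.smoothTransition l * h q) z -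
      (ap (dd c f q) z.1 + z.2 • ζ q)‖ ≤ min (m / 2) (κ / L) * ‖z‖ := fun l q z => by
    rw [← hA0, ← sub_apply]
    exact ContinuousLinearMap.le_of_opNorm_le _ (ml1 q _ (hw1 l q)) z
  have zero : ∀ q (z : Q × ℝ), ‖ap (dd c f q) z.1 + z.2 • ζ q‖ ≤ min (m / 2) (κ / L) * ‖z‖ →
      z.1 = 0 := fun q z hz => by
    have h1 : m * ‖z‖ ≤ ‖ap (dd c f q) z.1 + z.2 • ζ q‖ := hm' (q, z) (mem_univ _)
    have h2 : min (m / 2) (κ / L) * ‖z‖ ≤ m / 2 * ‖z‖ := by gcongr; exact min_le_left _ _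
    have h3 : ‖z‖ ≤ 0 := by nlinarith [norm_nonneg z]
    rw [norm_le_zero_iff.1 h3]; rfl
  have emb : ∀ l, IsEmb c (H l) := fun l => by
    refine ⟨sH.comp (contDiff_const.prodMk contDiff_id), fun q k => ?_, fun q q' hq => ?_,
      fun q => inj_iff_ap.2 fun v hv => ?_⟩
    · simp only [hH, ph q k, pΦ]
    · have b1 := ml2 q q' _ _ (hw1 l q) (hw1 l q') hq
      rw [hA0] at b1
      exact (sub_eq_zero.1 (zero q (_, _) b1)).symm
    · have b1 := key l q (v, Real.smoothTransition l * fderiv ℝ h q v)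
      rw [← e, hv, zero_sub, norm_neg] at b1
      exact zero q _ b1
  refine ⟨H 1, ⟨H, sH, emb, funext fun q => by simp [hH, Φ0], rfl⟩, fun l q hq => by
    simp [hH, hq, Φ0], fun l q => hn q _ ((hw l q).trans (min_le_right _ _)), fun l q =>
      ⟨Real.smoothTransition l, st0 l, st1 l, fun hl => by rw [hl, Real.smoothTransition.one], ?_⟩⟩
  have fin : ∀ v : Q, ‖v‖ ≤ 1 → |fderiv ℝ h q v| ≤ Cb → ‖ap (dd c (H l) q) v -
      (ap (dd c f q) v + (Real.smoothTransition l * fderiv ℝ h q v) • ζ q)‖ ≤ κ := fun v v1 v2 => by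
    rw [e]
    refine (key l q (v, _)).trans ?_
    have n1 : ‖(v, Real.smoothTransition l * fderiv ℝ h q v)‖ ≤ L := by
      rw [Prod.norm_def, max_le_iff, Real.norm_eq_abs, abs_mul, abs_of_nonneg (st0 l)]
      constructor
      · linarith [abs_nonneg Cb]
      · nlinarith [le_abs_self Cb, abs_nonneg (fderiv ℝ h q v), st0 l, st1 l]
    calc _ ≤ κ / L * L := by gcongr; exact min_le_right _ _
      _ = κ := by field_simp
  rw [Prod.norm_def, max_le_iff]
  exact ⟨by simpa using fin (1, 0) (by simp) (hd q).1, by simpa using fin (0, 1) (by simp) (hd q).2⟩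

end Pool.Agent.Lib.MP_72f1d0_gt
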