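import Mathlib
import Pool.Agent.Lib.MP_72f1d0_gt.Formal

/-! The stage that moves only the first vector, part 1: the gauge reduction of the formal path. -/

open scoped ContDiff Topology
open Set Filter

namespace Pool.Agent.Lib.MP_72f1d0_gt

namespace Move

/-- The gauge map sending `n` to `n'`. -/
noncomputable def T (n n' m : G) : G :=
  (m.1 + (m.2 / n.2).re • (n'.1 - n.1), m.2 * n'.2 / n.2)

lemma T_self {n : G} (h : n.2 ≠ 0) (m : G) : T n n m = m := by
  unfold T
  ext1
  · simp
  · simp only; field_simp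

lemma T_map {n : G} (h : n.2 ≠ 0) (n' : G) : T n n' n = n' := by
  unfold T
  ext1
  · simp [div_self h]
  · simp only; field_simp

lemma T_lin (n n' x y : G) (a b : ℝ) :
    T n n' (a • x + b • y) = a • T n n' x + b • T n n' y := by
  unfold T
  ext1
  · simp only [Prod.fst_add, Prod.smul_fst, Prod.snd_add, Prod.smul_snd, add_div, smul_div_assoc,
      Complex.add_re, Complex.smul_re, smul_eq_mul, add_smul, mul_smul, smul_add]
    abel
  · simp only [Prod.snd_add, Prod.smul_snd, Complex.real_smul]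
    ring

lemma T_inj {n n' : G} (h : n.2 ≠ 0) (h' : n'.2 ≠ 0) {m : G} (hm : T n n' m = 0) : m = 0 := by
  have h2 : m.2 = 0 := by
    have := congrArg Prod.snd hm
    simpa [T, h, h'] using this
  have h1 : m.1 = 0 := by
    have := congrArg Prod.fst hm
    simpa [T, h2] using this
  exact Prod.ext h1 h2

lemma T_Inj {m n n' : G} (h : n.2 ≠ 0) (h' : n'.2 ≠ 0) (hi : Inj (m, n)) : Inj (T n n' m, n') := by
  intro a b hab
  refine hi a b (T_inj h h' ?_)
  rw [T_lin, T_map h]
  exact hab

lemma T_dl {m n n' : G} (h : n.2 ≠ 0) (h' : n'.2 ≠ 0) (hd : 0 < dl (m, n)) :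
    0 < dl (T n n' m, n') := by
  have e : dl (T n n' m, n') = Complex.normSq n'.2 / Complex.normSq n.2 * dl (m, n) := by
    have h0 : Complex.normSq n.2 ≠ 0 := by simpa using h
    simp only [dl, T, Complex.div_re, Complex.div_im, Complex.mul_re, Complex.mul_im]
    rw [Complex.normSq_apply n'.2]
    field_simp
    ring
  rw [e]
  have := Complex.normSq_pos.2 h
  have := Complex.normSq_pos.2 h'
  positivity

lemma T_cont {Y : Type*} [TopologicalSpace Y] {n n' m : Y → G} (hn : Continuous n)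
    (hn' : Continuous n') (hm : Continuous m) (h : ∀ y, (n y).2 ≠ 0) :
    Continuous fun y => T (n y) (n' y) (m y) := by
  unfold T
  have h1 : Continuous fun y => ((m y).2 / (n y).2).re :=
    Complex.continuous_re.comp (hm.snd.div hn.snd h)
  have h2 : Continuous fun y => (m y).2 * (n' y).2 / (n y).2 := (hm.snd.mul hn'.snd).div hn.snd h
  have h3 : Continuous fun y => (m y).1 + ((m y).2 / (n y).2).re • ((n' y).1 - (n y).1) := by
    fun_prop
  exact h3.prodMk h2

/-- A path along which the second vector stays off `D` splits into a path with constant second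
vector and a path of transverse pairs. -/
lemma split {A N : II} (γ : Path A N) (hN : ∀ q, 0 < dl (N q)) (h : PW γ fun _ x => x.2.2 ≠ 0) :
    ∃ (M : II) (α : Path A M) (Λ : Path M N), hc γ = (hc α).trans (hc Λ) ∧
      PW α (fun q x => x.2 = (A q).2) ∧ (∀ t q, 0 < dl (γ t q) → 0 < dl (α t q)) ∧
      PW Λ fun q x => 0 < dl x ∧ ∃ t, x.2 = (γ t q).2 := by
  have hγ := ext_cont γ
  have hne : ∀ s q, (γ.extend s q).2.2 ≠ 0 := fun s q => h.extend s q
  let K : ℝ × ℝ × Q → G × G := fun z =>
    (T (γ.extend z.2.1 z.2.2).2 (γ.extend (z.1 * z.2.1) z.2.2).2 (γ.extend z.2.1 z.2.2).1,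
      (γ.extend (z.1 * z.2.1) z.2.2).2)
  have c1 : Continuous fun z : ℝ × ℝ × Q => γ.extend z.2.1 z.2.2 :=
    hγ.comp (f := fun z : ℝ × ℝ × Q => (z.2.1, z.2.2)) (by fun_prop)
  have c2 : Continuous fun z : ℝ × ℝ × Q => γ.extend (z.1 * z.2.1) z.2.2 :=
    hγ.comp (f := fun z : ℝ × ℝ × Q => (z.1 * z.2.1, z.2.2)) (by fun_prop)
  have hK : Continuous K := (T_cont c1.snd c2.snd c1.fst fun z => hne _ _).prodMk c2.snd
  have hKp : ∀ a b, Per fun q => K (a, b, q) := fun a b q m => by
    simp only [K, (γ.extend _).per q m]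
  have hKi : ∀ a b q, Inj (K (a, b, q)) := fun a b q =>
    T_Inj (hne _ _) (hne _ _) ((γ.extend b).inj q)
  let M : II := II.mk' (fun q => K (0, 1, q)) (hK.comp (by fun_prop)) (hKp 0 1) (hKi 0 1)
  have f1 : IsFam fun x : ℝ × Q => K (0, x.1, x.2) :=
    ⟨hK.comp (by fun_prop), hKp 0, fun s q _ _ => hKi 0 s q⟩
  have f2 : IsFam fun x : ℝ × Q => K (x.1, 1, x.2) :=
    ⟨hK.comp (by fun_prop), fun s => hKp s 1, fun s q _ _ => hKi s 1 q⟩
  have e0 : ∀ a q, K (a, 0, q) = A q := fun a q => by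
    simp only [K, mul_zero, Path.extend_zero]
    rw [T_self (by simpa using hne 0 q)]
  have e1 : ∀ b q, K (1, b, q) = γ.extend b q := fun b q => by
    simp only [K, one_mul]
    rw [T_self (hne b q)]
  refine ⟨M, mkPath f1 (e0 0) (fun q => rfl), mkPath f2 (fun q => rfl)
    (fun q => by rw [e1]; simp), ?_, fun t q => ?_, fun t q hd => ?_, fun t q => ⟨?_, ?_⟩⟩
  · rw [← Path.Homotopic.Quotient.refl_trans (hc γ), ← hc_refl, ← hc_trans, ← hc_trans, hc_eq]
    exact square hK hKp (fun a b q _ _ _ _ => hKi a b q) (fun u q => (e0 u q).symm)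
      (fun u q => by rw [e1]; simp) (fun u q => rfl) (fun u q => rfl)
  · simp [K]
  · simp only [mkPath_apply, K]
    refine T_dl (hne _ _) (hne _ _) ?_
    simpa using hd
  · simp only [mkPath_apply, K]
    refine T_dl (hne _ _) (hne _ _) ?_
    simpa using hN q
  · exact ⟨t, by simp [K]⟩

/-- Steps 1 and 2: gauge and truncate. -/
lemma reduce {A N : II} (γ : Path A N) {d : Q → ℝ} (hd : Continuous d) (hdp : Per d)
    (hN : ∀ q, 0 < dl (N q)) (h : PW γ fun _ x => x.2.2 ≠ 0)
    (h3 : PW γ fun q x => d q ≤ 3 → 0 < dl x) :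
    ∃ (E : II) (α : Path A E) (Λ : Path E N), hc γ = (hc α).trans (hc Λ) ∧
      PW α (fun q x => x.2 = (A q).2) ∧ PW α (fun q x => d q ≤ 2 → x = A q) ∧
      PW Λ fun q x => 0 < dl x ∧ ∃ t, x.2 = (γ t q).2 := by
  obtain ⟨M, α, Λ, e, p1, p2, p3⟩ := split γ hN h
  obtain ⟨E, α₁, α₂, -, q1, q2, e'⟩ := trunc α (c := fun q => Real.smoothTransition (d q - 2))
    (Real.smoothTransition.continuous.comp (by fun_prop))
    (hdp.comp fun y => Real.smoothTransition (y - 2))
  refine ⟨E, α₁, α₂.trans Λ, ?_, fun t q => ?_, fun t q hq => ?_, PW.trans (fun t q => ?_) p3⟩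
  · rw [e, e', hc_trans, Path.Homotopic.Quotient.trans_assoc]
  · rw [q1]; exact p1.extend _ q
  · rw [q1, Real.smoothTransition.zero_of_nonpos (by linarith)]; simp
  · rw [q2]
    refine ⟨?_, 0, by rw [p1.extend _ q]; simp⟩
    by_cases hq : d q ≤ 3
    · obtain ⟨u, hu⟩ := ext_mem α (Real.smoothTransition (d q - 2) +
        (1 - Real.smoothTransition (d q - 2)) * t)
      rw [hu]
      exact p2 u q (h3 u q hq)
    · rw [Real.smoothTransition.one_of_one_le (by linarith)]
      simpa using (p3.source q).1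

end Move

end Pool.Agent.Lib.MP_72f1d0_gt
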