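import Mathlib
import Pool.Agent.Lib.MP_72f1d0_gt.Run
import Pool.Agent.Lib.MP_72f1d0_gt.Defs2
import Pool.Agent.Lib.MP_72f1d0_gt.Move1

/-! The stage that moves only the first vector, part 2. -/

open scoped ContDiff Topology
open Set Filter

namespace Pool.Agent.Lib.MP_72f1d0_gt

namespace Move

/-- The linear map with prescribed values on `X`, `W`, `R`, `Z`. -/
noncomputable def cols (a b c d : G) : G →L[ℝ] G :=
  (Complex.reCLM.comp (ContinuousLinearMap.fst ℝ ℂ ℂ)).smulRight a +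
  (Complex.imCLM.comp (ContinuousLinearMap.fst ℝ ℂ ℂ)).smulRight b +
  (Complex.reCLM.comp (ContinuousLinearMap.snd ℝ ℂ ℂ)).smulRight c +
  (Complex.imCLM.comp (ContinuousLinearMap.snd ℝ ℂ ℂ)).smulRight d

lemma cols_apply (a b c d v : G) :
    cols a b c d v = v.1.re • a + v.1.im • b + v.2.re • c + v.2.im • d := by
  simp [cols]

lemma cols_cont {Y : Type*} [TopologicalSpace Y] {a b c d : Y → G} (ha : Continuous a)
    (hb : Continuous b) (hc : Continuous c) (hd : Continuous d) :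
    Continuous fun y => cols (a y) (b y) (c y) (d y) := by
  have key : ∀ (φ : G →L[ℝ] ℝ) {a : Y → G}, Continuous a →
      Continuous fun y => φ.smulRight (a y) := fun φ a ha =>
    (ContinuousLinearMap.smulRightL ℝ G G φ).continuous.comp ha
  exact (((key _ ha).add (key _ hb)).add (key _ hc)).add (key _ hd)

lemma cols_inj {A : G × G} (h : dl A ≠ 0) :
    Function.Injective (cols A.1 vW (A.1 - vX) A.2) := by
  rw [injective_iff_map_eq_zero]
  intro v hv
  rw [cols_apply] at hv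
  obtain ⟨h1, h2, h3, h4⟩ := ind4_of_dl h (v.1.re + v.2.re) v.2.im (-v.2.re) v.1.im (by
    rw [← hv]; module)
  exact Prod.ext (Complex.ext (by simp; linarith) (by simpa using h4))
    (Complex.ext (by simp; linarith) (by simpa using h2))

lemma exists_fr {B : ℝ × Q → (G →L[ℝ] G)} (hB : Continuous B) (hp : ∀ s, Per fun q => B (s, q))
    (hi : ∀ x, Function.Injective (B x)) : ∃ B', IsFr B B' := by
  have hu : ∀ x, IsUnit (B x) := fun x =>
    ContinuousLinearMap.isUnit_iff_bijective.2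
      ⟨hi x, LinearMap.surjective_of_injective (f := (B x : G →ₗ[ℝ] G)) (hi x)⟩
  refine ⟨fun x => Ring.inverse (B x), hB, ?_, hp, ?_, ?_, ?_⟩
  · rw [continuous_iff_continuousAt]
    intro x
    obtain ⟨u, hu⟩ := hu x
    have := NormedRing.inverse_continuousAt u
    rw [hu] at this
    exact ContinuousAt.comp (f := B) this hB.continuousAt
  · intro s q m
    have e3 : B (s, q + lat m) = B (s, q) := hp _ q m
    simp only [e3]
  · intro x v
    rw [← mul_apply_eq_comp, Ring.mul_inverse_cancel _ (hu x)]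
    rfl
  · intro x v
    rw [← mul_apply_eq_comp, Ring.inverse_mul_cancel _ (hu x)]
    rfl

/-- Three vectors close to the first plane, to `R` and to `Z` are independent. -/
lemma ind3_near {z r t : G} (hz : RV (4 * (1 / 10)) z) (hr : ‖r - vR‖ ≤ 1 / 20)
    (ht : ‖t - vZ‖ ≤ 1 / 20) : Ind3 z r t := by
  intro a b e h
  have hp := hz.pos
  unfold RV at hz
  have r1 : ‖r.1‖ ≤ 1 / 20 := by simpa [vR] using (norm_fst_le (r - vR)).trans hr
  have t1 : ‖t.1‖ ≤ 1 / 20 := by simpa [vZ] using (norm_fst_le (t - vZ)).trans ht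
  have r2 : ‖r.2 - 1‖ ≤ 1 / 20 := (norm_snd_le (r - vR)).trans hr
  have t2 : ‖t.2 - Complex.I‖ ≤ 1 / 20 := (norm_snd_le (t - vZ)).trans ht
  have h1 : a • z.1 = -(b • r.1 + e • t.1) := by
    have := congrArg Prod.fst h
    simp only [Prod.fst_add, Prod.smul_fst, Prod.fst_zero] at this
    linear_combination this
  have h2 : (⟨b, e⟩ : ℂ) = -(a • z.2 + b • (r.2 - 1) + e • (t.2 - Complex.I)) := by
    have := congrArg Prod.snd h
    simp only [Prod.snd_add, Prod.smul_snd, Prod.snd_zero] at this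
    have e1 : (⟨b, e⟩ : ℂ) = b • (1 : ℂ) + e • Complex.I := by apply Complex.ext <;> simp
    rw [e1, smul_sub, smul_sub]
    linear_combination this
  have n1 : |a| * ‖z.1‖ ≤ (|b| + |e|) / 20 := by
    have := congrArg norm h1
    rw [norm_neg, norm_smul, Real.norm_eq_abs] at this
    have h3 := norm_add_le (b • r.1) (e • t.1)
    rw [norm_smul, norm_smul, Real.norm_eq_abs, Real.norm_eq_abs] at h3
    nlinarith [abs_nonneg b, abs_nonneg e]
  have n2 : ‖(⟨b, e⟩ : ℂ)‖ ≤ |a| * ‖z.2‖ + (|b| + |e|) / 20 := by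
    rw [h2, norm_neg]
    have h3 := norm_add₃_le (a := a • z.2) (b := b • (r.2 - 1)) (c := e • (t.2 - Complex.I))
    rw [norm_smul, norm_smul, norm_smul, Real.norm_eq_abs, Real.norm_eq_abs, Real.norm_eq_abs] at h3
    nlinarith [abs_nonneg b, abs_nonneg e]
  have n3 : |b| ≤ ‖(⟨b, e⟩ : ℂ)‖ := Complex.abs_re_le_norm (⟨b, e⟩ : ℂ)
  have n4 : |e| ≤ ‖(⟨b, e⟩ : ℂ)‖ := Complex.abs_im_le_norm (⟨b, e⟩ : ℂ)
  have n5 : |a| * ‖z.2‖ ≤ 4 * (1 / 10) * (|a| * ‖z.1‖) := by nlinarith [abs_nonneg a]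
  have hb : |b| = 0 := by linarith [abs_nonneg b, abs_nonneg e]
  have he : |e| = 0 := by linarith [abs_nonneg b, abs_nonneg e]
  have ha : |a| = 0 := by
    rw [hb, he] at n1
    nlinarith [abs_nonneg a]
  exact ⟨abs_eq_zero.1 ha, abs_eq_zero.1 hb, abs_eq_zero.1 he⟩

lemma ind3_of_map (L : G →L[ℝ] G) {x y z : G} (h : Ind3 (L x) (L y) (L z)) : Ind3 x y z := by
  intro a b e hab
  refine h a b e ?_
  rw [← map_smul, ← map_smul, ← map_smul, ← map_add, ← map_add, hab, map_zero]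

lemma norm_seg_le {V : Type*} [SeminormedAddCommGroup V] [NormedSpace ℝ V] {x y p : V} {r u : ℝ}
    (hx : ‖x - p‖ ≤ r) (hy : ‖y - p‖ ≤ r) (h0 : 0 ≤ u) (h1 : u ≤ 1) :
    ‖x + u • (y - x) - p‖ ≤ r := by
  have e : x + u • (y - x) - p = (1 - u) • (x - p) + u • (y - p) := by module
  rw [e]
  refine (norm_add_le _ _).trans ?_
  rw [norm_smul, norm_smul, Real.norm_of_nonneg h0, Real.norm_of_nonneg (by linarith)]
  nlinarith

lemma segInj_of_ind3 {x y : G × G}
    (h : ∀ u : ℝ, 0 ≤ u → u ≤ 1 → Ind3 x.1 y.1 (x.2 + u • (y.2 - x.2))) : SegInj x y := by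
  intro u h0 h1 a b hab
  obtain ⟨e1, e2, e3⟩ := h u h0 h1 (a * (1 - u)) (a * u) b (by
    rw [← hab]
    simp only [Prod.fst_add, Prod.smul_fst, Prod.fst_sub, Prod.snd_add, Prod.smul_snd, Prod.snd_sub]
    module)
  exact ⟨by linarith, e3⟩

/-- Positivity of the determinant is uniformly stable. -/
lemma dl_margin {P : Q → G × G} (hP : Continuous P) (hp : Per P) (h : ∀ q, 0 < dl (P q)) :
    ∃ η : ℝ, 0 < η ∧ ∀ q x, ‖x - P q‖ ≤ η → 0 < dl x := by
  obtain ⟨m, hm, H⟩ := per_pos0 isClosed_univ perSet_univ (g := fun q => dl (P q)) (by fun_prop)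
    (hp.comp dl) fun q _ => h q
  obtain ⟨δ, hδ, H'⟩ := unif (K := Metric.closedBall (0 : G × G) 1) (isCompact_closedBall _ _)
    (g := fun x : Q × (G × G) => dl (P x.1 + x.2)) (by fun_prop)
    (fun y q m => by simp only [hp q m]) (half_pos hm)
  refine ⟨min δ 1, lt_min hδ one_pos, fun q x hx => ?_⟩
  have := H' q q (x - P q) (by simpa using hx.trans (min_le_right _ _)) 0 (by simp)
    (by simp [hδ.le]) (by simpa using hx.trans (min_le_left _ _))
  simp only [add_sub_cancel, add_zero, Real.dist_eq] at this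
  have h1 := H q (mem_univ _)
  have h2 := (abs_le.1 this).1
  linarith

end Move

open Move Path.Homotopic.Quotient in
theorem move (hC : CorrStmt) (hF : FramesStmt) : MoveStmt := by
  intro c f hf N γ d hd hdp hN h2 h3 ε hε
  obtain ⟨E₁, α, Λ₀, e0, pα, cα, pΛ⟩ := reduce γ hd.continuous hdp hN h2 h3
  have hα := ext_cont α
  obtain ⟨C, C', cC, -, pC, -, -, iC, C1, CK, Cc⟩ := hF (fun x => α.extend x.1 x.2) hα
    (fun s => (α.extend s).per) fun s q _ _ => (α.extend s).inj q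
  simp only [Path.extend_one] at CK Cc
  have hE₁ : ∀ q, 0 < dl (E₁ q) := fun q => (pΛ.source q).1
  have cE := E₁.cont
  have τα : ∀ s q, (α.extend s q).2 = (dd c f q).2 := fun s q => pα.extend s q
  have τE : ∀ q, (E₁ q).2 = (dd c f q).2 := fun q => pα.target q
  let B : ℝ × Q → (G →L[ℝ] G) := fun x =>
    (C x).comp (cols (E₁ x.2).1 vW ((E₁ x.2).1 - vX) (E₁ x.2).2)
  have cB : Continuous B :=
    cC.clm_comp (cols_cont (by fun_prop) (by fun_prop) (by fun_prop) (by fun_prop))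
  have pB : ∀ s, Per fun q => B (s, q) := fun s q m => by
    have e3 : C (s, q + lat m) = C (s, q) := pC s q m
    simp only [B, e3, E₁.per q m]
  obtain ⟨B', hB⟩ := exists_fr cB pB fun x =>
    (Function.LeftInverse.injective (iC x)).comp (cols_inj (hE₁ x.2).ne')
  have BX : ∀ s q, 0 ≤ s → s ≤ 1 → B (s, q) vX = (α.extend s q).1 := fun s q a b => by
    rw [← (CK s q a b).1]
    simp [B, cols_apply, vX]
  have BZ : ∀ s q, 0 ≤ s → s ≤ 1 → B (s, q) vZ = (dd c f q).2 := fun s q a b => by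
    rw [← τα s q, ← (CK s q a b).2]
    simp [B, cols_apply, vZ]
  have BR : ∀ q, B (1, q) vR = (E₁ q).1 - vX := fun q => by
    simp [B, cols_apply, vR, C1]
  have cτ : Continuous fun q => (dd c f q).2 := hf.dd_smooth.continuous.snd
  -- the path of targets
  have dlE : ∀ q (u : ℝ), 0 < dl ((E₁ q).1 - u • vX, (dd c f q).2) := fun q u => by
    have := hE₁ q
    rw [← τE]
    simpa [dl, vX] using this
  have fP : IsFam fun x : ℝ × Q => (B x vR, (dd c f x.2).2) := by
    refine ⟨(cB.clm_apply continuous_const).prodMk (cτ.comp continuous_snd), fun s q m => ?_,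
      fun s q a b x y hxy => ?_⟩
    · have e3 : B (s, q + lat m) = B (s, q) := pB s q m
      simp only [e3, hf.dd_per q m]
    · have h0 := congrArg (B' (s, q)) hxy
      simp only [← BZ s q a b, map_add, map_smul, hB.inv', map_zero] at h0
      have h1 := congrArg Prod.snd h0
      have r1 := congrArg Complex.re h1
      have r2 := congrArg Complex.im h1
      simp [vR, vZ] at r1 r2
      exact ⟨r1, r2⟩
  let EE : ∀ s : ℝ, 0 ≤ s → s ≤ 1 → II := fun s a b =>
    II.mk' (fun q => (B (s, q) vR, (dd c f q).2)) (fP.cont.comp (f := fun q => (s, q)) (by fun_prop))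
      (fP.per s) fun q => fP.inj s q a b
  let E₀ : II := EE 0 le_rfl zero_le_one
  let E₂ : II := EE 1 zero_le_one le_rfl
  let P₀ : Path E₀ E₂ := mkPath fP (fun q => rfl) fun q => rfl
  have hE₂ : ∀ q, 0 < dl (E₂ q) := fun q => by
    have := dlE q 1
    rw [one_smul, ← BR] at this
    exact this
  obtain ⟨η, hη, Hη⟩ := dl_margin E₂.cont E₂.per hE₂
  obtain ⟨Cb, hCb, HCb⟩ := hB.bound'
  set ε₀ : ℝ := min (min ε η) (1 / 20 / Cb) with hε₀
  have ε0 : 0 < ε₀ := lt_min (lt_min hε hη) (by positivity)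
  have ε1 : ε₀ ≤ ε := (min_le_left _ _).trans (min_le_left _ _)
  have ε2 : ε₀ ≤ η := (min_le_left _ _).trans (min_le_right _ _)
  have near : ∀ s q v w, 0 ≤ s → s ≤ 1 → ‖v - B (s, q) w‖ ≤ ε₀ → ‖B' (s, q) v - w‖ ≤ 1 / 20 := by
    intro s q v w a b h
    have e : B' (s, q) v - w = B' (s, q) (v - B (s, q) w) := by rw [map_sub, hB.inv']
    rw [e]
    refine (HCb s q _ a b).trans ?_
    calc _ ≤ Cb * (1 / 20 / Cb) := by gcongr; exact h.trans (min_le_right _ _)
      _ = 1 / 20 := by field_simp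
  have I3 : ∀ s q x y z, 0 ≤ s → s ≤ 1 → RV (4 * (1 / 10)) (B' (s, q) x) →
      ‖y - B (s, q) vR‖ ≤ ε₀ → ‖z - (dd c f q).2‖ ≤ ε₀ → Ind3 x y z := fun s q x y z a b h1 h2 h3 =>
    ind3_of_map (B' (s, q)) (ind3_near h1 (near s q y vR a b h2)
      (near s q z vZ a b (by rw [BZ s q a b]; exact h3)))
  have SI : ∀ s q (x y : G × G), 0 ≤ s → s ≤ 1 → RV (4 * (1 / 10)) (B' (s, q) x.1) →
      ‖x.2 - (dd c f q).2‖ ≤ ε₀ → ‖y.1 - B (s, q) vR‖ ≤ ε₀ → ‖y.2 - (dd c f q).2‖ ≤ ε₀ →
      SegInj x y := fun s q x y a b h1 h2 h3 h4 =>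
    segInj_of_ind3 fun u u0 u1 => I3 s q _ _ _ a b h1 h3 (norm_seg_le h2 h4 u0 u1)
  have RX : ∀ s q (δ : ℝ), 0 < δ → 0 ≤ s → s ≤ 1 → RV δ (B' (s, q) (α.extend s q).1) :=
    fun s q δ hδ a b => by
      rw [← BX s q a b, hB.inv']
      simpa [RV, vX] using hδ
  -- the corrugations
  obtain ⟨F, hF', RF, J, σ, cσ, σ0, σ1, σr, HJ, UJ⟩ := runM hC hf hB
    (ν := fun q => Real.smoothTransition (d q - 1))
    (Real.smoothTransition.contDiff.comp (hd.sub contDiff_const))
    (hdp.comp fun y => Real.smoothTransition (y - 1))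
    (fun q => ⟨Real.smoothTransition.nonneg _, Real.smoothTransition.le_one _⟩)
    (fun q => by
      by_cases hq : d q ≤ 2
      · refine Or.inr fun s => ContinuousLinearMap.ext fun v => ?_
        have h1 : ∀ s, α.extend s q = dd c f q := fun s => cα.extend s q hq
        have h2 : ∀ s v, C (s, q) v = v :=
          Cc q fun s _ _ => by rw [h1 s]; exact (cα.target q hq).symm
        have h3 : B (s, q) = B (0, q) := ContinuousLinearMap.ext fun w => by simp [B, h2]
        rw [← hB.inv (0, q) v, hB.inv', ← h3, hB.inv']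
      · exact Or.inl (Real.smoothTransition.one_of_one_le (by linarith)))
    (δ := 1 / 10) (by norm_num) le_rfl ε0
    (fun s q v a b h => by
      have h1 := near s q v vZ a b (by rw [BZ s q a b]; exact h.le)
      have t1 : ‖(B' (s, q) v).1‖ ≤ 1 / 20 := by
        simpa [vZ] using (norm_fst_le (B' (s, q) v - vZ)).trans h1
      have t2 : ‖(B' (s, q) v).2 - Complex.I‖ ≤ 1 / 20 := (norm_snd_le (B' (s, q) v - vZ)).trans h1
      have t3 := norm_sub_norm_le Complex.I (B' (s, q) v).2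
      rw [norm_sub_rev, Complex.norm_I] at t3
      unfold RU
      linarith)
    (fun q => by simpa using RX 0 q (1 / 10) (by norm_num) le_rfl zero_le_one)
  have τF : ∀ q, ‖(dd c F q).2 - (dd c f q).2‖ ≤ ε₀ := fun q => by
    have := (HJ 1 q).2.le
    rwa [J.h1] at this
  have RF' : ∀ q, RV (4 * (1 / 10)) (B' (1, q) (dd c F q).1) := fun q => (RF q).mono (by norm_num)
  obtain ⟨ζ, sζ, pζ, nζ⟩ := smooth_approx (g := fun q => B (1, q) vR)
    ((cB.comp (f := fun q => ((1 : ℝ), q)) (by fun_prop)).clm_apply continuous_const)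
    ((pB 1).comp fun L => L vR) ε0
  have nE : ∀ q, ‖(ζ q, (dd c F q).2) - E₂ q‖ ≤ ε₀ := fun q => by
    rw [Prod.norm_def]
    exact max_le (nζ q) (τF q)
  let E : II := II.mk' (fun q => (ζ q, (dd c F q).2))
    (sζ.continuous.prodMk hF'.dd_smooth.continuous.snd)
    (fun q m => by simp only [pζ q m, hF'.dd_per q m])
    fun q => inj_of_dl (Hη q _ ((nE q).trans ε2)).ne'
  have z0 : ∀ v : G, ‖v - v‖ ≤ ε₀ := fun v => by simpa using ε0.le
  have nS : ∀ q (u : ℝ), 0 ≤ u → u ≤ 1 → ‖E q + u • (E₂ q - E q) - E₂ q‖ ≤ ε₀ := fun q u a b =>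
    norm_seg_le (nE q) (by simpa using ε0.le) a b
  have s1 : ∀ q, SegInj (hF'.d q) (E q) := fun q =>
    SI 1 q _ _ zero_le_one le_rfl (RF' q) (τF q) (nζ q) (τF q)
  have s2 : ∀ q, SegInj (E q) (E₂ q) := fun q u a b =>
    inj_of_dl (Hη q _ ((nS q u a b).trans ε2)).ne'
  have s3 : ∀ q, SegInj (hF'.d q) (E₂ q) := fun q =>
    SI 1 q _ _ zero_le_one le_rfl (RF' q) (τF q) (z0 _) (z0 _)
  have s4 : ∀ (t : UI) q, SegInj (α t q) (P₀ t q) := fun t q =>
    SI t q _ _ t.2.1 t.2.2 (by simpa using RX t q (4 * (1 / 10)) (by norm_num) t.2.1 t.2.2)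
      (by rw [pα t q]; exact z0 _) (z0 _) (z0 _)
  have s5 : ∀ q, SegInj (hf.d q) (E₀ q) := fun q => by simpa using s4 0 q
  have s6 : ∀ q, SegInj (E₁ q) (E₂ q) := fun q => by simpa using s4 1 q
  have fQ : IsFam fun x : ℝ × Q => P₀.extend (σ x.1) x.2 :=
    ⟨(ext_cont P₀).comp (f := fun x : ℝ × Q => (σ x.1, x.2)) (by fun_prop),
      fun s => (P₀.extend (σ s)).per, fun s q _ _ => (P₀.extend (σ s)).inj q⟩
  let P : Path E₀ E₂ := mkPath fQ (fun q => by simp [σ0]) fun q => by simp [σ1]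
  have eP : hc P = hc P₀ := hc_reparam P₀ P cσ σ0 σ1 fun t => II.ext' fun q => rfl
  have vP : ∀ (t : UI) q, P t q = (B (σ t, q) vR, (dd c f q).2) := fun t q => by
    show P₀.extend (σ t) q = _
    rw [Path.extend_apply _ ⟨(σr t).1, (σr t).2⟩]
    rfl
  have q1 := seg_square (J.path hf hF') P (fun t q => by
    rw [vP]
    exact SI (σ t) q _ _ (σr t).1 (σr t).2 (HJ t q).1 (HJ t q).2.le (z0 _) (z0 _)) s5 s3
  have q2 := seg_square α P₀ s4 s5 s6
  have q3 := seg_square (Path.refl hF'.d) (seg E E₂ s2) (fun t q =>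
    SI 1 q _ _ zero_le_one le_rfl (RF' q) (τF q)
      ((norm_fst_le (E q + (t : ℝ) • (E₂ q - E q) - E₂ q)).trans (nS q t t.2.1 t.2.2))
      ((norm_snd_le (E q + (t : ℝ) • (E₂ q - E q) - E₂ q)).trans (nS q t t.2.1 t.2.2))) s1 s3
  rw [hc_refl, refl_trans] at q3
  refine ⟨F, hF', J, ζ, E, s1, (seg E E₂ s2).trans ((seg E₁ E₂ s6).symm.trans Λ₀), sζ, pζ,
    fun q => rfl, fun q => I3 1 q _ _ _ zero_le_one le_rfl (RF' q) (nζ q) (τF q), ?_,
    PW.trans (pw_seg fun q u a b => ?_) (PW.trans (PW.symm (pw_seg fun q u a b => ?_))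
      (pΛ.mono fun q x h => ⟨h.1, Or.inl h.2⟩)), fun q => (τF q).trans ε1, fun q hq => ?_⟩
  · rw [hc_trans, hc_trans, hc_symm, ← trans_assoc (hc (seg hF'.d E s1)), ← q3, ← trans_assoc, q1,
      eP, ← q2, trans_assoc, q_cancel₁, e0]
  · exact ⟨Hη q _ ((nS q u a b).trans ε2), Or.inr
      (((norm_snd_le (E q + u • (E₂ q - E q) - E₂ q)).trans (nS q u a b)).trans ε1)⟩
  · have e : E₁ q + u • (E₂ q - E₁ q) = ((E₁ q).1 - u • vX, (dd c f q).2) := by
      have e2 : E₂ q = ((E₁ q).1 - vX, (dd c f q).2) := by rw [← BR]; rfl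
      rw [e2]
      ext1
      · simp only [Prod.fst_add, Prod.smul_fst, Prod.fst_sub]; module
      · simp only [Prod.snd_add, Prod.smul_snd, Prod.snd_sub, τE]; module
    rw [e]
    exact ⟨dlE q u, Or.inr (by simpa using hε.le)⟩
  · refine dd_congr_open c (U := {q | d q < 1}) (isOpen_lt hd.continuous continuous_const)
      (fun q' hq' => ?_) hq
    rw [← J.h1]
    exact UJ 1 q' (Real.smoothTransition.zero_of_nonpos (by have : d q' < 1 := hq'; linarith))

end Pool.Agent.Lib.MP_72f1d0_gt
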