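import Mathlib
import Pool.Agent.Lib.MP_72f1d0_gt.Run

/-! Tools for the pass: polygonal chains, frames, independence. -/

open scoped ContDiff Topology
open Set Filter

namespace Pool.Agent.Lib.MP_72f1d0_gt
namespace Pass

/-! ### Polygonal chains with three segments -/

noncomputable def poly (V0 V1 V2 V3 : G × G) (s : ℝ) : G × G :=
  V0 + cl (3 * s) • (V1 - V0) + cl (3 * s - 1) • (V2 - V1) + cl (3 * s - 2) • (V3 - V2)

lemma cl_of_nonpos {s : ℝ} (h : s ≤ 0) : cl s = 0 := by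
  rw [cl, max_eq_left]; exact (min_le_left _ _).trans h
lemma cl_of_one_le {s : ℝ} (h : 1 ≤ s) : cl s = 1 := by
  rw [cl, min_eq_right h, max_eq_right zero_le_one]

lemma poly_zero (V0 V1 V2 V3 : G × G) : poly V0 V1 V2 V3 0 = V0 := by
  simp [poly, cl_of_nonpos]

lemma poly_one (V0 V1 V2 V3 : G × G) : poly V0 V1 V2 V3 1 = V3 := by
  rw [poly, cl_of_one_le (by norm_num), cl_of_one_le (by norm_num), cl_of_one_le (by norm_num)]
  simp

lemma poly_cases (V0 V1 V2 V3 : G × G) (s : ℝ) : ∃ u : ℝ, 0 ≤ u ∧ u ≤ 1 ∧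
    (poly V0 V1 V2 V3 s = V0 + u • (V1 - V0) ∨ poly V0 V1 V2 V3 s = V1 + u • (V2 - V1) ∨
      poly V0 V1 V2 V3 s = V2 + u • (V3 - V2)) := by
  rcases le_total (3 * s) 1 with h | h
  · refine ⟨cl (3 * s), cl_nonneg _, cl_le_one _, Or.inl ?_⟩
    rw [poly, cl_of_nonpos (s := 3 * s - 1) (by linarith), cl_of_nonpos (s := 3 * s - 2) (by linarith)]
    simp
  rcases le_total (3 * s) 2 with h' | h'
  · refine ⟨cl (3 * s - 1), cl_nonneg _, cl_le_one _, Or.inr (Or.inl ?_)⟩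
    rw [poly, cl_of_one_le h, cl_of_nonpos (s := 3 * s - 2) (by linarith)]
    simp
  · refine ⟨cl (3 * s - 2), cl_nonneg _, cl_le_one _, Or.inr (Or.inr ?_)⟩
    rw [poly, cl_of_one_le h, cl_of_one_le (s := 3 * s - 1) (by linarith)]
    simp

def Val (V0 V1 V2 V3 : G × G) : Prop := SegInj V0 V1 ∧ SegInj V1 V2 ∧ SegInj V2 V3

lemma Val.inj {V0 V1 V2 V3 : G × G} (h : Val V0 V1 V2 V3) (s : ℝ) : Inj (poly V0 V1 V2 V3 s) := by
  obtain ⟨u, u0, u1, e | e | e⟩ := poly_cases V0 V1 V2 V3 s <;> rw [e]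
  exacts [h.1 u u0 u1, h.2.1 u u0 u1, h.2.2 u u0 u1]

lemma continuous_poly {Y : Type*} [TopologicalSpace Y] {V0 V1 V2 V3 : Y → G × G} {s : Y → ℝ}
    (h0 : Continuous V0) (h1 : Continuous V1) (h2 : Continuous V2) (h3 : Continuous V3)
    (hs : Continuous s) : Continuous fun y => poly (V0 y) (V1 y) (V2 y) (V3 y) (s y) := by
  unfold poly; fun_prop

/-- Data of the two middle vertices of a chain from `A` to `S`. -/
structure Mid (A S : II) where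
  V1 : Q → G × G
  V2 : Q → G × G
  c1 : Continuous V1
  c2 : Continuous V2
  p1 : Per V1
  p2 : Per V2
  val : ∀ q, Val (A q) (V1 q) (V2 q) (S q)

lemma Mid.fam {A S : II} (M : Mid A S) :
    IsFam fun x : ℝ × Q => poly (A x.2) (M.V1 x.2) (M.V2 x.2) (S x.2) x.1 :=
  ⟨continuous_poly (A.cont.comp continuous_snd) (M.c1.comp continuous_snd)
    (M.c2.comp continuous_snd) (S.cont.comp continuous_snd) continuous_fst,
    fun s q m => by simp only [A.per q m, S.per q m, M.p1 q m, M.p2 q m],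
    fun s q _ _ => (M.val q).inj s⟩

noncomputable def Mid.path {A S : II} (M : Mid A S) : Path A S :=
  mkPath M.fam (fun _ => poly_zero _ _ _ _) (fun _ => poly_one _ _ _ _)

lemma Mid.path_apply {A S : II} (M : Mid A S) (t : UI) (q : Q) :
    M.path t q = poly (A q) (M.V1 q) (M.V2 q) (S q) t := rfl

lemma poly_square {A A' S S' : II} (x : Path A A') (v : Path S S') (M : Mid A S)
    {V1 V2 : ℝ × Q → G × G} (c1 : Continuous V1) (c2 : Continuous V2)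
    (p1 : ∀ l, Per fun q => V1 (l, q)) (p2 : ∀ l, Per fun q => V2 (l, q))
    (h : ∀ (t : UI) q, Val (x t q) (V1 (t, q)) (V2 (t, q)) (v t q))
    (e1 : ∀ q, M.V1 q = V1 (0, q)) (e2 : ∀ q, M.V2 q = V2 (0, q)) :
    ∃ M' : Mid A' S', (∀ q, M'.V1 q = V1 (1, q)) ∧ (∀ q, M'.V2 q = V2 (1, q)) ∧
      (hc x).trans (hc M'.path) = (hc M.path).trans (hc v) := by
  let M' : Mid A' S' := ⟨fun q => V1 (1, q), fun q => V2 (1, q), c1.comp (by fun_prop),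
    c2.comp (by fun_prop), p1 1, p2 1, fun q => by simpa using h 1 q⟩
  refine ⟨M', fun _ => rfl, fun _ => rfl, ?_⟩
  rw [← hc_trans, ← hc_trans, hc_eq]
  refine square (K := fun z : ℝ × ℝ × Q => poly (x.extend z.1 z.2.2) (V1 (z.1, z.2.2))
    (V2 (z.1, z.2.2)) (v.extend z.1 z.2.2) z.2.1) ?_ ?_ ?_ ?_ ?_ ?_ ?_
  · exact continuous_poly ((ext_cont x).comp (f := fun z : ℝ × ℝ × Q => (z.1, z.2.2)) (by fun_prop))
      (c1.comp (by fun_prop)) (c2.comp (by fun_prop))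
      ((ext_cont v).comp (f := fun z : ℝ × ℝ × Q => (z.1, z.2.2)) (by fun_prop)) (by fun_prop)
  · intro a b q m
    simp only [(x.extend a).per q m, (v.extend a).per q m, p1 a q m, p2 a q m]
  · intro a b q a0 a1 _ _
    have := (h ⟨a, a0, a1⟩ q).inj b
    rwa [← x.extend_extends' ⟨a, a0, a1⟩, ← v.extend_extends' ⟨a, a0, a1⟩] at this
  · intro u q; simp [poly_zero]
  · intro u q; simp [Mid.path_apply, M']
  · intro u q; simp [Mid.path_apply, e1, e2]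
  · intro u q; simp [poly_one]

/-! ### Independence -/

lemma segInj_snd {μ τ p : G}
    (h : ∀ a b₁ b₂ : ℝ, 0 ≤ b₁ * b₂ → a • μ + b₁ • τ + b₂ • p = 0 → a = 0 ∧ b₁ = 0 ∧ b₂ = 0) :
    SegInj (μ, τ) (μ, p) := by
  intro u u0 u1 a b hab
  obtain ⟨h1, h2, h3⟩ := h a (b * (1 - u)) (b * u)
    (by nlinarith [mul_nonneg (sq_nonneg b) (mul_nonneg u0 (sub_nonneg.2 u1))]) (by
      rw [← hab]; simp only [Prod.mk_sub_mk, Prod.smul_mk, Prod.mk_add_mk]; module)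
  exact ⟨h1, by linarith⟩

lemma segInj_of_ind4 {a b x y : G} (h : Ind4 a b x y) : SegInj (a, b) (x, y) := by
  intro u _ _ s t hst
  obtain ⟨h1, h2, h3, h4⟩ := h (s * (1 - u)) (t * (1 - u)) (s * u) (t * u) (by
    rw [← hst]; simp only [Prod.mk_sub_mk, Prod.smul_mk, Prod.mk_add_mk]; module)
  exact ⟨by linarith, by linarith⟩

lemma segInj_fst {x m r : G} (h : Ind3 x m r) : SegInj (x, r) (m, r) := by
  intro u _ _ s t hst
  obtain ⟨h1, h2, h3⟩ := h (s * (1 - u)) (s * u) t (by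
    rw [← hst]; simp only [Prod.mk_sub_mk, Prod.smul_mk, Prod.mk_add_mk]; module)
  exact ⟨by linarith, h3⟩

/-- The contracted chain at a point where the chain is a loop. -/
lemma val_cut {m r p x : G} (h : Ind4 m p x r) (c : ℝ) :
    Val (m, r) (m, r + c • (p - r)) (m + c • (x - m), r + c • (r - r)) (m, r) := by
  refine ⟨fun u _ _ s t hst => ?_, fun u _ _ s t hst => ?_, fun u _ _ s t hst => ?_⟩
  · obtain ⟨h1, h2, -, h4⟩ := h s (t * (u * c)) 0 (t * (1 - u * c)) (by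
      rw [← hst]; simp only [Prod.mk_sub_mk, Prod.smul_mk, Prod.mk_add_mk]; module)
    exact ⟨h1, by linarith⟩
  · obtain ⟨h1, h2, h3, h4⟩ := h (s * (1 - u * c)) (t * ((1 - u) * c)) (s * (u * c))
      (t * (1 - (1 - u) * c)) (by
      rw [← hst]; simp only [Prod.mk_sub_mk, Prod.smul_mk, Prod.mk_add_mk]; module)
    exact ⟨by linarith, by linarith⟩
  · obtain ⟨h1, -, h3, h4⟩ := h (s * (1 - (1 - u) * c)) 0 (s * ((1 - u) * c)) t (by
      rw [← hst]; simp only [Prod.mk_sub_mk, Prod.smul_mk, Prod.mk_add_mk]; module)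
    exact ⟨by linarith, h4⟩

lemma ind4_iff {a b c d : G} : Ind4 a b c d ↔ LinearIndependent ℝ ![a, b, c, d] := by
  rw [Fintype.linearIndependent_iff]
  constructor
  · intro h g hg i
    rw [Fin.sum_univ_four] at hg
    obtain ⟨h0, h1, h2, h3⟩ := h _ _ _ _ hg
    fin_cases i <;> assumption
  · intro h x y z w hg
    have := h ![x, y, z, w] (by rw [Fin.sum_univ_four]; exact hg)
    exact ⟨this 0, this 1, this 2, this 3⟩

lemma isOpen_ind4 {a b c d : Q → G} (ha : Continuous a) (hb : Continuous b) (hc : Continuous c)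
    (hd : Continuous d) : IsOpen {q | Ind4 (a q) (b q) (c q) (d q)} := by
  simp only [ind4_iff]
  refine (isOpen_setOfPred_linearIndependent (𝕜 := ℝ) (ι := Fin 4) (E := G)).preimage
    (f := fun q => ![a q, b q, c q, d q]) (continuous_pi fun i => ?_)
  fin_cases i <;> simpa

abbrev R5 : Type := ℝ × ℝ × ℝ × ℝ × ℝ

noncomputable def lc (v : R5) (a₁ a₂ a₃ a₄ a₅ : G) : G :=
  v.1 • a₁ + v.2.1 • a₂ + v.2.2.1 • a₃ + v.2.2.2.1 • a₄ + v.2.2.2.2 • a₅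

lemma lc_norm_le (v : R5) {a₁ a₂ a₃ a₄ a₅ : G} {ε : ℝ} (h1 : ‖a₁‖ ≤ ε) (h2 : ‖a₂‖ ≤ ε)
    (h3 : ‖a₃‖ ≤ ε) (h4 : ‖a₄‖ ≤ ε) (h5 : ‖a₅‖ ≤ ε) : ‖lc v a₁ a₂ a₃ a₄ a₅‖ ≤ 5 * ε * ‖v‖ := by
  have key : ∀ (x : ℝ) (a : G), ‖x‖ ≤ ‖v‖ → ‖a‖ ≤ ε → ‖x • a‖ ≤ ε * ‖v‖ := fun x a hx ha => by
    rw [norm_smul, mul_comm]
    exact mul_le_mul ha hx (norm_nonneg _) ((norm_nonneg _).trans ha)
  have n2 : ‖v.2‖ ≤ ‖v‖ := norm_snd_le v
  have n3 : ‖v.2.2‖ ≤ ‖v‖ := (norm_snd_le v.2).trans n2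
  have n4 : ‖v.2.2.2‖ ≤ ‖v‖ := (norm_snd_le v.2.2).trans n3
  have k1 := key _ _ (norm_fst_le v) h1
  have k2 := key _ _ ((norm_fst_le v.2).trans n2) h2
  have k3 := key _ _ ((norm_fst_le v.2.2).trans n3) h3
  have k4 := key _ _ ((norm_fst_le v.2.2.2).trans n4) h4
  have k5 := key _ _ ((norm_snd_le v.2.2.2).trans n4) h5
  unfold lc
  refine (norm_add_le _ _).trans ?_
  refine (add_le_add_left (norm_add_le _ _) _).trans ?_
  refine (add_le_add_left (add_le_add_left (norm_add_le _ _) _) _).trans ?_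
  refine (add_le_add_left (add_le_add_left (add_le_add_left (norm_add_le _ _) _) _) _).trans ?_
  linarith

/-- Injectivity on a cone is stable under small perturbations of five vectors. -/
lemma cone5 {Y : Type*} [TopologicalSpace Y] {K : Set Y} (hK : IsCompact K) {T : Set (Q × Y)}
    (hT : IsClosed T) (hTp : ∀ q y m, (q, y) ∈ T → (q + lat m, y) ∈ T) (hTK : ∀ x ∈ T, x.2 ∈ K)
    {S : Set R5} (hS : IsClosed S) (hSc : ∀ v (t : ℝ), 0 < t → v ∈ S → t • v ∈ S)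
    {a₁ a₂ a₃ a₄ a₅ : Q × Y → G} (c1 : Continuous a₁) (c2 : Continuous a₂) (c3 : Continuous a₃)
    (c4 : Continuous a₄) (c5 : Continuous a₅) (p1 : ∀ y, Per fun q => a₁ (q, y))
    (p2 : ∀ y, Per fun q => a₂ (q, y)) (p3 : ∀ y, Per fun q => a₃ (q, y))
    (p4 : ∀ y, Per fun q => a₄ (q, y)) (p5 : ∀ y, Per fun q => a₅ (q, y))
    (h : ∀ x ∈ T, ∀ v ∈ S, lc v (a₁ x) (a₂ x) (a₃ x) (a₄ x) (a₅ x) = 0 → v = 0) :
    ∃ ε : ℝ, 0 < ε ∧ ∀ x ∈ T, ∀ b₁ b₂ b₃ b₄ b₅ : G, ‖b₁ - a₁ x‖ ≤ ε → ‖b₂ - a₂ x‖ ≤ ε →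
      ‖b₃ - a₃ x‖ ≤ ε → ‖b₄ - a₄ x‖ ≤ ε → ‖b₅ - a₅ x‖ ≤ ε →
      ∀ v ∈ S, lc v b₁ b₂ b₃ b₄ b₅ = 0 → v = 0 := by
  obtain ⟨κ, hκ, H⟩ := cone_bound (V := R5) (Z := G) hK
    (S := {x : Q × Y × R5 | (x.1, x.2.1) ∈ T ∧ x.2.2 ∈ S})
    ((hT.preimage (by fun_prop)).inter (hS.preimage (by fun_prop)))
    (fun q y v m hx => ⟨hTp q y m hx.1, hx.2⟩) (fun q y v t ht hx => ⟨hx.1, hSc v t ht hx.2⟩)
    (fun x hx => hTK _ hx.1)
    (φ := fun x => lc x.2.2 (a₁ (x.1, x.2.1)) (a₂ (x.1, x.2.1)) (a₃ (x.1, x.2.1))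
      (a₄ (x.1, x.2.1)) (a₅ (x.1, x.2.1))) (by unfold lc; fun_prop)
    (fun y v q m => by simp only [p1 y q m, p2 y q m, p3 y q m, p4 y q m, p5 y q m])
    (fun q y v t _ => by simp only [lc, Prod.smul_fst, Prod.smul_snd, smul_eq_mul]; module)
    (fun x hx h0 => h _ hx.1 _ hx.2 h0)
  refine ⟨κ / 10, by positivity, fun x hx b₁ b₂ b₃ b₄ b₅ h1 h2 h3 h4 h5 v hv h0 => ?_⟩
  have k1 := H (x.1, x.2, v) ⟨hx, hv⟩
  have k2 := lc_norm_le v h1 h2 h3 h4 h5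
  have e : lc v (b₁ - a₁ x) (b₂ - a₂ x) (b₃ - a₃ x) (b₄ - a₄ x) (b₅ - a₅ x) =
      -lc v (a₁ x) (a₂ x) (a₃ x) (a₄ x) (a₅ x) := by
    rw [← zero_sub, ← h0]; simp only [lc]; module
  rw [e, norm_neg] at k2
  have : ‖v‖ ≤ 0 := by
    by_contra hn
    have := not_le.1 hn
    simp only at k1
    nlinarith
  exact norm_le_zero_iff.1 this

lemma cone50 {S : Set R5} (hS : IsClosed S) (hSc : ∀ v (t : ℝ), 0 < t → v ∈ S → t • v ∈ S)
    {a₁ a₂ a₃ a₄ a₅ : Q → G} (c1 : Continuous a₁) (c2 : Continuous a₂) (c3 : Continuous a₃)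
    (c4 : Continuous a₄) (c5 : Continuous a₅) (p1 : Per a₁) (p2 : Per a₂) (p3 : Per a₃)
    (p4 : Per a₄) (p5 : Per a₅)
    (h : ∀ q, ∀ v ∈ S, lc v (a₁ q) (a₂ q) (a₃ q) (a₄ q) (a₅ q) = 0 → v = 0) :
    ∃ ε : ℝ, 0 < ε ∧ ∀ q, ∀ b₁ b₂ b₃ b₄ b₅ : G, ‖b₁ - a₁ q‖ ≤ ε → ‖b₂ - a₂ q‖ ≤ ε →
      ‖b₃ - a₃ q‖ ≤ ε → ‖b₄ - a₄ q‖ ≤ ε → ‖b₅ - a₅ q‖ ≤ ε →
      ∀ v ∈ S, lc v b₁ b₂ b₃ b₄ b₅ = 0 → v = 0 := by
  obtain ⟨ε, hε, H⟩ := cone5 (Y := Unit) (K := univ) isCompact_univ (T := univ) isClosed_univ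
    (fun _ _ _ _ => mem_univ _) (fun _ _ => mem_univ _) hS hSc
    (a₁ := fun x => a₁ x.1) (a₂ := fun x => a₂ x.1) (a₃ := fun x => a₃ x.1) (a₄ := fun x => a₄ x.1)
    (a₅ := fun x => a₅ x.1) (by fun_prop) (by fun_prop) (by fun_prop) (by fun_prop) (by fun_prop)
    (fun _ => p1) (fun _ => p2) (fun _ => p3) (fun _ => p4) (fun _ => p5) fun x _ => h x.1
  exact ⟨ε, hε, fun q => H (q, ()) (mem_univ _)⟩

lemma ind4_margin' {Y : Type*} [TopologicalSpace Y] {K : Set Y} (hK : IsCompact K)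
    {T : Set (Q × Y)} (hT : IsClosed T) (hTp : ∀ q y m, (q, y) ∈ T → (q + lat m, y) ∈ T)
    (hTK : ∀ x ∈ T, x.2 ∈ K) {a₁ a₂ a₃ a₄ : Q × Y → G} (c1 : Continuous a₁) (c2 : Continuous a₂)
    (c3 : Continuous a₃) (c4 : Continuous a₄) (p1 : ∀ y, Per fun q => a₁ (q, y))
    (p2 : ∀ y, Per fun q => a₂ (q, y)) (p3 : ∀ y, Per fun q => a₃ (q, y))
    (p4 : ∀ y, Per fun q => a₄ (q, y)) (h : ∀ x ∈ T, Ind4 (a₁ x) (a₂ x) (a₃ x) (a₄ x)) :
    ∃ ε : ℝ, 0 < ε ∧ ∀ x ∈ T, ∀ b₁ b₂ b₃ b₄ : G, ‖b₁ - a₁ x‖ ≤ ε → ‖b₂ - a₂ x‖ ≤ ε →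
      ‖b₃ - a₃ x‖ ≤ ε → ‖b₄ - a₄ x‖ ≤ ε → Ind4 b₁ b₂ b₃ b₄ := by
  obtain ⟨ε, hε, H⟩ := cone5 hK hT hTp hTK (S := {v : R5 | v.2.2.2.2 = 0})
    (isClosed_eq (by fun_prop) continuous_const) (fun v t _ hv => by
      show t * v.2.2.2.2 = 0
      rw [show v.2.2.2.2 = 0 from hv, mul_zero]) c1 c2 c3 c4 (continuous_const (y := (0 : G)))
    p1 p2 p3 p4 (fun _ => per_const _) (fun x hx v hv h0 => by
      obtain ⟨h1, h2, h3, h4⟩ := h x hx v.1 v.2.1 v.2.2.1 v.2.2.2.1 (by simpa [lc] using h0)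
      exact Prod.ext h1 (Prod.ext h2 (Prod.ext h3 (Prod.ext h4 hv))))
  refine ⟨ε, hε, fun x hx b₁ b₂ b₃ b₄ h1 h2 h3 h4 a b c d h0 => ?_⟩
  have := H x hx b₁ b₂ b₃ b₄ 0 h1 h2 h3 h4 (by simp [hε.le]) (a, b, c, d, 0) rfl
    (by simpa [lc] using h0)
  simpa using this

lemma ind4_margin {a₁ a₂ a₃ a₄ : Q → G} (c1 : Continuous a₁) (c2 : Continuous a₂)
    (c3 : Continuous a₃) (c4 : Continuous a₄) (p1 : Per a₁) (p2 : Per a₂) (p3 : Per a₃)
    (p4 : Per a₄) (h : ∀ q, Ind4 (a₁ q) (a₂ q) (a₃ q) (a₄ q)) :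
    ∃ ε : ℝ, 0 < ε ∧ ∀ q, ∀ b₁ b₂ b₃ b₄ : G, ‖b₁ - a₁ q‖ ≤ ε → ‖b₂ - a₂ q‖ ≤ ε →
      ‖b₃ - a₃ q‖ ≤ ε → ‖b₄ - a₄ q‖ ≤ ε → Ind4 b₁ b₂ b₃ b₄ := by
  obtain ⟨ε, hε, H⟩ := ind4_margin' (Y := Unit) (K := univ) isCompact_univ (T := univ) isClosed_univ
    (fun _ _ _ _ => mem_univ _) (fun _ _ => mem_univ _)
    (a₁ := fun x => a₁ x.1) (a₂ := fun x => a₂ x.1) (a₃ := fun x => a₃ x.1) (a₄ := fun x => a₄ x.1)
    (by fun_prop) (by fun_prop) (by fun_prop) (by fun_prop)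
    (fun _ => p1) (fun _ => p2) (fun _ => p3) (fun _ => p4) fun x _ => h x.1
  exact ⟨ε, hε, fun q => H (q, ()) (mem_univ _)⟩

/-! ### Frames -/

/-- The linear map sending `X, W, R, Z` to `a, b, c, d`. -/
noncomputable def fr4 (a b c d : G) : G →L[ℝ] G :=
  (Complex.reCLM.comp (ContinuousLinearMap.fst ℝ ℂ ℂ)).smulRight a +
  (Complex.imCLM.comp (ContinuousLinearMap.fst ℝ ℂ ℂ)).smulRight b +
  (Complex.reCLM.comp (ContinuousLinearMap.snd ℝ ℂ ℂ)).smulRight c +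
  (Complex.imCLM.comp (ContinuousLinearMap.snd ℝ ℂ ℂ)).smulRight d

lemma fr4_apply (a b c d v : G) :
    fr4 a b c d v = v.1.re • a + v.1.im • b + v.2.re • c + v.2.im • d := rfl

lemma continuous_fr4 {a b c d : Q → G} (ha : Continuous a) (hb : Continuous b) (hc : Continuous c)
    (hd : Continuous d) : Continuous fun q => fr4 (a q) (b q) (c q) (d q) := by
  have key : ∀ (φ : G →L[ℝ] ℝ) {x : Q → G}, Continuous x → Continuous fun q => φ.smulRight (x q) :=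
    fun φ x hx => (ContinuousLinearMap.smulRightL ℝ G G φ).continuous.comp hx
  exact (((key _ ha).add (key _ hb)).add (key _ hc)).add (key _ hd)

lemma exists_inverse {a b c d : Q → G} (ha : Continuous a) (hb : Continuous b) (hc : Continuous c)
    (hd : Continuous d) (pa : Per a) (pb : Per b) (pc : Per c) (pd : Per d)
    (h : ∀ q, Ind4 (a q) (b q) (c q) (d q)) :
    ∃ L' : Q → (G →L[ℝ] G), Continuous L' ∧ Per L' ∧
      (∀ q v, fr4 (a q) (b q) (c q) (d q) (L' q v) = v) ∧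
      ∀ q v, L' q (fr4 (a q) (b q) (c q) (d q) v) = v := by
  have hu : ∀ q, IsUnit (fr4 (a q) (b q) (c q) (d q)) := fun q => by
    rw [ContinuousLinearMap.isUnit_iff_bijective]
    have hi : Function.Injective (fr4 (a q) (b q) (c q) (d q)) := by
      rw [injective_iff_map_eq_zero]
      intro v hv
      obtain ⟨h1, h2, h3, h4⟩ := h q _ _ _ _ hv
      exact Prod.ext (Complex.ext h1 h2) (Complex.ext h3 h4)
    exact ⟨hi, (LinearMap.injective_iff_surjective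
      (f := (fr4 (a q) (b q) (c q) (d q) : G →ₗ[ℝ] G))).1 hi⟩
  refine ⟨fun q => Ring.inverse (fr4 (a q) (b q) (c q) (d q)), ?_,
    fun q m => by simp only [pa q m, pb q m, pc q m, pd q m], fun q v => ?_, fun q v => ?_⟩
  · rw [continuous_iff_continuousAt]
    intro q
    obtain ⟨u, hu'⟩ := hu q
    have := NormedRing.inverse_continuousAt u
    rw [hu'] at this
    exact ContinuousAt.comp (f := fun q => fr4 (a q) (b q) (c q) (d q)) this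
      (continuous_fr4 ha hb hc hd).continuousAt
  · exact congrArg (fun L : G →L[ℝ] G => L v) (Ring.mul_inverse_cancel _ (hu q))
  · exact congrArg (fun L : G →L[ℝ] G => L v) (Ring.inverse_mul_cancel _ (hu q))

end Pass
end Pool.Agent.Lib.MP_72f1d0_gt
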