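import Mathlib
import Pool.Agent.Lib.MP_72f1d0_gt.PassA

/-! The notch corrugation. -/

open scoped ContDiff Topology
open Set Filter

namespace Pool.Agent.Lib.MP_72f1d0_gt
namespace Pass

lemma notch_ind {μ τ j n x : G} {t₁ t₂ w ρ : ℝ} (h4 : Ind4 μ j x (n - j))
    (hτ : τ = t₁ • μ + t₂ • j + w • x + ρ • (n - j)) (hlt : t₂ ^ 2 < w ^ 2 + ρ ^ 2) :
    Ind4 μ τ ((-ρ) • x + w • (n - j)) n := by
  intro a b y β h0
  obtain ⟨h1, h2, h3, h4⟩ := h4 (a + b * t₁) (b * t₂ + β) (b * w - y * ρ) (b * ρ + y * w + β) (by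
    rw [← h0, hτ]; module)
  have e : b ^ 2 * (w ^ 2 + ρ ^ 2 - t₂ ^ 2) + y ^ 2 * (w ^ 2 + ρ ^ 2) = 0 := by
    have e1 : b * ρ + y * w = b * t₂ := by linarith
    have e2 : (b * w - y * ρ) ^ 2 + (b * ρ + y * w) ^ 2 = (b * t₂) ^ 2 := by rw [h3, e1]; ring
    linear_combination e2
  have p1 : 0 < w ^ 2 + ρ ^ 2 - t₂ ^ 2 := by linarith
  have p2 : 0 < w ^ 2 + ρ ^ 2 := by nlinarith [sq_nonneg t₂]
  have q1 := mul_nonneg (sq_nonneg b) p1.le
  have q2 := mul_nonneg (sq_nonneg y) p2.le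
  have hb : b = 0 := by
    have : b ^ 2 * (w ^ 2 + ρ ^ 2 - t₂ ^ 2) = 0 := by linarith
    exact pow_eq_zero_iff two_ne_zero |>.1 ((mul_eq_zero.1 this).resolve_right p1.ne')
  have hy : y = 0 := by
    have : y ^ 2 * (w ^ 2 + ρ ^ 2) = 0 := by linarith
    exact pow_eq_zero_iff two_ne_zero |>.1 ((mul_eq_zero.1 this).resolve_right p2.ne')
  subst hb hy
  exact ⟨by linarith, rfl, rfl, by linarith⟩

theorem notch (hC : CorrStmt) {c : Ctx} {f : Q → G} (hf : IsEmb c f) {j n x : Q → G}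
    (cj : Continuous j) (cn : Continuous n) (cx : Continuous x) (pj : Per j) (pn : Per n)
    (px : Per x) {d : Q → ℝ} (hd : ContDiff ℝ ∞ d) (pd : Per d) {m : ℝ} (hm : 0 < m)
    (h4 : ∀ q, Ind4 (dd c f q).1 (j q) (n q) (x q))
    (h5 : ∀ q (a b k w ρ : ℝ), w ^ 2 + ρ ^ 2 ≤ k ^ 2 →
      a • (dd c f q).1 + b • (dd c f q).2 + k • j q + w • x q + ρ • (n q - j q) = 0 → b = 0)
    (hx : ∀ q, 0 ≤ d q → al (x q) = 0 ∧ m ≤ al (n q))
    (hτ : ∀ q, 0 ≤ d q → d q < 4 → 0 < al (dd c f q).2) {ε : ℝ} (hε : 0 < ε) :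
    ∃ (F : Q → G) (J : Iso c f F), (∀ l q, d q ≤ 3 → J.H l q = f q) ∧
      (∀ l q, ‖(dd c (J.H l) q).1 - (dd c f q).1‖ ≤ ε ∧
        Ind3 (dd c (J.H l) q).1 (dd c (J.H l) q).2 (n q)) ∧
      ∀ q, 2 ≤ d q → 0 < al (dd c F q).2 ∨ Ind4 (dd c F q).1 (dd c F q).2 (j q) (n q) := by
  have cd := hf.dd_smooth.continuous
  have pD := hf.dd_per
  set μ : Q → G := fun q => (dd c f q).1 with hμ
  set τ : Q → G := fun q => (dd c f q).2 with hτ'
  have cμ : Continuous μ := cd.fst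
  have cτ : Continuous τ := cd.snd
  have pμ : Per μ := pD.comp Prod.fst
  have pτ : Per τ := pD.comp Prod.snd
  have h4' : ∀ q, Ind4 (μ q) (j q) (x q) (n q - j q) := fun q a b e g h0 => by
    obtain ⟨h1, h2, h3, h4⟩ := h4 q a (b - g) g e (by rw [← h0]; module)
    exact ⟨h1, by linarith, h4, h3⟩
  obtain ⟨L, cL, pL, hL, -⟩ := exists_inverse cμ cj cx (cn.sub cj) pμ pj px
    (pn.comp₂ pj fun a b => a - b) h4'
  set t : Q → G := fun q => L q (τ q) with ht
  have ct : Continuous t := cL.clm_apply cτ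
  have pt : Per t := pL.comp₂ pτ fun a b => a b
  set w : Q → ℝ := fun q => (t q).2.re with hw
  set ρ : Q → ℝ := fun q => (t q).2.im with hρ
  have cw : Continuous w := by fun_prop
  have cρ : Continuous ρ := by fun_prop
  have pw : Per w := pt.comp fun a => a.2.re
  have pρ : Per ρ := pt.comp fun a => a.2.im
  have eτ : ∀ q, τ q = (t q).1.re • μ q + (t q).1.im • j q + w q • x q + ρ q • (n q - j q) :=
    fun q => (hL q (τ q)).symm
  have hlt : ∀ q, (t q).1.im ^ 2 < w q ^ 2 + ρ q ^ 2 := fun q => by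
    by_contra h
    have := h5 q (t q).1.re (-1) (t q).1.im (w q) (ρ q) (not_lt.1 h) (by
      have := eτ q
      show (t q).1.re • μ q + (-1 : ℝ) • τ q + _ + _ + _ = 0
      rw [this]; module)
    norm_num at this
  set Jv : Q → G := fun q => (-ρ q) • x q + w q • (n q - j q) with hJv
  have cJ : Continuous Jv := by fun_prop
  have pJ : Per Jv := fun q m => by simp only [hJv, pρ q m, pw q m, px q m, pn q m, pj q m]
  have i4 : ∀ q, Ind4 (μ q) (τ q) (Jv q) (n q) := fun q => notch_ind (h4' q) (eτ q) (hlt q)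
  obtain ⟨mθ, hmθ, Hθ⟩ := per_pos0 isClosed_univ perSet_univ (g := fun q => w q ^ 2 + ρ q ^ 2)
    (by fun_prop) (fun q m => by simp only [pw q m, pρ q m])
    fun q _ => (sq_nonneg _).trans_lt (hlt q)
  obtain ⟨Cτ, hCτ, Hτ⟩ := per_bound0 cτ pτ
  set B : ℝ := (Cτ + 1) / (mθ * m) with hB
  have hB0 : 0 < B := by positivity
  set ν : Q → ℝ := fun q => Real.smoothTransition (d q - 3) with hν
  have sν : ContDiff ℝ ∞ ν := Real.smoothTransition.contDiff.comp (hd.sub contDiff_const)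
  have cν := sν.continuous
  have pν : Per ν := pd.comp fun a => Real.smoothTransition (a - 3)
  set k : Q → ℝ := fun q => al (n q - j q) / max (al (n q)) m with hk
  have ck : Continuous k := Continuous.div (by fun_prop) (by fun_prop)
    fun q => (hm.trans_le (le_max_right _ _)).ne'
  have pk : Per k := fun q m => by simp only [hk, pn q m, pj q m]
  set n₁ : Q → G := fun q => (2 * B * ν q * ρ q ^ 2) • n q with hn₁
  set n₂ : Q → G := fun q => √2 • Jv q + (-√2 * w q * k q + 2 * √2 * B * ρ q * w q) • n q with hn₂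
  have c1 : Continuous n₁ := by fun_prop
  have c2 : Continuous n₂ := by fun_prop
  have p1 : Per n₁ := fun q m => by simp only [hn₁, pν q m, pρ q m, pn q m]
  have p2 : Per n₂ := fun q m => by simp only [hn₂, pJ q m, pw q m, pk q m, pρ q m, pn q m]
  set T : Q × ℝ → G := fun z => τ z.1 + ν z.1 • ((-(2 * z.2 ^ 2 - 1) / 2) • n₁ z.1 + z.2 • n₂ z.1)
    with hT
  have cT : Continuous T := by fun_prop
  have pT : ∀ u, Per fun q => T (q, u) := fun u q m => by
    simp only [hT, pτ q m, pν q m, p1 q m, p2 q m]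
  set wT : Q × ℝ → ℝ := fun z => w z.1 - ν z.1 * z.2 * √2 * ρ z.1 with hwT
  have cwT : Continuous wT := by fun_prop
  have pwT : ∀ u, Per fun q => wT (q, u) := fun u q m => by
    simp only [hwT, pν q m, pw q m, pρ q m]
  have s2 : √2 ^ 2 = (2 : ℝ) := Real.sq_sqrt (by norm_num)
  have hpos : ∀ z : Q × ℝ, 2 ≤ d z.1 → 0 < max |wT z| (al (T z)) := by
    rintro ⟨q, u⟩ hq
    rcases eq_or_ne (wT (q, u)) 0 with h0 | h0
    · refine lt_max_of_lt_right ?_
      obtain ⟨x1, x2⟩ := hx q (by linarith)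
      have k1 : k q * al (n q) = al (n q - j q) := by
        simp only [hk, max_eq_left x2]
        field_simp [(hm.trans_le x2).ne']
      have w0 : w q = ν q * u * √2 * ρ q := sub_eq_zero.1 h0
      have e : al (T (q, u)) = al (τ q) + B * (w q ^ 2 + ν q ^ 2 * ρ q ^ 2) * al (n q) := by
        simp only [hT, hn₁, hn₂, hJv, al_add, al_smul, x1, ← k1]
        rw [w0]
        linear_combination (B * ν q ^ 2 * u ^ 2 * ρ q ^ 2 * al (n q)) * s2
      rw [e]
      rcases lt_or_ge (d q) 4 with h | h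
      · have := hτ q (by linarith) h
        have : 0 ≤ B * (w q ^ 2 + ν q ^ 2 * ρ q ^ 2) * al (n q) := by
          have := hm.le.trans x2
          positivity
        linarith
      · have : ν q = 1 := Real.smoothTransition.one_of_one_le (by linarith)
        rw [this, one_pow, one_mul]
        have a1 := Hθ q (mem_univ _)
        have a2 := abs_le.1 ((abs_al_le (τ q)).trans (Hτ q))
        have a3 : B * mθ * m ≤ B * (w q ^ 2 + ρ q ^ 2) * al (n q) := by gcongr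
        have a4 : B * mθ * m = Cτ + 1 := by rw [hB]; field_simp
        linarith
    · exact lt_max_of_lt_left (abs_pos.2 h0)
  obtain ⟨m₂, hm₂, H₂⟩ := per_pos (K := Icc (-1 : ℝ) 1) isCompact_Icc
    (S := {z : Q × ℝ | 2 ≤ d z.1 ∧ z.2 ∈ Icc (-1 : ℝ) 1})
    ((isClosed_le continuous_const (hd.continuous.comp continuous_fst)).inter
      (isClosed_Icc.preimage continuous_snd))
    (fun q y m h => ⟨by simpa only [pd q m] using h.1, h.2⟩) (fun _ h => h.2)
    (g := fun z => max |wT z| (al (T z))) (by fun_prop)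
    (fun u q m => by simp only [pwT u q m, pT u q m]) fun z hz => hpos z hz.1
  obtain ⟨ε₁, hε₁, H₁⟩ := ind4_margin' (K := Icc (-1 : ℝ) 1) isCompact_Icc
    (T := {z : Q × ℝ | m₂ ≤ |wT z| ∧ z.2 ∈ Icc (-1 : ℝ) 1})
    ((isClosed_le continuous_const cwT.abs).inter (isClosed_Icc.preimage continuous_snd))
    (fun q y m h => ⟨by simpa only [pwT y q m] using h.1, h.2⟩) (fun _ h => h.2)
    (a₁ := fun z => μ z.1) (a₂ := T) (a₃ := fun z => j z.1) (a₄ := fun z => n z.1)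
    (by fun_prop) cT (by fun_prop) (by fun_prop) (fun _ => pμ) pT (fun _ => pj) (fun _ => pn) (by
      rintro ⟨q, u⟩ ⟨hz, -⟩ a b e g h0
      have hw0 : wT (q, u) ≠ 0 := abs_pos.1 (hm₂.trans_le hz)
      obtain ⟨β, hβ⟩ : ∃ β : ℝ, T (q, u) = τ q + (ν q * u * √2) • Jv q + β • n q :=
        ⟨ν q * (-(2 * u ^ 2 - 1) / 2) * (2 * B * ν q * ρ q ^ 2) +
          ν q * u * (-√2 * w q * k q + 2 * √2 * B * ρ q * w q), by
          simp only [hT, hn₁, hn₂]; module⟩
      obtain ⟨h1, h2, h3, h4⟩ := h4' q (a + b * (t q).1.re) (b * (t q).1.im + b * β + e + g)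
        (b * wT (q, u)) (b * ρ q + b * (ν q * u * √2) * w q + b * β + g) (by
          rw [← h0]
          simp only [hβ, hwT, hJv]
          rw [eτ q]; module)
      have hb : b = 0 := (mul_eq_zero.1 h3).resolve_right hw0
      subst hb
      exact ⟨by linarith, rfl, by linarith, by linarith⟩)
  obtain ⟨ε₂, hε₂, H₃⟩ := ind4_margin cμ cτ cJ cn pμ pτ pJ pn i4
  set ε' := min (min ε ε₁) (min ε₂ (m₂ / 2)) with hε'
  have e0 : 0 < ε' := by positivity
  have e1 : ε' ≤ ε := (min_le_left _ _).trans (min_le_left _ _)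
  have e2 : ε' ≤ ε₁ := (min_le_left _ _).trans (min_le_right _ _)
  have e3 : ε' ≤ ε₂ := (min_le_right _ _).trans (min_le_left _ _)
  have e4 : ε' ≤ m₂ / 2 := (min_le_right _ _).trans (min_le_right _ _)
  obtain ⟨F, J, J0, J1⟩ := hC c f hf (ContinuousLinearMap.snd ℝ ℝ ℝ) (fun m => ⟨m.2, rfl⟩) ν sν pν
    n₁ n₂ c1 c2 p1 p2 (fun q v a b _ _ h0 => by
      obtain ⟨h1, h2, -, -⟩ := i4 q v.1 v.2 (b * ν q * √2) (a * ν q * (2 * B * ν q * ρ q ^ 2) +
        b * ν q * (-√2 * w q * k q + 2 * √2 * B * ρ q * w q)) (by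
          rw [← h0]; simp only [ap, hn₁, hn₂, hμ, hτ']; module)
      exact Prod.ext h1 h2) ε' e0
  have main : ∀ l q, ∃ θ a : ℝ, (l = 1 → a = 1) ∧ ‖(dd c (J.H l) q).1 - μ q‖ ≤ ε' ∧
      ‖(dd c (J.H l) q).2 - (τ q + (a * ν q) •
        ((-(Real.cos (2 * θ)) / 2) • n₁ q + Real.cos θ • n₂ q))‖ ≤ ε' := fun l q => by
    obtain ⟨θ, a, -, -, a2, H⟩ := J1 l q
    exact ⟨θ, a, a2, by simpa using H (1, 0), by simpa using H (0, 1)⟩
  refine ⟨F, J, fun l q hq => J0 l q (Real.smoothTransition.zero_of_nonpos (by linarith)),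
    fun l q => ?_, fun q hq => ?_⟩
  · obtain ⟨θ, a, -, m1, m2⟩ := main l q
    refine ⟨m1.trans e1, fun a' b' e' h0 => ?_⟩
    obtain ⟨y, β, hβ⟩ : ∃ y β : ℝ, (a * ν q) • ((-(Real.cos (2 * θ)) / 2) • n₁ q +
        Real.cos θ • n₂ q) = y • Jv q + β • n q :=
      ⟨a * ν q * Real.cos θ * √2, a * ν q * (-(Real.cos (2 * θ)) / 2) * (2 * B * ν q * ρ q ^ 2) +
        a * ν q * Real.cos θ * (-√2 * w q * k q + 2 * √2 * B * ρ q * w q), by
        simp only [hn₁, hn₂]; module⟩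
    rw [hβ] at m2
    obtain ⟨h1, h2, -, h4⟩ := H₃ q _ ((dd c (J.H l) q).2 - (y • Jv q + β • n q)) (Jv q) (n q)
      (m1.trans e3) (by rw [sub_sub, add_comm]; exact m2.trans e3) (by simp [hε₂.le])
      (by simp [hε₂.le]) a' b' (b' * y) (b' * β + e') (by rw [← h0]; module)
    subst h2
    exact ⟨h1, rfl, by linarith⟩
  · obtain ⟨θ, a, a1, m1, m2⟩ := main 1 q
    rw [J.h1] at m1 m2
    rw [a1 rfl, one_mul, Real.cos_two_mul] at m2
    have hu : Real.cos θ ∈ Icc (-1 : ℝ) 1 := ⟨Real.neg_one_le_cos θ, Real.cos_le_one θ⟩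
    have m3 : ‖(dd c F q).2 - T (q, Real.cos θ)‖ ≤ ε' := m2
    rcases le_max_iff.1 (H₂ (q, Real.cos θ) ⟨hq, hu⟩) with h | h
    · exact Or.inr (H₁ (q, Real.cos θ) ⟨h, hu⟩ _ _ _ _ (m1.trans e2) (m3.trans e2)
        (by simp [hε₁.le]) (by simp [hε₁.le]))
    · left
      have := abs_le.1 ((abs_al_le _).trans m3)
      rw [al_sub] at this
      linarith [this.1]

end Pass
end Pool.Agent.Lib.MP_72f1d0_gt
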