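import Mathlib
import Pool.Agent.Lib.MP_72f1d0_gt.PassB
import Pool.Agent.Lib.MP_72f1d0_gt.Defs2

/-! The pass making `α (τ)` positive. -/

open scoped ContDiff Topology
open Set Filter

namespace Pool.Agent.Lib.MP_72f1d0_gt
namespace Pass

/-- The normalised rotation of the first component. -/
noncomputable def jj (lam : ℝ) (z : G) : G := ((lam / ‖z.1‖) • (Complex.I * z.1), 0)

lemma jj_norm {lam : ℝ} (h : 0 ≤ lam) (z : G) : ‖jj lam z‖ ≤ lam := by
  rw [jj, Prod.norm_def, norm_zero, max_eq_left (norm_nonneg _), norm_smul, norm_mul,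
    Complex.norm_I, one_mul, Real.norm_eq_abs, abs_of_nonneg (by positivity)]
  rcases eq_or_ne ‖z.1‖ 0 with h0 | h0
  · rw [h0, mul_zero]; exact h
  · rw [div_mul_cancel₀ _ h0]

lemma vpart {lam : ℝ} (hl : 0 < lam) {z t : G} (hz : 0 < ‖z.1‖) {a b k w ρ : ℝ}
    (h : a • z + b • t + k • jj lam z + w • vR + ρ • vZ = 0) :
    |a| * ‖z.1‖ ≤ |b| * ‖t.1‖ ∧ |k| * lam ≤ |b| * ‖t.1‖ ∧
      a • z.2 + b • t.2 + (⟨w, ρ⟩ : ℂ) = 0 := by
  have h1 := congrArg Prod.fst h
  have h2 := congrArg Prod.snd h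
  have e : (⟨a, k * (lam / ‖z.1‖)⟩ : ℂ) * z.1 = -(b • t.1) := by
    have r1 := congrArg Complex.re h1
    have r2 := congrArg Complex.im h1
    generalize hg : lam / ‖z.1‖ = g at *
    apply Complex.ext <;> simp [jj, vR, vZ, hg] at r1 r2 ⊢ <;> linarith
  have n := congrArg norm e
  rw [norm_mul, norm_neg, norm_smul, Real.norm_eq_abs] at n
  have a1 := Complex.abs_re_le_norm (⟨a, k * (lam / ‖z.1‖)⟩ : ℂ)
  have a2 := Complex.abs_im_le_norm (⟨a, k * (lam / ‖z.1‖)⟩ : ℂ)
  simp only at a1 a2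
  refine ⟨n ▸ mul_le_mul_of_nonneg_right a1 hz.le, ?_, ?_⟩
  · rw [← n]
    rw [abs_mul, abs_of_pos (div_pos hl hz)] at a2
    calc |k| * lam = |k| * (lam / ‖z.1‖) * ‖z.1‖ := by field_simp
      _ ≤ _ := mul_le_mul_of_nonneg_right a2 hz.le
  · have r1 := congrArg Complex.re h2
    have r2 := congrArg Complex.im h2
    apply Complex.ext <;> simp [jj, vR, vZ] at r1 r2 ⊢ <;> linarith

lemma coord_ind {lam : ℝ} (hl : 0 < lam) {z : G} (hz : 0 < ‖z.1‖) : Ind4 z (jj lam z) vR vZ := by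
  intro a k w ρ h
  obtain ⟨h1, h2, h3⟩ := vpart (t := 0) (b := 0) hl hz (by simpa using h)
  simp only [abs_zero, zero_mul] at h1 h2
  have ha : a = 0 := abs_nonpos_iff.1 (by nlinarith [abs_nonneg a])
  have hk : k = 0 := abs_nonpos_iff.1 (by nlinarith [abs_nonneg k])
  subst ha hk
  simp only [zero_smul, zero_add] at h3
  exact ⟨rfl, rfl, congrArg Complex.re h3, congrArg Complex.im h3⟩

def S5 : Set R5 := {v | v.2.2.2.1 ^ 2 + v.2.2.2.2 ^ 2 ≤ v.2.2.1 ^ 2}

lemma isClosed_S5 : IsClosed S5 := isClosed_le (by fun_prop) (by fun_prop)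

lemma cone_S5 (v : R5) (t : ℝ) (_ : 0 < t) (hv : v ∈ S5) : t • v ∈ S5 := by
  have : v.2.2.2.1 ^ 2 + v.2.2.2.2 ^ 2 ≤ v.2.2.1 ^ 2 := hv
  show (t * v.2.2.2.1) ^ 2 + (t * v.2.2.2.2) ^ 2 ≤ (t * v.2.2.1) ^ 2
  nlinarith [sq_nonneg t]

lemma coord_cone {lam κ : ℝ} (hl : 0 < lam) (hl1 : lam ≤ 1) (hκ0 : 0 < κ) (hκ : κ ≤ lam / 10)
    {z t : G} (hz : RV κ z) (ht : RU κ t) : ∀ v ∈ S5, lc v z t (jj lam z) vR vZ = 0 → v = 0 := by
  rintro ⟨a, b, k, w, ρ⟩ hv h
  have hv' : w ^ 2 + ρ ^ 2 ≤ k ^ 2 := hv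
  obtain ⟨h1, h2, h3⟩ := vpart hl hz.pos h
  have n1 : ‖(⟨w, ρ⟩ : ℂ)‖ ≤ |k| := by
    rw [Complex.norm_eq_sqrt_sq_add_sq, ← Real.sqrt_sq_eq_abs]
    exact Real.sqrt_le_sqrt hv'
  have n2 : |b| * ‖t.2‖ ≤ |a| * ‖z.2‖ + |k| := by
    have : b • t.2 = -(a • z.2 + (⟨w, ρ⟩ : ℂ)) := by linear_combination h3
    have n := congrArg norm this
    rw [norm_neg, norm_smul, Real.norm_eq_abs] at n
    have := norm_add_le (a • z.2) (⟨w, ρ⟩ : ℂ)
    rw [norm_smul, Real.norm_eq_abs] at this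
    linarith
  have hb : b = 0 := by
    by_contra hb
    have bp : 0 < |b| * ‖t.2‖ := mul_pos (abs_pos.2 hb) ht.pos
    have s1 : |b| * ‖t.1‖ ≤ κ * (|b| * ‖t.2‖) := by
      have := mul_le_mul_of_nonneg_left (show ‖t.1‖ ≤ κ * ‖t.2‖ from ht.le) (abs_nonneg b)
      linarith
    have s2 : |a| * ‖z.2‖ ≤ κ * (|a| * ‖z.1‖) := by
      have := mul_le_mul_of_nonneg_left (show ‖z.2‖ ≤ κ * ‖z.1‖ from hz.le) (abs_nonneg a)
      linarith
    have s3 : |k| ≤ 1 / 10 * (|b| * ‖t.2‖) := by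
      have : |k| * lam ≤ 1 / 10 * (|b| * ‖t.2‖) * lam := by nlinarith
      exact le_of_mul_le_mul_right this hl
    have s4 : κ * (|a| * ‖z.1‖) ≤ κ * (κ * (|b| * ‖t.2‖)) :=
      mul_le_mul_of_nonneg_left (le_trans h1 s1) hκ0.le
    have s5 : κ * κ ≤ 1 / 100 := by nlinarith
    nlinarith
  subst hb
  obtain ⟨rfl, rfl, rfl, rfl⟩ := coord_ind hl hz.pos a k w ρ (by simpa [lc] using h)
  rfl

lemma cone_map {B : G →L[ℝ] G} (hB : ∀ v, B v = 0 → v = 0) {a₁ a₂ a₃ a₄ a₅ : G}
    (h : ∀ v ∈ S5, lc v a₁ a₂ a₃ a₄ a₅ = 0 → v = 0) :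
    ∀ v ∈ S5, lc v (B a₁) (B a₂) (B a₃) (B a₄) (B a₅) = 0 → v = 0 := fun v hv h0 =>
  h v hv (hB _ (by simpa [lc] using h0))

lemma ind4_map {B : G →L[ℝ] G} (hB : ∀ v, B v = 0 → v = 0) {a₁ a₂ a₃ a₄ : G}
    (h : Ind4 a₁ a₂ a₃ a₄) : Ind4 (B a₁) (B a₂) (B a₃) (B a₄) := fun a b c d h0 =>
  h a b c d (hB _ (by simpa using h0))

lemma seg_of_cone {μ τ p x r : G} (h : ∀ v ∈ S5, lc v μ τ (p - r) x r = 0 → v = 0) :
    SegInj (μ, τ) (μ, p) := segInj_snd fun a b₁ b₂ _ h0 => by
  have := h (a, b₁, b₂, 0, b₂) (by simp [S5]) (by rw [← h0]; simp only [lc]; module)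
  simp only [Prod.mk_eq_zero] at this
  exact ⟨this.1, this.2.1, this.2.2.1⟩

lemma ind4_pole {μ p x r : G} (h : Ind4 μ (p - r) x r) : Ind4 μ p x r := fun a b c d h0 => by
  obtain ⟨h1, h2, h3, h4⟩ := h a b c (b + d) (by rw [← h0]; module)
  exact ⟨h1, h2, h3, by linarith⟩

lemma ind3_std : Ind3 vR vX vZ := fun a b c h => by
  have h1 := congrArg (fun v : G => v.1.re) h
  have h2 := congrArg (fun v : G => v.2.re) h
  have h3 := congrArg (fun v : G => v.2.im) h
  simp [vR, vX, vZ] at h1 h2 h3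
  exact ⟨h2, h1, h3⟩

lemma al_poly {V0 V1 V2 V3 : G × G} (h0 : 0 < al V0.2) (h1 : 0 < al V1.2) (h2 : 0 < al V2.2)
    (h3 : 0 < al V3.2) (s : ℝ) : 0 < al (poly V0 V1 V2 V3 s).2 := by
  have key : ∀ (A B : G × G) (u : ℝ), 0 ≤ u → u ≤ 1 → 0 < al A.2 → 0 < al B.2 →
      0 < al (A + u • (B - A)).2 := fun A B u u0 u1 a b => by
    simp only [Prod.snd_add, Prod.smul_snd, Prod.snd_sub, al_add, al_smul, al_sub]
    rcases eq_or_lt_of_le u0 with rfl | h
    · simpa using a
    · nlinarith [mul_pos h b, mul_nonneg (sub_nonneg.2 u1) a.le]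
  obtain ⟨u, u0, u1, e | e | e⟩ := poly_cases V0 V1 V2 V3 s <;> rw [e]
  exacts [key _ _ u u0 u1 h0 h1, key _ _ u u0 u1 h1 h2, key _ _ u u0 u1 h2 h3]

lemma al_conv {a b : G} {u : ℝ} (u0 : 0 ≤ u) (u1 : u ≤ 1) (ha : 0 < al a) (hb : 0 < al b) :
    0 < al (a + u • (b - a)) := by
  simp only [al_add, al_smul, al_sub]
  rcases eq_or_lt_of_le u0 with rfl | h
  · simpa using ha
  · nlinarith [mul_pos h hb, mul_nonneg (sub_nonneg.2 u1) ha.le]

open Path.Homotopic.Quotient in
/-- First half: following the frames. -/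
theorem first (hC : CorrStmt) (hF : FramesStmt) {c : Ctx} {f : Q → G} (hf : IsEmb c f) {N : II}
    (γ : Path hf.d N) {d : Q → ℝ} (hd : ContDiff ℝ ∞ d) (pd : Per d) (hN : ∀ q, 0 < dl (N q))
    (hconst : ∀ q, 0 ≤ d q → d q ≤ 10 → ∀ t, γ t q = N q) {m : ℝ} (hm : 0 < m) :
    ∃ (F : Q → G) (hF : IsEmb c F) (J : Iso c f F) (E : II) (γ₂ : Path E N) (M : Mid hF.d E)
      (j x : Q → G), Continuous j ∧ Continuous x ∧ Per j ∧ Per x ∧
      (hc (J.path hf hF)).trans ((hc M.path).trans (hc γ₂)) = hc γ ∧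
      (∀ q, M.V1 q = ((dd c F q).1, j q + (E q).2)) ∧ (∀ q, M.V2 q = (x q, (E q).2)) ∧
      (∀ q, ∀ v ∈ S5, lc v (dd c F q).1 (dd c F q).2 (j q) (x q) (E q).2 = 0 → v = 0) ∧
      (∀ q, Ind4 (dd c F q).1 (j q) (x q) (E q).2) ∧ (∀ q, ‖j q‖ ≤ m) ∧
      (∀ q, 0 ≤ d q → x q = vW ∧ E q = N q ∧ ∀ t, γ₂ t q = N q) ∧
      (∀ q, d q < 5 → dd c F q = dd c f q ∧ E q = dd c f q) ∧ ∀ t q, ∃ t', γ₂ t q = γ t' q := by
  obtain ⟨C, C', cC, cC', pC, pC', iC, iC', C1, CK, C0⟩ := hF (fun x => γ.extend x.1 x.2)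
    (ext_cont γ) (fun s => (γ.extend s).per) fun s q _ _ => (γ.extend s).inj q
  simp only [Path.extend_one] at CK C0
  have cd := hd.continuous
  have hs := Real.smoothTransition.continuous
  set cq : Q → ℝ := fun q => Real.smoothTransition (d q - 7) with hcq
  have ccq : Continuous cq := by fun_prop
  have pcq : Per cq := pd.comp fun a => Real.smoothTransition (a - 7)
  have cq0 : ∀ q, 0 ≤ cq q := fun q => Real.smoothTransition.nonneg _
  have cq1 : ∀ q, cq q ≤ 1 := fun q => Real.smoothTransition.le_one _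
  obtain ⟨E, γ₁, γ₂, hE, h1, h2, hγ⟩ := trunc γ ccq pcq
  have cN := N.cont
  obtain ⟨L', cL', pL', iL, iL'⟩ := exists_inverse (a := fun q => (N q).1) (b := fun _ => vX)
    (c := fun _ => vW) (d := fun q => (N q).2) cN.fst continuous_const continuous_const cN.snd
    (N.per.comp Prod.fst) (per_const _) (per_const _) (N.per.comp Prod.snd)
    fun q a b e g h0 => by
      obtain ⟨h1, h2, h3, h4⟩ := ind4_of_dl (hN q).ne' a g b e (by rw [← h0]; module)
      exact ⟨h1, h3, h4, h2⟩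
  set L : Q → (G →L[ℝ] G) := fun q => fr4 (N q).1 vX vW (N q).2 with hL
  have cL : Continuous L := continuous_fr4 cN.fst continuous_const continuous_const cN.snd
  set B : ℝ × Q → (G →L[ℝ] G) := fun z => (C (cq z.2 * z.1, z.2)).comp (L z.2) with hB
  set B' : ℝ × Q → (G →L[ℝ] G) := fun z => (L' z.2).comp (C' (cq z.2 * z.1, z.2)) with hB'
  have fr : IsFr B B' :=
    ⟨(cC.comp (by fun_prop)).clm_comp (cL.comp continuous_snd),
      (cL'.comp continuous_snd).clm_comp (cC'.comp (by fun_prop)),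
      fun s q m => by simp only [hB, hL, pcq q m, pC _ q m, N.per q m],
      fun s q m => by simp only [hB', pcq q m, pC' _ q m, pL' q m],
      fun z v => by simp only [hB, hB', ContinuousLinearMap.comp_apply, hL, iL, iC],
      fun z v => by simp only [hB, hB', ContinuousLinearMap.comp_apply, hL, iL', iC']⟩
  have Binj : ∀ z v, B z v = 0 → v = 0 := fun z v h => by rw [← fr.inv' z v, h, map_zero]
  have LX : ∀ q, L q vX = (N q).1 := fun q => by simp [hL, fr4_apply, vX]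
  have LR : ∀ q, L q vR = vW := fun q => by simp [hL, fr4_apply, vR]
  have LZ : ∀ q, L q vZ = (N q).2 := fun q => by simp [hL, fr4_apply, vZ]
  have BXZ : ∀ s q, 0 ≤ s → s ≤ 1 → (B (s, q) vX, B (s, q) vZ) = γ.extend (cq q * s) q := by
    intro s q s0 s1
    have := CK (cq q * s) q (mul_nonneg (cq0 q) s0) (by nlinarith [cq0 q, cq1 q])
    simp only [hB, ContinuousLinearMap.comp_apply, LX, LZ, this.1, this.2]
  have hext : ∀ q, 0 ≤ d q → d q ≤ 10 → ∀ s, γ.extend s q = N q := fun q a b s => by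
    obtain ⟨t, ht⟩ := ext_mem γ s
    rw [ht]; exact hconst q a b t
  obtain ⟨Cb, hCb, HCb⟩ := per_bound (K := Icc (0 : ℝ) 1) isCompact_Icc
    (g := fun x : Q × ℝ => B (x.2, x.1)) (fr.cont.comp (by fun_prop)) fr.per
  set lam : ℝ := min 1 (m / Cb) with hlam
  have l0 : 0 < lam := by positivity
  have l1 : lam ≤ 1 := min_le_left _ _
  have l2 : Cb * lam ≤ m := by
    calc Cb * lam ≤ Cb * (m / Cb) := by gcongr; exact min_le_right _ _
      _ = m := by field_simp
  set ν : Q → ℝ := fun q => Real.smoothTransition (d q - 5) with hν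
  have B0 : ∀ q, B (0, q) vX = (dd c f q).1 ∧ B (0, q) vZ = (dd c f q).2 := fun q => by
    have := BXZ 0 q le_rfl zero_le_one
    rw [mul_zero, Path.extend_zero] at this
    exact ⟨congrArg Prod.fst this, congrArg Prod.snd this⟩
  obtain ⟨F, hF, -, J, σ, cσ, σ0, σ1, σr, hP, hU⟩ := runJ hC hf fr (ν := ν)
    (Real.smoothTransition.contDiff.comp (hd.sub contDiff_const))
    (pd.comp fun a => Real.smoothTransition (a - 5))
    (fun q => ⟨Real.smoothTransition.nonneg _, Real.smoothTransition.le_one _⟩)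
    (fun q => by
      rcases le_total 6 (d q) with h | h
      · exact Or.inl (Real.smoothTransition.one_of_one_le (by linarith))
      · refine Or.inr fun s => ?_
        have : cq q = 0 := Real.smoothTransition.zero_of_nonpos (by linarith)
        simp only [hB', this, zero_mul])
    (δ := lam / 40) (by positivity) (by linarith) fun q => by
      rw [← (B0 q).1, ← (B0 q).2, fr.inv', fr.inv']
      constructor <;> simp [RV, RU, vX, vZ, l0]
  have cH := J.dd_cont
  set z : ℝ × Q → G := fun y => B' (σ y.1, y.2) (dd c (J.H y.1) y.2).1 with hz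
  have cBσ : Continuous fun y : ℝ × Q => B (σ y.1, y.2) := fr.cont.comp (by fun_prop)
  have cz : Continuous z := (fr.cont'.comp (by fun_prop)).clm_apply cH.fst
  have zpos : ∀ y, 0 < ‖(z y).1‖ := fun y => (hP y.1 y.2).1.pos
  set j : ℝ × Q → G := fun y => B (σ y.1, y.2) (jj lam (z y)) with hj
  have cj : Continuous j := by
    refine cBσ.clm_apply (Continuous.prodMk (Continuous.smul (Continuous.div continuous_const
      cz.fst.norm fun y => (zpos y).ne') (by fun_prop)) continuous_const)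
  have pj : ∀ l, Per fun q => j (l, q) := fun l q m => by
    simp only [hj, hz, fr.per _ q m, fr.per' _ q m, (J.emb l).dd_per q m]
  have cone : ∀ l q, ∀ v ∈ S5, lc v (dd c (J.H l) q).1 (dd c (J.H l) q).2 (j (l, q))
      (B (σ l, q) vR) (B (σ l, q) vZ) = 0 → v = 0 := fun l q => by
    have := cone_map (Binj (σ l, q)) (coord_cone l0 l1 (by positivity) (by linarith)
      (hP l q).1 (hP l q).2)
    rwa [fr.inv, fr.inv] at this
  have ind : ∀ l q, Ind4 (dd c (J.H l) q).1 (j (l, q)) (B (σ l, q) vR) (B (σ l, q) vZ) :=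
    fun l q => by
      have := ind4_map (Binj (σ l, q)) (coord_ind l0 (zpos (l, q)))
      rwa [hz, fr.inv] at this
  -- the loop at the start is contractible
  have cf := hf.dd_smooth.continuous
  let Mc : Mid hf.d hf.d := ⟨hf.d, hf.d, hf.d.cont, hf.d.cont, hf.d.per, hf.d.per, fun q =>
    ⟨fun u _ _ => by simpa using hf.imm q, fun u _ _ => by simpa using hf.imm q,
      fun u _ _ => by simpa using hf.imm q⟩⟩
  have eMc : Mc.path = Path.refl _ := by
    ext1; funext t; exact II.ext' fun q => by simp [Mid.path_apply, Mc, poly]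
  have cj0 : Continuous fun q => j (0, q) := cj.comp (by fun_prop)
  have cx0 : Continuous fun q => B (0, q) vR :=
    (fr.cont.comp (by fun_prop)).clm_apply continuous_const
  obtain ⟨M₀, m1, m2, m3⟩ := poly_square (Path.refl hf.d) (Path.refl hf.d) Mc
    (V1 := fun y => ((dd c f y.2).1,
      (dd c f y.2).2 + y.1 • (j (0, y.2) + (dd c f y.2).2 - (dd c f y.2).2)))
    (V2 := fun y => ((dd c f y.2).1 + y.1 • (B (0, y.2) vR - (dd c f y.2).1),
      (dd c f y.2).2 + y.1 • ((dd c f y.2).2 - (dd c f y.2).2)))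
    ((cf.comp continuous_snd).fst.prodMk ((cf.comp continuous_snd).snd.add (continuous_fst.smul
      (((cj0.comp continuous_snd).add (cf.comp continuous_snd).snd).sub
        (cf.comp continuous_snd).snd))))
    (((cf.comp continuous_snd).fst.add (continuous_fst.smul ((cx0.comp continuous_snd).sub
      (cf.comp continuous_snd).fst))).prodMk ((cf.comp continuous_snd).snd.add (continuous_fst.smul
        ((cf.comp continuous_snd).snd.sub (cf.comp continuous_snd).snd))))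
    (fun l q m => by simp only [hf.dd_per q m, pj 0 q m])
    (fun l q m => by simp only [hf.dd_per q m, fr.per 0 q m])
    (fun t q => val_cut (m := (dd c f q).1) (r := (dd c f q).2) (p := j (0, q) + (dd c f q).2)
      (x := B (0, q) vR) (ind4_pole (by
      have := ind 0 q
      rw [J.h0, σ0, (B0 q).2] at this
      rwa [add_sub_cancel_right])) t) (fun q => by simp [Mc]) (fun q => by simp [Mc])
  rw [eMc, hc_refl, refl_trans, refl_trans] at m3
  have fv : IsFam fun y : ℝ × Q => γ.extend (cq y.2 * σ y.1) y.2 :=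
    ⟨(ext_cont γ).comp (f := fun y : ℝ × Q => (cq y.2 * σ y.1, y.2)) (by fun_prop),
      fun s q m => by simp only [pcq q m, (γ.extend _).per q m], fun s q _ _ => (γ.extend _).inj q⟩
  let v : Path hf.d E := mkPath fv (fun q => by simp [σ0]) (fun q => by simp [σ1, hE])
  have hv : hc v = hc γ₁ := hc_reparam γ₁ v cσ σ0 σ1 fun t => II.ext' fun q => by
    rw [Path.extend_apply _ ⟨(σr t).1, (σr t).2⟩, h1]; rfl
  have EB : ∀ q, E q = (B (1, q) vX, B (1, q) vZ) := fun q => by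
    rw [BXZ 1 q zero_le_one le_rfl, hE, mul_one]
  obtain ⟨M₁, n1, n2, n3⟩ := poly_square (J.path hf hF) v M₀
    (V1 := fun y => ((dd c (J.H y.1) y.2).1, j y + B (σ y.1, y.2) vZ))
    (V2 := fun y => (B (σ y.1, y.2) vR, B (σ y.1, y.2) vZ))
    (cH.fst.prodMk (cj.add (cBσ.clm_apply continuous_const)))
    ((cBσ.clm_apply continuous_const).prodMk (cBσ.clm_apply continuous_const))
    (fun l q m => by simp only [(J.emb l).dd_per q m, pj l q m, fr.per _ q m])
    (fun l q m => by simp only [fr.per _ q m])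
    (fun t q => by
      refine ⟨seg_of_cone (x := B (σ t, q) vR) (r := B (σ t, q) vZ) ?_,
        segInj_of_ind4 (ind4_pole ?_), ?_⟩
      · rw [add_sub_cancel_right]; exact cone t q
      · rw [add_sub_cancel_right]; exact ind t q
      · have : v t q = (B (σ t, q) vX, B (σ t, q) vZ) := (BXZ _ q (σr t).1 (σr t).2).symm
        rw [this]
        exact segInj_fst fun a b e h0 => ind3_std a b e (Binj (σ t, q) _ (by simpa using h0)))
    (fun q => by simp [m1, J.h0, σ0, (B0 q).2, add_comm]) (fun q => by simp [m2, σ0, (B0 q).2])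
  rw [m3, refl_trans, hv] at n3
  have hunch : ∀ q, d q < 5 → dd c F q = dd c f q := fun q hq => by
    rw [← J.h1]
    exact dd_congr_open c (isOpen_lt cd continuous_const) (fun q hq => hU 1 q
      (Real.smoothTransition.zero_of_nonpos (sub_nonpos.2 (le_of_lt hq)))) hq
  refine ⟨F, hF, J, E, γ₂, M₁, fun q => j (1, q), fun q => B (1, q) vR, cj.comp (by fun_prop),
    (fr.cont.comp (by fun_prop)).clm_apply continuous_const, pj 1,
    (fr.per 1).comp fun y => y vR, by rw [← trans_assoc, n3, hγ],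
    fun q => by rw [n1, EB, J.h1, σ1], fun q => by rw [n2, EB, σ1], fun q => ?_, fun q => ?_,
    fun q => ?_, fun q hq => ?_, fun q hq => ⟨hunch q hq, ?_⟩, fun t q => ?_⟩
  · have := cone 1 q
    rwa [J.h1, σ1, ← show (E q).2 = B (1, q) vZ from congrArg Prod.snd (EB q)] at this
  · have := ind 1 q
    rwa [J.h1, σ1, ← show (E q).2 = B (1, q) vZ from congrArg Prod.snd (EB q)] at this
  · refine (ContinuousLinearMap.le_of_opNorm_le _ (HCb q _ ⟨(σr 1).1, (σr 1).2⟩) _).trans ?_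
    exact (mul_le_mul_of_nonneg_left (jj_norm l0.le _) hCb.le).trans l2
  · rcases le_total (d q) 10 with h | h
    · refine ⟨?_, by rw [hE, hext q hq h], fun t => by rw [h2, hext q hq h]⟩
      simp only [hB, ContinuousLinearMap.comp_apply, LR]
      exact C0 q (fun s _ _ => hext q hq h s) _ _
    · have : cq q = 1 := Real.smoothTransition.one_of_one_le (by linarith)
      refine ⟨?_, by rw [hE, this, Path.extend_one], fun t => by rw [h2, this]; simp⟩
      simp only [hB, ContinuousLinearMap.comp_apply, LR, this, mul_one, C1]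
  · have : cq q = 0 := Real.smoothTransition.zero_of_nonpos (by linarith)
    rw [hE, this, Path.extend_zero]; rfl
  · obtain ⟨t', ht'⟩ := ext_mem γ (cq q + (1 - cq q) * t)
    exact ⟨t', by rw [h2, ht']⟩

end Pass
end Pool.Agent.Lib.MP_72f1d0_gt
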