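import Mathlib
import Pool.Agent.Lib.MP_72f1d0_gt.Defs3

/-! Following a path of frames by successive corrugations, with control of the displacement. -/

open scoped ContDiff Topology
open Set Filter

namespace Pool.Agent.Lib.MP_72f1d0_gt

/-- One corrugation improves the ratio of the vector `a = df v₁`. -/
theorem step2 (hC : Corr2Stmt) {c : Ctx} {f : Q → G} (hf : IsEmb c f) (ℓ k : Q →L[ℝ] ℝ)
    (hℓ : ∀ m, ∃ n : ℤ, ℓ (lat m) = n) (v₁ v₂ : Q) (hv : ∀ v, v = ℓ v • v₁ + k v • v₂)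
    (h1 : ℓ v₁ = 1) (h2 : ℓ v₂ = 0) (n1 : ‖v₁‖ ≤ 1) (n2 : ‖v₂‖ ≤ 1)
    {B B' : Q → (G →L[ℝ] G)} (hB : Continuous B) (hB' : Continuous B') (hBp : Per B)
    (hBp' : Per B') (hBB : ∀ q v, B' q (B q v) = v)
    {ν : Q → ℝ} (hν : ContDiff ℝ ∞ ν) (hνp : Per ν) (hν01 : ∀ q, 0 ≤ ν q ∧ ν q ≤ 1)
    {δ : ℝ} (hδ : 0 < δ) (hδ1 : δ ≤ 1 / 10)
    (ha : ∀ q, RV (δ * √(1 + ν q ^ 2)) (B' q (ap (dd c f q) v₁)))
    (hb : ∀ q, RU (2 * δ) (B' q (ap (dd c f q) v₂))) {ε : ℝ} (hε : 0 < ε) :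
    ∃ (F : Q → G) (J : Iso c f F), (∀ l q, ν q = 0 → J.H l q = f q) ∧
      (∀ l q, RV (4 * δ) (B' q (ap (dd c (J.H l) q) v₁)) ∧
        ‖ap (dd c (J.H l) q) v₂ - ap (dd c f q) v₂‖ ≤ ε ∧ ‖J.H l q - f q‖ ≤ ε) ∧
      ∀ q, RV δ (B' q (ap (dd c F q) v₁)) := by
  have hdd := hf.dd_smooth.continuous
  have hνc := hν.continuous
  set z : Q → G := fun q => B' q (ap (dd c f q) v₁) with hz
  have hzc : Continuous z := hB'.clm_apply (continuous_ap.comp (hdd.prodMk continuous_const))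
  have hzp : Per z := fun q m => by simp only [hz, hBp' q m, hf.dd_per q m]
  have hs2 : ∀ q, √(1 + ν q ^ 2) ≤ 2 := fun q => by
    rw [Real.sqrt_le_iff]; constructor <;> nlinarith [hν01 q]
  obtain ⟨m, hm, hm1, -⟩ := rv_margin (d := fun q => δ * √(1 + ν q ^ 2)) (by fun_prop)
    (hνp.comp fun y => δ * √(1 + y ^ 2)) (fun q => by positivity)
    (fun q => by nlinarith [hs2 q]) hzc hzp ha
  obtain ⟨C, hC0, hCb⟩ := per_bound0 hB' hBp'
  have key : ∀ q (x y : ℝ), B' q (ap (dd c f q) v₁ + x • (ν q • B q ((z q).1, 0)) +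
      y • (√3 • B q (Complex.I * (z q).1, 0))) = ((⟨1 + x * ν q, y * √3⟩ : ℂ) * (z q).1, (z q).2) := by
    intro q x y
    simp only [map_add, map_smul, hBB]
    ext1
    · apply Complex.ext <;> simp [hz] <;> ring
    · simp [hz]
  obtain ⟨F, J, hJ0, hJn, hJ⟩ := hC c f hf ℓ hℓ ν hν hνp (fun q => ν q • B q ((z q).1, 0))
    (fun q => √3 • B q (Complex.I * (z q).1, 0)) 
    (hνc.smul (hB.clm_apply (g := fun q => ((z q).1, 0)) (by fun_prop)))
    ((hB.clm_apply (g := fun q => (Complex.I * (z q).1, 0)) (by fun_prop)).const_smul (√3 : ℝ))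
    (fun q m => by simp only [hνp q m, hBp q m, hzp q m])
    (fun q m => by simp only [hBp q m, hzp q m]) (by
      intro q v x y hx hy h0
      set t := B' q (ap (dd c f q) v₂) with ht
      have e1 : ap (dd c f q) v = ℓ v • ap (dd c f q) v₁ + k v • ap (dd c f q) v₂ := by
        conv_lhs => rw [hv v]
        simp only [ap_dd, map_add, map_smul]
      have e2 := congrArg (B' q) h0
      rw [e1] at e2
      simp only [map_add, map_smul, hBB, map_zero] at e2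
      have e3 : (⟨ℓ v + x * ν q * ν q, y * ν q * √3⟩ : ℂ) * (z q).1 = -(k v • t.1) := by
        have := congrArg Prod.fst e2
        have r1 := congrArg Complex.re this
        have r2 := congrArg Complex.im this
        apply Complex.ext <;> simp [hz, ← ht] at r1 r2 ⊢ <;> linarith
      have e4 : ℓ v • (z q).2 = -(k v • t.2) := by
        have := congrArg Prod.snd e2
        simp only [Prod.snd_add, Prod.smul_snd, smul_zero, add_zero, Prod.snd_zero] at this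
        exact eq_neg_of_add_eq_zero_left this
      have n3 := congrArg norm e3
      have n4 := congrArg norm e4
      rw [norm_mul, norm_neg, norm_smul, Real.norm_eq_abs] at n3
      rw [norm_neg, norm_smul, norm_smul, Real.norm_eq_abs, Real.norm_eq_abs] at n4
      have n5 : |ℓ v| / 2 ≤ ‖(⟨ℓ v + x * ν q * ν q, y * ν q * √3⟩ : ℂ)‖ := by
        refine le_trans ?_ (Complex.abs_re_le_norm _)
        have a1 : |x * ν q * ν q| ≤ |ℓ v| / 2 := by
          rw [mul_assoc, abs_mul, abs_of_nonneg (mul_nonneg (hν01 q).1 (hν01 q).1)]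
          have : ν q * ν q ≤ 1 := by nlinarith [hν01 q]
          nlinarith [abs_nonneg x]
        have a2 := abs_sub_abs_le_abs_add (ℓ v) (x * ν q * ν q)
        show _ ≤ |ℓ v + x * ν q * ν q|
        linarith
      have p1 := (ha q).pos
      have p2 := (hb q).pos
      have q1 : ‖(z q).2‖ ≤ 2 * δ * ‖(z q).1‖ := ((ha q).mono (by nlinarith [hs2 q])).le
      have q2 : ‖t.1‖ ≤ 2 * δ * ‖t.2‖ := (hb q).le
      have l0 : |ℓ v| = 0 := by
        by_contra hne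
        have lp : 0 < |ℓ v| := lt_of_le_of_ne (abs_nonneg _) (Ne.symm hne)
        have s1 : |ℓ v| / 2 * ‖(z q).1‖ ≤ |k v| * ‖t.1‖ := by
          rw [← n3]; exact mul_le_mul_of_nonneg_right n5 (norm_nonneg _)
        have s2 : |k v| * ‖t.1‖ ≤ 2 * δ * (|ℓ v| * ‖(z q).2‖) := by
          rw [n4]; nlinarith [abs_nonneg (k v)]
        have s3 : |ℓ v| * ‖(z q).2‖ ≤ 2 * δ * (|ℓ v| * ‖(z q).1‖) := by nlinarith
        have s4 : 0 < |ℓ v| * ‖(z q).1‖ := mul_pos lp p1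
        have s5 : 2 * δ * (|ℓ v| * ‖(z q).2‖) ≤ 2 * δ * (2 * δ * (|ℓ v| * ‖(z q).1‖)) := by
          gcongr
        have s6 : 2 * δ * (2 * δ) ≤ 1 / 25 := by nlinarith
        nlinarith
      have k0 : |k v| = 0 := by
        rw [l0, zero_mul] at n4
        exact (mul_eq_zero.1 n4.symm).resolve_right p2.ne'
      rw [hv v, abs_eq_zero.1 l0, abs_eq_zero.1 k0]; simp)
    (min ε (m / 4 / C)) (lt_min hε (by positivity))
  have main : ∀ l q, ∃ ζ : ℂ, 1 / 2 ≤ ‖ζ‖ ∧ (l = 1 → √(1 + ν q ^ 2) ≤ ‖ζ‖) ∧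
      ‖B' q (ap (dd c (J.H l) q) v₁) - (ζ * (z q).1, (z q).2)‖ ≤ m / 4 := by
    intro l q
    obtain ⟨θ, a, a0, a1, a2, H⟩ := hJ l q
    refine ⟨⟨1 + a * ν q * (-(Real.cos (2 * θ)) / 2) * ν q, a * ν q * Real.cos θ * √3⟩,
      norm_factor_half _ _ ?_, fun hl => ?_, ?_⟩
    · have c1 := Real.abs_cos_le_one (2 * θ)
      have c2 : a * ν q * ν q ≤ 1 := by
        have := hν01 q
        have : a * ν q ≤ 1 := by nlinarith
        nlinarith [mul_nonneg a0 (hν01 q).1]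
      have c3 : 0 ≤ a * ν q * ν q := by have := hν01 q; have := this.1; positivity
      rw [show a * ν q * (-(Real.cos (2 * θ)) / 2) * ν q =
        -(a * ν q * ν q * Real.cos (2 * θ) / 2) by ring, abs_neg, abs_div, abs_mul, abs_of_nonneg c3]
      norm_num
      nlinarith [abs_nonneg (Real.cos (2 * θ))]
    · rw [a2 hl]
      refine (norm_factor_gain (ν q) θ).trans_eq ?_
      congr 2 <;> ring
    · rw [← key, ← map_sub]
      refine ((B' q).le_of_opNorm_le (hCb q) _).trans ?_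
      have H1 := H v₁
      rw [h1, one_mul, smul_add, smul_smul (a * ν q), smul_smul (a * ν q), ← add_assoc] at H1
      have : min ε (m / 4 / C) * ‖v₁‖ ≤ m / 4 / C := by
        have := min_le_right ε (m / 4 / C)
        have h0 : 0 < min ε (m / 4 / C) := lt_min hε (by positivity)
        nlinarith
      calc _ ≤ C * (m / 4 / C) := by gcongr; exact H1.trans this
        _ = m / 4 := by field_simp
  have fin : ∀ (w : G) q (ζ : ℂ) (d : ℝ), 0 ≤ d → d ≤ 1 → δ * √(1 + ν q ^ 2) ≤ d * ‖ζ‖ →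
      ‖w - (ζ * (z q).1, (z q).2)‖ ≤ m / 4 → RV d w := by
    intro w q ζ d d0 d1 hd hw
    have a1 : ‖w.1 - ζ * (z q).1‖ ≤ m / 4 := (norm_fst_le (w - (ζ * (z q).1, (z q).2))).trans hw
    have a2 : ‖w.2 - (z q).2‖ ≤ m / 4 := (norm_snd_le (w - (ζ * (z q).1, (z q).2))).trans hw
    have b1 : ‖ζ‖ * ‖(z q).1‖ - ‖w.1 - ζ * (z q).1‖ ≤ ‖w.1‖ := by
      have := norm_sub_norm_le (ζ * (z q).1) w.1
      rw [norm_sub_rev, norm_mul] at this; linarith
    have b2 := norm_sub_norm_le w.2 (z q).2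
    have b3 := hm1 q
    have b4 : δ * √(1 + ν q ^ 2) * ‖(z q).1‖ ≤ d * ‖ζ‖ * ‖(z q).1‖ := by gcongr
    unfold RV
    nlinarith
  refine ⟨F, J, hJ0, fun l q => ⟨?_, ?_, (hJn l q).trans (min_le_left _ _)⟩, fun q => ?_⟩
  · obtain ⟨ζ, z1, -, z3⟩ := main l q
    exact fin _ q ζ _ (by positivity) (by linarith) (by nlinarith [hs2 q]) z3
  · obtain ⟨θ, a, -, -, -, H⟩ := hJ l q
    have H1 := H v₂
    rw [h2, zero_mul, zero_smul, add_zero] at H1
    have := min_le_left ε (m / 4 / C)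
    have h0 : 0 < min ε (m / 4 / C) := lt_min hε (by positivity)
    nlinarith
  · obtain ⟨ζ, -, z2, z3⟩ := main 1 q
    rw [J.h1] at z3
    exact fin _ q ζ _ hδ.le (by linarith) (by have := z2 rfl; gcongr) z3

/-- An isotopy along which the parameter `σ` moves from `a` to `b` and `P σ` holds. -/
def Track2 (c : Ctx) (P : ℝ → Q → G → G × G → Prop) (U : Set Q) (f F : Q → G) (a b : ℝ) : Prop :=
  ∃ (J : Iso c f F) (σ : ℝ → ℝ), Continuous σ ∧ σ 0 = a ∧ σ 1 = b ∧ (∀ l, 0 ≤ σ l ∧ σ l ≤ 1) ∧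
    (∀ l q, P (σ l) q (J.H l q) (dd c (J.H l) q)) ∧ ∀ l, ∀ q ∈ U, J.H l q = f q

lemma Track2.trans {c : Ctx} {P : ℝ → Q → G → G × G → Prop} {U : Set Q} {f F F' : Q → G} {a b d : ℝ}
    (h : Track2 c P U f F a b) (h' : Track2 c P U F F' b d) : Track2 c P U f F' a d := by
  obtain ⟨J, σ, c1, a1, b1, r1, p1, u1⟩ := h
  obtain ⟨J', σ', c2, a2, b2, r2, p2, u2⟩ := h'
  have hs := Real.smoothTransition.continuous
  have e : ∀ l : ℝ, σ (Real.smoothTransition (2 * l)) + σ' (Real.smoothTransition (2 * l - 1)) - b =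
      if l ≤ 1 / 2 then σ (Real.smoothTransition (2 * l))
      else σ' (Real.smoothTransition (2 * l - 1)) := by
    intro l
    split_ifs with h
    · rw [Real.smoothTransition.zero_of_nonpos (by linarith : 2 * l - 1 ≤ 0), a2]; ring
    · rw [Real.smoothTransition.one_of_one_le (by linarith : 1 ≤ 2 * l), b1]; ring
  refine ⟨J.trans J', fun l => σ (Real.smoothTransition (2 * l)) +
    σ' (Real.smoothTransition (2 * l - 1)) - b, by fun_prop, ?_, ?_, fun l => ?_, fun l q => ?_,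
    fun l q hq => ?_⟩
  · simp only [e]; simp [a1]
  · simp only [e]; norm_num [b2]
  · simp only [e]; split_ifs
    · exact r1 _
    · exact r2 _
  · simp only [e, Iso.trans_H]; split_ifs
    · exact p1 _ q
    · exact p2 _ q
  · rw [Iso.trans_H]; split_ifs
    · exact u1 _ q hq
    · rw [u2 _ q hq, ← u1 1 q hq, J.h1]

lemma Track2.stay {c : Ctx} {P : ℝ → Q → G → G × G → Prop} {U : Set Q} {f : Q → G} (hf : IsEmb c f)
    {a b : ℝ} (h0 : 0 ≤ a) (hab : a ≤ b) (h1 : b ≤ 1)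
    (h : ∀ s, a ≤ s → s ≤ b → ∀ q, P s q (f q) (dd c f q)) : Track2 c P U f f a b := by
  have i1 : ∀ l, a ≤ a + (b - a) * cl l := fun l => by nlinarith [cl_nonneg l]
  have i2 : ∀ l, a + (b - a) * cl l ≤ b := fun l => by nlinarith [cl_le_one l]
  exact ⟨Iso.refl hf, fun l => a + (b - a) * cl l, by fun_prop, by simp, by simp,
    fun l => ⟨h0.trans (i1 l), (i2 l).trans h1⟩, fun l q => h _ (i1 l) (i2 l) q, fun _ _ _ => rfl⟩

lemma Track2.iso {c : Ctx} {P : ℝ → Q → G → G × G → Prop} {U : Set Q} {f F : Q → G} (J : Iso c f F)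
    {a : ℝ} (h0 : 0 ≤ a) (h1 : a ≤ 1) (h : ∀ l q, P a q (J.H l q) (dd c (J.H l) q))
    (hU : ∀ l, ∀ q ∈ U, J.H l q = f q) : Track2 c P U f F a a :=
  ⟨J, fun _ => a, continuous_const, rfl, rfl, fun _ => ⟨h0, h1⟩, h, hU⟩

lemma run2 {c : Ctx} {P : ℝ → Q → G → G × G → Prop} {U : Set Q} {St : ℝ → (Q → G) → Prop} {η : ℝ}
    (hη : 0 < η) (hstep : ∀ s s' f, 0 ≤ s → s ≤ s' → s' ≤ 1 → s' - s ≤ η → IsEmb c f → St s f →
      ∃ F, IsEmb c F ∧ St s' F ∧ Track2 c P U f F s s') {f : Q → G} (hf : IsEmb c f)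
    (h0 : St 0 f) : ∃ F, IsEmb c F ∧ St 1 F ∧ Track2 c P U f F 0 1 := by
  have key : ∀ k : ℕ, ∃ F, IsEmb c F ∧ St (min (k * η) 1) F ∧ Track2 c P U f F 0 (min (k * η) 1) := by
    intro k
    induction k with
    | zero => simpa using hstep 0 0 f le_rfl le_rfl zero_le_one (by linarith) hf h0
    | succ k ih =>
      obtain ⟨F, hF, s1, t1⟩ := ih
      have hk : (0 : ℝ) ≤ k * η := by positivity
      obtain ⟨F', hF', s2, t2⟩ := hstep _ (min ((k + 1 : ℕ) * η) 1) F (le_min hk zero_le_one)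
        (min_le_min_right _ (by push_cast; nlinarith)) (min_le_right _ _) (by
          push_cast
          rcases le_total (k * η) 1 with h | h
          · rw [min_eq_left h]; linarith [min_le_left (((k : ℝ) + 1) * η) 1]
          · rw [min_eq_right h]; linarith [min_le_right (((k : ℝ) + 1) * η) 1]) hF s1
      exact ⟨F', hF', s2, t1.trans t2⟩
  obtain ⟨k, hk⟩ := exists_nat_ge (1 / η)
  have : 1 ≤ k * η := by rwa [div_le_iff₀ hη] at hk
  simpa [min_eq_right this] using key k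

lemma stepMu2 (hC : Corr2Stmt) {c : Ctx} {f : Q → G} (hf : IsEmb c f)
    {B B' : ℝ × Q → (G →L[ℝ] G)} (hB : IsFr B B') (s : ℝ)
    {ν : Q → ℝ} (hν : ContDiff ℝ ∞ ν) (hνp : Per ν) (hν01 : ∀ q, 0 ≤ ν q ∧ ν q ≤ 1)
    {δ : ℝ} (hδ : 0 < δ) (hδ1 : δ ≤ 1 / 10)
    (ha : ∀ q, RV (δ * √(1 + ν q ^ 2)) (B' (s, q) (dd c f q).1))
    (hb : ∀ q, RU (2 * δ) (B' (s, q) (dd c f q).2)) {ε : ℝ} (hε : 0 < ε) :
    ∃ (F : Q → G) (J : Iso c f F), (∀ l q, ν q = 0 → J.H l q = f q) ∧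
      (∀ l q, RV (4 * δ) (B' (s, q) (dd c (J.H l) q).1) ∧
        ‖(dd c (J.H l) q).2 - (dd c f q).2‖ ≤ ε ∧ ‖J.H l q - f q‖ ≤ ε) ∧
      ∀ q, RV δ (B' (s, q) (dd c F q).1) := by
  simpa using step2 hC hf (ContinuousLinearMap.fst ℝ ℝ ℝ) (ContinuousLinearMap.snd ℝ ℝ ℝ)
    (fun m => ⟨m.1, rfl⟩) (1, 0) (0, 1) (fun v => by simp) rfl rfl (by simp) (by simp)
    (B := fun q => B (s, q)) (B' := fun q => B' (s, q)) (hB.cont.comp (by fun_prop))
    (hB.cont'.comp (by fun_prop)) (hB.per s) (hB.per' s) (fun q v => hB.inv' _ v) hν hνp hν01 hδ hδ1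
    (by simpa using ha) (by simpa using hb) hε

lemma stepTau2 (hC : Corr2Stmt) {c : Ctx} {f : Q → G} (hf : IsEmb c f)
    {B B' : ℝ × Q → (G →L[ℝ] G)} (hB : IsFr B B') (s : ℝ)
    {ν : Q → ℝ} (hν : ContDiff ℝ ∞ ν) (hνp : Per ν) (hν01 : ∀ q, 0 ≤ ν q ∧ ν q ≤ 1)
    {δ : ℝ} (hδ : 0 < δ) (hδ1 : δ ≤ 1 / 10)
    (ha : ∀ q, RU (δ * √(1 + ν q ^ 2)) (B' (s, q) (dd c f q).2))
    (hb : ∀ q, RV (2 * δ) (B' (s, q) (dd c f q).1)) {ε : ℝ} (hε : 0 < ε) :
    ∃ (F : Q → G) (J : Iso c f F), (∀ l q, ν q = 0 → J.H l q = f q) ∧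
      (∀ l q, RU (4 * δ) (B' (s, q) (dd c (J.H l) q).2) ∧
        ‖(dd c (J.H l) q).1 - (dd c f q).1‖ ≤ ε ∧ ‖J.H l q - f q‖ ≤ ε) ∧
      ∀ q, RU δ (B' (s, q) (dd c F q).2) := by
  have := step2 hC hf (ContinuousLinearMap.snd ℝ ℝ ℝ) (ContinuousLinearMap.fst ℝ ℝ ℝ)
    (fun m => ⟨m.2, rfl⟩) (0, 1) (1, 0) (fun v => by simp) rfl rfl (by simp) (by simp)
    (B := fun q => (B (s, q)).comp swG) (B' := fun q => swG.comp (B' (s, q)))
    ((hB.cont.comp (by fun_prop)).clm_comp continuous_const)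
    (continuous_const.clm_comp (hB.cont'.comp (by fun_prop)))
    ((hB.per s).comp fun y => y.comp swG) ((hB.per' s).comp fun y => swG.comp y)
    (fun q v => by simp [hB.inv']) hν hνp hν01 hδ hδ1
    (fun q => by simp only [ap_zero_one]; exact ha q)
    (fun q => by simp only [ap_one_zero]; exact hb q) hε
  simp only [ap_zero_one, ap_one_zero] at this
  exact this

/-- A strict bound on the displacement has a margin. -/
lemma near_margin {c : Ctx} {f g : Q → G} (hf : IsEmb c f) (hg : IsEmb c g) {ε : ℝ}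
    (h : ∀ q, ‖g q - f q‖ < ε) : ∃ n : ℝ, 0 < n ∧ ∀ q p, ‖p - g q‖ ≤ n → ‖p - f q‖ < ε := by
  obtain ⟨m, hm, hm'⟩ := per_pos0 isClosed_univ perSet_univ (g := fun q => ε - ‖g q - f q‖)
    (continuous_const.sub (hg.smooth.continuous.sub hf.smooth.continuous).norm)
    (fun q m => by simp only [hf.equi, hg.equi, add_sub_add_right_eq_sub])
    fun q _ => sub_pos.2 (h q)
  refine ⟨m / 2, half_pos hm, fun q p hp => ?_⟩
  linarith [norm_sub_le_norm_sub_add_norm_sub p (g q) (f q), hm' q (mem_univ _)]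

/-- Both vectors follow the planes of the path of frames. -/
theorem runJ2 (hC : Corr2Stmt) {c : Ctx} {f : Q → G} (hf : IsEmb c f)
    {B B' : ℝ × Q → (G →L[ℝ] G)} (hB : IsFr B B')
    {ν : Q → ℝ} (hν : ContDiff ℝ ∞ ν) (hνp : Per ν) (hν01 : ∀ q, 0 ≤ ν q ∧ ν q ≤ 1)
    (hνB : ∀ q, ν q = 1 ∨ ∀ s, B' (s, q) = B' (0, q))
    {δ : ℝ} (hδ : 0 < δ) (hδ1 : δ ≤ 1 / 10) {ε : ℝ} (hε : 0 < ε)
    (h0 : ∀ q, RV δ (B' (0, q) (dd c f q).1) ∧ RU δ (B' (0, q) (dd c f q).2)) :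
    ∃ F, IsEmb c F ∧ (∀ q, RV δ (B' (1, q) (dd c F q).1) ∧ RU δ (B' (1, q) (dd c F q).2)) ∧
      Track2 c (fun s q p A => (RV (4 * δ) (B' (s, q) A.1) ∧ RU (4 * δ) (B' (s, q) A.2)) ∧
        ‖p - f q‖ < ε) {q | ν q = 0} f F 0 1 := by
  obtain ⟨η, hη, H⟩ := hB.small (κ := δ / 10) (by positivity)
  obtain ⟨C, hC0, hCb⟩ := hB.bound'
  have hνc := hν.continuous
  refine (run2 (c := c) (U := {q | ν q = 0})
    (P := fun s q p A => (RV (4 * δ) (B' (s, q) A.1) ∧ RU (4 * δ) (B' (s, q) A.2)) ∧ ‖p - f q‖ < ε)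
    (St := fun s g => (∀ q, RV δ (B' (s, q) (dd c g q).1) ∧ RU δ (B' (s, q) (dd c g q).2)) ∧
      ∀ q, ‖g q - f q‖ < ε)
    hη (fun s s' g a b d e hg St' => ?_) hf ⟨h0, fun q => by simpa using hε⟩).imp
    fun F h => ⟨h.1, h.2.1.1, h.2.2⟩
  obtain ⟨St, Sn⟩ := St'
  obtain ⟨n, hn, hn'⟩ := near_margin hf hg Sn
  have m1 : ∀ t, s ≤ t → t ≤ s' → ∀ q, RV (13 / 10 * δ) (B' (t, q) (dd c g q).1) ∧
      RU (13 / 10 * δ) (B' (t, q) (dd c g q).2) := fun t t1 t2 q =>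
    ⟨(St q).1.near hδ hδ1 (H s t q _ a t1 (t2.trans d) (by linarith)),
      (St q).2.near hδ hδ1 (H s t q _ a t1 (t2.trans d) (by linarith))⟩
  have m2 : ∀ q, RV (δ * √(1 + ν q ^ 2)) (B' (s', q) (dd c g q).1) ∧
      RU (δ * √(1 + ν q ^ 2)) (B' (s', q) (dd c g q).2) := fun q => by
    rcases hνB q with h | h
    · exact ⟨(m1 s' b le_rfl q).1.mono (sqrt_gain hδ h), (m1 s' b le_rfl q).2.mono (sqrt_gain hδ h)⟩
    · rw [h s', ← h s]
      exact ⟨(St q).1.mono (sqrt_gain' hδ), (St q).2.mono (sqrt_gain' hδ)⟩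
  have cB : Continuous fun q => B' (s', q) := hB.cont'.comp (by fun_prop)
  have s2 : ∀ q, δ * √(1 + ν q ^ 2) ≤ 2 * δ := fun q => sqrt_le_two hδ (hν01 q).1 (hν01 q).2
  obtain ⟨m, hm, hm'⟩ := ru_margin (d := fun q => δ * √(1 + ν q ^ 2)) (by fun_prop)
    (hνp.comp fun y => δ * √(1 + y ^ 2)) (fun q => by positivity) (fun q => by linarith [s2 q])
    (z := fun q => B' (s', q) (dd c g q).2) (cB.clm_apply hg.dd_smooth.continuous.snd)
    (fun q m => by simp only [hB.per' s' q m, hg.dd_per q m]) fun q => (m2 q).2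
  obtain ⟨g₁, J₁, u1, p1, e1⟩ := stepMu2 hC hg hB s' hν hνp hν01 hδ hδ1 (fun q => (m2 q).1)
    (fun q => (m2 q).2.mono (s2 q)) (ε := min (m / C) (n / 3)) (by positivity)
  have hg₁ := J₁.emb1
  have w1 : ∀ l q, RU (δ * √(1 + ν q ^ 2)) (B' (s', q) (dd c (J₁.H l) q).2) := fun l q => by
    refine hm' q _ ?_
    rw [← map_sub]
    refine (hCb s' q _ (a.trans b) d).trans ?_
    calc _ ≤ C * (m / C) := by gcongr; exact (p1 l q).2.1.trans (min_le_left _ _)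
      _ = m := by field_simp
  obtain ⟨m', hm1, -, hm2⟩ := rv_margin (d := fun _ => δ) continuous_const (per_const _)
    (fun _ => hδ.le) (fun _ => by linarith)
    (z := fun q => B' (s', q) (dd c g₁ q).1) (cB.clm_apply hg₁.dd_smooth.continuous.fst)
    (fun q m => by simp only [hB.per' s' q m, hg₁.dd_per q m]) e1
  obtain ⟨g₂, J₂, u2, p2, e2⟩ := stepTau2 hC hg₁ hB s' hν hνp hν01 hδ hδ1
    (fun q => by have := w1 1 q; rwa [J₁.h1] at this)
    (fun q => (e1 q).mono (by linarith)) (ε := min (m' / 4 / C) (n / 3)) (by positivity)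
  have w2 : ∀ l q, RV δ (B' (s', q) (dd c (J₂.H l) q).1) := fun l q => by
    refine hm2 q _ ?_
    rw [← map_sub]
    refine (hCb s' q _ (a.trans b) d).trans ?_
    calc _ ≤ C * (m' / 4 / C) := by gcongr; exact (p2 l q).2.1.trans (min_le_left _ _)
      _ = m' / 4 := by field_simp
  have n1 : ∀ l q, ‖J₁.H l q - g q‖ ≤ n / 3 := fun l q => (p1 l q).2.2.trans (min_le_right _ _)
  have n2 : ∀ l q, ‖J₂.H l q - g q‖ ≤ 2 * n / 3 := fun l q => by
    have h1 := n1 1 q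
    rw [J₁.h1] at h1
    linarith [norm_sub_le_norm_sub_add_norm_sub (J₂.H l q) (g₁ q) (g q),
      (p2 l q).2.2.trans (min_le_right _ _)]
  refine ⟨g₂, J₂.emb1, ⟨fun q => ⟨by have := w2 1 q; rwa [J₂.h1] at this, e2 q⟩,
    fun q => hn' q _ (by have := n2 1 q; rw [J₂.h1] at this; linarith)⟩,
    ((Track2.stay hg a b d fun t t1 t2 q => ?_).trans
      (Track2.iso J₁ (a.trans b) d (fun l q => ?_) fun l q hq => u1 l q hq)).trans
      (Track2.iso J₂ (a.trans b) d (fun l q => ?_) fun l q hq => u2 l q hq)⟩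
  · exact ⟨⟨(m1 t t1 t2 q).1.mono (by linarith), (m1 t t1 t2 q).2.mono (by linarith)⟩, Sn q⟩
  · exact ⟨⟨(p1 l q).1, (w1 l q).mono (by linarith [s2 q])⟩, hn' q _ (by linarith [n1 l q])⟩
  · exact ⟨⟨(w2 l q).mono (by linarith), (p2 l q).1⟩, hn' q _ (by linarith [n2 l q])⟩

/-- Only the first vector follows the path of frames, the second one hardly moves. -/
theorem runM2 (hC : Corr2Stmt) {c : Ctx} {f : Q → G} (hf : IsEmb c f)
    {B B' : ℝ × Q → (G →L[ℝ] G)} (hB : IsFr B B')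
    {ν : Q → ℝ} (hν : ContDiff ℝ ∞ ν) (hνp : Per ν) (hν01 : ∀ q, 0 ≤ ν q ∧ ν q ≤ 1)
    (hνB : ∀ q, ν q = 1 ∨ ∀ s, B' (s, q) = B' (0, q))
    {δ : ℝ} (hδ : 0 < δ) (hδ1 : δ ≤ 1 / 10) {ε : ℝ} (hε : 0 < ε)
    (hεU : ∀ s q v, 0 ≤ s → s ≤ 1 → ‖v - (dd c f q).2‖ < ε → RU δ (B' (s, q) v))
    (h0 : ∀ q, RV δ (B' (0, q) (dd c f q).1)) {ε' : ℝ} (hε' : 0 < ε') :
    ∃ F, IsEmb c F ∧ (∀ q, RV δ (B' (1, q) (dd c F q).1)) ∧
      Track2 c (fun s q p A => (RV (4 * δ) (B' (s, q) A.1) ∧ ‖A.2 - (dd c f q).2‖ < ε) ∧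
        ‖p - f q‖ < ε') {q | ν q = 0} f F 0 1 := by
  obtain ⟨η, hη, H⟩ := hB.small (κ := δ / 10) (by positivity)
  refine (run2 (c := c) (U := {q | ν q = 0})
    (P := fun s q p A => (RV (4 * δ) (B' (s, q) A.1) ∧ ‖A.2 - (dd c f q).2‖ < ε) ∧ ‖p - f q‖ < ε')
    (St := fun s g => (∀ q, RV δ (B' (s, q) (dd c g q).1) ∧ ‖(dd c g q).2 - (dd c f q).2‖ < ε) ∧
      ∀ q, ‖g q - f q‖ < ε')
    hη (fun s s' g a b d e hg St' => ?_) hf ⟨fun q => ⟨h0 q, by simpa using hε⟩,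
      fun q => by simpa using hε'⟩).imp
    fun F h => ⟨h.1, fun q => (h.2.1.1 q).1, h.2.2⟩
  obtain ⟨St, Sn⟩ := St'
  obtain ⟨n, hn, hn'⟩ := near_margin hf hg Sn
  have m1 : ∀ t, s ≤ t → t ≤ s' → ∀ q, RV (13 / 10 * δ) (B' (t, q) (dd c g q).1) := fun t t1 t2 q =>
    (St q).1.near hδ hδ1 (H s t q _ a t1 (t2.trans d) (by linarith))
  have m2 : ∀ q, RV (δ * √(1 + ν q ^ 2)) (B' (s', q) (dd c g q).1) := fun q => by
    rcases hνB q with h | h
    · exact (m1 s' b le_rfl q).mono (sqrt_gain hδ h)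
    · rw [h s', ← h s]
      exact (St q).1.mono (sqrt_gain' hδ)
  have c1 := hg.dd_smooth.continuous
  have c2 := hf.dd_smooth.continuous
  obtain ⟨m, hm, hm'⟩ := per_pos0 isClosed_univ perSet_univ
    (g := fun q => ε - ‖(dd c g q).2 - (dd c f q).2‖)
    (continuous_const.sub (c1.snd.sub c2.snd).norm)
    (fun q m => by simp only [hf.dd_per q m, hg.dd_per q m]) fun q _ => sub_pos.2 (St q).2
  obtain ⟨g₁, J₁, u1, p1, e1⟩ := stepMu2 hC hg hB s' hν hνp hν01 hδ hδ1 m2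
    (fun q => (hεU s' q _ (a.trans b) d (St q).2).mono (by linarith)) (lt_min (half_pos hm) hn)
  have w1 : ∀ l q, ‖(dd c (J₁.H l) q).2 - (dd c f q).2‖ < ε := fun l q => by
    have := norm_sub_le_norm_sub_add_norm_sub (dd c (J₁.H l) q).2 (dd c g q).2 (dd c f q).2
    have := (p1 l q).2.1.trans (min_le_left _ _)
    have := hm' q (mem_univ _)
    linarith
  have n1 : ∀ l q, ‖J₁.H l q - f q‖ < ε' := fun l q =>
    hn' q _ ((p1 l q).2.2.trans (min_le_right _ _))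
  refine ⟨g₁, J₁.emb1, ⟨fun q => ⟨e1 q, by have := w1 1 q; rwa [J₁.h1] at this⟩,
    fun q => by have := n1 1 q; rwa [J₁.h1] at this⟩,
    (Track2.stay hg a b d fun t t1 t2 q => ?_).trans
      (Track2.iso J₁ (a.trans b) d (fun l q => ?_) fun l q hq => u1 l q hq)⟩
  · exact ⟨⟨(m1 t t1 t2 q).mono (by linarith), (St q).2⟩, Sn q⟩
  · exact ⟨⟨(p1 l q).1, w1 l q⟩, n1 l q⟩

end Pool.Agent.Lib.MP_72f1d0_gt
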