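import Mathlib
import Pool.Agent.Lib.MP_72f1d0_gt.PassC
import Pool.Agent.Lib.MP_72f1d0_gt.Run2

/-! Tools for the relative pass: cut chains, the notch, and following the frames. -/

open scoped ContDiff Topology
open Set Filter

namespace Pool.Agent.Lib.MP_72f1d0_gt
namespace Pass

theorem notch2 (hC : Corr2Stmt) {c : Ctx} {f : Q → G} (hf : IsEmb c f) {j n x : Q → G}
    (cj : Continuous j) (cn : Continuous n) (cx : Continuous x) (pj : Per j) (pn : Per n)
    (px : Per x) {d : Q → ℝ} (hd : ContDiff ℝ ∞ d) (pd : Per d) {m : ℝ} (hm : 0 < m)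
    (h4 : ∀ q, Ind4 (dd c f q).1 (j q) (n q) (x q))
    (h5 : ∀ q (a b k w ρ : ℝ), w ^ 2 + ρ ^ 2 ≤ k ^ 2 →
      a • (dd c f q).1 + b • (dd c f q).2 + k • j q + w • x q + ρ • (n q - j q) = 0 → b = 0)
    (hx : ∀ q, 0 ≤ d q → al (x q) = 0 ∧ m ≤ al (n q))
    (hτ : ∀ q, 0 ≤ d q → d q < 4 → 0 < al (dd c f q).2) {ε : ℝ} (hε : 0 < ε) :
    ∃ (F : Q → G) (J : Iso c f F), (∀ l q, d q ≤ 3 → J.H l q = f q) ∧
      (∀ l q, ‖J.H l q - f q‖ ≤ ε) ∧
      (∀ l q, ‖(dd c (J.H l) q).1 - (dd c f q).1‖ ≤ ε ∧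
        Ind3 (dd c (J.H l) q).1 (dd c (J.H l) q).2 (n q)) ∧
      ∀ q, 2 ≤ d q → 0 < al (dd c F q).2 ∨ Ind4 (dd c F q).1 (dd c F q).2 (j q) (n q) := by
  have cd := hf.dd_smooth.continuous
  have pD := hf.dd_per
  set μ : Q → G := fun q => (dd c f q).1 with hμ
  set τ : Q → G := fun q => (dd c f q).2 with hτ'
  have cμ : Continuous μ := cd.fst
  have cτ : Continuous τ := cd.snd
  have pμ : Per μ := pD.comp Prod.fst
  have pτ : Per τ := pD.comp Prod.snd
  have h4' : ∀ q, Ind4 (μ q) (j q) (x q) (n q - j q) := fun q a b e g h0 => by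
    obtain ⟨h1, h2, h3, h4⟩ := h4 q a (b - g) g e (by rw [← h0]; module)
    exact ⟨h1, by linarith, h4, h3⟩
  obtain ⟨L, cL, pL, hL, -⟩ := exists_inverse cμ cj cx (cn.sub cj) pμ pj px
    (pn.comp₂ pj fun a b => a - b) h4'
  set t : Q → G := fun q => L q (τ q) with ht
  have ct : Continuous t := cL.clm_apply cτ
  have pt : Per t := pL.comp₂ pτ fun a b => a b
  set w : Q → ℝ := fun q => (t q).2.re with hw
  set ρ : Q → ℝ := fun q => (t q).2.im with hρ
  have cw : Continuous w := by fun_prop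
  have cρ : Continuous ρ := by fun_prop
  have pw : Per w := pt.comp fun a => a.2.re
  have pρ : Per ρ := pt.comp fun a => a.2.im
  have eτ : ∀ q, τ q = (t q).1.re • μ q + (t q).1.im • j q + w q • x q + ρ q • (n q - j q) :=
    fun q => (hL q (τ q)).symm
  have hlt : ∀ q, (t q).1.im ^ 2 < w q ^ 2 + ρ q ^ 2 := fun q => by
    by_contra h
    have := h5 q (t q).1.re (-1) (t q).1.im (w q) (ρ q) (not_lt.1 h) (by
      have := eτ q
      show (t q).1.re • μ q + (-1 : ℝ) • τ q + _ + _ + _ = 0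
      rw [this]; module)
    norm_num at this
  set Jv : Q → G := fun q => (-ρ q) • x q + w q • (n q - j q) with hJv
  have cJ : Continuous Jv := by fun_prop
  have pJ : Per Jv := fun q m => by simp only [hJv, pρ q m, pw q m, px q m, pn q m, pj q m]
  have i4 : ∀ q, Ind4 (μ q) (τ q) (Jv q) (n q) := fun q => notch_ind (h4' q) (eτ q) (hlt q)
  obtain ⟨mθ, hmθ, Hθ⟩ := per_pos0 isClosed_univ perSet_univ (g := fun q => w q ^ 2 + ρ q ^ 2)
    (by fun_prop) (fun q m => by simp only [pw q m, pρ q m])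
    fun q _ => (sq_nonneg _).trans_lt (hlt q)
  obtain ⟨Cτ, hCτ, Hτ⟩ := per_bound0 cτ pτ
  set B : ℝ := (Cτ + 1) / (mθ * m) with hB
  have hB0 : 0 < B := by positivity
  set ν : Q → ℝ := fun q => Real.smoothTransition (d q - 3) with hν
  have sν : ContDiff ℝ ∞ ν := Real.smoothTransition.contDiff.comp (hd.sub contDiff_const)
  have cν := sν.continuous
  have pν : Per ν := pd.comp fun a => Real.smoothTransition (a - 3)
  set k : Q → ℝ := fun q => al (n q - j q) / max (al (n q)) m with hk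
  have ck : Continuous k := Continuous.div (by fun_prop) (by fun_prop)
    fun q => (hm.trans_le (le_max_right _ _)).ne'
  have pk : Per k := fun q m => by simp only [hk, pn q m, pj q m]
  set n₁ : Q → G := fun q => (2 * B * ν q * ρ q ^ 2) • n q with hn₁
  set n₂ : Q → G := fun q => √2 • Jv q + (-√2 * w q * k q + 2 * √2 * B * ρ q * w q) • n q with hn₂
  have c1 : Continuous n₁ := by fun_prop
  have c2 : Continuous n₂ := by fun_prop
  have p1 : Per n₁ := fun q m => by simp only [hn₁, pν q m, pρ q m, pn q m]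
  have p2 : Per n₂ := fun q m => by simp only [hn₂, pJ q m, pw q m, pk q m, pρ q m, pn q m]
  set T : Q × ℝ → G := fun z => τ z.1 + ν z.1 • ((-(2 * z.2 ^ 2 - 1) / 2) • n₁ z.1 + z.2 • n₂ z.1)
    with hT
  have cT : Continuous T := by fun_prop
  have pT : ∀ u, Per fun q => T (q, u) := fun u q m => by
    simp only [hT, pτ q m, pν q m, p1 q m, p2 q m]
  set wT : Q × ℝ → ℝ := fun z => w z.1 - ν z.1 * z.2 * √2 * ρ z.1 with hwT
  have cwT : Continuous wT := by fun_prop
  have pwT : ∀ u, Per fun q => wT (q, u) := fun u q m => by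
    simp only [hwT, pν q m, pw q m, pρ q m]
  have s2 : √2 ^ 2 = (2 : ℝ) := Real.sq_sqrt (by norm_num)
  have hpos : ∀ z : Q × ℝ, 2 ≤ d z.1 → 0 < max |wT z| (al (T z)) := by
    rintro ⟨q, u⟩ hq
    rcases eq_or_ne (wT (q, u)) 0 with h0 | h0
    · refine lt_max_of_lt_right ?_
      obtain ⟨x1, x2⟩ := hx q (by linarith)
      have k1 : k q * al (n q) = al (n q - j q) := by
        simp only [hk, max_eq_left x2]
        field_simp [(hm.trans_le x2).ne']
      have w0 : w q = ν q * u * √2 * ρ q := sub_eq_zero.1 h0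
      have e : al (T (q, u)) = al (τ q) + B * (w q ^ 2 + ν q ^ 2 * ρ q ^ 2) * al (n q) := by
        simp only [hT, hn₁, hn₂, hJv, al_add, al_smul, x1, ← k1]
        rw [w0]
        linear_combination (B * ν q ^ 2 * u ^ 2 * ρ q ^ 2 * al (n q)) * s2
      rw [e]
      rcases lt_or_ge (d q) 4 with h | h
      · have := hτ q (by linarith) h
        have : 0 ≤ B * (w q ^ 2 + ν q ^ 2 * ρ q ^ 2) * al (n q) := by
          have := hm.le.trans x2
          positivity
        linarith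
      · have : ν q = 1 := Real.smoothTransition.one_of_one_le (by linarith)
        rw [this, one_pow, one_mul]
        have a1 := Hθ q (mem_univ _)
        have a2 := abs_le.1 ((abs_al_le (τ q)).trans (Hτ q))
        have a3 : B * mθ * m ≤ B * (w q ^ 2 + ρ q ^ 2) * al (n q) := by gcongr
        have a4 : B * mθ * m = Cτ + 1 := by rw [hB]; field_simp
        linarith
    · exact lt_max_of_lt_left (abs_pos.2 h0)
  obtain ⟨m₂, hm₂, H₂⟩ := per_pos (K := Icc (-1 : ℝ) 1) isCompact_Icc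
    (S := {z : Q × ℝ | 2 ≤ d z.1 ∧ z.2 ∈ Icc (-1 : ℝ) 1})
    ((isClosed_le continuous_const (hd.continuous.comp continuous_fst)).inter
      (isClosed_Icc.preimage continuous_snd))
    (fun q y m h => ⟨by simpa only [pd q m] using h.1, h.2⟩) (fun _ h => h.2)
    (g := fun z => max |wT z| (al (T z))) (by fun_prop)
    (fun u q m => by simp only [pwT u q m, pT u q m]) fun z hz => hpos z hz.1
  obtain ⟨ε₁, hε₁, H₁⟩ := ind4_margin' (K := Icc (-1 : ℝ) 1) isCompact_Icc
    (T := {z : Q × ℝ | m₂ ≤ |wT z| ∧ z.2 ∈ Icc (-1 : ℝ) 1})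
    ((isClosed_le continuous_const cwT.abs).inter (isClosed_Icc.preimage continuous_snd))
    (fun q y m h => ⟨by simpa only [pwT y q m] using h.1, h.2⟩) (fun _ h => h.2)
    (a₁ := fun z => μ z.1) (a₂ := T) (a₃ := fun z => j z.1) (a₄ := fun z => n z.1)
    (by fun_prop) cT (by fun_prop) (by fun_prop) (fun _ => pμ) pT (fun _ => pj) (fun _ => pn) (by
      rintro ⟨q, u⟩ ⟨hz, -⟩ a b e g h0
      have hw0 : wT (q, u) ≠ 0 := abs_pos.1 (hm₂.trans_le hz)
      obtain ⟨β, hβ⟩ : ∃ β : ℝ, T (q, u) = τ q + (ν q * u * √2) • Jv q + β • n q :=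
        ⟨ν q * (-(2 * u ^ 2 - 1) / 2) * (2 * B * ν q * ρ q ^ 2) +
          ν q * u * (-√2 * w q * k q + 2 * √2 * B * ρ q * w q), by
          simp only [hT, hn₁, hn₂]; module⟩
      obtain ⟨h1, h2, h3, h4⟩ := h4' q (a + b * (t q).1.re) (b * (t q).1.im + b * β + e + g)
        (b * wT (q, u)) (b * ρ q + b * (ν q * u * √2) * w q + b * β + g) (by
          rw [← h0]
          simp only [hβ, hwT, hJv]
          rw [eτ q]; module)
      have hb : b = 0 := (mul_eq_zero.1 h3).resolve_right hw0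
      subst hb
      exact ⟨by linarith, rfl, by linarith, by linarith⟩)
  obtain ⟨ε₂, hε₂, H₃⟩ := ind4_margin cμ cτ cJ cn pμ pτ pJ pn i4
  set ε' := min (min ε ε₁) (min ε₂ (m₂ / 2)) with hε'
  have e0 : 0 < ε' := by positivity
  have e1 : ε' ≤ ε := (min_le_left _ _).trans (min_le_left _ _)
  have e2 : ε' ≤ ε₁ := (min_le_left _ _).trans (min_le_right _ _)
  have e3 : ε' ≤ ε₂ := (min_le_right _ _).trans (min_le_left _ _)
  have e4 : ε' ≤ m₂ / 2 := (min_le_right _ _).trans (min_le_right _ _)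
  obtain ⟨F, J, J0, Jn, J1⟩ := hC c f hf (ContinuousLinearMap.snd ℝ ℝ ℝ) (fun m => ⟨m.2, rfl⟩) ν sν pν
    n₁ n₂ c1 c2 p1 p2 (fun q v a b _ _ h0 => by
      obtain ⟨h1, h2, -, -⟩ := i4 q v.1 v.2 (b * ν q * √2) (a * ν q * (2 * B * ν q * ρ q ^ 2) +
        b * ν q * (-√2 * w q * k q + 2 * √2 * B * ρ q * w q)) (by
          rw [← h0]; simp only [ap, hn₁, hn₂, hμ, hτ']; module)
      exact Prod.ext h1 h2) ε' e0
  have main : ∀ l q, ∃ θ a : ℝ, (l = 1 → a = 1) ∧ ‖(dd c (J.H l) q).1 - μ q‖ ≤ ε' ∧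
      ‖(dd c (J.H l) q).2 - (τ q + (a * ν q) •
        ((-(Real.cos (2 * θ)) / 2) • n₁ q + Real.cos θ • n₂ q))‖ ≤ ε' := fun l q => by
    obtain ⟨θ, a, -, -, a2, H⟩ := J1 l q
    exact ⟨θ, a, a2, by simpa using H (1, 0), by simpa using H (0, 1)⟩
  refine ⟨F, J, fun l q hq => J0 l q (Real.smoothTransition.zero_of_nonpos (by linarith)),
    fun l q => (Jn l q).trans e1, fun l q => ?_, fun q hq => ?_⟩
  · obtain ⟨θ, a, -, m1, m2⟩ := main l q
    refine ⟨m1.trans e1, fun a' b' e' h0 => ?_⟩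
    obtain ⟨y, β, hβ⟩ : ∃ y β : ℝ, (a * ν q) • ((-(Real.cos (2 * θ)) / 2) • n₁ q +
        Real.cos θ • n₂ q) = y • Jv q + β • n q :=
      ⟨a * ν q * Real.cos θ * √2, a * ν q * (-(Real.cos (2 * θ)) / 2) * (2 * B * ν q * ρ q ^ 2) +
        a * ν q * Real.cos θ * (-√2 * w q * k q + 2 * √2 * B * ρ q * w q), by
        simp only [hn₁, hn₂]; module⟩
    rw [hβ] at m2
    obtain ⟨h1, h2, -, h4⟩ := H₃ q _ ((dd c (J.H l) q).2 - (y • Jv q + β • n q)) (Jv q) (n q)
      (m1.trans e3) (by rw [sub_sub, add_comm]; exact m2.trans e3) (by simp [hε₂.le])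
      (by simp [hε₂.le]) a' b' (b' * y) (b' * β + e') (by rw [← h0]; module)
    subst h2
    exact ⟨h1, rfl, by linarith⟩
  · obtain ⟨θ, a, a1, m1, m2⟩ := main 1 q
    rw [J.h1] at m1 m2
    rw [a1 rfl, one_mul, Real.cos_two_mul] at m2
    have hu : Real.cos θ ∈ Icc (-1 : ℝ) 1 := ⟨Real.neg_one_le_cos θ, Real.cos_le_one θ⟩
    have m3 : ‖(dd c F q).2 - T (q, Real.cos θ)‖ ≤ ε' := m2
    rcases le_max_iff.1 (H₂ (q, Real.cos θ) ⟨hq, hu⟩) with h | h
    · exact Or.inr (H₁ (q, Real.cos θ) ⟨h, hu⟩ _ _ _ _ (m1.trans e2) (m3.trans e2)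
        (by simp [hε₁.le]) (by simp [hε₁.le]))
    · left
      have := abs_le.1 ((abs_al_le _).trans m3)
      rw [al_sub] at this
      linarith [this.1]

/-! ### Cut chains -/

/-- The chain `A → (A.1, p) → (x, S.2) → S`, contracted by the factor `k`. -/
noncomputable def cpoly (A S : G × G) (k : ℝ) (p x : G) (s : ℝ) : G × G :=
  poly A (A.1, A.2 + k • (p - A.2)) (A.1 + k • (x - A.1), A.2 + k • (S.2 - A.2)) S s

def Ok (A S : G × G) (k : ℝ) (p x : G) : Prop :=
  (k = 1 ∨ A = S) ∧ SegInj A (A.1, p) ∧ Ind4 A.1 p x S.2 ∧ SegInj (x, S.2) S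

lemma Ok.inj {A S : G × G} {k : ℝ} {p x : G} (h : Ok A S k p x) (s : ℝ) :
    Inj (cpoly A S k p x s) := by
  obtain ⟨rfl | rfl, h1, h2, h3⟩ := h
  · refine Val.inj ?_ s
    simp only [one_smul, add_sub_cancel]
    exact ⟨h1, segInj_of_ind4 h2, h3⟩
  · exact (val_cut h2 k).inj s

lemma cpoly_zero (A : G × G) (p x : G) (s : ℝ) : cpoly A A 0 p x s = A := by simp [cpoly, poly]

lemma continuous_cpoly {Y : Type*} [TopologicalSpace Y] {A S : Y → G × G} {k s : Y → ℝ}
    {p x : Y → G} (hA : Continuous A) (hS : Continuous S) (hk : Continuous k) (hp : Continuous p)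
    (hx : Continuous x) (hs : Continuous s) :
    Continuous fun y => cpoly (A y) (S y) (k y) (p y) (x y) (s y) :=
  continuous_poly hA (by fun_prop) (by fun_prop) hS hs

variable {X : Rel}

structure CV (A S : R.II X) (k : Q → ℝ) (p x : Q → G) : Prop where
  ck : Continuous k
  cp : Continuous p
  cx : Continuous x
  pk : Per k
  pp : Per p
  px : Per x
  out : ∀ q, q ∉ X.K → k q = 0
  ok : ∀ q, Ok (A q) (S q) (k q) (p q) (x q)

lemma CV.fam {A S : R.II X} {k : Q → ℝ} {p x : Q → G} (h : CV A S k p x) :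
    R.IsFam X fun y : ℝ × Q => cpoly (A y.2) (S y.2) (k y.2) (p y.2) (x y.2) y.1 :=
  ⟨continuous_cpoly (A.cont.comp continuous_snd) (S.cont.comp continuous_snd)
    (h.ck.comp continuous_snd) (h.cp.comp continuous_snd) (h.cx.comp continuous_snd) continuous_fst,
    fun s q m => by simp only [A.per q m, S.per q m, h.pk q m, h.pp q m, h.px q m],
    fun s q _ _ => (h.ok q).inj s,
    fun s q _ _ hq => by simp only [A.rel hq, S.rel hq, h.out q hq, cpoly_zero]⟩

noncomputable def CV.path {A S : R.II X} {k : Q → ℝ} {p x : Q → G} (h : CV A S k p x) : Path A S :=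
  R.mkPath h.fam (fun _ => poly_zero _ _ _ _) (fun _ => poly_one _ _ _ _)

lemma CV.path_apply {A S : R.II X} {k : Q → ℝ} {p x : Q → G} (h : CV A S k p x) (t : UI) (q : Q) :
    h.path t q = cpoly (A q) (S q) (k q) (p q) (x q) t := rfl

lemma cv_square {A A' S S' : R.II X} (a : Path A A') (v : Path S S') {k : ℝ × Q → ℝ}
    {p x : ℝ × Q → G} (ck : Continuous k) (cp : Continuous p) (cx : Continuous x)
    (pk : ∀ l, Per fun q => k (l, q)) (pp : ∀ l, Per fun q => p (l, q))
    (px : ∀ l, Per fun q => x (l, q)) (out : ∀ l q, q ∉ X.K → k (l, q) = 0)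
    (h : ∀ (t : UI) q, Ok (a t q) (v t q) (k (t, q)) (p (t, q)) (x (t, q))) :
    ∃ (h0 : CV A S (fun q => k (0, q)) (fun q => p (0, q)) fun q => x (0, q))
      (h1 : CV A' S' (fun q => k (1, q)) (fun q => p (1, q)) fun q => x (1, q)),
      (R.hc a).trans (R.hc h1.path) = (R.hc h0.path).trans (R.hc v) := by
  refine ⟨⟨ck.comp (by fun_prop), cp.comp (by fun_prop), cx.comp (by fun_prop), pk 0, pp 0, px 0,
    out 0, fun q => by simpa using h 0 q⟩, ⟨ck.comp (by fun_prop), cp.comp (by fun_prop),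
    cx.comp (by fun_prop), pk 1, pp 1, px 1, out 1, fun q => by simpa using h 1 q⟩, ?_⟩
  rw [← R.hc_trans, ← R.hc_trans, R.hc_eq]
  refine R.square (K := fun z : ℝ × ℝ × Q => cpoly (a.extend z.1 z.2.2) (v.extend z.1 z.2.2)
    (k (z.1, z.2.2)) (p (z.1, z.2.2)) (x (z.1, z.2.2)) z.2.1) ?_ ?_ ?_ ?_ ?_ ?_ ?_ ?_
  · exact continuous_cpoly
      ((R.ext_cont a).comp (f := fun z : ℝ × ℝ × Q => (z.1, z.2.2)) (by fun_prop))
      ((R.ext_cont v).comp (f := fun z : ℝ × ℝ × Q => (z.1, z.2.2)) (by fun_prop))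
      (ck.comp (by fun_prop)) (cp.comp (by fun_prop)) (cx.comp (by fun_prop)) (by fun_prop)
  · intro l b q m
    simp only [(a.extend l).per q m, (v.extend l).per q m, pk l q m, pp l q m, px l q m]
  · intro l b q a0 a1 _ _
    have := (h ⟨l, a0, a1⟩ q).inj b
    rwa [← a.extend_extends' ⟨l, a0, a1⟩, ← v.extend_extends' ⟨l, a0, a1⟩] at this
  · intro l b q _ _ _ _ hq
    simp only [(a.extend l).rel hq, (v.extend l).rel hq, out l q hq, cpoly_zero]
  · intro u q; simp [cpoly, poly_zero]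
  · intro u q; simp [CV.path_apply]
  · intro u q; simp [CV.path_apply]
  · intro u q; simp [cpoly, poly_one]

lemma CV.path_congr {A S : R.II X} {k k' : Q → ℝ} {p x p' x' : Q → G} (h : CV A S k p x)
    (h' : CV A S k' p' x') (e1 : ∀ q, k q = k' q) (e2 : ∀ q, p q = p' q) (e3 : ∀ q, x q = x' q) :
    h.path = h'.path := by
  ext1; funext t; exact R.II.ext' fun q => by simp only [CV.path_apply, e1, e2, e3]

/-- Frames along a formal path, adapted to a normal frame of the end point. -/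
lemma frames_nf (hF : FramesStmt) {A E : R.II X} (γ : Path A E) {a b e g : Q → G}
    (ca : Continuous a) (cb : Continuous b) (ce : Continuous e) (cg : Continuous g) (pa : Per a)
    (pb : Per b) (pe : Per e) (pg : Per g) (h : ∀ q, Ind4 (a q) (b q) (e q) (g q)) :
    ∃ B B' C : ℝ × Q → (G →L[ℝ] G), IsFr B B' ∧
      (∀ z v, B z v = C z (fr4 (a z.2) (b z.2) (e z.2) (g z.2) v)) ∧ (∀ q v, C (1, q) v = v) ∧
      (∀ s q, 0 ≤ s → s ≤ 1 → (C (s, q) (E q).1, C (s, q) (E q).2) = γ.extend s q) ∧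
      ∀ q, (∀ t, γ t q = E q) → (∀ s v, C (s, q) v = v) ∧ ∀ s, B' (s, q) = B' (0, q) := by
  obtain ⟨C, C', cC, cC', pC, pC', iC, iC', C1, CK, C0⟩ := hF (fun x => γ.extend x.1 x.2)
    (R.ext_cont γ) (fun s => (γ.extend s).per) fun s q _ _ => (γ.extend s).inj q
  simp only [Path.extend_one] at CK C0
  obtain ⟨L', cL', pL', iL, iL'⟩ := exists_inverse ca cb ce cg pa pb pe pg h
  have cL := continuous_fr4 ca cb ce cg
  refine ⟨fun z => (C z).comp (fr4 (a z.2) (b z.2) (e z.2) (g z.2)),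
    fun z => (L' z.2).comp (C' z), C, ⟨cC.clm_comp (cL.comp continuous_snd),
      (cL'.comp continuous_snd).clm_comp cC', fun s q m => ?_, fun s q m => ?_,
      fun z v => by simp only [ContinuousLinearMap.comp_apply, iL, iC],
      fun z v => by simp only [ContinuousLinearMap.comp_apply, iL', iC']⟩,
    fun _ _ => rfl, C1, fun s q a b => by rw [(CK s q a b).1, (CK s q a b).2], fun q hq => ?_⟩
  · simp only [pC _ q m, pa q m, pb q m, pe q m, pg q m]
  · simp only [pC' _ q m, pL' q m]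
  · have h1 := C0 q fun s _ _ => by
      obtain ⟨t, ht⟩ := R.ext_mem γ s
      rw [ht]; exact hq t
    have h2 : ∀ s v, C' (s, q) v = v := fun s v => by simpa only [h1] using iC' (s, q) v
    exact ⟨h1, fun s => ContinuousLinearMap.ext fun v => by
      simp only [ContinuousLinearMap.comp_apply, h2]⟩

open Path.Homotopic.Quotient in
/-- First half: following the frames. -/
theorem first2 (hC : Corr2Stmt) (hF : FramesStmt) {c : Ctx} {f : Q → G} (hf : R.Emb c X f)
    {E : R.II X} (γ : Path hf.d E) {d : Q → ℝ} (hd : ContDiff ℝ ∞ d) (pd : Per d)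
    (hK : ∀ q, q ∉ X.K → d q ≤ 0) {x w : Q → G} (cx : Continuous x) (cw : Continuous w)
    (px : Per x) (pw : Per w) (hN : ∀ q, Ind4 (E q).1 (E q).2 (x q) (w q))
    (hconst : ∀ q, d q ≤ 10 → ∀ t, γ t q = E q) {m ε : ℝ} (hm : 0 < m) (hε : 0 < ε) :
    ∃ (F : Q → G) (hF : R.Emb c X F) (J : R.IsoR c X f F ε) (j : Q → G)
      (M : CV hF.d E (fun q => Real.smoothTransition (2 * d q)) (fun q => j q + (E q).2) w),
      Continuous j ∧ Per j ∧ (R.hc (J.path hf hF)).trans (R.hc M.path) = R.hc γ ∧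
      (∀ q, ∀ v ∈ S5, lc v (dd c F q).1 (dd c F q).2 (j q) (w q) (E q).2 = 0 → v = 0) ∧
      (∀ q, Ind4 (dd c F q).1 (j q) (w q) (E q).2) ∧ (∀ q, ‖j q‖ ≤ m) ∧
      ∀ q, d q < 5 → dd c F q = E q := by
  have cE := E.cont
  obtain ⟨B, B', C, fr, hB, C1, CK, C0⟩ := frames_nf hF γ cE.fst cx cw cE.snd
    (E.per.comp Prod.fst) px pw (E.per.comp Prod.snd) fun q a b e g h0 => by
      obtain ⟨h1, h2, h3, h4⟩ := hN q a g b e (by rw [← h0]; module)
      exact ⟨h1, h3, h4, h2⟩
  have cd := hd.continuous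
  have hs := Real.smoothTransition.continuous
  have Binj : ∀ z v, B z v = 0 → v = 0 := fun z v h => by rw [← fr.inv' z v, h, map_zero]
  have BXZ : ∀ s q, 0 ≤ s → s ≤ 1 → (B (s, q) vX, B (s, q) vZ) = γ.extend s q := by
    intro s q s0 s1
    rw [← CK s q s0 s1, hB, hB]
    simp [fr4_apply, vX, vZ]
  have BR : ∀ q, B (1, q) vR = w q := fun q => by rw [hB, C1]; simp [fr4_apply, vR]
  obtain ⟨Cb, hCb, HCb⟩ := per_bound (K := Icc (0 : ℝ) 1) isCompact_Icc
    (g := fun x : Q × ℝ => B (x.2, x.1)) (fr.cont.comp (by fun_prop)) fr.per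
  set lam : ℝ := min 1 (m / Cb) with hlam
  have l0 : 0 < lam := by positivity
  have l1 : lam ≤ 1 := min_le_left _ _
  have l2 : Cb * lam ≤ m := by
    calc Cb * lam ≤ Cb * (m / Cb) := by gcongr; exact min_le_right _ _
      _ = m := by field_simp
  set ν : Q → ℝ := fun q => Real.smoothTransition (d q - 5) with hν
  have B0 : ∀ q, B (0, q) vX = (dd c f q).1 ∧ B (0, q) vZ = (dd c f q).2 := fun q => by
    have := BXZ 0 q le_rfl zero_le_one
    rw [Path.extend_zero] at this
    exact ⟨congrArg Prod.fst this, congrArg Prod.snd this⟩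
  obtain ⟨F, -, -, J₀, σ, cσ, σ0, σ1, σr, hP, hU⟩ := runJ2 hC hf.toIsEmb fr (ν := ν)
    (Real.smoothTransition.contDiff.comp (hd.sub contDiff_const))
    (pd.comp fun a => Real.smoothTransition (a - 5))
    (fun q => ⟨Real.smoothTransition.nonneg _, Real.smoothTransition.le_one _⟩)
    (fun q => by
      rcases le_total 6 (d q) with h | h
      · exact Or.inl (Real.smoothTransition.one_of_one_le (by linarith))
      · exact Or.inr (C0 q (hconst q (by linarith))).2)
    (δ := lam / 40) (by positivity) (by linarith) hε fun q => by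
      rw [← (B0 q).1, ← (B0 q).2, fr.inv', fr.inv']
      constructor <;> simp [RV, RU, vX, vZ, l0]
  let J : R.IsoR c X f F ε := ⟨J₀, fun l q hq => hU l q
    (Real.smoothTransition.zero_of_nonpos (by linarith [hK q hq])), fun l q => (hP l q).2.le⟩
  have hF := J.emb1R hf
  have cH := J₀.dd_cont
  set z : ℝ × Q → G := fun y => B' (σ y.1, y.2) (dd c (J₀.H y.1) y.2).1 with hz
  have cBσ : Continuous fun y : ℝ × Q => B (σ y.1, y.2) := fr.cont.comp (by fun_prop)
  have cz : Continuous z := (fr.cont'.comp (by fun_prop)).clm_apply cH.fst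
  have zpos : ∀ y, 0 < ‖(z y).1‖ := fun y => (hP y.1 y.2).1.1.pos
  set j : ℝ × Q → G := fun y => B (σ y.1, y.2) (jj lam (z y)) with hj
  have cj : Continuous j := by
    refine cBσ.clm_apply (Continuous.prodMk (Continuous.smul (Continuous.div continuous_const
      cz.fst.norm fun y => (zpos y).ne') (by fun_prop)) continuous_const)
  have pj : ∀ l, Per fun q => j (l, q) := fun l q m => by
    simp only [hj, hz, fr.per _ q m, fr.per' _ q m, (J₀.emb l).dd_per q m]
  have cone : ∀ l q, ∀ v ∈ S5, lc v (dd c (J₀.H l) q).1 (dd c (J₀.H l) q).2 (j (l, q))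
      (B (σ l, q) vR) (B (σ l, q) vZ) = 0 → v = 0 := fun l q => by
    have := cone_map (Binj (σ l, q)) (coord_cone l0 l1 (by positivity) (by linarith)
      (hP l q).1.1 (hP l q).1.2)
    rwa [fr.inv, fr.inv] at this
  have ind : ∀ l q, Ind4 (dd c (J₀.H l) q).1 (j (l, q)) (B (σ l, q) vR) (B (σ l, q) vZ) :=
    fun l q => by
      have := ind4_map (Binj (σ l, q)) (coord_ind l0 (zpos (l, q)))
      rwa [hz, fr.inv] at this
  have hunch : ∀ l q, d q < 5 → dd c (J₀.H l) q = E q := fun l q hq => by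
    rw [dd_congr_open c (isOpen_lt cd continuous_const) (fun q hq => hU l q
      (Real.smoothTransition.zero_of_nonpos (sub_nonpos.2 (le_of_lt hq)))) hq]
    simpa using hconst q (by linarith) 0
  have fv : R.IsFam X fun y : ℝ × Q => γ.extend (σ y.1) y.2 :=
    ⟨(R.ext_cont γ).comp (f := fun y : ℝ × Q => (σ y.1, y.2)) (by fun_prop),
      fun s => (γ.extend (σ s)).per, fun s q _ _ => (γ.extend _).inj q,
      fun s q _ _ hq => (γ.extend _).rel hq⟩
  let v : Path hf.d E := R.mkPath fv (fun q => by simp [σ0]) (fun q => by simp [σ1])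
  have hv : R.hc v = R.hc γ := R.hc_reparam γ v cσ σ0 σ1 fun t => R.II.ext' fun q => rfl
  have EB : ∀ q, E q = (B (1, q) vX, B (1, q) vZ) := fun q => by
    rw [BXZ 1 q zero_le_one le_rfl, Path.extend_one]
  have okk : ∀ l q (k : ℝ), k = 1 ∨ dd c (J₀.H l) q = γ.extend (σ l) q →
      Ok (dd c (J₀.H l) q) (γ.extend (σ l) q) k (j (l, q) + B (σ l, q) vZ) (B (σ l, q) vR) := by
    intro l q k hk
    refine ⟨hk, seg_of_cone (μ := (dd c (J₀.H l) q).1) (τ := (dd c (J₀.H l) q).2)
      (x := B (σ l, q) vR) (r := B (σ l, q) vZ) ?_, ?_, ?_⟩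
    · rw [add_sub_cancel_right]; exact cone l q
    · rw [← BXZ _ q (σr l).1 (σr l).2]
      refine ind4_pole ?_
      rw [add_sub_cancel_right]; exact ind l q
    · rw [← BXZ _ q (σr l).1 (σr l).2]
      exact segInj_fst fun a b e h0 => ind3_std a b e (Binj (σ l, q) _ (by simpa using h0))
  have k0 : ∀ q, q ∉ X.K → Real.smoothTransition (2 * d q) = 0 := fun q hq =>
    Real.smoothTransition.zero_of_nonpos (by linarith [hK q hq])
  have cp : Continuous fun y : ℝ × Q => j y + B (σ y.1, y.2) vZ :=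
    cj.add (cBσ.clm_apply continuous_const)
  have cxx : Continuous fun y : ℝ × Q => B (σ y.1, y.2) vR := cBσ.clm_apply continuous_const
  have pp : ∀ l, Per fun q => j (l, q) + B (σ l, q) vZ := fun l q m => by
    simp only [pj l q m, fr.per _ q m]
  have pxx : ∀ l, Per fun q => B (σ l, q) vR := fun l q m => by simp only [fr.per _ q m]
  -- the loop at the start is contractible
  obtain ⟨M₀, M₀', m3⟩ := cv_square (Path.refl hf.d) (Path.refl hf.d)
    (k := fun y => y.1 * Real.smoothTransition (2 * d y.2))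
    (p := fun y => j (0, y.2) + B (σ 0, y.2) vZ) (x := fun y => B (σ 0, y.2) vR) (by fun_prop)
    (cp.comp (f := fun y : ℝ × Q => ((0 : ℝ), y.2)) (by fun_prop))
    (cxx.comp (f := fun y : ℝ × Q => ((0 : ℝ), y.2)) (by fun_prop))
    (fun l q m => by simp only [pd q m]) (fun _ => pp 0) (fun _ => pxx 0)
    (fun l q hq => by simp only [k0 q hq, mul_zero]) fun t q => by
      have := okk 0 q (t * Real.smoothTransition (2 * d q)) (Or.inr (by simp [σ0, J₀.h0]))
      rwa [J₀.h0, show γ.extend (σ 0) q = dd c f q by simp [σ0]] at this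
  have eM : M₀.path = Path.refl _ := by
    ext1; funext t; exact R.II.ext' fun q => by simp [CV.path_apply, cpoly_zero]
  rw [eM, R.hc_refl, refl_trans, refl_trans] at m3
  obtain ⟨M₁, M₁', n3⟩ := cv_square (J.path hf hF) v
    (k := fun y => Real.smoothTransition (2 * d y.2))
    (p := fun y => j y + B (σ y.1, y.2) vZ) (x := fun y => B (σ y.1, y.2) vR) (by fun_prop) cp cxx
    (fun l q m => by simp only [pd q m]) pp pxx (fun _ => k0) fun t q => okk t q _ (by
      rcases le_or_gt 1 (2 * d q) with h | h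
      · exact Or.inl (Real.smoothTransition.one_of_one_le h)
      · right
        obtain ⟨t', ht'⟩ := R.ext_mem γ (σ t)
        rw [hunch t q (by linarith), ht', hconst q (by linarith)])
  rw [M₁.path_congr M₀' (fun q => by simp) (fun q => rfl) (fun q => rfl), m3, refl_trans, hv] at n3
  have e2 : ∀ q, B (σ 1, q) vZ = (E q).2 := fun q => by rw [σ1, EB]
  have e3 : ∀ q, B (σ 1, q) vR = w q := fun q => by rw [σ1, BR]
  have M : CV hF.d E (fun q => Real.smoothTransition (2 * d q)) (fun q => j (1, q) + (E q).2) w := by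
    simpa only [e2, e3] using M₁'
  refine ⟨F, hF, J, fun q => j (1, q), M, cj.comp (by fun_prop), pj 1, ?_, fun q => ?_, fun q => ?_,
    fun q => ?_, fun q hq => ?_⟩
  · rw [M.path_congr M₁' (fun q => rfl) (fun q => by simp only [e2]) (fun q => (e3 q).symm), n3]
  · have := cone 1 q
    rwa [J₀.h1, e2, e3] at this
  · have := ind 1 q
    rwa [J₀.h1, e2, e3] at this
  · refine (ContinuousLinearMap.le_of_opNorm_le _ (HCb q _ ⟨(σr 1).1, (σr 1).2⟩) _).trans ?_
    exact (mul_le_mul_of_nonneg_left (jj_norm l0.le _) hCb.le).trans l2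
  · rw [← hunch 1 q hq, J₀.h1]

end Pass
end Pool.Agent.Lib.MP_72f1d0_gt
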