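import Mathlib
import Pool.Agent.Lib.MP_72f1d0_gt.PassR

/-! The stage that makes the second vector transverse to `D`. -/

open scoped ContDiff Topology
open Set Filter

namespace Pool.Agent.Lib.MP_72f1d0_gt

lemma inj_map {L : G →L[ℝ] G} (hL : ∀ v, L v = 0 → v = 0) {A : G × G} (h : Inj A) :
    Inj (L A.1, L A.2) := fun a b h0 => h a b (hL _ (by simpa using h0))

lemma Away.zero {ν : Q → ℝ} {q : Q} (h : Away ν q) : ν q = 0 :=
  Eventually.self_of_nhds (p := fun q => ν q = 0) h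

lemma Away.dd {ν : Q → ℝ} {q : Q} (h : Away ν q) (c : Ctx) {f g : Q → G}
    (hg : ∀ q, ν q = 0 → g q = f q) : dd c g q = dd c f q :=
  dd_congr c (h.mono fun q hq => hg q hq)

open Pass Path.Homotopic.Quotient in
theorem tauMove (hC : Corr2Stmt) (hF : FramesStmt) : TauMoveStmt := by
  intro c X f hf E γ Z ν sν pν ν01 hK hν ⟨x, w, cx, cw, px, pw, hN, hZ⟩ ε hε
  have cE := E.cont
  obtain ⟨B, B', C, fr, hB, C1, CK, C0⟩ := frames_nf hF γ (e := fun q => (E q).1 + x q) cE.fst cw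
    (cE.fst.add cx) cE.snd (E.per.comp Prod.fst) pw (fun q m => by simp only [E.per q m, px q m])
    (E.per.comp Prod.snd) fun q a b e g h0 => by
      obtain ⟨h1, h2, h3, h4⟩ := hN q (a + e) g e b (by rw [← h0]; module)
      exact ⟨by linarith, h4, h3, h2⟩
  have Binj : ∀ z v, B z v = 0 → v = 0 := fun z v h => by rw [← fr.inv' z v, h, map_zero]
  have Binj' : ∀ z v, B' z v = 0 → v = 0 := fun z v h => by rw [← fr.inv z v, h, map_zero]
  have BXZ : ∀ s q, 0 ≤ s → s ≤ 1 → (B (s, q) vX, B (s, q) vZ) = γ.extend s q := by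
    intro s q s0 s1
    rw [← CK s q s0 s1, hB, hB]
    simp [fr4_apply, vX, vZ]
  have B0 : ∀ q, B (0, q) vX = (dd c f q).1 ∧ B (0, q) vZ = (dd c f q).2 := fun q => by
    have := BXZ 0 q le_rfl zero_le_one
    rw [Path.extend_zero] at this
    exact ⟨congrArg Prod.fst this, congrArg Prod.snd this⟩
  obtain ⟨F, -, -, J₀, σ, cσ, σ0, σ1, σr, hP, hU⟩ := runJ2 hC hf.toIsEmb fr sν pν ν01
    (fun q => (hν q).imp id fun h => (C0 q h).2) (δ := 1 / 10) (by norm_num) le_rfl hε fun q => by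
      rw [← (B0 q).1, ← (B0 q).2, fr.inv', fr.inv']
      constructor <;> simp [RV, RU, vX, vZ]
  let J : R.IsoR c X f F ε := ⟨J₀, fun l q hq => hU l q (hK q hq), fun l q => (hP l q).2.le⟩
  have hF := J.emb1R hf
  have cH := J₀.dd_cont
  let K : ℝ × ℝ × Q → G × G := fun z =>
    (B (σ z.1, z.2.2) (B' (σ z.2.1, z.2.2) (dd c (J₀.H z.2.1) z.2.2).1),
      B (σ z.1, z.2.2) (B' (σ z.2.1, z.2.2) (dd c (J₀.H z.2.1) z.2.2).2))
  have cK : Continuous K := by
    have h1 : Continuous fun z : ℝ × ℝ × Q => B (σ z.1, z.2.2) := fr.cont.comp (by fun_prop)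
    have h2 : Continuous fun z : ℝ × ℝ × Q => B' (σ z.2.1, z.2.2) := fr.cont'.comp (by fun_prop)
    have h3 : Continuous fun z : ℝ × ℝ × Q => dd c (J₀.H z.2.1) z.2.2 := cH.comp continuous_snd
    exact (h1.clm_apply (h2.clm_apply h3.fst)).prodMk (h1.clm_apply (h2.clm_apply h3.snd))
  have pK : ∀ a b, Per fun q => K (a, b, q) := fun a b q m => by
    simp only [K, fr.per _ q m, fr.per' _ q m, (J₀.emb b).dd_per q m]
  have iK : ∀ a b q, Inj (K (a, b, q)) := fun a b q =>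
    inj_map (Binj _) (inj_map (Binj' _) ((J₀.emb b).imm q))
  have K0 : ∀ a b q, ν q = 0 → K (a, b, q) = dd c (J₀.H b) q := fun a b q hq => by
    have h := (C0 q ((hν q).resolve_left (by rw [hq]; norm_num))).2
    simp only [K, h (σ b), ← h (σ a), fr.inv]
  have rK : ∀ a b q, q ∉ X.K → K (a, b, q) = X.A0 q := fun a b q hq => by
    rw [K0 a b q (hK q hq)]
    exact (J.embR hf b).rel q hq
  have Kd : ∀ a q, K (a, a, q) = dd c (J₀.H a) q := fun a q => by simp only [K, fr.inv]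
  have Ke : ∀ a q, K (a, 0, q) = γ.extend (σ a) q := fun a q => by
    simp only [K, J₀.h0, σ0, ← (B0 q).1, ← (B0 q).2, fr.inv']
    exact BXZ _ q (σr a).1 (σr a).2
  have f1 : R.IsFam X fun y : ℝ × Q => K (1, 1 - y.1, y.2) :=
    ⟨cK.comp (by fun_prop), fun s => pK 1 (1 - s), fun s q _ _ => iK _ _ q,
      fun s q _ _ hq => rK _ _ q hq⟩
  have fv : R.IsFam X fun y : ℝ × Q => γ.extend (σ y.1) y.2 :=
    ⟨(R.ext_cont γ).comp (f := fun y : ℝ × Q => (σ y.1, y.2)) (by fun_prop),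
      fun s => (γ.extend (σ s)).per, fun s q _ _ => (γ.extend _).inj q,
      fun s q _ _ hq => (γ.extend _).rel hq⟩
  let v : Path hf.d E := R.mkPath fv (fun q => by simp [σ0]) (fun q => by simp [σ1])
  have hv : R.hc v = R.hc γ := R.hc_reparam γ v cσ σ0 σ1 fun t => R.II.ext' fun q => rfl
  refine ⟨F, hF, J, R.mkPath f1 (fun q => by simp [Kd, J₀.h1]) (fun q => by simp [Ke, σ1]), ?_,
    fun t q => ⟨fun hq h0 => ?_, fun hq => ?_⟩⟩
  · rw [← hv, ← refl_trans (R.hc v), ← R.hc_refl, ← R.hc_trans, ← R.hc_trans, R.hc_eq]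
    refine R.square (K := fun z : ℝ × ℝ × Q => K (z.1, z.1 * (1 - z.2.1), z.2.2))
      (cK.comp (by fun_prop)) (fun a b => pK a (a * (1 - b))) (fun a b q _ _ _ _ => iK _ _ q)
      (fun a b q _ _ _ _ => rK _ _ q) (fun u q => ?_) (fun u q => by simp) (fun u q => ?_)
      fun u q => ?_
    · simp only [sub_zero, mul_one, Kd]; rfl
    · simp [Kd, J₀.h0]
    · simp only [sub_self, mul_zero, Ke]; rfl
  · have h1 := (hP (1 - t) q).1.2
    simp only [R.mkPath_apply, K, σ1] at h0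
    generalize B' (σ (1 - t), q) (dd c (J₀.H (1 - t)) q).2 = y at h0 h1
    rw [hB, C1, fr4_apply, (hZ q hq).1, (hZ q hq).2] at h0
    have hI := hN q
    rw [(hZ q hq).1, (hZ q hq).2] at hI
    set u := (y.1.re + y.2.re) • (E q).1 + y.2.im • (E q).2 with hu
    have u2 : u.2 = 0 := by
      rw [← h0, hu]
      simp only [Prod.snd_add, Prod.smul_snd, vX, vW, smul_zero, add_zero]
      module
    obtain ⟨a1, a2, -, -⟩ := hI (y.1.re + y.2.re) y.2.im (-u.1.re) (-u.1.im) (by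
      rw [← hu]
      refine Prod.ext (Complex.ext ?_ ?_) ?_ <;> simp [vX, vW, u2])
    have n1 : ‖y.2‖ ≤ ‖y.1‖ := by
      calc ‖y.2‖ ≤ |y.2.re| + |y.2.im| := Complex.norm_le_abs_re_add_abs_im _
        _ = |y.1.re| := by rw [a2, abs_zero, add_zero, show y.2.re = -y.1.re by linarith, abs_neg]
        _ ≤ ‖y.1‖ := Complex.abs_re_le_norm _
    have := h1.pos
    unfold RU at h1
    linarith
  · rw [R.mkPath_apply, K0 _ _ q hq.zero, hq.dd c (hU _)]
    simpa using (hν q).resolve_left (by rw [hq.zero]; norm_num) 0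

end Pool.Agent.Lib.MP_72f1d0_gt
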