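import Mathlib
import Pool.Agent.Lib.MP_72f1d0_gt.Move
import Pool.Agent.Lib.MP_72f1d0_gt.TauMove

/-! The relative stage that moves only the first vector: gauge reduction and normal frames. -/

open scoped ContDiff Topology
open Set Filter

namespace Pool.Agent.Lib.MP_72f1d0_gt
namespace Move

variable {X : Rel}

/-- The gauge map, written so that it is the identity for `n' = n`. -/
noncomputable def T' (n n' m : G) : G :=
  (m.1 + (m.2 / n.2).re • (n'.1 - n.1), m.2 + m.2 * (n'.2 - n.2) / n.2)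

lemma T'_self (n m : G) : T' n n m = m := by simp [T']

lemma T'_eq {n : G} (h : n.2 ≠ 0) (n' m : G) : T' n n' m = T n n' m := by
  unfold T' T
  ext1
  · rfl
  · simp only; field_simp; ring

lemma reduce2 {A E : R.II X} (γ : Path A E) {c₁ : Q → ℝ} (cc : Continuous c₁) (pc : Per c₁)
    {Y : Set Q} (hY : IsClosed Y) (h0 : ∀ q, q ∉ Y → c₁ q = 0)
    (h : R.PW γ fun q x => q ∈ Y → x.2.2 ≠ 0) :
    ∃ (M : R.II X) (α : Path A M) (P : Path M E), R.hc γ = (R.hc α).trans (R.hc P) ∧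
      R.PW α (fun q x => x.2 = (A q).2 ∧ (c₁ q = 0 → x = A q)) ∧
      R.PW P fun q x => (0 < dl (E q) → (c₁ q = 1 ∨ ∀ t, 0 < dl (γ t q)) → 0 < dl x) ∧
        (c₁ q = 0 → ∃ t, x = γ t q) := by
  obtain ⟨N, γ₁, γ₂, hN, h1, h2, e⟩ := R.trunc γ cc pc
  have hγ := R.ext_cont γ₁
  have hr : ∀ s q, ∃ t, γ₁.extend s q = γ t q := fun s q => by
    obtain ⟨t, ht⟩ := R.ext_mem γ₁ s
    obtain ⟨t', ht'⟩ := R.ext_mem γ (c₁ q * t)
    exact ⟨t', by rw [ht, h1, ht']⟩
  have hz : ∀ s q, c₁ q = 0 → γ₁.extend s q = A q := fun s q hq => by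
    obtain ⟨t, ht⟩ := R.ext_mem γ₁ s
    rw [ht, h1, hq]; simp
  have hne : ∀ s q, q ∈ Y → (γ₁.extend s q).2.2 ≠ 0 := fun s q hq => by
    obtain ⟨t, ht⟩ := hr s q
    rw [ht]; exact h t q hq
  let K : ℝ × ℝ × Q → G × G := fun z =>
    (T' (γ₁.extend z.2.1 z.2.2).2 (γ₁.extend (z.1 * z.2.1) z.2.2).2 (γ₁.extend z.2.1 z.2.2).1,
      (γ₁.extend (z.1 * z.2.1) z.2.2).2)
  have Kz : ∀ a b q, c₁ q = 0 → K (a, b, q) = A q := fun a b q hq => by
    simp only [K, hz _ q hq, T'_self]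
  have c1 : Continuous fun z : ℝ × ℝ × Q => γ₁.extend z.2.1 z.2.2 :=
    hγ.comp (f := fun z : ℝ × ℝ × Q => (z.2.1, z.2.2)) (by fun_prop)
  have c2 : Continuous fun z : ℝ × ℝ × Q => γ₁.extend (z.1 * z.2.1) z.2.2 :=
    hγ.comp (f := fun z : ℝ × ℝ × Q => (z.1 * z.2.1, z.2.2)) (by fun_prop)
  have hK : Continuous K := by
    have e : (univ : Set (ℝ × ℝ × Q)) = {z | z.2.2 ∈ Y} ∪ {z | c₁ z.2.2 = 0} := by
      ext z
      simpa using (em (z.2.2 ∈ Y)).imp id (h0 _)
    rw [← continuousOn_univ, e]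
    refine ContinuousOn.union_of_isClosed ?_ ?_ (hY.preimage (by fun_prop))
      (isClosed_eq (by fun_prop) continuous_const)
    · refine ContinuousOn.prodMk (ContinuousOn.prodMk ?_ ?_) c2.snd.continuousOn
      · exact c1.fst.fst.continuousOn.add ((Complex.continuous_re.comp_continuousOn
          (c1.fst.snd.continuousOn.div c1.snd.snd.continuousOn fun z hz => hne _ _ hz)).smul
          (c2.snd.fst.sub c1.snd.fst).continuousOn)
      · exact c1.fst.snd.continuousOn.add ((c1.fst.snd.mul (c2.snd.snd.sub c1.snd.snd)).continuousOn.div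
          c1.snd.snd.continuousOn fun z hz => hne _ _ hz)
    · exact (A.cont.comp (f := fun z : ℝ × ℝ × Q => z.2.2) (by fun_prop)).continuousOn.congr
        fun z hz => Kz _ _ _ hz
  have hKp : ∀ a b, Per fun q => K (a, b, q) := fun a b q m => by
    simp only [K, (γ₁.extend _).per q m]
  have hKi : ∀ a b q, Inj (K (a, b, q)) := fun a b q => by
    by_cases hq : q ∈ Y
    · simp only [K, T'_eq (hne _ _ hq)]
      exact T_Inj (hne _ _ hq) (hne _ _ hq) ((γ₁.extend b).inj q)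
    · rw [Kz _ _ _ (h0 q hq)]; exact A.inj q
  have hKr : ∀ a b q, q ∉ X.K → K (a, b, q) = X.A0 q := fun a b q hq => by
    simp only [K, (γ₁.extend _).rel hq, T'_self]
  have hKd : ∀ a b q, (γ₁.extend (a * b) q).2.2 ≠ 0 → 0 < dl (γ₁.extend b q) →
      0 < dl (K (a, b, q)) := fun a b q h1 h2 => by
    have h3 := snd_ne_zero_of_dl h2.ne'
    simp only [K, T'_eq h3]
    exact T_dl h3 h1 h2
  let M : R.II X := R.II.mk' (fun q => K (0, 1, q)) (hK.comp (by fun_prop)) (hKp 0 1) (hKi 0 1)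
    (hKr 0 1)
  have f1 : R.IsFam X fun x : ℝ × Q => K (0, x.1, x.2) :=
    ⟨hK.comp (by fun_prop), hKp 0, fun s q _ _ => hKi 0 s q, fun s q _ _ => hKr 0 s q⟩
  have f2 : R.IsFam X fun x : ℝ × Q => K (x.1, 1, x.2) :=
    ⟨hK.comp (by fun_prop), fun s => hKp s 1, fun s q _ _ => hKi s 1 q, fun s q _ _ => hKr s 1 q⟩
  have e0 : ∀ a q, K (a, 0, q) = A q := fun a q => by
    simp only [K, mul_zero, Path.extend_zero, T'_self]
  have e1 : ∀ b q, K (1, b, q) = γ₁.extend b q := fun b q => by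
    simp only [K, one_mul, T'_self]
  refine ⟨M, R.mkPath f1 (e0 0) (fun q => rfl), (R.mkPath f2 (fun q => rfl)
    (fun q => by rw [e1]; simp)).trans γ₂, ?_, fun t q => ⟨by simp [K], Kz 0 t q⟩,
    R.PW.trans (fun t q => ⟨fun hE hq => ?_, fun hq => ⟨0, by simpa using Kz t 1 q hq⟩⟩)
      fun t q => ⟨fun hE hq => ?_, fun _ => ?_⟩⟩
  · rw [e, R.hc_trans, ← Path.Homotopic.Quotient.trans_assoc]
    congr 1
    rw [← Path.Homotopic.Quotient.refl_trans (R.hc γ₁), ← R.hc_refl, ← R.hc_trans, ← R.hc_trans,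
      R.hc_eq]
    exact R.square hK hKp (fun a b q _ _ _ _ => hKi a b q) (fun a b q _ _ _ _ => hKr a b q)
      (fun u q => (e0 u q).symm) (fun u q => by rw [e1]; simp) (fun u q => rfl) (fun u q => rfl)
  · rcases hq with hq | hq
    · refine hKd t 1 q (hne _ q (by_contra fun h' => by simp [h0 q h'] at hq)) ?_
      rw [Path.extend_one, hN, hq, Path.extend_one]; exact hE
    · have key : ∀ s, 0 < dl (γ₁.extend s q) := fun s => by
        obtain ⟨t, ht⟩ := hr s q
        rw [ht]; exact hq t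
      exact hKd t 1 q (snd_ne_zero_of_dl (key _).ne') (key 1)
  · rw [h2]
    rcases hq with hq | hq
    · simpa [hq] using hE
    · obtain ⟨t', ht'⟩ := R.ext_mem γ (c₁ q + (1 - c₁ q) * t)
      rw [ht']; exact hq t'
  · obtain ⟨t', ht'⟩ := R.ext_mem γ (c₁ q + (1 - c₁ q) * t)
    exact ⟨t', by rw [h2, ht']⟩

/-- Transport of a normal frame along a path which is transverse on `Z`. -/
lemma nf_transport (hF : FramesStmt) {M E : R.II X} (P : Path M E) {Z Z₂ : Set Q} {c₂ : Q → ℝ}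
    (cc : Continuous c₂) (pc : Per c₂) (hN : HasNF E Z) (hP : R.PW P fun q x => q ∈ Z → 0 < dl x)
    (hZ : Z₂ ⊆ Z) (h0 : ∀ q ∈ Z₂, c₂ q = 0) (h1 : ∀ q, q ∉ Z → c₂ q = 1) : HasNF M Z₂ := by
  obtain ⟨x, w, cx, cw, px, pw, hi, hx⟩ := hN
  obtain ⟨N, P₁, -, hN, e1, -, -⟩ := R.trunc P cc pc
  have iN : ∀ q, Ind4 (N q).1 (N q).2 (x q) (w q) := fun q => by
    by_cases hq : q ∈ Z
    · rw [(hx q hq).1, (hx q hq).2, hN]
      exact ind4_of_dl (hP.extend _ q hq).ne'
    · rw [hN, h1 q hq, Path.extend_one]; exact hi q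
  obtain ⟨B, B', C, fr, hB, -, CK, C0⟩ := Pass.frames_nf hF P₁ N.cont.fst N.cont.snd cx cw
    (N.per.comp Prod.fst) (N.per.comp Prod.snd) px pw iN
  have cB : Continuous fun q => B (0, q) := fr.cont.comp (by fun_prop)
  refine ⟨fun q => B (0, q) vR, fun q => B (0, q) vZ, cB.clm_apply continuous_const,
    cB.clm_apply continuous_const, (fr.per 0).comp fun L => L vR, (fr.per 0).comp fun L => L vZ,
    fun q => ?_, fun q hq => ?_⟩
  · have e : M q = (B (0, q) vX, B (0, q) vW) := by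
      have := CK 0 q le_rfl zero_le_one
      rw [Path.extend_zero] at this
      rw [← this, hB, hB]
      simp [Pass.fr4_apply, vX, vW]
    rw [e]
    refine Pass.ind4_map (fun v h => by rw [← fr.inv' (0, q) v, h, map_zero]) fun a b e g h => ?_
    have h1 := congrArg (fun v : G => v.1.re) h
    have h2 := congrArg (fun v : G => v.1.im) h
    have h3 := congrArg (fun v : G => v.2.re) h
    have h4 := congrArg (fun v : G => v.2.im) h
    simp [vX, vW, vR, vZ] at h1 h2 h3 h4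
    exact ⟨h1, h2, h3, h4⟩
  · have := (C0 q fun t => by rw [e1, hN, h0 q hq, zero_mul]).1
    simp only [hB, this, ← (hx q (hZ hq)).1, ← (hx q (hZ hq)).2]
    simp [Pass.fr4_apply, vR, vZ]

lemma segInj_cut {x y : G × G} (h : SegInj x y) {k : ℝ} (k0 : 0 ≤ k) (k1 : k ≤ 1) :
    SegInj x (x + k • (y - x)) := fun u u0 u1 => by
  rw [add_sub_cancel_left, smul_smul]
  exact h _ (mul_nonneg u0 k0) (mul_le_one₀ u1 k0 k1)

lemma dl_margin' {P : Q → G × G} (hP : Continuous P) (hp : Per P) {S : Set Q} (hS : IsClosed S)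
    (pS : PerSet S) (h : ∀ q ∈ S, 0 < dl (P q)) :
    ∃ η : ℝ, 0 < η ∧ ∀ q ∈ S, ∀ x, ‖x - P q‖ ≤ η → 0 < dl x := by
  obtain ⟨m, hm, H⟩ := per_pos0 hS pS (g := fun q => dl (P q)) (by fun_prop) (hp.comp dl) h
  obtain ⟨δ, hδ, H'⟩ := unif (K := Metric.closedBall (0 : G × G) 1) (isCompact_closedBall _ _)
    (g := fun x : Q × (G × G) => dl (P x.1 + x.2)) (by fun_prop)
    (fun y q m => by simp only [hp q m]) (half_pos hm)
  refine ⟨min δ 1, lt_min hδ one_pos, fun q hq x hx => ?_⟩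
  have := H' q q (x - P q) (by simpa using hx.trans (min_le_right _ _)) 0 (by simp)
    (by simp [hδ.le]) (by simpa using hx.trans (min_le_left _ _))
  simp only [add_sub_cancel, add_zero, Real.dist_eq] at this
  have h1 := H q hq
  have h2 := (abs_le.1 this).1
  linarith

lemma dl_cut {x y : G × G} (h : y.2 = x.2) (hx : 0 < dl x) (hy : 0 < dl y) {k : ℝ} (k0 : 0 ≤ k)
    (k1 : k ≤ 1) : 0 < dl (x + k • (y - x)) := by
  have e : dl (x + k • (y - x)) = (1 - k) * dl x + k * dl y := by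
    simp [dl, h]; ring
  rw [e]
  rcases eq_or_lt_of_le k0 with rfl | h
  · simpa using hx
  · nlinarith [mul_pos h hy, mul_nonneg (sub_nonneg.2 k1) hx.le]

end Move
end Pool.Agent.Lib.MP_72f1d0_gt
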