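import Mathlib
import Pool.Agent.Lib.MP_72f1d0_gt.MoveR

/-! The relative stage that moves only the first vector. -/

open scoped ContDiff Topology
open Set Filter

namespace Pool.Agent.Lib.MP_72f1d0_gt

open Move Path.Homotopic.Quotient in
theorem move2 (hC : Corr2Stmt) (hF : FramesStmt) : Move2Stmt := by
  intro c X f hf E γ ν c₁ c₂ k Y Zb Z₂ sν pν ν01 cc₁ pc₁ _ cc₂ pc₂ _ ck pk k01 hY hY0 hγ hν hK hk
    hNF hZb cZ pZ hZ h20 h21 ε hε
  obtain ⟨M, α, P, e0, pα, pP⟩ := reduce2 γ cc₁ pc₁ hY hY0 hγ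
  have dP : R.PW P fun q x => q ∈ Zb → 0 < dl x :=
    pP.mono fun q x h hq => h.1 (hZb q hq).1 (hZb q hq).2
  obtain ⟨x, w, cx, cw, px, pw, hN, hx⟩ := nf_transport hF P cc₂ pc₂ hNF dP hZ h20 h21
  have cM := M.cont
  obtain ⟨B, B', C, hB, eB, C1, CK, C0⟩ := Pass.frames_nf hF α (e := fun q => (M q).1 - x q) cM.fst
    cw (cM.fst.sub cx) cM.snd (M.per.comp Prod.fst) pw
    (fun q m => by simp only [M.per q m, px q m]) (M.per.comp Prod.snd) fun q a b e g h0 => by
      obtain ⟨h1, h2, h3, h4⟩ := hN q (a + e) g (-e) b (by rw [← h0]; module)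
      exact ⟨by linarith, h4, by linarith, h2⟩
  have cB := hB.cont
  have pB := hB.per
  have τα : ∀ s q, (α.extend s q).2 = (dd c f q).2 := fun s q => (pα.extend s q).1
  have τM : ∀ q, (M q).2 = (dd c f q).2 := fun q => (pα.target q).1
  have αz : ∀ s q, c₁ q = 0 → α.extend s q = dd c f q := fun s q => (pα.extend s q).2
  have Mz : ∀ q, c₁ q = 0 → M q = dd c f q := fun q => (pα.target q).2
  have Cz : ∀ q, c₁ q = 0 → (∀ s v, C (s, q) v = v) ∧ ∀ s, B' (s, q) = B' (0, q) := fun q hq =>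
    C0 q fun t => by rw [Mz q hq]; exact (pα t q).2 hq
  have aw : ∀ q, Away ν q → c₁ q = 0 := fun q hq =>
    (hν q).resolve_left (by rw [hq.zero]; norm_num)
  have BX : ∀ s q, 0 ≤ s → s ≤ 1 → B (s, q) vX = (α.extend s q).1 := fun s q a b => by
    rw [← CK s q a b, eB]
    simp [Pass.fr4_apply, vX]
  have BZ : ∀ s q, 0 ≤ s → s ≤ 1 → B (s, q) vZ = (dd c f q).2 := fun s q a b => by
    rw [← τα s q, ← CK s q a b, eB]
    simp [Pass.fr4_apply, vZ]
  have BR : ∀ q, B (1, q) vR = (M q).1 - x q := fun q => by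
    rw [eB, C1]; simp [Pass.fr4_apply, vR]
  have BR' : ∀ s q, c₁ q = 0 → B (s, q) vR = B (1, q) vR := fun s q hq => by
    rw [eB, eB, (Cz q hq).1, (Cz q hq).1]
  have cτ : Continuous fun q => (dd c f q).2 := hf.dd_smooth.continuous.snd
  have cR : Continuous fun q => B (1, q) vR :=
    (cB.comp (f := fun q => ((1 : ℝ), q)) (by fun_prop)).clm_apply continuous_const
  have dlE : ∀ q ∈ Z₂, ∀ u : ℝ, 0 < dl ((M q).1 - u • x q, (dd c f q).2) := fun q hq u => by
    have := dP.source q (hZ hq)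
    rw [← τM, (hx q hq).1]
    simpa [dl, vX] using this
  obtain ⟨η, hη, Hη⟩ := dl_margin' (P := fun q => (B (1, q) vR, (dd c f q).2)) (cR.prodMk cτ)
    (fun q m => by simp only [pB 1 q m, hf.dd_per q m]) cZ pZ fun q hq => by
      have := dlE q hq 1
      rwa [one_smul, ← BR] at this
  obtain ⟨Cb, hCb, HCb⟩ := hB.bound'
  set ε₀ : ℝ := min (min ε η) (1 / 20 / Cb) with hε₀
  have ε0 : 0 < ε₀ := lt_min (lt_min hε hη) (by positivity)
  have ε1 : ε₀ ≤ ε := (min_le_left _ _).trans (min_le_left _ _)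
  have ε2 : ε₀ ≤ η := (min_le_left _ _).trans (min_le_right _ _)
  have near : ∀ s q v w, 0 ≤ s → s ≤ 1 → ‖v - B (s, q) w‖ ≤ ε₀ → ‖B' (s, q) v - w‖ ≤ 1 / 20 := by
    intro s q v w a b h
    have e : B' (s, q) v - w = B' (s, q) (v - B (s, q) w) := by rw [map_sub, hB.inv']
    rw [e]
    refine (HCb s q _ a b).trans ?_
    calc _ ≤ Cb * (1 / 20 / Cb) := by gcongr; exact h.trans (min_le_right _ _)
      _ = 1 / 20 := by field_simp
  have I3 : ∀ s q x y z, 0 ≤ s → s ≤ 1 → RV (4 * (1 / 10)) (B' (s, q) x) →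
      ‖y - B (s, q) vR‖ ≤ ε₀ → ‖z - (dd c f q).2‖ ≤ ε₀ → Ind3 x y z := fun s q x y z a b h1 h2 h3 =>
    ind3_of_map (B' (s, q)) (ind3_near h1 (near s q y vR a b h2)
      (near s q z vZ a b (by rw [BZ s q a b]; exact h3)))
  have SI : ∀ s q (x y : G × G), 0 ≤ s → s ≤ 1 → RV (4 * (1 / 10)) (B' (s, q) x.1) →
      ‖x.2 - (dd c f q).2‖ ≤ ε₀ → ‖y.1 - B (s, q) vR‖ ≤ ε₀ → ‖y.2 - (dd c f q).2‖ ≤ ε₀ →
      SegInj x (x + k q • (y - x)) := fun s q x y a b h1 h2 h3 h4 =>
    segInj_cut (segInj_of_ind3 fun u u0 u1 => I3 s q _ _ _ a b h1 h3 (norm_seg_le h2 h4 u0 u1))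
      (k01 q).1 (k01 q).2
  have RX : ∀ s q (δ : ℝ), 0 < δ → 0 ≤ s → s ≤ 1 → RV δ (B' (s, q) (α.extend s q).1) :=
    fun s q δ hδ a b => by
      rw [← BX s q a b, hB.inv']
      simpa [RV, vX] using hδ
  have z0 : ∀ v : G, ‖v - v‖ ≤ ε₀ := fun v => by simpa using ε0.le
  have last : ∀ {x y : G × G}, SegInj x y → Inj y := fun h => by
    simpa using h 1 zero_le_one le_rfl
  -- the path of cut targets
  have s4 : ∀ s q, 0 ≤ s → s ≤ 1 → SegInj (α.extend s q)
      (α.extend s q + k q • ((B (s, q) vR, (dd c f q).2) - α.extend s q)) := fun s q a b =>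
    SI s q _ _ a b (RX s q _ (by norm_num) a b) (by rw [τα]; exact z0 _) (z0 _) (z0 _)
  have cα := R.ext_cont α
  have fP : R.IsFam X fun y : ℝ × Q =>
      α.extend y.1 y.2 + k y.2 • ((B y vR, (dd c f y.2).2) - α.extend y.1 y.2) :=
    ⟨cα.add ((ck.comp continuous_snd).smul (((cB.clm_apply continuous_const).prodMk
      (cτ.comp continuous_snd)).sub cα)),
      fun s q m => by simp only [(α.extend s).per q m, pk q m, pB s q m, hf.dd_per q m],
      fun s q a b => last (s4 s q a b),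
      fun s q _ _ hq => by simp only [(hK q hq).2, zero_smul, add_zero, (α.extend s).rel hq]⟩
  let EE : ∀ s : ℝ, 0 ≤ s → s ≤ 1 → R.II X := fun s a b =>
    R.II.mk' (fun q => α.extend s q + k q • ((B (s, q) vR, (dd c f q).2) - α.extend s q))
      (fP.cont.comp (f := fun q => (s, q)) (by fun_prop)) (fP.per s) (fun q => fP.inj s q a b)
      fun q => fP.rel s q a b
  let E₀ : R.II X := EE 0 le_rfl zero_le_one
  let E₂ : R.II X := EE 1 zero_le_one le_rfl
  let P₀ : Path E₀ E₂ := R.mkPath fP (fun q => rfl) fun q => rfl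
  -- the corrugations
  obtain ⟨F, -, RF, J₀, σ, cσ, σ0, σ1, σr, HJ, UJ⟩ := runM2 hC hf.toIsEmb hB sν pν ν01
    (fun q => (hν q).imp id fun h => (Cz q h).2) (δ := 1 / 10) (by norm_num) le_rfl ε0
    (fun s q v a b h => by
      have h1 := near s q v vZ a b (by rw [BZ s q a b]; exact h.le)
      have t1 : ‖(B' (s, q) v).1‖ ≤ 1 / 20 := by
        simpa [vZ] using (norm_fst_le (B' (s, q) v - vZ)).trans h1
      have t2 : ‖(B' (s, q) v).2 - Complex.I‖ ≤ 1 / 20 := (norm_snd_le (B' (s, q) v - vZ)).trans h1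
      have t3 := norm_sub_norm_le Complex.I (B' (s, q) v).2
      rw [norm_sub_rev, Complex.norm_I] at t3
      unfold RU
      linarith)
    (fun q => by simpa using RX 0 q (1 / 10) (by norm_num) le_rfl zero_le_one) hε
  let J : R.IsoR c X f F ε := ⟨J₀, fun l q hq => UJ l q (hK q hq).1, fun l q => (HJ l q).2.le⟩
  have hF' := J.emb1R hf
  have unch : ∀ l q, Away ν q → dd c (J₀.H l) q = dd c f q := fun l q hq => hq.dd c (UJ l)
  have unF : ∀ q, Away ν q → dd c F q = dd c f q := fun q hq => by rw [← unch 1 q hq, J₀.h1]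
  have eP' : ∀ l q, α.extend (σ l) q + k q • ((B (σ l, q) vR, (dd c f q).2) - α.extend (σ l) q) =
      dd c (J₀.H l) q + k q • ((B (σ l, q) vR, (dd c f q).2) - dd c (J₀.H l) q) := fun l q => by
    rcases hk q with h | h
    · simp [h]
    · rw [unch l q h, αz _ q (aw q h)]
  have τF : ∀ q, ‖(dd c F q).2 - (dd c f q).2‖ ≤ ε₀ := fun q => by
    have := (HJ 1 q).1.2.le
    rwa [J₀.h1] at this
  have RF' : ∀ q, RV (4 * (1 / 10)) (B' (1, q) (dd c F q).1) := fun q => (RF q).mono (by norm_num)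
  obtain ⟨ζ, sζ, pζ, nζ⟩ := smooth_approx cR ((pB 1).comp fun L => L vR) ε0
  have cF := hF'.dd_smooth.continuous
  have cζ := sζ.continuous
  have eE : ∀ q, ((dd c F q).1 + k q • (ζ q - (dd c F q).1), (dd c F q).2) =
      dd c F q + k q • ((ζ q, (dd c F q).2) - dd c F q) := fun q => by
    ext1 <;> simp
  have s1' : ∀ q, SegInj (dd c F q) ((dd c F q).1 + k q • (ζ q - (dd c F q).1), (dd c F q).2) :=
    fun q => by
      rw [eE]
      exact SI 1 q _ _ zero_le_one le_rfl (RF' q) (τF q) (nζ q) (τF q)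
  let E' : R.II X := R.II.mk' (fun q => ((dd c F q).1 + k q • (ζ q - (dd c F q).1), (dd c F q).2))
    ((cF.fst.add (ck.smul (cζ.sub cF.fst))).prodMk cF.snd)
    (fun q m => by simp only [pζ q m, hF'.dd_per q m, pk q m])
    (fun q => last (s1' q)) fun q hq => by simp [(hK q hq).2, hF'.rel q hq]
  have s1 : ∀ q, SegInj (hF'.d q) (E' q) := s1'
  have eE₂ : ∀ q, E₂ q = dd c F q + k q • ((B (1, q) vR, (dd c f q).2) - dd c F q) := fun q => by
    have := eP' 1 q
    rwa [σ1, J₀.h1] at this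
  set y : Q → ℝ → G × G := fun q u => (ζ q, (dd c F q).2) +
    u • ((B (1, q) vR, (dd c f q).2) - (ζ q, (dd c F q).2)) with hy
  have ny : ∀ q u, 0 ≤ u → u ≤ 1 → ‖y q u - (B (1, q) vR, (dd c f q).2)‖ ≤ ε₀ := fun q u a b =>
    norm_seg_le (by rw [Prod.norm_def]; exact max_le (nζ q) (τF q)) (by simpa using ε0.le) a b
  have eS : ∀ q (u : ℝ), E' q + u • (E₂ q - E' q) = dd c F q + k q • (y q u - dd c F q) :=
    fun q u => by
      rw [eE₂, show E' q = _ from eE q, hy]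
      module
  have sS : ∀ q (u : ℝ), 0 ≤ u → u ≤ 1 → SegInj (dd c F q) (E' q + u • (E₂ q - E' q)) :=
    fun q u a b => by
      rw [eS]
      exact SI 1 q _ _ zero_le_one le_rfl (RF' q) (τF q)
        ((norm_fst_le (y q u - (B (1, q) vR, (dd c f q).2))).trans (ny q u a b))
        ((norm_snd_le (y q u - (B (1, q) vR, (dd c f q).2))).trans (ny q u a b))
  have s2 : ∀ q, SegInj (E' q) (E₂ q) := fun q u a b => last (sS q u a b)
  have s3 : ∀ q, SegInj (hF'.d q) (E₂ q) := fun q => by simpa using sS q 1 zero_le_one le_rfl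
  have s4' : ∀ (t : UI) q, SegInj (α t q) (P₀ t q) := fun t q => by
    have := s4 t q t.2.1 t.2.2
    rwa [← α.extend_extends' t]
  have s5 : ∀ q, SegInj (hf.d q) (E₀ q) := fun q => by simpa using s4' 0 q
  have s6 : ∀ q, SegInj (M q) (E₂ q) := fun q => by simpa using s4' 1 q
  have fQ : R.IsFam X fun y : ℝ × Q => P₀.extend (σ y.1) y.2 :=
    ⟨(R.ext_cont P₀).comp (f := fun y : ℝ × Q => (σ y.1, y.2)) (by fun_prop),
      fun s => (P₀.extend (σ s)).per, fun s q _ _ => (P₀.extend (σ s)).inj q,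
      fun s q _ _ hq => (P₀.extend (σ s)).rel hq⟩
  let P' : Path E₀ E₂ := R.mkPath fQ (fun q => by simp [σ0]) fun q => by simp [σ1]
  have eP : R.hc P' = R.hc P₀ := R.hc_reparam P₀ P' cσ σ0 σ1 fun t => R.II.ext' fun q => rfl
  have vP : ∀ (t : UI) q, P' t q =
      dd c (J₀.H t) q + k q • ((B (σ t, q) vR, (dd c f q).2) - dd c (J₀.H t) q) := fun t q => by
    show P₀.extend (σ t) q = _
    rw [Path.extend_apply _ ⟨(σr t).1, (σr t).2⟩, ← eP']
    rfl
  have q1 := R.seg_square (J.path hf hF') P' (fun t q => by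
    rw [vP]
    exact SI (σ t) q _ _ (σr t).1 (σr t).2 (HJ t q).1.1 (HJ t q).1.2.le (z0 _) (z0 _)) s5 s3
  have q2 := R.seg_square α P₀ s4' s5 s6
  have q3 := R.seg_square (Path.refl hF'.d) (R.seg E' E₂ s2) (fun t q => sS q t t.2.1 t.2.2) s1 s3
  rw [R.hc_refl, refl_trans] at q3
  have kz : ∀ q, k q = 0 → Away ν q := fun q hq => (hk q).resolve_left (by rw [hq]; norm_num)
  have eM : ∀ q (u : ℝ), M q + u • (E₂ q - M q) = ((M q).1 - (u * k q) • x q, (dd c f q).2) :=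
    fun q u => by
      have e2 : E₂ q = M q + k q • (((M q).1 - x q, (dd c f q).2) - M q) := by
        rw [← BR, ← α.extend_one]; rfl
      rw [e2]
      ext1
      · simp only [Prod.fst_add, Prod.smul_fst, Prod.fst_sub]; module
      · simp only [Prod.snd_add, Prod.smul_snd, Prod.snd_sub, τM]; module
  refine ⟨F, hF', J, ζ, E', s1, (R.seg E' E₂ s2).trans ((R.seg M E₂ s6).symm.trans P), sζ, pζ,
    fun q => rfl, fun q => I3 1 q _ _ _ zero_le_one le_rfl (RF' q) (nζ q) (τF q),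
    fun q hq => Hη q hq _ (le_trans (by simpa [hy] using ny q 0 le_rfl zero_le_one) ε2), ?_,
    R.PW.trans (R.pw_seg fun q u a b => ⟨fun hq => ?_, fun hq => ⟨0, ?_⟩⟩)
      (R.PW.trans (R.PW.symm (R.pw_seg fun q u a b => ⟨fun hq => ?_, fun hq => ⟨0, ?_⟩⟩))
      fun t q => ⟨fun hq => dP t q (hZ hq), fun hq => (pP t q).2 (aw q (kz q hq))⟩),
    fun q => (τF q).trans ε1, unF⟩
  · rw [R.hc_trans, R.hc_trans, R.hc_symm, ← trans_assoc (R.hc (R.seg hF'.d E' s1)), ← q3,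
      ← trans_assoc, q1, eP, ← q2, trans_assoc, R.q_cancel₁, e0]
  · have h1 := Hη q hq _ ((ny q u a b).trans ε2)
    rw [eS]
    rcases hk q with h | h
    · simpa [h] using h1
    · refine dl_cut (by simp [hy, unF q h]) ?_ h1 (k01 q).1 (k01 q).2
      rw [unF q h, ← Mz q (aw q h)]
      exact dP.source q (hZ hq)
  · rw [eS, hq, unF q (kz q hq)]; simp
  · rw [eM]; exact dlE q hq _
  · rw [eM, hq, Mz q (aw q (kz q hq))]; simp

end Pool.Agent.Lib.MP_72f1d0_gt
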