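import Mathlib
import Pool.Agent.Lib.MP_72f1d0_gt.MoveR
import Pool.Agent.Lib.MP_72f1d0_gt.BeadA

/-! Transversality near arcs of circles. -/

open scoped ContDiff Topology
open Set Filter

namespace Pool.Agent.Lib.MP_72f1d0_gt

lemma away_of {ν : Q → ℝ} {U : Set Q} (hU : IsOpen U) {q : Q} (hq : q ∈ U)
    (h : ∀ q ∈ U, ν q = 0) : Away ν q := eventually_of_mem (hU.mem_nhds hq) h

lemma HasNF.mono {E : Q → G × G} {Z Z' : Set Q} (h : HasNF E Z) (hZ : Z' ⊆ Z) : HasNF E Z' := by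
  obtain ⟨x, w, h1, h2, h3, h4, h5, h6⟩ := h
  exact ⟨x, w, h1, h2, h3, h4, h5, fun q hq => h6 q (hZ hq)⟩

namespace OS

lemma st0 {x : ℝ} (h : x ≤ 0) : Real.smoothTransition x = 0 :=
  Real.smoothTransition.zero_of_nonpos h

lemma st1 {x : ℝ} (h : 1 ≤ x) : Real.smoothTransition x = 1 :=
  Real.smoothTransition.one_of_one_le h

/-- The product of two transition functions. -/
noncomputable def s2 (d w : Q → ℝ) (a b : ℝ) (q : Q) : ℝ :=
  Real.smoothTransition (d q - a) * Real.smoothTransition (w q - b)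

variable {d w : Q → ℝ}

lemma s2_smooth (hd : ContDiff ℝ ∞ d) (hw : ContDiff ℝ ∞ w) (a b : ℝ) : ContDiff ℝ ∞ (s2 d w a b) :=
  (Real.smoothTransition.contDiff.comp (hd.sub contDiff_const)).mul
    (Real.smoothTransition.contDiff.comp (hw.sub contDiff_const))

lemma s2_per (hd : Per d) (hw : Per w) (a b : ℝ) : Per (s2 d w a b) := fun q m => by
  simp only [s2, hd q m, hw q m]

lemma s2_mem (a b : ℝ) (q : Q) : 0 ≤ s2 d w a b q ∧ s2 d w a b q ≤ 1 :=
  ⟨mul_nonneg (Real.smoothTransition.nonneg _) (Real.smoothTransition.nonneg _),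
    mul_le_one₀ (Real.smoothTransition.le_one _) (Real.smoothTransition.nonneg _)
      (Real.smoothTransition.le_one _)⟩

lemma s2_zero {a b : ℝ} {q : Q} (h : d q ≤ a ∨ w q ≤ b) : s2 d w a b q = 0 := by
  rcases h with h | h
  · rw [s2, st0 (by linarith), zero_mul]
  · rw [s2, st0 (x := w q - b) (by linarith), mul_zero]

lemma s2_one {a b : ℝ} {q : Q} (h : a + 1 ≤ d q) (h' : b + 1 ≤ w q) : s2 d w a b q = 1 := by
  rw [s2, st1 (by linarith), st1 (by linarith), mul_one]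

lemma s2_away (hd : Continuous d) (hw : Continuous w) {a b : ℝ} {q : Q} (h : d q < a ∨ w q < b) :
    Away (s2 d w a b) q :=
  away_of ((isOpen_lt hd continuous_const).union (isOpen_lt hw continuous_const)) h
    fun _ h => s2_zero (h.imp le_of_lt le_of_lt)

lemma inj_margin {Y : Type*} [TopologicalSpace Y] [T2Space Y] {K : Set Y} (hK : IsCompact K)
    {P : Q × Y → G × G} (cP : Continuous P) (pP : ∀ y, Per fun q => P (q, y))
    (h : ∀ q, ∀ y ∈ K, Inj (P (q, y))) :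
    ∃ κ : ℝ, 0 < κ ∧ ∀ q, ∀ y ∈ K, ∀ A, ‖A - P (q, y)‖ ≤ κ → Inj A := by
  obtain ⟨κ, hκ, H⟩ := Pass.cone5 hK (T := {x | x.2 ∈ K}) (hK.isClosed.preimage continuous_snd)
    (fun _ _ _ h => h) (fun _ h => h) (S := {v : Pass.R5 | v.2.2 = 0})
    (isClosed_eq (by fun_prop) continuous_const) (fun v t _ hv => by
      show t • v.2.2 = 0
      rw [show v.2.2 = 0 from hv, smul_zero]) cP.fst cP.snd (continuous_const (y := (0 : G)))
    (continuous_const (y := (0 : G))) (continuous_const (y := (0 : G)))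
    (fun y => (pP y).comp Prod.fst) (fun y => (pP y).comp Prod.snd) (fun _ => per_const _)
    (fun _ => per_const _) (fun _ => per_const _) fun x hx v hv h0 => by
      obtain ⟨h1, h2⟩ := h x.1 x.2 hx v.1 v.2.1 (by simpa [Pass.lc] using h0)
      exact Prod.ext h1 (Prod.ext h2 hv)
  refine ⟨κ, hκ, fun q y hy A hA a b h0 => ?_⟩
  have := H (q, y) hy A.1 A.2 0 0 0 ((norm_fst_le (A - P (q, y))).trans hA)
    ((norm_snd_le (A - P (q, y))).trans hA) (by simp [hκ.le]) (by simp [hκ.le]) (by simp [hκ.le])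
    (a, b, 0) rfl (by simpa [Pass.lc] using h0)
  simpa using this

/-- The ideal point of the segment. -/
noncomputable def pt (μ ζ τ : G) (k : ℝ) (y : ℝ × ℝ × ℝ) : G × G :=
  ((1 - y.1 * k) • μ + ((1 - y.1) * y.2.1 + y.1 * k) • ζ, τ + ((1 - y.1) * y.2.2) • ζ)

lemma pt_cont {Y : Type*} [TopologicalSpace Y] {μ ζ τ : Y → G} {k : Y → ℝ} {y : Y → ℝ × ℝ × ℝ}
    (h1 : Continuous μ) (h2 : Continuous ζ) (h3 : Continuous τ) (h4 : Continuous k)
    (h5 : Continuous y) : Continuous fun z => pt (μ z) (ζ z) (τ z) (k z) (y z) := by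
  unfold pt; fun_prop

lemma pt_sub (μ ζ τ : G) (k u x y : ℝ) (A : G × G) :
    A + u • ((μ + k • (ζ - μ), τ) - A) - pt μ ζ τ k (u, x, y) =
      (1 - u) • (A - (μ + x • ζ, τ + y • ζ)) := by
  ext1 <;> simp only [pt, Prod.fst_add, Prod.fst_sub, Prod.smul_fst, Prod.snd_add, Prod.snd_sub,
    Prod.smul_snd] <;> module

lemma pt_inj {μ ζ τ : G} (h : Ind3 μ ζ τ) {k : ℝ} (k1 : k ≤ 1) {y : ℝ × ℝ × ℝ}
    (u0 : 0 ≤ y.1) (u1 : y.1 ≤ 1) : Inj (pt μ ζ τ k y) := fun a b h0 => by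
  obtain ⟨h1, h2, h3⟩ := h (a * (1 - y.1 * k)) (a * ((1 - y.1) * y.2.1 + y.1 * k) +
    b * ((1 - y.1) * y.2.2)) b (by rw [← h0]; simp only [pt]; module)
  refine ⟨by_contra fun ha => ?_, h3⟩
  have e1 : y.1 * k = 1 := by linarith [(mul_eq_zero.1 h1).resolve_left ha]
  have e2 : y.1 = 1 := by nlinarith
  rw [h3, e1, e2] at h2
  exact ha (by simpa using h2)

lemma dl_near {A P : G × G} {B η : ℝ} (hP : ‖P‖ ≤ B) (h : ‖A - P‖ ≤ η) (h1 : η ≤ 1) :
    dl P - η * (2 * B + 1) ≤ dl A := by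
  have e : dl A = dl P + dl (A.1 - P.1, A.2) + dl (P.1, A.2 - P.2) := by simp [dl]; ring
  have a1 : ‖A.1 - P.1‖ ≤ η := (norm_fst_le (A - P)).trans h
  have a2 : ‖A.2 - P.2‖ ≤ η := (norm_snd_le (A - P)).trans h
  have a3 : ‖A.2‖ ≤ B + 1 := by
    linarith [norm_sub_norm_le A.2 P.2, norm_snd_le P]
  have b1 := (abs_le.1 ((Bead.dl_le (A.1 - P.1) A.2).trans
    (mul_le_mul a1 a3 (norm_nonneg _) ((norm_nonneg _).trans h)))).1
  have b2 := (abs_le.1 ((Bead.dl_le P.1 (A.2 - P.2)).trans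
    (mul_le_mul ((norm_fst_le P).trans hP) a2 (norm_nonneg _) ((norm_nonneg _).trans hP)))).1
  linarith

lemma fast_lower {r : ℕ} (hr : 1 ≤ r) {δ s : ℝ} (δ0 : 0 < δ) (δ1 : δ ≤ 1 / 2) (hs : |ss r s| ≤ δ)
    (hc : 0 < cc r s) : 1 ≤ Real.cos (ss r s / δ) * (2 * Real.pi * r * cc r s) := by
  have r1 : (1 : ℝ) ≤ r := by exact_mod_cast hr
  have hpi := Real.pi_gt_three
  have c1 : 1 / 2 ≤ cc r s := by
    have := cc_sq_add_ss_sq r s
    have := sq_abs (ss r s)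
    nlinarith [abs_nonneg (ss r s)]
  have c2 : 1 / 2 ≤ Real.cos (ss r s / δ) := by
    have a1 : |ss r s / δ| ≤ 1 := by rw [abs_div, abs_of_pos δ0, div_le_one δ0]; exact hs
    have a2 := Real.one_sub_sq_div_two_le_cos (x := ss r s / δ)
    have := sq_abs (ss r s / δ)
    nlinarith [abs_nonneg (ss r s / δ)]
  calc (1 : ℝ) ≤ 1 / 2 * (2 * 3 * 1 * (1 / 2)) := by norm_num
    _ ≤ _ := by gcongr

lemma conv1 {u D1 D2 x C m : ℝ} (u0 : 0 ≤ u) (u1 : u ≤ 1) (h1 : -C ≤ D1) (h2 : C + 1 ≤ x * D2)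
    (h3 : m ≤ 1) (h4 : m ≤ D2) : m ≤ (1 - u * 1) * D1 + ((1 - u) * x + u * 1) * D2 := by
  nlinarith

lemma conv2 {u k D1 D2 x m : ℝ} (u0 : 0 ≤ u) (u1 : u ≤ 1) (k0 : 0 ≤ k) (k1 : k ≤ 1) (x0 : 0 ≤ x)
    (m0 : 0 ≤ m) (h3 : m ≤ D1) (h4 : m ≤ D2) :
    m ≤ (1 - u * k) * D1 + ((1 - u) * x + u * k) * D2 := by
  have a1 : 0 ≤ u * k := mul_nonneg u0 k0
  have a2 : u * k ≤ 1 := mul_le_one₀ u1 k0 k1
  have a3 : 0 ≤ (1 - u) * x * D2 := mul_nonneg (mul_nonneg (by linarith) x0) (by linarith)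
  nlinarith

lemma abs_mul_le {a x b : ℝ} (a0 : 0 ≤ a) (a1 : a ≤ 1) (hx : |x| ≤ b) : |a * x| ≤ b := by
  rw [abs_mul, abs_of_nonneg a0]; nlinarith [abs_nonneg x]

lemma notch_der {lam : Q → ℝ} (hl : ContDiff ℝ ∞ lam) (r : ℕ) (A : ℝ) {δ : ℝ} (hδ : 0 < δ) (q v : Q) :
    fderiv ℝ (fun q : Q => A * δ * (lam q * Real.sin (ss r q.1 / δ))) q v =
      A * δ * (fderiv ℝ lam q v * Real.sin (ss r q.1 / δ)) +
        A * lam q * Real.cos (ss r q.1 / δ) * (2 * Real.pi * r * cc r q.1) * v.1 := by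
  have h1 : HasFDerivAt (fun q : Q => ss r q.1 / δ)
      ((2 * Real.pi * r * cc r q.1 / δ) • ContinuousLinearMap.fst ℝ ℝ ℝ) q := by
    have : HasDerivAt (fun s => ss r s / δ) (2 * Real.pi * r * cc r q.1 / δ) q.1 := by
      refine (((hasDerivAt_id q.1).const_mul (2 * Real.pi * r)).sin.div_const δ).congr_deriv ?_
      simp only [cc, id]; ring
    exact this.comp_hasFDerivAt q hasFDerivAt_fst
  have h2 := (((hl.differentiable (by simp) q).hasFDerivAt.mul h1.sin).const_mul (A * δ)).fderiv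
  rw [show (fun q : Q => A * δ * (lam q * Real.sin (ss r q.1 / δ))) =
    fun y => A * δ * (lam * fun q : Q => Real.sin (ss r q.1 / δ)) y from rfl, h2]
  simp
  field_simp
  ring

theorem graph (hL : LTStmt) {c : Ctx} {X : Rel} {f : Q → G} (hf : R.Emb c X f) {ζ : Q → G}
    (sζ : ContDiff ℝ ∞ ζ) (pζ : Per ζ) (hI : ∀ q, Ind3 (dd c f q).1 (ζ q) (dd c f q).2)
    {k lam : Q → ℝ} (ck : Continuous k) (pk : Per k) (k01 : ∀ q, 0 ≤ k q ∧ k q ≤ 1)
    (sl : ContDiff ℝ ∞ lam) (pl : Per lam) (l01 : ∀ q, 0 ≤ lam q ∧ lam q ≤ 1)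
    (hK : ∀ q, q ∉ X.K → lam q = 0) {S S₁ : Set Q} (cS : IsClosed S) (pS : PerSet S)
    (cS₁ : IsClosed S₁) (pS₁ : PerSet S₁) (h2 : ∀ q ∈ S, 0 < dl (ζ q, (dd c f q).2))
    (h1 : ∀ q ∈ S₁, 0 < dl (dd c f q)) (hc : ∀ q ∈ S, (k q = 1 ∧ lam q = 1) ∨ q ∈ S₁)
    {r : ℕ} (hr : 1 ≤ r) {ε : ℝ} (hε : 0 < ε) :
    ∃ (δ : ℝ) (F : Q → G) (J : R.IsoR c X f F ε), 0 < δ ∧
      (∀ q, Away lam q → dd c F q = dd c f q) ∧
      (∀ l q, SegInj (dd c (J.H l) q) ((dd c f q).1 + k q • (ζ q - (dd c f q).1), (dd c f q).2)) ∧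
      ∀ q ∈ S, |ss r q.1| ≤ δ → 0 < cc r q.1 → ∀ u : ℝ, 0 ≤ u → u ≤ 1 → 0 < dl (dd c F q +
        u • (((dd c f q).1 + k q • (ζ q - (dd c f q).1), (dd c f q).2) - dd c F q)) := by
  have cd := hf.dd_smooth.continuous
  have pd := hf.dd_per
  have cζ := sζ.continuous
  obtain ⟨m₂, hm₂, H₂⟩ := per_pos0 cS pS (g := fun q => dl (ζ q, (dd c f q).2))
    (continuous_dl.comp (cζ.prodMk cd.snd)) (fun q m => by simp only [pζ q m, pd q m]) h2
  obtain ⟨m₁, hm₁, H₁⟩ := per_pos0 cS₁ pS₁ (g := fun q => dl (dd c f q))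
    (continuous_dl.comp cd) (pd.comp dl) h1
  obtain ⟨C₁, hC₁, HC₁⟩ := per_bound0 (continuous_dl.comp cd) (pd.comp dl)
  obtain ⟨Cζ, hCζ, HCζ⟩ := per_bound0 cζ pζ
  obtain ⟨L, hL0, HL, -⟩ := per_lip sl pl
  set A : ℝ := (C₁ + 1) / m₂ with hA
  have A0 : 0 < A := by positivity
  have r1 : (1 : ℝ) ≤ r := by exact_mod_cast hr
  have hpi := Real.pi_gt_three
  set Cb : ℝ := A * L + A * (2 * Real.pi * r) with hCb
  have Cb0 : 0 < Cb := by positivity
  set K : Set (ℝ × ℝ × ℝ) := Icc 0 1 ×ˢ Icc (-Cb) Cb ×ˢ Icc (-Cb) Cb with hKd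
  have cK : IsCompact K := isCompact_Icc.prod (isCompact_Icc.prod isCompact_Icc)
  set P : Q × ℝ × ℝ × ℝ → G × G := fun z =>
    pt (dd c f z.1).1 (ζ z.1) (dd c f z.1).2 (k z.1) z.2 with hP
  have cP : Continuous P := by
    have h1 : Continuous fun q => (dd c f q).1 := cd.fst
    have h2 : Continuous fun q => (dd c f q).2 := cd.snd
    exact pt_cont (h1.comp continuous_fst) (cζ.comp continuous_fst) (h2.comp continuous_fst)
      (ck.comp continuous_fst) continuous_snd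
  have pP : ∀ y, Per fun q => P (q, y) := fun y q m => by simp only [hP, pd q m, pζ q m, pk q m]
  obtain ⟨κ₁, hκ₁, Hκ₁⟩ := inj_margin cK cP pP fun q y hy =>
    pt_inj (hI q) (k01 q).2 hy.1.1 hy.1.2
  obtain ⟨B, hB, HB⟩ := per_bound cK cP pP
  set m : ℝ := min (min m₁ m₂) 1 with hm
  have m0 : 0 < m := by positivity
  set η : ℝ := min 1 (m / (2 * (2 * B + 1))) with hη
  have η0 : 0 < η := by positivity
  obtain ⟨ρ, hρ, Hρ⟩ := hL c f hf.toIsEmb ζ sζ pζ hI Cb (min (min κ₁ ε) (η / 2)) (by positivity)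
  set δ : ℝ := min (min (1 / 2) (ρ / A)) (η / 2 / (A * L * Cζ)) with hδ
  have δ0 : 0 < δ := by positivity
  have δ1 : δ ≤ 1 / 2 := (min_le_left _ _).trans (min_le_left _ _)
  have δ2 : A * δ ≤ ρ := by
    have : δ ≤ ρ / A := (min_le_left _ _).trans (min_le_right _ _)
    rwa [le_div_iff₀' A0] at this
  have δ3 : A * L * Cζ * δ ≤ η / 2 := by
    have : δ ≤ η / 2 / (A * L * Cζ) := min_le_right _ _
    rwa [le_div_iff₀' (by positivity)] at this
  set h : Q → ℝ := fun q => A * δ * (lam q * Real.sin (ss r q.1 / δ)) with hh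
  have slow : ∀ q (v : Q), ‖v‖ ≤ 1 →
      |A * δ * (fderiv ℝ lam q v * Real.sin (ss r q.1 / δ))| ≤ A * δ * L := fun q v hv => by
    rw [abs_mul, abs_of_pos (by positivity), abs_mul]
    have a1 : |fderiv ℝ lam q v| ≤ L :=
      ((fderiv ℝ lam q).le_of_opNorm_le (HL q) v).trans (mul_le_of_le_one_right hL0.le hv)
    exact mul_le_mul_of_nonneg_left ((mul_le_of_le_one_right (abs_nonneg _)
      (Real.abs_sin_le_one _)).trans a1) (by positivity)
  have fast : ∀ q : Q, |A * lam q * Real.cos (ss r q.1 / δ) * (2 * Real.pi * r * cc r q.1)| ≤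
      A * (2 * Real.pi * r) := fun q => by
    rw [abs_mul, abs_mul, abs_mul, abs_mul _ (cc r q.1), abs_of_pos A0, abs_of_nonneg (l01 q).1,
      abs_of_pos (by positivity : 0 < 2 * Real.pi * r)]
    have a1 := Real.abs_cos_le_one (ss r q.1 / δ)
    have a2 : |cc r q.1| ≤ 1 := Real.abs_cos_le_one _
    have a3 := (l01 q).2
    have a4 := (l01 q).1
    calc _ ≤ A * 1 * 1 * (2 * Real.pi * r * 1) := by gcongr
      _ = _ := by ring
  have AL : A * δ * L ≤ A * L :=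
    mul_le_mul_of_nonneg_right (mul_le_of_le_one_right A0.le (by linarith)) hL0.le
  have d1 : ∀ q, |fderiv ℝ h q (1, 0)| ≤ Cb ∧ |fderiv ℝ h q (0, 1)| ≤ Cb := fun q => by
    rw [hh, notch_der sl r A δ0, notch_der sl r A δ0]
    simp only [mul_one, mul_zero, add_zero]
    exact ⟨(abs_add_le _ _).trans (by linarith [slow q (1, 0) (by simp), fast q]),
      by linarith [slow q (0, 1) (by simp), mul_pos A0 (by positivity : 0 < 2 * Real.pi * r)]⟩
  obtain ⟨F, J, J0, Jn, J1⟩ := Hρ h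
    (contDiff_const.mul (sl.mul (((ss_smooth r).comp contDiff_fst).div_const δ).sin))
    (fun q m => by simp only [hh, pl q m, ss_per r q m]) (fun q => by
      rw [hh, abs_mul, abs_of_pos (by positivity), abs_mul, abs_of_nonneg (l01 q).1]
      have : lam q * |Real.sin (ss r q.1 / δ)| ≤ 1 :=
        mul_le_one₀ (l01 q).2 (abs_nonneg _) (Real.abs_sin_le_one _)
      exact (mul_le_of_le_one_right (mul_pos A0 δ0).le this).trans δ2) d1
  have hz : ∀ l q, lam q = 0 → J.H l q = f q := fun l q hq => J0 l q (by simp [hh, hq])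
  have est : ∀ (A' : G × G) q (u x y e : ℝ), 0 ≤ u → u ≤ 1 →
      ‖A' - ((dd c f q).1 + x • ζ q, (dd c f q).2 + y • ζ q)‖ ≤ e →
      ‖A' + u • (((dd c f q).1 + k q • (ζ q - (dd c f q).1), (dd c f q).2) - A') -
        P (q, u, x, y)‖ ≤ e := fun A' q u x y e u0 u1 he => by
    rw [hP, pt_sub, norm_smul, Real.norm_of_nonneg (by linarith)]
    exact (mul_le_of_le_one_left (norm_nonneg _) (by linarith)).trans he
  refine ⟨δ, F, ⟨J, fun l q hq => hz l q (hK q hq), fun l q =>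
    (Jn l q).trans ((min_le_left _ _).trans (min_le_right _ _))⟩, δ0,
    fun q hq => by rw [← J.h1]; exact hq.dd c (hz 1), fun l q u u0 u1 => ?_,
    fun q hq hs hc' u u0 u1 => ?_⟩
  · obtain ⟨a, a0, a1, -, ha⟩ := J1 l q
    have b : ∀ x : ℝ, |x| ≤ Cb → a * x ∈ Icc (-Cb) Cb := fun x hx => abs_le.1 (abs_mul_le a0 a1 hx)
    exact Hκ₁ q (u, _, _) ⟨⟨u0, u1⟩, b _ (d1 q).1, b _ (d1 q).2⟩ _
      (est _ q u _ _ _ u0 u1 (ha.trans ((min_le_left _ _).trans (min_le_left _ _))))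
  · obtain ⟨a, -, -, a1, ha⟩ := J1 1 q
    rw [a1 rfl, J.h1, one_mul, one_mul, hh, notch_der sl r A δ0, notch_der sl r A δ0] at ha
    simp only [mul_one, mul_zero, add_zero] at ha
    set x₀ := A * lam q * Real.cos (ss r q.1 / δ) * (2 * Real.pi * r * cc r q.1) with hx₀
    have c3 : A * lam q ≤ x₀ := by
      rw [hx₀, mul_assoc]
      exact le_mul_of_one_le_right (mul_nonneg A0.le (l01 q).1) (fast_lower hr δ0 δ1 hs hc')
    have x0 : 0 ≤ x₀ := (mul_nonneg A0.le (l01 q).1).trans c3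
    have n1 : ‖dd c F q - ((dd c f q).1 + x₀ • ζ q, (dd c f q).2 + (0 : ℝ) • ζ q)‖ ≤ η := by
      refine (norm_sub_le_norm_sub_add_norm_sub _ _ _).trans
        ((add_le_add (ha.trans (min_le_right _ _)) ?_).trans_eq (add_halves η))
      have b : ∀ x : ℝ, |x| ≤ A * δ * L → ‖x • ζ q‖ ≤ η / 2 := fun x hx => by
        rw [norm_smul, Real.norm_eq_abs]
        exact (mul_le_mul hx (HCζ q) (norm_nonneg _) (by positivity)).trans (by linarith)
      rw [Prod.mk_sub_mk, Prod.norm_def, max_le_iff, add_sub_add_left_eq_sub,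
        add_sub_add_left_eq_sub, ← sub_smul, ← sub_smul, add_sub_cancel_right, sub_zero]
      exact ⟨b _ (slow q _ (by simp)), b _ (slow q _ (by simp))⟩
    have n2 := dl_near (HB q (u, x₀, 0) ⟨⟨u0, u1⟩, ⟨by linarith, by
      linarith [(abs_le.1 (fast q)).2, mul_pos A0 hL0]⟩, ⟨by linarith, Cb0.le⟩⟩)
      (est _ q u _ _ _ u0 u1 n1) (min_le_left _ _)
    have n3 : η * (2 * B + 1) ≤ m / 2 := by
      calc _ ≤ m / (2 * (2 * B + 1)) * (2 * B + 1) := by gcongr; exact min_le_right _ _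
        _ = m / 2 := by field_simp
    have n4 : dl (P (q, u, x₀, 0)) = (1 - u * k q) * dl (dd c f q) +
        ((1 - u) * x₀ + u * k q) * dl (ζ q, (dd c f q).2) := by
      simp [hP, pt, dl]; ring
    have D2 := H₂ q hq
    have mm₁ : m ≤ m₁ := (min_le_left _ _).trans (min_le_left _ _)
    have mm₂ : m ≤ m₂ := (min_le_left _ _).trans (min_le_right _ _)
    have mm₃ : m ≤ 1 := min_le_right _ _
    have n5 : m ≤ dl (P (q, u, x₀, 0)) := by
      rw [n4]
      rcases hc q hq with ⟨e1, e2⟩ | h'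
      · rw [e2, mul_one] at c3
        have a1 : C₁ + 1 ≤ x₀ * dl (ζ q, (dd c f q).2) := by
          calc C₁ + 1 = A * m₂ := by rw [hA]; field_simp
            _ ≤ _ := by gcongr
        rw [e1]
        exact conv1 u0 u1 (abs_le.1 (HC₁ q)).1 a1 mm₃ (mm₂.trans D2)
      · exact conv2 u0 u1 (k01 q).1 (k01 q).2 x0 m0.le (mm₁.trans (H₁ q h')) (mm₂.trans D2)
    linarith

end OS

open OS Path.Homotopic.Quotient in
theorem o_of (hT : TauMoveStmt) (hM : Move2Stmt) (hL : LTStmt) : OStmt := by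
  intro c X f hf E γ r d w hr sd pd sw pw hK hγ hN hE ε hε
  have cd := sd.continuous
  have cw := sw.continuous
  have cl2 : ∀ a b : ℝ, IsClosed {q | a ≤ d q ∧ b ≤ w q} := fun a b =>
    (isClosed_le continuous_const cd).inter (isClosed_le continuous_const cw)
  have pe2 : ∀ a b : ℝ, PerSet {q | a ≤ d q ∧ b ≤ w q} := fun a b q m h => by
    simpa only [mem_ofPred_eq, pd q m, pw q m] using h
  have out : ∀ {a b : ℝ} q, 0 ≤ a → -1 ≤ b → q ∉ X.K → s2 d w a b q = 0 := fun q h1 h2 hq =>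
    s2_zero ((hK q hq).imp (fun h => h.trans h1) fun h => h.trans h2)
  obtain ⟨F₁, hF₁, J₁, γ₁, e₁, p₁⟩ := hT c X f hf E γ _ (s2 d w 8 (-1)) (s2_smooth sd sw _ _)
    (s2_per pd pw _ _) (s2_mem _ _) (fun q => out q (by norm_num) le_rfl) (fun q => by
      by_cases h : d q ≤ 9 ∨ w q ≤ 0
      · exact Or.inr (hγ q h)
      · push Not at h
        exact Or.inl (s2_one (by linarith [h.1]) (by linarith [h.2]))) hN (ε / 3) (by positivity)
  have c₁ : ∀ q, d q < 8 → ∀ t, γ₁ t q = E q := fun q hq t =>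
    (p₁ t q).2 (s2_away cd cw (Or.inl hq))
  obtain ⟨F₂, hF₂, J₂, ζ, E', hs, Λ, sζ, pζ, hE', hI, hζ, e₂, pΛ, -, un⟩ := hM c X F₁ hF₁ E γ₁
    (s2 d w 5 1) (s2 d w 6 2) (fun q => 1 - s2 d w 0 3 q) (s2 d w 2 0) _ {q | 0 ≤ d q ∧ 3 ≤ w q} _
    (s2_smooth sd sw _ _) (s2_per pd pw _ _) (s2_mem _ _) (s2_smooth sd sw _ _).continuous
    (s2_per pd pw _ _) (s2_mem _ _) (continuous_const.sub (s2_smooth sd sw _ _).continuous)
    ((s2_per pd pw _ _).comp fun y => 1 - y)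
    (fun q => ⟨by linarith [(s2_mem (d := d) (w := w) 0 3 q).2],
      by linarith [(s2_mem (d := d) (w := w) 0 3 q).1]⟩)
    (s2_smooth sd sw _ _).continuous (s2_per pd pw _ _) (s2_mem _ _) (cl2 6 2)
    (fun q hq => s2_zero ((not_and_or.1 hq).imp (fun h => (not_le.1 h).le) fun h => (not_le.1 h).le))
    (fun t q hq => (p₁ t q).1 ⟨by linarith [hq.1], by linarith [hq.2]⟩)
    (fun q => by
      by_cases h : d q ≤ 6 ∨ w q ≤ 2
      · exact Or.inr (s2_zero h)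
      · push Not at h
        exact Or.inl (s2_one (by linarith [h.1]) (by linarith [h.2])))
    (fun q hq => ⟨out q (by norm_num) (by norm_num) hq, out q (by norm_num) (by norm_num) hq⟩)
    (fun q => by
      by_cases h : d q < 5 ∨ w q < 1
      · exact Or.inr (s2_away cd cw h)
      · push Not at h
        exact Or.inl (s2_one (by linarith [h.1]) (by linarith [h.2])))
    (hN.mono fun q hq => ⟨hq.1, by linarith [hq.2]⟩)
    (fun q hq => ⟨hE q hq.1 (by linarith [hq.2]), by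
      rcases le_or_gt 7 (d q) with h | h
      · exact Or.inl (s2_one (by linarith) (by linarith [hq.2]))
      · refine Or.inr fun t => ?_
        rw [c₁ q (by linarith)]
        exact hE q hq.1 (by linarith [hq.2])⟩)
    (cl2 1 4) (pe2 1 4) (fun q hq => ⟨by linarith [hq.1], by linarith [hq.2]⟩)
    (fun q hq => by rw [s2_one (by linarith [hq.1]) (by linarith [hq.2]), sub_self])
    (fun q hq => by
      rw [s2_zero ((not_and_or.1 hq).imp (fun h => (not_le.1 h).le) fun h => (not_le.1 h).le),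
        sub_zero]) (ε / 3) (by positivity)
  have low : ∀ q, d q < 5 → dd c F₂ q = E q := fun q hq => by
    rw [un q (s2_away cd cw (Or.inl hq))]
    simpa using c₁ q (by linarith) 0
  obtain ⟨δ, F₃, J₃, δ0, un₃, s₃, t₃⟩ := graph hL hF₂ sζ pζ hI (k := s2 d w 2 0) (lam := s2 d w 3 4)
    (s2_smooth sd sw _ _).continuous (s2_per pd pw _ _) (s2_mem _ _) (s2_smooth sd sw _ _)
    (s2_per pd pw _ _) (s2_mem _ _) (fun q => out q (by norm_num) (by norm_num)) (cl2 1 5) (pe2 1 5)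
    (S₁ := {q | 0 ≤ d q ∧ 1 ≤ w q} ∩ {q | d q ≤ 4}) ((cl2 0 1).inter (isClosed_le cd continuous_const))
    ((pe2 0 1).inter (pd.perSet fun y => y ≤ 4)) (fun q hq => hζ q ⟨hq.1, by linarith [hq.2]⟩)
    (fun q hq => by
      rw [low q (lt_of_le_of_lt hq.2 (by norm_num))]
      exact hE q hq.1.1 hq.1.2)
    (fun q hq => by
      rcases le_total 4 (d q) with h | h
      · exact Or.inl ⟨s2_one (by linarith) (by linarith [hq.2]), s2_one (by linarith)
          (by linarith [hq.2])⟩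
      · exact Or.inr ⟨⟨by linarith [hq.1], by linarith [hq.2]⟩, h⟩) hr (ε := ε / 3) (by positivity)
  have hF₃ := J₃.emb1R hF₂
  have s₃' : ∀ q, SegInj (hF₃.d q) (E' q) := fun q => by
    have := s₃ 1 q
    rwa [J₃.h1, ← hE'] at this
  have q3 := R.seg_square (J₃.path hF₂ hF₃) (Path.refl E') (fun t q => by
    have := s₃ t q
    rwa [← hE'] at this) hs s₃'
  rw [R.hc_refl, trans_refl] at q3
  have flat : R.PW ((R.seg hF₃.d E' s₃').trans Λ) fun q x => d q ≤ 2 → x = E q := by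
    refine R.PW.trans (R.pw_seg fun q u _ _ hq => ?_) fun t q hq => ?_
    · rw [hE', s2_zero (Or.inl hq), R.Emb.d_apply, un₃ q (s2_away cd cw (Or.inl (by linarith))),
        low q (by linarith)]
      simp
    · obtain ⟨t', ht'⟩ := (pΛ t q).2 (s2_zero (Or.inl hq))
      rw [ht', c₁ q (by linarith)]
  refine ⟨δ, δ0, R.Loc.mono (ε := ε / 3 + ε / 3 + ε / 3) ⟨F₃, hF₃, (J₁.trans J₂).trans J₃,
    (R.seg hF₃.d E' s₃').trans Λ, ?_, fun t q => ⟨fun a b e g => ?_, flat t q⟩⟩ (fun _ _ h => h)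
    (by linarith)⟩
  · rw [R.IsoR.path_trans _ _ hf hF₂ hF₃, R.IsoR.path_trans _ _ hf hF₁ hF₂, R.hc_trans,
      trans_assoc, trans_assoc, ← trans_assoc (R.hc (J₃.path hF₂ hF₃)), q3, e₂, e₁]
  · rcases le_total (d q) 2 with h | h
    · rw [flat t q h]
      exact hE q e (by linarith)
    · refine R.PW.trans (P := fun q' x => q' = q → 0 < dl x) (R.pw_seg ?_) ?_ t q rfl
      · rintro _ u u0 u1 rfl
        rw [hE']
        exact t₃ _ ⟨by linarith, g⟩ a b u u0 u1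
      · rintro t _ rfl
        exact (pΛ t _).1 ⟨by linarith, by linarith⟩

end Pool.Agent.Lib.MP_72f1d0_gt
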