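import Mathlib
import Pool.Agent.Lib.MP_72f1d0_gt.PassR

/-! The relative pass making `α (τ)` positive. -/

open scoped ContDiff Topology
open Set Filter

namespace Pool.Agent.Lib.MP_72f1d0_gt

open Pass Path.Homotopic.Quotient in
theorem pass2 (hC : Corr2Stmt) (hF : FramesStmt) (hS : Snake2Stmt) : Pass2Stmt := by
  intro c hn X f hf E γ d hd pd hK ⟨x₀, x, cx₀, cx, px₀, px, hN, hZ⟩ hα hconst ε hε
  have cd := hd.continuous
  obtain ⟨m, hm, Hm⟩ := per_pos0 (S := {q | 0 ≤ d q}) (isClosed_le continuous_const cd)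
    (pd.perSet fun y => 0 ≤ y) (g := fun q => al (E q).2) (continuous_al.comp E.cont.snd)
    (E.per.comp fun y => al y.2) hα
  obtain ⟨F₁, hF₁, J₁, jh, M₁, cjh, pjh, hh, cone, ind, njh, hlow⟩ :=
    first2 hC hF hf γ hd pd hK cx₀ cx px₀ px hN hconst (m := m / 4) (ε := ε / 3) (by positivity)
      (by positivity)
  have hpos : ∀ q, 0 ≤ d q → x q = vW := fun q hq => (hZ q hq).2
  have c1 := hF₁.dd_smooth.continuous
  have p1 := hF₁.dd_per
  have cE := E.cont
  have pE : Per fun q => (E q).2 := E.per.comp Prod.snd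
  obtain ⟨ε₅, h5, H5⟩ := cone50 isClosed_S5 cone_S5 c1.fst c1.snd cjh cx cE.snd
    (p1.comp Prod.fst) (p1.comp Prod.snd) pjh px pE cone
  obtain ⟨ε₄, h4, H4⟩ := ind4_margin c1.fst cjh cx cE.snd (p1.comp Prod.fst) pjh px pE ind
  set e := min (min ε₅ ε₄) (min (m / 4) ε) / 3 with he
  have e0 : 0 < e := by positivity
  have e5 : 2 * e ≤ ε₅ := by
    have := (min_le_left (min ε₅ ε₄) (min (m / 4) ε)).trans (min_le_left _ _); linarith
  have e4 : 2 * e ≤ ε₄ := by
    have := (min_le_left (min ε₅ ε₄) (min (m / 4) ε)).trans (min_le_right _ _); linarith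
  have em : 2 * e ≤ m / 4 := by
    have := (min_le_right (min ε₅ ε₄) (min (m / 4) ε)).trans (min_le_left _ _); linarith
  have eε : e ≤ ε / 3 := by
    have := (min_le_right (min ε₅ ε₄) (min (m / 4) ε)).trans (min_le_right _ _); linarith
  obtain ⟨j, sj, pj, hj⟩ := smooth_approx cjh pjh e0
  obtain ⟨n, sn, pn, hn'⟩ := smooth_approx (g := fun q => jh q + (E q).2) (cjh.add cE.snd)
    (pjh.comp₂ pE fun a b => a + b) e0
  have cj := sj.continuous
  have cn := sn.continuous
  have near : ∀ q (p : G), ‖p - (jh q + (E q).2)‖ ≤ 2 * e → ‖p - (E q).2 - jh q‖ ≤ 2 * e :=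
    fun q p h => by rwa [sub_sub, add_comm]
  have i4 : ∀ q (μ p : G), ‖μ - (dd c F₁ q).1‖ ≤ 2 * e → ‖p - (jh q + (E q).2)‖ ≤ 2 * e →
      Ind4 μ p (x q) (E q).2 := fun q μ p a b =>
    ind4_pole (H4 q _ _ _ _ (a.trans e4) ((near q p b).trans e4) (by simp [h4.le]) (by simp [h4.le]))
  have nj : ∀ q, ‖n q - j q - (E q).2‖ ≤ 2 * e := fun q => by
    rw [show n q - j q - (E q).2 = (n q - (jh q + (E q).2)) - (j q - jh q) by abel]
    exact (norm_sub_le _ _).trans (by linarith [hn' q, hj q])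
  have i5 : ∀ q (μ : G), ‖μ - (dd c F₁ q).1‖ ≤ 2 * e → Ind4 μ (j q) (n q) (x q) :=
    fun q μ a s t u w h0 => by
      obtain ⟨h1, h2, h3, h4⟩ := H4 q μ (j q) (x q) (n q - j q) (a.trans e4)
        ((hj q).trans (by linarith)) (by simp [h4.le]) ((nj q).trans e4) s (t + u) w u
        (by rw [← h0]; module)
      exact ⟨h1, by linarith, h4, h3⟩
  have alp : ∀ q (p : G), 0 ≤ d q → ‖p - (jh q + (E q).2)‖ ≤ 2 * e → m / 2 ≤ al p := fun q p a b => by
    have h1 := abs_le.1 ((abs_al_le _).trans b)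
    have h2 := abs_le.1 ((abs_al_le _).trans (njh q))
    have h3 := Hm q a
    rw [al_sub, al_add] at h1
    linarith [h1.1, h2.1]
  have v3 : ∀ q, SegInj (x q, (E q).2) (E q) := fun q => (M₁.ok q).2.2.2
  have hs := Real.smoothTransition.continuous
  have ck : Continuous fun y : ℝ × Q => Real.smoothTransition (2 * d y.2) := by fun_prop
  have pk : ∀ _ : ℝ, Per fun q => Real.smoothTransition (2 * d q) := fun _ => M₁.pk
  have cxx : Continuous fun y : ℝ × Q => x y.2 := by fun_prop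
  have cut : ∀ q (A : G × G), (d q < 1 → A = E q) →
      Real.smoothTransition (2 * d q) = 1 ∨ A = E q := fun q A h => by
    rcases le_or_gt 1 (2 * d q) with h' | h'
    · exact Or.inl (Real.smoothTransition.one_of_one_le h')
    · exact Or.inr (h (by linarith))
  -- smoothing the pole
  obtain ⟨M₁', M₂, a3⟩ := cv_square (Path.refl hF₁.d) (Path.refl E)
    (k := fun y => Real.smoothTransition (2 * d y.2))
    (p := fun y => jh y.2 + (E y.2).2 + y.1 • (n y.2 - (jh y.2 + (E y.2).2)))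
    (x := fun y => x y.2) ck (by fun_prop) cxx pk
    (fun l q m => by simp only [pjh q m, E.per q m, pn q m]) (fun _ => px) (fun _ => M₁.out)
    fun t q => by
      have : ‖jh q + (E q).2 + (t : ℝ) • (n q - (jh q + (E q).2)) - (jh q + (E q).2)‖ ≤ 2 * e := by
        rw [add_sub_cancel_left, norm_smul, Real.norm_eq_abs, abs_of_nonneg t.2.1]
        nlinarith [t.2.1, t.2.2, hn' q, norm_nonneg (n q - (jh q + (E q).2))]
      exact ⟨(M₁.ok q).1, seg_of_cone (μ := (dd c F₁ q).1) (τ := (dd c F₁ q).2) (x := x q)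
        (r := (E q).2) (H5 q _ _ _ _ _ (by simp [h5.le]) (by simp [h5.le])
          ((near q _ this).trans e5) (by simp [h5.le]) (by simp [h5.le])),
        i4 q _ _ (by simp [e0.le]) this, v3 q⟩
  rw [R.hc_refl, R.hc_refl, refl_trans, trans_refl,
    M₁'.path_congr M₁ (fun q => rfl) (fun q => by simp) (fun q => rfl)] at a3
  have base : ∀ q, 0 ≤ d q → d q < 5 → 0 < al (dd c F₁ q).2 := fun q a b => by
    rw [hlow q b]
    exact hα q a
  -- the notch
  obtain ⟨F₂, I₂, u2, n2, w2, z2⟩ := notch2 hC hF₁.toIsEmb cj cn cx pj pn px hd pd (m := m / 2)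
    (by positivity) (fun q => i5 q _ (by simp [e0.le]))
    (fun q a b k w ρ hk h0 => by
      have := H5 q _ _ (j q) _ (n q - j q) (by simp [h5.le]) (by simp [h5.le])
        ((hj q).trans (by linarith)) (by simp [h5.le]) ((nj q).trans e5) (a, b, k, w, ρ) hk h0
      exact congrArg (fun v : R5 => v.2.1) this)
    (fun q a => ⟨by rw [hpos q a]; simp [al, vW], alp q _ a ((hn' q).trans (by linarith))⟩)
    (fun q a b => base q a (by linarith)) e0
  let J₂ : R.IsoR c X F₁ F₂ e := ⟨I₂, fun l q hq => u2 l q (by linarith [hK q hq]), n2⟩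
  have hF₂ := J₂.emb1R hF₁
  have un2 : ∀ l q, d q < 3 → dd c (I₂.H l) q = dd c F₁ q := fun l q hq =>
    dd_congr_open c (isOpen_lt cd continuous_const) (fun q hq => u2 l q (le_of_lt hq)) hq
  obtain ⟨M₂', M₃, b3⟩ := cv_square (J₂.path hF₁ hF₂) (Path.refl E)
    (k := fun y => Real.smoothTransition (2 * d y.2)) (p := fun y => n y.2) (x := fun y => x y.2)
    ck (by fun_prop) cxx pk (fun _ => pn) (fun _ => px) (fun _ => M₁.out) fun t q =>
      ⟨cut q _ fun h => (un2 t q (by linarith)).trans (hlow q (by linarith)),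
        segInj_snd fun a b₁ b₂ _ h0 => (w2 t q).2 a b₁ b₂ h0,
        i4 q _ _ ((w2 t q).1.trans (by linarith)) ((hn' q).trans (by linarith)), v3 q⟩
  rw [R.hc_refl, trans_refl,
    M₂'.path_congr M₂ (fun q => rfl) (fun q => by simp) (fun q => rfl)] at b3
  have c2 := hF₂.dd_smooth.continuous
  have p2 := hF₂.dd_per
  have un2' : ∀ q, d q < 3 → dd c F₂ q = dd c F₁ q := fun q hq => by
    rw [← un2 1 q hq, I₂.h1]
  have μ2 : ∀ q, ‖(dd c F₂ q).1 - (dd c F₁ q).1‖ ≤ e := fun q => by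
    have := (w2 1 q).1
    rwa [I₂.h1] at this
  -- the snake
  obtain ⟨F₃, I₃, p, cp, pp, p0, u3, n3, w3, z3⟩ := hS c hn F₂ hF₂.toIsEmb j n sj sn pj pn
    ({q | 1 < d q} ∩ ({q | Ind4 (dd c F₂ q).1 (dd c F₂ q).2 (j q) (n q)} ∩
      ({q | Ind4 (dd c F₂ q).1 (j q) (n q) vW} ∩ {q | 0 < al (n q)})))
    ({q | 2 ≤ d q} ∩ {q | al (dd c F₂ q).2 ≤ 0}) {q | 0 ≤ d q}
    ((isOpen_lt continuous_const cd).inter ((isOpen_ind4 c2.fst c2.snd cj cn).inter
      ((isOpen_ind4 c2.fst cj cn continuous_const).inter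
        (isOpen_lt continuous_const (continuous_al.comp cn)))))
    (fun q m h => by simpa only [mem_inter_iff, mem_ofPred_eq, pd q m, p2 q m, pj q m, pn q m] using h)
    ((isClosed_le continuous_const cd).inter (isClosed_le (continuous_al.comp c2.snd) continuous_const))
    (fun q m h => by simpa only [mem_inter_iff, mem_ofPred_eq, pd q m, p2 q m] using h)
    (fun q hq => by
      have d2 : 2 ≤ d q := hq.1
      refine ⟨show 1 < d q by linarith, (z2 q d2).resolve_left (not_lt.2 hq.2), ?_, ?_⟩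
      · show Ind4 _ _ _ _
        rw [← hpos q (by linarith)]
        exact i5 q _ ((μ2 q).trans (by linarith))
      · exact (half_pos hm).trans_le (alp q _ (by linarith) ((hn' q).trans (by linarith))))
    (isClosed_le continuous_const cd) (pd.perSet fun y => 0 ≤ y) (fun q hq => ⟨hq.2.1, hq.2.2⟩)
    (fun q hq => by
      rcases le_or_gt 2 (d q) with h | h
      · rcases le_or_gt (al (dd c F₂ q).2) 0 with h' | h'
        · exact Or.inl ⟨h, h'⟩
        · exact Or.inr h'
      · right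
        rw [un2' q (by linarith)]
        exact base q hq (by linarith))
    (fun q => (M₃.ok q).2.1) e e0
  have u3' : ∀ l q, d q ≤ 1 → I₃.H l q = F₂ q := fun l q hq =>
    (u3 l q fun h => (not_lt.2 hq) (show 1 < d q from h.1)).1
  let J₃ : R.IsoR c X F₂ F₃ e := ⟨I₃, fun l q hq => u3' l q (by linarith [hK q hq]), n3⟩
  have hF₃ := J₃.emb1R hF₂
  have μ3 : ∀ l q, ‖(dd c (I₃.H l) q).1 - (dd c F₁ q).1‖ ≤ 2 * e := fun l q =>
    (norm_sub_le_norm_sub_add_norm_sub _ (dd c F₂ q).1 _).trans (by linarith [(w3 l q).1, μ2 q])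
  have p3 : ∀ l q, ‖p (l, q) - (jh q + (E q).2)‖ ≤ 2 * e := fun l q =>
    (norm_sub_le_norm_sub_add_norm_sub _ (n q) _).trans (by linarith [(w3 l q).2.1, hn' q])
  have un3 : ∀ l q, d q < 1 → dd c (I₃.H l) q = E q := fun l q hq => by
    rw [← hlow q (by linarith), ← un2' q (by linarith)]
    exact dd_congr_open c (isOpen_lt cd continuous_const) (fun q hq => u3' l q (le_of_lt hq)) hq
  obtain ⟨M₃', M₄, d3⟩ := cv_square (J₃.path hF₂ hF₃) (Path.refl E)
    (k := fun y => Real.smoothTransition (2 * d y.2)) (p := p) (x := fun y => x y.2)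
    ck cp cxx pk pp (fun _ => px) (fun _ => M₁.out) fun t q =>
      ⟨cut q _ (un3 t q), (w3 t q).2.2, i4 q _ _ (μ3 t q) (p3 t q), v3 q⟩
  rw [R.hc_refl, trans_refl, M₃'.path_congr M₃ (fun q => rfl) p0 (fun q => rfl)] at d3
  refine R.Loc.mono (ε := ε / 3 + e + e) ⟨F₃, hF₃, (J₁.trans J₂).trans J₃, M₄.path, ?_,
    fun t q => ⟨fun hq => ?_, fun hq => ?_⟩⟩ (fun _ _ h => h) (by linarith)
  · rw [R.IsoR.path_trans _ _ hf hF₂ hF₃, R.IsoR.path_trans _ _ hf hF₁ hF₂, trans_assoc,
      trans_assoc, d3, b3, a3, hh]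
  · have k0 := Real.smoothTransition.nonneg (2 * d q)
    have k1 := Real.smoothTransition.le_one (2 * d q)
    have t0 : 0 < al (dd c F₃ q).2 := z3 q hq
    have t1 : 0 < al (E q).2 := hα q hq
    exact al_poly t0 (al_conv k0 k1 t0 ((half_pos hm).trans_le (alp q _ hq (p3 1 q))))
      (al_conv k0 k1 t0 t1) t1 _
  · have := un3 1 q (by linarith)
    rw [I₃.h1] at this
    rw [CV.path_apply, Real.smoothTransition.zero_of_nonpos (by linarith), R.Emb.d_apply, this,
      cpoly_zero]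

end Pool.Agent.Lib.MP_72f1d0_gt
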