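import Mathlib

/-!
Uniform Taylor remainders of order one, two and three in the second variable of a smooth map,
the first variable ranging over a compact set.
-/

open scoped ContDiff
open Set

namespace Pool.Agent.Lib.MP_72f1d0_gt.Psi

variable {P W Y : Type} [NormedAddCommGroup P] [NormedSpace ℝ P]
  [NormedAddCommGroup W] [NormedSpace ℝ W] [NormedAddCommGroup Y] [NormedSpace ℝ Y]

/-- Derivative in the second variable. -/
noncomputable def D2 (F : P × W → Y) (x : P × W) : W →L[ℝ] Y :=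
  fderiv ℝ (fun w => F (x.1, w)) x.2

theorem D2_smooth {F : P × W → Y} (hF : ContDiff ℝ ∞ F) : ContDiff ℝ ∞ (D2 F) := by
  have h : ContDiff ℝ ∞ (Function.uncurry fun (x : P × W) (w : W) => F (x.1, w)) :=
    hF.comp ((contDiff_fst.comp contDiff_fst).prodMk contDiff_snd)
  exact ContDiff.fderiv (m := ∞) h contDiff_snd (by exact_mod_cast le_top)

theorem D2_has {F : P × W → Y} (hF : ContDiff ℝ ∞ F) (p : P) (w : W) :
    HasFDerivAt (fun w => F (p, w)) (D2 F (p, w)) w := by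
  have h : ContDiff ℝ ∞ fun w : W => F (p, w) := hF.comp (contDiff_const.prodMk contDiff_id)
  exact (h.differentiable (by simp) w).hasFDerivAt

theorem D2_line {F : P × W → Y} (hF : ContDiff ℝ ∞ F) (p : P) (w : W) (t : ℝ) :
    HasDerivAt (fun t : ℝ => F (p, t • w)) (D2 F (p, t • w) w) t := by
  have h1 : HasDerivAt (fun t : ℝ => t • w) w t := by
    simpa using (hasDerivAt_id t).smul_const w
  exact (D2_has hF p (t • w)).comp_hasDerivAt t h1

theorem D2_per {F : P × W → Y} {a : P} (h : ∀ p w, F (p + a, w) = F (p, w)) (p : P) (w : W) :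
    D2 F (p + a, w) = D2 F (p, w) := by
  simp only [D2, h]

theorem bound0 [FiniteDimensional ℝ W] {F : P × W → Y} (hF : Continuous F) {K : Set P}
    (hK : IsCompact K) : ∃ C : ℝ, 0 ≤ C ∧ ∀ p ∈ K, ∀ w : W, ‖w‖ ≤ 1 → ‖F (p, w)‖ ≤ C := by
  haveI : ProperSpace W := FiniteDimensional.proper_real W
  obtain ⟨C, hC⟩ := (hK.prod (isCompact_closedBall (0 : W) 1)).exists_bound_of_continuousOn
    hF.continuousOn
  refine ⟨max C 0, le_max_right _ _, fun p hp w hw => ?_⟩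
  exact (hC (p, w) ⟨hp, by simpa using hw⟩).trans (le_max_left _ _)

theorem norm_smul_le_of_mem {w : W} {t : ℝ} (ht : t ∈ Ico (0 : ℝ) 1) : ‖t • w‖ ≤ ‖w‖ := by
  rw [norm_smul, Real.norm_of_nonneg ht.1]
  exact mul_le_of_le_one_left (norm_nonneg _) ht.2.le

theorem taylor1 [FiniteDimensional ℝ W] {F : P × W → Y} (hF : ContDiff ℝ ∞ F) {K : Set P}
    (hK : IsCompact K) : ∃ C : ℝ, 0 ≤ C ∧ ∀ p ∈ K, ∀ w : W, ‖w‖ ≤ 1 →
      ‖F (p, w) - F (p, 0)‖ ≤ C * ‖w‖ := by
  obtain ⟨C, hC0, hC⟩ := bound0 (D2_smooth hF).continuous hK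
  refine ⟨C, hC0, fun p hp w hw => ?_⟩
  have h := norm_image_sub_le_of_norm_deriv_le_segment_01' (f := fun t : ℝ => F (p, t • w))
    (C := C * ‖w‖) (fun t _ => (D2_line hF p w t).hasDerivWithinAt) (fun t ht => by
      refine (ContinuousLinearMap.le_opNorm _ _).trans ?_
      exact mul_le_mul_of_nonneg_right (hC p hp _ ((norm_smul_le_of_mem ht).trans hw))
        (norm_nonneg _))
  simpa using h

theorem taylor2 [FiniteDimensional ℝ W] {F : P × W → Y} (hF : ContDiff ℝ ∞ F) {K : Set P}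
    (hK : IsCompact K) : ∃ C : ℝ, 0 ≤ C ∧ ∀ p ∈ K, ∀ w : W, ‖w‖ ≤ 1 →
      ‖F (p, w) - F (p, 0) - D2 F (p, 0) w‖ ≤ C * ‖w‖ ^ 2 := by
  obtain ⟨C, hC0, hC⟩ := taylor1 (D2_smooth hF) hK
  refine ⟨C, hC0, fun p hp w hw => ?_⟩
  have hd : ∀ t : ℝ, HasDerivAt (fun t : ℝ => F (p, t • w) - t • D2 F (p, 0) w)
      ((D2 F (p, t • w) - D2 F (p, 0)) w) t := fun t => by
    have h2 : HasDerivAt (fun t : ℝ => t • D2 F (p, 0) w) (D2 F (p, 0) w) t := by
      simpa using (hasDerivAt_id t).smul_const (D2 F (p, 0) w)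
    exact (D2_line hF p w t).sub h2
  have h := norm_image_sub_le_of_norm_deriv_le_segment_01'
    (C := C * ‖w‖ ^ 2) (fun t _ => (hd t).hasDerivWithinAt) (fun t ht => by
      refine (ContinuousLinearMap.le_opNorm _ _).trans ?_
      have h1 := hC p hp _ ((norm_smul_le_of_mem ht).trans hw)
      have h2 : C * ‖t • w‖ ≤ C * ‖w‖ := mul_le_mul_of_nonneg_left (norm_smul_le_of_mem ht) hC0
      calc _ ≤ (C * ‖w‖) * ‖w‖ := mul_le_mul_of_nonneg_right (h1.trans h2) (norm_nonneg _)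
        _ = _ := by ring)
  simp only [one_smul, zero_smul, sub_zero] at h
  rwa [sub_right_comm]

theorem taylor3 [FiniteDimensional ℝ W] {F : P × W → Y} (hF : ContDiff ℝ ∞ F) {K : Set P}
    (hK : IsCompact K) : ∃ C : ℝ, 0 ≤ C ∧ ∀ p ∈ K, ∀ w : W, ‖w‖ ≤ 1 →
      ‖F (p, w) - F (p, 0) - D2 F (p, 0) w - (1 / 2 : ℝ) • D2 (D2 F) (p, 0) w w‖ ≤
        C * ‖w‖ ^ 3 := by
  obtain ⟨C, hC0, hC⟩ := taylor2 (D2_smooth hF) hK
  refine ⟨C, hC0, fun p hp w hw => ?_⟩
  have hd : ∀ t : ℝ, HasDerivAt (fun t : ℝ => F (p, t • w) - t • D2 F (p, 0) w -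
      (t ^ 2 / 2) • D2 (D2 F) (p, 0) w w)
      ((D2 F (p, t • w) - D2 F (p, 0) - D2 (D2 F) (p, 0) (t • w)) w) t := fun t => by
    have h2 : HasDerivAt (fun t : ℝ => t • D2 F (p, 0) w) (D2 F (p, 0) w) t := by
      simpa using (hasDerivAt_id t).smul_const (D2 F (p, 0) w)
    have h3 : HasDerivAt (fun t : ℝ => t ^ 2 / 2) t t := by
      simpa using (hasDerivAt_pow 2 t).div_const 2
    have h4 := h3.smul_const (D2 (D2 F) (p, 0) w w)
    have h5 := ((D2_line hF p w t).sub h2).sub h4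
    rw [map_smul]
    exact h5
  have h := norm_image_sub_le_of_norm_deriv_le_segment_01'
    (C := C * ‖w‖ ^ 3) (fun t _ => (hd t).hasDerivWithinAt) (fun t ht => by
      refine (ContinuousLinearMap.le_opNorm _ _).trans ?_
      have h1 := hC p hp _ ((norm_smul_le_of_mem ht).trans hw)
      have h2 : C * ‖t • w‖ ^ 2 ≤ C * ‖w‖ ^ 2 :=
        mul_le_mul_of_nonneg_left
          (pow_le_pow_left₀ (norm_nonneg _) (norm_smul_le_of_mem ht) 2) hC0
      calc _ ≤ (C * ‖w‖ ^ 2) * ‖w‖ := mul_le_mul_of_nonneg_right (h1.trans h2) (norm_nonneg _)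
        _ = _ := by ring)
  simp only [one_smul, zero_smul, sub_zero, one_pow, ne_eq, OfNat.ofNat_ne_zero,
    not_false_eq_true, zero_pow, zero_div] at h
  have e : F (p, w) - F (p, 0) - D2 F (p, 0) w - (1 / 2 : ℝ) • D2 (D2 F) (p, 0) w w =
      F (p, w) - D2 F (p, 0) w - (1 / 2 : ℝ) • D2 (D2 F) (p, 0) w w - F (p, 0) := by abel
  rw [e]
  exact h

end Pool.Agent.Lib.MP_72f1d0_gt.Psi
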