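import Mathlib
import Pool.Agent.Lib.MP_72f1d0_gt.Defs
import Pool.Agent.Lib.MP_72f1d0_gt.PsiTaylor

/-!
The universal displacement map and its Maurer-Cartan expansions.
-/

open scoped ContDiff
open Set

set_option maxSynthPendingDepth 3

namespace Pool.Agent.Lib.MP_72f1d0_gt

namespace Psi

/-- The derivative of the coframe in frame coordinates. -/
noncomputable def qq (c : Ctx) (p a b : G) : G := fderiv ℝ c.om p (c.e p a) (c.e p b)

/-- The displacement map. -/
noncomputable def ps (c : Ctx) (x : G × G) : G :=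
  x.1 + c.e x.1 (x.2 - (1 / 2 : ℝ) • qq c x.1 x.2 x.2)

theorem dom_smooth (c : Ctx) : ContDiff ℝ ∞ (fderiv ℝ c.om) :=
  c.om_smooth.fderiv_right (m := ∞) (by exact_mod_cast le_top)

theorem qq_smooth (c : Ctx) {X : Type} [NormedAddCommGroup X] [NormedSpace ℝ X]
    {p a b : X → G} (hp : ContDiff ℝ ∞ p) (ha : ContDiff ℝ ∞ a) (hb : ContDiff ℝ ∞ b) :
    ContDiff ℝ ∞ fun x => qq c (p x) (a x) (b x) :=
  (((dom_smooth c).comp hp).clm_apply ((c.e_smooth.comp hp).clm_apply ha)).clm_apply
    ((c.e_smooth.comp hp).clm_apply hb)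

theorem ps_smooth (c : Ctx) : ContDiff ℝ ∞ (ps c) :=
  contDiff_fst.add ((c.e_smooth.comp contDiff_fst).clm_apply
    (contDiff_snd.sub ((qq_smooth c contDiff_fst contDiff_snd contDiff_snd).const_smul _)))

theorem dom_per (c : Ctx) (p : G) (m : ℤ × ℤ) :
    fderiv ℝ c.om (p + c.i (lat m)) = fderiv ℝ c.om p := by
  rw [← fderiv_comp_add_right]
  simp only [c.om_per]

theorem qq_per (c : Ctx) (p : G) (m : ℤ × ℤ) : qq c (p + c.i (lat m)) = qq c p := by
  funext a b
  simp only [qq, dom_per, c.e_per]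

theorem br_per (c : Ctx) (p : G) (m : ℤ × ℤ) : c.br (p + c.i (lat m)) = c.br p := by
  funext a b
  simp only [Ctx.br, brk, dom_per, c.e_per]

theorem br_eq (c : Ctx) (p a b : G) : c.br p a b = qq c p a b - qq c p b a := rfl

theorem ps_per (c : Ctx) (p w : G) (m : ℤ × ℤ) :
    ps c (p + c.i (lat m), w) = ps c (p, w) + c.i (lat m) := by
  simp only [ps, qq_per, c.e_per]
  abel

theorem qq_smul_left (c : Ctx) (p a b : G) (t : ℝ) : qq c p (t • a) b = t • qq c p a b := by
  simp [qq]

theorem qq_smul_right (c : Ctx) (p a b : G) (t : ℝ) : qq c p a (t • b) = t • qq c p a b := by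
  simp [qq]

theorem ps_zero (c : Ctx) (p : G) : ps c (p, 0) = p := by
  simp [ps, qq]

theorem AA_smooth (c : Ctx) : ContDiff ℝ ∞ (AA c (ps c)) :=
  (c.om_smooth.comp (ps_smooth c)).clm_comp
    ((ps_smooth c).fderiv_right (m := ∞) (by exact_mod_cast le_top))

theorem AA_per (c : Ctx) (m : ℤ × ℤ) (p w : G) :
    AA c (ps c) (p + c.i (lat m), w) = AA c (ps c) (p, w) := by
  have h : fderiv ℝ (ps c) (p + c.i (lat m), w) = fderiv ℝ (ps c) (p, w) := by
    have e : ((p + c.i (lat m), w) : G × G) = (p, w) + (c.i (lat m), 0) := by simp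
    rw [e, ← fderiv_comp_add_right]
    have e2 : (fun x : G × G => ps c (x + (c.i (lat m), 0))) = fun x => ps c x + c.i (lat m) := by
      funext x
      have : x + (c.i (lat m), 0) = (x.1 + c.i (lat m), x.2) := by ext <;> simp
      rw [this, ps_per]
    rw [e2, fderiv_add_const]
  simp only [AA, h, ps_per, c.om_per]

/-- Differentiating `om ∘ e = id`. -/
theorem dual_deriv (c : Ctx) (p v a : G) :
    c.om p (fderiv ℝ c.e p v a) = -fderiv ℝ c.om p v (c.e p a) := by
  have he : HasFDerivAt c.e (fderiv ℝ c.e p) p :=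
    (c.e_smooth.differentiable (by simp) p).hasFDerivAt
  have ho : HasFDerivAt c.om (fderiv ℝ c.om p) p :=
    (c.om_smooth.differentiable (by simp) p).hasFDerivAt
  have h1 := ho.clm_apply (he.clm_apply (hasFDerivAt_const a p))
  have h2 : (fun y => c.om y (c.e y a)) = fun _ => a := by
    funext y; exact c.om_e y a
  rw [h2] at h1
  have h3 := congrArg (fun L : G →L[ℝ] G => L v) (h1.unique (hasFDerivAt_const a p))
  simp only [add_apply, ContinuousLinearMap.comp_apply,
    ContinuousLinearMap.flip_apply, zero_apply, zero_add,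
    ContinuousLinearMap.comp_zero] at h3
  exact eq_neg_of_add_eq_zero_left h3

/-- The quadratic term of the displacement as a function of the base point. -/
noncomputable def sq (c : Ctx) (w p : G) : G := c.e p (qq c p w w)

theorem sq_smooth (c : Ctx) (w : G) : ContDiff ℝ ∞ (sq c w) :=
  c.e_smooth.clm_apply (qq_smooth c contDiff_id contDiff_const contDiff_const)

theorem dps_fst (c : Ctx) (p w v : G) (t : ℝ) :
    fderiv ℝ (ps c) (p, t • w) (v, 0) =
      v + t • fderiv ℝ c.e p v w - (t ^ 2 / 2) • fderiv ℝ (sq c w) p v := by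
  have h0 : HasFDerivAt (ps c) (fderiv ℝ (ps c) (p, t • w)) (p, t • w) :=
    ((ps_smooth c).differentiable (by simp) _).hasFDerivAt
  have h1 := h0.comp p (hasFDerivAt_prodMk_left (𝕜 := ℝ) p (t • w))
  have he : HasFDerivAt c.e (fderiv ℝ c.e p) p :=
    (c.e_smooth.differentiable (by simp) p).hasFDerivAt
  have hs : HasFDerivAt (sq c w) (fderiv ℝ (sq c w) p) p :=
    ((sq_smooth c w).differentiable (by simp) p).hasFDerivAt
  have h2 := ((hasFDerivAt_id p).add
    ((he.clm_apply (hasFDerivAt_const w p)).const_smul t)).sub (hs.const_smul (t ^ 2 / 2))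
  have e : (ps c ∘ fun y => (y, t • w)) =
      (id + t • fun y => c.e y w) - (t ^ 2 / 2) • sq c w := by
    funext y
    simp only [Function.comp, ps, qq_smul_left, qq_smul_right, map_sub, map_smul, sq,
      Pi.sub_apply, Pi.add_apply, Pi.smul_apply, id, smul_smul]
    rw [show (1 / 2 : ℝ) * (t * t) = t ^ 2 / 2 by ring]
    abel
  rw [e] at h1
  have h3 := congrArg (fun L : G →L[ℝ] G => L v) (h1.unique h2)
  simpa using h3

theorem dps_snd (c : Ctx) (p w w' : G) :
    fderiv ℝ (ps c) (p, w) (0, w') =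
      c.e p (w' - (1 / 2 : ℝ) • (qq c p w w' + qq c p w' w)) := by
  have h0 : HasFDerivAt (ps c) (fderiv ℝ (ps c) (p, w)) (p, w) :=
    ((ps_smooth c).differentiable (by simp) _).hasFDerivAt
  have h1 := h0.comp w (hasFDerivAt_prodMk_right (𝕜 := ℝ) p w)
  have he : HasFDerivAt (c.e p) (c.e p) w := (c.e p).hasFDerivAt
  have hq := ((fderiv ℝ c.om p).hasFDerivAt.comp w he).clm_apply he
  have h2 := ((c.e p).hasFDerivAt.comp w
    ((hasFDerivAt_id w).sub (hq.const_smul (1 / 2 : ℝ)))).const_add p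
  have h3 := congrArg (fun L : G →L[ℝ] G => L w') (h1.unique h2)
  simpa [qq] using h3

theorem AA_zero (c : Ctx) (p x w' : G) : AA c (ps c) (p, 0) (c.e p x, w') = x + w' := by
  have e : ((c.e p x, w') : G × G) = (c.e p x, 0) + (0, w') := by simp
  have h1 := dps_fst c p 0 (c.e p x) 0
  simp only [zero_smul, add_zero, ne_eq, OfNat.ofNat_ne_zero, not_false_eq_true, zero_pow,
    zero_div, sub_zero] at h1
  have h2 := dps_snd c p 0 w'
  simp only [AA, ContinuousLinearMap.comp_apply, ps_zero]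
  rw [e, map_add, h1, h2]
  simp [qq, c.om_e]

theorem AA_first (c : Ctx) (p w x w' : G) :
    D2 (AA c (ps c)) (p, 0) w (c.e p x, w') = c.br p w x + (1 / 2 : ℝ) • c.br p w w' := by
  have h1 := (D2_line (AA_smooth c) p w 0).clm_apply (hasDerivAt_const (0 : ℝ) (c.e p x, w'))
  simp only [zero_smul, map_zero, add_zero] at h1
  -- explicit formula along the line
  have e : (fun t : ℝ => AA c (ps c) (p, t • w) (c.e p x, w')) = fun t : ℝ =>
      c.om (p + (t • c.e p w - (t ^ 2 / 2) • sq c w p))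
        (c.e p (x + w') + t • (fderiv ℝ c.e p (c.e p x) w -
          (1 / 2 : ℝ) • c.e p (qq c p w w' + qq c p w' w)) -
          (t ^ 2 / 2) • fderiv ℝ (sq c w) p (c.e p x)) := by
    funext t
    have e1 : ((c.e p x, w') : G × G) = (c.e p x, 0) + (0, w') := by simp
    simp only [AA, ContinuousLinearMap.comp_apply]
    rw [e1, map_add (fderiv ℝ (ps c) (p, t • w)), dps_fst, dps_snd]
    congr 1
    · congr 1
      simp only [ps, qq_smul_left, qq_smul_right, map_sub, map_smul, sq, smul_smul]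
      rw [show (1 / 2 : ℝ) * (t * t) = t ^ 2 / 2 by ring]
    · simp only [qq_smul_left, qq_smul_right, map_sub, map_smul, map_add]
      module
  have hsq : HasDerivAt (fun t : ℝ => t ^ 2 / 2) 0 0 := by
    simpa using (hasDerivAt_pow 2 (0 : ℝ)).div_const 2
  have ha : HasDerivAt (fun t : ℝ => p + (t • c.e p w - (t ^ 2 / 2) • sq c w p)) (c.e p w) 0 := by
    simpa using (((hasDerivAt_id (0 : ℝ)).smul_const (c.e p w)).sub
      (hsq.smul_const (sq c w p))).const_add p
  have ho : HasFDerivAt c.om (fderiv ℝ c.om p)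
      (p + ((0 : ℝ) • c.e p w - ((0 : ℝ) ^ 2 / 2) • sq c w p)) := by
    simpa using (c.om_smooth.differentiable (by simp) p).hasFDerivAt
  have hb := ho.comp_hasDerivAt (0 : ℝ) ha
  have hc : HasDerivAt (fun t : ℝ => c.e p (x + w') + t • (fderiv ℝ c.e p (c.e p x) w -
          (1 / 2 : ℝ) • c.e p (qq c p w w' + qq c p w' w)) -
          (t ^ 2 / 2) • fderiv ℝ (sq c w) p (c.e p x))
      (fderiv ℝ c.e p (c.e p x) w - (1 / 2 : ℝ) • c.e p (qq c p w w' + qq c p w' w)) 0 := by
    have := (((hasDerivAt_id (0 : ℝ)).smul_const (fderiv ℝ c.e p (c.e p x) w -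
          (1 / 2 : ℝ) • c.e p (qq c p w w' + qq c p w' w))).const_add (c.e p (x + w'))).sub
      (hsq.smul_const (fderiv ℝ (sq c w) p (c.e p x)))
    rw [one_smul, zero_smul, sub_zero] at this
    exact this
  have h2 := hb.clm_apply hc
  rw [e] at h1
  rw [h1.unique h2]
  simp only [Function.comp, zero_smul, ne_eq, OfNat.ofNat_ne_zero, not_false_eq_true, zero_pow,
    zero_div, sub_zero, add_zero, map_sub, map_smul, c.om_e, dual_deriv, br_eq, map_add]
  simp only [qq]
  module

/-- The cubic term. -/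
noncomputable def c3 (c : Ctx) (p : G) : G →ₗ[ℝ] G →ₗ[ℝ] G →ₗ[ℝ] G where
  toFun A :=
    { toFun := fun B =>
        { toFun := fun D => (1 / 2 : ℝ) • D2 (D2 (AA c (ps c))) (p, 0) A B (0, D)
          map_add' := fun D D' => by
            rw [← smul_add, ← map_add]; simp
          map_smul' := fun t D => by
            have e : ((0, t • D) : G × G) = t • ((0, D) : G × G) := by simp
            rw [e, map_smul]
            exact smul_comm _ _ _ }
      map_add' := fun B B' => by
        refine LinearMap.ext fun D => ?_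
        simp
      map_smul' := fun t B => by
        refine LinearMap.ext fun D => ?_
        simp only [map_smul, LinearMap.coe_mk, AddHom.coe_mk, RingHom.id_apply,
          LinearMap.smul_apply, smul_apply]
        exact smul_comm _ _ _ }
  map_add' A A' := by
    refine LinearMap.ext fun B => LinearMap.ext fun D => ?_
    simp
  map_smul' t A := by
    refine LinearMap.ext fun B => LinearMap.ext fun D => ?_
    simp only [map_smul, LinearMap.coe_mk, AddHom.coe_mk, RingHom.id_apply,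
      LinearMap.smul_apply, smul_apply]
    exact smul_comm _ _ _

theorem c3_apply (c : Ctx) (p A B D : G) :
    c3 c p A B D = (1 / 2 : ℝ) • D2 (D2 (AA c (ps c))) (p, 0) A B (0, D) := rfl

theorem c3_smooth (c : Ctx) (A B D : G) : ContDiff ℝ ∞ fun p => c3 c p A B D := by
  have h : ContDiff ℝ ∞ fun p : G => D2 (D2 (AA c (ps c))) (p, 0) :=
    (D2_smooth (D2_smooth (AA_smooth c))).comp (contDiff_id.prodMk contDiff_const)
  exact (((h.clm_apply contDiff_const).clm_apply contDiff_const).clm_apply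
    contDiff_const).const_smul _

theorem c3_per (c : Ctx) (p : G) (m : ℤ × ℤ) : c3 c (p + c.i (lat m)) = c3 c p := by
  refine LinearMap.ext fun A => LinearMap.ext fun B => LinearMap.ext fun D => ?_
  rw [c3_apply, c3_apply, D2_per (D2_per (AA_per c m))]

theorem reduce (c : Ctx) (R : ℝ) (p : G) (h : ∃ q, ‖p - c.i q‖ ≤ R) :
    ∃ p₀ m, p₀ ∈ Metric.closedBall (0 : G) (R + ‖c.i‖) ∧ p = p₀ + c.i (lat m) := by
  obtain ⟨q, hq⟩ := h
  refine ⟨p - c.i (lat (⌊q.1⌋, ⌊q.2⌋)), (⌊q.1⌋, ⌊q.2⌋), ?_, by simp⟩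
  rw [mem_closedBall_zero_iff]
  have e : p - c.i (lat (⌊q.1⌋, ⌊q.2⌋)) = (p - c.i q) + c.i (q - lat (⌊q.1⌋, ⌊q.2⌋)) := by
    rw [map_sub]; abel
  have h1 : ‖q - lat (⌊q.1⌋, ⌊q.2⌋)‖ ≤ 1 := by
    rw [Prod.norm_def]
    refine max_le ?_ ?_
    · show ‖Int.fract q.1‖ ≤ 1
      rw [Real.norm_of_nonneg (Int.fract_nonneg _)]; exact (Int.fract_lt_one _).le
    · show ‖Int.fract q.2‖ ≤ 1
      rw [Real.norm_of_nonneg (Int.fract_nonneg _)]; exact (Int.fract_lt_one _).le
  rw [e]
  refine (norm_add_le _ _).trans (add_le_add hq ?_)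
  exact (c.i.le_opNorm _).trans (mul_le_of_le_one_right (norm_nonneg _) h1)

end Psi

open Psi in
theorem psi : PsiStmt := by
  intro c
  refine ⟨ps c, c3 c, ps_smooth c, c3_smooth c, fun p w m => ps_per c p w m, c3_per c,
    ps_zero c, fun R => ?_⟩
  have hK : IsCompact (Metric.closedBall (0 : G) (R + ‖c.i‖)) := isCompact_closedBall _ _
  obtain ⟨C0, h00, h0⟩ := bound0 (D2_smooth (D2_smooth (AA_smooth c))).continuous hK
  obtain ⟨C2, h20, h2⟩ := taylor2 (AA_smooth c) hK
  obtain ⟨C3, h30, h3⟩ := taylor3 (AA_smooth c) hK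
  obtain ⟨M, hM⟩ := hK.exists_bound_of_continuousOn c.e_smooth.continuous.continuousOn
  have hM' : 0 ≤ C2 * max M 1 := mul_nonneg h20 (zero_le_one.trans (le_max_right _ _))
  refine ⟨C0 + C2 * max M 1 + C3, by positivity, fun p' hp' => ?_⟩
  obtain ⟨p, m, hp, rfl⟩ := reduce c R p' hp'
  simp only [c3_per, AA_per, br_per, c.e_per]
  refine ⟨fun A B D => ?_, fun w hw => ⟨fun x w' => ?_, fun w' => ?_⟩⟩
  · have h := h0 p hp 0 (by simp)
    have hD : ‖((0, D) : G × G)‖ = ‖D‖ := by rw [Prod.norm_def]; simp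
    have h' : ‖D2 (D2 (AA c (ps c))) (p, 0) A B (0, D)‖ ≤ C0 * ‖A‖ * ‖B‖ * ‖D‖ := by
      rw [← hD]
      refine ContinuousLinearMap.le_of_opNorm_le _ ?_ _
      refine ContinuousLinearMap.le_of_opNorm_le _ ?_ _
      exact ContinuousLinearMap.le_of_opNorm_le _ h _
    rw [c3_apply, norm_smul, Real.norm_of_nonneg (by norm_num : (0 : ℝ) ≤ 1 / 2)]
    have hn := norm_nonneg (D2 (D2 (AA c (ps c))) (p, 0) A B (0, D))
    have hp3 : 0 ≤ ‖A‖ * ‖B‖ * ‖D‖ := by positivity
    nlinarith [mul_nonneg hM' hp3, mul_nonneg h30 hp3]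
  · have h := ContinuousLinearMap.le_of_opNorm_le _ (h2 p hp w hw) (c.e p x, w')
    have e : (AA c (ps c) (p, w) - AA c (ps c) (p, 0) - D2 (AA c (ps c)) (p, 0) w) (c.e p x, w') =
        AA c (ps c) (p, w) (c.e p x, w') -
          (x + c.br p w x + w' + (1 / 2 : ℝ) • c.br p w w') := by
      rw [sub_apply, sub_apply, AA_zero, AA_first]
      abel
    rw [e] at h
    have hn : ‖((c.e p x, w') : G × G)‖ ≤ max M 1 * (‖x‖ + ‖w'‖) := by
      have h1 : ‖c.e p x‖ ≤ max M 1 * ‖x‖ :=
        ContinuousLinearMap.le_of_opNorm_le _ ((hM p hp).trans (le_max_left _ _)) _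
      have h2 : ‖w'‖ ≤ max M 1 * ‖w'‖ := le_mul_of_one_le_left (norm_nonneg _) (le_max_right _ _)
      have h3 : 0 ≤ max M 1 := zero_le_one.trans (le_max_right _ _)
      rw [Prod.norm_def, mul_add]
      exact max_le (h1.trans (le_add_of_nonneg_right (by positivity)))
        (h2.trans (le_add_of_nonneg_left (by positivity)))
    refine h.trans ?_
    have hw2 : 0 ≤ ‖w‖ ^ 2 * (‖x‖ + ‖w'‖) := by positivity
    have h4 := mul_le_mul_of_nonneg_left hn (mul_nonneg h20 (sq_nonneg ‖w‖))
    nlinarith [mul_nonneg h00 hw2, mul_nonneg h30 hw2]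
  · have h := ContinuousLinearMap.le_of_opNorm_le _ (h3 p hp w hw) (0, w')
    have e : (AA c (ps c) (p, w) - AA c (ps c) (p, 0) - D2 (AA c (ps c)) (p, 0) w -
        (1 / 2 : ℝ) • D2 (D2 (AA c (ps c))) (p, 0) w w) (0, w') =
        AA c (ps c) (p, w) (0, w') - (w' + (1 / 2 : ℝ) • c.br p w w' + c3 c p w w w') := by
      have h5 := AA_zero c p 0 w'
      have h6 := AA_first c p w 0 w'
      rw [map_zero] at h5 h6
      have h7 : c.br p w 0 = 0 := by simp [br_eq, qq]
      rw [sub_apply, sub_apply,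
        sub_apply, h5, h6, h7, c3_apply, smul_apply]
      abel
    rw [e] at h
    have hD : ‖((0, w') : G × G)‖ = ‖w'‖ := by rw [Prod.norm_def]; simp
    rw [hD] at h
    refine h.trans ?_
    have hw3 : 0 ≤ ‖w‖ ^ 3 * ‖w'‖ := by positivity
    nlinarith [mul_nonneg h00 hw3, mul_nonneg hM' hw3]

end Pool.Agent.Lib.MP_72f1d0_gt
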