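import Mathlib
import Pool.Agent.Lib.MP_72f1d0_gt.Bead
import Pool.Agent.Lib.MP_72f1d0_gt.Near
import Pool.Agent.Lib.MP_72f1d0_gt.Basic

/-!
The relative bead operation: the analytic statement on a closed periodic set.
-/

open scoped ContDiff

namespace Pool.Agent.Lib.MP_72f1d0_gt

namespace RelBead

open Bead

lemma cut {m : ℝ} (hm : 0 < m) :
    ∃ k : ℝ → ℝ, ContDiff ℝ ∞ k ∧ ∀ x, m ≤ x → k x * x = 1 := by
  have hs : ContDiff ℝ ∞ fun x : ℝ => Real.smoothTransition (x / m) :=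
    Real.smoothTransition.contDiff.comp (contDiff_id.div_const m)
  have hp : ∀ x : ℝ, x * Real.smoothTransition (x / m) + (1 - Real.smoothTransition (x / m)) ≠ 0 := by
    intro x
    have h0 := Real.smoothTransition.nonneg (x / m)
    have h1 := Real.smoothTransition.le_one (x / m)
    rcases le_or_gt x 0 with h | h
    · rw [Real.smoothTransition.zero_of_nonpos (div_nonpos_of_nonpos_of_nonneg h hm.le)]
      norm_num
    · rcases h0.eq_or_lt with h2 | h2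
      · rw [← h2]; norm_num
      · nlinarith [mul_pos h h2]
  refine ⟨fun x => (x * Real.smoothTransition (x / m) + (1 - Real.smoothTransition (x / m)))⁻¹,
    ((contDiff_id.mul hs).add (contDiff_const.sub hs)).inv hp, fun x hx => ?_⟩
  have h1 : Real.smoothTransition (x / m) = 1 :=
    Real.smoothTransition.one_of_one_le ((one_le_div hm).2 hx)
  have hx0 : x ≠ 0 := by linarith
  simp only [h1, mul_one, sub_self, add_zero]
  exact inv_mul_cancel₀ hx0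

/-- The decomposition of `μ` on a closed periodic set. -/
lemma decompOn (μ ζ τ : Q → G) (hμ : ContDiff ℝ ∞ μ) (hζ : ContDiff ℝ ∞ ζ)
    (hτ : ContDiff ℝ ∞ τ) (pμ : Per μ) (pζ : Per ζ) (pτ : Per τ) (S : Set Q) (hS : IsClosed S)
    (pS : PerSet S) (h1 : ∀ q ∈ S, 0 < dl (ζ q, τ q)) (h2 : ∀ q, Ind3 (μ q) (ζ q) (τ q)) :
    ∃ (b c₀ k : Q → ℝ) (u : Q → ℂ), Continuous b ∧ Continuous c₀ ∧ Continuous k ∧
      ContDiff ℝ ∞ u ∧ Per b ∧ Per c₀ ∧ Per k ∧ Per u ∧ (∀ q ∈ S, u q ≠ 0) ∧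
      (∀ q ∈ S, k q * dl (ζ q, τ q) = 1) ∧
      ∀ q ∈ S, μ q = TT (u q) (ζ q) (τ q) 1 (b q) (c₀ q) := by
  have hD : ContDiff ℝ ∞ fun q => dl (ζ q, τ q) := Bead.dl_smooth.comp (hζ.prodMk hτ)
  have pD : Per fun q => dl (ζ q, τ q) := fun q m => by simp only [pζ q m, pτ q m]
  obtain ⟨m, hm0, hm⟩ := Bead.per_pos _ hD.continuous pD S hS pS h1
  obtain ⟨k0, sk0, hk0⟩ := cut hm0
  have hk : ContDiff ℝ ∞ fun q => k0 (dl (ζ q, τ q)) := sk0.comp hD
  have hb : ContDiff ℝ ∞ fun q => dl (μ q, τ q) * k0 (dl (ζ q, τ q)) :=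
    (Bead.dl_smooth.comp (hμ.prodMk hτ)).mul hk
  have hc : ContDiff ℝ ∞ fun q => dl (ζ q, μ q) * k0 (dl (ζ q, τ q)) :=
    (Bead.dl_smooth.comp (hζ.prodMk hμ)).mul hk
  have key : ∀ q ∈ S, μ q = TT ((μ q).1 - (dl (μ q, τ q) * k0 (dl (ζ q, τ q))) • (ζ q).1 -
      (dl (ζ q, μ q) * k0 (dl (ζ q, τ q))) • (τ q).1) (ζ q) (τ q) 1
      (dl (μ q, τ q) * k0 (dl (ζ q, τ q))) (dl (ζ q, μ q) * k0 (dl (ζ q, τ q))) := by
    intro q hq
    have e := hk0 _ (hm q hq)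
    set κ := k0 (dl (ζ q, τ q)) with hκ
    refine Prod.ext ?_ ?_
    · simp only [TT, Prod.fst_add, Prod.smul_fst, one_mul]
      abel
    · simp only [TT, Prod.snd_add, Prod.smul_snd, zero_add]
      simp only [dl] at e
      refine Complex.ext ?_ ?_
      · simp only [Complex.add_re, Complex.smul_re, smul_eq_mul, dl]
        linear_combination (-(μ q).2.re) * e
      · simp only [Complex.add_im, Complex.smul_im, smul_eq_mul, dl]
        linear_combination (-(μ q).2.im) * e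
  refine ⟨fun q => dl (μ q, τ q) * k0 (dl (ζ q, τ q)), fun q => dl (ζ q, μ q) * k0 (dl (ζ q, τ q)),
    fun q => k0 (dl (ζ q, τ q)),
    fun q => (μ q).1 - (dl (μ q, τ q) * k0 (dl (ζ q, τ q))) • (ζ q).1 -
      (dl (ζ q, μ q) * k0 (dl (ζ q, τ q))) • (τ q).1, hb.continuous, hc.continuous, hk.continuous,
    (hμ.fst.sub (hb.smul hζ.fst)).sub (hc.smul hτ.fst), ?_, ?_, ?_, ?_, ?_,
    fun q hq => hk0 _ (hm q hq), key⟩
  · intro q m
    simp only [pμ q m, pζ q m, pτ q m]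
  · intro q m
    simp only [pμ q m, pζ q m, pτ q m]
  · intro q m
    simp only [pζ q m, pτ q m]
  · intro q m
    simp only [pμ q m, pζ q m, pτ q m]
  · intro q hqS hq
    have h3 := key q hqS
    simp only at hq
    rw [hq] at h3
    have h4 := h2 q 1 (-(dl (μ q, τ q) * k0 (dl (ζ q, τ q))))
      (-(dl (ζ q, μ q) * k0 (dl (ζ q, τ q))))
      (by
        have h5 : ((1 * (0 : ℂ), (0 : ℂ)) : G) = 0 := by simp
        rw [TT, h5, zero_add] at h3
        rw [one_smul, neg_smul, neg_smul]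
        nth_rewrite 1 [h3]
        abel)
    exact one_ne_zero h4.1

lemma TT_lowerOn (u : Q → ℂ) (ζ τ : Q → G) (hu : Continuous u) (hζ : Continuous ζ)
    (hτ : Continuous τ) (pu : Per u) (pζ : Per ζ) (pτ : Per τ) (S : Set Q) (hS : IsClosed S)
    (pS : PerSet S) (hu0 : ∀ q ∈ S, u q ≠ 0) (hd : ∀ q ∈ S, dl (ζ q, τ q) ≠ 0) :
    ∃ m : ℝ, 0 < m ∧ ∀ q ∈ S, ∀ a β γ,
      m * (‖a‖ + |β| + |γ|) ≤ ‖TT (u q) (ζ q) (τ q) a β γ‖ := by
  obtain ⟨κ, hκ, h⟩ := cone_bound0 (V := ℂ × ℝ × ℝ) (S := Prod.fst ⁻¹' S)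
    (hS.preimage continuous_fst) (fun q v m hq => pS q m hq) (fun q v t _ hq => hq)
    (φ := fun x => TT (u x.1) (ζ x.1) (τ x.1) x.2.1 x.2.2.1 x.2.2.2)
    (by simp only [TT]; fun_prop) (fun v q m => by simp only [pu q m, pζ q m, pτ q m])
    (fun q v t _ => by
      simp only [TT, smul_add, mul_smul, Prod.smul_mk, smul_zero, smul_mul_assoc, Prod.smul_fst,
        Prod.smul_snd, smul_eq_mul])
    (fun x hx h0 => by
      obtain ⟨h1, h2, h3⟩ := TT_inj _ _ _ (hu0 _ hx) (hd _ hx) _ _ _ h0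
      exact Prod.ext h1 (Prod.ext h2 h3))
  refine ⟨κ / 3, by positivity, fun q hq a β γ => ?_⟩
  have h1 := h (q, (a, β, γ)) hq
  set y : ℂ × ℝ × ℝ := (a, β, γ) with hy
  have hya : ‖a‖ ≤ ‖y‖ := norm_fst_le y
  have hyb : |β| ≤ ‖y‖ := (norm_fst_le y.2).trans (norm_snd_le y)
  have hyc : |γ| ≤ ‖y‖ := (norm_snd_le y.2).trans (norm_snd_le y)
  refine le_trans ?_ h1
  change κ / 3 * (‖a‖ + |β| + |γ|) ≤ κ * ‖y‖
  nlinarith

lemma seg_of_ind3 {μ ζ τ : G} (h : Ind3 μ ζ τ) : SegInj (μ, τ) (ζ, τ) := by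
  intro s _ _ a t hat
  obtain ⟨h1, h2, h3⟩ := h (a * (1 - s)) (a * s) t (by
    rw [← hat]
    simp only [Prod.fst_add, Prod.snd_add, Prod.smul_fst, Prod.smul_snd, Prod.fst_sub,
      Prod.snd_sub]
    module)
  exact ⟨by linarith, h3⟩

/-- The common analytic statement, relative version. -/
lemma common (hM : MLStmt) (hP : PsiStmt) (c : Ctx) (f : Q → G) (hf : IsEmb c f) (ζ : Q → G)
    (hζ : ContDiff ℝ ∞ ζ) (pζ : Per ζ) (S : Set Q) (hS : IsClosed S) (pS : PerSet S)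
    (U : Set Q) (hU : IsOpen U) (hSU : ∀ q, q ∉ S → q ∈ U)
    (h1 : ∀ q ∈ S, 0 < dl (ζ q, (dd c f q).2))
    (h2 : ∀ q, Ind3 (dd c f q).1 (ζ q) (dd c f q).2) :
    ∃ b s : Q → ℝ, Continuous b ∧ Continuous s ∧ Per b ∧ Per s ∧ (∀ q ∈ S, 0 < s q) ∧
      (∀ q ∈ S, dl (dd c f q) = b q * dl (ζ q, (dd c f q).2)) ∧
      ∀ H Ca ε : ℝ, (∀ q, |b q| ≤ H) → 0 < Ca → 0 < ε → ∃ C ρ : ℝ, 0 < C ∧ 0 < ρ ∧
        ∀ (h : ℝ → ℝ → ℝ) (g : ℝ → ℝ → ℂ), AdmFam H Ca ρ (fun _ θ => θ) h g →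
        (∀ l, ∀ q ∈ U, h l q.1 = 0 ∧ g l q.1 = 0) →
        ∃ (F : Q → G) (J : Iso c f F),
          (∀ l (q : Q), h l q.1 = 0 → g l q.1 = 0 → J.H l q = f q) ∧
          (∀ l q, ‖J.H l q - f q‖ ≤ ε) ∧
          (∀ l q, SegInj (dd c (J.H l) q) (ζ q, (dd c (J.H l) q).2)) ∧
          (∀ l, ∀ q ∈ S, 0 < dl (ζ q, (dd c (J.H l) q).2)) ∧
          ∀ q ∈ S, C * err (fun θ => θ) (h 1) (g 1) q.1 < b q +
            deriv (h 1) q.1 + s q * al (dd c f q).2 * area (g 1) q.1 →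
            0 < dl (dd c F q) := by
  have hdd := Bead.dd_smooth c f hf.smooth
  have pdd := Bead.dd_per c f hf.equi
  set μ : Q → G := fun q => (dd c f q).1 with hμ
  set τ : Q → G := fun q => (dd c f q).2 with hτ
  have hμs : ContDiff ℝ ∞ μ := hdd.fst
  have hτs : ContDiff ℝ ∞ τ := hdd.snd
  have pμ : Per μ := fun q m => by simp only [hμ, pdd q m]
  have pτ : Per τ := fun q m => by simp only [hτ, pdd q m]
  obtain ⟨b, c₀, k, u, hb, hc₀, hk, hu, pb, pc₀, pk, pu, hu0, hk1, hdec⟩ :=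
    decompOn μ ζ τ hμs hζ hτs pμ pζ pτ S hS pS h1 h2
  have hDc : Continuous fun q => dl (ζ q, τ q) :=
    dl_cont.comp (hζ.continuous.prodMk hτs.continuous)
  have pD : Per fun q => dl (ζ q, τ q) := fun q m => by simp only [pζ q m, pτ q m]
  have hD0 : ∀ q ∈ S, 0 < dl (ζ q, τ q) := h1
  have hbD : ∀ q ∈ S, dl (μ q, τ q) = b q * dl (ζ q, τ q) := by
    intro q hq
    nth_rewrite 1 [hdec q hq]
    simp [TT, dl]
    ring
  refine ⟨b, fun q => ‖u q‖ ^ 2 * k q / 2, hb,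
    ((hu.continuous.norm.pow 2).mul hk).div_const 2, pb, fun q m => by
        simp only [pu q m, pk q m], fun q hq => by
        have h3 : 0 < k q := by
          have h4 := hk1 q hq
          have h5 := hD0 q hq
          by_contra h6
          nlinarith [mul_nonneg (sub_nonneg.2 (not_lt.1 h6)) h5.le]
        have := norm_pos_iff.2 (hu0 q hq)
        positivity, hbD, ?_⟩
  intro H Ca ε hH hCa hε
  obtain ⟨Φ, hΦ, pΦ, hΦ0, hL₀, C₂, ρ₂, hC₂, hρ₂, hfib⟩ :=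
    exists_Phi hP c f hf ζ hζ pζ u hu pu
  have hL₀' : ∀ q ∈ S, ∀ (ds dt dh : ℝ) (dg : ℂ), AA c Φ (q, 0) ((ds, dt), (dh, dg)) =
      TT (u q) (ζ q) (τ q) (ds + dg) (ds * b q + dh) (ds * c₀ q + dt) := by
    intro q hq ds dt dh dg
    rw [hL₀]
    change ds • μ q + dt • τ q + dh • ζ q + (dg * u q, 0) = _
    rw [hdec q hq]
    refine Prod.ext ?_ ?_
    · simp only [TT, Prod.fst_add, Prod.smul_fst, Complex.real_smul]
      push_cast
      ring
    · simp only [TT, Prod.snd_add, Prod.smul_snd, Complex.real_smul]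
      push_cast
      ring
  obtain ⟨m, hm0, hm⟩ := TT_lowerOn u ζ τ hu.continuous hζ.continuous hτs.continuous pu pζ pτ
    S hS pS hu0 fun q hq => (hD0 q hq).ne'
  obtain ⟨Cc, hCc0, hCc⟩ := Bead.per_bound c₀ hc₀ pc₀
  obtain ⟨C₁, hC₁, hlip⟩ := Bead.per_lip (AA c Φ) (Bead.AA_smooth c Φ hΦ) (AA_per c Φ pΦ)
  obtain ⟨M₁, hM₁, hM₁'⟩ := Bead.per_bound μ hμs.continuous pμ
  obtain ⟨M₂, hM₂, hM₂'⟩ := Bead.per_bound ζ hζ.continuous pζ
  obtain ⟨M₃, hM₃, hM₃'⟩ := Bead.per_bound τ hτs.continuous pτ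
  obtain ⟨M₄, hM₄, hM₄'⟩ := Bead.per_bound u hu.continuous pu
  obtain ⟨mD, hmD, hmD'⟩ := Bead.per_pos _ hDc pD S hS pS hD0
  obtain ⟨ρ₃, hρ₃, hdisp⟩ := disp_small hΦ.continuous pΦ hΦ0 hε
  have hH0 : 0 ≤ H := (abs_nonneg _).trans (hH 0)
  set K := 4 + 5 * Ca + 2 * Cc + 2 * H with hK
  have hK0 : 0 < K := by positivity
  set κ := min (m / (2 * K)) (mD / (2 * M₂)) with hκ
  have hκ0 : 0 < κ := by positivity
  have hκ1 : κ * K < m := by
    have e1 : κ ≤ m / (2 * K) := min_le_left _ _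
    calc κ * K ≤ m / (2 * K) * K := mul_le_mul_of_nonneg_right e1 hK0.le
      _ = m / 2 := by field_simp
      _ < m := by linarith
  have hκ3 : M₂ * κ < mD := by
    have e1 : κ ≤ mD / (2 * M₂) := min_le_right _ _
    calc M₂ * κ ≤ M₂ * (mD / (2 * M₂)) := mul_le_mul_of_nonneg_left e1 hM₂.le
      _ = mD / 2 := by field_simp
      _ < mD := by linarith
  obtain ⟨ρ₁, hρ₁, hML1, hML2⟩ := hM c f hf (ℝ × ℂ) Φ hΦ pΦ hΦ0 κ hκ0
  set M := M₁ + M₂ + M₃ + M₄ ^ 2 with hMdef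
  set C := (M + 2 * C₁) * (C₁ + C₂) + M * C₁ with hC
  have hC0 : 0 < C := by positivity
  set ρ := min (min 1 ρ₃) (min ρ₁ ρ₂) with hρ
  have hle1 : ρ ≤ 1 := (min_le_left _ _).trans (min_le_left _ _)
  have hle3 : ρ ≤ ρ₃ := (min_le_left _ _).trans (min_le_right _ _)
  have hle4 : ρ ≤ ρ₁ := (min_le_right _ _).trans (min_le_left _ _)
  have hle2 : ρ ≤ ρ₂ := (min_le_right _ _).trans (min_le_right _ _)
  refine ⟨C / mD, ρ, by positivity, by positivity, ?_⟩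
  intro h g hA hz
  set σ : ℝ → ℝ := fun θ => θ with hσ
  have dσ : ContDiff ℝ ∞ σ := contDiff_id
  have dh : ∀ l, ContDiff ℝ ∞ (h l) := fun l =>
    hA.sh.comp (contDiff_const.prodMk contDiff_id)
  have dg : ∀ l, ContDiff ℝ ∞ (g l) := fun l =>
    hA.sg.comp (contDiff_const.prodMk contDiff_id)
  have hv : ∀ l θ, ‖((h l θ, g l θ) : ℝ × ℂ)‖ ≤ ρ := by
    intro l θ
    rw [Prod.norm_def]
    exact max_le ((hA.adm l).small θ).1 ((hA.adm l).small θ).2
  have hv1 : ∀ l θ, ‖((h l θ, g l θ) : ℝ × ℂ)‖ ≤ ρ₁ := fun l θ => (hv l θ).trans hle4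
  have hfix : ∀ l (q : Q), h l q.1 = 0 → g l q.1 = 0 → Φ (Gr σ (h l) (g l) q) = f q := by
    intro l q e1 e2
    simp only [Gr, e1, e2]
    exact hΦ0 q
  have hoff : ∀ l, ∀ q, q ∉ S → dd c (fun q => Φ (Gr σ (h l) (g l) q)) q = dd c f q :=
    fun l q hq => dd_congr_open c hU (fun y hy => hfix l y (hz l y hy).1 (hz l y hy).2) (hSU q hq)
  have hddH : ∀ l q, dd c (fun q => Φ (Gr σ (h l) (g l) q)) q =
      (AA c Φ (Gr σ (h l) (g l) q)
        ((deriv σ q.1, 0), (deriv (h l) q.1, deriv (g l) q.1)),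
        AA c Φ (Gr σ (h l) (g l) q) ((0, 1), (0, 0))) := fun l q =>
    dd_Gr c Φ hΦ _ _ _ (dσ.differentiable (by simp)) ((dh l).differentiable (by simp))
      ((dg l).differentiable (by simp)) q
  have hseg : ∀ l q, SegInj (dd c (fun q => Φ (Gr σ (h l) (g l) q)) q)
      (ζ q, (dd c (fun q => Φ (Gr σ (h l) (g l) q)) q).2) := by
    intro l q
    by_cases hq : q ∈ S
    · rw [hddH]
      exact seg_pt _ _ _ _ _ m H Cc Ca κ _ _ (hL₀' q hq) (hm q hq) (hH _) (hCc _) hCa.le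
        (hML1 _ _ (hv1 l q.1)) hκ1 _ _ _ ((hA.adm l).pos _) ((hA.adm l).speed _)
        ((hA.adm l).slope _)
    · rw [hoff l q hq]
      exact seg_of_ind3 (h2 q)
  have hτ0 : ∀ q, AA c Φ (q, 0) ((0, 1), (0, 0)) = τ q := by
    intro q
    rw [hL₀]
    simp [hτ]
  have hτl : ∀ l q, ‖(dd c (fun q => Φ (Gr σ (h l) (g l) q)) q).2 - τ q‖ ≤ κ := by
    intro l q
    rw [hddH, ← hτ0, ← sub_apply]
    have e2 : ‖(((0, 1), (0, 0)) : Y)‖ ≤ 1 := norm_Y_le _ _ _ _ _ (by simp) (by simp) (by simp)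
      (by simp)
    refine (ContinuousLinearMap.le_opNorm _ _).trans ?_
    calc _ ≤ κ * 1 := mul_le_mul (hML1 _ _ (hv1 l q.1)) e2 (norm_nonneg _) hκ0.le
      _ = κ := mul_one _
  have hsm : ContDiff ℝ ∞ fun x : ℝ × Q => Φ (Gr σ (h x.1) (g x.1) x.2) := by
    have e1 : ContDiff ℝ ∞ fun x : ℝ × Q => ((x.1, x.2.1) : ℝ × ℝ) :=
      contDiff_fst.prodMk contDiff_snd.fst
    exact hΦ.comp ((contDiff_snd.fst.prodMk contDiff_snd.snd).prodMk
      ((hA.sh.comp e1).prodMk (hA.sg.comp e1)))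
  have hinj : ∀ l, Function.Injective fun q => Φ (Gr σ (h l) (g l) q) := by
    intro l
    have key : ∀ q q' : Q, q.1 ≤ q'.1 → Φ (Gr σ (h l) (g l) q) =
        Φ (Gr σ (h l) (g l) q') → q = q' := by
      intro q q' hle heq
      have hcone : -((q'.1 - q.1) / 2) ≤ (g l q'.1 - g l q.1).re ∨
          h l q'.1 - h l q.1 ≤ -((H + 1) * (q'.1 - q.1)) := by
        rcases hle.eq_or_lt with h0 | h0
        · left
          rw [h0]
          simp
        · simpa using (hA.adm l).pairs _ _ h0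
      have fin : ∀ p ∈ S, ‖AA c Φ (p, 0) ((q'.1 - q.1, q'.2 - q.2),
          (h l q'.1 - h l q.1, g l q'.1 - g l q.1))‖ ≤ κ * ‖(((q'.1 - q.1, q'.2 - q.2),
          (h l q'.1 - h l q.1, g l q'.1 - g l q.1)) : Y)‖ → q = q' := by
        intro p hp e1
        have e2 := inj_pt _ _ _ _ _ m H Cc Ca κ _ (hL₀' p hp) (hm p hp) (hH _) (hCc _)
          hCa.le hκ0.le hκ1 (q'.1 - q.1) (q'.2 - q.2) (h l q'.1 - h l q.1)
          (g l q'.1 - g l q.1) (sub_nonneg.2 hle) hcone e1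
        exact Prod.ext (sub_eq_zero.1 e2.1).symm (sub_eq_zero.1 e2.2).symm
      by_cases hq : q ∈ S
      · exact fin q hq (hML2 _ _ _ _ (hv1 l q.1) (hv1 l q'.1) heq)
      by_cases hq' : q' ∈ S
      · refine fin q' hq' ?_
        have e1 := hML2 _ _ _ _ (hv1 l q'.1) (hv1 l q.1) heq.symm
        have e2 : (((q'.1 - q.1, q'.2 - q.2), (h l q'.1 - h l q.1, g l q'.1 - g l q.1)) : Y) =
            -(((σ q.1, q.2) : Q) - (σ q'.1, q'.2),
              ((h l q.1, g l q.1) : ℝ × ℂ) - (h l q'.1, g l q'.1)) := by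
          simp only [hσ, Prod.mk_sub_mk, Prod.neg_mk, neg_sub]
        rw [e2, map_neg, norm_neg, norm_neg]
        exact e1
      · rw [hfix l q (hz l q (hSU q hq)).1 (hz l q (hSU q hq)).2,
          hfix l q' (hz l q' (hSU q' hq')).1 (hz l q' (hSU q' hq')).2] at heq
        exact hf.inj heq
    intro q q' heq
    rcases le_total q.1 q'.1 with h0 | h0
    · exact key q q' h0 heq
    · exact (key q' q h0 heq.symm).symm
  have hemb : ∀ l, IsEmb c fun q => Φ (Gr σ (h l) (g l) q) := by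
    intro l
    refine ⟨hsm.comp (contDiff_const.prodMk contDiff_id), ?_, hinj l, ?_⟩
    · intro q n
      rw [Gr_per _ _ _ (hA.adm l).perσ (hA.adm l).perh (hA.adm l).perg, pΦ]
      rfl
    · intro q
      simpa using hseg l q 0 le_rfl zero_le_one
  refine ⟨fun q => Φ (Gr σ (h 1) (g 1) q),
    ⟨fun l q => Φ (Gr σ (h l) (g l) q), hsm, hemb, ?_, rfl⟩, hfix, ?_, hseg, ?_, ?_⟩
  · funext q
    exact hfix 0 q (hA.h0 _) (hA.g0 _)
  · intro l q
    exact hdisp q _ ((hv l q.1).trans hle3)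
  · intro l q hq
    set τl := (dd c (fun q => Φ (Gr σ (h l) (g l) q)) q).2 with hτl'
    have e1 : τl = τ q + (τl - τ q) := by abel
    have e2 := (abs_le.1 ((dl_le (ζ q) (τl - τ q)).trans
      (mul_le_mul (hM₂' _) (hτl l q) (norm_nonneg _) hM₂.le))).1
    have e3 := hmD' q hq
    change 0 < dl (ζ q, τl)
    rw [e1, dl_add_right]
    linarith
  · intro q hqS hq
    rw [hddH]
    have hs := (hA.adm 1).pos q.1
    have hs1 : deriv σ q.1 = 1 := deriv_id q.1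
    have hsm1 := (hA.adm 1).small q.1
    have hn : ‖((h 1 q.1, g 1 q.1) : ℝ × ℂ)‖ ≤ |h 1 q.1| + ‖g 1 q.1‖ := by
      rw [Prod.norm_def]
      exact max_le (le_add_of_nonneg_right (norm_nonneg _))
        (le_add_of_nonneg_left (abs_nonneg _))
    have hM4 : 0 ≤ M₄ ^ 2 := by positivity
    have est := dl_pt (μ q) (ζ q) (τ q) (‖u q‖ ^ 2) (area (g 1) q.1) (b q)
      (|h 1 q.1| + ‖g 1 q.1‖) (‖g 1 q.1‖ ^ 2 * ‖deriv (g 1) q.1‖) C₁ C₂ M
      (AA c Φ (q, 0)) (AA c Φ (Gr σ (h 1) (g 1) q)) (deriv σ q.1) (deriv (h 1) q.1)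
      (deriv (g 1) q.1) hs (hbD q hqS) (by rw [hL₀]; simp [hμ]) (hτ0 q)
      ((hlip q _ ((hv 1 q.1).trans hle1)).trans (mul_le_mul_of_nonneg_left hn hC₁.le))
      (by positivity) (by linarith [hsm1.1, hsm1.2]) hC₁.le hC₂ (by positivity)
      (hfib q _ _ _ (hsm1.1.trans hle2) (hsm1.2.trans hle2))
      (by linarith [hM₁' q]) (by linarith [hM₂' q]) (by linarith [hM₃' q])
      (by positivity) (by
        have := pow_le_pow_left₀ (norm_nonneg _) (hM₄' q) 2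
        linarith)
    refine lt_of_lt_of_le ?_ est
    have herr := err_nonneg σ (h 1) (g 1) q.1 hs
    have hD := hD0 q hqS
    have e1 := mul_lt_mul_of_pos_left hq hD
    have e2 : dl (ζ q, τ q) * (b q + deriv (h 1) q.1 +
        ‖u q‖ ^ 2 * k q / 2 * al (τ q) * area (g 1) q.1) =
        dl (ζ q, τ q) * (deriv σ q.1 * b q + deriv (h 1) q.1) +
          ‖u q‖ ^ 2 * al (τ q) / 2 * area (g 1) q.1 := by
      rw [hs1]
      linear_combination (‖u q‖ ^ 2 * al (τ q) / 2 * area (g 1) q.1) * hk1 q hqS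
    have e3 : C * err σ (h 1) (g 1) q.1 ≤
        dl (ζ q, τ q) * (C / mD * err σ (h 1) (g 1) q.1) := by
      calc C * err σ (h 1) (g 1) q.1 = mD * (C / mD * err σ (h 1) (g 1) q.1) := by
            field_simp
        _ ≤ _ := mul_le_mul_of_nonneg_right (hmD' q hqS) (by positivity)
    have e4 := (e3.trans_lt e1).trans_eq e2
    unfold err at e4
    linarith

end RelBead

end Pool.Agent.Lib.MP_72f1d0_gt
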