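import Mathlib
import Pool.Agent.Lib.MP_72f1d0_gt.RelBeadA
import Pool.Agent.Lib.MP_72f1d0_gt.Defs3

/-!
The relative bead operation on a strip.
-/

open scoped ContDiff Pointwise

namespace Pool.Agent.Lib.MP_72f1d0_gt

namespace RelBead

/-- A closed band inside the strip. -/
def band (r : ℕ) (a b : ℝ) : Set Q := {q | a ≤ xr r q.1 ∧ xr r q.1 ≤ b}

lemma band_per (r : ℕ) (a b : ℝ) : PerSet (band r a b) := by
  intro q m hq
  simpa only [band, xr, lat, Prod.fst_add, Int.fract_add_intCast, Set.mem_ofPred_eq] using hq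

lemma band_closed (r : ℕ) (hr : 1 ≤ r) (a b : ℝ) (ha : 0 ≤ a) (hb : b < 1) :
    IsClosed (band r a b) := by
  have hr1 : (1 : ℝ) ≤ r := by exact_mod_cast hr
  have hr0 : (0 : ℝ) < r := by linarith
  have h1 : IsClosed (Set.range ((↑) : ℤ → ℝ) + Set.Icc (a / r) (b / r)) :=
    Int.isClosedEmbedding_coe_real.isClosed_range.add_right_of_isCompact isCompact_Icc
  have h2 : band r a b = Prod.fst ⁻¹' (Set.range ((↑) : ℤ → ℝ) + Set.Icc (a / r) (b / r)) := by
    ext q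
    simp only [band, xr, Set.mem_ofPred_eq, Set.mem_preimage, Set.mem_add, Set.mem_range,
      Set.mem_Icc]
    constructor
    · rintro ⟨h3, h4⟩
      refine ⟨⌊q.1⌋, ⟨_, rfl⟩, Int.fract q.1, ⟨?_, ?_⟩, Int.floor_add_fract _⟩
      · rw [div_le_iff₀ hr0]; linarith
      · rw [le_div_iff₀ hr0]; linarith
    · rintro ⟨_, ⟨n, rfl⟩, y, ⟨h3, h4⟩, h5⟩
      have h6 : 0 ≤ y := (div_nonneg ha hr0.le).trans h3
      have h7 : y < 1 := by
        refine h4.trans_lt ?_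
        rw [div_lt_iff₀ hr0]; linarith
      have h8 : Int.fract q.1 = y := by
        rw [← h5, Int.fract_intCast_add, Int.fract_eq_self.2 ⟨h6, h7⟩]
      rw [div_le_iff₀ hr0] at h3
      rw [le_div_iff₀ hr0] at h4
      rw [h8]
      constructor <;> linarith
  rw [h2]
  exact h1.preimage continuous_fst

end RelBead

open RelBead in
theorem relBead (hM : MLStmt) (hP : PsiStmt) {η : ℝ} (h0 : 0 < η) (h1 : η ≤ 1 / 200)
    (hB : RelProfileStmt η) : RelBeadStmt η := by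
  intro c f hf r hr ζ hζ pζ hI hZ ε hε
  have cS : IsClosed (band r (η / 2) (1 - η / 2)) :=
    band_closed r hr _ _ (by linarith) (by linarith)
  have cU : IsClosed (band r η (1 - η)) := band_closed r hr _ _ h0.le (by linarith)
  obtain ⟨b, s, hb, hs, pb, ps, hs0, hbD, hmain⟩ := RelBead.common hM hP c f hf ζ hζ pζ
    (band r (η / 2) (1 - η / 2)) cS (band_per _ _ _) (band r η (1 - η))ᶜ cU.isOpen_compl
    (fun q hq hq' => hq ⟨by linarith [hq'.1], by linarith [hq'.2]⟩)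
    (fun q hq => (hZ q hq.1 hq.2).1) hI
  have hdd := (dd_smooth c hf.smooth).continuous
  have pdd := hf.dd_per
  set κ : Q → ℝ := fun q => s q * al (dd c f q).2 with hκ
  have hκc : Continuous κ := hs.mul (continuous_al.comp hdd.snd)
  have pκ : Per κ := fun q m => by simp only [hκ, ps q m, pdd q m]
  obtain ⟨H, hH0, hH⟩ := per_bound0 hb pb
  obtain ⟨κ₁, hκ₁0, hκ₁⟩ := per_bound0 hκc pκ
  have sub : ∀ {x y : ℝ} {q : Q}, η / 2 ≤ x → y ≤ 1 - η / 2 → q ∈ band r x y →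
      q ∈ band r (η / 2) (1 - η / 2) := fun hx hy hq => ⟨hx.trans hq.1, hq.2.trans hy⟩
  obtain ⟨m₁, hm₁0, hm₁⟩ := per_pos0 (band_closed r hr (51 / 100) (99 / 100) (by norm_num)
    (by norm_num)) (band_per _ _ _) hκc pκ fun q hq => by
      have e := sub (by linarith) (by linarith) hq
      exact mul_pos (hs0 q e) ((hZ q e.1 e.2).2.1 hq.1 hq.2)
  obtain ⟨m₂, hm₂0, hm₂⟩ := per_pos0 (band_closed r hr (1 / 100) (49 / 100) (by norm_num)
    (by norm_num)) (band_per _ _ _) (g := fun q => -κ q) hκc.neg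
    (fun q m => by simp only [pκ q m]) fun q hq => by
      have e := sub (by linarith) (by linarith) hq
      exact neg_pos.2 (mul_neg_of_pos_of_neg (hs0 q e) ((hZ q e.1 e.2).2.2.1 hq.1 hq.2))
  have bpos : ∀ q ∈ band r (η / 2) (1 - η / 2), (xr r q.1 ≤ 1 / 20 ∨
      (45 / 100 ≤ xr r q.1 ∧ xr r q.1 ≤ 55 / 100) ∨ 19 / 20 ≤ xr r q.1) → 0 < b q := by
    intro q e hq
    have e1 := (hZ q e.1 e.2).2.2.2 hq
    rw [hbD q e] at e1
    exact (mul_pos_iff_of_pos_right (hZ q e.1 e.2).1).1 e1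
  obtain ⟨b₁, hb₁0, hb₁⟩ := per_pos0 (band_closed r hr (η / 2) (1 / 20) (by linarith)
    (by norm_num)) (band_per _ _ _) hb pb fun q hq =>
      bpos q (sub le_rfl (by linarith) hq) (Or.inl hq.2)
  obtain ⟨b₂, hb₂0, hb₂⟩ := per_pos0 (band_closed r hr (45 / 100) (55 / 100) (by norm_num)
    (by norm_num)) (band_per _ _ _) hb pb fun q hq =>
      bpos q (sub (by linarith) (by linarith) hq) (Or.inr (Or.inl hq))
  obtain ⟨b₃, hb₃0, hb₃⟩ := per_pos0 (band_closed r hr (19 / 20) (1 - η / 2) (by norm_num)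
    (by linarith)) (band_per _ _ _) hb pb fun q hq =>
      bpos q (sub (by linarith) le_rfl hq) (Or.inr (Or.inr hq.1))
  obtain ⟨Ca, hCa, hprof⟩ := hB r hr H (min m₁ m₂) κ₁ (min b₁ (min b₂ b₃)) hH0
    (lt_min hm₁0 hm₂0) hκ₁0 (lt_min hb₁0 (lt_min hb₂0 hb₃0))
  obtain ⟨C, ρ, hC, hρ, hiso⟩ := hmain H Ca ε hH hCa hε
  obtain ⟨h, g, hA, hz, hfin⟩ := hprof C ρ hC hρ
  obtain ⟨F, J, hp1, hp2, hp3, hp4, hp5⟩ := hiso h g hA fun l q hq => hz l q.1 (by
    by_contra h2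
    rw [not_or, not_le, not_le] at h2
    exact hq ⟨h2.1.le, h2.2.le⟩)
  refine ⟨F, J, fun l q hq => hp1 l q (hz l q.1 hq).1 (hz l q.1 hq).2, hp2, hp3,
    fun q e1 e2 => ⟨fun l => hp4 l q ⟨e1, e2⟩, hp5 q ⟨e1, e2⟩ ?_⟩⟩
  refine hfin q.1 (b q) (κ q) (by linarith) (hH _) (hκ₁ _) (fun a1 a2 => ?_)
    (fun a1 a2 => ?_) fun hq => ?_
  · exact (min_le_left _ _).trans (hm₁ q ⟨a1, a2⟩)
  · have := hm₂ q ⟨a1, a2⟩
    have := min_le_right m₁ m₂
    linarith
  · rcases hq with hq | hq | hq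
    · exact (min_le_left _ _).trans (hb₁ q ⟨e1, hq⟩)
    · exact ((min_le_right _ _).trans (min_le_left _ _)).trans (hb₂ q hq)
    · exact ((min_le_right _ _).trans (min_le_right _ _)).trans (hb₃ q ⟨hq, e2⟩)

end Pool.Agent.Lib.MP_72f1d0_gt
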