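import Mathlib
import Pool.Agent.Lib.MP_72f1d0_gt.OStage
import Pool.Agent.Lib.MP_72f1d0_gt.RelBead

/-! The relative theorem on a strip. -/

open scoped ContDiff Topology
open Set Filter

namespace Pool.Agent.Lib.MP_72f1d0_gt

namespace RS

open RelBead

lemma bcut {r : ℕ} (hr : 1 ≤ r) {a' a b b' : ℝ} (h0 : 0 ≤ a') (h1 : a' < a) (h2 : b < b')
    (h3 : b' ≤ 1) : ∃ ν : Q → ℝ, ContDiff ℝ ∞ ν ∧ Per ν ∧ (∀ q, 0 ≤ ν q ∧ ν q ≤ 1) ∧
      (∀ q : Q, a ≤ xr r q.1 → xr r q.1 ≤ b → ν q = 1) ∧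
      ∀ q : Q, xr r q.1 ≤ a' ∨ b' ≤ xr r q.1 → ν q = 0 := by
  have r1 : (1 : ℝ) ≤ r := by exact_mod_cast hr
  have hg : Continuous fun q : Q => max 0 (min (xr r q.1 - a') (b' - xr r q.1)) := by
    have h : Continuous fun t : ℝ => max 0 (min (r * t - a') (b' - r * t)) := by fun_prop
    refine (h.continuousOn.comp_fract'' ?_).comp continuous_fst
    rw [max_eq_left (min_le_of_left_le (by linarith)), max_eq_left (min_le_of_right_le (by linarith))]
  obtain ⟨ν, K', s, p, m, e1, -, -, -, hO, e0⟩ := urysohn (band_closed r hr a b (by linarith)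
    (by linarith)) (band_per r a b) (isOpen_lt continuous_const hg)
    (fun q m hq => by
      simpa only [xr, lat, Prod.fst_add, Int.fract_add_intCast, mem_ofPred_eq] using hq)
    fun q hq => show 0 < max 0 (min (xr r q.1 - a') (b' - xr r q.1)) from
      lt_max_of_lt_right (lt_min (by linarith [hq.1]) (by linarith [hq.2]))
  refine ⟨ν, s, p, m, fun q x y => e1 q ⟨x, y⟩, fun q hq => e0 q fun h => ?_⟩
  have := hO h
  simp only [mem_ofPred_eq, lt_max_iff, lt_irrefl, false_or, lt_min_iff] at this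
  rcases hq with hq | hq <;> linarith [this.1, this.2]

lemma away_band {r : ℕ} (hr : 1 ≤ r) {a b : ℝ} (h0 : 0 ≤ a) (h1 : b < 1) {ν : Q → ℝ}
    (h : ∀ q : Q, xr r q.1 ≤ a ∨ b ≤ xr r q.1 → ν q = 0) {q : Q}
    (hq : xr r q.1 < a ∨ b < xr r q.1) : Away ν q :=
  away_of (band_closed r hr a b h0 h1).isOpen_compl
    (fun h' => by rcases hq with hq | hq <;> linarith [h'.1, h'.2]) fun q hq =>
    h q ((not_and_or.1 hq).imp (fun h => (not_le.1 h).le) fun h => (not_le.1 h).le)

/-- Rotation of a pair. -/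
noncomputable def rot (φ : ℝ) (A : G × G) : G × G :=
  (Real.cos φ • A.1 + Real.sin φ • A.2, -Real.sin φ • A.1 + Real.cos φ • A.2)

lemma rot_zero (A : G × G) : rot 0 A = A := by simp [rot]

lemma dl_rot (φ : ℝ) (A : G × G) : dl (rot φ A) = dl A := by
  have := Real.cos_sq_add_sin_sq φ
  simp only [dl, rot, Prod.snd_add, Prod.smul_snd, Complex.add_re, Complex.add_im, Complex.smul_re,
    Complex.smul_im, smul_eq_mul]
  linear_combination (A.2.2.re * A.1.2.im - A.2.2.im * A.1.2.re) * this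

lemma ind4_rot (φ : ℝ) {A : G × G} {x w : G} (h : Ind4 A.1 A.2 x w) :
    Ind4 (rot φ A).1 (rot φ A).2 x w := fun a b e g h0 => by
  have := Real.cos_sq_add_sin_sq φ
  obtain ⟨h1, h2, h3, h4⟩ := h (a * Real.cos φ - b * Real.sin φ) (a * Real.sin φ + b * Real.cos φ)
    e g (by rw [← h0]; simp only [rot]; module)
  exact ⟨by linear_combination Real.cos φ * h1 + Real.sin φ * h2 - a * this,
    by linear_combination -Real.sin φ * h1 + Real.cos φ * h2 - b * this, h3, h4⟩

lemma al_rot {A : G × G} {L : ℂ} (h : Complex.exp L = aa A) (φ : ℝ) :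
    al (rot φ A).2 = Real.exp L.re * Real.cos (L.im - φ) := by
  have h1 := congrArg Complex.re h
  have h2 := congrArg Complex.im h
  rw [Complex.exp_re] at h1
  rw [Complex.exp_im] at h2
  simp only [aa] at h1 h2
  simp only [rot, al_add, al_smul, Real.cos_sub]
  linear_combination -Real.cos φ * h1 - Real.sin φ * h2

lemma continuous_rot {Y : Type*} [TopologicalSpace Y] {φ : Y → ℝ} {A : Y → G × G}
    (h1 : Continuous φ) (h2 : Continuous A) : Continuous fun y => rot (φ y) (A y) := by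
  unfold rot; fun_prop

/-- Rotation of the end point. -/
lemma rotate {X : Rel} (E : R.II X) {Z : Set Q} (hN : HasNF E Z) {φ : Q → ℝ} (cφ : Continuous φ)
    (pφ : Per φ) (hK : ∀ q, q ∉ X.K → φ q = 0) :
    ∃ (E₁ : R.II X) (ρ : Path E E₁), (∀ q, E₁ q = rot (φ q) (E q)) ∧ HasNF E₁ Z ∧
      R.PW ρ fun q x => dl x = dl (E q) ∧ (φ q = 0 → x = E q) := by
  obtain ⟨x, w, cx, cw, px, pw, hi, hx⟩ := hN
  have fam : R.IsFam X fun y : ℝ × Q => rot (y.1 * φ y.2) (E y.2) :=
    ⟨continuous_rot (by fun_prop) (E.cont.comp continuous_snd),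
      fun s q m => by simp only [pφ q m, E.per q m],
      fun s q _ _ a b h0 => by
        have := ind4_rot (s * φ q) (hi q) a b 0 0 (by simpa using h0)
        exact ⟨this.1, this.2.1⟩,
      fun s q _ _ hq => by simp only [hK q hq, mul_zero, rot_zero, E.rel hq]⟩
  let E₁ : R.II X := R.II.mk' (fun q => rot (1 * φ q) (E q))
    (fam.cont.comp (f := fun q => ((1 : ℝ), q)) (by fun_prop)) (fam.per 1)
    (fun q => fam.inj 1 q zero_le_one le_rfl) fun q => fam.rel 1 q zero_le_one le_rfl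
  exact ⟨E₁, R.mkPath fam (fun q => by simp [rot_zero]) fun q => rfl, fun q => by simp [E₁],
    ⟨x, w, cx, cw, px, pw, fun q => ind4_rot _ (hi q), hx⟩,
    fun t q => ⟨dl_rot _ _, fun h => by simp [h, rot_zero]⟩⟩

lemma angle {r : ℕ} {ν : Q → ℝ} (cν : Continuous ν) (pν : Per ν)
    (h0 : ∀ q : Q, xr r q.1 ≤ 0 ∨ 1 ≤ xr r q.1 → ν q = 0) {Λ : Q → ℂ} (cΛ : Continuous Λ)
    (pΛ : ∀ q, Λ (q + (0, 1)) = Λ q) :
    Continuous (fun q : Q => ν q * (Λ (Int.fract q.1, q.2)).im) ∧
      Per fun q : Q => ν q * (Λ (Int.fract q.1, q.2)).im := by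
  have e : ∀ q : Q, ν q = ν (Int.fract q.1, q.2) := fun q => by
    rw [← pν q (-⌊q.1⌋, 0)]
    congr 1
    ext <;> simp [lat, Int.fract, sub_eq_add_neg]
  constructor
  · have h : Continuous (Function.uncurry fun (q : Q) (s : ℝ) => ν (s, q.2) * (Λ (s, q.2)).im) := by
      unfold Function.uncurry; fun_prop
    have := ContinuousOn.comp_fract (s := fun q : Q => q.1) h.continuousOn continuous_fst fun q => by
      rw [h0 _ (Or.inl (by simp [xr])), h0 (1, q.2) (Or.inl (by simp [xr])), zero_mul, zero_mul]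
    exact this.congr fun q => by rw [← e]
  · intro q m
    have p : Function.Periodic (fun t : ℝ => Λ (Int.fract q.1, t)) 1 := fun t => by
      simpa using pΛ (Int.fract q.1, t)
    have := p.int_mul m.2 q.2
    simp only [mul_one] at this
    simp only [pν q m, Prod.fst_add, Prod.snd_add, lat_fst, lat_snd, Int.fract_add_intCast, this]

end RS

open RS RelBead Path.Homotopic.Quotient in
theorem r_of (hP : Pass2Stmt) (hM : Move2Stmt) {η : ℝ} (e0 : 0 < η) (e1 : η ≤ 1 / 200)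
    (hB : RelBeadStmt η) : RStmt η := by
  intro c hn X f hf E γ r hr hK hγ hN hE hα Λ cΛ pΛ hΛ ε hε
  have out : ∀ q, q ∉ X.K → xr r q.1 < η / 16 ∨ 1 - η / 16 < xr r q.1 := fun q hq => by
    by_contra h
    push Not at h
    exact hq (hK q h.1 h.2)
  have zero : ∀ {ν : Q → ℝ} {a b : ℝ}, η / 16 ≤ a → b ≤ 1 - η / 16 →
      (∀ q : Q, xr r q.1 ≤ a ∨ b ≤ xr r q.1 → ν q = 0) → ∀ q, q ∉ X.K → ν q = 0 :=
    fun h1 h2 h q hq => h q ((out q hq).imp (fun h => by linarith) fun h => by linarith)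
  -- rotation of the end point
  obtain ⟨c₄, s₄, p₄, m₄, o₄, z₄⟩ := bcut hr (a' := 75 / 100) (a := 8 / 10) (b := 85 / 100)
    (b' := 9 / 10) (by norm_num) (by norm_num) (by norm_num) (by norm_num)
  obtain ⟨cφ, pφ⟩ := angle s₄.continuous p₄
    (fun q h => z₄ q (h.imp (fun h => by linarith) fun h => by linarith)) cΛ pΛ
  obtain ⟨E₁, ρ, hE₁, hN₁, pρ⟩ := rotate E hN cφ pφ fun q hq => by
    rw [zero (by linarith) (by linarith) z₄ q hq, zero_mul]
  have E₁E : ∀ q : Q, xr r q.1 ≤ 75 / 100 ∨ 9 / 10 ≤ xr r q.1 → E₁ q = E q := fun q hq =>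
    (pρ.target q).2 (by rw [z₄ q hq, zero_mul])
  have dE₁ : ∀ q : Q, η / 16 ≤ xr r q.1 → xr r q.1 ≤ 1 - η / 16 → 0 < dl (E₁ q) := fun q a b => by
    rw [(pρ.target q).1]; exact hE q a b
  have aE₁ : ∀ q : Q, 51 / 100 ≤ xr r q.1 → xr r q.1 ≤ 99 / 100 → 0 < al (E₁ q).2 := fun q a b => by
    obtain ⟨h1, h2⟩ := hΛ (Int.fract q.1, q.2) a b
    have e : E (Int.fract q.1, q.2) = E q := by
      rw [← E.per q (-⌊q.1⌋, 0)]
      congr 1
      ext <;> simp [lat, Int.fract, sub_eq_add_neg]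
    rw [e] at h1
    rw [hE₁, al_rot h1]
    refine mul_pos (Real.exp_pos _) (Real.cos_pos_of_mem_Ioo (abs_lt.1 ?_))
    rw [← one_sub_mul]
    by_cases h : xr r q.1 ≤ 8 / 10 ∨ 85 / 100 ≤ xr r q.1
    · exact (OS.abs_mul_le (by linarith [(m₄ q).2]) (by linarith [(m₄ q).1]) le_rfl).trans_lt (h2 h)
    · push Not at h
      rw [o₄ q h.1.le h.2.le, sub_self, zero_mul, abs_zero]
      positivity
  refine R.Loc.append (γ' := γ.trans ρ) ρ.symm (by
    rw [R.hc_trans, R.hc_symm, trans_assoc, trans_symm, trans_refl])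
    (R.PW.symm fun t q a b => by rw [(pρ t q).1]; exact hE q a b) ?_
  -- the pass
  obtain ⟨b, sb, pb, mb, ob, zb⟩ := bcut hr (a' := 6 / 10) (a := 75 / 100) (b := 9 / 10)
    (b' := 94 / 100) (by norm_num) (by norm_num) (by norm_num) (by norm_num)
  have bpos : ∀ q : Q, 0 ≤ 20 * b q - 1 → 6 / 10 < xr r q.1 ∧ xr r q.1 < 94 / 100 := fun q hq => by
    by_contra h
    rw [zb q ((not_and_or.1 h).imp not_lt.1 not_lt.1)] at hq
    norm_num at hq
  obtain ⟨F₂, hF₂, J₂, γ₂, e₂, p₂⟩ := hP c hn X f hf E₁ (γ.trans ρ) (fun q => 20 * b q - 1)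
    ((contDiff_const.mul sb).sub contDiff_const) (pb.comp fun y => 20 * y - 1)
    (fun q hq => by rw [zero (by linarith) (by linarith) zb q hq]; norm_num)
    (hN₁.mono fun q hq => ⟨by linarith [(bpos q hq).1], by linarith [(bpos q hq).2]⟩)
    (fun q hq => aE₁ q (by linarith [(bpos q hq).1]) (by linarith [(bpos q hq).2]))
    (fun q hq t => by
      have h : xr r q.1 ≤ 75 / 100 ∨ 9 / 10 ≤ xr r q.1 := by
        by_contra h
        push Not at h
        rw [ob q h.1.le h.2.le] at hq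
        norm_num at hq
      rw [E₁E q h]
      refine R.PW.trans (P := fun q' x => q' = q → x = E q) ?_ ?_ t q rfl
      · rintro t _ rfl
        exact hγ _ (h.imp (fun h => by linarith) fun h => by linarith) t
      · rintro t _ rfl
        exact (pρ t _).2 (by rw [z₄ _ h, zero_mul])) (ε / 3) (by positivity)
  have k₂ : ∀ q : Q, xr r q.1 ≤ 6 / 10 ∨ 94 / 100 ≤ xr r q.1 → ∀ t, γ₂ t q = E₁ q := fun q hq t =>
    (p₂ t q).2 (by rw [zb q hq]; norm_num)
  have a₂ : ∀ q : Q, 51 / 100 ≤ xr r q.1 → xr r q.1 ≤ 99 / 100 → ∀ t, 0 < al (γ₂ t q).2 :=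
    fun q a b' t => by
      rcases le_total 0 (20 * b q - 1) with h | h
      · exact (p₂ t q).1 h
      · rw [(p₂ t q).2 h]; exact aE₁ q a b'
  obtain ⟨m, hm, Hm⟩ := per_pos0 (band_closed r hr (51 / 100) (99 / 100) (by norm_num) (by norm_num))
    (band_per _ _ _) (g := fun q => al (dd c F₂ q).2)
    (continuous_al.comp hF₂.dd_smooth.continuous.snd) (hF₂.dd_per.comp fun A => al A.2)
    fun q hq => by simpa using a₂ q hq.1 hq.2 0
  -- the move
  obtain ⟨c₁, s₁, p₁, m₁, o₁, z₁⟩ := bcut hr (a' := 58 / 100) (a := 6 / 10) (b := 94 / 100)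
    (b' := 944 / 1000) (by norm_num) (by norm_num) (by norm_num) (by norm_num)
  obtain ⟨ν, sν, pν, mν, oν, zν⟩ := bcut hr (a' := 56 / 100) (a := 58 / 100) (b := 944 / 1000)
    (b' := 948 / 1000) (by norm_num) (by norm_num) (by norm_num) (by norm_num)
  obtain ⟨k, sk, pk, mk, ok, zk⟩ := bcut hr (a' := η / 4) (a := η / 2) (b := 1 - η / 2)
    (b' := 1 - η / 4) (by linarith) (by linarith) (by linarith) (by linarith)
  obtain ⟨g, sg, pg, mg, og, zg⟩ := bcut hr (a' := η / 16) (a := η / 8) (b := 1 - η / 8)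
    (b' := 1 - η / 16) (by linarith) (by linarith) (by linarith) (by linarith)
  have aw : ∀ q : Q, xr r q.1 < 56 / 100 ∨ 948 / 1000 < xr r q.1 → Away ν q := fun q =>
    away_band hr (by norm_num) (by norm_num) zν
  obtain ⟨F₃, hF₃, J₃, ζ, E', hs, Λ', sζ, pζ, hE', hI, hζ, e₃, pΛ', τ₃, un⟩ := hM c X F₂ hF₂ E₁ γ₂
    ν c₁ (fun q => 1 - g q) k (band r (57 / 100) (945 / 1000))
    {q | η / 16 ≤ xr r q.1 ∧ xr r q.1 ≤ 1 - η / 16} (band r (η / 8) (1 - η / 8)) sν pν mν
    s₁.continuous p₁ m₁ (continuous_const.sub sg.continuous) (pg.comp fun y => 1 - y)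
    (fun q => ⟨by linarith [(mg q).2], by linarith [(mg q).1]⟩) sk.continuous pk mk
    (band_closed r hr _ _ (by norm_num) (by norm_num))
    (fun q hq => z₁ q ((not_and_or.1 hq).imp (fun h => by linarith [not_le.1 h])
      fun h => by linarith [not_le.1 h]))
    (fun t q hq h0 => by
      have := a₂ q (by linarith [hq.1]) (by linarith [hq.2]) t
      simp [al, h0] at this)
    (fun q => by
      by_cases h : xr r q.1 ≤ 58 / 100 ∨ 944 / 1000 ≤ xr r q.1
      · exact Or.inr (z₁ q h)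
      · push Not at h
        exact Or.inl (oν q h.1.le h.2.le))
    (fun q hq => ⟨zero (by linarith) (by linarith) zν q hq, zero (by linarith) (by linarith) zk q hq⟩)
    (fun q => by
      by_cases h : xr r q.1 < η / 2 ∨ 1 - η / 2 < xr r q.1
      · exact Or.inr (aw q (h.imp (fun h => by linarith) fun h => by linarith))
      · push Not at h
        exact Or.inl (ok q h.1 h.2)) hN₁
    (fun q hq => ⟨dE₁ q hq.1 hq.2, by
      by_cases h : xr r q.1 ≤ 6 / 10 ∨ 94 / 100 ≤ xr r q.1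
      · exact Or.inr fun t => by rw [k₂ q h]; exact dE₁ q hq.1 hq.2
      · push Not at h
        exact Or.inl (o₁ q h.1.le h.2.le)⟩)
    (band_closed r hr _ _ (by linarith) (by linarith)) (band_per _ _ _)
    (fun q hq => ⟨by linarith [hq.1], by linarith [hq.2]⟩)
    (fun q hq => by rw [og q hq.1 hq.2, sub_self])
    (fun q hq => by
      rw [zg q ((not_and_or.1 hq).imp (fun h => (not_le.1 h).le) fun h => (not_le.1 h).le), sub_zero])
    (min (ε / 3) (m / 2)) (by positivity)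
  have u₃ : ∀ q : Q, xr r q.1 < 56 / 100 ∨ 948 / 1000 < xr r q.1 → dd c F₃ q = E₁ q := fun q hq => by
    rw [un q (aw q hq)]
    simpa using k₂ q (hq.imp (fun h => by linarith) fun h => by linarith) 0
  -- the beads
  obtain ⟨F₄, I₄, u₄, n₄, s₄', t₄⟩ := hB c F₃ hF₃.toIsEmb r hr ζ sζ pζ hI (fun q a b =>
    ⟨hζ q ⟨by linarith, by linarith⟩, fun x y => by
      have h1 := Hm q ⟨x, y⟩
      have h2 := abs_le.1 ((abs_al_le _).trans ((τ₃ q).trans (min_le_right _ _)))
      rw [al_sub] at h2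
      linarith [h2.1], fun x y => by
      rw [u₃ q (Or.inl (by linarith)), E₁E q (Or.inl (by linarith))]
      exact hα q x y, fun h => by
      rw [u₃ q (h.elim (fun h => Or.inl (by linarith)) fun h =>
        h.imp (fun h => by linarith [h.2]) fun h => by linarith)]
      exact dE₁ q (by linarith) (by linarith)⟩) (ε / 3) (by positivity)
  let J₄ : R.IsoR c X F₃ F₄ (ε / 3) := ⟨I₄, fun l q hq =>
    u₄ l q ((out q hq).imp (fun h => by linarith) fun h => by linarith), n₄⟩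
  have hF₄ := J₄.emb1R hF₃
  have un₄ : ∀ l (q : Q), xr r q.1 < η ∨ 1 - η < xr r q.1 → dd c (I₄.H l) q = dd c F₃ q :=
    fun l q hq => dd_congr_open c (band_closed r hr η (1 - η) e0.le (by linarith)).isOpen_compl
      (fun q hq => u₄ l q ((not_and_or.1 hq).imp (fun h => (not_le.1 h).le)
        fun h => (not_le.1 h).le)) fun h' => by rcases hq with hq | hq <;> linarith [h'.1, h'.2]
  set y : ℝ × Q → G × G := fun z => dd c (I₄.H z.1) z.2 +
    k z.2 • ((ζ z.2, (dd c (I₄.H z.1) z.2).2) - dd c (I₄.H z.1) z.2) with hy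
  have sy : ∀ l q, SegInj (dd c (I₄.H l) q) (y (l, q)) := fun l q =>
    Move.segInj_cut (s₄' l q) (mk q).1 (mk q).2
  have cH := I₄.dd_cont
  have fy : R.IsFam X y :=
    ⟨cH.add ((sk.continuous.comp continuous_snd).smul
      (((sζ.continuous.comp continuous_snd).prodMk cH.snd).sub cH)),
      fun s q m => by simp only [hy, (I₄.emb s).dd_per q m, pk q m, pζ q m],
      fun s q _ _ => by simpa using sy s q 1 zero_le_one le_rfl,
      fun s q _ _ hq => by
        simp only [hy, zero (by linarith) (by linarith) zk q hq, zero_smul, add_zero]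
        exact (J₄.embR hF₃ s).rel q hq⟩
  let E'' : R.II X := R.II.mk' (fun q => y (1, q))
    (fy.cont.comp (f := fun q => ((1 : ℝ), q)) (by fun_prop)) (fy.per 1)
    (fun q => fy.inj 1 q zero_le_one le_rfl) fun q => fy.rel 1 q zero_le_one le_rfl
  have y0 : ∀ l q, dd c (I₄.H l) q = dd c F₃ q → y (l, q) = E' q := fun l q h => by
    rw [hE']
    simp only [hy, h]
    ext1 <;> simp
  let Y : Path E' E'' := R.mkPath fy (fun q => y0 0 q (by rw [I₄.h0])) fun q => rfl
  have s₅ : ∀ q, SegInj (hF₄.d q) (E'' q) := fun q => by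
    have := sy 1 q
    rwa [I₄.h1] at this
  have q4 := R.seg_square (J₄.path hF₃ hF₄) Y (fun t q => sy t q) hs s₅
  have dΛ : R.PW Λ' fun q x => η / 16 ≤ xr r q.1 → xr r q.1 ≤ 1 - η / 16 → 0 < dl x :=
    fun t q a b => by
      by_cases h : xr r q.1 ≤ η / 4 ∨ 1 - η / 4 ≤ xr r q.1
      · obtain ⟨t', ht'⟩ := (pΛ' t q).2 (zk q h)
        rw [ht', k₂ q (h.imp (fun h => by linarith) fun h => by linarith)]
        exact dE₁ q a b
      · push Not at h
        exact (pΛ' t q).1 ⟨by linarith [h.1], by linarith [h.2]⟩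
  have dy : ∀ l (q : Q), η / 16 ≤ xr r q.1 → xr r q.1 ≤ 1 - η / 16 → 0 < dl (y (l, q)) :=
    fun l q a b => by
      by_cases h : xr r q.1 < η / 2 ∨ 1 - η / 2 < xr r q.1
      · rw [y0 l q (un₄ l q (h.imp (fun h => by linarith) fun h => by linarith))]
        exact dΛ.source q a b
      · push Not at h
        simpa [hy, ok q h.1 h.2] using (t₄ q h.1 h.2).1 l
  refine R.Loc.mono (ε := ε / 3 + min (ε / 3) (m / 2) + ε / 3) ⟨F₄, hF₄, (J₂.trans J₃).trans J₄,
    (R.seg hF₄.d E'' s₅).trans (Y.symm.trans Λ'), ?_,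
    R.PW.trans (R.pw_seg fun q u u0 u1 a b => ?_) (R.PW.trans (R.PW.symm fun t q => dy t q) dΛ)⟩
    (fun _ _ h => h) (by linarith [min_le_left (ε / 3) (m / 2)])
  · rw [R.IsoR.path_trans _ _ hf hF₃ hF₄, R.IsoR.path_trans _ _ hf hF₂ hF₃, R.hc_trans,
      R.hc_trans, R.hc_symm, trans_assoc, trans_assoc, ← trans_assoc (R.hc (J₄.path hF₃ hF₄)), q4,
      trans_assoc, R.q_cancel₁, e₃, e₂]
  · refine Move.dl_cut (by simp [hy, I₄.h1]) ?_ (dy 1 q a b) u0 u1
    by_cases h : xr r q.1 < η / 2 ∨ 1 - η / 2 < xr r q.1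
    · have := un₄ 1 q (h.imp (fun h => by linarith) fun h => by linarith)
      rw [I₄.h1] at this
      rw [R.Emb.d_apply, this, u₃ q (h.imp (fun h => by linarith) fun h => by linarith)]
      exact dE₁ q a b
    · push Not at h
      exact (t₄ q h.1 h.2).2

end Pool.Agent.Lib.MP_72f1d0_gt
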