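import Mathlib
import Pool.Agent.Lib.MP_72f1d0_gt.BeadProfile

/-!
The bead profile with additional information near the point `1 / 4`.
-/

open scoped ContDiff Topology
open Complex (I)

namespace Pool.Agent.Lib.MP_72f1d0_gt
namespace RelP

open BeadP

/-- Additional properties of the building blocks. -/
def Extra {M L : ℝ} (D : Base M L) : Prop :=
  D.B = Bf ∧ D.β = βf ∧ (∀ θ, D.T θ = 0 → D.k θ = 0) ∧
    (∀ θ, |Cz θ| ≤ 1 / 10 → D.V θ = 0 ∧ D.E θ = 0 ∧ D.V1 θ = 0 ∧ D.E1 θ = 0) ∧ ∀ θ, D.a θ ≤ L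

theorem base_extra {L0 : ℝ} (hL : ∀ y, deriv st y ≤ L0) (m : ℕ) (hm : 350 ≤ m) :
    ∃ D : Base (2 * m) (280 * L0), Extra D := by
  set M : ℝ := 2 * m with hMdef
  have hm' : (350 : ℝ) ≤ m := by exact_mod_cast hm
  have hM : 700 ≤ M := by rw [hMdef]; linarith
  have hM0 : 0 < M := by linarith
  obtain ⟨N, hN0, hN⟩ := exists_prim (Tz M) ⌊M * (1 / 4)⌋
  obtain ⟨P, -, hP⟩ := exists_prim (fun j => |Tz M j|) 0
  have hT2 : ∀ j, Tz M (j + m) = -Tz M j := Tz_half (by omega)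
  have hTM : ∀ j, Tz M (j + 2 * m) = Tz M j := fun j => by
    rw [show j + 2 * m = (j + m) + m by ring, hT2, hT2, neg_neg]
  have hNm : ∀ j, N (j + m) + N j = N (0 + m) + N 0 :=
    const_of_step (fun j => N (j + m) + N j) fun j => by
      show N (j + 1 + m) + N (j + 1) = N (j + m) + N j
      rw [show j + 1 + m = (j + m) + 1 by ring, hN, hN, hT2]; ring
  have hNM : ∀ j, N (j + 2 * m) = N j := fun j => by
    have h1 := hNm j
    have h2 := hNm (j + m)
    rw [show j + m + m = j + 2 * m by ring] at h2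
    linarith
  have hfl : ∀ θ : ℝ, ⌊M * (θ + 1)⌋ = ⌊M * θ⌋ + 2 * m := fun θ => by
    rw [show M * (θ + 1) = M * θ + ((2 * m : ℤ) : ℝ) by rw [hMdef]; push_cast; ring,
      Int.floor_add_intCast]
  have hfr : ∀ θ : ℝ, Int.fract (M * (θ + 1)) = Int.fract (M * θ) := fun θ => by
    rw [show M * (θ + 1) = M * θ + ((2 * m : ℤ) : ℝ) by rw [hMdef]; push_cast; ring,
      Int.fract_add_intCast]
  have hsf : ∀ p w θ : ℝ, sf p w (M * (θ + 1)) = sf p w (M * θ) := fun p w θ => by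
    unfold sf; rw [hfr]
  have hNd : ∀ j, ((N (j + 1) : ℤ) : ℝ) - (N j : ℝ) = (Tz M j : ℝ) := fun j => by
    rw [hN]; push_cast; ring
  have hPd : ∀ j, ((P (j + 1) : ℤ) : ℝ) - (P j : ℝ) = |(Tz M j : ℝ)| := fun j => by
    rw [hP]; push_cast; ring
  have pα : ∀ θ, αf M (θ + 1) = αf M θ := fun θ => by
    apply mul_left_cancel₀ hM0.ne'
    rw [αf_eq hM0.ne', αf_eq hM0.ne', hsf, hsf, hfr]
  have pcs : ∀ θ, cs M (θ + 1) = cs M θ := fun θ => by
    unfold cs
    rw [pα, show θ + 1 + αf M θ = θ + αf M θ + 1 by ring, Cz_add_one]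
  have pT : ∀ θ, Tf M (θ + 1) = Tf M θ := fun θ => by
    unfold Tf; rw [hfl, hTM]
  have hPhe : ∀ θ, Phf M (fun j => (N j : ℝ)) θ =
      N ⌊M * θ⌋ + Tf M θ * sf (2 / 5) (1 / 5) (M * θ) := fun θ => by
    unfold Phf stair Tf
    rw [hNd]
  have pPh : ∀ θ, Phf M (fun j => (N j : ℝ)) (θ + 1) = Phf M (fun j => (N j : ℝ)) θ := fun θ => by
    rw [hPhe, hPhe, hfl, hNM, pT, hsf]
  have dPh : ∀ θ, HasDerivAt (Phf M fun j => (N j : ℝ)) (M * Tf M θ * φf M θ) θ := fun θ => by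
    refine HasDerivAt.congr_deriv (stairM_hasDeriv M (fun j => (N j : ℝ)) (p := 2 / 5)
      (w := 1 / 5) (by norm_num) (by norm_num) (by norm_num) θ) ?_
    rw [hNd]; unfold Tf φf; ring
  have Tc : ∀ θ, (Tf M θ = 1 ∧ 1 / 5 ≤ cs M θ) ∨ (Tf M θ = 0 ∧ |Cz θ| ≤ 13 / 50) ∨
      (Tf M θ = -1 ∧ cs M θ ≤ -(1 / 5)) := fun θ => by
    have a1 := abs_le.1 (near_floor hM θ)
    have a2 := abs_le.1 (near_cs hM θ)
    unfold Tf
    rcases Tz_cases M ⌊M * θ⌋ with h | h | h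
    · exact Or.inl ⟨by rw [h.1]; simp, by linarith [h.2]⟩
    · have a3 := abs_lt.1 h.2
      exact Or.inr (Or.inl ⟨by rw [h.1]; simp, abs_le.2 ⟨by linarith, by linarith⟩⟩)
    · exact Or.inr (Or.inr ⟨by rw [h.1]; simp, by linarith [h.2]⟩)
  have hβT : ∀ θ, Tf M θ ≠ 0 → βf θ = 0 := fun θ h => by
    by_cases h1 : Int.fract θ ≤ 6 / 25
    · exact (sf_left (by norm_num) h1).2
    by_cases h2 : 13 / 50 ≤ Int.fract θ
    · exact (sf_right (by norm_num) (by linarith)).2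
    exact absurd (Tf_zero hM (by linarith) (by linarith)) h
  have x1 : ∀ θ, Tf M θ = 0 → kf M (fun j => (P j : ℝ)) θ = 0 := fun θ h => by
    apply mul_left_cancel₀ hM0.ne'
    rw [kf_eq hM0.ne', hPd]
    unfold Tf at h
    rw [h]
    simp
  have x2 : ∀ θ, |Cz θ| ≤ 1 / 10 → Ep M θ + Em M θ = 0 ∧ Ep M θ - Em M θ = 0 ∧
      Ep1 M θ + Em1 M θ = 0 ∧ Ep1 M θ - Em1 M θ = 0 := fun θ h => by
    have a1 := abs_le.1 h
    have a2 := abs_le.1 (near_cs hM θ)
    have e1 := Ep_zero (M := M) (θ := θ) (by linarith)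
    have e2 := Em_zero (M := M) (θ := θ) (by linarith)
    simp only [e1.1, e1.2, e2.1, e2.2]
    norm_num
  have x3 : ∀ θ, af M θ ≤ 280 * L0 := fun θ => by
    have b1 := hL ((Int.fract (M * θ) - 1 / 20) / (1 / 5))
    have b2 := hL ((Int.fract (M * θ) - 3 / 4) / (1 / 5))
    have b3 := (st_d_nonneg 0).trans (hL 0)
    unfold af bf
    linarith
  refine ⟨{
    α := αf M, a := af M, k := kf M fun j => (P j : ℝ), φ := φf M,
    Ph := Phf M fun j => (N j : ℝ), T := Tf M, B := Bf, β := βf,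
    V := fun θ => Ep M θ + Em M θ, E := fun θ => Ep M θ - Em M θ,
    V1 := fun θ => Ep1 M θ + Em1 M θ, E1 := fun θ => Ep1 M θ - Em1 M θ,
    sα := αf_smooth M, sk := ?_, sPh := ?_, sB := ?_, sV := ?_, sE := ?_,
    pα := pα, pk := ?_, pPh := pPh, pB := ?_, pV := ?_, pE := ?_,
    dα := αf_hasDeriv hM0.ne', dk := ?_, dPh := dPh, dB := ?_, dV := ?_, dE := ?_,
    a0 := ?_, φ0 := ?_, β0 := ?_, bα := αf_bound hM0, bk := ?_, bB := ?_,
    V0 := ?_, Vle := ?_, EV := ?_, bV1 := ?_, bE1 := ?_, EV1 := ?_, Tc := ?_, zone := ?_,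
    Tne := ?_, coil := ?_, bulk := ?_ }, rfl, rfl, x1, x2, x3⟩
  · exact ((((stairM_smooth M _ (by norm_num) (by norm_num) (by norm_num)).add
      (stairM_smooth M _ (by norm_num) (by norm_num) (by norm_num))).div_const 2).sub
      (stairM_smooth M _ (by norm_num) (by norm_num) (by norm_num))).div_const M
  · exact stairM_smooth M _ (by norm_num) (by norm_num) (by norm_num)
  · exact ((stair_smooth _ (by norm_num) (by norm_num) (by norm_num)).sub contDiff_id).sub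
      contDiff_const
  · exact (st_smooth.comp ((contDiff_const.mul (cs_smooth M)).sub contDiff_const)).add
      (st_smooth.comp ((contDiff_const.mul (cs_smooth M)).sub contDiff_const))
  · exact (st_smooth.comp ((contDiff_const.mul (cs_smooth M)).sub contDiff_const)).sub
      (st_smooth.comp ((contDiff_const.mul (cs_smooth M)).sub contDiff_const))
  · intro θ
    apply mul_left_cancel₀ hM0.ne'
    rw [kf_eq hM0.ne', kf_eq hM0.ne', hsf, hsf, hsf, hPd, hPd, hfl, hTM]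
  · intro θ
    unfold Bf stair sf
    rw [Int.floor_add_one, Int.fract_add_one]
    push_cast
    ring
  · intro θ
    simp only [Ep, Em, pcs]
  · intro θ
    simp only [Ep, Em, pcs]
  · intro θ
    have h := ((((stairM_hasDeriv M (fun j => (P j : ℝ)) (p := 1 / 20) (w := 1 / 5) (by norm_num)
      (by norm_num) (by norm_num) θ).add (stairM_hasDeriv M (fun j => (P j : ℝ)) (p := 3 / 4)
      (w := 1 / 5) (by norm_num) (by norm_num) (by norm_num) θ)).div_const 2).sub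
      (stairM_hasDeriv M (fun j => (P j : ℝ)) (p := 2 / 5) (w := 1 / 5) (by norm_num)
      (by norm_num) (by norm_num) θ)).div_const M
    refine HasDerivAt.congr_deriv h ?_
    rw [hPd]
    unfold af φf Tf
    field_simp
  · intro θ
    have h := ((stair_hasDeriv Int.cast (p := 6 / 25) (w := 1 / 50) (by norm_num) (by norm_num)
      (by norm_num) θ).sub (hasDerivAt_id θ)).sub_const (1 / 4)
    refine HasDerivAt.congr_deriv h ?_
    unfold βf
    push_cast
    ring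
  · intro θ
    refine HasDerivAt.congr_deriv ((Ep_hasDeriv hM0.ne' θ).add (Em_hasDeriv hM0.ne' θ)) ?_
    ring
  · intro θ
    refine HasDerivAt.congr_deriv ((Ep_hasDeriv hM0.ne' θ).sub (Em_hasDeriv hM0.ne' θ)) ?_
    ring
  · intro θ
    exact div_nonneg (add_nonneg (bf_nonneg _ (by norm_num) _) (bf_nonneg _ (by norm_num) _))
      (by norm_num)
  · exact fun θ => bf_nonneg _ (by norm_num) _
  · exact fun θ => bf_nonneg _ (by norm_num) _
  · intro θ
    rw [← abs_of_pos hM0, ← abs_mul, abs_of_pos hM0, kf_eq hM0.ne', hPd, abs_mul, abs_abs]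
    have := sf_nonneg (1 / 20) (1 / 5) (M * θ)
    have := sf_le_one (1 / 20) (1 / 5) (M * θ)
    have := sf_nonneg (3 / 4) (1 / 5) (M * θ)
    have := sf_le_one (3 / 4) (1 / 5) (M * θ)
    have := sf_nonneg (2 / 5) (1 / 5) (M * θ)
    have := sf_le_one (2 / 5) (1 / 5) (M * θ)
    have h1 : |(Tz M ⌊M * θ⌋ : ℝ)| ≤ 1 := by
      rcases Tz_cases M ⌊M * θ⌋ with h | h | h <;> rw [h.1] <;> simp
    exact mul_le_one₀ h1 (abs_nonneg _) (abs_le.2 ⟨by linarith, by linarith⟩)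
  · intro θ
    unfold Bf stair
    have := sf_nonneg (6 / 25) (1 / 50) θ
    have := sf_le_one (6 / 25) (1 / 50) θ
    have := Int.floor_le θ
    have := Int.lt_floor_add_one θ
    push_cast
    exact abs_le.2 ⟨by linarith, by linarith⟩
  · exact fun θ => add_nonneg (st_nonneg _) (st_nonneg _)
  · intro θ
    have h1 : Ep M θ ≤ 1 := st_le_one _
    have h2 : Em M θ ≤ 1 := st_le_one _
    rcases E_dich M θ with h | h <;> simp only [h.1] <;> linarith
  · intro θ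
    have h1 : 0 ≤ Ep M θ := st_nonneg _
    have h2 : 0 ≤ Em M θ := st_nonneg _
    rcases E_dich M θ with h | h <;> simp only [h.1]
    · rw [zero_sub, abs_neg, abs_of_nonneg h2, zero_add]
    · rw [sub_zero, abs_of_nonneg h1, add_zero]
  · intro θ
    have h := E1_bound hL M θ
    exact (abs_add_le _ _).trans (by linarith [h.1, h.2])
  · intro θ
    have h := E1_bound hL M θ
    exact (abs_sub _ _).trans (by linarith [h.1, h.2])
  · intro θ
    rcases E_dich M θ with h | h <;> simp only [h.1, h.2] <;> ring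
  · intro θ
    rcases Tc θ with h | h | h
    · exact Or.inl h.1
    · exact Or.inr (Or.inl h.1)
    · exact Or.inr (Or.inr h.1)
  · intro θ s hs
    have a1 := abs_le.1 (near hM hs)
    have a2 := abs_le.1 (near_cs hM θ)
    have h1 : 0 ≤ Ep M θ := st_nonneg _
    have h2 : 0 ≤ Em M θ := st_nonneg _
    refine ⟨fun h0 => ?_, fun hE => ?_, fun hE => ?_⟩
    · rcases Tc θ with h | h | h
      · rw [h.1] at h0; norm_num at h0
      · have a3 := abs_le.1 h.2
        exact abs_le.2 ⟨by linarith, by linarith⟩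
      · rw [h.1] at h0; norm_num at h0
    · by_contra hc
      have := (Ep_zero (M := M) (θ := θ) (by linarith)).1
      linarith
    · by_contra hc
      have := (Em_zero (M := M) (θ := θ) (by linarith)).1
      linarith
  · intro θ h0
    rcases Tc θ with h | h | h
    · have e1 := Ep_one h.2
      have e2 := Em_zero (M := M) (θ := θ) (by linarith [h.2])
      simp only [e1.1, e1.2, e2.1, e2.2, h.1, hβT θ h0]
      norm_num
    · exact absurd h.1 h0
    · have e1 := Em_one h.2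
      have e2 := Ep_zero (M := M) (θ := θ) (by linarith [h.2])
      simp only [e1.1, e1.2, e2.1, e2.2, h.1, hβT θ h0]
      norm_num
  · intro θ
    by_cases h0 : Tf M θ = 0
    · exact Or.inl ⟨by rw [h0, zero_mul], N ⌊M * θ⌋, by rw [hPhe, h0]; ring⟩
    by_cases h1 : Int.fract (M * θ) ≤ 2 / 5
    · have hs := sf_left (w := 1 / 5) (by norm_num) h1
      exact Or.inl ⟨by rw [φf, hs.2, mul_zero], N ⌊M * θ⌋, by rw [hPhe, hs.1]; ring⟩
    by_cases h2 : 2 / 5 + 1 / 5 ≤ Int.fract (M * θ)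
    · have hs := sf_right (by norm_num) h2
      refine Or.inl ⟨by rw [φf, hs.2, mul_zero], N (⌊M * θ⌋ + 1), ?_⟩
      rw [hPhe, hs.1, hN, Tf]; push_cast; ring
    right
    push Not at h1 h2
    rw [Int.fract] at h1 h2
    set j := ⌊M * θ⌋ with hj
    have ep : M * ((j + 1 / 4) / M) = j + 1 / 4 := mul_div_cancel₀ _ hM0.ne'
    have eq : M * ((j + 3 / 4) / M) = j + 3 / 4 := mul_div_cancel₀ _ hM0.ne'
    refine ⟨(j + 1 / 4) / M, (j + 3 / 4) / M, by rw [div_le_iff₀ hM0]; linarith,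
      by rw [le_div_iff₀ hM0]; linarith, ?_, ?_, ?_, fun t ht => ?_⟩
    · rw [← abs_of_pos hM0, ← abs_mul, abs_of_pos hM0,
        (cell_mid hM0 j (t := θ) (by linarith) (by linarith)).2.2]
      exact abs_le.2 ⟨by linarith, by linarith⟩
    · rw [(cell_mid hM0 j (by rw [ep]) (by rw [ep]; linarith)).2.2, ep]; ring
    · rw [(cell_mid hM0 j (by rw [eq]; linarith) (by rw [eq])).2.2, eq]; ring
    · have b1 := (div_le_iff₀ hM0).1 ht.1
      have b2 := (le_div_iff₀ hM0).1 ht.2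
      have c := cell_mid hM0 j (t := t) (by linarith) (by linarith)
      exact ⟨by unfold Tf at h0 ⊢; rw [c.1]; exact h0, c.2.1⟩
  · intro θ
    by_cases hB : 6 / 25 ≤ Int.fract θ ∧ Int.fract θ ≤ 13 / 50
    · refine Or.inl ⟨Tf_zero hM hB.1 hB.2, ?_⟩
      have hz : ∀ t ∈ Set.Icc (6 / 25 : ℝ) (13 / 50), M * Tf M t * φf M t = 0 := fun t ht => by
        have hfr : Int.fract t = t := Int.fract_eq_self.2 ⟨by linarith [ht.1], by linarith [ht.2]⟩
        rw [Tf_zero hM (by rw [hfr]; exact ht.1) (by rw [hfr]; exact ht.2)]; ring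
      have m1 := monoOn dPh fun t ht => (hz t ht).ge
      have m2 := antiOn dPh fun t ht => (hz t ht).le
      have q4 : (1 / 4 : ℝ) ∈ Set.Icc (6 / 25 : ℝ) (13 / 50) := ⟨by norm_num, by norm_num⟩
      have hq : Phf M (fun j => (N j : ℝ)) (1 / 4) = 0 := by
        have hfr : Int.fract (1 / 4 : ℝ) = 1 / 4 := Int.fract_eq_self.2 ⟨by norm_num, by norm_num⟩
        rw [hPhe, hN0, Tf_zero hM (by rw [hfr]; norm_num) (by rw [hfr]; norm_num)]
        simp
      rw [← per_fract pPh θ, ← hq]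
      rcases le_total (Int.fract θ) (1 / 4) with h | h
      · exact le_antisymm (m1 hB q4 h) (m2 hB q4 h)
      · exact le_antisymm (m2 q4 hB h) (m1 q4 hB h)
    · right
      obtain ⟨k, hk1, hk2⟩ : ∃ k : ℤ, (k : ℝ) + 13 / 50 ≤ θ ∧ θ ≤ k + 31 / 25 := by
        have f0 := Int.fract_nonneg θ
        have f1 := Int.fract_lt_one θ
        rw [not_and_or, not_le, not_le] at hB
        rw [Int.fract] at hB f0 f1
        rcases hB with h | h
        · exact ⟨⌊θ⌋ - 1, by push_cast; linarith, by push_cast; linarith⟩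
        · exact ⟨⌊θ⌋, by linarith, by linarith⟩
      have f1 : Int.fract ((k : ℝ) + 13 / 50) = 13 / 50 := by
        rw [Int.fract_intCast_add]; exact Int.fract_eq_self.2 ⟨by norm_num, by norm_num⟩
      have f2 : Int.fract ((k : ℝ) + 31 / 25) = 6 / 25 := by
        rw [show (k : ℝ) + 31 / 25 = ((k + 1 : ℤ) : ℝ) + 6 / 25 by push_cast; ring,
          Int.fract_intCast_add]
        exact Int.fract_eq_self.2 ⟨by norm_num, by norm_num⟩
      refine ⟨k + 13 / 50, k + 31 / 25, hk1, hk2, Tf_zero hM (by rw [f1]; norm_num) (by rw [f1]),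
        Tf_zero hM (by rw [f2]) (by rw [f2]; norm_num), ?_, ?_, fun t ht => (B_out k ht.1 ht.2).2⟩
      · rw [(B_out k hk1 hk2).1, (B_out k le_rfl (by linarith)).1]
        exact abs_le.2 ⟨by linarith, by linarith⟩
      · rw [(B_out k (by linarith) le_rfl).1, (B_out k le_rfl (by linarith)).1]
        ring

theorem params {L : ℝ} {W : ℝ → Prop} (hB : ∀ M0 : ℝ, ∃ M : ℝ, M0 ≤ M ∧ W M)
    {H κ0 κ1 b0 C ρ0 : ℝ} (hH : 0 < H) (hκ0 : 0 < κ0) (hb0 : 0 < b0) (hC : 0 < C)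
    (hρ0 : 0 < ρ0) : ∃ (M ε : ℝ) (n : BeadP.Num), n.H = H ∧ W M ∧ Small M L ρ0 n ∧
      Tiny M n C ε κ0 κ1 b0 := by
  obtain ⟨ε, ⟨⟨e1, e2⟩, e3⟩, e0⟩ := ((((ev_small (H + 3) (by norm_num : (0 : ℝ) < 1 / 4)).and
    (ev_small 100 hκ0)).and (ev_small 8 hb0)).and self_mem_nhdsWithin).exists
  have e0 : 0 < ε := e0
  obtain ⟨M, hM, hD⟩ := hB (max (max 1 L) (max (4 * C * (H + 2) / ε) (4 * (H + 2) / ρ0)))
  simp only [max_le_iff] at hM
  obtain ⟨⟨M1, M2⟩, M3, M4⟩ := hM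
  have M0 : 0 < M := by linarith
  obtain ⟨ρ, ⟨⟨⟨⟨r1, r2⟩, r3⟩, r4⟩, r5⟩, r0⟩ :=
    ((((((ev_small M (by norm_num : (0 : ℝ) < 1 / 160)).and (ev_small (75 * M) hρ0)).and
      (ev_small (22 * C) e0)).and (ev_small (10 * |κ1|) (by norm_num : (0 : ℝ) < 1 / 4))).and
      (ev_small (10 * |κ1|) (by positivity : 0 < b0 / 16))).and self_mem_nhdsWithin).exists
  have r0 : 0 < ρ := r0
  obtain ⟨N, hN⟩ := exists_nat_ge (max (1 / (ρ * M)) (4 * (H + 2) / (κ0 * (ρ * (ρ * M)))))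
  simp only [max_le_iff] at hN
  obtain ⟨N1, N2⟩ := hN
  have N3 : (N : ℝ) ≤ 2 * Real.pi * N :=
    le_mul_of_one_le_left (Nat.cast_nonneg N) (by linarith [Real.pi_gt_three])
  obtain ⟨e, ⟨⟨⟨⟨f1, f2⟩, f3⟩, f4⟩, f5⟩, f0⟩ :=
    ((((((ev_small 1 (by positivity : 0 < ρ * M)).and (ev_small (4 * (H + 1)) hρ0)).and
      (ev_small (H + 1) (by norm_num : (0 : ℝ) < 1 / 16))).and
      (ev_small (H + 1) (by positivity : 0 < b0 / 32))).and
      (ev_small (H + 1) (by positivity : 0 < κ0 * (ρ * (ρ * M))))).and self_mem_nhdsWithin).exists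
  have f0 : 0 < e := f0
  have kk : 10 * κ1 * (ρ * (ρ * M)) ≤ 10 * |κ1| * ρ := by
    have h1 : ρ * (ρ * M) ≤ ρ := mul_le_of_le_one_right r0.le (by linarith)
    exact mul_le_mul (by linarith [le_abs_self κ1]) h1 (by positivity) (by positivity)
  refine ⟨M, ε, ⟨H, ρ, e, 2 * Real.pi * N⟩, rfl, hD,
    ⟨M1, hH, r0, f0, M2, by linarith, by linarith, ?_, fun z => ?_, ?_, by linarith⟩,
    ⟨hC, hκ0, hb0, ?_, by linarith, e2, e3, by linarith, by linarith, by linarith, by linarith,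
      by linarith, ?_⟩⟩
  · exact (div_le_iff₀ (by positivity)).1 (N1.trans N3)
  · have : 2 * Real.pi * N * z = ((N * z : ℤ) : ℝ) * (2 * Real.pi) := by push_cast; ring
    simp only [this]
    refine ⟨Real.cos_int_mul_two_pi _, ?_⟩
    rw [show ((N * z : ℤ) : ℝ) * (2 * Real.pi) = ((N * z * 2 : ℤ) : ℝ) * Real.pi by
      push_cast; ring]
    exact Real.sin_int_mul_pi _
  · have h1 := (div_le_iff₀ hρ0).1 M4
    have h2 : 2 * (H + 2) / M ≤ ρ0 / 2 := by rw [div_le_iff₀ M0]; linarith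
    simp only
    linarith
  · have h1 := (div_le_iff₀ e0).1 M3
    have h2 : C * (2 * (H + 2) / M) ≤ ε / 2 := by
      rw [← mul_div_assoc, div_le_iff₀ M0]; linarith
    simp only
    linarith
  · have h1 := (div_le_iff₀ (by positivity)).1 (N2.trans N3)
    simp only
    linarith

theorem st_half : st (1 / 2) = 1 / 2 := by
  have h : 0 < expNegInvGlue (1 / 2) := expNegInvGlue.pos_of_pos (by norm_num)
  rw [st, Real.smoothTransition, show (1 : ℝ) - 1 / 2 = 1 / 2 by norm_num]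
  field_simp
  norm_num

theorem st_d_half : deriv st (1 / 2) = 2 := by
  have e : ∀ x : ℝ, 0 < x → expNegInvGlue x = Real.exp (-x⁻¹) := fun x hx => by
    rw [expNegInvGlue, if_neg (not_le.2 hx)]
  have h1 : HasDerivAt expNegInvGlue (Real.exp (-2) * 4) (1 / 2) := by
    have h := (hasDerivAt_inv (x := (1 / 2 : ℝ)) (by norm_num)).neg.exp
    refine (h.congr_deriv (by norm_num)).congr_of_eventuallyEq ?_
    filter_upwards [Ioi_mem_nhds (by norm_num : (0 : ℝ) < 1 / 2)] with x hx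
    exact e x hx
  have h2 : HasDerivAt (fun x : ℝ => expNegInvGlue (1 - x)) (Real.exp (-2) * 4 * -1) (1 / 2) := by
    have h0 : HasDerivAt expNegInvGlue (Real.exp (-2) * 4) (1 - id (1 / 2)) := by
      rw [show (1 : ℝ) - id (1 / 2) = 1 / 2 by norm_num]
      exact h1
    exact h0.comp (1 / 2 : ℝ) ((hasDerivAt_id (1 / 2 : ℝ)).const_sub 1)
  have e2 : expNegInvGlue (1 / 2) = Real.exp (-2) := by rw [e _ (by norm_num)]; norm_num
  have e3 : expNegInvGlue (1 - 1 / 2) = Real.exp (-2) := by rw [e _ (by norm_num)]; norm_num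
  have p := Real.exp_pos (-2)
  have h3 := h1.div (h1.add h2) (by simp only [Pi.add_apply, e2, e3]; positivity)
  refine (h3.congr_deriv ?_).deriv
  simp only [Pi.add_apply, e2, e3]
  field_simp
  norm_num

theorem exists_delta : ∃ δ : ℝ, 0 < δ ∧ δ ≤ 1 / 100 ∧
    (∀ (θ : ℝ) (k : ℤ), |θ - k - 1 / 4| ≤ δ → 1 ≤ βf θ ∧ |Cz θ| ≤ 1 / 10) ∧
    ∀ k : ℤ, 0 ≤ Bf (k + 1 / 4 + δ) ∧ Bf (k + 1 / 4 - δ) ≤ 0 := by
  have hc : Continuous (deriv st) := st_smooth.continuous_deriv (by simp)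
  obtain ⟨ε, e0, he⟩ := Metric.continuousAt_iff.1 (hc.continuousAt (x := 1 / 2)) 1 one_pos
  obtain ⟨δ, d0, d1, d2⟩ : ∃ δ : ℝ, 0 < δ ∧ δ ≤ 1 / 100 ∧ 50 * δ < ε :=
    ⟨min (1 / 100) (ε / 100), by positivity, min_le_left _ _, by
      linarith [min_le_right (1 / 100) (ε / 100)]⟩
  have key : ∀ (θ : ℝ) (k : ℤ), |θ - k - 1 / 4| ≤ δ → 1 ≤ βf θ := fun θ k h => by
    have a := abs_le.1 h
    have hf : ⌊θ⌋ = k := Int.floor_eq_iff.2 ⟨by linarith, by linarith⟩
    have := he (x := (Int.fract θ - 6 / 25) / (1 / 50)) (by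
      rw [Real.dist_eq, Int.fract, hf]
      exact abs_lt.2 ⟨by linarith, by linarith⟩)
    rw [Real.dist_eq, st_d_half] at this
    have := abs_lt.1 this
    unfold βf bf
    linarith
  have dB : ∀ θ, HasDerivAt Bf (βf θ - 1) θ := fun θ => by
    have h := ((stair_hasDeriv Int.cast (p := 6 / 25) (w := 1 / 50) (by norm_num) (by norm_num)
      (by norm_num) θ).sub (hasDerivAt_id θ)).sub_const (1 / 4)
    refine HasDerivAt.congr_deriv h ?_
    unfold βf
    push_cast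
    ring
  refine ⟨δ, d0, d1, fun θ k h => ⟨key θ k h, ?_⟩, fun k => ?_⟩
  · have hp : Function.Periodic Cz 1 := Cz_add_one
    have h1 := Cz_lip (θ - k * 1) (1 / 4)
    rw [hp.sub_int_mul_eq, Cz_quarter, sub_zero, mul_one] at h1
    linarith
  · have m := monoOn dB (p := k + 1 / 4 - δ) (q := k + 1 / 4 + δ) fun t ht =>
      sub_nonneg.2 (key t k (abs_le.2 ⟨by linarith [ht.1], by linarith [ht.2]⟩))
    have z : Bf (k + 1 / 4) = 0 := by
      have f1 : Int.fract ((k : ℝ) + 1 / 4) = 1 / 4 := by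
        rw [Int.fract_intCast_add]; exact Int.fract_eq_self.2 ⟨by norm_num, by norm_num⟩
      have f2 : ⌊(k : ℝ) + 1 / 4⌋ = k := Int.floor_eq_iff.2 ⟨by linarith, by linarith⟩
      unfold Bf stair sf
      rw [f1, f2, show ((1 : ℝ) / 4 - 6 / 25) / (1 / 50) = 1 / 2 by norm_num, st_half]
      push_cast
      ring
    rw [← z]
    exact ⟨m ⟨by linarith, by linarith⟩ ⟨by linarith, le_rfl⟩ (by linarith),
      m ⟨le_rfl, by linarith⟩ ⟨by linarith, by linarith⟩ (by linarith)⟩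

theorem Al_ok (l : ℝ) : (Al l).Ok := by
  have m := Real.smoothTransition.monotone
  have a1 := st_nonneg (1 - 4 * l)
  have a2 : st (1 - 4 * l) ≤ st (3 - 4 * l) := m (by linarith)
  have a3 : st (3 - 4 * l) ≤ st (4 - 4 * l) := m (by linarith)
  have a4 := st_le_one (4 - 4 * l)
  have a5 := st_le_one (2 - 4 * l)
  constructor <;> simp only [Al]
  · exact mul_nonneg (by linarith) (by linarith)
  · linarith
  · exact mul_nonneg (by linarith) (by linarith)
  · linarith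
  · linarith
  · exact mul_nonneg (by linarith) (by linarith)
  · linarith
  · nlinarith
  · nlinarith
  · nlinarith
  · nlinarith
  · by_cases h : 3 / 4 ≤ l
    · rw [st_zero (y := 3 - 4 * l) (by linarith), st_zero (y := 2 - 4 * l) (by linarith)]
      linarith
    · rw [st_one (y := 4 - 4 * l) (by linarith), sub_self]
      exact mul_nonneg (by linarith) (by linarith)

theorem adm_mono {H Ca ρ ρ' : ℝ} {σ h : ℝ → ℝ → ℝ} {g : ℝ → ℝ → ℂ} (F : AdmFam H Ca ρ σ h g)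
    (hρ : ρ ≤ ρ') : AdmFam H Ca ρ' σ h g :=
  { F with adm := fun l => { F.adm l with
      small := fun θ => ⟨((F.adm l).small θ).1.trans hρ, ((F.adm l).small θ).2.trans hρ⟩ } }

theorem bead_rel : ∃ η : ℝ, 0 < η ∧ ∀ H κ0 κ1 b0 C ρ0 : ℝ, 0 < H → 0 < κ0 → 0 < b0 → 0 < C →
    0 < ρ0 → ∃ (σ h : ℝ → ℝ → ℝ) (g : ℝ → ℝ → ℂ), AdmFam H (4 * (H + 2)) ρ0 σ h g ∧
    (∀ θ b κ : ℝ, |b| ≤ H → |κ| ≤ κ1 →
      (1 / 10 ≤ Cz (σ 1 θ) → κ0 ≤ κ) → (Cz (σ 1 θ) ≤ -(1 / 10) → κ ≤ -κ0) →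
      (|Cz (σ 1 θ)| ≤ 3 / 10 → b0 ≤ b) →
      C * err (σ 1) (h 1) (g 1) θ < deriv (σ 1) θ * b + deriv (h 1) θ + κ * area (g 1) θ) ∧
    (∀ (l θ : ℝ) (k : ℤ), |σ l θ - k - 1 / 4| ≤ η → ‖deriv (g l) θ‖ ≤ deriv (σ l) θ / 10) ∧
    ∀ (θ : ℝ) (k : ℤ), |σ 1 θ - k - 1 / 4| ≤ η →
      h 1 θ = 0 ∧ g 1 θ = 0 ∧ deriv (h 1) θ = 0 ∧ deriv (g 1) θ = 0 := by
  obtain ⟨δ, d0, d1, hδ, hB⟩ := exists_delta
  obtain ⟨L0, l0, hL⟩ := st_d_bdd
  refine ⟨δ / 4, by positivity, fun H κ0 κ1 b0 C ρ0 hH hκ0 hb0 hC hρ0 => ?_⟩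
  set L : ℝ := 280 * L0 with hLdef
  have L1 : 0 ≤ L := by positivity
  have hW : ∀ M0 : ℝ, ∃ M : ℝ, M0 ≤ M ∧ (2 / δ ≤ M ∧ ∃ D : Base M L, Extra D) := fun M0 => by
    obtain ⟨m, hm⟩ := exists_nat_ge (max (max M0 350) (2 / δ))
    simp only [max_le_iff] at hm
    exact ⟨2 * m, by linarith [hm.1.1, hm.1.2], by linarith [hm.2, hm.1.2],
      base_extra hL m (by exact_mod_cast hm.1.2)⟩
  obtain ⟨M, ε, n, rfl, ⟨hM, D, xB, xβ, xk, xV, xa⟩, S, Y⟩ :=
    params (L := L) (κ1 := κ1) hW hH hκ0 hb0 hC (lt_min hρ0 (by positivity : 0 < 7 / (40 * L + 44)))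
  have M0 : 0 < M := by linarith [S.M1]
  have hμ : n.ρ * M * (40 * L + 44) ≤ 1 / 10 := by
    have h1 := S.sg.trans (min_le_right _ _)
    rw [le_div_iff₀ (by positivity)] at h1
    linarith
  have hα : ∀ θ, |D.α θ| ≤ δ / 2 := fun θ => by
    have h1 := D.bα θ
    rw [div_le_iff₀ d0] at hM
    have h2 := mul_le_mul_of_nonneg_right hM (abs_nonneg (D.α θ))
    have h3 := mul_le_mul_of_nonneg_left h1 d0.le
    linarith
  have he := S.e16
  have hep := S.ep
  have loc : ∀ (A : Amp), A.Ok → ∀ (θ : ℝ) (k : ℤ), |σf D n A θ - k - 1 / 4| ≤ δ / 4 →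
      1 ≤ D.β θ ∧ D.T θ = 0 ∧ D.Ph θ = 0 ∧ |Cz θ| ≤ 1 / 10 := fun A hA θ k h => by
    have m : Monotone (σf D n A) := mono_of (σf_d D n A) fun t => (σd_pos S hA t).le
    have c2 : ∀ t, |(1 - n.e) * (A.c2 * D.α t)| ≤ δ / 2 := fun t => by
      rw [← mul_assoc, abs_mul, abs_of_nonneg (mul_nonneg (by linarith) hA.c20)]
      exact (mul_le_of_le_one_left (abs_nonneg _) (mul_le_one₀ (by linarith) hA.c20
        (by linarith [hA.c23, hA.c30]))).trans (hα t)
    have c3 : 0 ≤ (1 - n.e) * A.c3 := mul_nonneg (by linarith) hA.c30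
    have a := abs_le.1 h
    have hN : |θ - k - 1 / 4| ≤ δ := by
      refine abs_le.2 ⟨?_, ?_⟩
      · by_contra hc
        have h1 := m (show θ ≤ k + 1 / 4 - δ by linarith)
        have h2 := abs_le.1 (c2 (k + 1 / 4 - δ))
        have h3 := mul_nonpos_of_nonneg_of_nonpos c3 (hB k).2
        rw [σf.eq_1 D n A (k + 1 / 4 - δ), xB] at h1
        linarith
      · by_contra hc
        have h1 := m (show k + 1 / 4 + δ ≤ θ by linarith)
        have h2 := abs_le.1 (c2 (k + 1 / 4 + δ))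
        have h3 := mul_nonneg c3 (hB k).1
        rw [σf.eq_1 D n A (k + 1 / 4 + δ), xB] at h1
        linarith
    have hβ : 1 ≤ D.β θ := xβ ▸ (hδ θ k hN).1
    rcases D.bulk θ with b | ⟨p, q, h1, h2, -, -, -, -, b⟩
    · exact ⟨hβ, b.1, b.2, (hδ θ k hN).2⟩
    · have := b θ ⟨h1, h2⟩
      linarith
  refine ⟨_, _, _, adm_mono (admFam (D := D) S) (min_le_left _ _), ?_, fun l θ k h => ?_,
    fun θ k h => ?_⟩
  · simp only [Al_one]
    exact final_ineq S Y
  · have hA := Al_ok l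
    generalize Al l = A at hA h ⊢
    obtain ⟨b1, b2, b3, b4⟩ := loc A hA θ k h
    obtain ⟨v1, v2, v3, v4⟩ := xV θ b4
    have e1 : gd D n A θ = ((ld D n A θ + xd D n A θ : ℝ) : ℂ) := by
      simp [gd, pf, pd, yd, b2, b3, v4]
    rw [(gf_d D n A θ).deriv, (σf_d D n A θ).deriv, e1, Complex.norm_real, Real.norm_eq_abs]
    have s1 := σd_lower (D := D) S hA θ
    have a0 := D.a0 θ
    have a1 := xa θ
    have hμp := S.μp
    have s2 : A.c3 * D.β θ ≤ 2 * σd D n A θ := by linarith [mul_nonneg hA.c20 a0]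
    have s3 : 0 ≤ A.c3 * D.β θ := mul_nonneg hA.c30 (by linarith)
    have t1 : |ld D n A θ| ≤ 20 * (n.ρ * M) * (L + 1) * (A.c3 * D.β θ) := by
      rw [ld, abs_mul, abs_mul, abs_of_nonneg hA.s0,
        abs_of_pos (by positivity : 0 < 20 * (n.ρ * M))]
      have u1 : |D.a θ - D.β θ| ≤ (L + 1) * D.β θ := abs_le.2 ⟨by nlinarith, by nlinarith⟩
      calc _ ≤ A.c3 * (20 * (n.ρ * M) * ((L + 1) * D.β θ)) := by
            have := hA.sc3
            have := hA.c30
            gcongr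
        _ = _ := by ring
    have t2 : |xd D n A θ| ≤ 2 * (n.ρ * M) * (A.c3 * D.β θ) := by
      have u1 : xd D n A θ = -(A.c1 * (2 * n.e * (D.β θ - 1))) := by
        simp only [xd, l0d, v1, v3]
        ring
      rw [u1, abs_neg, abs_of_nonneg (mul_nonneg hA.c10 (mul_nonneg (by linarith) (by linarith)))]
      calc _ ≤ A.c3 * (2 * (n.ρ * M) * D.β θ) := by
            have := hA.c13
            have := hA.c30
            have := S.he
            gcongr
            linarith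
        _ = _ := by ring
    have t3 := mul_le_mul_of_nonneg_right hμ s3
    linarith [abs_add_le (ld D n A θ) (xd D n A θ)]
  · simp only [Al_one] at h ⊢
    obtain ⟨-, b2, b3, b4⟩ := loc A0 (Al_one ▸ Al_ok 1) θ k h
    obtain ⟨v1, v2, v3, v4⟩ := xV θ b4
    rw [(hf_d D n A0 θ).deriv, (gf_d D n A0 θ).deriv]
    simp [hf, h0f, gf, lf, xf, l0f, yf, hd, h0d, gd, ld, xd, l0d, yd, A0, b2, v1, v2, v3, v4,
      xk θ b2]

end RelP
end Pool.Agent.Lib.MP_72f1d0_gt
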