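import Mathlib
import Pool.Agent.Lib.MP_72f1d0_gt.RelProfileBase
import Pool.Agent.Lib.MP_72f1d0_gt.Defs3

/-!
The relative bead profile: one pair of beads supported inside a strip.
-/

open scoped ContDiff Topology

namespace Pool.Agent.Lib.MP_72f1d0_gt
namespace RelP

open BeadP

theorem exists_inv {σ : ℝ → ℝ → ℝ} (hs : ContDiff ℝ ∞ fun x : ℝ × ℝ => σ x.1 x.2)
    (hp : ∀ l θ, 0 < deriv (σ l) θ) (hper : ∀ l θ, σ l (θ + 1) = σ l θ + 1) :
    ∃ τ : ℝ → ℝ → ℝ, (ContDiff ℝ ∞ fun x : ℝ × ℝ => τ x.1 x.2) ∧ ∀ l s, σ l (τ l s) = s := by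
  have hsur : ∀ l s, ∃ θ, σ l θ = s := fun l s => by
    obtain ⟨n, hn⟩ := exists_nat_ge |s - σ l 0|
    have h1 := per_nat (hper l) n 0
    have h2 := per_nat (hper l) n (-n)
    rw [neg_add_cancel] at h2
    rw [zero_add] at h1
    simp only [smul_eq_mul, mul_one] at h1 h2
    have a := abs_le.1 hn
    exact intermediate_value_univ (-n : ℝ) n (slice_diff hs l).continuous
      ⟨by linarith, by linarith⟩
  choose τ hτ using hsur
  refine ⟨τ, contDiff_iff_contDiffAt.2 fun y => ?_, hτ⟩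
  have hΦ : ContDiff ℝ ∞ fun x : ℝ × ℝ => (x.1, σ x.1 x.2) := contDiff_fst.prodMk hs
  set x : ℝ × ℝ := (y.1, τ y.1 y.2) with hx
  have d1 : HasFDerivAt (fun x : ℝ × ℝ => σ x.1 x.2) (fderiv ℝ (fun x : ℝ × ℝ => σ x.1 x.2) x) x :=
    (hs.differentiable (by simp) x).hasFDerivAt
  set F := fderiv ℝ (fun x : ℝ × ℝ => σ x.1 x.2) x
  have d2 : F (0, 1) = deriv (σ x.1) x.2 :=
    (d1.comp_hasDerivAt x.2 ((hasDerivAt_const x.2 x.1).prodMk (hasDerivAt_id x.2))).deriv.symm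
  have hinj : Function.Injective ((ContinuousLinearMap.fst ℝ ℝ ℝ).prod F).toLinearMap := by
    rw [injective_iff_map_eq_zero]
    rintro ⟨a, b⟩ h
    have h1 : a = 0 := congrArg Prod.fst h
    have h2 : F (a, b) = 0 := congrArg Prod.snd h
    rw [h1, show ((0, b) : ℝ × ℝ) = b • (0, 1) by simp, map_smul, d2, smul_eq_mul] at h2
    rw [h1, (mul_eq_zero.1 h2).resolve_right (hp _ _).ne']
    rfl
  have d3 : HasFDerivAt (fun x : ℝ × ℝ => (x.1, σ x.1 x.2))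
      ((LinearEquiv.ofInjectiveEndo _ hinj).toContinuousLinearEquiv : ℝ × ℝ →L[ℝ] ℝ × ℝ) x :=
    hasFDerivAt_fst.prodMk d1
  have e : (x.1, σ x.1 x.2) = y := by rw [hx]; simp [hτ]
  have h1 := hΦ.contDiffAt.to_localInverse d3 (by simp)
  have h2 := (hΦ.contDiffAt.hasStrictFDerivAt' d3 (by simp)).eventually_right_inverse
  simp only [e] at h1 h2
  refine h1.snd.congr_of_eventuallyEq ?_
  filter_upwards [h2] with z hz
  have h3 := congrArg Prod.fst hz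
  have h4 := congrArg Prod.snd hz
  simp only at h3 h4
  rw [h3] at h4
  exact (strictMono_of_deriv_pos (hp z.1)).injective ((hτ z.1 z.2).trans h4.symm)

/-- Reparametrised and rescaled profile. -/
noncomputable def rp {E : Type*} [NormedAddCommGroup E] [NormedSpace ℝ E] (r : ℝ) (τ : ℝ → ℝ)
    (f : ℝ → E) (x : ℝ) : E := r⁻¹ • f (τ x)

theorem rp_deriv {E : Type*} [NormedAddCommGroup E] [NormedSpace ℝ E] (r : ℝ) {τ : ℝ → ℝ}
    {f : ℝ → E} (hτ : Differentiable ℝ τ) (hf : Differentiable ℝ f) (x : ℝ) :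
    deriv (rp r τ f) x = (r⁻¹ * deriv τ x) • deriv f (τ x) := by
  have h := ((hf (τ x)).hasDerivAt.scomp x (hτ x).hasDerivAt).const_smul r⁻¹
  rw [smul_smul] at h
  exact h.deriv

theorem rp_norm {E : Type*} [NormedAddCommGroup E] [NormedSpace ℝ E] {r : ℝ} (hr : 1 ≤ r)
    (τ : ℝ → ℝ) (f : ℝ → E) (x : ℝ) : ‖rp r τ f x‖ ≤ ‖f (τ x)‖ := by
  rw [rp, norm_smul, Real.norm_eq_abs, abs_of_pos (by positivity)]
  exact mul_le_of_le_one_left (norm_nonneg _) (inv_le_one_of_one_le₀ hr)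

theorem rp_t {r c : ℝ} (hr : 0 < r) {σ τ : ℝ → ℝ} (d0 : Differentiable ℝ τ)
    (d1 : Differentiable ℝ σ) (hp : ∀ θ, 0 < deriv σ θ) (h : ∀ x, σ (τ x) = r * x + c) (x : ℝ) :
    0 < r⁻¹ * deriv τ x ∧ r⁻¹ * deriv τ x * deriv σ (τ x) = 1 := by
  have h1 := (d1 (τ x)).hasDerivAt.comp x (d0 x).hasDerivAt
  have h2 : HasDerivAt (σ ∘ τ) (r * 1) x := by
    rw [show σ ∘ τ = fun x => r * x + c from funext h]
    exact ((hasDerivAt_id x).const_mul r).add_const c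
  have h3 := h1.unique h2
  have h4 : r⁻¹ * deriv τ x * deriv σ (τ x) = 1 := by
    rw [mul_assoc, mul_comm (deriv τ x), h3, mul_one, inv_mul_cancel₀ hr.ne']
  exact ⟨(pos_iff_pos_of_mul_pos (h4 ▸ one_pos)).2 (hp _), h4⟩

theorem adm_rp {H Ca ρ c : ℝ} {σ h τ : ℝ → ℝ} {g : ℝ → ℂ} (A : Adm H Ca ρ σ h g)
    (d0 : Differentiable ℝ τ) (d1 : Differentiable ℝ σ) (d2 : Differentiable ℝ h)
    (d3 : Differentiable ℝ g) {r : ℕ} (hr : 1 ≤ r) (hτ : ∀ x, σ (τ x) = r * x + c) :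
    Adm H Ca ρ (fun θ => θ) (rp r τ h) (rp r τ g) := by
  have r1 : (1 : ℝ) ≤ r := by exact_mod_cast hr
  have r0 : (0 : ℝ) < r := by linarith
  have m := strictMono_of_deriv_pos A.pos
  have pτ : ∀ x, τ (x + 1) = τ x + r := fun x => m.injective (by
    rw [per_nat A.perσ, hτ, hτ, smul_eq_mul]; ring)
  refine ⟨fun θ => rfl, fun θ => ?_, fun θ => ?_, fun θ => by simp, fun θ => ?_, fun θ => ?_,
    fun θ => ?_, fun θ θ' hθ => ?_⟩
  · rw [rp, rp, pτ, per_nat (f := h) (c := 0) (by simpa using A.perh)]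
    simp
  · rw [rp, rp, pτ, per_nat (f := g) (c := 0) (by simpa using A.perg)]
    simp
  · exact ⟨(rp_norm r1 τ h θ).trans (A.small _).1, (rp_norm r1 τ g θ).trans (A.small _).2⟩
  · obtain ⟨t0, t1⟩ := rp_t r0 d0 d1 A.pos hτ θ
    rw [rp_deriv r d0 d3, deriv_id'']
    generalize (r : ℝ)⁻¹ * deriv τ θ = t at t0 t1
    have := mul_le_mul_of_nonneg_left (A.speed (τ θ)) t0.le
    rw [← t1, show ((t * deriv σ (τ θ) : ℝ) : ℂ) = t • ((deriv σ (τ θ) : ℝ) : ℂ) by simp,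
      ← smul_add, norm_smul, Real.norm_eq_abs, abs_of_pos t0]
    linarith
  · obtain ⟨t0, t1⟩ := rp_t r0 d0 d1 A.pos hτ θ
    rw [rp_deriv r d0 d3, rp_deriv r d0 d2, deriv_id'']
    generalize (r : ℝ)⁻¹ * deriv τ θ = t at t0 t1
    have := mul_le_mul_of_nonneg_left (A.slope (τ θ)) t0.le
    rw [norm_smul, smul_eq_mul, abs_mul, Real.norm_eq_abs, abs_of_pos t0, ← t1]
    linarith
  · have hi : 0 ≤ (r : ℝ)⁻¹ := by positivity
    have e : (r : ℝ)⁻¹ * (σ (τ θ') - σ (τ θ)) = θ' - θ := by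
      rw [hτ, hτ]
      field_simp
      ring
    have lt : τ θ < τ θ' := m.lt_iff_lt.1 (by
      rw [hτ, hτ]
      linarith [mul_lt_mul_of_pos_left hθ r0])
    rcases A.pairs (τ θ) (τ θ') lt with p | p
    · left
      have := mul_le_mul_of_nonneg_left p hi
      simp only [rp, Complex.smul_re, smul_eq_mul]
      linarith
    · right
      have := mul_le_mul_of_nonneg_left p hi
      simp only [rp, smul_eq_mul]
      linear_combination this - (H + 1) * e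

theorem cut_deriv {E : Type*} [NormedAddCommGroup E] [NormedSpace ℝ E] {w : ℝ → ℝ} {f : ℝ → E}
    (dw : Differentiable ℝ w) (df : Differentiable ℝ f) (θ : ℝ) :
    deriv (fun t => w t • f t) θ = w θ • deriv f θ + deriv w θ • f θ :=
  ((dw θ).hasDerivAt.smul (df θ).hasDerivAt).deriv

theorem top_deriv {w : ℝ → ℝ} (w1 : ∀ t, w t ≤ 1) {θ : ℝ} (h : w θ = 1) : deriv w θ = 0 :=
  IsLocalMax.deriv_eq_zero (Filter.Eventually.of_forall fun t => by
    show w t ≤ w θ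
    rw [h]; exact w1 t)

theorem adm_cut {H Ca ρ L : ℝ} {h w : ℝ → ℝ} {g : ℝ → ℂ} (A : Adm H Ca ρ (fun θ => θ) h g)
    (hCa : 0 ≤ Ca) (dw : Differentiable ℝ w) (d2 : Differentiable ℝ h) (d3 : Differentiable ℝ g)
    (pw : ∀ t, w (t + 1) = w t) (w0 : ∀ t, 0 ≤ w t) (w1 : ∀ t, w t ≤ 1)
    (wL : ∀ t, |deriv w t| ≤ L) (hL : L * ρ ≤ 1 / 4)
    (hz : ∀ p t, w p ≠ 1 → |t - p| ≤ 4 * ρ → w t = 0 ∨ ‖deriv g t‖ ≤ 1 / 10) :
    Adm H (2 * Ca + 1) ρ (fun θ => θ) (fun t => w t • h t) (fun t => w t • g t) := by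
  have ρ0 : 0 ≤ ρ := (abs_nonneg _).trans (A.small 0).1
  have L0 : 0 ≤ L := (abs_nonneg _).trans (wL 0)
  have sm : ∀ t, ‖w t • g t‖ ≤ ρ := fun t => by
    rw [norm_smul, Real.norm_eq_abs, abs_of_nonneg (w0 t)]
    exact (mul_le_of_le_one_left (norm_nonneg _) (w1 t)).trans (A.small t).2
  have e1 : ∀ t, ‖deriv w t • g t‖ ≤ 1 / 4 := fun t => by
    rw [norm_smul, Real.norm_eq_abs]
    exact (mul_le_mul (wL t) (A.small t).2 (norm_nonneg _) L0).trans hL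
  have key : ∀ p t, w p ≠ 1 → |t - p| ≤ 4 * ρ → ‖deriv (fun t => w t • g t) t‖ ≤ 1 / 2 := by
    intro p t hp ht
    rw [cut_deriv dw d3]
    have : ‖w t • deriv g t‖ ≤ 1 / 10 := by
      rcases hz p t hp ht with a | a
      · rw [a, zero_smul, norm_zero]; norm_num
      · rw [norm_smul, Real.norm_eq_abs, abs_of_nonneg (w0 t)]
        exact (mul_le_of_le_one_left (norm_nonneg _) (w1 t)).trans a
    linarith [norm_add_le (w t • deriv g t) (deriv w t • g t), e1 t]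
  refine ⟨fun θ => rfl, fun θ => by rw [pw, A.perh], fun θ => by rw [pw, A.perg],
    fun θ => by simp, fun θ => ⟨?_, sm θ⟩, fun θ => ?_, fun θ => ?_, fun θ θ' hθ => ?_⟩
  · rw [smul_eq_mul, abs_mul, abs_of_nonneg (w0 θ)]
    exact (mul_le_of_le_one_left (abs_nonneg _) (w1 θ)).trans (A.small θ).1
  · by_cases hw : w θ = 1
    · rw [cut_deriv dw d3, top_deriv w1 hw, hw, one_smul, zero_smul, add_zero]
      exact A.speed θ
    · have a := key θ θ hw (by rw [sub_self, abs_zero]; positivity)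
      have b := norm_sub_norm_le (((1 : ℝ) : ℂ)) (-deriv (fun t => w t • g t) θ)
      rw [norm_neg, sub_neg_eq_add, Complex.norm_real, norm_one] at b
      rw [deriv_id'']
      linarith
  · have s := A.slope θ
    rw [deriv_id''] at s ⊢
    have a1 : |deriv (fun t => w t • h t) θ| ≤ w θ * |deriv h θ| + 1 / 4 := by
      rw [cut_deriv dw d2, smul_eq_mul, smul_eq_mul]
      refine (abs_add_le _ _).trans (add_le_add ?_ ?_)
      · rw [abs_mul, abs_of_nonneg (w0 θ)]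
      · rw [abs_mul]
        exact (mul_le_mul (wL θ) (A.small θ).1 (abs_nonneg _) L0).trans hL
    have a2 : w θ * ‖deriv g θ‖ ≤ ‖deriv (fun t => w t • g t) θ‖ + 1 / 4 := by
      have b := norm_sub_le (w θ • deriv g θ + deriv w θ • g θ) (deriv w θ • g θ)
      rw [add_sub_cancel_right, norm_smul, Real.norm_eq_abs, abs_of_nonneg (w0 θ)] at b
      rw [cut_deriv dw d3]
      linarith [e1 θ]
    have a3 := mul_le_mul_of_nonneg_left s (w0 θ)
    have a4 := mul_le_mul_of_nonneg_left a2 hCa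
    have a5 := mul_le_mul_of_nonneg_left (w1 θ) hCa
    have a6 := norm_nonneg (deriv (fun t => w t • g t) θ)
    have a7 := mul_nonneg hCa a6
    linarith
  · by_cases far : 4 * ρ ≤ θ' - θ
    · left
      have a1 := abs_le.1 ((Complex.abs_re_le_norm _).trans (sm θ))
      have a2 := abs_le.1 ((Complex.abs_re_le_norm _).trans (sm θ'))
      linarith
    by_cases both : w θ = 1 ∧ w θ' = 1
    · simpa only [both.1, both.2, one_smul] using A.pairs θ θ' hθ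
    left
    obtain ⟨p, hp, hp'⟩ : ∃ p, w p ≠ 1 ∧ ∀ t ∈ Set.Icc θ θ', |t - p| ≤ 4 * ρ := by
      rcases not_and_or.1 both with a | a
      · exact ⟨θ, a, fun t ht => abs_le.2 ⟨by linarith [ht.1], by linarith [ht.2]⟩⟩
      · exact ⟨θ', a, fun t ht => abs_le.2 ⟨by linarith [ht.1], by linarith [ht.2]⟩⟩
    have mv := (convex_Icc θ θ').norm_image_sub_le_of_norm_deriv_le
      (f := fun t => w t • g t) (fun t _ => (dw t).smul (d3 t)) (fun t ht => key p t hp (hp' t ht))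
      ⟨le_rfl, hθ.le⟩ ⟨hθ.le, le_rfl⟩
    rw [Real.norm_eq_abs, abs_of_pos (sub_pos.2 hθ)] at mv
    have a := abs_le.1 ((Complex.abs_re_le_norm _).trans mv)
    rw [Complex.sub_re] at a
    linarith

theorem exists_cut {r η : ℝ} (r1 : 1 ≤ r) (e0 : 0 < η) (e1 : η ≤ 1 / 200) :
    ∃ (w : ℝ → ℝ) (L : ℝ), 0 < L ∧ ContDiff ℝ ∞ w ∧ (∀ t, w (t + 1) = w t) ∧ (∀ t, 0 ≤ w t) ∧
    (∀ t, w t ≤ 1) ∧ (∀ t, |deriv w t| ≤ L) ∧
    (∀ t, r * Int.fract t ≤ η ∨ 1 - η ≤ r * Int.fract t → w t = 0) ∧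
    ∀ t, 2 * η ≤ r * Int.fract t → r * Int.fract t ≤ 1 - 2 * η → w t = 1 := by
  obtain ⟨L0, l0, hL⟩ := st_d_bdd
  have r0 : 0 < r := by linarith
  have u0 : 0 < η / r := by positivity
  have u1 : 0 ≤ (1 - 2 * η) / r := div_nonneg (by linarith) r0.le
  have u2 : η / r + η / r < 1 := by rw [← add_div, div_lt_one r0]; linarith
  have u3 : (1 - 2 * η) / r + η / r < 1 := by rw [← add_div, div_lt_one r0]; linarith
  have e : ∀ t, stair Int.cast (η / r) (η / r) t - stair Int.cast ((1 - 2 * η) / r) (η / r) t =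
      sf (η / r) (η / r) t - sf ((1 - 2 * η) / r) (η / r) t := fun t => by
    unfold stair
    push_cast
    ring
  have a1 : ∀ t, r * Int.fract t ≤ η → sf (η / r) (η / r) t = 0 := fun t h =>
    (sf_left u0 (by rw [le_div_iff₀ r0]; linarith)).1
  have a2 : ∀ t, 2 * η ≤ r * Int.fract t → sf (η / r) (η / r) t = 1 := fun t h =>
    (sf_right u0 (by rw [← add_div, div_le_iff₀ r0]; linarith)).1
  have a3 : ∀ t, r * Int.fract t ≤ 1 - 2 * η → sf ((1 - 2 * η) / r) (η / r) t = 0 := fun t h =>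
    (sf_left u0 (by rw [le_div_iff₀ r0]; linarith)).1
  have a4 : ∀ t, 1 - η ≤ r * Int.fract t → sf ((1 - 2 * η) / r) (η / r) t = 1 := fun t h =>
    (sf_right u0 (by rw [← add_div, div_le_iff₀ r0]; linarith)).1
  refine ⟨fun t => stair Int.cast (η / r) (η / r) t - stair Int.cast ((1 - 2 * η) / r) (η / r) t,
    L0 / (η / r) + 1, by positivity, (stair_smooth _ u0.le u0 u2).sub (stair_smooth _ u1 u0 u3),
    fun t => ?_, fun t => ?_, fun t => ?_, fun t => ?_, fun t h => ?_, fun t h h' => ?_⟩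
  · simp only [e, sf, Int.fract_add_one]
  · simp only [e]
    rcases le_total (r * Int.fract t) (1 - 2 * η) with h | h
    · rw [a3 t h, sub_zero]; exact sf_nonneg _ _ _
    · rw [a2 t (by linarith)]; exact sub_nonneg.2 (sf_le_one _ _ _)
  · simp only [e]
    linarith [sf_le_one (η / r) (η / r) t, sf_nonneg ((1 - 2 * η) / r) (η / r) t]
  · have d : HasDerivAt (fun t => stair Int.cast (η / r) (η / r) t -
        stair Int.cast ((1 - 2 * η) / r) (η / r) t) _ t :=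
      (stair_hasDeriv Int.cast u0.le u0 u2 t).sub (stair_hasDeriv Int.cast u1 u0 u3 t)
    rw [d.deriv]
    have b1 : ∀ p, bf p (η / r) t ≤ L0 / (η / r) := fun p => div_le_div_of_nonneg_right (hL _) u0.le
    have b2 := bf_nonneg (η / r) u0 t
    have b3 := bf_nonneg ((1 - 2 * η) / r) u0 t
    push_cast
    exact abs_le.2 ⟨by linarith [b1 ((1 - 2 * η) / r)], by linarith [b1 (η / r)]⟩
  · simp only [e]
    rcases h with h | h
    · rw [a1 t h, a3 t (by linarith), sub_zero]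
    · rw [a2 t (by linarith), a4 t h, sub_self]
  · simp only [e]
    rw [a2 t h, a3 t h', sub_zero]

theorem Cz_sin (x : ℝ) : Cz (x + 1 / 4) = -Real.sin (2 * Real.pi * x) := by
  unfold Cz
  rw [show 2 * Real.pi * (x + 1 / 4) = 2 * Real.pi * x + Real.pi / 2 by ring, Real.cos_add_pi_div_two]

theorem sin_big {x : ℝ} (h1 : 1 / 20 ≤ x) (h2 : x ≤ 45 / 100) :
    3 / 10 < Real.sin (2 * Real.pi * x) := by
  have p1 := Real.pi_gt_d2
  have p2 := Real.pi_lt_d2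
  have key : ∀ y, 157 / 500 ≤ y → y ≤ Real.pi / 2 → 3 / 10 < Real.sin y := fun y a b =>
    lt_of_lt_of_le (lt_trans (by norm_num)
      (Real.sin_gt_sub_cube (x := 157 / 500) (by norm_num)))
      (Real.sin_le_sin_of_le_of_le_pi_div_two (by linarith) b a)
  rcases le_total x (1 / 4) with h | h
  · exact key _ (by nlinarith) (by nlinarith)
  · rw [← Real.sin_pi_sub]
    exact key _ (by nlinarith) (by nlinarith)

theorem zone1 {x : ℝ} (h0 : 0 ≤ x) (h1 : x ≤ 1) (h : Cz (x + 1 / 4) ≤ -(1 / 10)) :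
    1 / 100 ≤ x ∧ x ≤ 49 / 100 := by
  have a1 := Cz_lip (x + 1 / 4) (1 / 4)
  have a2 := Cz_lip (x + 1 / 4) (1 / 4 + 1 / 2)
  rw [Cz_half, Cz_quarter, neg_zero, sub_zero] at a2
  rw [Cz_quarter, sub_zero, add_sub_cancel_right, abs_of_nonneg h0] at a1
  refine ⟨by linarith [(abs_le.1 a1).1], ?_⟩
  rcases le_total x (1 / 2) with c | c
  · rw [abs_of_nonpos (by linarith : x + 1 / 4 - (1 / 4 + 1 / 2) ≤ 0)] at a2
    linarith [(abs_le.1 a2).1]
  · have a3 := Cz_half (x - 1 / 2 + 1 / 4)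
    rw [show x - 1 / 2 + 1 / 4 + 1 / 2 = x + 1 / 4 by ring, Cz_sin (x - 1 / 2)] at a3
    have := Real.sin_nonneg_of_nonneg_of_le_pi (x := 2 * Real.pi * (x - 1 / 2))
      (by have := Real.pi_pos; nlinarith) (by have := Real.pi_pos; nlinarith)
    linarith

theorem Cz_refl (x : ℝ) : Cz (1 - x + 1 / 4) = -Cz (x + 1 / 4) := by
  rw [Cz_sin, Cz_sin, mul_sub, mul_one, Real.sin_two_pi_sub]

theorem zone3 {x : ℝ} (h : |Cz (x + 1 / 4)| ≤ 3 / 10) :
    x ≤ 1 / 20 ∨ (45 / 100 ≤ x ∧ x ≤ 55 / 100) ∨ 19 / 20 ≤ x := by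
  by_contra hc
  simp only [not_or, not_le, not_and_or] at hc
  obtain ⟨c1, c2, c3⟩ := hc
  have a := abs_le.1 h
  rcases c2 with c | c
  · have := sin_big c1.le c.le
    rw [Cz_sin] at a
    linarith
  · have := sin_big (x := 1 - x) (by linarith) (by linarith)
    have b := Cz_refl x
    rw [Cz_sin (1 - x)] at b
    linarith

end RelP

open BeadP RelP in
theorem relProfile : ∃ η : ℝ, 0 < η ∧ η ≤ 1 / 200 ∧ RelProfileStmt η := by
  obtain ⟨η0, e0, hB⟩ := bead_rel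
  obtain ⟨η, f0, f1, f2⟩ : ∃ η : ℝ, 0 < η ∧ η ≤ 1 / 200 ∧ 3 * η ≤ η0 :=
    ⟨min (1 / 200) (η0 / 3), by positivity, min_le_left _ _, by
      linarith [min_le_right (1 / 200) (η0 / 3)]⟩
  refine ⟨η, f0, f1, fun r hr H κ0 κ1 b0 hH hκ0 hκ1 hb0 => ?_⟩
  have r1 : (1 : ℝ) ≤ r := by exact_mod_cast hr
  have r0 : (0 : ℝ) < r := by linarith
  refine ⟨2 * (4 * (H + 2)) + 1, by positivity, fun C ρ hC hρ => ?_⟩
  obtain ⟨w, L, L0, sw, pw, w0, w1, wL, wz, wo⟩ := exists_cut r1 f0 f1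
  obtain ⟨ρ', q0, q1, q2, q3⟩ : ∃ ρ' : ℝ, 0 < ρ' ∧ ρ' ≤ ρ ∧ L * ρ' ≤ 1 / 4 ∧ r * (4 * ρ') ≤ η := by
    obtain ⟨x, ⟨⟨a, b⟩, c⟩, d⟩ := ((((ev_small 1 hρ).and (ev_small L (by norm_num : (0 : ℝ) < 1 / 4))).and
      (ev_small (4 * r) f0)).and self_mem_nhdsWithin).exists
    exact ⟨x, d, by linarith, b, by linarith⟩
  obtain ⟨σ, h, g, F, hF, hg, h1⟩ := hB H ((r : ℝ)⁻¹ * κ0) κ1 b0 C ρ' hH (by positivity) hb0 hC q0
  obtain ⟨τ0, sτ0, hτ0⟩ := exists_inv F.sσ (fun l => (F.adm l).pos) fun l => (F.adm l).perσ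
  obtain ⟨τ, sτ, hτ⟩ : ∃ τ : ℝ → ℝ → ℝ, (ContDiff ℝ ∞ fun x : ℝ × ℝ => τ x.1 x.2) ∧
      ∀ l x, σ l (τ l x) = r * x + 1 / 4 :=
    ⟨fun l x => τ0 l (r * x + 1 / 4), by
      have := sτ0.comp
        (show ContDiff ℝ ∞ (fun x : ℝ × ℝ => (x.1, (r : ℝ) * x.2 + 1 / 4)) by fun_prop)
      exact this, fun l x => hτ0 l _⟩
  have d0 := slice_diff sτ
  have d1 := slice_diff F.sσ
  have d2 := slice_diff F.sh
  have d3 := slice_diff F.sg
  have dw : Differentiable ℝ w := sw.differentiable (by simp)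
  have s2 : ContDiff ℝ ∞ fun x : ℝ × ℝ => rp r (τ x.1) (h x.1) x.2 :=
    (F.sh.comp (contDiff_fst.prodMk sτ)).const_smul (r : ℝ)⁻¹
  have s3 : ContDiff ℝ ∞ fun x : ℝ × ℝ => rp r (τ x.1) (g x.1) x.2 :=
    (F.sg.comp (contDiff_fst.prodMk sτ)).const_smul (r : ℝ)⁻¹
  have D2 := slice_diff (f := fun l => rp r (τ l) (h l)) s2
  have D3 := slice_diff (f := fun l => rp r (τ l) (g l)) s3
  have ht := fun l => rp_t r0 (d0 l) (d1 l) (F.adm l).pos (hτ l)
  have near : ∀ l t : ℝ, r * Int.fract t ≤ 1 →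
      r * Int.fract t ≤ 3 * η ∨ 1 - 3 * η ≤ r * Int.fract t →
      ∃ k : ℤ, |σ l (τ l t) - k - 1 / 4| ≤ η0 := fun l t a b => by
    have a0 := mul_nonneg r0.le (Int.fract_nonneg t)
    rw [Int.fract] at a b a0
    rcases b with b | b
    · refine ⟨r * ⌊t⌋, ?_⟩
      rw [hτ]
      push_cast
      exact abs_le.2 ⟨by linarith, by linarith⟩
    · refine ⟨r * ⌊t⌋ + 1, ?_⟩
      rw [hτ]
      push_cast
      exact abs_le.2 ⟨by linarith, by linarith⟩
  refine ⟨fun l t => w t • rp r (τ l) (h l) t, fun l t => w t • rp r (τ l) (g l) t,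
    adm_mono ⟨contDiff_snd, (sw.comp contDiff_snd).smul s2, (sw.comp contDiff_snd).smul s3,
      fun l => adm_cut (adm_rp (F.adm l) (d0 l) (d1 l) (d2 l) (d3 l) hr (hτ l)) (by positivity) dw
        (D2 l) (D3 l) pw w0 w1 wL q2 fun p t hp hpt => ?_, fun θ => rfl, fun θ => ?_,
      fun θ => ?_⟩ q1, fun l θ hθ => ?_, fun θ b κ hx hb hκ z1 z2 z3 => ?_⟩
  · by_cases c0 : w t = 0
    · exact Or.inl c0
    right
    have c1 : r * Int.fract t ≤ 1 := by
      by_contra c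
      exact c0 (wz t (Or.inr (by linarith)))
    have c2 : r * Int.fract t ≤ 3 * η ∨ 1 - 3 * η ≤ r * Int.fract t := by
      by_contra c
      simp only [not_or, not_le, Int.fract] at c
      have a := abs_le.1 hpt
      have a1 := mul_le_mul_of_nonneg_left a.1 r0.le
      have a2 := mul_le_mul_of_nonneg_left a.2 r0.le
      have b1 : 2 * η ≤ r * (p - ⌊t⌋) := by linarith
      have b2 : r * (p - ⌊t⌋) ≤ 1 - 2 * η := by linarith
      have hf : ⌊p⌋ = ⌊t⌋ := Int.floor_eq_iff.2 ⟨by nlinarith, by nlinarith⟩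
      exact hp (wo p (by rwa [Int.fract, hf]) (by rwa [Int.fract, hf]))
    obtain ⟨k, hk⟩ := near l t c1 c2
    obtain ⟨t0, t1⟩ := ht l t
    have := mul_le_mul_of_nonneg_left (hg l _ k hk) t0.le
    rw [rp_deriv r (d0 l) (d3 l), norm_smul, Real.norm_eq_abs, abs_of_pos t0]
    linarith
  · simp [rp, F.h0]
  · simp [rp, F.g0]
  · simp only [wz θ hθ, zero_smul, and_self]
  unfold xr at hx z1 z2 z3
  have x0 := mul_nonneg r0.le (Int.fract_nonneg θ)
  have same : w θ • rp r (τ 1) (h 1) θ = rp r (τ 1) (h 1) θ ∧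
      w θ • rp r (τ 1) (g 1) θ = rp r (τ 1) (g 1) θ ∧
      deriv (fun t => w t • rp r (τ 1) (h 1) t) θ = deriv (rp r (τ 1) (h 1)) θ ∧
      deriv (fun t => w t • rp r (τ 1) (g 1) t) θ = deriv (rp r (τ 1) (g 1)) θ := by
    rw [cut_deriv dw (D2 1), cut_deriv dw (D3 1)]
    by_cases c : w θ = 1
    · simp [c, top_deriv w1 c]
    · obtain ⟨k, hk⟩ := near 1 θ hx (by
        by_contra c2
        simp only [not_or, not_le] at c2
        exact c (wo θ (by linarith) (by linarith)))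
      obtain ⟨a1, a2, a3, a4⟩ := h1 _ k hk
      rw [rp_deriv r (d0 1) (d2 1), rp_deriv r (d0 1) (d3 1)]
      simp [rp, a1, a2, a3, a4]
  have hc : Cz (σ 1 (τ 1 θ)) = Cz (r * Int.fract θ + 1 / 4) := by
    have hp : Function.Periodic Cz 1 := Cz_add_one
    rw [hτ, ← hp.sub_int_mul_eq (r * ⌊θ⌋), Int.fract]
    congr 1
    push_cast
    ring
  have hi : 0 ≤ (r : ℝ)⁻¹ := by positivity
  have hi1 : (r : ℝ)⁻¹ ≤ 1 := inv_le_one_of_one_le₀ r1
  have key := hF (τ 1 θ) b ((r : ℝ)⁻¹ * κ) hb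
    (by rw [abs_mul, abs_of_nonneg hi]
        exact (mul_le_of_le_one_left (abs_nonneg _) hi1).trans hκ)
    (fun x => by
      have a := zone1 (x := 1 - r * Int.fract θ) (by linarith) (by linarith)
        (by rw [Cz_refl, ← hc]; linarith)
      exact mul_le_mul_of_nonneg_left (z1 (by linarith) (by linarith)) hi)
    (fun x => by
      have a := zone1 x0 hx (hc ▸ x)
      have := mul_le_mul_of_nonneg_left (z2 a.1 a.2) hi
      linarith)
    fun x => z3 (zone3 (hc ▸ x))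
  obtain ⟨t0, t1⟩ := ht 1 θ
  have n1 : |rp r (τ 1) (h 1) θ| ≤ |h 1 (τ 1 θ)| := rp_norm r1 (τ 1) (h 1) θ
  have n2 := rp_norm r1 (τ 1) (g 1) θ
  simp only [err, area, same.1, same.2.1, same.2.2.1, same.2.2.2, deriv_id''] at key ⊢
  rw [rp_deriv r (d0 1) (d2 1), rp_deriv r (d0 1) (d3 1)]
  generalize (r : ℝ)⁻¹ * deriv (τ 1) θ = t at t0 t1
  have ar : ((starRingEnd ℂ) (rp r (τ 1) (g 1) θ) * t • deriv (g 1) (τ 1 θ)).im =
      t * ((r : ℝ)⁻¹ * ((starRingEnd ℂ) (g 1 (τ 1 θ)) * deriv (g 1) (τ 1 θ)).im) := by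
    simp [rp]
    ring
  rw [ar, norm_smul, smul_eq_mul, abs_mul, abs_mul, abs_mul, Real.norm_eq_abs, abs_of_pos t0,
    abs_of_nonneg hi]
  generalize ((starRingEnd ℂ) (g 1 (τ 1 θ)) * deriv (g 1) (τ 1 θ)).im = a at key ⊢
  have k2 := mul_lt_mul_of_pos_left key t0
  have a3 := mul_le_of_le_one_left (abs_nonneg a) hi1
  have e1 : (|rp r (τ 1) (h 1) θ| + ‖rp r (τ 1) (g 1) θ‖) *
      (1 + t * |deriv (h 1) (τ 1 θ)| + t * ((r : ℝ)⁻¹ * |a|)) +
      ‖rp r (τ 1) (g 1) θ‖ ^ 2 * (t * ‖deriv (g 1) (τ 1 θ)‖) ≤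
      (|h 1 (τ 1 θ)| + ‖g 1 (τ 1 θ)‖) * (1 + t * |deriv (h 1) (τ 1 θ)| + t * |a|) +
      ‖g 1 (τ 1 θ)‖ ^ 2 * (t * ‖deriv (g 1) (τ 1 θ)‖) := by gcongr
  have e2 := mul_le_mul_of_nonneg_left e1 hC.le
  linear_combination e2 + k2 + (b - C * (|h 1 (τ 1 θ)| + ‖g 1 (τ 1 θ)‖)) * t1

end Pool.Agent.Lib.MP_72f1d0_gt
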