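import Mathlib
import Pool.Agent.Lib.MP_72f1d0_gt.Defs

/-!
Utilities for the snake: periodic compactness, periodic cut-off functions, brackets.
-/

open scoped ContDiff

namespace Pool.Agent.Lib.MP_72f1d0_gt

namespace Snake

/-- The closed unit square. -/
def box : Set Q := Set.Icc (0 : ℝ) 1 ×ˢ Set.Icc (0 : ℝ) 1

theorem box_compact : IsCompact box := isCompact_Icc.prod isCompact_Icc

theorem red (q : Q) : ∃ m, q + lat m ∈ box := by
  refine ⟨(-⌊q.1⌋, -⌊q.2⌋), ?_, ?_⟩
  · have h1 := Int.floor_le q.1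
    have h2 := Int.lt_floor_add_one q.1
    simp only [lat, Prod.fst_add, Int.cast_neg, Set.mem_Icc]
    constructor <;> linarith
  · have h1 := Int.floor_le q.2
    have h2 := Int.lt_floor_add_one q.2
    simp only [lat, Prod.snd_add, Int.cast_neg, Set.mem_Icc]
    constructor <;> linarith

theorem lat_neg (q : Q) (m : ℤ × ℤ) : q + lat m + lat (-m) = q := by
  ext <;> simp [lat]

theorem per_bound {E : Type*} [NormedAddCommGroup E] {g : Q → E} (hc : Continuous g)
    (hp : Per g) : ∃ B : ℝ, 0 ≤ B ∧ ∀ q, ‖g q‖ ≤ B := by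
  obtain ⟨B, hB⟩ := box_compact.exists_bound_of_continuousOn hc.continuousOn
  refine ⟨max B 0, le_max_right _ _, fun q => ?_⟩
  obtain ⟨m, hm⟩ := red q
  rw [← hp q m]
  exact (hB _ hm).trans (le_max_left _ _)

theorem per_pos {S : Set Q} (hS : IsClosed S) (hSp : PerSet S) {g : Q → ℝ} (hc : Continuous g)
    (hp : Per g) (hpos : ∀ q ∈ S, 0 < g q) : ∃ m : ℝ, 0 < m ∧ ∀ q ∈ S, m ≤ g q := by
  have hK : IsCompact (box ∩ S) := box_compact.inter_right hS
  obtain ⟨m, hm, h⟩ := hK.exists_forall_le' hc.continuousOn (a := 0) (fun q hq => hpos q hq.2)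
  refine ⟨m, hm, fun q hq => ?_⟩
  obtain ⟨k, hk⟩ := red q
  rw [← hp q k]
  exact h _ ⟨hk, hSp q k hq⟩

theorem per_inj {E F : Type*} [NormedAddCommGroup E] [NormedSpace ℝ E] [FiniteDimensional ℝ E]
    [NormedAddCommGroup F] [NormedSpace ℝ F] {S : Set Q} (hS : IsClosed S) (hSp : PerSet S)
    {L : Q → (E →L[ℝ] F)} (hc : Continuous L) (hp : Per L)
    (hinj : ∀ q ∈ S, ∀ z, L q z = 0 → z = 0) :
    ∃ m : ℝ, 0 < m ∧ ∀ q ∈ S, ∀ z, m * ‖z‖ ≤ ‖L q z‖ := by
  have hK : IsCompact ((box ∩ S) ×ˢ Metric.sphere (0 : E) 1) :=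
    (box_compact.inter_right hS).prod (isCompact_sphere 0 1)
  have hcont : Continuous fun x : Q × E => ‖L x.1 x.2‖ :=
    ((hc.comp continuous_fst).clm_apply continuous_snd).norm
  obtain ⟨m, hm, h⟩ := hK.exists_forall_le' hcont.continuousOn (a := 0) (by
    rintro ⟨q, z⟩ ⟨hq, hz⟩
    refine norm_pos_iff.2 fun h0 => ?_
    have := hinj q hq.2 z h0
    simp [this] at hz)
  refine ⟨m, hm, fun q hq z => ?_⟩
  by_cases hz : z = 0
  · simp [hz]
  have hn : 0 < ‖z‖ := norm_pos_iff.2 hz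
  obtain ⟨k, hk⟩ := red q
  have h1 := h (q + lat k, ‖z‖⁻¹ • z) ⟨⟨hk, hSp q k hq⟩, by
    simp [norm_smul, inv_mul_cancel₀ hn.ne']⟩
  simp only [hp q k, map_smul, norm_smul, norm_inv, norm_norm] at h1
  calc m * ‖z‖ ≤ ‖z‖⁻¹ * ‖L q z‖ * ‖z‖ := by gcongr
    _ = ‖L q z‖ := by field_simp

theorem per_fderiv {E : Type*} [NormedAddCommGroup E] [NormedSpace ℝ E] {g : Q → E}
    (hp : Per g) : Per (fderiv ℝ g) := by
  intro q m
  have : (fun x => g (x + lat m)) = g := funext fun x => hp x m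
  rw [← fderiv_comp_add_right, this]

theorem equi_fderiv {c : Ctx} {g : Q → G} (hp : ∀ q m, g (q + lat m) = g q + c.i (lat m)) :
    Per (fderiv ℝ g) := by
  intro q m
  have : (fun x => g (x + lat m)) = fun x => g x + c.i (lat m) := funext fun x => hp x m
  rw [← fderiv_comp_add_right, this, fderiv_add_const]

theorem per_lip {E : Type*} [NormedAddCommGroup E] [NormedSpace ℝ E] {g : Q → E}
    (hc : ContDiff ℝ ∞ g) (hp : Per g) :
    ∃ B : ℝ, 0 ≤ B ∧ (∀ q, ‖g q‖ ≤ B) ∧ (∀ q, ‖fderiv ℝ g q‖ ≤ B) ∧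
      ∀ q q', ‖g q' - g q‖ ≤ B * ‖q' - q‖ := by
  obtain ⟨B1, h1, hB1⟩ := per_bound hc.continuous hp
  obtain ⟨B2, h2, hB2⟩ := per_bound (hc.continuous_fderiv (by simp)) (per_fderiv hp)
  refine ⟨B1 + B2, by positivity, fun q => (hB1 q).trans (by linarith),
    fun q => (hB2 q).trans (by linarith), fun q q' => ?_⟩
  have := Convex.norm_image_sub_le_of_norm_fderiv_le (𝕜 := ℝ) (f := g) (s := Set.univ)
    (C := B1 + B2) (x := q) (y := q') (fun x _ => (hc.differentiable (by simp)).differentiableAt)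
    (fun x _ => (hB2 x).trans (by linarith)) convex_univ trivial trivial
  exact this

/-- The standard map of the plane onto a torus in `ℂ × ℂ`. -/
noncomputable def tor (q : Q) : ℂ × ℂ :=
  (Complex.exp (2 * Real.pi * q.1 * Complex.I), Complex.exp (2 * Real.pi * q.2 * Complex.I))

theorem tor_smooth : ContDiff ℝ ∞ tor := by
  unfold tor
  have h1 : ContDiff ℝ ∞ fun q : Q => ((q.1 : ℝ) : ℂ) :=
    Complex.ofRealCLM.contDiff.comp contDiff_fst
  have h2 : ContDiff ℝ ∞ fun q : Q => ((q.2 : ℝ) : ℂ) :=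
    Complex.ofRealCLM.contDiff.comp contDiff_snd
  exact ((contDiff_const.mul h1).mul contDiff_const).cexp.prodMk
    ((contDiff_const.mul h2).mul contDiff_const).cexp

theorem exp_per (x : ℝ) (k : ℤ) :
    Complex.exp (2 * Real.pi * ((x + k : ℝ) : ℂ) * Complex.I) =
      Complex.exp (2 * Real.pi * x * Complex.I) := by
  have : (2 * Real.pi * ((x + k : ℝ) : ℂ) * Complex.I) =
      2 * Real.pi * x * Complex.I + k * (2 * Real.pi * Complex.I) := by
    push_cast; ring
  rw [this, Complex.exp_add, Complex.exp_int_mul_two_pi_mul_I, mul_one]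

theorem tor_per : Per tor := by
  intro q m
  simp only [tor, lat, Prod.fst_add, Prod.snd_add, exp_per]

theorem exp_inj {x y : ℝ} (h : Complex.exp (2 * Real.pi * x * Complex.I) =
    Complex.exp (2 * Real.pi * y * Complex.I)) : ∃ k : ℤ, x = y + k := by
  obtain ⟨k, hk⟩ := Complex.exp_eq_exp_iff_exists_int.1 h
  refine ⟨k, ?_⟩
  have h2 : (2 * Real.pi * Complex.I : ℂ) ≠ 0 := Complex.two_pi_I_ne_zero
  have h3 : (x : ℂ) = y + k := by
    apply mul_left_cancel₀ h2
    linear_combination hk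
  exact_mod_cast h3

theorem tor_inj {q q' : Q} (h : tor q = tor q') : ∃ m, q = q' + lat m := by
  obtain ⟨k1, h1⟩ := exp_inj (congrArg Prod.fst h)
  obtain ⟨k2, h2⟩ := exp_inj (congrArg Prod.snd h)
  exact ⟨(k1, k2), Prod.ext h1 h2⟩

theorem urysohn {K O : Set Q} (hK : IsClosed K) (hKp : PerSet K) (hO : IsOpen O)
    (hOp : PerSet O) (hKO : K ⊆ O) :
    ∃ (ν : Q → ℝ) (K' : Set Q), ContDiff ℝ ∞ ν ∧ Per ν ∧ IsClosed K' ∧ PerSet K' ∧ K' ⊆ O ∧
      (∀ q ∈ K, ν q = 1) ∧ ∀ q, q ∉ K' → ν q = 0 := by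
  have h1 : IsCompact (tor '' (box ∩ K)) :=
    (box_compact.inter_right hK).image tor_smooth.continuous
  have h2 : IsCompact (tor '' (box ∩ Oᶜ)) :=
    (box_compact.inter_right hO.isClosed_compl).image tor_smooth.continuous
  have hd : Disjoint (tor '' (box ∩ Oᶜ)) (tor '' (box ∩ K)) := by
    rw [Set.disjoint_left]
    rintro _ ⟨a, ha, rfl⟩ ⟨b, hb, hab⟩
    obtain ⟨m, hm⟩ := tor_inj hab.symm
    exact ha.2 (hKO (hm ▸ hKp b m hb.2))
  obtain ⟨χ, hχ0, hχ1, -⟩ := exists_contMDiffMap_zero_one_of_isClosed (n := ⊤)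
    (modelWithCornersSelf ℝ (ℂ × ℂ)) h2.isClosed h1.isClosed hd
  have hs : ContDiff ℝ ∞ (χ : ℂ × ℂ → ℝ) := χ.contMDiff.contDiff
  have hg : ContDiff ℝ ∞ fun q => χ (tor q) := hs.comp tor_smooth
  have hOc : ∀ q, q ∉ O → χ (tor q) = 0 := by
    intro q hq
    obtain ⟨m, hm⟩ := red q
    rw [← tor_per q m]
    refine hχ0 ⟨q + lat m, ⟨hm, fun h => hq ?_⟩, rfl⟩
    have := hOp _ (-m) h
    rwa [lat_neg] at this
  refine ⟨fun q => Real.smoothTransition (2 * χ (tor q) - 1), {q | 1 / 2 ≤ χ (tor q)},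
    Real.smoothTransition.contDiff.comp ((contDiff_const.mul hg).sub contDiff_const),
    fun q m => by simp only [tor_per q m], isClosed_le continuous_const hg.continuous,
    fun q m hq => by simpa only [Set.mem_ofPred_eq, tor_per q m] using hq, fun q hq => ?_,
    fun q hq => ?_, fun q hq => ?_⟩
  · by_contra h
    have := hOc q h
    simp only [Set.mem_ofPred_eq, this] at hq
    norm_num at hq
  · obtain ⟨m, hm⟩ := red q
    have : χ (tor q) = 1 := by
      rw [← tor_per q m]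
      exact hχ1 ⟨q + lat m, ⟨hm, hKp q m hq⟩, rfl⟩
    simp only [this]
    exact Real.smoothTransition.one_of_one_le (by norm_num)
  · simp only [Set.mem_ofPred_eq, not_le] at hq
    exact Real.smoothTransition.zero_of_nonpos (by linarith)

theorem big_coeff {S : Set Q} (hS : IsClosed S) (hSp : PerSet S) {g h : Q → ℝ}
    (hg : Continuous g) (hh : Continuous h) (hgp : Per g) (hhp : Per h) (h0 : ∀ q, 0 ≤ h q)
    (hpos : ∀ q ∈ S, 0 < h q ∨ 0 < g q) :
    ∃ G0 m : ℝ, 0 < G0 ∧ 0 < m ∧ ∀ q ∈ S, m ≤ g q + G0 * h q := by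
  obtain ⟨B, hB0, hB⟩ := per_bound hg hgp
  obtain ⟨a, ha, h1⟩ := per_pos hS hSp (hg.max hh) (fun q m => by simp only [hgp q m, hhp q m])
    (fun q hq => by
      rcases hpos q hq with h2 | h2
      · exact lt_max_of_lt_right h2
      · exact lt_max_of_lt_left h2)
  refine ⟨(B + a) / a, a, by positivity, ha, fun q hq => ?_⟩
  have hG : 0 ≤ (B + a) / a := by positivity
  rcases le_max_iff.1 (h1 q hq) with h2 | h2
  · nlinarith [mul_nonneg hG (h0 q)]
  · have h3 : (B + a) / a * a ≤ (B + a) / a * h q := by gcongr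
    have h4 : (B + a) / a * a = B + a := by field_simp
    have h5 := (abs_le.1 (hB q)).1
    linarith

/-! ### Brackets -/

theorem al_add (A B : G) : al (A + B) = al A + al B := by simp [al]
theorem al_sub (A B : G) : al (A - B) = al A - al B := by simp [al]
theorem al_smul (a : ℝ) (A : G) : al (a • A) = a * al A := by simp [al]
theorem al_zero : al 0 = 0 := by simp [al]
theorem al_le (A : G) : |al A| ≤ ‖A‖ :=
  (Complex.abs_re_le_norm _).trans (norm_snd_le A)

theorem al_smooth {X : Type*} [NormedAddCommGroup X] [NormedSpace ℝ X] {g : X → G}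
    (hg : ContDiff ℝ ∞ g) : ContDiff ℝ ∞ fun x => al (g x) :=
  Complex.reCLM.contDiff.comp hg.snd

theorem br_add_left (c : Ctx) (p A A' B : G) : c.br p (A + A') B = c.br p A B + c.br p A' B := by
  simp only [Ctx.br, brk, map_add, add_apply]; abel

theorem br_add_right (c : Ctx) (p A B B' : G) :
    c.br p A (B + B') = c.br p A B + c.br p A B' := by
  simp only [Ctx.br, brk, map_add, add_apply]; abel

theorem br_smul_left (c : Ctx) (p : G) (a : ℝ) (A B : G) :
    c.br p (a • A) B = a • c.br p A B := by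
  simp only [Ctx.br, brk, map_smul, smul_apply, smul_sub]

theorem br_smul_right (c : Ctx) (p : G) (a : ℝ) (A B : G) :
    c.br p A (a • B) = a • c.br p A B := by
  simp only [Ctx.br, brk, map_smul, smul_apply, smul_sub]

theorem br_self (c : Ctx) (p A : G) : c.br p A A = 0 := by
  simp only [Ctx.br, brk, sub_self]

theorem br_swap (c : Ctx) (p A B : G) : c.br p A B = -c.br p B A := by
  simp only [Ctx.br, brk, neg_sub]

theorem br_zero_left (c : Ctx) (p B : G) : c.br p 0 B = 0 := by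
  simp [Ctx.br, brk]

theorem br_per (c : Ctx) (p : G) (m : ℤ × ℤ) (A B : G) :
    c.br (p + c.i (lat m)) A B = c.br p A B := by
  have h : fderiv ℝ c.om (p + c.i (lat m)) = fderiv ℝ c.om p := by
    have : (fun x => c.om (x + c.i (lat m))) = c.om := funext fun x => c.om_per x m
    rw [← fderiv_comp_add_right, this]
  simp only [Ctx.br, brk, h, c.e_per]

theorem br_smooth (c : Ctx) {p A B : Q → G} (hp : ContDiff ℝ ∞ p) (hA : ContDiff ℝ ∞ A)
    (hB : ContDiff ℝ ∞ B) : ContDiff ℝ ∞ fun q => c.br (p q) (A q) (B q) := by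
  have h1 : ContDiff ℝ ∞ fun q => fderiv ℝ c.om (p q) :=
    (c.om_smooth.fderiv_right (m := ∞) (by simp)).comp hp
  have h2 : ContDiff ℝ ∞ fun q => c.e (p q) (A q) := (c.e_smooth.comp hp).clm_apply hA
  have h3 : ContDiff ℝ ∞ fun q => c.e (p q) (B q) := (c.e_smooth.comp hp).clm_apply hB
  exact ((h1.clm_apply h2).clm_apply h3).sub ((h1.clm_apply h3).clm_apply h2)

theorem ker_form (c : Ctx) (hN : c.Nrm) (p A B : G) (hA : al A = 0) (hB : al B = 0) :
    al (c.br p A B) = -(A.1.re * B.2.im - A.2.im * B.1.re) := by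
  have dec : ∀ D : G, al D = 0 → D = D.1.re • vX + D.1.im • vW + D.2.im • vZ := by
    intro D hD
    simp only [al] at hD
    ext <;> apply Complex.ext <;> simp [vX, vW, vZ, hD]
  have hXW : al (c.br p vX vW) = 0 := by
    have := c.brXW p
    simp only [al, Ctx.br, this, Complex.I_re]
  have hXZ : al (c.br p vX vZ) = -1 := c.brXZ p
  have hWZ : al (c.br p vW vZ) = 0 := hN p
  have sw : ∀ U V : G, al (c.br p U V) = -al (c.br p V U) := by
    intro U V
    rw [br_swap]; simp [al]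
  have hWX := sw vW vX
  have hZX := sw vZ vX
  have hZW := sw vZ vW
  have e1 := dec A hA
  have e2 := dec B hB
  calc al (c.br p A B) = al (c.br p (A.1.re • vX + A.1.im • vW + A.2.im • vZ)
        (B.1.re • vX + B.1.im • vW + B.2.im • vZ)) := by rw [← e1, ← e2]
    _ = _ := by
      simp only [br_add_left, br_add_right, br_smul_left, br_smul_right, al_add, al_smul, br_self,
        al_zero, hWX, hZX, hZW, hXW, hXZ, hWZ]
      ring

theorem dd_smooth (c : Ctx) {f : Q → G} (hf : ContDiff ℝ ∞ f) : ContDiff ℝ ∞ (dd c f) := by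
  have h1 : ContDiff ℝ ∞ fun q => fderiv ℝ f q := hf.fderiv_right (m := ∞) (by simp)
  have h2 : ContDiff ℝ ∞ fun q => c.om (f q) := c.om_smooth.comp hf
  exact (h2.clm_apply (h1.clm_apply contDiff_const)).prodMk
    (h2.clm_apply (h1.clm_apply contDiff_const))

theorem dd_per (c : Ctx) {f : Q → G} (hf : ∀ q m, f (q + lat m) = f q + c.i (lat m)) :
    Per (dd c f) := by
  intro q m
  simp only [dd, equi_fderiv hf q m, hf q m, c.om_per]

theorem fderiv_eq (c : Ctx) (f : Q → G) (q v : Q) :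
    fderiv ℝ f q v = c.e (f q) (ap (dd c f q) v) := by
  have : v = v.1 • ((1, 0) : Q) + v.2 • ((0, 1) : Q) := by ext <;> simp
  simp only [ap, dd, map_add, map_smul, c.e_om]
  rw [← map_smul, ← map_smul, ← map_add, ← this]

end Snake

end Pool.Agent.Lib.MP_72f1d0_gt
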