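import Mathlib
import Pool.Agent.Lib.MP_72f1d0_gt.Snake1

/-!
The isotopy of the snake: embedding, closeness and segment properties.
-/

open scoped ContDiff

namespace Pool.Agent.Lib.MP_72f1d0_gt

namespace Snake

abbrev V3 : Type := ℝ × ℝ × ℝ

/-- Shear: the first parameter moves the base point in the `s`-direction. -/
noncomputable def sh : (Q × V3) →L[ℝ] (Q × (ℝ × ℝ)) :=
  LinearMap.toContinuousLinearMap
    { toFun := fun x => ((x.1.1 + x.2.1, x.1.2), x.2.2)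
      map_add' := fun x y => by ext <;> simp; ring
      map_smul' := fun a x => by ext <;> simp; ring }

theorem sh_apply (x : Q × V3) : sh x = ((x.1.1 + x.2.1, x.1.2), x.2.2) := rfl

theorem sh_zero (q : Q) : sh (q, 0) = (q, 0) := by simp [sh_apply]

theorem sh_lat (q : Q) (m : ℤ × ℤ) (v : V3) :
    sh (q + lat m, v) = ((sh (q, v)).1 + lat m, (sh (q, v)).2) := by
  simp only [sh_apply, Prod.fst_add, Prod.snd_add]
  ext <;> simp
  ring

noncomputable def th (N : ℕ) (q : Q) : ℝ := 2 * Real.pi * N * q.2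

noncomputable def vv (A1 A2 A3 : Q → V3) (ε u : ℝ) (N : ℕ) (q : Q) : V3 :=
  (ε ^ 3 * u * Real.cos (th N q)) • A1 q + (ε ^ 2 * u * Real.sin (th N q)) • A2 q +
    (ε ^ 5 * u ^ 2 * Real.sin (2 * th N q)) • A3 q

noncomputable def fast (A1 A2 A3 : Q → V3) (ε u : ℝ) (N : ℕ) (q : Q) : V3 :=
  (ε ^ 3 * u * -Real.sin (th N q)) • A1 q + (ε ^ 2 * u * Real.cos (th N q)) • A2 q +
    (ε ^ 5 * u ^ 2 * (2 * Real.cos (2 * th N q))) • A3 q

noncomputable def slow (A1 A2 A3 : Q → V3) (ε u : ℝ) (N : ℕ) (q : Q) : Q →L[ℝ] V3 :=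
  (ε ^ 3 * u * Real.cos (th N q)) • fderiv ℝ A1 q +
    (ε ^ 2 * u * Real.sin (th N q)) • fderiv ℝ A2 q +
    (ε ^ 5 * u ^ 2 * Real.sin (2 * th N q)) • fderiv ℝ A3 q

theorem th_smooth (N : ℕ) : ContDiff ℝ ∞ (th N) := contDiff_const.mul contDiff_snd

theorem vv_smooth {A1 A2 A3 : Q → V3} (h1 : ContDiff ℝ ∞ A1) (h2 : ContDiff ℝ ∞ A2)
    (h3 : ContDiff ℝ ∞ A3) (ε : ℝ) (N : ℕ) :
    ContDiff ℝ ∞ fun x : ℝ × Q => vv A1 A2 A3 ε x.1 N x.2 := by
  have ht : ContDiff ℝ ∞ fun x : ℝ × Q => th N x.2 := (th_smooth N).comp contDiff_snd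
  have k1 : ContDiff ℝ ∞ fun x : ℝ × Q => ε ^ 3 * x.1 * Real.cos (th N x.2) :=
    (contDiff_const.mul contDiff_fst).mul ht.cos
  have k2 : ContDiff ℝ ∞ fun x : ℝ × Q => ε ^ 2 * x.1 * Real.sin (th N x.2) :=
    (contDiff_const.mul contDiff_fst).mul ht.sin
  have k3 : ContDiff ℝ ∞ fun x : ℝ × Q => ε ^ 5 * x.1 ^ 2 * Real.sin (2 * th N x.2) :=
    (contDiff_const.mul (contDiff_fst.pow 2)).mul (contDiff_const.mul ht).sin
  have g1 : ContDiff ℝ ∞ fun x : ℝ × Q => A1 x.2 := h1.comp contDiff_snd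
  have g2 : ContDiff ℝ ∞ fun x : ℝ × Q => A2 x.2 := h2.comp contDiff_snd
  have g3 : ContDiff ℝ ∞ fun x : ℝ × Q => A3 x.2 := h3.comp contDiff_snd
  exact ((k1.smul g1).add (k2.smul g2)).add (k3.smul g3)

theorem vv_smooth' {A1 A2 A3 : Q → V3} (h1 : ContDiff ℝ ∞ A1) (h2 : ContDiff ℝ ∞ A2)
    (h3 : ContDiff ℝ ∞ A3) (ε u : ℝ) (N : ℕ) : ContDiff ℝ ∞ (vv A1 A2 A3 ε u N) :=
  (vv_smooth h1 h2 h3 ε N).comp (contDiff_const.prodMk contDiff_id)

theorem vv_fderiv {A1 A2 A3 : Q → V3} (h1 : ContDiff ℝ ∞ A1) (h2 : ContDiff ℝ ∞ A2)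
    (h3 : ContDiff ℝ ∞ A3) (ε u : ℝ) (N : ℕ) (q dq : Q) :
    fderiv ℝ (vv A1 A2 A3 ε u N) q dq = slow A1 A2 A3 ε u N q dq +
      (2 * Real.pi * N * dq.2) • fast A1 A2 A3 ε u N q := by
  have ht : HasFDerivAt (th N) ((2 * Real.pi * N) • ContinuousLinearMap.snd ℝ ℝ ℝ) q :=
    hasFDerivAt_snd.const_mul (2 * Real.pi * N)
  have a1 := (h1.differentiable (by simp) q).hasFDerivAt
  have a2 := (h2.differentiable (by simp) q).hasFDerivAt
  have a3 := (h3.differentiable (by simp) q).hasFDerivAt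
  have b1 := (ht.cos.const_mul (ε ^ 3 * u)).smul a1
  have b2 := (ht.sin.const_mul (ε ^ 2 * u)).smul a2
  have b3 := ((ht.const_mul 2).sin.const_mul (ε ^ 5 * u ^ 2)).smul a3
  have b : HasFDerivAt (vv A1 A2 A3 ε u N) _ q := (b1.add b2).add b3
  rw [b.fderiv]
  simp only [slow, fast, add_apply, smul_apply,
    ContinuousLinearMap.smulRight_apply, ContinuousLinearMap.coe_snd', smul_eq_mul]
  module

theorem vv_per {A1 A2 A3 : Q → V3} (h1 : Per A1) (h2 : Per A2) (h3 : Per A3) (ε u : ℝ)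
    (N : ℕ) : Per (vv A1 A2 A3 ε u N) := by
  intro q m
  have e1 : th N (q + lat m) = th N q + ((N * m.2 : ℤ) : ℝ) * (2 * Real.pi) := by
    simp only [th, lat, Prod.snd_add]; push_cast; ring
  have e2 : 2 * th N (q + lat m) = 2 * th N q + ((2 * (N * m.2) : ℤ) : ℝ) * (2 * Real.pi) := by
    rw [e1]; push_cast; ring
  simp only [vv, h1 q m, h2 q m, h3 q m]
  rw [e2, e1, Real.cos_add_int_mul_two_pi, Real.sin_add_int_mul_two_pi,
    Real.sin_add_int_mul_two_pi]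

theorem coef_le {ε u x : ℝ} (hε : 0 < ε) (hε1 : ε ≤ 1) (hu : 0 ≤ u) (hu1 : u ≤ 1)
    (hx : |x| ≤ 1) {k l : ℕ} (hk : 2 ≤ k) : |ε ^ k * u ^ l * x| ≤ ε ^ 2 := by
  have h1 : ε ^ k ≤ ε ^ 2 := pow_le_pow_of_le_one hε.le hε1 hk
  have h2 : u ^ l ≤ 1 := pow_le_one₀ hu hu1
  rw [abs_mul, abs_mul, abs_of_nonneg (pow_nonneg hε.le k), abs_of_nonneg (pow_nonneg hu l)]
  calc ε ^ k * u ^ l * |x| ≤ ε ^ 2 * 1 * 1 := by gcongr
    _ = ε ^ 2 := by ring

theorem comb_le {E : Type*} [NormedAddCommGroup E] [NormedSpace ℝ E] {ε u B : ℝ} (hε : 0 < ε)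
    (hε1 : ε ≤ 1) (hu : 0 ≤ u) (hu1 : u ≤ 1) {x y z : ℝ} (hx : |x| ≤ 1) (hy : |y| ≤ 1)
    (hz : |z| ≤ 1) {a b d : E} (ha : ‖a‖ ≤ B) (hb : ‖b‖ ≤ B) (hd : ‖d‖ ≤ B) :
    ‖(ε ^ 3 * u * x) • a + (ε ^ 2 * u * y) • b + (ε ^ 5 * u ^ 2 * z) • d‖ ≤ 3 * B * ε ^ 2 := by
  have h1 := coef_le hε hε1 hu hu1 hx (k := 3) (l := 1) (by norm_num)
  have h2 := coef_le hε hε1 hu hu1 hy (k := 2) (l := 1) (by norm_num)
  have h3 := coef_le hε hε1 hu hu1 hz (k := 5) (l := 2) (by norm_num)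
  rw [pow_one] at h1 h2
  refine (norm_add₃_le).trans ?_
  simp only [norm_smul, Real.norm_eq_abs]
  have hB : 0 ≤ B := (norm_nonneg a).trans ha
  calc _ ≤ ε ^ 2 * B + ε ^ 2 * B + ε ^ 2 * B := by gcongr
    _ = _ := by ring

theorem dd_graph {V : Type*} [NormedAddCommGroup V] [NormedSpace ℝ V] (c : Ctx)
    {Θ : Q × V → G} (hΘ : ContDiff ℝ ∞ Θ) {v : Q → V} (hv : ContDiff ℝ ∞ v) (q : Q) :
    dd c (fun q => Θ (q, v q)) q = (AA c Θ (q, v q) ((1, 0), fderiv ℝ v q (1, 0)),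
      AA c Θ (q, v q) ((0, 1), fderiv ℝ v q (0, 1))) := by
  have a1 := (hv.differentiable (by simp) q).hasFDerivAt
  have a2 := (hΘ.differentiable (by simp) (q, v q)).hasFDerivAt
  have a3 : HasFDerivAt (fun q => Θ (q, v q)) _ q := a2.comp q ((hasFDerivAt_id q).prodMk a1)
  simp only [dd, a3.fderiv, AA, ContinuousLinearMap.comp_apply, ContinuousLinearMap.prod_apply,
    ContinuousLinearMap.id_apply]

theorem AA_sh (c : Ctx) {Φ : Q × (ℝ × ℝ) → G} (hΦ : ContDiff ℝ ∞ Φ) (x z : Q × V3) :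
    AA c (fun x => Φ (sh x)) x z = AA c Φ (sh x) (sh z) := by
  have a2 := (hΦ.differentiable (by simp) (sh x)).hasFDerivAt
  have a3 : HasFDerivAt (fun x => Φ (sh x)) _ x := a2.comp x sh.hasFDerivAt
  simp only [AA, a3.fderiv, ContinuousLinearMap.comp_apply]

theorem AA_cont {Y : Type*} [NormedAddCommGroup Y] [NormedSpace ℝ Y] (c : Ctx) {Φ : Y → G}
    (hΦ : ContDiff ℝ ∞ Φ) : Continuous (AA c Φ) :=
  (c.om_smooth.continuous.comp hΦ.continuous).clm_comp (hΦ.continuous_fderiv (by simp))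

theorem AA_per {V : Type*} [NormedAddCommGroup V] [NormedSpace ℝ V] (c : Ctx) {Φ : Q × V → G}
    (hp : ∀ q m v, Φ (q + lat m, v) = Φ (q, v) + c.i (lat m)) (q : Q) (m : ℤ × ℤ) (v : V) :
    AA c Φ (q + lat m, v) = AA c Φ (q, v) := by
  have h : (fun x => Φ (x + (lat m, 0))) = fun x => Φ x + c.i (lat m) := by
    funext x
    have := hp x.1 m x.2
    rw [← this]
    congr 1
    ext <;> simp
  have e : ((q + lat m, v) : Q × V) = (q, v) + (lat m, 0) := by ext <;> simp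
  have h2 : fderiv ℝ Φ (q + lat m, v) = fderiv ℝ Φ (q, v) := by
    rw [e, ← fderiv_comp_add_right, h, fderiv_add_const]
  simp only [AA, h2, hp, c.om_per]

theorem core (hM : MLStmt) (c : Ctx) (f : Q → G) (hf : IsEmb c f) (Φ : Q × (ℝ × ℝ) → G)
    (hΦ : ContDiff ℝ ∞ Φ) (hΦp : ∀ q m v, Φ (q + lat m, v) = Φ (q, v) + c.i (lat m))
    (hΦ0 : ∀ q, Φ (q, 0) = f q) (n : Q → G) (hn : ∀ q, AA c Φ (q, 0) (0, (0, 1)) = n q)
    (K' : Set Q) (hK : IsClosed K') (hKp : PerSet K')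
    (hinj : ∀ q ∈ K', ∀ z, AA c Φ (q, 0) z = 0 → z = 0)
    (hseg : ∀ q, SegInj (dd c f q) ((dd c f q).1, n q))
    (A1 A2 A3 : Q → V3) (s1 : ContDiff ℝ ∞ A1) (s2 : ContDiff ℝ ∞ A2) (s3 : ContDiff ℝ ∞ A3)
    (p1 : Per A1) (p2 : Per A2) (p3 : Per A3)
    (hz : ∀ q, q ∉ K' → A1 q = 0 ∧ A2 q = 0 ∧ A3 q = 0) (κ : ℝ) (hκ : 0 < κ) :
    ∃ ε1 : ℝ, 0 < ε1 ∧ ε1 ≤ 1 ∧ ∀ ε, 0 < ε → ε ≤ ε1 → ∀ (N : ℕ) (u : ℝ), 0 ≤ u → u ≤ 1 →
      IsEmb c (fun q => Φ (sh (q, vv A1 A2 A3 ε u N q))) ∧ ∀ q,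
        ‖(dd c (fun q => Φ (sh (q, vv A1 A2 A3 ε u N q))) q).1 - (dd c f q).1‖ ≤ κ ∧
        ‖AA c Φ (sh (q, vv A1 A2 A3 ε u N q)) (0, (0, 1)) - n q‖ ≤ κ ∧
        SegInj (dd c (fun q => Φ (sh (q, vv A1 A2 A3 ε u N q))) q)
          ((dd c (fun q => Φ (sh (q, vv A1 A2 A3 ε u N q))) q).1,
            AA c Φ (sh (q, vv A1 A2 A3 ε u N q)) (0, (0, 1))) ∧
        ‖(dd c (fun q => Φ (sh (q, vv A1 A2 A3 ε u N q))) q).2 -
          (2 * Real.pi * N) • AA c Φ (sh (q, vv A1 A2 A3 ε u N q))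
            (sh (0, fast A1 A2 A3 ε u N q)) - (dd c f q).2‖ ≤ κ := by
  set Θ : Q × V3 → G := fun x => Φ (sh x) with hΘdef
  have hΘ : ContDiff ℝ ∞ Θ := hΦ.comp sh.contDiff
  have hΘp : ∀ q m v, Θ (q + lat m, v) = Θ (q, v) + c.i (lat m) := by
    intro q m v
    simp only [hΘdef, sh_lat, hΦp]
  have hΘ0 : ∀ q, Θ (q, 0) = f q := fun q => by simp only [hΘdef, sh_zero, hΦ0]
  obtain ⟨m, hm, hmi⟩ := per_inj hK hKp (L := fun q => AA c Φ (q, 0))
    ((AA_cont c hΦ).comp (continuous_id.prodMk continuous_const))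
    (fun q k => AA_per c hΦp q k 0) hinj
  obtain ⟨B0, hB0, hB0'⟩ := per_bound (g := fun q => AA c Θ (q, 0))
    ((AA_cont c hΘ).comp (continuous_id.prodMk continuous_const))
    (fun q k => AA_per c hΘp q k 0)
  obtain ⟨ρ1, hρ1, M1, -⟩ := hM c f hf V3 Θ hΘ hΘp hΘ0 (min (κ / 2) (m / 2)) (by positivity)
  obtain ⟨ρ2, hρ2, -, M2⟩ := hM c f hf (ℝ × ℝ) Φ hΦ hΦp hΦ0 (m / 4) (by positivity)
  obtain ⟨B1, hB1, a1, b1, c1⟩ := per_lip s1 p1
  obtain ⟨B2, hB2, a2, b2, c2⟩ := per_lip s2 p2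
  obtain ⟨B3, hB3, a3, b3, c3⟩ := per_lip s3 p3
  set B := B1 + B2 + B3 + 1 with hB
  have hBpos : 0 < B := by positivity
  have l1 : B1 ≤ B := by linarith
  have l2 : B2 ≤ B := by linarith
  have l3 : B3 ≤ B := by linarith
  set δ := min (min ρ1 ρ2) (min (1 / 2) (κ / 2 / (B0 + 1))) with hδ
  have hδpos : 0 < δ := by positivity
  refine ⟨min 1 (δ / (3 * B)), by positivity, min_le_left _ _, ?_⟩
  intro ε hε hε1 N u hu hu1
  have e1 : ε ≤ 1 := hε1.trans (min_le_left _ _)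
  have e2 : 3 * B * ε ^ 2 ≤ δ := by
    have h1 : ε ≤ δ / (3 * B) := hε1.trans (min_le_right _ _)
    rw [le_div_iff₀ (by positivity)] at h1
    nlinarith [mul_pos hBpos hε]
  have d1 : δ ≤ ρ1 := (min_le_left _ _).trans (min_le_left _ _)
  have d2 : δ ≤ ρ2 := (min_le_left _ _).trans (min_le_right _ _)
  have d3 : δ ≤ 1 / 2 := (min_le_right _ _).trans (min_le_left _ _)
  have d4 : δ ≤ κ / 2 / (B0 + 1) := (min_le_right _ _).trans (min_le_right _ _)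
  have d5 : B0 * δ ≤ κ / 2 := by
    rw [le_div_iff₀ (by positivity)] at d4
    nlinarith
  set v := vv A1 A2 A3 ε u N with hv
  have hvs : ContDiff ℝ ∞ v := vv_smooth' s1 s2 s3 ε u N
  have hvp : Per v := vv_per p1 p2 p3 ε u N
  have hvn : ∀ q, ‖v q‖ ≤ δ := fun q =>
    (comb_le hε e1 hu hu1 (Real.abs_cos_le_one _) (Real.abs_sin_le_one _)
      (Real.abs_sin_le_one _) ((a1 q).trans l1) ((a2 q).trans l2) ((a3 q).trans l3)).trans e2
  have hsn : ∀ q, ‖slow A1 A2 A3 ε u N q‖ ≤ δ := fun q =>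
    (comb_le hε e1 hu hu1 (Real.abs_cos_le_one _) (Real.abs_sin_le_one _)
      (Real.abs_sin_le_one _) ((b1 q).trans l1) ((b2 q).trans l2) ((b3 q).trans l3)).trans e2
  have hsn' : ∀ q (dq : Q), ‖dq‖ ≤ 1 → ‖slow A1 A2 A3 ε u N q dq‖ ≤ δ := fun q dq h =>
    ((slow A1 A2 A3 ε u N q).le_opNorm dq).trans (by
      calc _ ≤ δ * 1 := mul_le_mul (hsn q) h (norm_nonneg _) hδpos.le
        _ = δ := mul_one _)
  have hv0 : ∀ q, q ∉ K' → v q = 0 := by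
    intro q hq
    obtain ⟨z1, z2, z3⟩ := hz q hq
    simp [hv, vv, z1, z2, z3]
  have hlip : ∀ q q' : Q, q.2 = q'.2 → ‖v q' - v q‖ ≤ ‖q' - q‖ / 2 := by
    intro q q' h
    have ht : th N q' = th N q := by simp only [th, h]
    have : v q' - v q = (ε ^ 3 * u * Real.cos (th N q)) • (A1 q' - A1 q) +
        (ε ^ 2 * u * Real.sin (th N q)) • (A2 q' - A2 q) +
        (ε ^ 5 * u ^ 2 * Real.sin (2 * th N q)) • (A3 q' - A3 q) := by
      simp only [hv, vv, ht]; module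
    rw [this]
    have hn0 := norm_nonneg (q' - q)
    refine (comb_le (B := B * ‖q' - q‖) hε e1 hu hu1 (Real.abs_cos_le_one _)
      (Real.abs_sin_le_one _) (Real.abs_sin_le_one _) ((c1 q q').trans (by gcongr))
      ((c2 q q').trans (by gcongr)) ((c3 q q').trans (by gcongr))).trans ?_
    nlinarith
  have hS : ∀ q q' : Q, (sh (q, v q)).1 = (sh (q', v q')).1 → q = q' := by
    intro q q' h
    simp only [sh_apply, Prod.mk.injEq] at h
    have h1 := hlip q q' h.2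
    have h2 : |(v q' - v q).1| ≤ ‖v q' - v q‖ := norm_fst_le (v q' - v q)
    have h3 : ‖q' - q‖ = |q'.1 - q.1| := by
      rw [Prod.norm_def]; simp [h.2]
    have h4 : (v q' - v q).1 = -(q'.1 - q.1) := by simp only [Prod.fst_sub]; linarith [h.1]
    rw [h4, abs_neg] at h2
    have h5 : |q'.1 - q.1| = 0 := by linarith [abs_nonneg (q'.1 - q.1)]
    exact Prod.ext (by linarith [abs_eq_zero.1 h5]) h.2
  have hL : ∀ q ∈ K', ∀ w : V3, ‖w‖ ≤ ρ1 → ∀ z, m / 2 * ‖z‖ ≤ ‖AA c Φ (sh (q, w)) z‖ := by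
    intro q hq w hw z
    have hz' : sh (z.1, (0, z.2)) = z := by simp [sh_apply]
    have hzn : ‖((z.1, (0, z.2)) : Q × V3)‖ = ‖z‖ := by simp [Prod.norm_def]
    have h1 := (AA c Θ (q, w) - AA c Θ (q, 0)).le_opNorm (z.1, (0, z.2))
    rw [sub_apply, AA_sh c hΦ, AA_sh c hΦ, hz', sh_zero, hzn] at h1
    have h2 : ‖AA c Θ (q, w) - AA c Θ (q, 0)‖ ≤ m / 2 := (M1 q w hw).trans (min_le_right _ _)
    have h3 := hmi q hq z
    have h4 := norm_sub_norm_le (AA c Φ (q, 0) z) (AA c Φ (sh (q, w)) z)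
    rw [norm_sub_rev] at h4
    have h5 : ‖AA c Θ (q, w) - AA c Θ (q, 0)‖ * ‖z‖ ≤ m / 2 * ‖z‖ := by gcongr
    linarith
  have hinj1 : ∀ q ∈ K', ∀ q', Θ (q, v q) = Θ (q', v q') → q = q' := by
    intro q hq q' h
    have h1 := M2 (sh (q, v q)).1 (sh (q', v q')).1 (v q).2 (v q').2
      ((norm_snd_le _).trans ((hvn q).trans d2)) ((norm_snd_le _).trans ((hvn q').trans d2)) h
    have hw : ‖(((v q).1, 0) : V3)‖ ≤ ρ1 := by
      have : ‖(((v q).1, 0) : V3)‖ = ‖(v q).1‖ := by simp [Prod.norm_def]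
      rw [this]
      exact (norm_fst_le _).trans ((hvn q).trans d1)
    have h2 := hL q hq _ hw ((sh (q', v q')).1 - (sh (q, v q)).1, (v q').2 - (v q).2)
    have h3 : sh (q, (((v q).1, 0) : V3)) = ((sh (q, v q)).1, 0) := rfl
    rw [h3] at h2
    have h4 : ‖(((sh (q', v q')).1 - (sh (q, v q)).1, (v q').2 - (v q).2) : Q × (ℝ × ℝ))‖ = 0 := by
      nlinarith [norm_nonneg
        (((sh (q', v q')).1 - (sh (q, v q)).1, (v q').2 - (v q).2) : Q × (ℝ × ℝ))]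
    have h5 := congrArg Prod.fst (norm_eq_zero.1 h4)
    exact hS q q' (sub_eq_zero.1 h5).symm
  have hdd : ∀ q, dd c (fun q => Θ (q, v q)) q =
      (AA c Θ (q, v q) ((1, 0), slow A1 A2 A3 ε u N q (1, 0)),
        AA c Θ (q, v q) ((0, 1), slow A1 A2 A3 ε u N q (0, 1) +
          (2 * Real.pi * N) • fast A1 A2 A3 ε u N q)) := by
    intro q
    rw [dd_graph c hΘ hvs, hv, vv_fderiv s1 s2 s3, vv_fderiv s1 s2 s3]
    simp
  have hdf : ∀ q, dd c f q = (AA c Θ (q, 0) ((1, 0), 0), AA c Θ (q, 0) ((0, 1), 0)) := by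
    intro q
    have := dd_graph c hΘ (v := fun _ => 0) contDiff_const q
    simp only [hΘ0] at this
    rw [this]
    simp
  have hclose : ∀ q (dq : Q) (σ : V3), ‖dq‖ ≤ 1 → ‖σ‖ ≤ δ →
      ‖AA c Θ (q, v q) (dq, σ) - AA c Θ (q, 0) (dq, 0)‖ ≤ κ := by
    intro q dq σ h1 h2
    have e : AA c Θ (q, v q) (dq, σ) - AA c Θ (q, 0) (dq, 0) =
        (AA c Θ (q, v q) - AA c Θ (q, 0)) (dq, σ) + AA c Θ (q, 0) (0, σ) := by
      have : ((dq, σ) : Q × V3) = (dq, 0) + (0, σ) := by simp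
      rw [sub_apply]
      nth_rewrite 3 [this]
      rw [map_add]; abel
    rw [e]
    have n1 : ‖((dq, σ) : Q × V3)‖ ≤ 1 := by
      rw [Prod.norm_def]; exact max_le h1 (by linarith)
    have n2 : ‖((0, σ) : Q × V3)‖ ≤ δ := by
      rw [Prod.norm_def]; exact max_le (by simpa using hδpos.le) h2
    have k1 : ‖AA c Θ (q, v q) - AA c Θ (q, 0)‖ ≤ κ / 2 :=
      (M1 q _ ((hvn q).trans d1)).trans (min_le_left _ _)
    have k2 := (AA c Θ (q, v q) - AA c Θ (q, 0)).le_opNorm (dq, σ)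
    have k3 := (AA c Θ (q, 0)).le_opNorm (0, σ)
    have k4 : ‖AA c Θ (q, v q) - AA c Θ (q, 0)‖ * ‖((dq, σ) : Q × V3)‖ ≤ κ / 2 * 1 := by gcongr
    have k5 : ‖AA c Θ (q, 0)‖ * ‖((0, σ) : Q × V3)‖ ≤ B0 * δ := by
      have := hB0' q
      gcongr
    linarith [norm_add_le ((AA c Θ (q, v q) - AA c Θ (q, 0)) (dq, σ)) (AA c Θ (q, 0) (0, σ))]
  have hP : ∀ q (w : V3), AA c Φ (sh (q, w)) (0, (0, 1)) = AA c Θ (q, w) (0, (0, 0, 1)) := by
    intro q w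
    rw [AA_sh c hΦ]
    congr 1
    ext <;> simp [sh_apply]
  have hsegl : ∀ q, SegInj (dd c (fun q => Θ (q, v q)) q)
      ((dd c (fun q => Θ (q, v q)) q).1, AA c Φ (sh (q, v q)) (0, (0, 1))) := by
    intro q
    by_cases hq : q ∈ K'
    · intro t _ _ a b hab
      rw [hdd, hP] at hab
      set σ1 := slow A1 A2 A3 ε u N q (1, 0) with hσ1
      set σ2 := slow A1 A2 A3 ε u N q (0, 1) + (2 * Real.pi * N) • fast A1 A2 A3 ε u N q
      have hσ : |σ1.1| ≤ 1 / 2 :=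
        (norm_fst_le σ1).trans ((hsn' q (1, 0) (by simp [Prod.norm_def])).trans d3)
      have e : AA c Θ (q, v q) (a • ((1, 0), σ1) + (b * (1 - t)) • ((0, 1), σ2) +
          (b * t) • (0, (0, 0, 1))) = 0 := by
        rw [← hab]
        simp only [map_add, map_smul, Prod.fst_add, Prod.snd_add, Prod.smul_fst, Prod.smul_snd,
          Prod.fst_sub, Prod.snd_sub]
        module
      rw [AA_sh c hΦ] at e
      have h1 := hL q hq _ ((hvn q).trans d1) (sh (a • ((1, 0), σ1) +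
        (b * (1 - t)) • ((0, 1), σ2) + (b * t) • (0, (0, 0, 1))))
      rw [e, norm_zero] at h1
      have h2 : sh (a • (((1, 0), σ1) : Q × V3) + (b * (1 - t)) • ((0, 1), σ2) +
          (b * t) • (0, (0, 0, 1))) = 0 := by
        rw [← norm_eq_zero]
        nlinarith [norm_nonneg (sh (a • (((1, 0), σ1) : Q × V3) +
          (b * (1 - t)) • ((0, 1), σ2) + (b * t) • (0, (0, 0, 1))))]
      have g1 := congrArg (fun x => x.1.1) h2
      have g2 := congrArg (fun x => x.1.2) h2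
      have g3 := congrArg (fun x => x.2.2) h2
      simp only [sh_apply, Prod.fst_add, Prod.snd_add, Prod.smul_fst, Prod.smul_snd, smul_eq_mul,
        Prod.fst_zero, Prod.snd_zero, mul_zero, mul_one, add_zero, zero_add] at g1 g2 g3
      rw [g2] at g1 g3
      have ha : a = 0 := by
        have : a * (1 + σ1.1) = 0 := by linarith
        rcases mul_eq_zero.1 this with h | h
        · exact h
        · linarith [(abs_le.1 hσ).1]
      rw [ha] at g3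
      exact ⟨ha, by linarith⟩
    · have hev : (fun q => Θ (q, v q)) =ᶠ[nhds q] f := by
        filter_upwards [hK.isOpen_compl.mem_nhds hq] with x hx
        rw [hv0 x hx, hΘ0]
      have e : dd c (fun q => Θ (q, v q)) q = dd c f q := by
        simp only [dd, hev.fderiv_eq, hv0 q hq, hΘ0]
      rw [e, hv0 q hq, sh_zero, hn]
      exact hseg q
  refine ⟨⟨hΘ.comp (contDiff_id.prodMk hvs), fun q k => ?_, fun q q' h => ?_, fun q => ?_⟩,
    fun q => ⟨?_, ?_, hsegl q, ?_⟩⟩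
  · show Θ (q + lat k, v (q + lat k)) = Θ (q, v q) + c.i (lat k)
    rw [hvp q k, hΘp]
  · by_cases hq : q ∈ K'
    · exact hinj1 q hq q' h
    by_cases hq' : q' ∈ K'
    · exact (hinj1 q' hq' q h.symm).symm
    have h' : Θ (q, v q) = Θ (q', v q') := h
    rw [hv0 q hq, hv0 q' hq', hΘ0, hΘ0] at h'
    exact hf.inj h'
  · have := hsegl q 0 le_rfl zero_le_one
    simpa using this
  · show ‖(dd c (fun q => Θ (q, v q)) q).1 - (dd c f q).1‖ ≤ κ
    rw [hdd, hdf]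
    exact hclose q _ _ (by simp [Prod.norm_def]) (hsn' q _ (by simp [Prod.norm_def]))
  · rw [← hn q, ← sh_zero q, hP, hP, ← sub_apply]
    refine ((AA c Θ (q, v q) - AA c Θ (q, 0)).le_opNorm _).trans ?_
    have k1 : ‖AA c Θ (q, v q) - AA c Θ (q, 0)‖ ≤ κ / 2 :=
      (M1 q _ ((hvn q).trans d1)).trans (min_le_left _ _)
    have k2 : ‖((0, (0, 0, 1)) : Q × V3)‖ = 1 := by simp [Prod.norm_def]
    rw [k2]; linarith
  · show ‖(dd c (fun q => Θ (q, v q)) q).2 - _ - (dd c f q).2‖ ≤ κ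
    rw [hdd, hdf, ← AA_sh c hΦ]
    have e : (((0, 1), slow A1 A2 A3 ε u N q (0, 1) +
        (2 * Real.pi * N) • fast A1 A2 A3 ε u N q) : Q × V3) =
        ((0, 1), slow A1 A2 A3 ε u N q (0, 1)) +
          (2 * Real.pi * N) • (0, fast A1 A2 A3 ε u N q) := by simp
    have k := hclose q (0, 1) (slow A1 A2 A3 ε u N q (0, 1)) (by simp [Prod.norm_def])
      (hsn' q _ (by simp [Prod.norm_def]))
    have e' : AA c Θ (q, v q) (((0, 1), slow A1 A2 A3 ε u N q (0, 1) +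
        (2 * Real.pi * N) • fast A1 A2 A3 ε u N q) : Q × V3) -
        (2 * Real.pi * N) • AA c Θ (q, v q) (0, fast A1 A2 A3 ε u N q) =
        AA c Θ (q, v q) ((0, 1), slow A1 A2 A3 ε u N q (0, 1)) := by
      rw [e, map_add, map_smul, add_sub_cancel_right]
    rw [← e'] at k
    exact k

end Snake

end Pool.Agent.Lib.MP_72f1d0_gt
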