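import Mathlib
import Pool.Agent.Lib.MP_72f1d0_gt.Snake2

/-!
The fast part of the snake: the `α`-component of the fast derivative is
`ε ^ 5 β ^ 2 / 2 + O (ε ^ 6)`.
-/

open scoped ContDiff

namespace Pool.Agent.Lib.MP_72f1d0_gt

namespace Snake

/-- The displacement of `f` along the fields `j` and `n`. -/
noncomputable def Ph (Ψ : G × G → G) (f j n : Q → G) (z : Q × (ℝ × ℝ)) : G :=
  Ψ (f z.1, z.2.1 • j z.1 + z.2.2 • n z.1)

theorem Ph_smooth {Ψ : G × G → G} {f j n : Q → G} (hΨ : ContDiff ℝ ∞ Ψ) (hf : ContDiff ℝ ∞ f)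
    (hj : ContDiff ℝ ∞ j) (hn : ContDiff ℝ ∞ n) : ContDiff ℝ ∞ (Ph Ψ f j n) := by
  have g1 : ContDiff ℝ ∞ fun z : Q × (ℝ × ℝ) => j z.1 := hj.comp contDiff_fst
  have g2 : ContDiff ℝ ∞ fun z : Q × (ℝ × ℝ) => n z.1 := hn.comp contDiff_fst
  have k1 : ContDiff ℝ ∞ fun z : Q × (ℝ × ℝ) => z.2.1 := contDiff_snd.fst
  have k2 : ContDiff ℝ ∞ fun z : Q × (ℝ × ℝ) => z.2.2 := contDiff_snd.snd
  exact hΨ.comp ((hf.comp contDiff_fst).prodMk ((k1.smul g1).add (k2.smul g2)))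

theorem AA_Ph (c : Ctx) {Ψ : G × G → G} {f j n : Q → G} (hΨ : ContDiff ℝ ∞ Ψ)
    (hf : ContDiff ℝ ∞ f) (hj : ContDiff ℝ ∞ j) (hn : ContDiff ℝ ∞ n) (z dz : Q × (ℝ × ℝ)) :
    AA c (Ph Ψ f j n) z dz = AA c Ψ (f z.1, z.2.1 • j z.1 + z.2.2 • n z.1)
      (c.e (f z.1) (ap (dd c f z.1) dz.1), dz.2.1 • j z.1 + dz.2.2 • n z.1 +
        z.2.1 • fderiv ℝ j z.1 dz.1 + z.2.2 • fderiv ℝ n z.1 dz.1) := by
  have a0 : HasFDerivAt (fun z : Q × (ℝ × ℝ) => z.1) (ContinuousLinearMap.fst ℝ Q (ℝ × ℝ)) z :=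
    hasFDerivAt_fst
  have a1 : HasFDerivAt (fun z : Q × (ℝ × ℝ) => f z.1) _ z :=
    (hf.differentiable (by simp) z.1).hasFDerivAt.comp z a0
  have a2 : HasFDerivAt (fun z : Q × (ℝ × ℝ) => j z.1) _ z :=
    (hj.differentiable (by simp) z.1).hasFDerivAt.comp z a0
  have a3 : HasFDerivAt (fun z : Q × (ℝ × ℝ) => n z.1) _ z :=
    (hn.differentiable (by simp) z.1).hasFDerivAt.comp z a0
  have k0 : HasFDerivAt (fun z : Q × (ℝ × ℝ) => z.2) (ContinuousLinearMap.snd ℝ Q (ℝ × ℝ)) z :=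
    hasFDerivAt_snd
  have k1 : HasFDerivAt (fun z : Q × (ℝ × ℝ) => z.2.1) _ z := k0.fst
  have k2 : HasFDerivAt (fun z : Q × (ℝ × ℝ) => z.2.2) _ z := k0.snd
  have b := a1.prodMk ((k1.smul a2).add (k2.smul a3))
  have d : HasFDerivAt (Ph Ψ f j n) _ z :=
    (hΨ.differentiable (by simp) (f z.1, z.2.1 • j z.1 + z.2.2 • n z.1)).hasFDerivAt.comp z b
  simp only [AA, d.fderiv, ContinuousLinearMap.comp_apply, ContinuousLinearMap.prod_apply,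
    add_apply, smul_apply, ContinuousLinearMap.smulRight_apply, ContinuousLinearMap.coe_fst',
    ContinuousLinearMap.coe_snd', fderiv_eq c f, Ph]
  congr 3
  abel

/-- The second order Maurer-Cartan expansion along `f`. -/
def MC (c : Ctx) (Ψ : G × G → G) (f : Q → G) (C : ℝ) : Prop :=
  ∀ q (w : G), ‖w‖ ≤ 1 → ∀ x w' : G, ‖AA c Ψ (f q, w) (c.e (f q) x, w') -
    (x + c.br (f q) w x + w' + (1 / 2 : ℝ) • c.br (f q) w w')‖ ≤ C * ‖w‖ ^ 2 * (‖x‖ + ‖w'‖)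

theorem AA_Ph0 (c : Ctx) {Ψ : G × G → G} {f j n : Q → G} (hΨ : ContDiff ℝ ∞ Ψ)
    (hf : ContDiff ℝ ∞ f) (hj : ContDiff ℝ ∞ j) (hn : ContDiff ℝ ∞ n) {C : ℝ} (hMC : MC c Ψ f C)
    (q : Q) (dz : Q × (ℝ × ℝ)) :
    AA c (Ph Ψ f j n) (q, 0) dz = ap (dd c f q) dz.1 + dz.2.1 • j q + dz.2.2 • n q := by
  rw [AA_Ph c hΨ hf hj hn]
  have := hMC q 0 (by simp) (ap (dd c f q) dz.1) (dz.2.1 • j q + dz.2.2 • n q)
  simp only [br_zero_left, norm_zero, add_zero, smul_zero] at this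
  have h2 := sub_eq_zero.1 (norm_le_zero_iff.1 (this.trans (by simp)))
  simp only [Prod.fst_zero, Prod.snd_zero, zero_smul, add_zero]
  rw [h2, add_assoc]

theorem bm {a b A B : ℝ} (h1 : |a| ≤ A) (h2 : |b| ≤ B) : |a * b| ≤ A * B := by
  rw [abs_mul]; exact mul_le_mul h1 h2 (abs_nonneg _) ((abs_nonneg _).trans h1)

theorem ba {a b A B : ℝ} (h1 : |a| ≤ A) (h2 : |b| ≤ B) : |a + b| ≤ A + B :=
  (abs_add_le _ _).trans (add_le_add h1 h2)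

theorem bs {a b A B : ℝ} (h1 : |a| ≤ A) (h2 : |b| ≤ B) : |a - b| ≤ A + B :=
  (abs_sub _ _).trans (add_le_add h1 h2)

theorem bn {a A B : ℝ} {v : G} (h1 : |a| ≤ A) (h2 : ‖v‖ ≤ B) : ‖a • v‖ ≤ A * B := by
  rw [norm_smul]; exact mul_le_mul h1 h2 (norm_nonneg _) ((abs_nonneg _).trans h1)

theorem bv {A B : ℝ} {v w : G} (h1 : ‖v‖ ≤ A) (h2 : ‖w‖ ≤ B) : ‖v + w‖ ≤ A + B :=
  (norm_add_le _ _).trans (add_le_add h1 h2)

theorem b2 : |(2 : ℝ)| ≤ 2 := by norm_num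

/-- Twice the remainder. -/
def rem (ε C1 S1 S2 C2 ν β δ yh yd e1 e2 e3 e4 onm ans r1 r2 r3 ojn : ℝ) : ℝ :=
  2 * β * S1 * yh * onm + 2 * β * S1 * yh * ans + ε * ν * δ * (2 * C2 * S1 - S2 * C1) * ojn +
    β * S1 * (ε * ν * ν * S1 * S1 * r1 + ε * ε * ν * S1 * yh * r2 + ε * ε * ε * yh * yh * r3) -
    β * C1 * (2 * β * S1 * e1 + 2 * ε * ε * β * ν * S1 * S1 * e3 + 2 * yd * e2 +
      ε * ε * ν * (S1 * yd - yh * C1) * e4)

theorem rem_le (B : ℝ) : ∃ D : ℝ, ∀ ε C1 S1 S2 C2 ν β γ δ e1 e2 e3 e4 onm ans r1 r2 r3 ojn : ℝ,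
    |ε| ≤ B → |C1| ≤ B → |S1| ≤ B → |S2| ≤ B → |C2| ≤ B → |ν| ≤ B → |β| ≤ B → |γ| ≤ B →
    |δ| ≤ B → |e1| ≤ B → |e2| ≤ B → |e3| ≤ B → |e4| ≤ B → |onm| ≤ B → |ans| ≤ B → |r1| ≤ B →
    |r2| ≤ B → |r3| ≤ B → |ojn| ≤ B →
    |rem ε C1 S1 S2 C2 ν β δ (β * γ * C1 + ε * ε * δ * S2) (2 * ε * ε * δ * C2 - β * γ * S1)
      e1 e2 e3 e4 onm ans r1 r2 r3 ojn| ≤ D := by
  apply Exists.intro
  · intro ε C1 S1 S2 C2 ν β γ δ e1 e2 e3 e4 onm ans r1 r2 r3 ojn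
      h1 h2 h3 h4 h5 h6 h7 h8 h9 h10 h11 h12 h13 h14 h15 h16 h17 h18 h19
    unfold rem
    repeat' first | assumption | exact b2 | apply bs | apply ba | apply bm

theorem vec_le (B : ℝ) : ∃ D1 D2 D3 : ℝ, ∀ (ε C1 S1 S2 C2 ν β γ δ : ℝ) (j n μ js ns : G),
    |ε| ≤ B → |C1| ≤ B → |S1| ≤ B → |S2| ≤ B → |C2| ≤ B → |ν| ≤ B → |β| ≤ B → |γ| ≤ B →
    |δ| ≤ B → ‖j‖ ≤ B → ‖n‖ ≤ B → ‖μ‖ ≤ B → ‖js‖ ≤ B → ‖ns‖ ≤ B →
    ‖(ν * S1) • j + (ε * (β * γ * C1 + ε * ε * δ * S2)) • n‖ ≤ D1 ∧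
    ‖(ε * β * S1) • μ‖ ≤ D2 ∧
    ‖(ν * C1) • j + (ε * (2 * ε * ε * δ * C2 - β * γ * S1)) • n +
      (ε * ε * ε * ν * β * S1 * S1) • js +
      (ε * ε * ε * ε * (β * γ * C1 + ε * ε * δ * S2) * β * S1) • ns‖ ≤ D3 := by
  apply Exists.intro
  · apply Exists.intro
    · apply Exists.intro
      · intro ε C1 S1 S2 C2 ν β γ δ j n μ js ns h1 h2 h3 h4 h5 h6 h7 h8 h9 h10 h11 h12 h13 h14
        refine ⟨?_, ?_, ?_⟩
        all_goals
          repeat' first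
            | assumption | exact b2 | apply bv | apply bn | apply bs | apply ba | apply bm

theorem quot {a a' η B : ℝ} (hB : 0 ≤ B) (h : |a' - a| ≤ B * |η|) :
    ∃ e, |e| ≤ B ∧ a' = a + η * e := by
  by_cases h0 : η = 0
  · refine ⟨0, by simpa using hB, ?_⟩
    simp only [h0, abs_zero, mul_zero, abs_nonpos_iff] at h
    linarith
  · refine ⟨(a' - a) / η, ?_, by field_simp; ring⟩
    rw [abs_div, div_le_iff₀ (abs_pos.2 h0)]
    exact h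

/-- The form `Ω`. -/
noncomputable def Om (c : Ctx) (f A B : Q → G) (q : Q) : ℝ := al (c.br (f q) (A q) (B q))

noncomputable def mu (c : Ctx) (f : Q → G) (q : Q) : G := (dd c f q).1

noncomputable def ds (j : Q → G) (q : Q) : G := fderiv ℝ j q (1, 0)

noncomputable def ga (c : Ctx) (f : Q → G) (k : Q → ℝ) (q : Q) : ℝ := al (mu c f q) * k q

noncomputable def be (c : Ctx) (f j n : Q → G) (ν k : Q → ℝ) (q : Q) : ℝ :=
  ν q * (Om c f j (mu c f) q - ga c f k q * Om c f j n q)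

noncomputable def de (c : Ctx) (f j n : Q → G) (ν k : Q → ℝ) (q : Q) : ℝ :=
  ν q * be c f j n ν k q * Om c f j (mu c f) q * k q / 4

noncomputable def U1 (c : Ctx) (f j n : Q → G) (ν k : Q → ℝ) (q : Q) : V3 :=
  (-be c f j n ν k q, 0, be c f j n ν k q * ga c f k q)

def U2 (ν : Q → ℝ) (q : Q) : V3 := (0, ν q, 0)

noncomputable def U3 (c : Ctx) (f j n : Q → G) (ν k : Q → ℝ) (q : Q) : V3 :=
  (0, 0, de c f j n ν k q)

/-- Smooth and periodic. -/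
def SP {E : Type*} [NormedAddCommGroup E] [NormedSpace ℝ E] (g : Q → E) : Prop :=
  ContDiff ℝ ∞ g ∧ Per g

theorem SP.mul {g h : Q → ℝ} (hg : SP g) (hh : SP h) : SP fun q => g q * h q :=
  ⟨hg.1.mul hh.1, fun q m => by simp only [hg.2 q m, hh.2 q m]⟩

theorem SP.sub {E : Type*} [NormedAddCommGroup E] [NormedSpace ℝ E] {g h : Q → E} (hg : SP g)
    (hh : SP h) : SP fun q => g q - h q :=
  ⟨hg.1.sub hh.1, fun q m => by simp only [hg.2 q m, hh.2 q m]⟩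

theorem SP.add {E : Type*} [NormedAddCommGroup E] [NormedSpace ℝ E] {g h : Q → E} (hg : SP g)
    (hh : SP h) : SP fun q => g q + h q :=
  ⟨hg.1.add hh.1, fun q m => by simp only [hg.2 q m, hh.2 q m]⟩

theorem SP.smul {E : Type*} [NormedAddCommGroup E] [NormedSpace ℝ E] {g : Q → ℝ} {h : Q → E}
    (hg : SP g) (hh : SP h) : SP fun q => g q • h q :=
  ⟨hg.1.smul hh.1, fun q m => by simp only [hg.2 q m, hh.2 q m]⟩

theorem SP.neg {g : Q → ℝ} (hg : SP g) : SP fun q => -g q :=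
  ⟨hg.1.neg, fun q m => by simp only [hg.2 q m]⟩

theorem SP.const {E : Type*} [NormedAddCommGroup E] [NormedSpace ℝ E] (a : E) :
    SP fun _ : Q => a := ⟨contDiff_const, fun _ _ => rfl⟩

theorem SP.prod {E F : Type*} [NormedAddCommGroup E] [NormedSpace ℝ E] [NormedAddCommGroup F]
    [NormedSpace ℝ F] {g : Q → E} {h : Q → F} (hg : SP g) (hh : SP h) :
    SP fun q => (g q, h q) :=
  ⟨hg.1.prodMk hh.1, fun q m => by simp only [hg.2 q m, hh.2 q m]⟩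

theorem SP.al {g : Q → G} (hg : SP g) : SP fun q => al (g q) :=
  ⟨al_smooth hg.1, fun q m => by simp only [hg.2 q m]⟩

theorem SP.ds {g : Q → G} (hg : SP g) : SP (ds g) :=
  ⟨(hg.1.fderiv_right (m := ∞) (by simp)).clm_apply contDiff_const,
    fun q m => by simp only [Snake.ds, per_fderiv hg.2 q m]⟩

theorem sp_mu {c : Ctx} {f : Q → G} (hf : IsEmb c f) : SP (mu c f) :=
  ⟨(dd_smooth c hf.smooth).fst, fun q m => by simp only [mu, dd_per c hf.equi q m]⟩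

theorem sp_tau {c : Ctx} {f : Q → G} (hf : IsEmb c f) : SP fun q => (dd c f q).2 :=
  ⟨(dd_smooth c hf.smooth).snd, fun q m => by simp only [dd_per c hf.equi q m]⟩

theorem sp_Om {c : Ctx} {f A B : Q → G} (hf : IsEmb c f) (hA : SP A) (hB : SP B) :
    SP (Om c f A B) :=
  ⟨al_smooth (br_smooth c hf.smooth hA.1 hB.1),
    fun q m => by simp only [Om, hf.equi, br_per, hA.2 q m, hB.2 q m]⟩

theorem sp_ga {c : Ctx} {f : Q → G} {k : Q → ℝ} (hf : IsEmb c f) (hk : SP k) : SP (ga c f k) :=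
  (sp_mu hf).al.mul hk

theorem sp_be {c : Ctx} {f j n : Q → G} {ν k : Q → ℝ} (hf : IsEmb c f) (hj : SP j) (hn : SP n)
    (hν : SP ν) (hk : SP k) : SP (be c f j n ν k) :=
  hν.mul ((sp_Om hf hj (sp_mu hf)).sub ((sp_ga hf hk).mul (sp_Om hf hj hn)))

theorem sp_de {c : Ctx} {f j n : Q → G} {ν k : Q → ℝ} (hf : IsEmb c f) (hj : SP j) (hn : SP n)
    (hν : SP ν) (hk : SP k) : SP (de c f j n ν k) := by
  have := (((hν.mul (sp_be hf hj hn hν hk)).mul (sp_Om hf hj (sp_mu hf))).mul hk).mul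
    (SP.const (4 : ℝ)⁻¹)
  exact this

theorem sp_U1 {c : Ctx} {f j n : Q → G} {ν k : Q → ℝ} (hf : IsEmb c f) (hj : SP j) (hn : SP n)
    (hν : SP ν) (hk : SP k) : SP (U1 c f j n ν k) :=
  (sp_be hf hj hn hν hk).neg.prod ((SP.const 0).prod ((sp_be hf hj hn hν hk).mul (sp_ga hf hk)))

theorem sp_U2 {ν : Q → ℝ} (hν : SP ν) : SP (U2 ν) :=
  (SP.const 0).prod (hν.prod (SP.const 0))

theorem sp_U3 {c : Ctx} {f j n : Q → G} {ν k : Q → ℝ} (hf : IsEmb c f) (hj : SP j) (hn : SP n)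
    (hν : SP ν) (hk : SP k) : SP (U3 c f j n ν k) :=
  (SP.const 0).prod ((SP.const 0).prod (sp_de hf hj hn hν hk))

theorem al_ds {j : Q → G} (hj : SP j) (h0 : ∀ q, al (j q) = 0) (q : Q) : al (ds j q) = 0 := by
  set L : G →L[ℝ] ℝ := Complex.reCLM.comp (ContinuousLinearMap.snd ℝ ℂ ℂ)
  have a1 : HasFDerivAt (fun q => L (j q)) _ q :=
    L.hasFDerivAt.comp q (hj.1.differentiable (by simp) q).hasFDerivAt
  have a2 : (fun q => L (j q)) = fun _ => 0 := funext h0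
  rw [a2] at a1
  have a3 := a1.unique (hasFDerivAt_const 0 q)
  exact congrArg (fun T : Q →L[ℝ] ℝ => T (1, 0)) a3

theorem est (c : Ctx) {Ψ : G × G → G} {f j n : Q → G} {ν k : Q → ℝ} (hΨ : ContDiff ℝ ∞ Ψ)
    (hf : IsEmb c f) (hj : SP j) (hn : SP n) (hν : SP ν) (hk : SP k) {C : ℝ} (hC : 0 ≤ C)
    (hMC : MC c Ψ f C) (h0 : ∀ q, al (j q) = 0) (hkn : ∀ q, ν q * (k q * al (n q)) = ν q) :
    ∃ C' ε2 : ℝ, 0 ≤ C' ∧ 0 < ε2 ∧ ∀ ε, 0 < ε → ε ≤ ε2 → ∀ (N : ℕ) (q : Q),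
      ε ^ 5 * (be c f j n ν k q ^ 2 / 2) - C' * ε ^ 6 ≤
        al (AA c (Ph Ψ f j n) (sh (q, vv (U1 c f j n ν k) (U2 ν) (U3 c f j n ν k) ε 1 N q))
          (sh (0, fast (U1 c f j n ν k) (U2 ν) (U3 c f j n ν k) ε 1 N q))) := by
  have hμ := sp_mu hf
  have F1 := hν.prod ((sp_be hf hj hn hν hk).prod ((sp_ga hf hk).prod
    ((sp_de hf hj hn hν hk).prod ((sp_Om hf hn hμ).prod (hn.ds.al.prod ((sp_Om hf hj hj.ds).prod
    (((sp_Om hf hj hn.ds).add (sp_Om hf hn hj.ds)).prod ((sp_Om hf hn hn.ds).prod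
    ((sp_Om hf hj hn).prod (hj.prod (hn.prod (hμ.prod (hj.ds.prod hn.ds)))))))))))))
  have F2 := hμ.al.prod (hn.al.prod ((sp_Om hf hj hμ).prod (sp_Om hf hj hn)))
  obtain ⟨B1, hB1, a1, -, -⟩ := per_lip F1.1 F1.2
  obtain ⟨B2, hB2, -, -, a2⟩ := per_lip F2.1 F2.2
  set B := B1 + B2 + 1 with hB
  have a1' := fun q => (a1 q).trans (show B1 ≤ B by linarith)
  have a2' := fun q q' => (a2 q q').trans
    (mul_le_mul_of_nonneg_right (show B2 ≤ B by linarith) (norm_nonneg (q' - q)))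
  simp only [norm_prod_le_iff, Real.norm_eq_abs, Prod.mk_sub_mk] at a1' a2'
  have hB1' : 1 ≤ B := by linarith
  obtain ⟨D, hD⟩ := rem_le B
  obtain ⟨D1, D2, D3, hD'⟩ := vec_le B
  refine ⟨|D| / 2 + C * D1 ^ 2 * |D2 + D3|, min 1 (1 / (|D1| + 1)), by positivity,
    by positivity, fun ε hε hε2 N q => ?_⟩
  have e1 : ε ≤ 1 := hε2.trans (min_le_left _ _)
  have e2 : ε * (|D1| + 1) ≤ 1 := by
    have := hε2.trans (min_le_right _ _)
    rwa [le_div_iff₀ (by positivity)] at this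
  set β := be c f j n ν k q with hβ
  set γ := ga c f k q with hγ
  set δ := de c f j n ν k q with hδ
  set C1 := Real.cos (th N q)
  set S1 := Real.sin (th N q)
  set S2 := Real.sin (2 * th N q)
  set C2 := Real.cos (2 * th N q)
  have t1 : C1 ^ 2 + S1 ^ 2 = 1 := Real.cos_sq_add_sin_sq _
  have t2 : C2 = 1 - 2 * S1 ^ 2 := Real.cos_two_mul' _ |>.trans (by linarith)
  have bε : |ε| ≤ B := by rw [abs_of_pos hε]; linarith
  have bC1 : |C1| ≤ B := (Real.abs_cos_le_one _).trans hB1'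
  have bS1 : |S1| ≤ B := (Real.abs_sin_le_one _).trans hB1'
  have bS2 : |S2| ≤ B := (Real.abs_sin_le_one _).trans hB1'
  have bC2 : |C2| ≤ B := (Real.abs_cos_le_one _).trans hB1'
  set η := -(ε ^ 3 * β * C1) with hη
  set q' : Q := (q.1 + η, q.2) with hq'
  set yh := β * γ * C1 + ε * ε * δ * S2 with hyh
  set yd := 2 * ε * ε * δ * C2 - β * γ * S1 with hyd
  have hs1 : sh (q, vv (U1 c f j n ν k) (U2 ν) (U3 c f j n ν k) ε 1 N q) =
      (q', (ε ^ 2 * (ν q * S1), ε ^ 3 * yh)) := by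
    simp only [sh_apply, vv, U1, U2, U3, Prod.fst_add, Prod.snd_add, Prod.smul_mk, smul_eq_mul,
      hq', hη, hyh]
    ext <;> simp only [Prod.fst_add, Prod.snd_add] <;> ring
  have hs2 : sh (0, fast (U1 c f j n ν k) (U2 ν) (U3 c f j n ν k) ε 1 N q) =
      ((ε ^ 3 * β * S1) • ((1, 0) : Q), (ε ^ 2 * (ν q * C1), ε ^ 3 * yd)) := by
    simp only [sh_apply, fast, U1, U2, U3, Prod.fst_add, Prod.snd_add, Prod.smul_mk, smul_eq_mul,
      hyd]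
    ext <;> simp only [Prod.fst_add, Prod.snd_add, Prod.fst_zero, Prod.snd_zero] <;> ring
  have hqq : ‖q' - q‖ = |η| := by
    rw [hq', Prod.norm_def]; simp
  obtain ⟨p1, p2, p3, p4, -⟩ := a1' q
  obtain ⟨-, -, -, -, p5, p6, p7, p8, p9, -, p11, p12, p13, p14, p15⟩ := a1' q'
  have p10 := (a1' q).2.2.2.2.2.2.2.2.2.1
  obtain ⟨l1, l2, l3, l4⟩ := a2' q q'
  rw [hqq] at l1 l2 l3 l4
  obtain ⟨x1, y1, z1⟩ := quot (by linarith) l1
  obtain ⟨x2, y2, z2⟩ := quot (by linarith) l2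
  obtain ⟨x3, y3, z3⟩ := quot (by linarith) l3
  obtain ⟨x4, y4, z4⟩ := quot (by linarith) l4
  have R := hD ε C1 S1 S2 C2 (ν q) β γ δ x1 x2 x3 x4 _ _ _ _ _ _ bε bC1 bS1 bS2 bC2 p1 p2 p3 p4
    y1 y2 y3 y4 p5 p6 p7 p8 p9 p10
  obtain ⟨n1, n2, n3⟩ := hD' ε C1 S1 S2 C2 (ν q) β γ δ (j q') (n q') (mu c f q') (ds j q')
    (ds n q') bε bC1 bS1 bS2 bC2 p1 p2 p3 p4 (norm_prod_le_iff.2 p11) (norm_prod_le_iff.2 p12)
    (norm_prod_le_iff.2 p13) (norm_prod_le_iff.2 p14) (norm_prod_le_iff.2 p15)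
  rw [← hyh] at n1 n3 R
  rw [← hyd] at n3 R
  set w0 := (ν q * S1) • j q' + (ε * yh) • n q' with hw0
  set x0 := (ε * β * S1) • mu c f q' with hx0
  set w1 := (ν q * C1) • j q' + (ε * yd) • n q' + (ε * ε * ε * ν q * β * S1 * S1) • ds j q' +
    (ε * ε * ε * ε * yh * β * S1) • ds n q' with hw1
  have hε2' : 0 < ε ^ 2 := by positivity
  have nw : ‖ε ^ 2 • w0‖ ≤ ε ^ 2 * D1 := by
    rw [norm_smul, Real.norm_of_nonneg hε2'.le]; gcongr
  have nx : ‖ε ^ 2 • x0‖ ≤ ε ^ 2 * D2 := by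
    rw [norm_smul, Real.norm_of_nonneg hε2'.le]; gcongr
  have nw1 : ‖ε ^ 2 • w1‖ ≤ ε ^ 2 * D3 := by
    rw [norm_smul, Real.norm_of_nonneg hε2'.le]; gcongr
  have hD1 : 0 ≤ D1 := (norm_nonneg _).trans n1
  have nw' : ‖ε ^ 2 • w0‖ ≤ 1 := by
    rw [abs_of_nonneg hD1] at e2
    nlinarith [mul_nonneg hε.le hD1]
  have M := hMC q' _ nw' (ε ^ 2 • x0) (ε ^ 2 • w1)
  have M2 : C * ‖ε ^ 2 • w0‖ ^ 2 * (‖ε ^ 2 • x0‖ + ‖ε ^ 2 • w1‖) ≤
      C * D1 ^ 2 * |D2 + D3| * ε ^ 6 := by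
    calc _ ≤ C * (ε ^ 2 * D1) ^ 2 * (ε ^ 2 * |D2 + D3|) := by
          gcongr
          nlinarith [le_abs_self (D2 + D3)]
      _ = _ := by ring
  have M3 := (al_le _).trans (M.trans M2)
  rw [al_sub] at M3
  have hA : AA c (Ph Ψ f j n) (q', (ε ^ 2 * (ν q * S1), ε ^ 3 * yh))
      ((ε ^ 3 * β * S1) • ((1, 0) : Q), (ε ^ 2 * (ν q * C1), ε ^ 3 * yd)) =
      AA c Ψ (f q', ε ^ 2 • w0) (c.e (f q') (ε ^ 2 • x0), ε ^ 2 • w1) := by
    rw [AA_Ph c hΨ hf.smooth hj.1 hn.1]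
    have g1 : (ε ^ 2 * (ν q * S1)) • j q' + (ε ^ 3 * yh) • n q' = ε ^ 2 • w0 := by
      rw [hw0]; module
    have g2 : ap (dd c f q') ((ε ^ 3 * β * S1) • ((1, 0) : Q)) = ε ^ 2 • x0 := by
      simp only [hx0, ap, mu, Prod.smul_mk, smul_eq_mul, mul_zero, zero_smul]; module
    have g3 : (ε ^ 2 * (ν q * C1)) • j q' + (ε ^ 3 * yd) • n q' +
        (ε ^ 2 * (ν q * S1)) • fderiv ℝ j q' ((ε ^ 3 * β * S1) • ((1, 0) : Q)) +
        (ε ^ 3 * yh) • fderiv ℝ n q' ((ε ^ 3 * β * S1) • ((1, 0) : Q)) = ε ^ 2 • w1 := by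
      simp only [hw1, map_smul, ds]; module
    simp only [g1, g2, g3]
  have hmain : al (ε ^ 2 • x0 + c.br (f q') (ε ^ 2 • w0) (ε ^ 2 • x0) + ε ^ 2 • w1 +
      (1 / 2 : ℝ) • c.br (f q') (ε ^ 2 • w0) (ε ^ 2 • w1)) = ε ^ 5 * (β ^ 2 / 2) +
      ε ^ 6 * (rem ε C1 S1 S2 C2 (ν q) β δ yh yd x1 x2 x3 x4 (Om c f n (mu c f) q')
        (al (ds n q')) (Om c f j (ds j) q') (Om c f j (ds n) q' + Om c f n (ds j) q')
        (Om c f n (ds n) q') (Om c f j n q) / 2) := by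
    have sw : al (c.br (f q') (n q') (j q')) = -al (c.br (f q') (j q') (n q')) := by
      rw [br_swap]; simp [al]
    have k1 : β = ν q * (Om c f j (mu c f) q - γ * Om c f j n q) := rfl
    have k2 : γ = al (mu c f q) * k q := rfl
    have k3 : δ = ν q * β * Om c f j (mu c f) q * k q / 4 := rfl
    have k4 : β * (k q * al (n q)) = β := by
      rw [k1]
      linear_combination (Om c f j (mu c f) q - γ * Om c f j n q) * hkn q
    have k5 : β * γ * al (n q) = β * al (mu c f q) := by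
      rw [k2]; linear_combination al (mu c f q) * k4
    have k6 : δ * al (n q) = ν q * β * Om c f j (mu c f) q / 4 := by
      rw [k3]; linear_combination ν q * Om c f j (mu c f) q / 4 * k4
    have z3' : al (c.br (f q') (j q') (mu c f q')) = Om c f j (mu c f) q + η * x3 := z3
    have z4' : al (c.br (f q') (j q') (n q')) = Om c f j n q + η * x4 := z4
    simp only [hx0, hw0, hw1, br_add_left, br_add_right, br_smul_left, br_smul_right, al_add,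
      al_smul, br_self, al_zero, sw, h0, al_ds hj h0, z1, z2, z3', z4', rem, Om]
    simp only [Om] at k1 k6
    rw [hη, hyh, hyd]
    linear_combination (-ε ^ 3 * S1) * k5 + (2 * ε ^ 5 * C2) * k6 +
      (ε ^ 5 * ν q * β * al (c.br (f q) (j q) (mu c f q)) / 2) * t2 -
      (ε ^ 5 * ν q * β * γ * al (c.br (f q) (j q) (n q)) / 2) * t1 - (ε ^ 5 * β / 2) * k1
  rw [hs1, hs2, hA]
  rw [hmain] at M3
  have R2 := (abs_le.1 (R.trans (le_abs_self D))).1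
  have hε6 : 0 < ε ^ 6 := by positivity
  have M4 := (abs_le.1 M3).1
  nlinarith [mul_le_mul_of_nonneg_left R2 hε6.le]

end Snake

end Pool.Agent.Lib.MP_72f1d0_gt
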