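import Mathlib
import Pool.Agent.Lib.MP_72f1d0_gt.Snake3

/-!
The snake: an isotopy which makes `α (τ)` positive.
-/

open scoped ContDiff

namespace Pool.Agent.Lib.MP_72f1d0_gt

namespace Snake

theorem cutoff {m : ℝ} (hm : 0 < m) :
    ∃ k : ℝ → ℝ, ContDiff ℝ ∞ k ∧ ∀ x, m ≤ x → k x * x = 1 := by
  have hs : ContDiff ℝ ∞ fun x : ℝ => Real.smoothTransition (x / m) :=
    Real.smoothTransition.contDiff.comp (contDiff_id.div_const m)
  have hp : ∀ x : ℝ, x * Real.smoothTransition (x / m) + (1 - Real.smoothTransition (x / m)) ≠ 0 := by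
    intro x
    have h0 := Real.smoothTransition.nonneg (x / m)
    have h1 := Real.smoothTransition.le_one (x / m)
    rcases le_or_gt x 0 with h | h
    · rw [Real.smoothTransition.zero_of_nonpos (div_nonpos_of_nonpos_of_nonneg h hm.le)]
      norm_num
    · rcases h0.eq_or_lt with h2 | h2
      · rw [← h2]; norm_num
      · nlinarith [mul_pos h h2]
  refine ⟨fun x => (x * Real.smoothTransition (x / m) + (1 - Real.smoothTransition (x / m)))⁻¹,
    ((contDiff_id.mul hs).add (contDiff_const.sub hs)).inv hp, fun x hx => ?_⟩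
  have h1 : Real.smoothTransition (x / m) = 1 :=
    Real.smoothTransition.one_of_one_le ((one_le_div hm).2 hx)
  have hx0 : x ≠ 0 := by linarith
  simp only [h1, mul_one, sub_self, add_zero]
  exact inv_mul_cancel₀ hx0

theorem c1_ne (c : Ctx) (hN : c.Nrm) (p μ j n : G) (a b : ℝ) (h : Ind4 μ j n vW)
    (ha : al (j - a • n) = 0) (hb : al (μ - b • n) = 0) :
    al (c.br p (j - a • n) (μ - b • n)) ≠ 0 := by
  rw [ker_form c hN p _ _ ha hb]
  intro h0
  have key : ∀ s t : ℝ, s * (j - a • n).1.re + t * (μ - b • n).1.re = 0 →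
      s * (j - a • n).2.im + t * (μ - b • n).2.im = 0 → s = 0 ∧ t = 0 := by
    intro s t h1 h2
    have e : s • (j - a • n) + t • (μ - b • n) +
        (-(s * (j - a • n).1.im + t * (μ - b • n).1.im)) • vW = 0 := by
      simp only [al] at ha hb
      generalize j - a • n = A at *
      generalize μ - b • n = B at *
      ext <;> apply Complex.ext <;> simp [vW, h1, h2, ha, hb]
    have := h t s (-(s * a) - t * b) (-(s * (j - a • n).1.im + t * (μ - b • n).1.im)) (by
      rw [← e]; module)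
    exact ⟨this.2.1, this.1⟩
  have k1 := key (μ - b • n).1.re (-(j - a • n).1.re) (by ring) (by linarith)
  have k2 := key (μ - b • n).2.im (-(j - a • n).2.im) (by linarith) (by ring)
  have k3 := key 1 0 (by linarith [k1.2]) (by linarith [k2.2])
  exact one_ne_zero k3.1

theorem vv_zero (A1 A2 A3 : Q → V3) (ε : ℝ) (N : ℕ) (q : Q) : vv A1 A2 A3 ε 0 N q = 0 := by
  simp [vv]

end Snake

open Snake in
theorem snake (hM : MLStmt) (hP : PsiStmt) : SnakeStmt := by
  intro c hN f hf j n sj sn pj pn O K K₂ hO hOp hK hKp hKO hK2 hK2p hind hK2pos hseg ε hε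
  obtain ⟨ν, K', sν, pν, hK', hK'p, hK'O, hν1, hν0⟩ := urysohn hK hKp hO hOp hKO
  have hj : SP j := ⟨sj, pj⟩
  have hn : SP n := ⟨sn, pn⟩
  have hν : SP ν := ⟨sν, pν⟩
  obtain ⟨m0, hm0, hm0'⟩ := per_pos hK' hK'p hn.al.1.continuous hn.al.2
    (fun q hq => (hind q (hK'O hq)).2.2)
  obtain ⟨k0, sk0, hk0⟩ := cutoff hm0
  set k : Q → ℝ := fun q => k0 (al (n q)) with hkdef
  have hk : SP k := ⟨sk0.comp hn.al.1, fun q m => by simp only [hkdef, pn q m]⟩
  have hk1 : ∀ q ∈ K', k q * al (n q) = 1 := fun q hq => hk0 _ (hm0' q hq)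
  set jS : Q → G := fun q => j q - (al (j q) * k q) • n q -
    (al (j q) - al (j q) * k q * al (n q)) • vR with hjS
  have hJ : SP jS := (hj.sub ((hj.al.mul hk).smul hn)).sub
    ((hj.al.sub ((hj.al.mul hk).mul hn.al)).smul (SP.const vR))
  have hJ0 : ∀ q, al (jS q) = 0 := by
    intro q
    have : al vR = 1 := by simp [al, vR]
    simp only [hjS, al_sub, al_smul, this]
    ring
  have hJK : ∀ q ∈ K', jS q = j q - (al (j q) * k q) • n q := by
    intro q hq
    have : al (j q) - al (j q) * k q * al (n q) = 0 := by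
      rw [mul_assoc, hk1 q hq]; ring
    simp only [hjS, this, zero_smul, sub_zero]
  have hkn : ∀ q, ν q * (k q * al (n q)) = ν q := by
    intro q
    by_cases hq : q ∈ K'
    · rw [hk1 q hq, mul_one]
    · rw [hν0 q hq, zero_mul]
  obtain ⟨Ψ, C3, sΨ, -, pΨ, -, hΨ0, hΨ⟩ := hP c
  obtain ⟨R, -, hR⟩ := per_bound (g := fun q => f q - c.i q)
    (hf.smooth.continuous.sub c.i.continuous) (fun q m => by
      simp only [hf.equi, map_add]; abel)
  obtain ⟨C, hC0, hC⟩ := hΨ R
  have hMC : MC c Ψ f C := fun q w hw => ((hC (f q) ⟨q, hR q⟩).2 w hw).1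
  set Φ := Ph Ψ f jS n with hΦdef
  have hΦ : ContDiff ℝ ∞ Φ := Ph_smooth sΨ hf.smooth hJ.1 sn
  have hΦp : ∀ q m v, Φ (q + lat m, v) = Φ (q, v) + c.i (lat m) := by
    intro q m v
    simp only [hΦdef, Ph, hf.equi, hJ.2 q m, pn q m, pΨ]
  have hΦ0 : ∀ q, Φ (q, 0) = f q := by
    intro q
    simp [hΦdef, Ph, hΨ0]
  have hA0 := AA_Ph0 c sΨ hf.smooth hJ.1 sn hMC
  have hΦn : ∀ q, AA c Φ (q, 0) (0, (0, 1)) = n q := by
    intro q
    rw [hA0]; simp [ap]
  have hinj : ∀ q ∈ K', ∀ z, AA c Φ (q, 0) z = 0 → z = 0 := by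
    intro q hq z hz
    rw [hA0, hJK q hq] at hz
    have := (hind q (hK'O hq)).1 z.1.1 z.1.2 z.2.1 (z.2.2 - z.2.1 * (al (j q) * k q)) (by
      rw [← hz]; simp only [ap]; module)
    obtain ⟨h1, h2, h3, h4⟩ := this
    rw [h3] at h4
    exact Prod.ext (Prod.ext h1 h2) (Prod.ext h3 (by simpa using h4))
  set A1 := U1 c f jS n ν k with hA1
  set A2 := U2 ν with hA2
  set A3 := U3 c f jS n ν k with hA3
  have s1 : SP A1 := sp_U1 hf hJ hn hν hk
  have s2 : SP A2 := sp_U2 hν
  have s3 : SP A3 := sp_U3 hf hJ hn hν hk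
  have hz : ∀ q, q ∉ K' → A1 q = 0 ∧ A2 q = 0 ∧ A3 q = 0 := by
    intro q hq
    simp [hA1, hA2, hA3, U1, U2, U3, be, de, hν0 q hq]
  have hβ := sp_be hf hJ hn hν hk
  obtain ⟨G0, m1, hG0, hm1, hG⟩ := big_coeff hK2 hK2p (g := fun q => al (dd c f q).2)
    (h := fun q => be c f jS n ν k q ^ 2 / 2) (sp_tau hf).al.1.continuous
    ((hβ.1.continuous.pow 2).div_const 2) (sp_tau hf).al.2
    (fun q m => by simp only [hβ.2 q m]) (fun q => by positivity) (by
      intro q hq
      rcases hK2pos q hq with h | h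
      · left
        have hq' : q ∈ K' := by
          by_contra h'
          have := hν0 q h'
          rw [hν1 q h] at this
          exact one_ne_zero this
        have h1 := c1_ne c hN (f q) (mu c f q) (j q) (n q) (al (j q) * k q) (ga c f k q)
          (hind q (hKO h)).2.1 (by rw [← hJK q hq']; exact hJ0 q) (by
            rw [al_sub, al_smul, ga, mul_assoc, hk1 q hq']; ring)
        have h2 : be c f jS n ν k q = al (c.br (f q) (j q - (al (j q) * k q) • n q)
            (mu c f q - ga c f k q • n q)) := by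
          rw [← hJK q hq', sub_eq_add_neg (mu c f q), ← neg_smul, br_add_right, br_smul_right,
            al_add, al_smul, be, hν1 q h, Om, Om]
          ring
        rw [← h2] at h1
        positivity
      · exact Or.inr h)
  obtain ⟨ε1, hε1, hε11, hcore⟩ := core hM c f hf Φ hΦ hΦp hΦ0 n hΦn K' hK' hK'p hinj hseg
    A1 A2 A3 s1.1 s2.1 s3.1 s1.2 s2.2 s3.2 hz (min ε (m1 / 4)) (by positivity)
  obtain ⟨C', ε2, hC', hε2, hest⟩ := est c sΨ hf hJ hn hν hk hC0 hMC hJ0 hkn
  set e := min (min ε1 ε2) (m1 / 4 / ((G0 + 8) * (C' + 1))) with he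
  have he0 : 0 < e := by positivity
  have he1 : e ≤ ε1 := (min_le_left _ _).trans (min_le_left _ _)
  have he2 : e ≤ ε2 := (min_le_left _ _).trans (min_le_right _ _)
  have he3 : e * ((G0 + 8) * (C' + 1)) ≤ m1 / 4 := by
    have : e ≤ m1 / 4 / ((G0 + 8) * (C' + 1)) := min_le_right _ _
    rwa [le_div_iff₀ (by positivity)] at this
  set N := ⌈G0 / (2 * Real.pi * e ^ 5)⌉₊ with hNdef
  have hpi := Real.pi_pos
  have hd : 0 < 2 * Real.pi * e ^ 5 := by positivity
  have hN1 : G0 ≤ N * (2 * Real.pi * e ^ 5) := by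
    have := Nat.le_ceil (G0 / (2 * Real.pi * e ^ 5))
    rwa [div_le_iff₀ hd] at this
  have hN2 : N * (2 * Real.pi * e ^ 5) ≤ G0 + 8 := by
    have h1 := (Nat.ceil_lt_add_one (show 0 ≤ G0 / (2 * Real.pi * e ^ 5) by positivity)).le
    have h2 : e ^ 5 ≤ 1 := pow_le_one₀ he0.le (he1.trans hε11)
    have h3 := Real.pi_le_four
    calc (N : ℝ) * (2 * Real.pi * e ^ 5) ≤ (G0 / (2 * Real.pi * e ^ 5) + 1) *
          (2 * Real.pi * e ^ 5) := by gcongr
      _ = G0 + 2 * Real.pi * e ^ 5 := by field_simp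
      _ ≤ G0 + 8 := by nlinarith
  have hc := fun l : ℝ => hcore e he0 he1 N (Real.smoothTransition l)
    (Real.smoothTransition.nonneg l) (Real.smoothTransition.le_one l)
  have hv : ContDiff ℝ ∞ fun x : ℝ × Q =>
      sh (x.2, vv A1 A2 A3 e (Real.smoothTransition x.1) N x.2) := by
    have h1 : ContDiff ℝ ∞ fun x : ℝ × Q => ((Real.smoothTransition x.1, x.2) : ℝ × Q) :=
      (Real.smoothTransition.contDiff.comp contDiff_fst).prodMk contDiff_snd
    exact sh.contDiff.comp (contDiff_snd.prodMk ((vv_smooth s1.1 s2.1 s3.1 e N).comp h1))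
  have hoff : ∀ l q, q ∉ O → vv A1 A2 A3 e l N q = 0 := by
    intro l q hq
    obtain ⟨z1, z2, z3⟩ := hz q (fun h => hq (hK'O h))
    simp [vv, z1, z2, z3]
  refine ⟨fun q => Φ (sh (q, vv A1 A2 A3 e (Real.smoothTransition 1) N q)),
    ⟨fun l q => Φ (sh (q, vv A1 A2 A3 e (Real.smoothTransition l) N q)), hΦ.comp hv,
      fun l => (hc l).1, ?_, rfl⟩,
    fun x => AA c Φ (sh (x.2, vv A1 A2 A3 e (Real.smoothTransition x.1) N x.2)) (0, (0, 1)),
    ((AA_cont c hΦ).comp hv.continuous).clm_apply continuous_const, fun l q m => ?_,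
    fun q => ?_, fun l q hq => ?_, fun l q => ?_, fun q hq => ?_⟩
  · funext q
    rw [Real.smoothTransition.zero, vv_zero, sh_zero, hΦ0]
  · simp only [vv_per s1.2 s2.2 s3.2 e _ N q m, sh_lat, AA_per c hΦp]
  · simp only [Real.smoothTransition.zero, vv_zero, sh_zero, hΦn]
  · simp only [hoff _ q hq, sh_zero, hΦ0, hΦn, and_self]
  · obtain ⟨h1, h2, h3, -⟩ := (hc l).2 q
    exact ⟨h1.trans (min_le_left _ _), h2.trans (min_le_left _ _), h3⟩
  · obtain ⟨-, -, -, h4⟩ := (hc 1).2 q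
    have h5 := hest e he0 he2 N q
    rw [Real.smoothTransition.one] at h4 ⊢
    have h6 := (abs_le.1 ((al_le _).trans (h4.trans (min_le_right _ _)))).1
    rw [al_sub, al_sub, al_smul] at h6
    have h7 := hG q hq
    have hN0 : 0 ≤ 2 * Real.pi * N := by positivity
    have h8 := mul_le_mul_of_nonneg_left h5 hN0
    have hb : 0 ≤ be c f jS n ν k q ^ 2 / 2 := by positivity
    have h9 := mul_le_mul_of_nonneg_right hN1 hb
    have h10 := mul_le_mul_of_nonneg_right hN2 (mul_nonneg hC' he0.le)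
    have h11 : 0 ≤ e * (G0 + 8) := by positivity
    nlinarith

end Pool.Agent.Lib.MP_72f1d0_gt
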