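import Mathlib
import Pool.Agent.Lib.MP_72f1d0_gt.Snake
import Pool.Agent.Lib.MP_72f1d0_gt.Near
import Pool.Agent.Lib.MP_72f1d0_gt.Defs3

/-! The snake, with control of the displacement. -/

open scoped ContDiff

namespace Pool.Agent.Lib.MP_72f1d0_gt

open Snake in
theorem snake2 (hM : MLStmt) (hP : PsiStmt) : Snake2Stmt := by
  intro c hN f hf j n sj sn pj pn O K K₂ hO hOp hK hKp hKO hK2 hK2p hind hK2pos hseg ε hε
  obtain ⟨ν, K', sν, pν, hK', hK'p, hK'O, hν1, hν0⟩ := Snake.urysohn hK hKp hO hOp hKO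
  have hj : SP j := ⟨sj, pj⟩
  have hn : SP n := ⟨sn, pn⟩
  have hν : SP ν := ⟨sν, pν⟩
  obtain ⟨m0, hm0, hm0'⟩ := Snake.per_pos hK' hK'p hn.al.1.continuous hn.al.2
    (fun q hq => (hind q (hK'O hq)).2.2)
  obtain ⟨k0, sk0, hk0⟩ := Snake.cutoff hm0
  set k : Q → ℝ := fun q => k0 (al (n q)) with hkdef
  have hk : SP k := ⟨sk0.comp hn.al.1, fun q m => by simp only [hkdef, pn q m]⟩
  have hk1 : ∀ q ∈ K', k q * al (n q) = 1 := fun q hq => hk0 _ (hm0' q hq)
  set jS : Q → G := fun q => j q - (al (j q) * k q) • n q -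
    (al (j q) - al (j q) * k q * al (n q)) • vR with hjS
  have hJ : SP jS := (hj.sub ((hj.al.mul hk).smul hn)).sub
    ((hj.al.sub ((hj.al.mul hk).mul hn.al)).smul (SP.const vR))
  have hJ0 : ∀ q, al (jS q) = 0 := by
    intro q
    have : al vR = 1 := by simp [al, vR]
    simp only [hjS, Snake.al_sub, Snake.al_smul, this]
    ring
  have hJK : ∀ q ∈ K', jS q = j q - (al (j q) * k q) • n q := by
    intro q hq
    have : al (j q) - al (j q) * k q * al (n q) = 0 := by
      rw [mul_assoc, hk1 q hq]; ring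
    simp only [hjS, this, zero_smul, sub_zero]
  have hkn : ∀ q, ν q * (k q * al (n q)) = ν q := by
    intro q
    by_cases hq : q ∈ K'
    · rw [hk1 q hq, mul_one]
    · rw [hν0 q hq, zero_mul]
  obtain ⟨Ψ, C3, sΨ, -, pΨ, -, hΨ0, hΨ⟩ := hP c
  obtain ⟨R, -, hR⟩ := Snake.per_bound (g := fun q => f q - c.i q)
    (hf.smooth.continuous.sub c.i.continuous) (fun q m => by
      simp only [hf.equi, map_add]; abel)
  obtain ⟨C, hC0, hC⟩ := hΨ R
  have hMC : MC c Ψ f C := fun q w hw => ((hC (f q) ⟨q, hR q⟩).2 w hw).1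
  set Φ := Ph Ψ f jS n with hΦdef
  have hΦ : ContDiff ℝ ∞ Φ := Ph_smooth sΨ hf.smooth hJ.1 sn
  have hΦp : ∀ q m v, Φ (q + lat m, v) = Φ (q, v) + c.i (lat m) := by
    intro q m v
    simp only [hΦdef, Ph, hf.equi, hJ.2 q m, pn q m, pΨ]
  have hΦ0 : ∀ q, Φ (q, 0) = f q := by
    intro q
    simp [hΦdef, Ph, hΨ0]
  have hA0 := AA_Ph0 c sΨ hf.smooth hJ.1 sn hMC
  have hΦn : ∀ q, AA c Φ (q, 0) (0, (0, 1)) = n q := by
    intro q
    rw [hA0]; simp [ap]
  have hinj : ∀ q ∈ K', ∀ z, AA c Φ (q, 0) z = 0 → z = 0 := by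
    intro q hq z hz
    rw [hA0, hJK q hq] at hz
    have := (hind q (hK'O hq)).1 z.1.1 z.1.2 z.2.1 (z.2.2 - z.2.1 * (al (j q) * k q)) (by
      rw [← hz]; simp only [ap]; module)
    obtain ⟨h1, h2, h3, h4⟩ := this
    rw [h3] at h4
    exact Prod.ext (Prod.ext h1 h2) (Prod.ext h3 (by simpa using h4))
  set A1 := U1 c f jS n ν k with hA1
  set A2 := U2 ν with hA2
  set A3 := U3 c f jS n ν k with hA3
  have s1 : SP A1 := sp_U1 hf hJ hn hν hk
  have s2 : SP A2 := sp_U2 hν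
  have s3 : SP A3 := sp_U3 hf hJ hn hν hk
  have hz : ∀ q, q ∉ K' → A1 q = 0 ∧ A2 q = 0 ∧ A3 q = 0 := by
    intro q hq
    simp [hA1, hA2, hA3, U1, U2, U3, be, de, hν0 q hq]
  have hβ := sp_be hf hJ hn hν hk
  obtain ⟨G0, m1, hG0, hm1, hG⟩ := Snake.big_coeff hK2 hK2p (g := fun q => al (dd c f q).2)
    (h := fun q => be c f jS n ν k q ^ 2 / 2) (sp_tau hf).al.1.continuous
    ((hβ.1.continuous.pow 2).div_const 2) (sp_tau hf).al.2
    (fun q m => by simp only [hβ.2 q m]) (fun q => by positivity) (by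
      intro q hq
      rcases hK2pos q hq with h | h
      · left
        have hq' : q ∈ K' := by
          by_contra h'
          have := hν0 q h'
          rw [hν1 q h] at this
          exact one_ne_zero this
        have h1 := c1_ne c hN (f q) (mu c f q) (j q) (n q) (al (j q) * k q) (ga c f k q)
          (hind q (hKO h)).2.1 (by rw [← hJK q hq']; exact hJ0 q) (by
            rw [Snake.al_sub, Snake.al_smul, ga, mul_assoc, hk1 q hq']; ring)
        have h2 : be c f jS n ν k q = al (c.br (f q) (j q - (al (j q) * k q) • n q)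
            (mu c f q - ga c f k q • n q)) := by
          rw [← hJK q hq', sub_eq_add_neg (mu c f q), ← neg_smul, Snake.br_add_right, Snake.br_smul_right,
            Snake.al_add, Snake.al_smul, be, hν1 q h, Om, Om]
          ring
        rw [← h2] at h1
        positivity
      · exact Or.inr h)
  obtain ⟨ε1, hε1, hε11, hcore⟩ := Snake.core hM c f hf Φ hΦ hΦp hΦ0 n hΦn K' hK' hK'p hinj hseg
    A1 A2 A3 s1.1 s2.1 s3.1 s1.2 s2.2 s3.2 hz (min ε (m1 / 4)) (by positivity)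
  obtain ⟨C', ε2, hC', hε2, hest⟩ := Snake.est c sΨ hf hJ hn hν hk hC0 hMC hJ0 hkn
  obtain ⟨ρ, hρ, hρ'⟩ := disp_small (c := c) (f := f) (Φ := fun x : Q × V3 => Φ (sh x))
    (hΦ.continuous.comp sh.continuous) (fun q m v => by simp only [sh_lat, hΦp])
    (fun q => by simp only [sh_zero, hΦ0]) hε
  obtain ⟨B1, hB1, hB1'⟩ := Snake.per_bound s1.1.continuous s1.2
  obtain ⟨B2, hB2, hB2'⟩ := Snake.per_bound s2.1.continuous s2.2
  obtain ⟨B3, hB3, hB3'⟩ := Snake.per_bound s3.1.continuous s3.2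
  set e := min (min (min ε1 (ρ / (3 * (B1 + B2 + B3 + 1)))) ε2)
    (m1 / 4 / ((G0 + 8) * (C' + 1))) with he
  have he0 : 0 < e := by positivity
  have he1 : e ≤ ε1 := (min_le_left _ _).trans ((min_le_left _ _).trans (min_le_left _ _))
  have he2 : e ≤ ε2 := (min_le_left _ _).trans (min_le_right _ _)
  have he4 : e * (3 * (B1 + B2 + B3 + 1)) ≤ ρ := by
    have : e ≤ ρ / (3 * (B1 + B2 + B3 + 1)) :=
      (min_le_left _ _).trans ((min_le_left _ _).trans (min_le_right _ _))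
    rwa [le_div_iff₀ (by positivity)] at this
  have he3 : e * ((G0 + 8) * (C' + 1)) ≤ m1 / 4 := by
    have : e ≤ m1 / 4 / ((G0 + 8) * (C' + 1)) := min_le_right _ _
    rwa [le_div_iff₀ (by positivity)] at this
  set N := ⌈G0 / (2 * Real.pi * e ^ 5)⌉₊ with hNdef
  have hpi := Real.pi_pos
  have hd : 0 < 2 * Real.pi * e ^ 5 := by positivity
  have hN1 : G0 ≤ N * (2 * Real.pi * e ^ 5) := by
    have := Nat.le_ceil (G0 / (2 * Real.pi * e ^ 5))
    rwa [div_le_iff₀ hd] at this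
  have hN2 : N * (2 * Real.pi * e ^ 5) ≤ G0 + 8 := by
    have h1 := (Nat.ceil_lt_add_one (show 0 ≤ G0 / (2 * Real.pi * e ^ 5) by positivity)).le
    have h2 : e ^ 5 ≤ 1 := pow_le_one₀ he0.le (he1.trans hε11)
    have h3 := Real.pi_le_four
    calc (N : ℝ) * (2 * Real.pi * e ^ 5) ≤ (G0 / (2 * Real.pi * e ^ 5) + 1) *
          (2 * Real.pi * e ^ 5) := by gcongr
      _ = G0 + 2 * Real.pi * e ^ 5 := by field_simp
      _ ≤ G0 + 8 := by nlinarith
  have hc := fun l : ℝ => hcore e he0 he1 N (Real.smoothTransition l)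
    (Real.smoothTransition.nonneg l) (Real.smoothTransition.le_one l)
  have hv : ContDiff ℝ ∞ fun x : ℝ × Q =>
      sh (x.2, vv A1 A2 A3 e (Real.smoothTransition x.1) N x.2) := by
    have h1 : ContDiff ℝ ∞ fun x : ℝ × Q => ((Real.smoothTransition x.1, x.2) : ℝ × Q) :=
      (Real.smoothTransition.contDiff.comp contDiff_fst).prodMk contDiff_snd
    exact sh.contDiff.comp (contDiff_snd.prodMk ((Snake.vv_smooth s1.1 s2.1 s3.1 e N).comp h1))
  have hoff : ∀ l q, q ∉ O → vv A1 A2 A3 e l N q = 0 := by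
    intro l q hq
    obtain ⟨z1, z2, z3⟩ := hz q (fun h => hq (hK'O h))
    simp [vv, z1, z2, z3]
  refine ⟨fun q => Φ (sh (q, vv A1 A2 A3 e (Real.smoothTransition 1) N q)),
    ⟨fun l q => Φ (sh (q, vv A1 A2 A3 e (Real.smoothTransition l) N q)), hΦ.comp hv,
      fun l => (hc l).1, ?_, rfl⟩,
    fun x => AA c Φ (sh (x.2, vv A1 A2 A3 e (Real.smoothTransition x.1) N x.2)) (0, (0, 1)),
    ((Snake.AA_cont c hΦ).comp hv.continuous).clm_apply continuous_const, fun l q m => ?_,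
    fun q => ?_, fun l q hq => ?_, fun l q => hρ' q _ ?_, fun l q => ?_, fun q hq => ?_⟩
  · funext q
    rw [Real.smoothTransition.zero, Snake.vv_zero, sh_zero, hΦ0]
  · simp only [Snake.vv_per s1.2 s2.2 s3.2 e _ N q m, sh_lat, Snake.AA_per c hΦp]
  · simp only [Real.smoothTransition.zero, Snake.vv_zero, sh_zero, hΦn]
  · simp only [hoff _ q hq, sh_zero, hΦ0, hΦn, and_self]
  · have e1 : e ≤ 1 := he1.trans hε11
    refine (Snake.comb_le (B := B1 + B2 + B3 + 1) he0 e1 (Real.smoothTransition.nonneg l)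
      (Real.smoothTransition.le_one l) (Real.abs_cos_le_one _) (Real.abs_sin_le_one _)
      (Real.abs_sin_le_one _) (by linarith [hB1' q]) (by linarith [hB2' q])
      (by linarith [hB3' q])).trans ?_
    have : 0 ≤ e * (3 * (B1 + B2 + B3 + 1)) := by positivity
    nlinarith
  · obtain ⟨h1, h2, h3, -⟩ := (hc l).2 q
    exact ⟨h1.trans (min_le_left _ _), h2.trans (min_le_left _ _), h3⟩
  · obtain ⟨-, -, -, h4⟩ := (hc 1).2 q
    have h5 := hest e he0 he2 N q
    rw [Real.smoothTransition.one] at h4 ⊢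
    have h6 := (abs_le.1 ((Snake.al_le _).trans (h4.trans (min_le_right _ _)))).1
    rw [Snake.al_sub, Snake.al_sub, Snake.al_smul] at h6
    have h7 := hG q hq
    have hN0 : 0 ≤ 2 * Real.pi * N := by positivity
    have h8 := mul_le_mul_of_nonneg_left h5 hN0
    have hb : 0 ≤ be c f jS n ν k q ^ 2 / 2 := by positivity
    have h9 := mul_le_mul_of_nonneg_right hN1 hb
    have h10 := mul_le_mul_of_nonneg_right hN2 (mul_nonneg hC' he0.le)
    have h11 : 0 ≤ e * (G0 + 8) := by positivity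
    nlinarith

end Pool.Agent.Lib.MP_72f1d0_gt
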