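import Pool.Agent.Lib.MP_72f1d0_gt.Defs

/-!
Reduction of the core statement to the case where `W` spans the characteristic line field:
change of frame `W ↦ W + k X`.
-/

open scoped ContDiff

namespace Pool.Agent.Lib.MP_72f1d0_gt

namespace Gauge

/-- The nilpotent map `(x + i w, z) ↦ (w, 0)`. -/
noncomputable def nil : G →L[ℝ] G :=
  (ContinuousLinearMap.inl ℝ ℂ ℂ).comp
    (Complex.ofRealCLM.comp (Complex.imCLM.comp (ContinuousLinearMap.fst ℝ ℂ ℂ)))

lemma nil_apply (v : G) : nil v = (((v.1.im : ℝ) : ℂ), 0) := rfl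

/-- The shear `(x + i w, z) ↦ (x + k w + i w, z)`. -/
noncomputable def sh (k : ℝ) : G →L[ℝ] G := ContinuousLinearMap.id ℝ G + k • nil

lemma sh_apply (k : ℝ) (v : G) : sh k v = v + k • nil v := rfl

lemma sh_snd (k : ℝ) (v : G) : (sh k v).2 = v.2 := by
  simp [sh_apply, nil_apply]

lemma nil_sh (k : ℝ) (v : G) : nil (sh k v) = nil v := by
  simp [sh_apply, nil_apply]

lemma sh_neg_sh (k : ℝ) (v : G) : sh (-k) (sh k v) = v := by
  rw [sh_apply (-k), nil_sh, sh_apply, neg_smul]
  abel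

lemma sh_sh_neg (k : ℝ) (v : G) : sh k (sh (-k) v) = v := by
  have := sh_neg_sh (-k) v
  rwa [neg_neg] at this

lemma sh_vX (k : ℝ) : sh k vX = vX := by
  simp [sh_apply, nil_apply, vX]

lemma sh_vZ (k : ℝ) : sh k vZ = vZ := by
  simp [sh_apply, nil_apply, vZ]

lemma sh_vW (k : ℝ) : sh k vW = vW + k • vX := by
  simp [sh_apply, nil_apply, vW, vX]

lemma sh_smooth : ContDiff ℝ ∞ sh := by
  unfold sh
  exact contDiff_const.add (contDiff_id.smul contDiff_const)

/-- The shear applied to a pair. -/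
noncomputable def shp (k : ℝ) (A : G × G) : G × G := (sh k A.1, sh k A.2)

lemma shp_neg (k : ℝ) (A : G × G) : shp k (shp (-k) A) = A := by
  simp [shp, sh_sh_neg]

lemma dl_shp (k : ℝ) (A : G × G) : dl (shp k A) = dl A := by
  simp [dl, shp, sh_snd]

lemma inj_shp (k : ℝ) (A : G × G) (h : Inj A) : Inj (shp k A) := by
  intro a b hab
  apply h a b
  have h1 : sh k (a • A.1 + b • A.2) = 0 := by
    rw [map_add, map_smul, map_smul]
    exact hab
  have h2 := sh_neg_sh k (a • A.1 + b • A.2)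
  rw [h1, map_zero] at h2
  exact h2.symm

lemma shp_cont {X : Type*} [TopologicalSpace X] {k : X → ℝ} {A : X → G × G} (hk : Continuous k)
    (hA : Continuous A) : Continuous fun x => shp (k x) (A x) := by
  have h1 : Continuous fun x => sh (k x) := sh_smooth.continuous.comp hk
  exact (h1.clm_apply hA.fst).prodMk (h1.clm_apply hA.snd)

/-- The gauge function. -/
noncomputable def kk (c : Ctx) (p : G) : ℝ := al (c.br p vW vZ)

lemma kk_smooth (c : Ctx) : ContDiff ℝ ∞ (kk c) := by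
  have h1 : ContDiff ℝ ∞ (fderiv ℝ c.om) := (contDiff_infty_iff_fderiv.1 c.om_smooth).2
  have h2 : ∀ A : G, ContDiff ℝ ∞ fun p => c.e p A := fun A =>
    c.e_smooth.clm_apply contDiff_const
  have h3 : ContDiff ℝ ∞ fun p => c.br p vW vZ :=
    ((h1.clm_apply (h2 vW)).clm_apply (h2 vZ)).sub ((h1.clm_apply (h2 vZ)).clm_apply (h2 vW))
  exact Complex.reCLM.contDiff.comp h3.snd

lemma kk_per (c : Ctx) (p : G) (m : ℤ × ℤ) : kk c (p + c.i (lat m)) = kk c p := by
  have h1 : fderiv ℝ c.om (p + c.i (lat m)) = fderiv ℝ c.om p := by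
    rw [← fderiv_comp_add_right]
    congr 1
    funext x
    exact c.om_per x m
  unfold kk Ctx.br brk
  rw [h1, c.e_per]

noncomputable def e' (c : Ctx) (p : G) : G →L[ℝ] G := (c.e p).comp (sh (kk c p))

noncomputable def om' (c : Ctx) (p : G) : G →L[ℝ] G := (sh (-kk c p)).comp (c.om p)

lemma e'_smooth (c : Ctx) : ContDiff ℝ ∞ (e' c) :=
  c.e_smooth.clm_comp (sh_smooth.comp (kk_smooth c))

lemma om'_smooth (c : Ctx) : ContDiff ℝ ∞ (om' c) :=
  (sh_smooth.comp (kk_smooth c).neg).clm_comp c.om_smooth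

lemma fderiv_snd {om : G → (G →L[ℝ] G)} (h : ContDiff ℝ ∞ om) (p v u : G) :
    (fderiv ℝ om p v u).2 = fderiv ℝ (fun p => (om p u).2) p v := by
  have hd : HasFDerivAt om (fderiv ℝ om p) p :=
    (h.differentiable (by simp)).differentiableAt.hasFDerivAt
  let L : (G →L[ℝ] G) →L[ℝ] ℂ :=
    (ContinuousLinearMap.snd ℝ ℂ ℂ).comp (ContinuousLinearMap.apply ℝ G u)
  have h2 : HasFDerivAt (fun p => (om p u).2) (L.comp (fderiv ℝ om p)) p :=
    L.hasFDerivAt.comp p hd
  rw [h2.fderiv]
  rfl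

lemma fderiv_om' (c : Ctx) (p v u : G) :
    (fderiv ℝ (om' c) p v u).2 = (fderiv ℝ c.om p v u).2 := by
  rw [fderiv_snd (om'_smooth c), fderiv_snd c.om_smooth]
  congr 2
  funext x
  exact sh_snd _ _

lemma brk' (c : Ctx) (p A B : G) : (brk (e' c) (om' c) p A B).2 =
    (brk c.e c.om p (sh (kk c p) A) (sh (kk c p) B)).2 := by
  unfold brk
  rw [Prod.snd_sub, Prod.snd_sub, fderiv_om', fderiv_om']
  rfl

lemma brk_add_smul_left (e om : G → (G →L[ℝ] G)) (p A A' B : G) (k : ℝ) :
    brk e om p (A + k • A') B = brk e om p A B + k • brk e om p A' B := by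
  simp only [brk, map_add, map_smul, add_apply,
    smul_apply, smul_sub]
  abel

lemma brk_add_smul_right (e om : G → (G →L[ℝ] G)) (p A B B' : G) (k : ℝ) :
    brk e om p A (B + k • B') = brk e om p A B + k • brk e om p A B' := by
  simp only [brk, map_add, map_smul, add_apply,
    smul_apply, smul_sub]
  abel

lemma brk_self (e om : G → (G →L[ℝ] G)) (p A : G) : brk e om p A A = 0 := sub_self _

/-- The gauged structure. -/
noncomputable def gc (c : Ctx) : Ctx where
  i := c.i
  i_inj := c.i_inj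
  e := e' c
  om := om' c
  e_smooth := e'_smooth c
  om_smooth := om'_smooth c
  om_e := fun p v => by
    change sh (-kk c p) (c.om p (c.e p (sh (kk c p) v))) = v
    rw [c.om_e, sh_neg_sh]
  e_om := fun p v => by
    change c.e p (sh (kk c p) (sh (-kk c p) (c.om p v))) = v
    rw [sh_sh_neg, c.e_om]
  e_per := fun p m => by
    unfold e'
    rw [c.e_per, kk_per]
  om_per := fun p m => by
    unfold om'
    rw [c.om_per, kk_per]
  brXW := fun p => by
    rw [brk', sh_vX, sh_vW, brk_add_smul_right, brk_self, smul_zero, add_zero, c.brXW]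
  brXZ := fun p => by
    unfold al
    rw [brk', sh_vX, sh_vZ]
    exact c.brXZ p

lemma gc_nrm (c : Ctx) : (gc c).Nrm := by
  intro p
  change (brk (e' c) (om' c) p vW vZ).2.re = 0
  have h1 : (brk c.e c.om p vX vZ).2.re = -1 := c.brXZ p
  have h2 : (brk c.e c.om p vW vZ).2.re = kk c p := rfl
  rw [brk', sh_vW, sh_vZ, brk_add_smul_left, Prod.snd_add, Complex.add_re, h2, Prod.smul_snd,
    Complex.smul_re, h1]
  simp

lemma dd_gc (c : Ctx) (f : Q → G) (q : Q) : dd (gc c) f q = shp (-kk c (f q)) (dd c f q) := rfl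

lemma emb_gc {c : Ctx} {f : Q → G} (h : IsEmb c f) : IsEmb (gc c) f :=
  ⟨h.smooth, h.equi, h.inj, fun q => by
    rw [dd_gc]
    exact inj_shp _ _ (h.imm q)⟩

lemma emb_of_gc {c : Ctx} {f : Q → G} (h : IsEmb (gc c) f) : IsEmb c f :=
  ⟨h.smooth, h.equi, h.inj, fun q => by
    have := inj_shp (kk c (f q)) _ (h.imm q)
    rwa [dd_gc, shp_neg] at this⟩

end Gauge

open Gauge in
theorem gauge : GaugeStmt := by
  intro hC c f hf Γ hΓc hΓp hΓi hΓ0 hΓ1
  have kc : Continuous (kk c) := (kk_smooth c).continuous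
  obtain ⟨H, K, hH, hE, hKc, hKp, hKi, hK0, hK1, hH0, hKΓ, hKd⟩ :=
    hC (gc c) (gc_nrm c) f (emb_gc hf) (fun s q => shp (-kk c (f q)) (Γ s q))
      (shp_cont ((kc.comp (hf.smooth.continuous.comp continuous_snd)).neg) hΓc)
      (fun s q m => by
        change shp (-kk c (f (q + lat m))) (Γ s (q + lat m)) = _
        rw [hf.equi, kk_per, hΓp s q m])
      (fun s q => inj_shp _ _ (hΓi s q))
      (fun q => by rw [dd_gc, hΓ0])
      (fun q => by
        rw [dl_shp]
        exact hΓ1 q)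
  refine ⟨H, fun l s q => shp (kk c (H l q)) (K l s q), hH, fun l => emb_of_gc (hE l), ?_, ?_, ?_,
    ?_, ?_, hH0, ?_, ?_⟩
  · refine shp_cont (kc.comp ?_) hKc
    exact hH.continuous.comp
      ((continuous_subtype_val.comp continuous_fst).prodMk (continuous_snd.comp continuous_snd))
  · intro l s q m
    change shp (kk c (H l (q + lat m))) (K l s (q + lat m)) = _
    rw [(emb_of_gc (hE l)).equi, kk_per, hKp l s q m]
  · intro l s q
    exact inj_shp _ _ (hKi l s q)
  · intro l q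
    change shp _ (K l 0 q) = _
    rw [hK0, dd_gc, shp_neg]
  · intro l q
    change dl (shp _ (K l 1 q)) ≠ 0
    rw [dl_shp]
    exact hK1 l q
  · intro s q
    change shp (kk c (H 0 q)) (K 0 s q) = _
    rw [hKΓ, hH0, shp_neg]
  · intro s q
    change shp (kk c (H 1 q)) (K 1 s q) = _
    rw [hKd, dd_gc, shp_neg]

end Pool.Agent.Lib.MP_72f1d0_gt
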