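import Pool.Agent.Lib.MP_72f1d0_gt.Manifold1

/-!
Transfer of the Euclidean model to a framed Engel manifold through a tubular neighbourhood.
-/

open scoped ContDiff Manifold
open Set Metric Filter Topology

namespace Pool.Agent.Lib.MP_72f1d0_gt

namespace Manifold

noncomputable section

variable {M : Type*} [TopologicalSpace M] [ChartedSpace V4 M]
  {W X : Π p : M, TangentSpace (𝓡 4) p}

/-- The frame vectors in the model space. -/
def frV (W X : Π p : M, TangentSpace (𝓡 4) p) (p : M) (j : Fin 4) : V4 := frame W X p j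

/-- The frame at `p` as a linear map. -/
def vvL (W X : Π p : M, TangentSpace (𝓡 4) p) (p : M) : G →L[ℝ] V4 :=
  ∑ j : Fin 4, ((ContinuousLinearMap.proj j).comp (co : G →L[ℝ] (Fin 4 → ℝ))).smulRight
    (frV W X p j)

lemma vvL_sum (p : M) (a : G) : vvL W X p a = ∑ j, co a j • frV W X p j := by
  simp only [vvL, sum_apply]
  rfl

lemma vvL_apply (p : M) (a : G) : vvL W X p a = vec W X p (co a) := vvL_sum p a

lemma vvL_W (p : M) : vvL W X p vW = frV W X p 0 := by
  simp [vvL_sum, co_apply, vW, Fin.sum_univ_four]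

lemma vvL_X (p : M) : vvL W X p vX = frV W X p 1 := by
  simp [vvL_sum, co_apply, vX, Fin.sum_univ_four]

lemma vvL_Z (p : M) : vvL W X p vZ = frV W X p 2 := by
  simp [vvL_sum, co_apply, vZ, Fin.sum_univ_four]

lemma vvL_R (p : M) : vvL W X p vR = frV W X p 3 := by
  simp [vvL_sum, co_apply, vR, Fin.sum_univ_four]

lemma vvL_inj {p : M} (h : LinearIndependent ℝ (frame W X p)) :
    Function.Injective (vvL W X p) := by
  rw [injective_iff_map_eq_zero]
  intro a ha
  rw [vvL_apply] at ha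
  have := Fintype.linearIndependent_iff.mp h (co a) ha
  exact co.injective (by rw [map_zero]; exact funext this)

/-- The frame at `p` as a linear equivalence. -/
def vvE {p : M} (h : LinearIndependent ℝ (frame W X p)) : G ≃ₗ[ℝ] V4 :=
  LinearMap.linearEquivOfInjective (vvL W X p).toLinearMap (vvL_inj h) (by simp)

lemma vvL_inv {p : M} (h : LinearIndependent ℝ (frame W X p)) : (vvL W X p).IsInvertible :=
  ⟨(vvE h).toContinuousLinearEquiv, ContinuousLinearMap.ext fun _ => rfl⟩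

lemma transverse_iff {p : M} (h : LinearIndependent ℝ (frame W X p)) (A : G × G) :
    IsCompl (Submodule.span ℝ (range fun v => vec W X p (co (ap A v))))
      (Submodule.span ℝ {W p, X p}) ↔ dl A ≠ 0 := by
  rw [← isCompl_map (vvE h) A]
  have e : ∀ a, vvE h a = vvL W X p a := fun _ => rfl
  simp only [e, vvL_W, vvL_X]
  simp only [vvL_apply]
  rfl

/-- The differential of a map from `G`. -/
def DD (Θ : G → M) (p : G) : G →L[ℝ] V4 := mfderiv 𝓘(ℝ, G) (𝓡 4) Θ p

lemma DD_comp {Y : Type*} [NormedAddCommGroup Y] [NormedSpace ℝ Y] {Θ : G → M}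
    (hΘ : ContMDiff 𝓘(ℝ, G) (𝓡 4) ∞ Θ) {H : Y → G} {q : Y} (hH : DifferentiableAt ℝ H q) (v : Y) :
    mfderiv 𝓘(ℝ, Y) (𝓡 4) (fun q => Θ (H q)) q v = DD Θ (H q) (fderiv ℝ H q v) := by
  have := mfderiv_comp q (hΘ.mdifferentiable (by simp) (H q)) hH.mdifferentiableAt
  rw [mfderiv_eq_fderiv] at this
  exact congrArg (fun L => L v) this

lemma DD_per {Θ : G → M} (hΘ : ContMDiff 𝓘(ℝ, G) (𝓡 4) ∞ Θ) {c : G} (h : ∀ p, Θ (p + c) = Θ p)
    (p : G) : DD Θ (p + c) = DD Θ p := by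
  refine ContinuousLinearMap.ext fun v => ?_
  have := DD_comp hΘ (H := fun p => p + c) (q := p) (by fun_prop) v
  rw [fderiv_add_const, fderiv_fun_id, funext h] at this
  exact this.symm

variable [IsManifold (𝓡 4) ∞ M]

lemma frame_smooth (hE : FramedEngel W X) (j : Fin 4) : SmoothField fun p => frame W X p j := by
  have : IsManifold (𝓡 4) ((⊤ : ℕ∞) + 1) M := inferInstanceAs (IsManifold (𝓡 4) ∞ M)
  have : IsManifold (𝓡 4) (minSmoothness ℝ 2) M := by
    rw [minSmoothness_of_isRCLikeNormedField]; infer_instance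
  have hZ : SmoothField (VectorField.mlieBracket (𝓡 4) W X) :=
    ContDiff.mlieBracket_vectorField (m := ⊤) (n := ⊤) hE.1 hE.2.1 (by simp)
  have hR : SmoothField (VectorField.mlieBracket (𝓡 4) X (VectorField.mlieBracket (𝓡 4) W X)) :=
    ContDiff.mlieBracket_vectorField (m := ⊤) (n := ⊤) hE.2.1 hZ (by simp)
  fin_cases j
  exacts [hE.1, hE.2.1, hZ, hR]

lemma sec_smooth (hE : FramedEngel W X) {f : Q → M} (hf : ContMDiff 𝓘(ℝ, Q) (𝓡 4) ∞ f)
    {n : Q → G} (hn : ContDiff ℝ ∞ n) : ContMDiff 𝓘(ℝ, Q) (𝓡 4).tangent ∞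
      (fun q => (Bundle.TotalSpace.mk' V4 (f q) (vvL W X (f q) (n q)) :
        TangentBundle (𝓡 4) M)) := by
  intro q0
  refine Bundle.contMDiffAt_totalSpace.mpr ⟨hf q0, ?_⟩
  set e := trivializationAt V4 (TangentSpace (𝓡 4)) (f q0) with he
  have hg : ∀ j, ContMDiffAt 𝓘(ℝ, Q) 𝓘(ℝ, V4) ∞
      (fun q => (e ⟨f q, frame W X (f q) j⟩).2) q0 := fun j =>
    (Bundle.contMDiffAt_totalSpace.mp ((frame_smooth hE j (f q0)).comp q0 (hf q0))).2
  have ha : ∀ j, ContMDiffAt 𝓘(ℝ, Q) 𝓘(ℝ, ℝ) ∞ (fun q => co (n q) j) q0 := fun j =>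
    (contDiff_pi.mp (co.contDiff.comp hn) j).contMDiff q0
  refine (contMDiffAt_finsetSum (t := Finset.univ) fun j _ =>
    (ha j).smul (hg j)).congr_of_eventuallyEq ?_
  filter_upwards [(hf q0).continuousAt.preimage_mem_nhds
    (e.open_baseSet.mem_nhds (FiberBundle.mem_baseSet_trivializationAt' (f q0)))] with q hq
  have := map_sum (e.linearEquivAt ℝ (f q) hq) (fun j => co (n q) j • frame W X (f q) j)
    Finset.univ
  simp only [map_smul, Bundle.Trivialization.linearEquivAt_apply] at this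
  rw [vvL_apply]
  exact this

/-- The pulled back frame. -/
def ee (W X : Π p : M, TangentSpace (𝓡 4) p) (Θ : G → M) (p : G) : G →L[ℝ] G :=
  (DD Θ p).inverse.comp (vvL W X (Θ p))

lemma ee_smooth (hE : FramedEngel W X) {Θ : G → M} (hΘ : ContMDiff 𝓘(ℝ, G) (𝓡 4) ∞ Θ)
    (hi : ∀ p, (DD Θ p).IsInvertible) : ContDiff ℝ ∞ (ee W X Θ) := by
  refine contDiff_clm_apply_iff.mpr fun a => ?_
  have h : ∀ j, ContDiff ℝ ∞ fun p => (DD Θ p).inverse (frV W X (Θ p) j) := fun j =>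
    contMDiff_vectorSpace_iff_contDiff.mp
      (ContMDiff.mpullback_vectorField (frame_smooth hE j) hΘ hi (by simp))
  have e : (fun p => ee W X Θ p a) =
      fun p => ∑ j, co a j • (DD Θ p).inverse (frV W X (Θ p) j) := by
    funext p
    simp only [ee, ContinuousLinearMap.comp_apply, vvL_sum, map_sum, map_smul]
  rw [e]
  exact ContDiff.sum fun j _ => (h j).const_smul _

lemma ee_inv (hE : FramedEngel W X) {Θ : G → M} (hi : ∀ p, (DD Θ p).IsInvertible) (p : G) :
    (ee W X Θ p).IsInvertible := (hi p).inverse.comp (vvL_inv (hE.2.2 _))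

lemma ee_bracket {Θ : G → M} (hΘ : ContMDiff 𝓘(ℝ, G) (𝓡 4) ∞ Θ)
    {U V : Π p : M, TangentSpace (𝓡 4) p} (hU : SmoothField U) (hV : SmoothField V) (p : G) :
    VectorField.lieBracket ℝ (fun p => (DD Θ p).inverse (U (Θ p)))
      (fun p => (DD Θ p).inverse (V (Θ p))) p =
      (DD Θ p).inverse (VectorField.mlieBracket (𝓡 4) U V (Θ p)) := by
  have : IsManifold (𝓡 4) (minSmoothness ℝ 2) M := by
    rw [minSmoothness_of_isRCLikeNormedField]; infer_instance
  have := VectorField.mpullback_mlieBracket (I := 𝓘(ℝ, G)) (f := Θ) (x₀ := p)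
    ((hU (Θ p)).mdifferentiableAt (by simp)) ((hV (Θ p)).mdifferentiableAt (by simp)) (hΘ p)
    (by rw [minSmoothness_of_isRCLikeNormedField]; exact ENat.LEInfty.out)
  rw [← VectorField.mlieBracketWithin_univ (I := 𝓘(ℝ, G)),
    VectorField.mlieBracketWithin_eq_lieBracketWithin] at this
  rw [← VectorField.lieBracketWithin_univ]
  exact this.symm

/-- The standard inclusion as a linear map. -/
def iL : Q →L[ℝ] G := apL (vX, vW)

lemma iL_apply (q : Q) : iL q = i0 q := by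
  ext
  · apply Complex.ext <;> simp [iL, apL_apply, ap, i0, vX, vW]
  · simp [iL, apL_apply, ap, i0, vX, vW]

lemma i0_inj : Function.Injective i0 := fun _ _ h =>
  Prod.ext (congrArg (fun g : G => g.1.re) h) (congrArg (fun g : G => g.1.im) h)

/-- The Euclidean model attached to a tubular neighbourhood. -/
def ctx (hE : FramedEngel W X) {Θ : G → M} (hΘ : ContMDiff 𝓘(ℝ, G) (𝓡 4) ∞ Θ)
    (hi : ∀ p, (DD Θ p).IsInvertible) (hp : ∀ p m, Θ (p + i0 (lat m)) = Θ p) : Ctx :=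
  have he := ee_smooth hE hΘ hi
  have ho : ContDiff ℝ ∞ fun p => (ee W X Θ p).inverse := contDiff_iff_contDiffAt.mpr fun p =>
    (ee_inv hE hi p).contDiffAt_map_inverse.comp p he.contDiffAt
  have h1 : ∀ p v, (ee W X Θ p).inverse (ee W X Θ p v) = v := fun p v =>
    (ee_inv hE hi p).inverse_apply_self v
  have hper : ∀ p m, ee W X Θ (p + iL (lat m)) = ee W X Θ p := fun p m => by
    rw [ee, ee, iL_apply, DD_per hΘ (fun p => hp p m), hp]
  { i := iL
    i_inj := fun q q' h => i0_inj (by rwa [iL_apply, iL_apply] at h)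
    e := ee W X Θ
    om := fun p => (ee W X Θ p).inverse
    e_smooth := he
    om_smooth := ho
    om_e := h1
    e_om := fun p v => (ee_inv hE hi p).self_apply_inverse v
    e_per := hper
    om_per := fun p m => by rw [hper]
    brXW := fun p => by
      rw [brk_eq he ho h1, VectorField.lieBracket_swap, map_neg, neg_neg]
      simp only [ee, ContinuousLinearMap.comp_apply, vvL_W, vvL_X]
      have b : VectorField.lieBracket ℝ (fun p => (DD Θ p).inverse (frV W X (Θ p) 0))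
          (fun p => (DD Θ p).inverse (frV W X (Θ p) 1)) p = (DD Θ p).inverse (frV W X (Θ p) 2) :=
        ee_bracket hΘ hE.1 hE.2.1 p
      rw [b, ← vvL_Z]
      exact congrArg Prod.snd (h1 p vZ)
    brXZ := fun p => by
      rw [brk_eq he ho h1]
      simp only [ee, ContinuousLinearMap.comp_apply, vvL_Z, vvL_X]
      have b : VectorField.lieBracket ℝ (fun p => (DD Θ p).inverse (frV W X (Θ p) 1))
          (fun p => (DD Θ p).inverse (frV W X (Θ p) 2)) p = (DD Θ p).inverse (frV W X (Θ p) 3) :=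
        ee_bracket hΘ hE.2.1 (frame_smooth hE 2) p
      rw [b, ← vvL_R]
      have := h1 p vR
      simp only [ee, ContinuousLinearMap.comp_apply] at this
      rw [this]
      simp [al, vR] }

lemma vec_dd (hE : FramedEngel W X) {Θ : G → M} (hΘ : ContMDiff 𝓘(ℝ, G) (𝓡 4) ∞ Θ)
    (hi : ∀ p, (DD Θ p).IsInvertible) (hp : ∀ p m, Θ (p + i0 (lat m)) = Θ p) {H : Q → G}
    (hH : ContDiff ℝ ∞ H) (q v : Q) :
    vvL W X (Θ (H q)) (ap (dd (ctx hE hΘ hi hp) H q) v) =
      mfderiv 𝓘(ℝ, Q) (𝓡 4) (fun q => Θ (H q)) q v := by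
  rw [DD_comp hΘ (hH.differentiable (by simp) q)]
  have e1 : ap (dd (ctx hE hΘ hi hp) H q) v = (ee W X Θ (H q)).inverse (fderiv ℝ H q v) :=
    ap_of ((ee W X Θ (H q)).inverse.comp (fderiv ℝ H q)) v
  have e2 := (ee_inv hE hi (H q)).self_apply_inverse (fderiv ℝ H q v)
  rw [e1, ← e2, (ee_inv hE hi (H q)).inverse_apply_self]
  exact ((hi (H q)).self_apply_inverse _).symm

lemma normal_frame (hF : FramesStmt) {Γ : UI → Q → G × G}
    (Γc : Continuous fun x : UI × Q => Γ x.1 x.2) (Γp : ∀ s, Per (Γ s)) (Γi : ∀ s q, Inj (Γ s q))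
    (Γ1 : ∀ q, dl (Γ 1 q) ≠ 0) : ∃ n₁ n₂ : Q → G, ContDiff ℝ ∞ n₁ ∧ ContDiff ℝ ∞ n₂ ∧
      Per n₁ ∧ Per n₂ ∧ ∀ q, Ind4 (Γ 0 q).1 (Γ 0 q).2 (n₁ q) (n₂ q) := by
  obtain ⟨C, C', cC, -, pC, -, -, iC, -, hC0, -⟩ :=
    hF (fun x => Γ (projIcc 0 1 zero_le_one x.1) x.2)
      (Γc.comp (((continuous_projIcc (h := zero_le_one)).comp continuous_fst).prodMk
        continuous_snd))
      (fun s => Γp (projIcc 0 1 zero_le_one s)) fun s q _ _ => Γi _ _
  have c0 : Continuous fun q : Q => C (0, q) := cC.comp (continuous_const.prodMk continuous_id)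
  have Γ0c : Continuous (Γ 0) := Γc.comp (continuous_const.prodMk continuous_id)
  refine smooth_frame (μ := fun q => (Γ 0 q).1)
    (τ := fun q => (Γ 0 q).2) (x := fun q => C (0, q) vX) (y := fun q => C (0, q) vW)
    Γ0c.fst Γ0c.snd (c0.clm_apply continuous_const) (c0.clm_apply continuous_const)
    (fun q m => congrArg Prod.fst (Γp 0 q m)) (fun q m => congrArg Prod.snd (Γp 0 q m))
    (fun q m => congrArg (fun L : G →L[ℝ] G => L vX) (pC 0 q m))
    (fun q m => congrArg (fun L : G →L[ℝ] G => L vW) (pC 0 q m)) fun q a b c d e => ?_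
  obtain ⟨e1, e2⟩ := hC0 0 q le_rfl zero_le_one
  simp only [projIcc_left, projIcc_right] at e1 e2
  replace e1 : C (0, q) (Γ 1 q).1 = (Γ 0 q).1 := e1
  replace e2 : C (0, q) (Γ 1 q).2 = (Γ 0 q).2 := e2
  have e3 : C (0, q) (a • (Γ 1 q).1 + b • (Γ 1 q).2 + c • vX + d • vW) = 0 := by
    simp only [map_add, map_smul, e1, e2]
    exact e
  refine ind4_of_dl (Γ1 q) a b c d ?_
  rw [← iC (0, q) (_ + _), e3, map_zero]

/-- A pair in frame coordinates as a linear map. -/
def toL (A : G × G) : Q →L[ℝ] (Fin 4 → ℝ) := (co : G →L[ℝ] (Fin 4 → ℝ)).comp (apL A)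

lemma toL_apply (A : G × G) (v : Q) : toL A v = co (ap A v) := rfl

lemma toL_cont {Y : Type*} [TopologicalSpace Y] {K : Y → G × G} (hK : Continuous K) :
    Continuous fun y => toL (K y) :=
  continuous_clm_apply.mpr fun v => co.continuous.comp
    ((hK.fst.const_smul v.1).add (hK.snd.const_smul v.2))

lemma push_emb (hE : FramedEngel W X) {Θ : G → M} (hΘ : ContMDiff 𝓘(ℝ, G) (𝓡 4) ∞ Θ)
    (hi : ∀ p, (DD Θ p).IsInvertible) (hp : ∀ p m, Θ (p + i0 (lat m)) = Θ p)
    (hfib : ∀ p p', Θ p = Θ p' ↔ ∃ m, p' = p + i0 (lat m)) {H : Q → G}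
    (h : IsEmb (ctx hE hΘ hi hp) H) : TorusEmbedding fun q => Θ (H q) := by
  have he : ∀ q m, H (q + lat m) = H q + i0 (lat m) := fun q m => by
    rw [← iL_apply]; exact h.equi q m
  refine ⟨hΘ.comp h.smooth.contMDiff, fun q q' => ?_, fun q v w e => ?_⟩
  · rw [hfib]
    constructor
    · rintro ⟨m, e⟩
      exact ⟨m.1, m.2, h.inj (e.trans (he q m).symm)⟩
    · rintro ⟨m, n, rfl⟩
      exact ⟨(m, n), he q (m, n)⟩
  · have e' := ((vec_dd hE hΘ hi hp h.smooth q v).trans e).trans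
      (vec_dd hE hΘ hi hp h.smooth q w).symm
    exact (inj_iff _).mp (h.imm q) (vvL_inj (hE.2.2 _) e')

lemma push_formal (hE : FramedEngel W X) {Θ : G → M} (hΘ : ContMDiff 𝓘(ℝ, G) (𝓡 4) ∞ Θ)
    (hi : ∀ p, (DD Θ p).IsInvertible) (hp : ∀ p m, Θ (p + i0 (lat m)) = Θ p)
    (hfib : ∀ p p', Θ p = Θ p' ↔ ∃ m, p' = p + i0 (lat m)) {H : Q → G}
    (h : IsEmb (ctx hE hΘ hi hp) H) {K : UI → Q → G × G}
    (Kc : Continuous fun x : UI × Q => K x.1 x.2) (Kp : ∀ s, Per (K s)) (Ki : ∀ s q, Inj (K s q))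
    (K0 : ∀ q, K 0 q = dd (ctx hE hΘ hi hp) H q) (K1 : ∀ q, dl (K 1 q) ≠ 0) :
    FormalTransverse W X (fun q => Θ (H q)) fun s q => toL (K s q) where
  emb := push_emb hE hΘ hi hp hfib h
  cont := toL_cont Kc
  per := fun s q m n => congrArg toL (Kp s q (m, n))
  inj := fun s q _ _ e => (inj_iff _).mp (Ki s q) (co.injective e)
  start := fun q v => by
    rw [toL_apply, K0, ← vvL_apply]
    exact vec_dd hE hΘ hi hp h.smooth q v
  transverse := fun q => (transverse_iff (hE.2.2 _) _).mpr (K1 q)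

lemma exists_pair (F : Q →L[ℝ] (Fin 4 → ℝ)) :
    toL (co.symm (F (1, 0)), co.symm (F (0, 1))) = F := by
  refine ContinuousLinearMap.ext fun v => ?_
  rw [← co.apply_symm_apply (F v)]
  exact congrArg co (ap_of ((co.symm : (Fin 4 → ℝ) →L[ℝ] G).comp F) v)

end

end Manifold

open _root_.Pool.Agent.Lib.MP_72f1d0_gt.Manifold in
theorem main_of.{u} (hT : TubeStmt.{u}) (hF : FramesStmt) (hC : ∀ c : Ctx, CoreStmt c) :
    MainStmt.{u} := by
  intro M _ _ _ _ W X hE f F hFT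
  obtain ⟨Γ, hΓ, Γc, Γp⟩ : ∃ Γ : UI → Q → G × G, (∀ s q, toL (Γ s q) = F s q) ∧
      (Continuous fun x : UI × Q => Γ x.1 x.2) ∧ ∀ s, Per (Γ s) :=
    ⟨fun s q => (co.symm (F s q (1, 0)), co.symm (F s q (0, 1))), fun s q => exists_pair _,
      (co.symm.continuous.comp (hFT.cont.clm_apply continuous_const)).prodMk
        (co.symm.continuous.comp (hFT.cont.clm_apply continuous_const)),
      fun s q m => by simp only [lat, hFT.per]⟩
  have hap : ∀ s q v, co (ap (Γ s q) v) = F s q v := fun s q v => by rw [← hΓ, toL_apply]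
  have Γi : ∀ s q, Inj (Γ s q) := fun s q => (inj_iff _).mpr fun v w h =>
    hFT.inj s q (by rw [← hap, ← hap, h])
  have Γ1 : ∀ q, dl (Γ 1 q) ≠ 0 := fun q =>
    (transverse_iff (hE.2.2 (f q)) _).mp (by simpa only [hap] using hFT.transverse q)
  have Γ0 : ∀ q v, vvL W X (f q) (ap (Γ 0 q) v) = mfderiv 𝓘(ℝ, Q) (𝓡 4) f q v := fun q v => by
    rw [vvL_apply, hap, hFT.start]
  have fp : Per f := fun q m => ((hFT.emb.2.1 q _).mpr ⟨m.1, m.2, rfl⟩).symm
  obtain ⟨n₁, n₂, s1, s2, p1, p2, hn⟩ := normal_frame hF Γc Γp Γi Γ1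
  obtain ⟨Θ, hΘ, hi, hfib, h0⟩ := hT M f hFT.emb (fun q => vvL W X (f q) (n₁ q))
    (fun q => vvL W X (f q) (n₂ q)) (fun q m => by simp only [fp q m, p1 q m])
    (fun q m => by simp only [fp q m, p2 q m]) (sec_smooth hE hFT.emb.1 s1)
    (sec_smooth hE hFT.emb.1 s2) fun q v a b e => by
      have e' : vvL W X (f q) (ap (Γ 0 q) v + a • n₁ q + b • n₂ q) = vvL W X (f q) 0 := by
        rw [map_add, map_add, map_smul, map_smul, Γ0, map_zero]
        exact e
      obtain ⟨x1, x2, x3, x4⟩ := hn q v.1 v.2 a b (vvL_inj (hE.2.2 _) e')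
      exact ⟨Prod.ext x1 x2, x3, x4⟩
  have hp : ∀ p m, Θ (p + i0 (lat m)) = Θ p := fun p m => ((hfib p _).mpr ⟨m, rfl⟩).symm
  have hf0 : (fun q => Θ (iL q)) = f := funext fun q => by rw [iL_apply, h0]
  have d0 : ∀ q, Γ 0 q = dd (ctx hE hΘ hi hp) iL q := fun q => by
    have key : ∀ v, ap (Γ 0 q) v = ap (dd (ctx hE hΘ hi hp) iL q) v := fun v => by
      refine vvL_inj (hE.2.2 (f q)) ?_
      have := vec_dd hE hΘ hi hp iL.contDiff q v
      rw [hf0, iL_apply, h0] at this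
      rw [Γ0]
      exact this.symm
    have k1 := key (1, 0)
    have k2 := key (0, 1)
    simp only [ap, one_smul, zero_smul, add_zero, zero_add] at k1 k2
    exact Prod.ext k1 k2
  obtain ⟨H, K, hH, hemb, Kc, Kp, Ki, K0, K1, H0, KΓ, Kd⟩ := hC (ctx hE hΘ hi hp) iL
    ⟨iL.contDiff, fun q m => map_add iL _ _, (ctx hE hΘ hi hp).i_inj, fun q => d0 q ▸ Γi 0 q⟩
    Γ Γc Γp Γi d0 Γ1
  refine ⟨fun l q => Θ (H l q), fun l s q => toL (K l s q), hΘ.comp hH.contMDiff, toL_cont Kc,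
    fun l => push_formal hE hΘ hi hp hfib (hemb l)
      (Kc.comp (continuous_const.prodMk continuous_id)) (Kp l) (Ki l) (K0 l) (K1 l),
    by simp only [H0, hf0], ?_, fun s q v => ?_⟩
  · funext s q
    simp only [KΓ, hΓ]
  · rw [toL_apply, Kd, ← vvL_apply]
    exact vec_dd hE hΘ hi hp (hemb 1).smooth q v

end Pool.Agent.Lib.MP_72f1d0_gt
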