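import Pool.Agent.Lib.MP_72f1d0_gt.Defs

/-!
Linear algebra of frame coordinates and smoothing of periodic normal frames.
-/

open scoped ContDiff Manifold
open Set Metric Filter Topology

namespace Pool.Agent.Lib.MP_72f1d0_gt

namespace Manifold

noncomputable section

/-! ### Periodic functions -/

lemma exists_fund (q : Q) : ∃ q0 ∈ Icc ((0, 0) : Q) (1, 1), ∃ m, q = q0 + lat m := by
  refine ⟨(Int.fract q.1, Int.fract q.2), ⟨⟨Int.fract_nonneg _, Int.fract_nonneg _⟩,
    ⟨(Int.fract_lt_one _).le, (Int.fract_lt_one _).le⟩⟩, (⌊q.1⌋, ⌊q.2⌋), ?_⟩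
  ext <;> simp [lat]

lemma range_compact {Y : Type*} [TopologicalSpace Y] {g : Q → Y} (hg : Continuous g)
    (hp : Per g) : IsCompact (range g) := by
  have : range g = g '' Icc ((0, 0) : Q) (1, 1) := by
    refine Subset.antisymm ?_ (image_subset_range _ _)
    rintro _ ⟨q, rfl⟩
    obtain ⟨q0, h0, m, rfl⟩ := exists_fund q
    exact ⟨q0, h0, (hp q0 m).symm⟩
  rw [this]
  exact isCompact_Icc.image hg

lemma unif {g : Q → G} (hg : Continuous g) (hp : Per g) {δ : ℝ} (hδ : 0 < δ) :
    ∃ ε > 0, ∀ a, ∀ x ∈ ball a ε, dist (g x) (g a) ≤ δ := by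
  have hc : IsCompact (cthickening 1 (Icc ((0, 0) : Q) (1, 1))) := isCompact_Icc.cthickening
  obtain ⟨ε, hε, h⟩ := Metric.uniformContinuousOn_iff.mp
    (hc.uniformContinuousOn_of_continuous hg.continuousOn) δ hδ
  refine ⟨min ε 1, by positivity, fun a x hx => ?_⟩
  obtain ⟨a0, h0, m, rfl⟩ := exists_fund a
  rw [mem_ball, lt_min_iff] at hx
  have e : dist (x - lat m) a0 = dist x (a0 + lat m) := by
    rw [dist_eq_norm, dist_eq_norm]; congr 1; abel
  have h1 := h (x - lat m) (mem_cthickening_of_dist_le _ a0 _ _ h0 (by rw [e]; exact hx.2.le)) a0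
    (self_subset_cthickening _ h0) (by rw [e]; exact hx.1)
  rw [hp a0 m, ← hp (x - lat m) m, sub_add_cancel] at *
  exact h1.le

open MeasureTheory Convolution in
lemma smooth_approx {g : Q → G} (hg : Continuous g) (hp : Per g) {δ : ℝ} (hδ : 0 < δ) :
    ∃ n : Q → G, ContDiff ℝ ∞ n ∧ Per n ∧ ∀ q, dist (n q) (g q) ≤ δ := by
  obtain ⟨ε, hε, h⟩ := unif hg hp hδ
  let φ : ContDiffBump (0 : Q) := ⟨ε / 2, ε, half_pos hε, half_lt_self hε⟩
  refine ⟨φ.normed volume ⋆[ContinuousLinearMap.lsmul ℝ ℝ, volume] g,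
    φ.hasCompactSupport_normed.contDiff_convolution_left _ φ.contDiff_normed
      hg.locallyIntegrable, fun q m => ?_,
    fun q => φ.dist_normed_convolution_le hg.aestronglyMeasurable (h q)⟩
  simp only [convolution_def]
  congr 1
  funext t
  rw [show q + lat m - t = q - t + lat m by abel, hp]

lemma ind4_iff (x y z w : G) : Ind4 x y z w ↔ LinearIndependent ℝ ![x, y, z, w] := by
  rw [Fintype.linearIndependent_iff]
  constructor
  · intro h g hg
    have := h (g 0) (g 1) (g 2) (g 3) (by simpa [Fin.sum_univ_four] using hg)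
    intro i
    fin_cases i
    exacts [this.1, this.2.1, this.2.2.1, this.2.2.2]
  · intro h a b c d e
    have := h ![a, b, c, d] (by simpa [Fin.sum_univ_four] using e)
    exact ⟨this 0, this 1, this 2, this 3⟩

lemma smooth_frame {μ τ x y : Q → G} (hμ : Continuous μ) (hτ : Continuous τ) (hx : Continuous x)
    (hy : Continuous y) (pμ : Per μ) (pτ : Per τ) (px : Per x) (py : Per y)
    (h : ∀ q, Ind4 (μ q) (τ q) (x q) (y q)) :
    ∃ n₁ n₂ : Q → G, ContDiff ℝ ∞ n₁ ∧ ContDiff ℝ ∞ n₂ ∧ Per n₁ ∧ Per n₂ ∧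
      ∀ q, Ind4 (μ q) (τ q) (n₁ q) (n₂ q) := by
  have hc : IsCompact (range fun q => ![μ q, τ q, x q, y q]) :=
    range_compact (by fun_prop) fun q m => by simp only [pμ q m, pτ q m, px q m, py q m]
  obtain ⟨δ, hδ, hs⟩ := hc.exists_cthickening_subset_open
    (isOpen_setOfPred_linearIndependent (𝕜 := ℝ)) (by rintro _ ⟨q, rfl⟩; exact (ind4_iff ..).mp (h q))
  obtain ⟨n₁, a1, a2, a3⟩ := smooth_approx hx px hδ
  obtain ⟨n₂, b1, b2, b3⟩ := smooth_approx hy py hδ
  refine ⟨n₁, n₂, a1, b1, a2, b2, fun q => (ind4_iff ..).mpr (hs ?_)⟩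
  refine mem_cthickening_of_dist_le _ _ _ _ ⟨q, rfl⟩ ((dist_pi_le_iff hδ.le).mpr fun i => ?_)
  fin_cases i
  · simpa using hδ.le
  · simpa using hδ.le
  · exact a3 q
  · exact b3 q

/-! ### Frame coordinates -/

/-- Coordinates `(x + i w, r + i z) ↦ (w, x, z, r)`. -/
def coL : G ≃ₗ[ℝ] (Fin 4 → ℝ) where
  toFun a := ![a.1.im, a.1.re, a.2.im, a.2.re]
  invFun b := (⟨b 1, b 0⟩, ⟨b 3, b 2⟩)
  map_add' a b := by ext i; fin_cases i <;> simp
  map_smul' r a := by ext i; fin_cases i <;> simp
  left_inv a := by simp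
  right_inv b := by ext i; fin_cases i <;> simp

def co : G ≃L[ℝ] (Fin 4 → ℝ) := coL.toContinuousLinearEquiv

lemma co_apply (a : G) : co a = ![a.1.im, a.1.re, a.2.im, a.2.re] := rfl

/-- The linear map with the given columns. -/
def apL (A : G × G) : Q →L[ℝ] G :=
  (ContinuousLinearMap.fst ℝ ℝ ℝ).smulRight A.1 + (ContinuousLinearMap.snd ℝ ℝ ℝ).smulRight A.2

lemma apL_apply (A : G × G) (v : Q) : apL A v = ap A v := rfl

lemma ap_cols {E : Type*} [NormedAddCommGroup E] [NormedSpace ℝ E] (L : Q →L[ℝ] E) (v : Q) :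
    v.1 • L (1, 0) + v.2 • L (0, 1) = L v := by
  rw [← map_smul, ← map_smul, ← map_add]
  congr 1
  ext <;> simp

lemma ap_of (L : Q →L[ℝ] G) (v : Q) : ap (L (1, 0), L (0, 1)) v = L v := ap_cols L v

lemma inj_iff (A : G × G) : Inj A ↔ Function.Injective (ap A) := by
  change _ ↔ Function.Injective (apL A)
  rw [injective_iff_map_eq_zero]
  constructor
  · intro h v hv
    obtain ⟨a, b⟩ := h v.1 v.2 hv
    exact Prod.ext a b
  · intro h a b e
    have := h (a, b) e
    exact ⟨congrArg Prod.fst this, congrArg Prod.snd this⟩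

lemma dl_zero {A : G × G} (h : dl A ≠ 0) {a b : ℝ} (e : (a • A.1 + b • A.2).2 = 0) :
    a = 0 ∧ b = 0 := by
  have e1 := congrArg Complex.re e
  have e2 := congrArg Complex.im e
  simp only [Prod.snd_add, Prod.smul_snd, Complex.add_re, Complex.add_im, Complex.real_smul,
    Complex.mul_re, Complex.mul_im, Complex.ofReal_re, Complex.ofReal_im, zero_mul, sub_zero,
    add_zero, Complex.zero_re, Complex.zero_im] at e1 e2
  constructor
  · refine (mul_eq_zero.mp (?_ : a * dl A = 0)).resolve_right h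
    rw [dl]; linear_combination A.2.2.re * e2 - A.2.2.im * e1
  · refine (mul_eq_zero.mp (?_ : b * dl A = 0)).resolve_right h
    rw [dl]; linear_combination A.1.2.im * e1 - A.1.2.re * e2

lemma ind4_of_dl {A : G × G} (h : dl A ≠ 0) : Ind4 A.1 A.2 vX vW := by
  intro a b c d e
  obtain ⟨rfl, rfl⟩ := dl_zero h (a := a) (b := b)
    (by simpa [vX, vW] using congrArg Prod.snd e)
  have e1 := congrArg (fun v : G => v.1.re) e
  have e2 := congrArg (fun v : G => v.1.im) e
  simp [vX, vW] at e1 e2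
  exact ⟨rfl, rfl, e1, e2⟩

lemma mem_D (g : G) : g ∈ Submodule.span ℝ {vW, vX} ↔ g.2 = 0 := by
  rw [Submodule.mem_span_pair]
  constructor
  · rintro ⟨a, b, rfl⟩
    simp [vX, vW]
  · intro h
    refine ⟨g.1.im, g.1.re, ?_⟩
    ext
    · apply Complex.ext <;> simp [vX, vW]
    · simp [vX, vW, h]

lemma span_ap (A : G × G) :
    Submodule.span ℝ (range (ap A)) = LinearMap.range (apL A).toLinearMap := by
  have : range (ap A) = (LinearMap.range (apL A).toLinearMap : Set G) := rfl
  rw [this, Submodule.span_eq]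

lemma isCompl_G (A : G × G) :
    IsCompl (Submodule.span ℝ (range (ap A))) (Submodule.span ℝ {vW, vX}) ↔ dl A ≠ 0 := by
  rw [span_ap]
  constructor
  · intro h h0
    have key : ∀ g : G, ∃ v : Q, (ap A v).2 = g.2 := fun g => by
      obtain ⟨_, ⟨v, rfl⟩, z, hz, e⟩ := Submodule.mem_sup.mp
        (h.sup_eq_top ▸ Submodule.mem_top (x := g))
      refine ⟨v, ?_⟩
      rw [← e, Prod.snd_add, (mem_D z).mp hz, add_zero]
      rfl
    obtain ⟨v, hv⟩ := key vR
    obtain ⟨w, hw⟩ := key vZ
    have e1 := congrArg Complex.re hv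
    have e2 := congrArg Complex.im hv
    have e3 := congrArg Complex.re hw
    have e4 := congrArg Complex.im hw
    simp [ap, vR, vZ] at e1 e2 e3 e4
    rw [dl] at h0
    have : (1 : ℝ) = 0 := by
      linear_combination (-(w.1 * A.1.2.im + w.2 * A.2.2.im)) * e1 - e4 +
        (w.1 * A.1.2.re + w.2 * A.2.2.re) * e2 - (v.1 * w.2 - v.2 * w.1) * h0
    exact one_ne_zero this
  · intro h
    refine ⟨Submodule.disjoint_def.mpr ?_, codisjoint_iff_le_sup.mpr fun g _ => ?_⟩
    · rintro _ ⟨v, rfl⟩ hv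
      obtain ⟨a, b⟩ := dl_zero h (a := v.1) (b := v.2) ((mem_D _).mp hv)
      have : v = 0 := Prod.ext a b
      rw [this, map_zero]
    · set v : Q := ((A.2.2.re * g.2.im - A.2.2.im * g.2.re) / dl A,
        (A.1.2.im * g.2.re - A.1.2.re * g.2.im) / dl A) with hv
      refine Submodule.mem_sup.mpr ⟨ap A v, ⟨v, rfl⟩, g - ap A v, (mem_D _).mpr ?_, by abel⟩
      apply Complex.ext
      · simp only [ap, hv, Prod.snd_sub, Prod.snd_add, Prod.smul_snd, Complex.sub_re,
          Complex.add_re, Complex.real_smul, Complex.mul_re, Complex.ofReal_re, Complex.ofReal_im,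
          zero_mul, sub_zero, Complex.zero_re]
        field_simp
        rw [dl]; ring
      · simp only [ap, hv, Prod.snd_sub, Prod.snd_add, Prod.smul_snd, Complex.sub_im,
          Complex.add_im, Complex.real_smul, Complex.mul_im, Complex.ofReal_re, Complex.ofReal_im,
          zero_mul, add_zero, Complex.zero_im]
        field_simp
        rw [dl]; ring

lemma isCompl_map {E : Type*} [AddCommGroup E] [Module ℝ E] (φ : G ≃ₗ[ℝ] E) (A : G × G) :
    IsCompl (Submodule.span ℝ (range fun v => φ (ap A v))) (Submodule.span ℝ {φ vW, φ vX}) ↔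
      dl A ≠ 0 := by
  rw [← isCompl_G, (Submodule.orderIsoMapComap φ).isCompl_iff]
  simp only [Submodule.orderIsoMapComap_apply, Submodule.map_span, LinearEquiv.coe_coe,
    image_pair, ← range_comp, Function.comp_def]

/-- The bracket in frame coordinates. -/
lemma brk_eq {e om : G → (G →L[ℝ] G)} (he : ContDiff ℝ ∞ e) (ho : ContDiff ℝ ∞ om)
    (h : ∀ p v, om p (e p v) = v) (p A B : G) :
    brk e om p A B = -om p (VectorField.lieBracket ℝ (fun p => e p A) (fun p => e p B) p) := by
  have key : ∀ B v, fderiv ℝ om p v (e p B) + om p (fderiv ℝ (fun p => e p B) p v) = 0 := by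
    intro B v
    have h1 : DifferentiableAt ℝ (fun p => e p B) p :=
      (he.clm_apply contDiff_const).differentiable (by simp) p
    have h2 := fderiv_clm_apply (ho.differentiable (by simp) p) h1
    simp only [h, fderiv_fun_const] at h2
    have h3 := congrArg (fun L => L v) h2
    simp only [Pi.zero_apply, zero_apply, add_apply,
      ContinuousLinearMap.comp_apply, ContinuousLinearMap.flip_apply] at h3
    rw [add_comm]
    exact h3.symm
  rw [brk, VectorField.lieBracket, map_sub]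
  linear_combination (exp := 1) key B (e p A) - key A (e p B)

end

end Manifold

end Pool.Agent.Lib.MP_72f1d0_gt
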