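import Mathlib
import Pool.Agent.Lib.MP_72f1d0_gt.PassC

/-! The pass making `α (τ)` positive: notch, snake and contraction of the chain. -/

open scoped ContDiff Topology
open Set Filter

namespace Pool.Agent.Lib.MP_72f1d0_gt

open Pass Path.Homotopic.Quotient in
theorem pass (hC : CorrStmt) (hF : FramesStmt) (hS : SnakeStmt) : PassStmt := by
  intro c hn f hf N γ d hd pd hN hα hconst
  have cd := hd.continuous
  obtain ⟨m, hm, Hm⟩ := per_pos0 (S := {q | 0 ≤ d q}) (isClosed_le continuous_const cd)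
    (pd.perSet fun y => 0 ≤ y) (g := fun q => al (N q).2) (continuous_al.comp N.cont.snd)
    (N.per.comp fun y => al y.2) hα
  obtain ⟨F₁, hF₁, J₁, E, γ₂, M₁, jh, x, cjh, cx, pjh, px, hh, m1, m2, cone, ind, njh, hpos, hlow,
    hran⟩ := first hC hF hf γ hd pd hN hconst (m := m / 4) (by positivity)
  have c1 := hF₁.dd_smooth.continuous
  have p1 := hF₁.dd_per
  have cE := E.cont
  have pE : Per fun q => (E q).2 := E.per.comp Prod.snd
  obtain ⟨ε₅, h5, H5⟩ := cone50 isClosed_S5 cone_S5 c1.fst c1.snd cjh cx cE.snd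
    (p1.comp Prod.fst) (p1.comp Prod.snd) pjh px pE cone
  obtain ⟨ε₄, h4, H4⟩ := ind4_margin c1.fst cjh cx cE.snd (p1.comp Prod.fst) pjh px pE ind
  set e := min (min ε₅ ε₄) (m / 4) / 2 with he
  have e0 : 0 < e := by positivity
  have e5 : 2 * e ≤ ε₅ := by
    have := (min_le_left (min ε₅ ε₄) (m / 4)).trans (min_le_left _ _); linarith
  have e4 : 2 * e ≤ ε₄ := by
    have := (min_le_left (min ε₅ ε₄) (m / 4)).trans (min_le_right _ _); linarith
  have em : 2 * e ≤ m / 4 := by have := min_le_right (min ε₅ ε₄) (m / 4); linarith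
  obtain ⟨j, sj, pj, hj⟩ := smooth_approx cjh pjh e0
  obtain ⟨n, sn, pn, hn'⟩ := smooth_approx (g := fun q => jh q + (E q).2) (cjh.add cE.snd)
    (pjh.comp₂ pE fun a b => a + b) e0
  have cj := sj.continuous
  have cn := sn.continuous
  have near : ∀ q (p : G), ‖p - (jh q + (E q).2)‖ ≤ 2 * e → ‖p - (E q).2 - jh q‖ ≤ 2 * e :=
    fun q p h => by rwa [sub_sub, add_comm]
  have i4 : ∀ q (μ p : G), ‖μ - (dd c F₁ q).1‖ ≤ 2 * e → ‖p - (jh q + (E q).2)‖ ≤ 2 * e →
      Ind4 μ p (x q) (E q).2 := fun q μ p a b =>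
    ind4_pole (H4 q _ _ _ _ (a.trans e4) ((near q p b).trans e4) (by simp [h4.le]) (by simp [h4.le]))
  have nj : ∀ q, ‖n q - j q - (E q).2‖ ≤ 2 * e := fun q => by
    rw [show n q - j q - (E q).2 = (n q - (jh q + (E q).2)) - (j q - jh q) by abel]
    exact (norm_sub_le _ _).trans (by linarith [hn' q, hj q])
  have i5 : ∀ q (μ : G), ‖μ - (dd c F₁ q).1‖ ≤ 2 * e → Ind4 μ (j q) (n q) (x q) :=
    fun q μ a s t u w h0 => by
      obtain ⟨h1, h2, h3, h4⟩ := H4 q μ (j q) (x q) (n q - j q) (a.trans e4)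
        ((hj q).trans (by linarith)) (by simp [h4.le]) ((nj q).trans e4) s (t + u) w u
        (by rw [← h0]; module)
      exact ⟨h1, by linarith, h4, h3⟩
  have alp : ∀ q (p : G), 0 ≤ d q → ‖p - (jh q + (E q).2)‖ ≤ 2 * e → m / 2 ≤ al p := fun q p a b => by
    have h1 := abs_le.1 ((abs_al_le _).trans b)
    have h2 := abs_le.1 ((abs_al_le _).trans (njh q))
    have h3 := Hm q a
    rw [al_sub, al_add, (hpos q a).2.1] at h1
    linarith [h1.1, h2.1]
  have v3 : ∀ q, SegInj (x q, (E q).2) (E q) := fun q => by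
    have := (M₁.val q).2.2
    rwa [m2] at this
  have cV2 : Continuous fun y : ℝ × Q => (x y.2, (E y.2).2) := by fun_prop
  have pV2 : ∀ _ : ℝ, Per fun q => (x q, (E q).2) := fun _ => px.comp₂ pE Prod.mk
  -- smoothing the pole
  obtain ⟨M₂, a1, a2, a3⟩ := poly_square (Path.refl hF₁.d) (Path.refl E) M₁
    (V1 := fun y => ((dd c F₁ y.2).1, jh y.2 + (E y.2).2 + y.1 • (n y.2 - (jh y.2 + (E y.2).2))))
    (V2 := fun y => (x y.2, (E y.2).2))
    ((c1.comp continuous_snd).fst.prodMk (by fun_prop)) cV2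
    (fun l q m => by simp only [p1 q m, pjh q m, E.per q m, pn q m]) pV2
    (fun t q => by
      have : ‖jh q + (E q).2 + (t : ℝ) • (n q - (jh q + (E q).2)) - (jh q + (E q).2)‖ ≤ 2 * e := by
        rw [add_sub_cancel_left, norm_smul, Real.norm_eq_abs, abs_of_nonneg t.2.1]
        nlinarith [t.2.1, t.2.2, hn' q, norm_nonneg (n q - (jh q + (E q).2))]
      exact ⟨seg_of_cone (μ := (dd c F₁ q).1) (τ := (dd c F₁ q).2) (x := x q) (r := (E q).2)
        (H5 q _ _ _ _ _ (by simp [h5.le]) (by simp [h5.le]) ((near q _ this).trans e5)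
          (by simp [h5.le]) (by simp [h5.le])),
        segInj_of_ind4 (i4 q _ _ (by simp [e0.le]) this), v3 q⟩)
    (fun q => by simp [m1]) m2
  rw [hc_refl, hc_refl, refl_trans, trans_refl] at a3
  have base : ∀ q, 0 ≤ d q → d q < 5 → 0 < al (dd c F₁ q).2 := fun q a b => by
    rw [(hlow q b).1, ← (hlow q b).2, (hpos q a).2.1]
    exact hα q a
  -- the notch
  obtain ⟨F₂, J₂, u2, w2, z2⟩ := notch hC hF₁ cj cn cx pj pn px hd pd (m := m / 2) (by positivity)
    (fun q => i5 q _ (by simp [e0.le]))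
    (fun q a b k w ρ hk h0 => by
      have := H5 q _ _ (j q) _ (n q - j q) (by simp [h5.le]) (by simp [h5.le])
        ((hj q).trans (by linarith)) (by simp [h5.le]) ((nj q).trans e5) (a, b, k, w, ρ) hk h0
      exact congrArg (fun v : R5 => v.2.1) this)
    (fun q a => ⟨by rw [(hpos q a).1]; simp [al, vW], alp q _ a ((hn' q).trans (by linarith))⟩)
    (fun q a b => base q a (by linarith)) e0
  have hF₂ := J₂.emb1
  obtain ⟨M₃, b1, b2, b3⟩ := poly_square (J₂.path hF₁ hF₂) (Path.refl E) M₂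
    (V1 := fun y => ((dd c (J₂.H y.1) y.2).1, n y.2)) (V2 := fun y => (x y.2, (E y.2).2))
    (J₂.dd_cont.fst.prodMk (by fun_prop)) cV2
    (fun l q m => by simp only [(J₂.emb l).dd_per q m, pn q m]) pV2
    (fun t q => ⟨segInj_snd fun a b₁ b₂ _ h0 => (w2 t q).2 a b₁ b₂ h0,
      segInj_of_ind4 (i4 q _ _ ((w2 t q).1.trans (by linarith)) ((hn' q).trans (by linarith))),
      v3 q⟩) (fun q => by simp [a1, J₂.h0]) a2
  rw [hc_refl, trans_refl] at b3
  have c2 := hF₂.dd_smooth.continuous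
  have p2 := hF₂.dd_per
  have un2 : ∀ q, d q < 3 → dd c F₂ q = dd c F₁ q := fun q hq => by
    rw [← J₂.h1]
    exact dd_congr_open c (isOpen_lt cd continuous_const) (fun q hq => u2 1 q (le_of_lt hq)) hq
  have μ2 : ∀ q, ‖(dd c F₂ q).1 - (dd c F₁ q).1‖ ≤ e := fun q => by
    have := (w2 1 q).1
    rwa [J₂.h1] at this
  -- the snake
  obtain ⟨F₃, J₃, p, cp, pp, p0, u3, w3, z3⟩ := hS c hn F₂ hF₂ j n sj sn pj pn
    ({q | 1 < d q} ∩ ({q | Ind4 (dd c F₂ q).1 (dd c F₂ q).2 (j q) (n q)} ∩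
      ({q | Ind4 (dd c F₂ q).1 (j q) (n q) vW} ∩ {q | 0 < al (n q)})))
    ({q | 2 ≤ d q} ∩ {q | al (dd c F₂ q).2 ≤ 0}) {q | 0 ≤ d q}
    ((isOpen_lt continuous_const cd).inter ((isOpen_ind4 c2.fst c2.snd cj cn).inter
      ((isOpen_ind4 c2.fst cj cn continuous_const).inter
        (isOpen_lt continuous_const (continuous_al.comp cn)))))
    (fun q m h => by simpa only [mem_inter_iff, mem_ofPred_eq, pd q m, p2 q m, pj q m, pn q m] using h)
    ((isClosed_le continuous_const cd).inter (isClosed_le (continuous_al.comp c2.snd) continuous_const))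
    (fun q m h => by simpa only [mem_inter_iff, mem_ofPred_eq, pd q m, p2 q m] using h)
    (fun q hq => by
      have d2 : 2 ≤ d q := hq.1
      refine ⟨show 1 < d q by linarith, (z2 q d2).resolve_left (not_lt.2 hq.2), ?_, ?_⟩
      · show Ind4 _ _ _ _
        rw [← (hpos q (by linarith)).1]
        exact i5 q _ ((μ2 q).trans (by linarith))
      · exact (half_pos hm).trans_le (alp q _ (by linarith) ((hn' q).trans (by linarith))))
    (isClosed_le continuous_const cd) (pd.perSet fun y => 0 ≤ y) (fun q hq => ⟨hq.2.1, hq.2.2⟩)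
    (fun q hq => by
      rcases le_or_gt 2 (d q) with h | h
      · rcases le_or_gt (al (dd c F₂ q).2) 0 with h' | h'
        · exact Or.inl ⟨h, h'⟩
        · exact Or.inr h'
      · right
        rw [un2 q (by linarith)]
        exact base q hq (by linarith))
    (fun q => by
      have := (M₃.val q).1
      rwa [b1, J₂.h1] at this) e e0
  have hF₃ := J₃.emb1
  have μ3 : ∀ l q, ‖(dd c (J₃.H l) q).1 - (dd c F₁ q).1‖ ≤ 2 * e := fun l q =>
    (norm_sub_le_norm_sub_add_norm_sub _ (dd c F₂ q).1 _).trans (by linarith [(w3 l q).1, μ2 q])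
  have p3 : ∀ l q, ‖p (l, q) - (jh q + (E q).2)‖ ≤ 2 * e := fun l q =>
    (norm_sub_le_norm_sub_add_norm_sub _ (n q) _).trans (by linarith [(w3 l q).2.1, hn' q])
  obtain ⟨M₄, d1, d2, d3⟩ := poly_square (J₃.path hF₂ hF₃) (Path.refl E) M₃
    (V1 := fun y => ((dd c (J₃.H y.1) y.2).1, p y)) (V2 := fun y => (x y.2, (E y.2).2))
    (J₃.dd_cont.fst.prodMk cp) cV2
    (fun l q m => by simp only [(J₃.emb l).dd_per q m, pp l q m]) pV2
    (fun t q => ⟨(w3 t q).2.2, segInj_of_ind4 (i4 q _ _ (μ3 t q) (p3 t q)), v3 q⟩)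
    (fun q => by simp [b1, J₂.h1, J₃.h0, p0]) b2
  rw [hc_refl, trans_refl] at d3
  have un3 : ∀ q, d q < 1 → dd c F₃ q = E q := fun q hq => by
    rw [(hlow q (by linarith)).2, ← (hlow q (by linarith)).1, ← un2 q (by linarith), ← J₃.h1]
    exact dd_congr_open c (isOpen_lt cd continuous_const)
      (fun q hq => (u3 1 q fun h => lt_asymm (show d q < 1 from hq) (show 1 < d q from h.1)).1) hq
  -- contraction of the chain outside
  have c3 := hF₃.dd_smooth.continuous
  have hs := Real.smoothTransition.continuous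
  set k : ℝ × Q → ℝ := fun y => 1 - y.1 * (1 - Real.smoothTransition (2 * d y.2)) with hk
  have ck : Continuous k := by fun_prop
  have cp1 : Continuous fun y : ℝ × Q => p (1, y.2) := cp.comp (by fun_prop)
  have c3' : Continuous fun y : ℝ × Q => dd c F₃ y.2 := c3.comp continuous_snd
  obtain ⟨M₅, g1, g2, g3⟩ := poly_square (Path.refl hF₃.d) (Path.refl E) M₄
    (V1 := fun y => ((dd c F₃ y.2).1, (dd c F₃ y.2).2 + k y • (p (1, y.2) - (dd c F₃ y.2).2)))
    (V2 := fun y => ((dd c F₃ y.2).1 + k y • (x y.2 - (dd c F₃ y.2).1),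
      (dd c F₃ y.2).2 + k y • ((E y.2).2 - (dd c F₃ y.2).2)))
    (c3'.fst.prodMk (c3'.snd.add (ck.smul (cp1.sub c3'.snd))))
    ((c3'.fst.add (ck.smul ((cx.comp continuous_snd).sub c3'.fst))).prodMk
      (c3'.snd.add (ck.smul ((cE.comp continuous_snd).snd.sub c3'.snd))))
    (fun l q m => by simp only [hF₃.dd_per q m, pp 1 q m, hk, pd q m])
    (fun l q m => by simp only [hF₃.dd_per q m, px q m, E.per q m, hk, pd q m])
    (fun t q => by
      rcases le_or_gt 1 (2 * d q) with h | h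
      · have : k (t, q) = 1 := by simp [hk, Real.smoothTransition.one_of_one_le h]
        have v := M₄.val q
        rw [d1, d2, J₃.h1] at v
        simpa [this] using v
      · have i := i4 q _ _ (μ3 1 q) (p3 1 q)
        rw [J₃.h1, un3 q (by linarith)] at i
        simp only [Path.refl_apply, IsEmb.d_apply, un3 q (by linarith)]
        exact val_cut i _)
    (fun q => by simp [d1, hk, J₃.h1]) (fun q => by simp [d2, hk])
  rw [hc_refl, hc_refl, refl_trans, trans_refl] at g3
  refine ⟨F₃, hF₃, (J₁.trans J₂).trans J₃, M₅.path.trans γ₂, ?_, PW.trans (fun t q hq => ?_)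
    fun t q hq => ?_, PW.trans (fun t q hq => ?_) fun t q _ => hran t q⟩
  · rw [Iso.path_trans _ _ hf hF₂ hF₃, Iso.path_trans _ _ hf hF₁ hF₂, hc_trans, g3, trans_assoc,
      trans_assoc, ← trans_assoc (hc (J₃.path hF₂ hF₃)), d3, ← trans_assoc (hc (J₂.path hF₁ hF₂)),
      b3, a3, hh]
  · have k0 : 0 ≤ k (1, q) := by simp [hk, Real.smoothTransition.nonneg]
    have k1 : k (1, q) ≤ 1 := by simp [hk, Real.smoothTransition.le_one]
    have t0 : 0 < al (dd c F₃ q).2 := z3 q hq
    have t1 : 0 < al (E q).2 := by rw [(hpos q hq).2.1]; exact hα q hq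
    rw [Mid.path_apply, g1, g2]
    exact al_poly t0 (al_conv k0 k1 t0 ((half_pos hm).trans_le (alp q _ hq (p3 1 q))))
      (al_conv k0 k1 t0 t1) t1 _
  · rw [(hpos q hq).2.2]; exact hα q hq
  · have k0 : k (1, q) = 0 := by
      simp [hk, Real.smoothTransition.zero_of_nonpos (show 2 * d q ≤ 0 by linarith)]
    refine ⟨0, ?_⟩
    rw [Mid.path_apply, g1, g2, k0]
    simp [un3 q (by linarith), poly, (hlow q (by linarith)).2]

end Pool.Agent.Lib.MP_72f1d0_gt
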