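import Mathlib

/-!
Definitions used in the statement on transverse tori in Engel 4-manifolds, written for a
manifold `M` modelled on a normed space `E` (the theorem takes `E = ℝ⁴`).
A torus is presented as a map on the plane that is invariant under the integer lattice.
Bundle maps into the tangent bundle of `M` are written by their coefficients in the global
frame `(W, X, [W,X], [X,[W,X]])`.
-/

open scoped Manifold ContDiff unitInterval

namespace Pool.Agent.Lib.MP_72f1d0_gt.Stmt

/-- The plane, the universal cover of the torus. -/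
abbrev Plane : Type := ℝ × ℝ

/-- Linear maps from the plane to the space of frame coefficients. -/
abbrev Coef : Type := Plane →L[ℝ] (Fin 4 → ℝ)

variable (E : Type*) [NormedAddCommGroup E] [NormedSpace ℝ E]
  {M : Type*} [TopologicalSpace M] [ChartedSpace E M]

/-- Vector fields on `M`. -/
abbrev VField (M : Type*) [TopologicalSpace M] [ChartedSpace E M] : Type _ :=
  Π p : M, TangentSpace 𝓘(ℝ, E) p

/-- The differential of `f` at `q`, applied to `v`. -/
noncomputable def diff (f : Plane → M) (q v : Plane) : TangentSpace 𝓘(ℝ, E) (f q) :=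
  mfderiv 𝓘(ℝ, Plane) 𝓘(ℝ, E) f q v

/-- `f` is (the lift to the plane of) a smooth embedding of the torus `ℝ² / ℤ²`: a smooth
immersion whose fibres are exactly the orbits of the lattice. -/
def TorusEmbedding (f : Plane → M) : Prop :=
  ContMDiff 𝓘(ℝ, Plane) 𝓘(ℝ, E) ∞ f ∧
  (∀ q q' : Plane, f q = f q' ↔ ∃ m n : ℤ, q' = q + ((m : ℝ), (n : ℝ))) ∧
  ∀ q, Function.Injective (diff E f q)

/-- `H` is jointly smooth in the parameter and the point. -/
def SmoothFamily (H : ℝ → Plane → M) : Prop :=
  ContMDiff 𝓘(ℝ, ℝ × Plane) 𝓘(ℝ, E) ∞ fun x : ℝ × Plane => H x.1 x.2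

variable {E}

/-- `V` is a smooth vector field on `M`. -/
def SmoothField [IsManifold 𝓘(ℝ, E) 1 M] (V : VField E M) : Prop :=
  ContMDiff 𝓘(ℝ, E) 𝓘(ℝ, E).tangent ∞ fun p => (⟨p, V p⟩ : TangentBundle 𝓘(ℝ, E) M)

/-- The four vectors `W, X, [W,X], [X,[W,X]]` at the point `p`. -/
noncomputable def frame (W X : VField E M) (p : M) : Fin 4 → TangentSpace 𝓘(ℝ, E) p :=
  ![W p, X p, VectorField.mlieBracket 𝓘(ℝ, E) W X p,
    VectorField.mlieBracket 𝓘(ℝ, E) X (VectorField.mlieBracket 𝓘(ℝ, E) W X) p]

/-- `W, X` are smooth and `W, X, [W,X], [X,[W,X]]` are everywhere linearly independent: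
the plane field `D` spanned by `W` and `X` is an Engel structure framed by `W` and `X`. -/
def FramedEngel [IsManifold 𝓘(ℝ, E) 1 M] (W X : VField E M) : Prop :=
  SmoothField W ∧ SmoothField X ∧ ∀ p, LinearIndependent ℝ (frame W X p)

/-- The tangent vector at `p` with coefficients `a` in the frame. -/
noncomputable def vec (W X : VField E M) (p : M) (a : Fin 4 → ℝ) : TangentSpace 𝓘(ℝ, E) p :=
  ∑ i, a i • frame W X p i

/-- The image of `A`, read in the tangent space at `p`, is complementary to
`D = span (W, X)`. -/
def Transverse (W X : VField E M) (p : M) (A : Coef) : Prop :=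
  IsCompl (Submodule.span ℝ (Set.range fun v => vec W X p (A v))) (Submodule.span ℝ {W p, X p})

/-- The bundle map with coefficients `A` is the differential of `f`. -/
def IsDiff (W X : VField E M) (f : Plane → M) (A : Plane → Coef) : Prop :=
  ∀ q v, vec W X (f q) (A q v) = diff E f q v

/-- `(f, F)` is a formal transverse embedding of the torus: `F s` is a continuous family of
fibrewise injective bundle maps `TΣ → f^* TM` (written in the frame), `F 0 = df`, and the image
of `F 1` is complementary to `D = span (W, X)`. -/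
def FormalTransverse (W X : VField E M) (f : Plane → M) (F : I → Plane → Coef) : Prop :=
  TorusEmbedding E f ∧
  (Continuous fun x : I × Plane => F x.1 x.2) ∧
  (∀ (s : I) (q : Plane) (m n : ℤ), F s (q + ((m : ℝ), (n : ℝ))) = F s q) ∧
  (∀ s q, Function.Injective (F s q)) ∧
  IsDiff W X f (F 0) ∧
  ∀ q, Transverse W X (f q) (F 1 q)

end Pool.Agent.Lib.MP_72f1d0_gt.Stmt
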