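import Mathlib
import Pool.Agent.Lib.MP_72f1d0_gt.Defs

/-!
Primitives of smooth periodic functions, and the tilt profile.
-/

open scoped ContDiff

namespace Pool.Agent.Lib.MP_72f1d0_gt

namespace Prim

/-- The primitive of `f` vanishing at `0`. -/
noncomputable def prim (f : ℝ → ℝ) (t : ℝ) : ℝ := ∫ x in (0 : ℝ)..t, f x

theorem prim_zero (f : ℝ → ℝ) : prim f 0 = 0 := by simp [prim]

theorem hasDerivAt_prim {f : ℝ → ℝ} (hf : Continuous f) (t : ℝ) :
    HasDerivAt (prim f) (f t) t :=
  (hf.integral_hasStrictDerivAt 0 t).hasDerivAt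

theorem deriv_prim {f : ℝ → ℝ} (hf : Continuous f) : deriv (prim f) = f :=
  funext fun t => (hasDerivAt_prim hf t).deriv

theorem differentiable_prim {f : ℝ → ℝ} (hf : Continuous f) : Differentiable ℝ (prim f) :=
  fun t => (hasDerivAt_prim hf t).differentiableAt

theorem contDiff_prim {f : ℝ → ℝ} (hf : ContDiff ℝ ∞ f) : ContDiff ℝ ∞ (prim f) := by
  rw [contDiff_infty_iff_deriv]
  refine ⟨differentiable_prim hf.continuous, ?_⟩
  rw [deriv_prim hf.continuous]
  exact hf

theorem prim_sub {f : ℝ → ℝ} (hf : Continuous f) (s t : ℝ) :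
    prim f t - prim f s = ∫ x in s..t, f x :=
  intervalIntegral.integral_interval_sub_left (hf.intervalIntegrable _ _)
    (hf.intervalIntegrable _ _)

/-- Over one period the primitive grows by the integral over a period. -/
theorem prim_add_period {f : ℝ → ℝ} (hf : Continuous f) {T : ℝ} (hp : ∀ t, f (t + T) = f t)
    (t : ℝ) : prim f (t + T) = prim f t + prim f T := by
  have h1 := prim_sub hf t (t + T)
  have h2 : ∫ x in t..t + T, f x = ∫ x in (0 : ℝ)..0 + T, f x :=
    Function.Periodic.intervalIntegral_add_eq (f := f) hp t 0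
  rw [zero_add] at h2
  have h3 : prim f T = ∫ x in (0 : ℝ)..T, f x := rfl
  linarith

/-- The primitive of a periodic function of mean zero is periodic. -/
theorem prim_periodic {f : ℝ → ℝ} (hf : Continuous f) {T : ℝ} (hp : ∀ t, f (t + T) = f t)
    (h0 : prim f T = 0) (t : ℝ) : prim f (t + T) = prim f t := by
  rw [prim_add_period hf hp, h0, add_zero]

theorem prim_mono {f : ℝ → ℝ} (hf : Continuous f) (h0 : ∀ t, 0 ≤ f t) : Monotone (prim f) :=
  monotone_of_deriv_nonneg (differentiable_prim hf) fun t => by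
    rw [deriv_prim hf]; exact h0 t

/-- A nonnegative continuous function positive somewhere on `[0, T]` has positive integral. -/
theorem prim_pos {f : ℝ → ℝ} (hf : Continuous f) (h0 : ∀ t, 0 ≤ f t) {T c : ℝ} (hT : 0 < T)
    (hc : c ∈ Set.Icc 0 T) (hpos : 0 < f c) : 0 < prim f T :=
  intervalIntegral.integral_pos hT hf.continuousOn (fun x _ => h0 x) ⟨c, hc, hpos⟩

theorem prim_const_mul (f : ℝ → ℝ) (k t : ℝ) : prim (fun x => k * f x) t = k * prim f t := by
  simp [prim]

theorem prim_sub_const {f : ℝ → ℝ} (hf : Continuous f) (k t : ℝ) :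
    prim (fun x => f x - k) t = prim f t - k * t := by
  unfold prim
  rw [intervalIntegral.integral_sub (hf.intervalIntegrable _ _) (by simp)]
  simp [mul_comm]

/-- A continuous periodic real function is bounded. -/
theorem bounded_of_periodic {f : ℝ → ℝ} (hf : Continuous f) {T : ℝ} (hT : T ≠ 0)
    (hp : ∀ t, f (t + T) = f t) : ∃ M : ℝ, 0 < M ∧ ∀ t, |f t| ≤ M := by
  have hb : Bornology.IsBounded (Set.range f) :=
    Function.Periodic.isBounded_of_continuous (f := f) hp hT hf
  obtain ⟨M, hM0, hM⟩ := hb.exists_pos_norm_le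
  exact ⟨M, hM0, fun t => hM _ ⟨t, rfl⟩⟩

/-- Normalisation: a smooth nonnegative `1`-periodic function, positive somewhere, can be rescaled
to have integral `1` over a period. -/
theorem exists_normalised {f : ℝ → ℝ} (hf : ContDiff ℝ ∞ f) (h0 : ∀ t, 0 ≤ f t)
    (hp : ∀ t, f (t + 1) = f t) {c : ℝ} (hc : c ∈ Set.Icc (0 : ℝ) 1) (hpos : 0 < f c) :
    ∃ k : ℝ, 0 < k ∧ ContDiff ℝ ∞ (fun t => k * f t) ∧ (∀ t, 0 ≤ k * f t) ∧
      (∀ t, k * f (t + 1) = k * f t) ∧ prim (fun t => k * f t) 1 = 1 := by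
  have hI : 0 < prim f 1 := prim_pos hf.continuous h0 one_pos hc hpos
  refine ⟨(prim f 1)⁻¹, inv_pos.2 hI, contDiff_const.mul hf,
    fun t => mul_nonneg (inv_pos.2 hI).le (h0 t), fun t => by rw [hp], ?_⟩
  rw [prim_const_mul, inv_mul_cancel₀ hI.ne']

/-- The periodic primitive of `β - 1` for a smooth periodic `β` of mean `1`. -/
theorem prim_sub_one {β : ℝ → ℝ} (hβ : ContDiff ℝ ∞ β) (hp : ∀ t, β (t + 1) = β t)
    (h1 : prim β 1 = 1) :
    ContDiff ℝ ∞ (prim fun t => β t - 1) ∧
      (∀ t, prim (fun t => β t - 1) (t + 1) = prim (fun t => β t - 1) t) ∧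
      ∀ t, HasDerivAt (prim fun t => β t - 1) (β t - 1) t := by
  have hs : ContDiff ℝ ∞ fun t => β t - 1 := hβ.sub contDiff_const
  refine ⟨contDiff_prim hs, fun t => ?_, fun t => hasDerivAt_prim hs.continuous t⟩
  refine prim_periodic hs.continuous (fun t => by rw [hp]) ?_ t
  rw [prim_sub_const hβ.continuous, h1]
  ring

end Prim

namespace TiltProfile

open Prim

theorem cc_smooth (r : ℕ) : ContDiff ℝ ∞ (cc r) := by
  unfold cc
  exact Real.contDiff_cos.comp (contDiff_const.mul contDiff_id)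

theorem cc_add_one (r : ℕ) (s : ℝ) : cc r (s + 1) = cc r s := by
  unfold cc
  have : 2 * Real.pi * r * (s + 1) = 2 * Real.pi * r * s + (r : ℕ) * (2 * Real.pi) := by ring
  rw [this, Real.cos_add_nat_mul_two_pi]

theorem exists_B (r : ℕ) : ∃ (B β : ℝ → ℝ) (M : ℝ), ContDiff ℝ ∞ B ∧ (∀ t, B (t + 1) = B t) ∧
    (∀ t, HasDerivAt B (β t - 1) t) ∧ (∀ t, 0 ≤ β t) ∧ (∀ t, cc r t ≤ 3 / 5 → β t = 0) ∧
    0 < M ∧ ∀ t, |B t| ≤ M := by
  have hf : ContDiff ℝ ∞ fun t => Real.smoothTransition (5 * cc r t - 3) :=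
    Real.smoothTransition.contDiff.comp ((contDiff_const.mul (cc_smooth r)).sub contDiff_const)
  have hpos : 0 < Real.smoothTransition (5 * cc r 0 - 3) := by
    apply Real.smoothTransition.pos_of_pos
    simp [cc]
    norm_num
  obtain ⟨k, -, hs, h0, hp, h1⟩ := exists_normalised hf
    (fun t => Real.smoothTransition.nonneg _) (fun t => by rw [cc_add_one])
    (c := 0) ⟨le_rfl, zero_le_one⟩ hpos
  obtain ⟨hB, hBp, hBd⟩ := prim_sub_one hs hp h1
  obtain ⟨M, hM0, hM⟩ := bounded_of_periodic hB.continuous one_ne_zero hBp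
  refine ⟨_, _, M, hB, hBp, hBd, h0, fun t ht => ?_, hM0, hM⟩
  rw [Real.smoothTransition.zero_of_nonpos (by linarith), mul_zero]

end TiltProfile

open TiltProfile in
theorem tiltProfile : TiltProfileStmt := by
  intro r _ H hH
  refine ⟨H + 1, by linarith, fun C ρ hC hρ => ?_⟩
  obtain ⟨B, β, M, hB, hBp, hBd, hβ0, hβz, hM0, hM⟩ := exists_B r
  -- the small parameter
  obtain ⟨e, he0, he1, he2, he3⟩ : ∃ e : ℝ, 0 < e ∧ e ≤ 1 / 2 ∧ (H + 1) * e * M ≤ ρ ∧
      C * ((H + 1) * e * M * (H + 2)) < 1 := by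
    have hK1 : 0 < (H + 1) * M := by positivity
    have hK2 : 0 < C * ((H + 1) * M * (H + 2)) := by positivity
    refine ⟨min (1 / 2) (min (ρ / ((H + 1) * M)) (1 / (2 * (C * ((H + 1) * M * (H + 2)))))),
      by positivity, min_le_left _ _, ?_, ?_⟩
    · have h := (min_le_right (1 / 2 : ℝ) _).trans (min_le_left (ρ / ((H + 1) * M))
        (1 / (2 * (C * ((H + 1) * M * (H + 2))))))
      rw [le_div_iff₀ hK1] at h
      linarith
    · have h := (min_le_right (1 / 2 : ℝ) _).trans (min_le_right (ρ / ((H + 1) * M))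
        (1 / (2 * (C * ((H + 1) * M * (H + 2))))))
      rw [le_div_iff₀ (by positivity)] at h
      linarith
  have hσd : ∀ a t : ℝ, HasDerivAt (fun θ => θ + a * (1 - e) * B θ)
      (1 + a * (1 - e) * (β t - 1)) t := fun a t =>
    (hasDerivAt_id t).add ((hBd t).const_mul _)
  have hhd : ∀ a t : ℝ, HasDerivAt (fun θ => -(a * (H + 1) * e) * B θ)
      (-(a * (H + 1) * e) * (β t - 1)) t := fun a t => (hBd t).const_mul _
  have hst : ContDiff ℝ ∞ fun x : ℝ × ℝ => Real.smoothTransition x.1 :=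
    Real.smoothTransition.contDiff.comp contDiff_fst
  have hBs : ContDiff ℝ ∞ fun x : ℝ × ℝ => B x.2 := hB.comp contDiff_snd
  refine ⟨fun l θ => θ + Real.smoothTransition l * (1 - e) * B θ,
    fun l θ => -(Real.smoothTransition l * (H + 1) * e) * B θ, ⟨?_, ?_, contDiff_const, ?_, ?_,
      ?_, fun _ => rfl⟩, ?_⟩
  · exact contDiff_snd.add ((hst.mul contDiff_const).mul hBs)
  · exact (((hst.mul contDiff_const).mul contDiff_const).neg).mul hBs
  · intro l
    have ha0 := Real.smoothTransition.nonneg l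
    have ha1 := Real.smoothTransition.le_one l
    generalize Real.smoothTransition l = a at ha0 ha1
    have hpos : ∀ t, 0 < 1 + a * (1 - e) * (β t - 1) := fun t => by
      have h1 : 0 ≤ a * (1 - e) * β t := mul_nonneg (mul_nonneg ha0 (by linarith)) (hβ0 t)
      have h2 : a * (1 - e) ≤ 1 - e := mul_le_of_le_one_left (by linarith) ha1
      nlinarith
    refine ⟨fun θ => by rw [hBp]; ring, fun θ => by rw [hBp], fun _ => rfl, fun θ => ?_,
      fun θ => ⟨?_, by simpa using hρ.le⟩, fun θ => ?_, fun θ => ?_, fun θ θ' hθ => Or.inl ?_⟩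
    · rw [(hσd a θ).deriv]; exact hpos θ
    · rw [abs_mul, abs_neg, abs_of_nonneg (by positivity)]
      have h1 : a * (H + 1) * e ≤ (H + 1) * e := by
        rw [mul_assoc]; exact mul_le_of_le_one_left (by positivity) ha1
      exact (mul_le_mul h1 (hM θ) (abs_nonneg _) (by positivity)).trans he2
    · rw [(hσd a θ).deriv, deriv_const, add_zero, Complex.norm_real, Real.norm_eq_abs,
        abs_of_pos (hpos θ)]
      linarith [hpos θ]
    · rw [(hσd a θ).deriv, (hhd a θ).deriv, deriv_const, norm_zero, add_zero]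
      have hx : -1 ≤ a * (β θ - 1) := by nlinarith [mul_nonneg ha0 (hβ0 θ)]
      have e1 : -(a * (H + 1) * e) * (β θ - 1) = -((H + 1) * (e * (a * (β θ - 1)))) := by ring
      have e2 : 1 + a * (1 - e) * (β θ - 1) = 1 + (1 - e) * (a * (β θ - 1)) := by ring
      rw [e1, e2, abs_neg, abs_mul, abs_of_pos (by linarith : 0 < H + 1)]
      generalize a * (β θ - 1) = x at hx
      refine mul_le_mul_of_nonneg_left ?_ (by linarith)
      rw [abs_le]
      constructor
      · linarith
      · rcases le_total 0 x with h | h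
        · nlinarith
        · nlinarith
    · have hmono : StrictMono fun θ => θ + a * (1 - e) * B θ :=
        strictMono_of_deriv_pos fun t => by rw [(hσd a t).deriv]; exact hpos t
      have := hmono hθ
      simp only [sub_self] at this ⊢
      linarith
  · intro θ; simp
  · intro θ; simp
  · intro θ b hb hz
    have hβ : β θ = 0 := hβz θ (by linarith)
    unfold err area
    simp only [Real.smoothTransition.one]
    rw [(hσd 1 θ).deriv, (hhd 1 θ).deriv, hβ]
    have e1 : 1 + 1 * (1 - e) * (0 - 1) = e := by ring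
    have e2 : -(1 * (H + 1) * e) * (0 - 1) = (H + 1) * e := by ring
    rw [e1, e2]
    simp only [norm_zero, add_zero, map_zero, zero_mul, Complex.zero_im, abs_zero, ne_eq,
      OfNat.ofNat_ne_zero, not_false_eq_true, zero_pow]
    rw [abs_mul, abs_neg, abs_of_pos (by positivity : 0 < 1 * (H + 1) * e),
      abs_of_pos (by positivity : 0 < (H + 1) * e)]
    have h1 : 1 * (H + 1) * e * |B θ| * (e + (H + 1) * e) ≤ (H + 1) * e * M * (H + 2) * e := by
      have := mul_le_mul_of_nonneg_left (hM θ) (by positivity : 0 ≤ (H + 1) * e * (H + 2) * e)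
      linarith
    have h2 := mul_le_mul_of_nonneg_left h1 hC.le
    have h3 := mul_lt_mul_of_pos_right he3 he0
    have h4 : e * -H ≤ e * b := mul_le_mul_of_nonneg_left (abs_le.1 hb).1 he0.le
    linarith

end Pool.Agent.Lib.MP_72f1d0_gt
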