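import Pool.Agent.Lib.MP_72f1d0_gt.Defs

/-!
Tubular neighbourhood of an embedded torus with a smooth normal frame.
-/

open scoped ContDiff Manifold Topology
open Filter

namespace Pool.Agent.Lib.MP_72f1d0_gt

namespace Tube

variable {M : Type*} [TopologicalSpace M] [ChartedSpace V4 M]

section Calc

variable {E E' : Type*} [NormedAddCommGroup E] [NormedSpace ℝ E] [NormedAddCommGroup E']
  [NormedSpace ℝ E']

/-- the differential of a map from a vector space, with values in the model space -/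
noncomputable def md (g : E → M) (x : E) : E →L[ℝ] V4 := mfderiv 𝓘(ℝ, E) (𝓡 4) g x

/-- the differential of a chart -/
noncomputable def mc (p y : M) : V4 →L[ℝ] V4 := mfderiv (𝓡 4) (𝓡 4) (chartAt V4 p) y

/-- the differential of the inverse of a chart -/
noncomputable def mcs (p : M) (y : V4) : V4 →L[ℝ] V4 :=
  mfderiv (𝓡 4) (𝓡 4) (chartAt V4 p).symm y

theorem md_comp {g : E → M} {k : E' → E} {k' : E' →L[ℝ] E} {x : E'} (hk : HasFDerivAt k k' x)
    (hg : MDifferentiableAt 𝓘(ℝ, E) (𝓡 4) g (k x)) :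
    md (g ∘ k) x = (md g (k x)).comp k' :=
  (HasMFDerivAt.comp x hg.hasMFDerivAt hk.hasMFDerivAt).mfderiv

variable [IsManifold (𝓡 4) ∞ M]

theorem md_chart {g : E → M} {x : E} {p : M} (hg : MDifferentiableAt 𝓘(ℝ, E) (𝓡 4) g x)
    (hx : g x ∈ (chartAt V4 p).source) :
    HasFDerivAt (chartAt V4 p ∘ g) ((mc p (g x)).comp (md g x)) x :=
  (HasMFDerivAt.comp x
    ((mdifferentiable_chart (I := 𝓡 4) p).mdifferentiableAt hx).hasMFDerivAt
    hg.hasMFDerivAt).hasFDerivAt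

theorem md_symm {h : E → V4} {h' : E →L[ℝ] V4} {x : E} {p : M} (hh : HasFDerivAt h h' x)
    (hx : h x ∈ (chartAt V4 p).target) :
    md ((chartAt V4 p).symm ∘ h) x = (mcs p (h x)).comp h' :=
  (HasMFDerivAt.comp x
    ((mdifferentiable_chart (I := 𝓡 4) p).mdifferentiableAt_symm hx).hasMFDerivAt
    hh.hasMFDerivAt).mfderiv

theorem mcs_mc {p y : M} (hy : y ∈ (chartAt V4 p).source) (v : V4) :
    mcs p (chartAt V4 p y) (mc p y v) = v :=
  congrArg (fun A : V4 →L[ℝ] V4 => A v)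
    ((mdifferentiable_chart (I := 𝓡 4) p).symm_comp_deriv hy)

theorem chart_smooth {p y : M} (hy : y ∈ (chartAt V4 p).source) :
    ContMDiffAt (𝓡 4) (𝓡 4) ∞ (chartAt V4 p) y :=
  (contMDiffOn_chart y hy).contMDiffAt ((chartAt V4 p).open_source.mem_nhds hy)

theorem symm_smooth {p : M} {y : V4} (hy : y ∈ (chartAt V4 p).target) :
    ContMDiffAt (𝓡 4) (𝓡 4) ∞ (chartAt V4 p).symm y :=
  (contMDiffOn_chart_symm y hy).contMDiffAt ((chartAt V4 p).open_target.mem_nhds hy)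

/-- the local expression of a smooth section along `f` is smooth -/
theorem section_smooth {f : E → M} {n : E → V4} {p : M} {q : E}
    (hn : ContMDiff 𝓘(ℝ, E) (𝓡 4).tangent ∞
      (fun q => (Bundle.TotalSpace.mk' V4 (f q) (n q) : TangentBundle (𝓡 4) M)))
    (hf : Continuous f) (hq : f q ∈ (chartAt V4 p).source) :
    ContDiffAt ℝ ∞ (fun q => mc p (f q) (n q)) q := by
  have h1 := ((trivializationAt V4 (TangentSpace (𝓡 4)) p).contMDiffAt_iff
    (IB := 𝓡 4) (IM := 𝓘(ℝ, E)) (n := ∞)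
    (f := fun q => (Bundle.TotalSpace.mk' V4 (f q) (n q) : TangentBundle (𝓡 4) M)) (x₀ := q)
    (by simpa using hq)).1 (hn q)
  have h2 := h1.2.contDiffAt
  refine h2.congr_of_eventuallyEq ?_
  filter_upwards [hf.continuousAt.preimage_mem_nhds ((chartAt V4 p).open_source.mem_nhds hq)]
    with x hx
  have h3 := TangentBundle.continuousLinearMapAt_trivializationAt (I := 𝓡 4) (𝕜 := ℝ) hx
  have h4 : mc p (f x) = mfderiv (𝓡 4) (𝓡 4) (extChartAt (𝓡 4) p) (f x) := rfl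
  rw [h4, ← h3]
  exact Bundle.Trivialization.continuousLinearMapAt_apply_of_mem ℝ _ (by simpa using hx) _

end Calc

/-- the normal frame as a linear map on the fibre -/
noncomputable def nf (n₁ n₂ : Q → V4) (q : Q) : ℂ →L[ℝ] V4 :=
  Complex.reCLM.smulRight (n₁ q) + Complex.imCLM.smulRight (n₂ q)

theorem nf_apply (n₁ n₂ : Q → V4) (q : Q) (z : ℂ) :
    nf n₁ n₂ q z = z.re • n₁ q + z.im • n₂ q := by
  simp [nf]

/-- a periodic map that is smooth near the zero section, extends `f`, and has fibre derivative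
`r` times the normal frame -/
structure Good (f : Q → M) (n₁ n₂ : Q → V4) (Th : Q × ℂ → M) (r : Q → ℝ) : Prop where
  per : ∀ q m z, Th (q + lat m, z) = Th (q, z)
  zero : ∀ q, Th (q, 0) = f q
  smooth : ∀ q, ∀ᶠ x in 𝓝 ((q, 0) : Q × ℂ), ContMDiffAt 𝓘(ℝ, Q × ℂ) (𝓡 4) ∞ Th x
  fib : ∀ q z, md Th (q, 0) (0, z) = r q • nf n₁ n₂ q z

theorem good_zero {f : Q → M} (n₁ n₂ : Q → V4) (hf : ContMDiff 𝓘(ℝ, Q) (𝓡 4) ∞ f) (hp : Per f) :
    Good f n₁ n₂ (fun x => f x.1) fun _ => 0 where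
  per q m _ := hp q m
  zero _ := rfl
  smooth _ := Eventually.of_forall fun x =>
    (hf x.1).comp x (contDiff_fst.contMDiff (𝕜 := ℝ) (n := ∞) x)
  fib q z := by
    have h := md_comp (g := f) (k := Prod.fst) (x := ((q, 0) : Q × ℂ)) hasFDerivAt_fst
      ((hf q).mdifferentiableAt (by simp))
    have h' : md (fun x : Q × ℂ => f x.1) (q, 0) = _ := h
    rw [h']
    simp

variable [IsManifold (𝓡 4) ∞ M]

theorem good_step {f : Q → M} {n₁ n₂ : Q → V4} (hf : ContMDiff 𝓘(ℝ, Q) (𝓡 4) ∞ f) (hp : Per f)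
    (p₁ : Per n₁) (p₂ : Per n₂)
    (h₁ : ContMDiff 𝓘(ℝ, Q) (𝓡 4).tangent ∞
      (fun q => (Bundle.TotalSpace.mk' V4 (f q) (n₁ q) : TangentBundle (𝓡 4) M)))
    (h₂ : ContMDiff 𝓘(ℝ, Q) (𝓡 4).tangent ∞
      (fun q => (Bundle.TotalSpace.mk' V4 (f q) (n₂ q) : TangentBundle (𝓡 4) M)))
    {Th : Q × ℂ → M} {r : Q → ℝ} (hT : Good f n₁ n₂ Th r) (p : M) {ρ : Q → ℝ}
    (hρ : ContDiff ℝ ∞ ρ) (pρ : Per ρ)
    (hs : ∀ q, f q ∉ (chartAt V4 p).source → ∀ᶠ x in 𝓝 q, ρ x = 0) :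
    ∃ Th' : Q × ℂ → M, Good f n₁ n₂ Th' fun q => r q + ρ q := by
  classical
  let w : Q × ℂ → V4 := fun x =>
    chartAt V4 p (Th x) + ρ x.1 • mc p (f x.1) (nf n₁ n₂ x.1 x.2)
  let Th' : Q × ℂ → M := fun x => if ρ x.1 = 0 then Th x else (chartAt V4 p).symm (w x)
  have hw0 : ∀ q, w (q, 0) = chartAt V4 p (f q) := by
    intro q
    simp [w, hT.zero]
  have hcont : ∀ q, ContinuousAt Th (q, 0) := fun q => (hT.smooth q).self_of_nhds.continuousAt
  -- near a point of the zero section inside the chart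
  have hin : ∀ q, f q ∈ (chartAt V4 p).source →
      (∀ᶠ x in 𝓝 ((q, 0) : Q × ℂ), Th' x = ((chartAt V4 p).symm ∘ w) x) ∧
      ∀ᶠ x in 𝓝 ((q, 0) : Q × ℂ), ContDiffAt ℝ ∞ w x := by
    intro q hq
    have e1 : ∀ᶠ x in 𝓝 ((q, 0) : Q × ℂ), Th x ∈ (chartAt V4 p).source :=
      (hcont q).preimage_mem_nhds ((chartAt V4 p).open_source.mem_nhds (by rwa [hT.zero]))
    have e2 : ∀ᶠ x in 𝓝 ((q, 0) : Q × ℂ), f x.1 ∈ (chartAt V4 p).source :=
      (hf.continuous.comp continuous_fst).continuousAt.preimage_mem_nhds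
        ((chartAt V4 p).open_source.mem_nhds hq)
    constructor
    · filter_upwards [e1] with x hx
      simp only [Th', Function.comp]
      split_ifs with h0
      · simp [w, h0, (chartAt V4 p).left_inv hx]
      · rfl
    · filter_upwards [e1, e2, hT.smooth q] with x hx hx' hsm
      have a1 : ContDiffAt ℝ ∞ (fun x => chartAt V4 p (Th x)) x :=
        ((chart_smooth hx).comp x hsm).contDiffAt
      have a2 : ContDiffAt ℝ ∞ (fun x : Q × ℂ => mc p (f x.1) (n₁ x.1)) x :=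
        (section_smooth h₁ hf.continuous hx').comp x contDiffAt_fst
      have a3 : ContDiffAt ℝ ∞ (fun x : Q × ℂ => mc p (f x.1) (n₂ x.1)) x :=
        (section_smooth h₂ hf.continuous hx').comp x contDiffAt_fst
      have a4 : ContDiffAt ℝ ∞ (fun x : Q × ℂ => x.2.re) x :=
        (Complex.reCLM.contDiff.comp contDiff_snd).contDiffAt
      have a5 : ContDiffAt ℝ ∞ (fun x : Q × ℂ => x.2.im) x :=
        (Complex.imCLM.contDiff.comp contDiff_snd).contDiffAt
      have a6 : ContDiffAt ℝ ∞ (fun x : Q × ℂ => ρ x.1) x := (hρ.comp contDiff_fst).contDiffAt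
      have a7 := a1.add (a6.smul ((a4.smul a2).add (a5.smul a3)))
      refine a7.congr_of_eventuallyEq (Eventually.of_forall fun y => ?_)
      simp [w, nf_apply]
  have hout : ∀ q, f q ∉ (chartAt V4 p).source → Th' =ᶠ[𝓝 ((q, 0) : Q × ℂ)] Th := by
    intro q hq
    have c : Tendsto Prod.fst (𝓝 ((q, 0) : Q × ℂ)) (𝓝 q) := continuous_fst.continuousAt
    filter_upwards [c.eventually (hs q hq)] with x hx
    simp only [Th', if_pos hx]
  refine ⟨Th', ?_, ?_, ?_, ?_⟩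
  · intro q m z
    simp only [Th', w, pρ q m, hT.per, hp q m, nf_apply, p₁ q m, p₂ q m]
  · intro q
    simp only [Th']
    split_ifs with h0
    · exact hT.zero q
    · have hq : f q ∈ (chartAt V4 p).source := by
        by_contra hq
        exact h0 (hs q hq).self_of_nhds
      rw [hw0, (chartAt V4 p).left_inv hq]
  · intro q
    by_cases hq : f q ∈ (chartAt V4 p).source
    · obtain ⟨e1, e2⟩ := hin q hq
      have e3 : ∀ᶠ x in 𝓝 ((q, 0) : Q × ℂ), w x ∈ (chartAt V4 p).target :=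
        e2.self_of_nhds.continuousAt.preimage_mem_nhds
          ((chartAt V4 p).open_target.mem_nhds (by rw [hw0]; exact (chartAt V4 p).map_source hq))
      filter_upwards [e1.eventually_nhds, e2, e3] with x a1 a2 a3
      exact ((symm_smooth a3).comp x a2.contMDiffAt).congr_of_eventuallyEq a1
    · filter_upwards [(hout q hq).eventually_nhds, hT.smooth q] with x a1 a2
      exact a2.congr_of_eventuallyEq a1
  · intro q z
    by_cases hq : f q ∈ (chartAt V4 p).source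
    · obtain ⟨e1, e2⟩ := hin q hq
      have b1 : md Th' (q, 0) = md ((chartAt V4 p).symm ∘ w) (q, 0) :=
        Filter.EventuallyEq.mfderiv_eq e1
      have b2 := (e2.self_of_nhds.differentiableAt (by simp)).hasFDerivAt
      have b3 := md_symm (p := p) b2 (by rw [hw0]; exact (chartAt V4 p).map_source hq)
      have b4 := md_chart (p := p) ((hT.smooth q).self_of_nhds.mdifferentiableAt (by simp))
        (by rwa [hT.zero])
      have hk : HasFDerivAt (fun z : ℂ => ((q, z) : Q × ℂ)) (ContinuousLinearMap.inr ℝ Q ℂ) 0 :=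
        hasFDerivAt_prodMk_right q 0
      have b5 := (b4.comp (0 : ℂ) hk).add
        (((mc p (f q)).comp (nf n₁ n₂ q)).hasFDerivAt.const_smul (ρ q))
      have b6 := (b2.comp (0 : ℂ) hk).unique b5
      have b7 := congrArg (fun A : ℂ →L[ℝ] V4 => A z) b6
      simp only [ContinuousLinearMap.comp_apply, ContinuousLinearMap.inr_apply,
        add_apply, smul_apply, hT.zero, hT.fib] at b7
      rw [b1, b3, ContinuousLinearMap.comp_apply, b7, hw0, ← map_smul (mc p (f q)) (ρ q),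
        ← map_add, mcs_mc hq, add_smul]
    · have b1 : md Th' (q, 0) = md Th (q, 0) := Filter.EventuallyEq.mfderiv_eq (hout q hq)
      rw [b1, hT.fib, (hs q hq).self_of_nhds, add_zero]

/-- the unit square -/
def sq : Set Q := Set.Icc 0 1 ×ˢ Set.Icc 0 1

theorem sq_compact : IsCompact sq := isCompact_Icc.prod isCompact_Icc

theorem exists_red (q : Q) : ∃ k ∈ sq, ∃ m, q = k + lat m := by
  refine ⟨(Int.fract q.1, Int.fract q.2), ⟨⟨Int.fract_nonneg _, (Int.fract_lt_one _).le⟩,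
    ⟨Int.fract_nonneg _, (Int.fract_lt_one _).le⟩⟩, (⌊q.1⌋, ⌊q.2⌋), ?_⟩
  ext <;> simp [lat]

theorem lat_add (m m' : ℤ × ℤ) : lat (m + m') = lat m + lat m' := by
  simp [lat]

theorem lat_neg (m : ℤ × ℤ) : lat (-m) = -lat m := by
  simp [lat]

/-- a periodic bump around the orbit of `q₀` -/
theorem exists_bump {O : Set Q} (hO : IsOpen O) (pO : ∀ q m, q ∈ O → q + lat m ∈ O) {q₀ : Q}
    (h₀ : q₀ ∈ O) : ∃ ρ : Q → ℝ, ContDiff ℝ ∞ ρ ∧ Per ρ ∧ (∀ q, 0 ≤ ρ q) ∧ 0 < ρ q₀ ∧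
      ∀ q, q ∉ O → ∀ᶠ x in 𝓝 q, ρ x = 0 := by
  let β : Q → ℝ := fun q =>
    Real.cos (2 * Real.pi * (q.1 - q₀.1)) + Real.cos (2 * Real.pi * (q.2 - q₀.2)) - 2
  have hβ : ContDiff ℝ ∞ β := by
    simp only [β]
    fun_prop
  have pβ : Per β := by
    intro q m
    have e : ∀ (a b : ℝ) (k : ℤ), Real.cos (2 * Real.pi * (a + k - b)) =
        Real.cos (2 * Real.pi * (a - b)) := by
      intro a b k
      rw [← Real.cos_add_int_mul_two_pi (2 * Real.pi * (a - b)) k]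
      congr 1
      ring
    simp only [β, lat, Prod.fst_add, Prod.snd_add, e]
  have hneg : ∀ q, q ∉ O → β q < 0 := by
    intro q hq
    by_contra hn
    have c1 := Real.cos_le_one (2 * Real.pi * (q.1 - q₀.1))
    have c2 := Real.cos_le_one (2 * Real.pi * (q.2 - q₀.2))
    simp only [β] at hn
    obtain ⟨k₁, e₁⟩ := (Real.cos_eq_one_iff _).1
      (show Real.cos (2 * Real.pi * (q.1 - q₀.1)) = 1 by linarith)
    obtain ⟨k₂, e₂⟩ := (Real.cos_eq_one_iff _).1
      (show Real.cos (2 * Real.pi * (q.2 - q₀.2)) = 1 by linarith)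
    have hpi : (2 * Real.pi) ≠ 0 := by positivity
    have d₁ : q.1 - q₀.1 = k₁ := mul_left_cancel₀ hpi (by linarith)
    have d₂ : q.2 - q₀.2 = k₂ := mul_left_cancel₀ hpi (by linarith)
    apply hq
    have : q = q₀ + lat (k₁, k₂) := by
      ext <;> simp [lat] <;> linarith
    rw [this]
    exact pO _ _ h₀
  obtain ⟨δ, hδ, hb⟩ : ∃ δ : ℝ, 0 < δ ∧ ∀ q ∈ sq ∩ Oᶜ, β q < -δ := by
    rcases (sq ∩ Oᶜ).eq_empty_or_nonempty with he | he
    · exact ⟨1, one_pos, by simp [he]⟩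
    · obtain ⟨k, hk, hmax⟩ := (sq_compact.inter_right hO.isClosed_compl).exists_isMaxOn he
        hβ.continuous.continuousOn
      have := hneg k hk.2
      refine ⟨-β k / 2, by linarith, fun q hq => ?_⟩
      have : β q ≤ β k := hmax hq
      linarith
  refine ⟨fun q => expNegInvGlue (β q + δ), expNegInvGlue.contDiff.comp (hβ.add contDiff_const),
    fun q m => by simp only [pβ q m], fun q => expNegInvGlue.nonneg _, ?_, fun q hq => ?_⟩
  · apply expNegInvGlue.pos_of_pos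
    simp only [β, sub_self, mul_zero, Real.cos_zero]
    linarith
  · obtain ⟨k, hk, m, rfl⟩ := exists_red q
    have h1 : β (k + lat m) < -δ := by
      rw [pβ]
      exact hb k ⟨hk, fun h => hq (pO _ _ h)⟩
    filter_upwards [hβ.continuous.continuousAt.eventually_lt continuousAt_const h1] with x hx
    exact expNegInvGlue.zero_of_nonpos (by linarith)

theorem exists_good {f : Q → M} {n₁ n₂ : Q → V4} (hf : ContMDiff 𝓘(ℝ, Q) (𝓡 4) ∞ f) (hp : Per f)
    (p₁ : Per n₁) (p₂ : Per n₂)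
    (h₁ : ContMDiff 𝓘(ℝ, Q) (𝓡 4).tangent ∞
      (fun q => (Bundle.TotalSpace.mk' V4 (f q) (n₁ q) : TangentBundle (𝓡 4) M)))
    (h₂ : ContMDiff 𝓘(ℝ, Q) (𝓡 4).tangent ∞
      (fun q => (Bundle.TotalSpace.mk' V4 (f q) (n₂ q) : TangentBundle (𝓡 4) M))) :
    ∃ (Th : Q × ℂ → M) (r : Q → ℝ), Good f n₁ n₂ Th r ∧ ∀ q, 0 < r q := by
  classical
  have hb : ∀ q₀ : Q, ∃ ρ : Q → ℝ, ContDiff ℝ ∞ ρ ∧ Per ρ ∧ (∀ q, 0 ≤ ρ q) ∧ 0 < ρ q₀ ∧
      ∀ q, q ∉ f ⁻¹' (chartAt V4 (f q₀)).source → ∀ᶠ x in 𝓝 q, ρ x = 0 := fun q₀ =>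
    exists_bump ((chartAt V4 (f q₀)).open_source.preimage hf.continuous)
      (fun q m h => by simpa [hp q m] using h) (mem_chart_source V4 (f q₀))
  choose ρ hρ pρ nρ hρ0 hs using hb
  obtain ⟨t, -, ht⟩ := sq_compact.elim_nhds_subcover (fun q₀ => {q | 0 < ρ q₀ q}) fun q₀ _ =>
    (isOpen_lt continuous_const (hρ q₀).continuous).mem_nhds (hρ0 q₀)
  have key : ∀ t : Finset Q, ∃ Th : Q × ℂ → M, Good f n₁ n₂ Th fun q => ∑ i ∈ t, ρ i q := by
    intro t
    induction t using Finset.induction_on with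
    | empty => exact ⟨_, by simpa using good_zero n₁ n₂ hf hp⟩
    | insert i t hi ih =>
      obtain ⟨Th, hT⟩ := ih
      obtain ⟨Th', hT'⟩ := good_step hf hp p₁ p₂ h₁ h₂ hT (f i) (hρ i) (pρ i) (hs i)
      refine ⟨Th', ?_⟩
      simpa only [Finset.sum_insert hi, add_comm] using hT'
  obtain ⟨Th, hT⟩ := key t
  refine ⟨Th, _, hT, fun q => ?_⟩
  obtain ⟨k, hk, m, rfl⟩ := exists_red q
  obtain ⟨i, hi, hki⟩ := Set.mem_iUnion₂.1 (ht hk)
  refine Finset.sum_pos' (fun j _ => nρ j _) ⟨i, hi, ?_⟩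
  rw [pρ i]
  exact hki

theorem inv_of_inj {E : Type*} [NormedAddCommGroup E] [NormedSpace ℝ E] [FiniteDimensional ℝ E]
    (hE : Module.finrank ℝ E = 4) (A : E →L[ℝ] V4) (hA : Function.Injective A) :
    A.IsInvertible := by
  have h : Module.finrank ℝ E = Module.finrank ℝ V4 := by simp [hE]
  exact ⟨(LinearMap.linearEquivOfInjective (A : E →ₗ[ℝ] V4) hA h).toContinuousLinearEquiv,
    by ext v; simp⟩

theorem finrank_QC : Module.finrank ℝ (Q × ℂ) = 4 := by simp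

theorem finrank_G : Module.finrank ℝ G = 4 := by simp

/-- local structure near a point of the zero section -/
theorem loc {Th : Q × ℂ → M} {x₀ : Q × ℂ}
    (hs : ∀ᶠ x in 𝓝 x₀, ContMDiffAt 𝓘(ℝ, Q × ℂ) (𝓡 4) ∞ Th x)
    (hi : Function.Injective (md Th x₀)) :
    (∀ᶠ x in 𝓝 x₀, Function.Injective (md Th x)) ∧ ∃ U ∈ 𝓝 x₀, Set.InjOn Th U := by
  have h0 := hs.self_of_nhds
  have hsrc := mem_chart_source V4 (Th x₀)
  have hg : ContDiffAt ℝ ∞ (chartAt V4 (Th x₀) ∘ Th) x₀ := ((chart_smooth hsrc).comp x₀ h0).contDiffAt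
  have hd := md_chart (h0.mdifferentiableAt (by simp)) hsrc
  have hinj : Function.Injective ((mc (Th x₀) (Th x₀)).comp (md Th x₀)) := by
    intro v v' h
    apply hi
    have := congrArg (mcs (Th x₀) (chartAt V4 (Th x₀) (Th x₀))) h
    simpa only [ContinuousLinearMap.comp_apply, mcs_mc hsrc] using this
  obtain ⟨A, hA⟩ := inv_of_inj finrank_QC _ hinj
  constructor
  · have e1 : ∀ᶠ x in 𝓝 x₀, fderiv ℝ (chartAt V4 (Th x₀) ∘ Th) x ∈
        Set.range ((↑) : ((Q × ℂ) ≃L[ℝ] V4) → (Q × ℂ) →L[ℝ] V4) :=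
      (hg.continuousAt_fderiv (by simp)).preimage_mem_nhds
        (ContinuousLinearEquiv.isOpen.mem_nhds ⟨A, by rw [hA, hd.fderiv]⟩)
    have e2 : ∀ᶠ x in 𝓝 x₀, Th x ∈ (chartAt V4 (Th x₀)).source :=
      h0.continuousAt.preimage_mem_nhds ((chartAt V4 (Th x₀)).open_source.mem_nhds hsrc)
    filter_upwards [e1, e2, hs] with x ⟨B, hB⟩ a2 a3
    rw [(md_chart (a3.mdifferentiableAt (by simp)) a2).fderiv] at hB
    intro v v' h
    apply B.injective
    have c : ∀ u, B u = mc (Th x₀) (Th x) (md Th x u) := fun u =>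
      congrArg (fun A : (Q × ℂ) →L[ℝ] V4 => A u) hB
    rw [c, c, h]
  · have hst : HasStrictFDerivAt (chartAt V4 (Th x₀) ∘ Th) (A : (Q × ℂ) →L[ℝ] V4) x₀ :=
      hg.hasStrictFDerivAt' (hA ▸ hd) (by simp)
    refine ⟨_, hst.eventually_left_inverse, fun x hx y hy h => ?_⟩
    simp only [Set.mem_ofPred_eq, Function.comp] at hx hy
    rw [← hx, ← hy, h]

omit [IsManifold (𝓡 4) ∞ M] in
theorem Good.md_inj {f : Q → M} {n₁ n₂ : Q → V4} {Th : Q × ℂ → M} {r : Q → ℝ}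
    (hT : Good f n₁ n₂ Th r) (hr : ∀ q, 0 < r q)
    (hn : ∀ (q v : Q) (a b : ℝ), md f q v + a • n₁ q + b • n₂ q = 0 → v = 0 ∧ a = 0 ∧ b = 0)
    (q : Q) : Function.Injective (md Th (q, 0)) := by
  have hk : HasFDerivAt (fun v : Q => ((v, 0) : Q × ℂ)) (ContinuousLinearMap.inl ℝ Q ℂ) q :=
    hasFDerivAt_prodMk_left q 0
  have h1 := md_comp hk ((hT.smooth q).self_of_nhds.mdifferentiableAt (by simp))
  have h2 : (Th ∘ fun v : Q => ((v, 0) : Q × ℂ)) = f := funext hT.zero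
  rw [h2] at h1
  rw [injective_iff_map_eq_zero]
  rintro ⟨v, z⟩ h
  have h3 : md Th (q, 0) (v, z) = md Th (q, 0) (v, 0) + md Th (q, 0) (0, z) := by
    rw [← map_add]; simp
  have h4 : md Th (q, 0) (v, 0) = md f q v := by rw [h1]; rfl
  rw [h3, h4, hT.fib, nf_apply, smul_add, smul_smul, smul_smul, ← add_assoc] at h
  obtain ⟨a1, a2, a3⟩ := hn _ _ _ _ h
  have := (hr q).ne'
  exact Prod.ext a1 (Complex.ext ((mul_eq_zero.1 a2).resolve_left this)
    ((mul_eq_zero.1 a3).resolve_left this))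

omit [IsManifold (𝓡 4) ∞ M] in
theorem transfer {Th : Q × ℂ → M} {x t : Q × ℂ} (hp : ∀ y, Th (y + -t) = Th y)
    (hs : ContMDiffAt 𝓘(ℝ, Q × ℂ) (𝓡 4) ∞ Th x) (hi : Function.Injective (md Th x)) :
    ContMDiffAt 𝓘(ℝ, Q × ℂ) (𝓡 4) ∞ Th (x + t) ∧ Function.Injective (md Th (x + t)) := by
  have h2 : (Th ∘ fun y => y + -t) = Th := funext hp
  have e : x + t + -t = x := by simp
  constructor
  · rw [← h2]
    refine ContMDiffAt.comp (x + t) (by rwa [e]) ?_
    exact (contDiff_id.add contDiff_const).contMDiff.contMDiffAt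
  · have hk : HasFDerivAt (fun y : Q × ℂ => y + -t) (ContinuousLinearMap.id ℝ _) (x + t) :=
      (hasFDerivAt_id _).add_const _
    have h1 := md_comp (g := Th) hk (by rw [e]; exact hs.mdifferentiableAt (by simp))
    rw [h2, e] at h1
    rw [h1]
    exact hi

theorem exists_radius [T2Space M] {f : Q → M} {n₁ n₂ : Q → V4} {Th : Q × ℂ → M} {r : Q → ℝ}
    (hT : Good f n₁ n₂ Th r) (hi : ∀ q, Function.Injective (md Th (q, 0)))
    (hf : ∀ q q', f q = f q' → ∃ m, q' = q + lat m) :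
    ∃ d : ℝ, 0 < d ∧ (∀ q, ∀ z ∈ Metric.ball (0 : ℂ) d,
      ContMDiffAt 𝓘(ℝ, Q × ℂ) (𝓡 4) ∞ Th (q, z) ∧ Function.Injective (md Th (q, z))) ∧
      ∀ q q', ∀ z ∈ Metric.ball (0 : ℂ) d, ∀ z' ∈ Metric.ball (0 : ℂ) d, Th (q, z) = Th (q', z') →
        ∃ m, q' = q + lat m ∧ z' = z := by
  have hcont : ∀ q, ContinuousAt Th (q, 0) := fun q => (hT.smooth q).self_of_nhds.continuousAt
  have e1 : ∀ᶠ z in 𝓝 (0 : ℂ), ∀ q ∈ sq,
      ContMDiffAt 𝓘(ℝ, Q × ℂ) (𝓡 4) ∞ Th (q, z) ∧ Function.Injective (md Th (q, z)) := by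
    refine sq_compact.eventually_forall_of_forall_eventually fun q _ => ?_
    exact (continuous_swap.continuousAt (x := ((0, q) : ℂ × Q))).eventually
      ((hT.smooth q).and (loc (hT.smooth q) (hi q)).1)
  have e2 : ∀ᶠ z in 𝓝 ((0, 0) : ℂ × ℂ), ∀ k ∈ sq ×ˢ sq, Th (k.1, z.1) = Th (k.2, z.2) →
      ∃ m, k.2 = k.1 + lat m ∧ z.2 = z.1 := by
    refine (sq_compact.prod sq_compact).eventually_forall_of_forall_eventually fun k _ => ?_
    have c1 : ContinuousAt (fun y : (ℂ × ℂ) × Q × Q => ((y.2.1, y.1.1) : Q × ℂ)) ((0, 0), k) := by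
      fun_prop
    have c2 : ContinuousAt (fun y : (ℂ × ℂ) × Q × Q => ((y.2.2, y.1.2) : Q × ℂ)) ((0, 0), k) := by
      fun_prop
    by_cases he : f k.1 = f k.2
    · obtain ⟨m, hm⟩ := hf _ _ he
      obtain ⟨U, hU, hinj⟩ := (loc (hT.smooth k.1) (hi k.1)).2
      have c3 : ContinuousAt (fun y : (ℂ × ℂ) × Q × Q => ((y.2.2 + lat (-m), y.1.2) : Q × ℂ))
          ((0, 0), k) := by fun_prop
      have hU' : U ∈ 𝓝 ((k.2 + lat (-m), 0) : Q × ℂ) := by
        rwa [hm, lat_neg, add_neg_cancel_right]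
      filter_upwards [c1.preimage_mem_nhds hU, c3.preimage_mem_nhds hU'] with y a1 a2 h
      have := hinj a1 a2 (by rw [hT.per]; exact h)
      simp only [Prod.mk.injEq] at this
      exact ⟨m, by rw [this.1, lat_neg, neg_add_cancel_right], this.2.symm⟩
    · have hne : Th (k.1, 0) ≠ Th (k.2, 0) := by rwa [hT.zero, hT.zero]
      have d1 : ContinuousAt (fun y : (ℂ × ℂ) × Q × Q => Th (y.2.1, y.1.1)) ((0, 0), k) :=
        ContinuousAt.comp_of_eq (hcont k.1) c1 rfl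
      have d2 : ContinuousAt (fun y : (ℂ × ℂ) × Q × Q => Th (y.2.2, y.1.2)) ((0, 0), k) :=
        ContinuousAt.comp_of_eq (hcont k.2) c2 rfl
      filter_upwards [(d1.ne_iff_eventually_ne d2).1 hne] with y a1 h
      exact absurd h a1
  obtain ⟨d₁, hd₁, b₁⟩ := Metric.eventually_nhds_iff_ball.1 e1
  obtain ⟨d₂, hd₂, b₂⟩ := Metric.eventually_nhds_iff_ball.1 e2
  refine ⟨min d₁ d₂, lt_min hd₁ hd₂, fun q z hz => ?_, fun q q' z hz z' hz' h => ?_⟩
  · obtain ⟨k, hk, m, rfl⟩ := exists_red q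
    obtain ⟨a1, a2⟩ := b₁ z (Metric.ball_subset_ball (min_le_left _ _) hz) k hk
    have := transfer (t := (lat m, 0)) (fun y => by
      have := hT.per y.1 (-m) y.2
      rw [lat_neg] at this
      rw [← this]
      congr 1
      ext <;> simp) a1 a2
    simpa using this
  · obtain ⟨k, hk, m, rfl⟩ := exists_red q
    obtain ⟨k', hk', m', rfl⟩ := exists_red q'
    rw [hT.per, hT.per] at h
    obtain ⟨m'', a1, a2⟩ := b₂ (z, z') (by
      rw [← ball_prod_same]
      exact ⟨Metric.ball_subset_ball (min_le_right _ _) hz,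
        Metric.ball_subset_ball (min_le_right _ _) hz'⟩) (k, k') ⟨hk, hk'⟩ h
    refine ⟨m'' + m' + -m, ?_, a2⟩
    simp only at a1
    rw [a1, lat_add, lat_add, lat_neg]
    abel

theorem exists_shrink {d : ℝ} (hd : 0 < d) : ∃ σ : ℂ → ℂ, ContDiff ℝ ∞ σ ∧ σ 0 = 0 ∧
    Function.Injective σ ∧ (∀ z, σ z ∈ Metric.ball (0 : ℂ) d) ∧
    ∀ z, Function.Injective (fderiv ℝ σ z) := by
  let e : OpenPartialHomeomorph ℂ ℂ := OpenPartialHomeomorph.univBall (0 : ℂ) d
  have hs : ∀ z, z ∈ e.source := fun z => by simp [e]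
  have ht : ∀ z, e z ∈ Metric.ball (0 : ℂ) d := fun z => by
    rw [← OpenPartialHomeomorph.univBall_target (E := ℂ) (0 : ℂ) hd]
    exact e.map_source (hs z)
  have hc : ContDiff ℝ ∞ e := OpenPartialHomeomorph.contDiff_univBall
  refine ⟨e, hc, OpenPartialHomeomorph.univBall_apply_zero _ _,
    fun z z' h => e.injOn (hs z) (hs z') h, ht, fun z => ?_⟩
  have h1 : DifferentiableAt ℝ e.symm (e z) :=
    ((OpenPartialHomeomorph.contDiffOn_univBall_symm (n := ⊤) (c := (0 : ℂ)) (r := d)).contDiffAt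
      (Metric.isOpen_ball.mem_nhds (ht z))).differentiableAt (by simp)
  have h2 := fderiv_comp z h1 (hc.differentiable (by simp) z)
  have h3 : (e.symm ∘ e : ℂ → ℂ) = id := funext fun z => e.left_inv (hs z)
  rw [h3, fderiv_id] at h2
  intro v v' h
  have c : ∀ u, u = fderiv ℝ e.symm (e z) (fderiv ℝ e z u) := fun u =>
    congrArg (fun A : ℂ →L[ℝ] ℂ => A u) h2
  rw [c v, c v', h]

end Tube

open Tube in
theorem tube.{u} : TubeStmt.{u} := by
  intro M _ _ _ _ f hf n₁ n₂ p₁ p₂ h₁ h₂ hn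
  have hp : Per f := fun q m => ((hf.2.1 q (q + lat m)).2 ⟨m.1, m.2, rfl⟩).symm
  obtain ⟨Th, r, hT, hr⟩ := exists_good hf.1 hp p₁ p₂ h₁ h₂
  obtain ⟨d, hd, hs, hi⟩ := exists_radius hT (hT.md_inj hr hn) fun q q' h => by
    obtain ⟨m, n, e⟩ := (hf.2.1 q q').1 h
    exact ⟨(m, n), e⟩
  obtain ⟨σ, hσ, σ0, σi, σb, σd⟩ := exists_shrink hd
  let Ψ : G → Q × ℂ := Prod.map Complex.equivRealProdCLM σ
  have hΨ : ContDiff ℝ ∞ Ψ := Complex.equivRealProdCLM.contDiff.prodMap hσ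
  refine ⟨Th ∘ Ψ, fun p => (hs _ _ (σb p.2)).1.comp p hΨ.contMDiff.contMDiffAt, fun p => ?_,
    fun p p' => ⟨fun h => ?_, ?_⟩, fun q => ?_⟩
  · have hk : HasFDerivAt Ψ ((Complex.equivRealProdCLM : ℂ →L[ℝ] Q).prodMap (fderiv ℝ σ p.2)) p :=
      HasFDerivAt.prodMap p Complex.equivRealProdCLM.hasFDerivAt
        (hσ.differentiable (by simp) p.2).hasFDerivAt
    have h1 := md_comp (g := Th) hk ((hs _ _ (σb p.2)).1.mdifferentiableAt (by simp))
    refine inv_of_inj finrank_G (md (Th ∘ Ψ) p) ?_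
    rw [h1]
    exact (hs _ _ (σb p.2)).2.comp
      (Function.Injective.prodMap Complex.equivRealProdCLM.injective (σd p.2))
  · obtain ⟨m, a1, a2⟩ := hi _ _ _ (σb p.2) _ (σb p'.2) h
    refine ⟨m, ?_⟩
    have b1 := congrArg Prod.fst a1
    have b2 := congrArg Prod.snd a1
    have b3 := σi a2
    simp only [Complex.equivRealProdCLM_apply, Prod.fst_add, Prod.snd_add] at b1 b2
    refine Prod.ext (Complex.ext ?_ ?_) ?_ <;> simp [i0, b1, b2, b3]
  · rintro ⟨m, rfl⟩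
    have : Ψ (p + i0 (lat m)) = ((Ψ p).1 + lat m, (Ψ p).2) := by
      ext <;> simp [Ψ, i0]
    simp only [Function.comp, this, hT.per]
  · have : Ψ (i0 q) = (q, 0) := by
      ext <;> simp [Ψ, i0, σ0]
    simp only [Function.comp, this, hT.zero]

end Pool.Agent.Lib.MP_72f1d0_gt
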